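import Mathlib
import Pool.Agent.H358R5.MainC
import Pool.Agent.TH779.Shat.Comb
import Pool.Agent.Cov.PNT

/-! Words of the indicator sequence of the primes. -/

set_option autoImplicit false

namespace Run7.h275.WC

open Finset Filter Topology

/-- `S` is a block: for infinitely many `N` the numbers `N + s`, `s ∈ S`, are consecutive primes
(all of them are primes, and every prime between the first and the last of them is one of them). -/
def Block (S : Finset ℕ) : Prop :=
  {N : ℕ | (∀ s ∈ S, (N + s).Prime) ∧ ∀ p : ℕ, p.Prime →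
    (∃ s ∈ S, ∃ t ∈ S, N + s ≤ p ∧ p ≤ N + t) → ∃ s ∈ S, p = N + s}.Infinite

/-- The word of length `n` which is the indicator of `w` occurs infinitely often in the indicator sequence
of the primes. -/
def Word (n : ℕ) (w : Finset ℕ) : Prop :=
  w ⊆ range n ∧ {N : ℕ | ∀ i < n, (N + i).Prime ↔ i ∈ w}.Infinite

theorem infinite_of_freq (s : Set ℕ) (h : ∃ᶠ x : ℝ in atTop,
    x ^ (1 - 1 / 2 : ℝ) ≤ (Set.ncard {n : ℕ | (n : ℝ) ≤ x ∧ n ∈ s} : ℝ)) : s.Infinite := by
  intro hfin
  have h1 : ∀ᶠ x : ℝ in atTop, (s.ncard : ℝ) < x ^ (1 - 1 / 2 : ℝ) :=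
    (tendsto_rpow_atTop (by norm_num : (0 : ℝ) < 1 - 1 / 2)).eventually_gt_atTop _
  obtain ⟨x, hx1, hx2⟩ := (h.and_eventually h1).exists
  have h2 : Set.ncard {n : ℕ | (n : ℝ) ≤ x ∧ n ∈ s} ≤ s.ncard :=
    Set.ncard_le_ncard (fun n hn => hn.2) hfin
  have h3 : (Set.ncard {n : ℕ | (n : ℝ) ≤ x ∧ n ∈ s} : ℝ) ≤ s.ncard := by exact_mod_cast h2
  linarith

theorem exists_block (m : ℕ) (hm : 2 ≤ m) (B : Finset ℕ)
    (hB : 4 * (m : ℝ) + 29 / 50 ≤ Real.log B.card)
    (hadm : ∀ p : ℕ, p.Prime → ∃ r : ℤ, ∀ h ∈ B, ¬ (p : ℤ) ∣ r + (h : ℤ)) :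
    ∃ S : Finset ℕ, S ⊆ B ∧ S.card = m + 1 ∧ Block S := by
  classical
  obtain ⟨S, hS, hcard, hfreq⟩ := Pool.Agent.H358R5.pattern_many m hm (B.map Nat.castEmbedding)
    (by rw [card_map]; exact hB) (by
      intro p hp
      obtain ⟨r, hr⟩ := hadm p hp
      refine ⟨r, fun h hh => ?_⟩
      rw [Finset.mem_map] at hh
      obtain ⟨b, hb, rfl⟩ := hh
      exact hr b hb)
  obtain ⟨T, hT, rfl⟩ := subset_map_iff.1 hS
  refine ⟨T, hT, by rwa [card_map] at hcard, ?_⟩
  refine infinite_of_freq _ ?_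
  refine (hfreq (1 / 2) (by norm_num)).mono fun x hx => hx.trans (le_of_eq ?_)
  congr 2
  ext n
  simp only [Set.mem_ofPred_eq, Finset.mem_map, Nat.castEmbedding_apply, exists_exists_and_eq_and]
  constructor
  · rintro ⟨h1, h2, h3⟩
    refine ⟨h1, fun s hs => ?_, fun p hp ⟨s, hs, t, ht, h4, h5⟩ => ?_⟩
    · obtain ⟨p, hp, hp2⟩ := h2 (s : ℤ) ⟨s, hs, rfl⟩
      have : p = n + s := by exact_mod_cast hp2
      rwa [← this]
    · obtain ⟨u, hu, hu2⟩ := h3 p hp ⟨s, hs, t, ht, by exact_mod_cast h4, by exact_mod_cast h5⟩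
      exact ⟨u, hu, by exact_mod_cast hu2⟩
  · rintro ⟨h1, h2, h3⟩
    refine ⟨h1, ?_, ?_⟩
    · rintro s ⟨t, ht, rfl⟩
      exact ⟨n + t, h2 t ht, by push_cast; rfl⟩
    · rintro p hp ⟨s, hs, t, ht, h4, h5⟩
      obtain ⟨u, hu, hu2⟩ := h3 p hp ⟨s, hs, t, ht, by exact_mod_cast h4, by exact_mod_cast h5⟩
      exact ⟨u, hu, by exact_mod_cast hu2⟩

open Classical in
theorem count_blocks (m K : ℕ) (hm : 2 ≤ m) (H : Finset ℕ) (hKH : K ≤ H.card)
    (hK : 4 * (m : ℝ) + 29 / 50 ≤ Real.log K)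
    (hadm : ∀ p : ℕ, p.Prime → ∃ r : ℤ, ∀ h ∈ H, ¬ (p : ℤ) ∣ r + (h : ℤ)) :
    H.card ^ (m + 1) ≤ K ^ (m + 1) * ((H.powersetCard (m + 1)).filter Block).card := by
  have h1 := Pool.Agent.TH779.Shat.hitting (α := {x // x ∈ H})
    (univ.filter fun T : Finset {x // x ∈ H} => T.card = m + 1 ∧
      Block (T.map (Function.Embedding.subtype _))) K (m + 1)
    (by rw [Fintype.card_coe]; exact hKH) (by
      intro S hS
      obtain ⟨T, hT, hT2, hT3⟩ := exists_block m hm (S.map (Function.Embedding.subtype _))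
        (by rw [card_map, hS]; exact hK) (by
          intro p hp
          obtain ⟨r, hr⟩ := hadm p hp
          refine ⟨r, fun h hh => ?_⟩
          rw [Finset.mem_map] at hh
          obtain ⟨b, hb, rfl⟩ := hh
          exact hr _ b.2)
      obtain ⟨U, hU, rfl⟩ := subset_map_iff.1 hT
      rw [card_map] at hT2
      exact ⟨U, mem_filter.2 ⟨mem_univ _, hT2, hT3⟩, hU, hT2.ge⟩)
  rw [mul_one, Fintype.card_coe] at h1
  refine h1.trans (Nat.mul_le_mul_left _ ?_)
  refine card_le_card_of_injOn (fun T => T.map (Function.Embedding.subtype _)) ?_ ?_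
  · intro T hT
    simp only [coe_filter, mem_univ, true_and, Set.mem_ofPred_eq] at hT
    simp only [coe_filter, mem_powersetCard, Set.mem_ofPred_eq, card_map]
    refine ⟨⟨?_, hT.1⟩, hT.2⟩
    intro x hx
    rw [Finset.mem_map] at hx
    obtain ⟨b, -, rfl⟩ := hx
    exact b.2
  · intro T _ T' _ h
    exact map_injective _ h

/-- the primes in `(n / 2, n)` -/
def PH (n : ℕ) : Finset ℕ := (Ioo (n / 2) n).filter Nat.Prime

theorem PH_adm (n : ℕ) (p : ℕ) (hp : p.Prime) : ∃ r : ℤ, ∀ h ∈ PH n, ¬ (p : ℤ) ∣ r + (h : ℤ) := by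
  by_cases h : p ≤ n / 2
  · refine ⟨0, fun q hq hdvd => ?_⟩
    rw [PH, mem_filter, mem_Ioo] at hq
    rw [zero_add, Int.natCast_dvd_natCast] at hdvd
    have := (Nat.prime_dvd_prime_iff_eq hp hq.2).1 hdvd
    omega
  · refine ⟨-((n / 2 : ℕ) : ℤ), fun q hq hdvd => ?_⟩
    rw [PH, mem_filter, mem_Ioo] at hq
    obtain ⟨⟨h1, h2⟩, -⟩ := hq
    have h3 : -((n / 2 : ℕ) : ℤ) + (q : ℤ) = ((q - n / 2 : ℕ) : ℤ) := by omega
    rw [h3, Int.natCast_dvd_natCast] at hdvd
    have := Nat.le_of_dvd (by omega) hdvd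
    omega

theorem PH_card (n : ℕ) : n.primeCounting ≤ (PH n).card + 1 + (n / 2).primeCounting := by
  classical
  have e : ∀ k : ℕ, k.primeCounting = ((Finset.Iic k).filter Nat.Prime).card := by
    intro k
    rw [Nat.primeCounting, Nat.primeCounting', Nat.count_eq_card_filter_range]
    congr 1
    ext x
    simp
  rw [e, e]
  have h : (Finset.Iic n).filter Nat.Prime ⊆ (PH n ∪ {n}) ∪ (Finset.Iic (n / 2)).filter Nat.Prime := by
    intro x hx
    simp only [mem_filter, mem_Iic] at hx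
    simp only [PH, mem_union, mem_filter, mem_Ioo, mem_singleton, mem_Iic]
    rcases hx with ⟨hx1, hx2⟩
    by_cases h1 : x ≤ n / 2
    · right; exact ⟨h1, hx2⟩
    · by_cases h2 : x = n
      · left; right; exact h2
      · left; left; exact ⟨⟨by omega, by omega⟩, hx2⟩
  refine (card_le_card h).trans ((card_union_le _ _).trans ?_)
  have := card_union_le (PH n) {n}
  rw [card_singleton] at this
  omega

theorem PH_large : ∀ᶠ n : ℕ in atTop, (n : ℝ) / (4 * Real.log n) ≤ (PH n).card := by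
  have h1 : Tendsto (fun n : ℕ => (n.primeCounting : ℝ) * Real.log n / n) atTop (𝓝 1) := by
    have := Pool.Agent.Cov.PNT.pi_tendsto.comp (tendsto_natCast_atTop_atTop (R := ℝ))
    refine this.congr fun n => ?_
    simp
  have h2 : Tendsto (fun n : ℕ => n / 2) atTop atTop :=
    tendsto_atTop_atTop.2 fun b => ⟨2 * b, fun n hn => by omega⟩
  have h3 := h1.comp h2
  have h4 : ∀ᶠ n : ℕ in atTop, Real.log n ≤ 1 / 30 * n := by
    have h5 := (Real.isLittleO_log_id_atTop.bound (by norm_num : (0 : ℝ) < 1 / 30))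
    have h6 := (tendsto_natCast_atTop_atTop (R := ℝ)).eventually h5
    filter_upwards [h6] with n hn
    simp only [Real.norm_eq_abs, id] at hn
    rw [abs_of_nonneg (Nat.cast_nonneg n : (0 : ℝ) ≤ n)] at hn
    exact (le_abs_self _).trans hn
  have h5 : ∀ᶠ n : ℕ in atTop, 10 * Real.log 3 ≤ Real.log n :=
    (Real.tendsto_log_atTop.comp (tendsto_natCast_atTop_atTop (R := ℝ))).eventually_ge_atTop _
  have h6 : ∀ᶠ n : ℕ in atTop, (9 : ℝ) / 10 < (n.primeCounting : ℝ) * Real.log n / n :=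
    h1.eventually_const_lt (by norm_num)
  have h7 : ∀ᶠ n : ℕ in atTop, ((n / 2).primeCounting : ℝ) * Real.log ((n / 2 : ℕ) : ℝ) / ((n / 2 : ℕ) : ℝ)
      < 11 / 10 := h3.eventually_lt_const (by norm_num)
  filter_upwards [h4, h5, h6, h7, eventually_ge_atTop 8] with n h4 h5 h6 h7 hn
  have hl3 : (0 : ℝ) < Real.log 3 := Real.log_pos (by norm_num)
  have hL : 0 < Real.log n := by linarith
  have hn0 : (0 : ℝ) < n := by exact_mod_cast (by omega : 0 < n)
  have hh0 : (0 : ℝ) < ((n / 2 : ℕ) : ℝ) := by exact_mod_cast (by omega : 0 < n / 2)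
  have hh1 : (n : ℝ) / 3 ≤ ((n / 2 : ℕ) : ℝ) := by
    have : n ≤ 3 * (n / 2) := by omega
    have : (n : ℝ) ≤ 3 * ((n / 2 : ℕ) : ℝ) := by exact_mod_cast this
    linarith
  have hh2 : ((n / 2 : ℕ) : ℝ) ≤ n / 2 := by
    have : 2 * (n / 2) ≤ n := by omega
    have : 2 * ((n / 2 : ℕ) : ℝ) ≤ (n : ℝ) := by exact_mod_cast this
    linarith
  have hh3 : 9 / 10 * Real.log n ≤ Real.log ((n / 2 : ℕ) : ℝ) := by
    have h8 : Real.log ((n : ℝ) / 3) ≤ Real.log ((n / 2 : ℕ) : ℝ) :=
      Real.log_le_log (by positivity) hh1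
    rw [Real.log_div hn0.ne' (by norm_num)] at h8
    linarith
  have h8 : 9 / 10 * n ≤ (n.primeCounting : ℝ) * Real.log n := by
    rw [lt_div_iff₀ hn0] at h6
    exact h6.le
  have h9 : ((n / 2).primeCounting : ℝ) * Real.log n ≤ 11 / 18 * n := by
    rw [div_lt_iff₀ hh0] at h7
    have h10 : ((n / 2).primeCounting : ℝ) * (9 / 10 * Real.log n) ≤
        ((n / 2).primeCounting : ℝ) * Real.log ((n / 2 : ℕ) : ℝ) :=
      mul_le_mul_of_nonneg_left hh3 (Nat.cast_nonneg _)
    nlinarith
  have h10 : (n.primeCounting : ℝ) ≤ (PH n).card + 1 + ((n / 2).primeCounting : ℝ) := by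
    exact_mod_cast PH_card n
  rw [div_le_iff₀ (by positivity)]
  have h11 : (n.primeCounting : ℝ) * Real.log n ≤
      ((PH n).card + 1 + ((n / 2).primeCounting : ℝ)) * Real.log n :=
    mul_le_mul_of_nonneg_right h10 hL.le
  nlinarith

open Classical in
theorem blocks_large : ∀ᶠ n : ℕ in atTop, ∀ k : ℕ, 3 ≤ k → Real.exp (4 * k) * Real.log n ≤ n →
    ((n : ℝ) / (Real.exp (4 * k) * Real.log n)) ^ k ≤ (((range n).powersetCard k).filter Block).card := by
  have h5 : ∀ᶠ n : ℕ in atTop, 1 ≤ Real.log n :=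
    (Real.tendsto_log_atTop.comp (tendsto_natCast_atTop_atTop (R := ℝ))).eventually_ge_atTop _
  filter_upwards [PH_large, h5, eventually_ge_atTop 1] with n h1 h2 h3 k hk hkn
  obtain ⟨m, rfl⟩ : ∃ m, k = m + 1 := ⟨k - 1, by omega⟩
  have hm : 2 ≤ m := by omega
  have hL : 0 < Real.log n := by linarith
  have hn0 : (0 : ℝ) < n := by exact_mod_cast h3
  set X := Real.exp (4 * ((m + 1 : ℕ) : ℝ)) with hX
  have hX0 : 0 < X := Real.exp_pos _
  set E := Real.exp (4 * (m : ℝ) + 29 / 50) with hE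
  have hE0 : 0 < E := Real.exp_pos _
  set K := ⌈E⌉₊ with hK
  have e1 : E * 28 ≤ X := by
    have h6 : X = E * Real.exp (171 / 50) := by
      rw [hX, hE, ← Real.exp_add]; congr 1; push_cast; ring
    have h7 : (28 : ℝ) ≤ Real.exp (171 / 50) := by
      have h8 : Real.exp (171 / 50) = Real.exp 1 ^ 3 * Real.exp (21 / 50) := by
        rw [← Real.exp_nat_mul, ← Real.exp_add]; congr 1; norm_num
      have h9 := Real.exp_one_gt_d9
      have h10 : (71 : ℝ) / 50 ≤ Real.exp (21 / 50) := by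
        have := Real.add_one_le_exp (21 / 50 : ℝ); linarith
      have h11 : (20 : ℝ) ≤ Real.exp 1 ^ 3 := by
        calc (20 : ℝ) ≤ 2.7182818283 ^ 3 := by norm_num
          _ ≤ _ := pow_le_pow_left₀ (by norm_num) h9.le 3
      rw [h8]; nlinarith
    rw [h6]; exact mul_le_mul_of_nonneg_left h7 hE0.le
  have e2 : (1000 : ℝ) ≤ X := by
    have h6 : Real.exp 12 ≤ X := by
      rw [hX]
      apply Real.exp_le_exp.2
      have : (3 : ℝ) ≤ ((m + 1 : ℕ) : ℝ) := by exact_mod_cast hk
      linarith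
    have h7 : (1000 : ℝ) ≤ Real.exp 12 := by
      have h8 : Real.exp 12 = Real.exp 1 ^ 12 := by
        rw [← Real.exp_nat_mul]; congr 1; norm_num
      have h9 := Real.exp_one_gt_d9
      rw [h8]
      calc (1000 : ℝ) ≤ 2.7182818283 ^ 12 := by norm_num
        _ ≤ _ := pow_le_pow_left₀ (by norm_num) h9.le 12
    linarith
  have hK1 : (K : ℝ) * 25 ≤ X := by
    have h6 : (K : ℝ) < E + 1 := Nat.ceil_lt_add_one hE0.le
    linarith
  have hK0 : (0 : ℝ) < K := lt_of_lt_of_le hE0 (Nat.le_ceil _)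
  have hKH : (K : ℝ) ≤ (PH n).card := by
    refine le_trans ?_ h1
    rw [le_div_iff₀ (by positivity)]
    have h6 : (K : ℝ) * 25 * Real.log n ≤ X * Real.log n := mul_le_mul_of_nonneg_right hK1 hL.le
    nlinarith [mul_pos hK0 hL]
  have hc := count_blocks m K hm (PH n) (by exact_mod_cast hKH) (by
    rw [Real.le_log_iff_exp_le hK0]; exact Nat.le_ceil _) (PH_adm n)
  have hsub : (((PH n).powersetCard (m + 1)).filter Block).card ≤
      (((range n).powersetCard (m + 1)).filter Block).card := by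
    apply card_le_card
    apply filter_subset_filter
    apply powersetCard_mono
    intro x hx
    rw [PH, mem_filter, mem_Ioo] at hx
    exact mem_range.2 hx.1.2
  have hc2 : ((PH n).card : ℝ) ^ (m + 1) ≤ (K : ℝ) ^ (m + 1) *
      ((((range n).powersetCard (m + 1)).filter Block).card : ℝ) := by
    have : (PH n).card ^ (m + 1) ≤ K ^ (m + 1) * (((range n).powersetCard (m + 1)).filter Block).card :=
      hc.trans (Nat.mul_le_mul_left _ hsub)
    exact_mod_cast this
  have hc3 : (((PH n).card : ℝ) / K) ^ (m + 1) ≤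
      ((((range n).powersetCard (m + 1)).filter Block).card : ℝ) := by
    rw [div_pow, div_le_iff₀ (by positivity), mul_comm]
    exact hc2
  refine le_trans (pow_le_pow_left₀ (by positivity) ?_ _) hc3
  rw [div_le_div_iff₀ (by positivity) hK0]
  rw [div_le_iff₀ (by positivity)] at h1
  have h6 : (K : ℝ) * 4 ≤ X := by nlinarith
  calc (n : ℝ) * K ≤ ((PH n).card * (4 * Real.log n)) * K := mul_le_mul_of_nonneg_right h1 hK0.le
    _ = (PH n).card * (K * 4 * Real.log n) := by ring
    _ ≤ (PH n).card * (X * Real.log n) := by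
        apply mul_le_mul_of_nonneg_left _ (Nat.cast_nonneg _)
        exact mul_le_mul_of_nonneg_right h6 hL.le

/-- the first element -/
noncomputable def mn (S : Finset ℕ) : ℕ := sInf (S : Set ℕ)

/-- the last element -/
def mx (S : Finset ℕ) : ℕ := S.sup id

theorem mn_mem {S : Finset ℕ} (h : S.Nonempty) : mn S ∈ S := by
  have := Nat.sInf_mem (s := (S : Set ℕ)) (by simpa using h)
  exact_mod_cast this

theorem mn_le {S : Finset ℕ} {s : ℕ} (h : s ∈ S) : mn S ≤ s := Nat.sInf_le (by exact_mod_cast h)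

theorem le_mx {S : Finset ℕ} {s : ℕ} (h : s ∈ S) : s ≤ mx S := Finset.le_sup (f := id) h

theorem mx_mem {S : Finset ℕ} (h : S.Nonempty) : mx S ∈ S := by
  obtain ⟨s, hs, hs2⟩ := Finset.exists_mem_eq_sup S h id
  rw [mx, hs2]; exact hs

open Classical in
theorem exists_word (n : ℕ) (S : Finset ℕ) (hS : S ⊆ range n) (hne : S.Nonempty) (hB : Block S) :
    ∃ w, Word n w ∧ ∀ s, mn S ≤ s → s ≤ mx S → (s - mn S ∈ w ↔ s ∈ S) := by
  set I := {N : ℕ | (∀ s ∈ S, (N + s).Prime) ∧ ∀ p : ℕ, p.Prime →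
    (∃ s ∈ S, ∃ t ∈ S, N + s ≤ p ∧ p ≤ N + t) → ∃ s ∈ S, p = N + s} with hI
  let f : ℕ → Finset ℕ := fun N => (range n).filter fun i => (N + mn S + i).Prime
  have h1 : ∃ w ∈ (range n).powerset, {N | N ∈ I ∧ f N = w}.Infinite := by
    by_contra hcon
    push Not at hcon
    apply hB
    have h2 : I ⊆ ⋃ w ∈ (range n).powerset, {N | N ∈ I ∧ f N = w} := by
      intro N hN
      rw [Set.mem_iUnion₂]
      exact ⟨f N, mem_powerset.2 (filter_subset _ _), hN, rfl⟩
    refine Set.Finite.subset (Set.Finite.biUnion (finite_toSet _) fun w hw => ?_) h2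
    exact hcon w hw
  obtain ⟨w, hw, hinf⟩ := h1
  refine ⟨w, ⟨mem_powerset.1 hw, ?_⟩, ?_⟩
  · refine Set.Infinite.mono ?_ (hinf.image (f := fun N => N + mn S)
      (fun a _ b _ h => Nat.add_right_cancel h))
    rintro _ ⟨N, ⟨-, hN⟩, rfl⟩ i hi
    rw [← hN]
    simp only [f, mem_filter, mem_range]
    exact ⟨fun h => ⟨hi, h⟩, fun h => h.2⟩
  · intro s hs1 hs2
    obtain ⟨N, hN, hNw⟩ := hinf.nonempty
    rw [← hNw]
    simp only [f, mem_filter, mem_range]
    have hsn : s < n := lt_of_le_of_lt hs2 (mem_range.1 (hS (mx_mem hne)))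
    have e : N + mn S + (s - mn S) = N + s := by omega
    rw [e]
    constructor
    · rintro ⟨-, hp⟩
      obtain ⟨u, hu, hu2⟩ := hN.2 _ hp ⟨mn S, mn_mem hne, mx S, mx_mem hne, by omega, by omega⟩
      have : s = u := by omega
      rwa [this]
    · intro hs
      exact ⟨by omega, hN.1 s hs⟩

open Classical in
theorem words_ge (n k : ℕ) (hk : 1 ≤ k) : (((range n).powersetCard k).filter Block).card ≤
    n * ((range n).powerset.filter (Word n)).card := by
  have h0 : ∀ S : Finset ℕ, ∃ w : Finset ℕ, S ∈ ((range n).powersetCard k).filter Block →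
      (Word n w ∧ ∀ s, mn S ≤ s → s ≤ mx S → (s - mn S ∈ w ↔ s ∈ S)) := by
    intro S
    by_cases h : S ∈ ((range n).powersetCard k).filter Block
    · rw [mem_filter, mem_powersetCard] at h
      have hne : S.Nonempty := by rw [← card_pos]; omega
      obtain ⟨w, hw⟩ := exists_word n S h.1.1 hne h.2
      exact ⟨w, fun _ => hw⟩
    · exact ⟨∅, fun h' => absurd h' h⟩
  choose g hg using h0
  have h1 : (((range n).powersetCard k).filter Block).card ≤
      (range n ×ˢ ((range n).powerset.filter (Word n))).card := by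
    refine card_le_card_of_injOn (fun S => (mn S, g S)) ?_ ?_
    · intro S hS
      have hS' : S ∈ ((range n).powersetCard k).filter Block := by exact_mod_cast hS
      have h2 := hg S hS'
      rw [mem_filter, mem_powersetCard] at hS'
      have hne : S.Nonempty := by rw [← card_pos]; omega
      simp only [coe_product, Set.mem_prod, mem_coe, mem_filter, mem_powerset]
      exact ⟨hS'.1.1 (mn_mem hne), h2.1.1, h2.1⟩
    · have key : ∀ S S' : Finset ℕ, S ∈ ((range n).powersetCard k).filter Block →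
          S' ∈ ((range n).powersetCard k).filter Block → mn S = mn S' → g S = g S' →
          mx S ≤ mx S' → S = S' := by
        intro S S' hS hS' h2 h3 h4
        have h5 := (hg S hS).2
        have h6 := (hg S' hS').2
        rw [mem_filter, mem_powersetCard] at hS hS'
        apply eq_of_subset_of_card_le
        · intro s hs
          have h7 := (h5 s (mn_le hs) (le_mx hs)).2 hs
          rw [h2, h3] at h7
          exact (h6 s (by rw [← h2]; exact mn_le hs) ((le_mx hs).trans h4)).1 h7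
        · rw [hS.1.2, hS'.1.2]
      intro S hS S' hS' h
      have hS1 : S ∈ ((range n).powersetCard k).filter Block := by exact_mod_cast hS
      have hS2 : S' ∈ ((range n).powersetCard k).filter Block := by exact_mod_cast hS'
      simp only [Prod.mk.injEq] at h
      rcases le_total (mx S) (mx S') with h4 | h4
      · exact key S S' hS1 hS2 h.1 h.2 h4
      · exact (key S' S hS2 hS1 h.1.symm h.2.symm h4).symm
  rwa [card_product, card_range] at h1

open Classical in
theorem words_large (ε : ℝ) (hε : 0 < ε) : ∀ᶠ n : ℕ in atTop,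
    Real.exp ((1 / 16 - ε) * Real.log n ^ 2) ≤ ((range n).powerset.filter (Word n)).card := by
  have hT : Tendsto (fun n : ℕ => Real.log n) atTop atTop :=
    Real.tendsto_log_atTop.comp (tendsto_natCast_atTop_atTop (R := ℝ))
  have h1 : ∀ᶠ L : ℝ in atTop, Real.log L ≤ ε / 2 * L := by
    have h5 := (Real.isLittleO_log_id_atTop.bound (by positivity : (0 : ℝ) < ε / 2))
    filter_upwards [h5, eventually_ge_atTop (0 : ℝ)] with L hL hL0
    simp only [Real.norm_eq_abs, id] at hL
    rw [abs_of_nonneg hL0] at hL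
    exact (le_abs_self _).trans hL
  have h2 : ∀ᶠ L : ℝ in atTop, Real.log L ≤ 1 / 2 * L := by
    have h5 := (Real.isLittleO_log_id_atTop.bound (by positivity : (0 : ℝ) < 1 / 2))
    filter_upwards [h5, eventually_ge_atTop (0 : ℝ)] with L hL hL0
    simp only [Real.norm_eq_abs, id] at hL
    rw [abs_of_nonneg hL0] at hL
    exact (le_abs_self _).trans hL
  filter_upwards [blocks_large, hT.eventually h1, hT.eventually h2, hT.eventually_ge_atTop 24,
    hT.eventually_ge_atTop (3 / ε), eventually_ge_atTop 1] with n hb h1 h2 h3 h3' h4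
  set L := Real.log n with hL
  have hn0 : (0 : ℝ) < n := by exact_mod_cast h4
  have hnL : (n : ℝ) = Real.exp L := by rw [hL, Real.exp_log hn0]
  set k := ⌊L / 8⌋₊ with hk
  have hk1 : (k : ℝ) ≤ L / 8 := Nat.floor_le (by linarith)
  have hk2 : L / 8 < k + 1 := Nat.lt_floor_add_one _
  have hk3 : 3 ≤ k := Nat.le_floor (by norm_num; linarith)
  have hL0 : 0 < L := by linarith
  have e1 : Real.exp (4 * k) * L ≤ Real.exp (L / 2 + Real.log L) := by
    rw [Real.exp_add, Real.exp_log hL0]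
    exact mul_le_mul_of_nonneg_right (Real.exp_le_exp.2 (by linarith)) hL0.le
  have e2 : Real.exp (4 * k) * L ≤ n := by
    refine e1.trans ?_
    rw [hnL]
    exact Real.exp_le_exp.2 (by linarith)
  have h5 := hb k hk3 e2
  have h6 : Real.exp (L / 2 - Real.log L) ≤ (n : ℝ) / (Real.exp (4 * k) * L) := by
    rw [le_div_iff₀ (by positivity)]
    calc Real.exp (L / 2 - Real.log L) * (Real.exp (4 * k) * L) ≤
        Real.exp (L / 2 - Real.log L) * Real.exp (L / 2 + Real.log L) :=
          mul_le_mul_of_nonneg_left e1 (Real.exp_pos _).le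
      _ = n := by rw [← Real.exp_add, hnL]; congr 1; ring
  have h7 : Real.exp (k * (L / 2 - Real.log L)) ≤ (((range n).powersetCard k).filter Block).card := by
    refine le_trans ?_ h5
    rw [Real.exp_nat_mul]
    exact pow_le_pow_left₀ (Real.exp_pos _).le h6 _
  have h8 : ((((range n).powersetCard k).filter Block).card : ℝ) ≤
      n * ((range n).powerset.filter (Word n)).card := by
    exact_mod_cast words_ge n k (by omega)
  have h9 : Real.exp (k * (L / 2 - Real.log L)) ≤ Real.exp L * ((range n).powerset.filter (Word n)).card := by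
    rw [← hnL]; exact h7.trans h8
  have h10 : Real.exp (k * (L / 2 - Real.log L) - L) ≤ ((range n).powerset.filter (Word n)).card := by
    rw [Real.exp_sub, div_le_iff₀ (Real.exp_pos _)]
    exact h9.trans (le_of_eq (mul_comm _ _))
  refine le_trans (Real.exp_le_exp.2 ?_) h10
  have h11 : 3 ≤ ε * L := by
    rw [div_le_iff₀ hε] at h3'
    linarith
  have h12 : (L / 8 - 1) * (L / 2 - Real.log L) ≤ k * (L / 2 - Real.log L) :=
    mul_le_mul_of_nonneg_right (by linarith) (by linarith)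
  have h13 : 0 ≤ Real.log L := Real.log_nonneg (by linarith)
  have h14 : L * Real.log L ≤ L * (ε / 2 * L) := mul_le_mul_of_nonneg_left h1 hL0.le
  have h15 : 3 * L ≤ ε * L * L := mul_le_mul_of_nonneg_right h11 hL0.le
  nlinarith

end Run7.h275.WC
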