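import Pool.Agent.W418.LU2.Ind

/-!
# A light copy of `TH188.QS.Jac`: the Jacobian criterion
-/

set_option autoImplicit false
set_option linter.unusedVariables false
set_option linter.unusedSectionVars false

universe u v w

namespace Pool.Agent.Run7.h275.RL

open IsLocalRing KaehlerDifferential TensorProduct

/-- Elements with vanishing differential. -/
theorem sq_of_D {k₀ : Type v} {P : Type w} {L : Type u} [CommRing k₀] [CommRing P] [Algebra k₀ P]
    [Algebra.FormallySmooth k₀ P] [Field L] [Algebra P L] [Algebra k₀ L] [IsScalarTower k₀ P L]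
    (hL : Subsingleton (Algebra.H1Cotangent k₀ L))
    (hfr : ∀ z : L, ∃ a b : P, algebraMap P L b ≠ 0 ∧ z * algebraMap P L b = algebraMap P L a)
    {x : P} (hx : algebraMap P L x = 0)
    (hd : KaehlerDifferential.D k₀ P x ∈
      RingHom.ker (algebraMap P L) • (⊤ : Submodule P (Ω[P⁄k₀]))) :
    ∃ s : P, algebraMap P L s ≠ 0 ∧ s * x ∈ RingHom.ker (algebraMap P L) ^ 2 := by
  set I : Ideal P := RingHom.ker (algebraMap P L) with hI
  have hIp : I.IsPrime := RingHom.ker_isPrime _
  let O := Localization.AtPrime I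
  have hu : ∀ y : I.primeCompl, IsUnit (algebraMap P L y) := fun y =>
    isUnit_iff_ne_zero.2 fun h => y.2 (RingHom.mem_ker.2 h)
  let ψ : O →+* L := IsLocalization.lift (M := I.primeCompl) hu
  let _ : Algebra O L := ψ.toAlgebra
  have hψ : ∀ a : P, algebraMap O L (algebraMap P O a) = algebraMap P L a := fun a =>
    IsLocalization.lift_eq hu a
  have h1 : IsScalarTower P O L := IsScalarTower.of_algebraMap_eq fun a => (hψ a).symm
  have h2 : IsScalarTower k₀ O L := IsScalarTower.of_algebraMap_eq fun a => by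
    rw [IsScalarTower.algebraMap_apply k₀ P L, IsScalarTower.algebraMap_apply k₀ P O, hψ]
  have h3 : Algebra.FormallySmooth P O := Algebra.FormallySmooth.of_isLocalization I.primeCompl
  have h4 : Algebra.FormallySmooth k₀ O := Algebra.FormallySmooth.comp k₀ P O
  have hs : Function.Surjective (algebraMap O L) := by
    intro z
    obtain ⟨a, b, hb, hz⟩ := hfr z
    have hb' : b ∈ I.primeCompl := fun h => hb (RingHom.mem_ker.1 h)
    refine ⟨IsLocalization.mk' O a ⟨b, hb'⟩, ?_⟩
    have h5 := congrArg (algebraMap O L) (IsLocalization.mk'_spec O a ⟨b, hb'⟩)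
    rw [map_mul, hψ, hψ, ← hz] at h5
    exact mul_right_cancel₀ hb h5
  have hinj := (Algebra.FormallySmooth.kerCotangentToTensor_injective_iff (R := k₀) hs).2 hL
  have hxJ : algebraMap P O x ∈ RingHom.ker (algebraMap O L) := by
    rw [RingHom.mem_ker, hψ, hx]
  have hzero : kerCotangentToTensor k₀ O L (Ideal.toCotangent _ ⟨algebraMap P O x, hxJ⟩) = 0 := by
    rw [kerCotangentToTensor_toCotangent]
    change (1 : L) ⊗ₜ[O] (KaehlerDifferential.D k₀ O (algebraMap P O x)) = 0
    have h5 : KaehlerDifferential.D k₀ O (algebraMap P O x) =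
        KaehlerDifferential.map k₀ k₀ P O (KaehlerDifferential.D k₀ P x) :=
      (KaehlerDifferential.map_D k₀ k₀ P O x).symm
    rw [h5]
    refine Submodule.smul_induction_on hd ?_ ?_
    · intro c hc n _
      rw [map_smul, ← algebraMap_smul O c, ← TensorProduct.smul_tmul, Algebra.smul_def, hψ,
        RingHom.mem_ker.1 hc, zero_mul, zero_tmul]
    · intro a b ha hb
      rw [map_add, tmul_add, ha, hb, add_zero]
  have h6 := (injective_iff_map_eq_zero _).1 hinj _ hzero
  rw [Ideal.toCotangent_eq_zero] at h6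
  change algebraMap P O x ∈ RingHom.ker (algebraMap O L) ^ 2 at h6
  have h7 : RingHom.ker (algebraMap O L) = I.map (algebraMap P O) := by
    rw [IsLocalization.AtPrime.map_eq_maximalIdeal I O]
    exact IsLocalRing.eq_maximalIdeal (RingHom.ker_isMaximal_of_surjective _ hs)
  rw [h7, ← Ideal.map_pow] at h6
  obtain ⟨⟨⟨y, hy⟩, t⟩, hyt⟩ := (IsLocalization.mem_map_algebraMap_iff I.primeCompl O).1 h6
  change algebraMap P O x * algebraMap P O (t : P) = algebraMap P O y at hyt
  rw [← map_mul] at hyt
  obtain ⟨c, hc⟩ := (IsLocalization.eq_iff_exists I.primeCompl O).1 hyt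
  refine ⟨(c : P) * t, ?_, ?_⟩
  · rw [map_mul]
    exact mul_ne_zero (fun h => c.2 (RingHom.mem_ker.2 h)) fun h => t.2 (RingHom.mem_ker.2 h)
  · have h8 : (c : P) * t * x = c * y := by rw [← hc]; ring
    rw [h8]
    exact Ideal.mul_mem_left _ _ hy

/-- Independent rows have a nonvanishing minor. -/
theorem exists_minor {K : Type u} [Field K] {r : ℕ} {B : Type v} (M : Fin r → B → K)
    (h : ∀ c : Fin r → K, (∀ β, ∑ i, c i * M i β = 0) → c = 0) :
    ∃ g : Fin r → B, (Matrix.of fun i j => M i (g j)).det ≠ 0 := by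
  classical
  let s : Set (Fin r → K) := Set.range fun (β : B) (i : Fin r) => M i β
  have hs : Submodule.span K s = ⊤ := by
    by_contra hne
    obtain ⟨ℓ, hℓ, hker⟩ := Submodule.exists_le_ker_of_lt_top _ (lt_top_iff_ne_top.2 hne)
    have h1 : ∀ v : Fin r → K, ℓ v = ∑ i, ℓ (Pi.single i 1) * v i := by
      intro v
      conv_lhs => rw [← Finset.univ_sum_single v]
      rw [map_sum]
      refine Finset.sum_congr rfl fun i _ => ?_
      have h2 : (Pi.single i (v i) : Fin r → K) = v i • Pi.single i 1 := by
        rw [← Pi.single_smul, smul_eq_mul, mul_one]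
      rw [h2, map_smul, smul_eq_mul, mul_comm]
    have h3 := h (fun i => ℓ (Pi.single i 1)) (fun β => by
      rw [← h1]
      exact hker (Submodule.subset_span ⟨β, rfl⟩))
    apply hℓ
    refine LinearMap.ext fun v => ?_
    rw [h1]
    refine Finset.sum_eq_zero fun i _ => ?_
    have h4 : ℓ (Pi.single i 1) = 0 := congrFun h3 i
    rw [h4, zero_mul]
  obtain ⟨f, hfs, -, hli⟩ := Submodule.exists_fun_fin_finrank_span_eq K s
  have hr : Module.finrank K (Submodule.span K s) = r := by
    rw [hs, finrank_top, Module.finrank_fintype_fun_eq_card, Fintype.card_fin]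
  choose g' hg' using hfs
  refine ⟨fun j => g' (Fin.cast hr.symm j), ?_⟩
  have h1 : LinearIndependent K (Matrix.of fun i j => M i (g' (Fin.cast hr.symm j))).col := by
    have h2 := hli.comp (Fin.cast hr.symm) (Fin.cast_injective _)
    have h3 : (Matrix.of fun i j => M i (g' (Fin.cast hr.symm j))).col =
        f ∘ Fin.cast hr.symm := by
      funext j
      rw [Function.comp_apply, ← hg']
      rfl
    rw [h3]
    exact h2
  rw [Matrix.linearIndependent_cols_iff_isUnit, Matrix.isUnit_iff_isUnit_det] at h1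
  exact h1.ne_zero

/-- The weak Jacobian condition. -/
theorem exists_jac {k₀ : Type v} {S K : Type u} [CommRing k₀] [CommRing S] [IsRegularRing S] [Algebra k₀ S]
    [Algebra.FormallySmooth k₀ S] [Field K] [Algebra S K] [Algebra k₀ K] [IsScalarTower k₀ S K]
    (hK : Subsingleton (Algebra.H1Cotangent k₀ K))
    (hfr : ∀ z : K, ∃ a b : S, algebraMap S K b ≠ 0 ∧ z * algebraMap S K b = algebraMap S K a) :
    ∃ (r : ℕ) (f : Fin r → S) (D : Fin r → Derivation k₀ S S),
      (∀ i, algebraMap S K (f i) = 0) ∧
      (∀ s, algebraMap S K s = 0 → ∃ t, algebraMap S K t ≠ 0 ∧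
        t * s ∈ Ideal.span (Set.range f)) ∧
      (Matrix.of fun i j => algebraMap S K (D j (f i))).det ≠ 0 := by
  classical
  set I : Ideal S := RingHom.ker (algebraMap S K) with hI
  have hIp : I.IsPrime := RingHom.ker_isPrime _
  let O := Localization.AtPrime I
  have hO : IsRegularLocalRing O := IsRegularRing.isRegularLocalRing_localization I
  have hmem : ∀ a : S, algebraMap S O a ∈ maximalIdeal O ↔ a ∈ I := fun a =>
    IsLocalization.AtPrime.to_map_mem_maximal_iff O I a
  have h0 : Pool.Agent.W418.LU2.Ind (Empty.elim : Empty → O) :=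
    ⟨fun i => i.elim, fun _ _ i => i.elim⟩
  obtain ⟨r, w, hw, hd⟩ := h0.extend
  have hrange : Set.range (Sum.elim (Empty.elim : Empty → O) w) = Set.range w := by
    ext y
    constructor
    · rintro ⟨i | i, rfl⟩
      · exact i.elim
      · exact ⟨i, rfl⟩
    · rintro ⟨i, rfl⟩
      exact ⟨Sum.inr i, rfl⟩
  rw [hrange] at hw
  have hwI : Pool.Agent.W418.LU2.Ind w := by
    refine Pool.Agent.W418.LU2.ind_of_span hw ?_
    rw [hd, Fintype.card_fin, Fintype.card_empty, zero_add]
  choose fs hfs using fun i => IsLocalization.surj I.primeCompl (w i)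
  let f : Fin r → S := fun i => (fs i).1
  let t : Fin r → I.primeCompl := fun i => (fs i).2
  have hwf : ∀ i, w i * algebraMap S O (t i : S) = algebraMap S O (f i) := hfs
  have hfI : ∀ i, f i ∈ I := by
    intro i
    rw [← hmem, ← hwf i]
    exact Ideal.mul_mem_right _ _ (hwI.1 i)
  have hgen : ∀ s, algebraMap S K s = 0 → ∃ t, algebraMap S K t ≠ 0 ∧
      t * s ∈ Ideal.span (Set.range f) := by
    intro s hs
    have h1 : algebraMap S O s ∈ (Ideal.span (Set.range f)).map (algebraMap S O) := by
      have h2 : algebraMap S O s ∈ maximalIdeal O := (hmem s).2 (RingHom.mem_ker.2 hs)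
      rw [← hw] at h2
      refine (Ideal.span_le.2 ?_) h2
      rintro _ ⟨i, rfl⟩
      have h3 : algebraMap S O (f i) ∈ (Ideal.span (Set.range f)).map (algebraMap S O) :=
        Ideal.mem_map_of_mem _ (Ideal.subset_span ⟨i, rfl⟩)
      rw [← hwf i] at h3
      exact (Ideal.mul_unit_mem_iff_mem _ (IsLocalization.map_units O (t i))).1 h3
    obtain ⟨⟨⟨y, hy⟩, u⟩, hyu⟩ := (IsLocalization.mem_map_algebraMap_iff I.primeCompl O).1 h1
    change algebraMap S O s * algebraMap S O (u : S) = algebraMap S O y at hyu
    rw [← map_mul] at hyu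
    obtain ⟨c, hc⟩ := (IsLocalization.eq_iff_exists I.primeCompl O).1 hyu
    refine ⟨(c : S) * u, ?_, ?_⟩
    · rw [map_mul]
      exact mul_ne_zero (fun h => c.2 (RingHom.mem_ker.2 h)) fun h => u.2 (RingHom.mem_ker.2 h)
    · have h8 : (c : S) * u * s = c * y := by rw [← hc]; ring
      rw [h8]
      exact Ideal.mul_mem_left _ _ hy
  -- coordinates on the module of differentials
  obtain ⟨σ, hσ⟩ := Module.projective_def.1 (inferInstance : Module.Projective S (Ω[S⁄k₀]))
  let δ : Ω[S⁄k₀] → Derivation k₀ S S := fun β =>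
    (Finsupp.lapply β ∘ₗ σ : Ω[S⁄k₀] →ₗ[S] S).compDer (KaehlerDifferential.D k₀ S)
  have hδ : ∀ β a, δ β a = σ (KaehlerDifferential.D k₀ S a) β := fun β a => rfl
  let B : Finset (Ω[S⁄k₀]) := Finset.univ.biUnion fun i => (σ (KaehlerDifferential.D k₀ S (f i))).support
  have hDf : ∀ i, KaehlerDifferential.D k₀ S (f i) = ∑ β ∈ B, δ β (f i) • β := by
    intro i
    have h1 := hσ (KaehlerDifferential.D k₀ S (f i))
    rw [Finsupp.linearCombination_apply, Finsupp.sum_of_support_subset (s := B)] at h1
    · exact h1.symm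
    · exact Finset.subset_biUnion_of_mem
        (fun i => (σ (KaehlerDifferential.D k₀ S (f i))).support) (Finset.mem_univ i)
    · intro β _
      exact zero_smul _ _
  obtain ⟨g, hg⟩ := exists_minor (fun (i : Fin r) (β : Ω[S⁄k₀]) => algebraMap S K (δ β (f i))) (by
    intro c hc
    -- common denominators
    choose a' b' hb' hab using fun i => hfr (c i)
    let b : S := ∏ i, b' i
    have hb : algebraMap S K b ≠ 0 := by
      rw [map_prod]
      exact Finset.prod_ne_zero_iff.2 fun i _ => hb' i
    let a : Fin r → S := fun i => a' i * ∏ k ∈ Finset.univ.erase i, b' k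
    have ha : ∀ i, c i * algebraMap S K b = algebraMap S K (a i) := by
      intro i
      have h2 : b = b' i * ∏ k ∈ Finset.univ.erase i, b' k :=
        (Finset.mul_prod_erase _ _ (Finset.mem_univ i)).symm
      rw [h2, map_mul, ← mul_assoc, hab i, ← map_mul]
    have hx : algebraMap S K (∑ i, a i * f i) = 0 := by
      rw [map_sum]
      refine Finset.sum_eq_zero fun i _ => ?_
      rw [map_mul, RingHom.mem_ker.1 (hfI i), mul_zero]
    have hD : KaehlerDifferential.D k₀ S (∑ i, a i * f i) ∈
        RingHom.ker (algebraMap S K) • (⊤ : Submodule S (Ω[S⁄k₀])) := by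
      have h1 : KaehlerDifferential.D k₀ S (∑ i, a i * f i) =
          ∑ i, f i • KaehlerDifferential.D k₀ S (a i) + ∑ β ∈ B, (∑ i, a i * δ β (f i)) • β := by
        have h2 : ∑ β ∈ B, (∑ i, a i * δ β (f i)) • β =
            ∑ i, a i • KaehlerDifferential.D k₀ S (f i) := by
          simp_rw [hDf, Finset.smul_sum, Finset.sum_smul, mul_smul]
          exact Finset.sum_comm
        rw [h2, map_sum, ← Finset.sum_add_distrib]
        refine Finset.sum_congr rfl fun i _ => ?_
        rw [Derivation.leibniz, add_comm]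
      rw [h1]
      refine Submodule.add_mem _ (Submodule.sum_mem _ fun i _ =>
        Submodule.smul_mem_smul (hfI i) trivial) (Submodule.sum_mem _ fun β _ =>
        Submodule.smul_mem_smul ?_ trivial)
      rw [RingHom.mem_ker, map_sum]
      have h3 := hc β
      have h4 : ∑ i, algebraMap S K (a i * δ β (f i)) =
          algebraMap S K b * ∑ i, c i * algebraMap S K (δ β (f i)) := by
        rw [Finset.mul_sum]
        refine Finset.sum_congr rfl fun i _ => ?_
        rw [map_mul, ← ha i]
        ring
      rw [h4, h3, mul_zero]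
    obtain ⟨s, hs, hsx⟩ := sq_of_D hK hfr hx hD
    have h1 : ∑ i, algebraMap S O (s * a i * (t i : S)) * w i ∈ maximalIdeal O ^ 2 := by
      have h2 : algebraMap S O (s * ∑ i, a i * f i) ∈ maximalIdeal O ^ 2 := by
        have h3 : maximalIdeal O = I.map (algebraMap S O) :=
          (IsLocalization.AtPrime.map_eq_maximalIdeal I O).symm
        rw [h3, ← Ideal.map_pow]
        exact Ideal.mem_map_of_mem _ hsx
      convert h2 using 1
      rw [Finset.mul_sum, map_sum]
      refine Finset.sum_congr rfl fun i _ => ?_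
      have e1 : algebraMap S O (s * a i * (t i : S)) =
          algebraMap S O s * algebraMap S O (a i) * algebraMap S O (t i : S) := by
        rw [map_mul, map_mul]
      have e2 : algebraMap S O (s * (a i * f i)) =
          algebraMap S O s * (algebraMap S O (a i) * algebraMap S O (f i)) := by
        rw [map_mul, map_mul]
      rw [e1, e2, ← hwf i]
      ring
    funext i
    have h2 := hwI.2 _ h1 i
    rw [hmem] at h2
    have h3 : algebraMap S K (s * a i * (t i : S)) = 0 := RingHom.mem_ker.1 h2
    rw [map_mul, map_mul, ← ha i] at h3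
    have h4 : algebraMap S K (t i : S) ≠ 0 := fun h => (t i).2 (RingHom.mem_ker.2 h)
    have h5 := (mul_eq_zero.1 h3).resolve_right h4
    have h6 := (mul_eq_zero.1 h5).resolve_left hs
    exact (mul_eq_zero.1 h6).resolve_right hb)
  exact ⟨r, f, fun j => δ (g j), fun i => RingHom.mem_ker.1 (hfI i), hgen, hg⟩

end Pool.Agent.Run7.h275.RL
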