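import Mathlib
import Pool.Agent.H713R2.AR.AF5

set_option autoImplicit false

open Complex Topology Filter Metric MeasureTheory Set Polynomial

namespace Run7.h275.EJ

open Pool.Agent.H713R2 Pool.Agent.H713R2.AR

/-- The function `x ^ D * Q (x⁻¹ * g x)`, as a function holomorphic at the origin. -/
noncomputable def HQ (g : ℂ → ℂ) (Q : ℂ[X]) (D : ℕ) (x : ℂ) : ℂ :=
  ∑ i ∈ Finset.range (D + 1), Q.coeff i * (x ^ (D - i) * g x ^ i)

theorem HQ_eval (g : ℂ → ℂ) {Q : ℂ[X]} {D : ℕ} (hQ : Q.natDegree ≤ D) {x : ℂ} (hx : x ≠ 0) :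
    HQ g Q D x = x ^ D * Q.eval (x⁻¹ * g x) := by
  unfold HQ
  rw [eval_eq_sum_range' (Nat.lt_succ_of_le hQ), Finset.mul_sum]
  apply Finset.sum_congr rfl
  intro i hi
  have hi' : i ≤ D := by have := Finset.mem_range.mp hi; omega
  rw [mul_pow, inv_pow]
  have h1 : x ^ D = x ^ (D - i) * x ^ i := by rw [← pow_add, Nat.sub_add_cancel hi']
  rw [h1]
  have h2 : x ^ i ≠ 0 := pow_ne_zero _ hx
  field_simp

theorem HQ_diff {R : ℝ} {g : ℂ → ℂ} (hg : DifferentiableOn ℂ g (ball 0 R)) (Q : ℂ[X]) (D : ℕ) :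
    DifferentiableOn ℂ (HQ g Q D) (ball 0 R) := by
  unfold HQ
  apply DifferentiableOn.fun_sum
  intro i _
  exact ((differentiableOn_pow _).mul (hg.pow i)).const_mul _

theorem UU_mono (g : ℂ → ℂ) {r s : ℝ} (h : r ≤ s) : UU g r ⊆ UU g s := by
  rintro z ⟨x, ⟨hx0, hx⟩, rfl⟩
  exact ⟨x, ⟨hx0, hx.trans_le h⟩, rfl⟩

/-- A sequence of radii increasing to one. -/
noncomputable def rr (i : ℕ) : ℝ := 1 - 1 / ((i : ℝ) + 2)

theorem rr_pos (i : ℕ) : 0 < rr i := by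
  unfold rr
  have : 1 / ((i : ℝ) + 2) < 1 := by
    rw [div_lt_one (by positivity)]
    have : (0 : ℝ) ≤ i := Nat.cast_nonneg i
    linarith
  linarith

theorem rr_lt (i : ℕ) : rr i < 1 := by
  unfold rr
  have : 0 < 1 / ((i : ℝ) + 2) := by positivity
  linarith

theorem rr_mono : Monotone rr := by
  intro i j hij
  unfold rr
  have h1 : (i : ℝ) ≤ j := by exact_mod_cast hij
  have : 1 / ((j : ℝ) + 2) ≤ 1 / ((i : ℝ) + 2) := by
    apply one_div_le_one_div_of_le (by positivity)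
    linarith
  linarith

theorem rr_tendsto : Tendsto rr atTop (𝓝 1) := by
  unfold rr
  have h1 : Tendsto (fun i : ℕ => (i : ℝ) + 2) atTop atTop :=
    tendsto_atTop_add_const_right _ _ tendsto_natCast_atTop_atTop
  have h2 := h1.inv_tendsto_atTop
  have h3 : Tendsto (fun i : ℕ => 1 - 1 / ((i : ℝ) + 2)) atTop (𝓝 (1 - 0)) := by
    apply Tendsto.sub tendsto_const_nhds
    refine h2.congr fun i => ?_
    simp [one_div]
  simpa using h3

theorem iUnion_UU (g : ℂ → ℂ) : ⋃ i, UU g (rr i) = UU g 1 := by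
  apply Set.Subset.antisymm
  · exact iUnion_subset fun i => UU_mono g (rr_lt i).le
  · rintro z ⟨x, ⟨hx0, hx⟩, rfl⟩
    obtain ⟨i, hi⟩ := (rr_tendsto.eventually (lt_mem_nhds hx)).exists
    exact mem_iUnion.mpr ⟨i, x, ⟨hx0, hi⟩, rfl⟩

theorem tendsto_area {g : ℂ → ℂ} (hg : IsExt 1 g) (Q : ℂ[X]) :
    Tendsto (fun i => ∫ z in (UU g (rr i))ᶜ, ‖Q.eval z‖ ^ 2) atTop
      (𝓝 (∫ z in (UU g 1)ᶜ, ‖Q.eval z‖ ^ 2)) := by
  have h1 := tendsto_setIntegral_of_antitone (μ := volume) (f := fun z : ℂ => ‖Q.eval z‖ ^ 2)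
    (s := fun i => (UU g (rr i))ᶜ)
    (fun i => ((isOpen_UU hg (rr_lt i).le).measurableSet).compl)
    (fun i j hij => compl_subset_compl.mpr (UU_mono g (rr_mono hij)))
    ⟨0, by
      obtain ⟨P, hP⟩ : ∃ P : ℂ[X], derivative P = Q := by
        have key : ∀ Q : ℂ[X], ∃ P : ℂ[X], derivative P = Q := by
          intro Q
          induction Q using Polynomial.induction_on' with
          | add p q hp hq =>
            obtain ⟨P, rfl⟩ := hp
            obtain ⟨Q, rfl⟩ := hq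
            exact ⟨P + Q, derivative_add⟩
          | monomial n a =>
            refine ⟨monomial (n + 1) (a / (n + 1)), ?_⟩
            rw [derivative_monomial, Nat.add_sub_cancel]
            congr 1
            have : ((n : ℂ) + 1) ≠ 0 := by exact_mod_cast Nat.succ_ne_zero n
            push_cast
            field_simp
        exact key Q
      have h := (area_formula (rr_pos 0) (rr_lt 0) hg (HQ_diff hg.diff P P.natDegree)
        (fun x _ hx0 => HQ_eval g le_rfl hx0)).2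
      rwa [hP] at h⟩
  have h2 : ⋂ n, (UU g (rr n))ᶜ = (UU g 1)ᶜ := by
    rw [← compl_iUnion, iUnion_UU]
  rw [h2] at h1
  exact h1

/-- The area formula on the full exterior domain. -/
theorem energy_identity {g : ℂ → ℂ} (hg : IsExt 1 g) {Q : ℂ[X]} {D : ℕ}
    (hQ : Q.natDegree ≤ D) :
    Summable (fun j : ℕ => ((j : ℝ) + 1) * ‖tc (HQ g Q D) (j + (D + 1))‖ ^ 2) ∧
    ∑ k ∈ Finset.range D, ((D : ℝ) - k) * ‖tc (HQ g Q D) k‖ ^ 2 -
      ∑' j : ℕ, ((j : ℝ) + 1) * ‖tc (HQ g Q D) (j + (D + 1))‖ ^ 2 =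
      1 / Real.pi * ∫ z in (UU g 1)ᶜ, ‖(derivative Q).eval z‖ ^ 2 := by
  set h : ℕ → ℂ := tc (HQ g Q D) with hh
  set I : ℝ → ℝ := fun ρ => ρ ^ (2 * D) / Real.pi * ∫ z in (UU g ρ)ᶜ, ‖(derivative Q).eval z‖ ^ 2
    with hI
  set A : ℝ → ℝ := fun ρ => ∑ k ∈ Finset.range D, ((D : ℝ) - k) * (‖h k‖ ^ 2 * ρ ^ (2 * k)) with hA
  have hI0 : ∀ ρ, 0 < ρ → 0 ≤ I ρ := by
    intro ρ hρ
    have h1 : 0 ≤ ∫ z in (UU g ρ)ᶜ, ‖(derivative Q).eval z‖ ^ 2 :=
      integral_nonneg fun z => by positivity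
    have := Real.pi_pos
    simp only [hI]
    positivity
  have hs : ∀ ρ, 0 < ρ → ρ < 1 → HasSum
      (fun j : ℕ => ((j : ℝ) + 1) * ‖h (j + (D + 1))‖ ^ 2 * ρ ^ (2 * (j + (D + 1))))
      (A ρ - I ρ) := by
    intro ρ h0 h1
    have h2 := (area_formula h0 h1 hg (HQ_diff hg.diff Q D) (fun x _ hx0 => HQ_eval g hQ hx0)).1
    rw [← hasSum_nat_add_iff' (D + 1)] at h2
    have h3 := h2.neg
    have e1 : (fun j : ℕ => ((j : ℝ) + 1) * ‖h (j + (D + 1))‖ ^ 2 * ρ ^ (2 * (j + (D + 1)))) =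
        fun j : ℕ => -(((D : ℝ) - ((j + (D + 1) : ℕ) : ℝ)) *
          (‖tc (HQ g Q D) (j + (D + 1))‖ ^ 2 * ρ ^ (2 * (j + (D + 1))))) := by
      funext j
      rw [hh]
      push_cast
      ring
    have e2 : A ρ - I ρ = -((ρ ^ (2 * D) / Real.pi * ∫ z in (UU g ρ)ᶜ, ‖(derivative Q).eval z‖ ^ 2) -
        ∑ i ∈ Finset.range (D + 1), ((D : ℝ) - i) * (‖tc (HQ g Q D) i‖ ^ 2 * ρ ^ (2 * i))) := by
      rw [Finset.sum_range_succ, sub_self, zero_mul, add_zero, neg_sub]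
    rw [e1, e2]
    exact h3
  have hA1 : ∀ ρ, 0 < ρ → ρ < 1 → A ρ ≤ A 1 := by
    intro ρ h0 h1
    apply Finset.sum_le_sum
    intro k hk
    have hk' : (k : ℝ) ≤ D := by exact_mod_cast (Finset.mem_range.mp hk).le
    have h2 : ρ ^ (2 * k) ≤ 1 ^ (2 * k) := pow_le_pow_left₀ h0.le h1.le _
    apply mul_le_mul_of_nonneg_left _ (by linarith)
    exact mul_le_mul_of_nonneg_left h2 (by positivity)
  have hsum : Summable (fun j : ℕ => ((j : ℝ) + 1) * ‖h (j + (D + 1))‖ ^ 2) := by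
    apply summable_of_sum_range_le (c := A 1) (fun j => by positivity)
    intro J
    have h1 : Tendsto (fun i => ∑ j ∈ Finset.range J,
        ((j : ℝ) + 1) * ‖h (j + (D + 1))‖ ^ 2 * rr i ^ (2 * (j + (D + 1)))) atTop
        (𝓝 (∑ j ∈ Finset.range J, ((j : ℝ) + 1) * ‖h (j + (D + 1))‖ ^ 2 * 1 ^ (2 * (j + (D + 1))))) := by
      apply tendsto_finsetSum
      intro j _
      exact (rr_tendsto.pow _).const_mul _
    have h2 : (∑ j ∈ Finset.range J, ((j : ℝ) + 1) * ‖h (j + (D + 1))‖ ^ 2 * 1 ^ (2 * (j + (D + 1)))) =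
        ∑ j ∈ Finset.range J, ((j : ℝ) + 1) * ‖h (j + (D + 1))‖ ^ 2 := by
      apply Finset.sum_congr rfl
      intro j _
      rw [one_pow, mul_one]
    rw [h2] at h1
    refine le_of_tendsto h1 (Eventually.of_forall fun i => ?_)
    have h3 := sum_le_hasSum (Finset.range J) (fun j _ => by
      have := rr_pos i
      positivity) (hs (rr i) (rr_pos i) (rr_lt i))
    linarith [hI0 _ (rr_pos i), hA1 _ (rr_pos i) (rr_lt i)]
  refine ⟨hsum, ?_⟩
  have l1 : Tendsto (fun i => A (rr i)) atTop (𝓝 (A 1)) := by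
    apply tendsto_finsetSum
    intro k _
    exact ((rr_tendsto.pow _).const_mul _).const_mul _
  have l2 : Tendsto (fun i => I (rr i)) atTop (𝓝 (I 1)) := by
    have h1 := tendsto_area hg (derivative Q)
    have h2 : Tendsto (fun i => rr i ^ (2 * D) / Real.pi) atTop (𝓝 (1 ^ (2 * D) / Real.pi)) :=
      (rr_tendsto.pow _).div_const _
    exact h2.mul h1
  have l3 : Tendsto (fun i => ∑' j : ℕ, ((j : ℝ) + 1) * ‖h (j + (D + 1))‖ ^ 2 *
      rr i ^ (2 * (j + (D + 1)))) atTop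
      (𝓝 (∑' j : ℕ, ((j : ℝ) + 1) * ‖h (j + (D + 1))‖ ^ 2 * 1 ^ (2 * (j + (D + 1))))) := by
    apply tendsto_tsum_of_dominated_convergence hsum
    · intro j
      exact (rr_tendsto.pow _).const_mul _
    · refine Eventually.of_forall fun i j => ?_
      have h0 := rr_pos i
      rw [Real.norm_eq_abs, abs_of_nonneg (by positivity)]
      have h2 : rr i ^ (2 * (j + (D + 1))) ≤ 1 := pow_le_one₀ h0.le (rr_lt i).le
      calc ((j : ℝ) + 1) * ‖h (j + (D + 1))‖ ^ 2 * rr i ^ (2 * (j + (D + 1)))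
          ≤ ((j : ℝ) + 1) * ‖h (j + (D + 1))‖ ^ 2 * 1 :=
            mul_le_mul_of_nonneg_left h2 (by positivity)
        _ = _ := mul_one _
  have l4 : (fun i => ∑' j : ℕ, ((j : ℝ) + 1) * ‖h (j + (D + 1))‖ ^ 2 *
      rr i ^ (2 * (j + (D + 1)))) = fun i => A (rr i) - I (rr i) := by
    funext i
    exact (hs _ (rr_pos i) (rr_lt i)).tsum_eq
  rw [l4] at l3
  have l5 := tendsto_nhds_unique l3 (l1.sub l2)
  have l6 : ∑' j : ℕ, ((j : ℝ) + 1) * ‖h (j + (D + 1))‖ ^ 2 = A 1 - I 1 := by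
    rw [← l5]
    apply tsum_congr
    intro j
    rw [one_pow, mul_one]
  rw [l6]
  have l7 : A 1 = ∑ k ∈ Finset.range D, ((D : ℝ) - k) * ‖h k‖ ^ 2 := by
    simp only [hA]
    apply Finset.sum_congr rfl
    intro k _
    rw [one_pow, mul_one]
  rw [l7]
  simp only [hI, one_pow]
  ring

end Run7.h275.EJ
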