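import Mathlib
import Pool.Agent.H713R2.AR.AF5
import Pool.Agent.Run7.h275.EJ1

set_option autoImplicit false

open Complex Topology Filter Metric MeasureTheory Set

namespace Run7.h275.EJ

open Pool.Agent.H713R2 Pool.Agent.H713R2.AR

/-- Parseval on circles. -/
theorem parseval_sq {F : ℂ → ℂ} (hF : DifferentiableOn ℂ F (ball 0 1)) {ρ : ℝ} (h0 : 0 < ρ)
    (h1 : ρ < 1) : HasSum (fun k => 2 * Real.pi * (‖tc F k‖ ^ 2 * ρ ^ (2 * k)))
      (∫ θ in (-Real.pi)..Real.pi, ‖F (circleMap 0 ρ θ)‖ ^ 2) := by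
  have h := parseval_tc hF hF h0 h1
  have h2 := Complex.hasSum_re h
  have e1 : (fun k => (2 * Real.pi * ((starRingEnd ℂ) (tc F k) * tc F k * (ρ : ℂ) ^ (2 * k)) : ℂ).re) =
      fun k => 2 * Real.pi * (‖tc F k‖ ^ 2 * ρ ^ (2 * k)) := by
    funext k
    have : (2 * Real.pi * ((starRingEnd ℂ) (tc F k) * tc F k * (ρ : ℂ) ^ (2 * k)) : ℂ) =
        ((2 * Real.pi * (‖tc F k‖ ^ 2 * ρ ^ (2 * k)) : ℝ) : ℂ) := by
      rw [Complex.conj_mul']
      push_cast
      ring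
    rw [this, Complex.ofReal_re]
  have e2 : (∫ θ in (-Real.pi)..Real.pi, (starRingEnd ℂ) (F (circleMap 0 ρ θ)) *
      F (circleMap 0 ρ θ)) = ((∫ θ in (-Real.pi)..Real.pi, ‖F (circleMap 0 ρ θ)‖ ^ 2 : ℝ) : ℂ) := by
    rw [← intervalIntegral.integral_ofReal]
    apply intervalIntegral.integral_congr
    intro θ _
    simp only
    rw [Complex.conj_mul']
    push_cast
    rfl
  rw [e2, Complex.ofReal_re, e1] at h2
  exact h2

theorem circle_cont {F : ℂ → ℂ} (hF : DifferentiableOn ℂ F (ball 0 1)) {ρ : ℝ} (h0 : 0 < ρ)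
    (h1 : ρ < 1) : Continuous (fun θ : ℝ => ‖F (circleMap 0 ρ θ)‖ ^ 2) := by
  have : Continuous (fun θ : ℝ => F (circleMap 0 ρ θ)) := by
    apply hF.continuousOn.comp_continuous (continuous_circleMap 0 ρ)
    intro θ
    rw [mem_ball_zero_iff, norm_circleMap_zero, abs_of_pos h0]
    exact h1
  exact this.norm.pow 2

/-- Comparison of the square means of two functions. -/
theorem parseval_le {F G : ℂ → ℂ} (hF : DifferentiableOn ℂ F (ball 0 1))
    (hG : DifferentiableOn ℂ G (ball 0 1)) {C : ℝ} {K : ℕ} (hC : 0 ≤ C)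
    (hFG : ∀ x ∈ ball (0 : ℂ) 1, ‖F x‖ ≤ C * ‖x‖ ^ K * ‖G x‖) {ρ : ℝ} (h0 : 0 < ρ)
    (h1 : ρ < 1) :
    ∑' k, ‖tc F k‖ ^ 2 * ρ ^ (2 * k) ≤ C ^ 2 * ρ ^ (2 * K) * ∑' k, ‖tc G k‖ ^ 2 * ρ ^ (2 * k) := by
  have hpi := Real.pi_pos
  have s1 := parseval_sq hF h0 h1
  have s2 := parseval_sq hG h0 h1
  have h3 : ∫ θ in (-Real.pi)..Real.pi, ‖F (circleMap 0 ρ θ)‖ ^ 2 ≤
      ∫ θ in (-Real.pi)..Real.pi, C ^ 2 * ρ ^ (2 * K) * ‖G (circleMap 0 ρ θ)‖ ^ 2 := by
    apply intervalIntegral.integral_mono_on (by linarith)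
    · exact (circle_cont hF h0 h1).intervalIntegrable _ _
    · exact ((circle_cont hG h0 h1).const_mul _).intervalIntegrable _ _
    · intro θ _
      have hm : circleMap 0 ρ θ ∈ ball (0 : ℂ) 1 := by
        rw [mem_ball_zero_iff, norm_circleMap_zero, abs_of_pos h0]
        exact h1
      have h4 := hFG _ hm
      rw [norm_circleMap_zero, abs_of_pos h0] at h4
      calc ‖F (circleMap 0 ρ θ)‖ ^ 2 ≤ (C * ρ ^ K * ‖G (circleMap 0 ρ θ)‖) ^ 2 :=
            pow_le_pow_left₀ (norm_nonneg _) h4 2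
        _ = C ^ 2 * ρ ^ (2 * K) * ‖G (circleMap 0 ρ θ)‖ ^ 2 := by ring
  rw [intervalIntegral.integral_const_mul] at h3
  have t1 := s1.tsum_eq
  have t2 := s2.tsum_eq
  rw [tsum_mul_left] at t1 t2
  rw [← t1, ← t2] at h3
  have h5 : 2 * Real.pi * ∑' k, ‖tc F k‖ ^ 2 * ρ ^ (2 * k) ≤
      2 * Real.pi * (C ^ 2 * ρ ^ (2 * K) * ∑' k, ‖tc G k‖ ^ 2 * ρ ^ (2 * k)) := by
    linarith
  exact le_of_mul_le_mul_left h5 (by positivity)

theorem summable_sq {F : ℂ → ℂ} (hF : DifferentiableOn ℂ F (ball 0 1)) {ρ : ℝ} (h0 : 0 < ρ)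
    (h1 : ρ < 1) : Summable (fun k => ‖tc F k‖ ^ 2 * ρ ^ (2 * k)) := by
  have s1 := (parseval_sq hF h0 h1).summable
  have hpi := Real.pi_pos
  rwa [summable_mul_left_iff (by positivity)] at s1

/-- Integrating in the radius. -/
theorem lint_pow (a : ℝ) (ha : 0 ≤ a) (k : ℕ) :
    ∫⁻ t in Ioo (0 : ℝ) 1, ENNReal.ofReal (a * t ^ k) = ENNReal.ofReal (a / (k + 1)) := by
  have h1 : ∫ t in Ioo (0 : ℝ) 1, a * t ^ k = a / (k + 1) := by
    rw [← integral_Ioc_eq_integral_Ioo, ← intervalIntegral.integral_of_le zero_le_one,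
      intervalIntegral.integral_const_mul, integral_pow]
    simp
    ring
  rw [← h1, ofReal_integral_eq_lintegral_ofReal]
  · have : IntegrableOn (fun t : ℝ => a * t ^ k) (Icc 0 1) :=
      (by fun_prop : Continuous (fun t : ℝ => a * t ^ k)).continuousOn.integrableOn_Icc
    exact this.mono_set Ioo_subset_Icc_self
  · filter_upwards [ae_restrict_mem measurableSet_Ioo] with t ht
    have := ht.1
    positivity

theorem compare_seq {a b : ℕ → ℝ} (ha : ∀ j, 0 ≤ a j) (hb : ∀ j, 0 ≤ b j)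
    (hsa : ∀ t : ℝ, 0 < t → t < 1 → Summable (fun j => a j * t ^ j))
    (hsb : ∀ t : ℝ, 0 < t → t < 1 → Summable (fun j => b j * t ^ j))
    (hab : ∀ t : ℝ, 0 < t → t < 1 → ∑' j, a j * t ^ j ≤ ∑' j, b j * t ^ j) (M : ℕ)
    (hM : Summable (fun j : ℕ => b j / ((j : ℝ) + M + 1))) :
    Summable (fun j : ℕ => a j / ((j : ℝ) + M + 1)) ∧
    ∑' j : ℕ, a j / ((j : ℝ) + M + 1) ≤ ∑' j : ℕ, b j / ((j : ℝ) + M + 1) := by
  have key : ∀ c : ℕ → ℝ, (∀ j, 0 ≤ c j) →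
      (∀ t : ℝ, 0 < t → t < 1 → Summable (fun j => c j * t ^ j)) →
      ∑' j : ℕ, ENNReal.ofReal (c j / ((j : ℝ) + M + 1)) =
      ∫⁻ t in Ioo (0 : ℝ) 1, ENNReal.ofReal (t ^ M * ∑' j, c j * t ^ j) := by
    intro c hc hsc
    have h1 : ∀ t ∈ Ioo (0 : ℝ) 1, ENNReal.ofReal (t ^ M * ∑' j, c j * t ^ j) =
        ∑' j, ENNReal.ofReal (c j * t ^ (j + M)) := by
      intro t ht
      rw [← tsum_mul_left, ENNReal.ofReal_tsum_of_nonneg]
      · apply tsum_congr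
        intro j
        congr 1
        rw [pow_add]
        ring
      · intro j
        have := ht.1
        have := hc j
        positivity
      · exact (hsc t ht.1 ht.2).mul_left _
    rw [setLIntegral_congr_fun measurableSet_Ioo h1, lintegral_tsum]
    · apply tsum_congr
      intro j
      rw [lint_pow _ (hc j)]
      congr 2
      push_cast
      ring
    · intro j
      fun_prop
  have h1 : ∑' j : ℕ, ENNReal.ofReal (a j / ((j : ℝ) + M + 1)) ≤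
      ∑' j : ℕ, ENNReal.ofReal (b j / ((j : ℝ) + M + 1)) := by
    rw [key a ha hsa, key b hb hsb]
    apply setLIntegral_mono' measurableSet_Ioo
    intro t ht
    apply ENNReal.ofReal_le_ofReal
    exact mul_le_mul_of_nonneg_left (hab t ht.1 ht.2) (pow_nonneg ht.1.le _)
  have ha' : ∀ j : ℕ, 0 ≤ a j / ((j : ℝ) + M + 1) := fun j => by
    have := ha j
    positivity
  have hb' : ∀ j : ℕ, 0 ≤ b j / ((j : ℝ) + M + 1) := fun j => by
    have := hb j
    positivity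
  rw [← ENNReal.ofReal_tsum_of_nonneg hb' hM] at h1
  have h2 : Summable (fun j : ℕ => a j / ((j : ℝ) + M + 1)) := by
    have h3 : ∑' j : ℕ, ENNReal.ofReal (a j / ((j : ℝ) + M + 1)) ≠ ⊤ :=
      ne_top_of_le_ne_top ENNReal.ofReal_ne_top h1
    have h4 := ENNReal.summable_toReal h3
    refine h4.congr fun j => ?_
    rw [ENNReal.toReal_ofReal (ha' j)]
  refine ⟨h2, ?_⟩
  rw [← ENNReal.ofReal_tsum_of_nonneg ha' h2] at h1
  exact (ENNReal.ofReal_le_ofReal_iff (tsum_nonneg hb')).mp h1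

end Run7.h275.EJ
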