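import Mathlib
import Pool.Agent.H713R2.Main1
import Pool.Agent.H713R2.AR.AF5
import Pool.Agent.Run7.h275.EJ2

set_option autoImplicit false

open Complex Topology Filter Metric MeasureTheory Set N62a1eb23

namespace Run7.h275.EJ

open Pool.Agent.H713R2 Pool.Agent.H713R2.AR Pool.Agent.H712R2

theorem isExt_of_beta {d : ℕ} {β : ℂ → ℂ} (hβ : IsBeta d β) : IsExt 1 β :=
  ⟨hβ.diff, hβ.zero, hβ.inj⟩

theorem compl_UU_eq {d : ℕ} {β : ℂ → ℂ} (hβ : IsBeta d β) : (UU β 1)ᶜ = multibrotSet d := by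
  ext c
  constructor
  · intro h
    by_contra hc
    obtain ⟨x, hx, hx0, hxc⟩ := hβ.surj c hc
    exact h ⟨x, ⟨hx0, mem_ball_zero_iff.mp hx⟩, hxc⟩
  · rintro h ⟨x, ⟨hx0, hx⟩, rfl⟩
    exact hβ.notMem x (mem_ball_zero_iff.mpr hx) hx0 h

/-- The functions `B_n` are bounded by two on the whole disc. -/
theorem BB_le_two {d : ℕ} (hd : 2 ≤ d) {β : ℂ → ℂ} (hβ : IsBeta d β) (n : ℕ) {x : ℂ}
    (hx : x ∈ ball (0 : ℂ) 1) : ‖BB d β n x‖ ≤ 2 := by
  by_contra hcon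
  push Not at hcon
  have hx1 : ‖x‖ < 1 := mem_ball_zero_iff.mp hx
  have hBd : DifferentiableOn ℂ (BB d β n) (ball 0 1) := BB_diff hβ.diff n
  have hev : ∀ᶠ i in atTop, max ‖x‖ (1 / 2) < rr i :=
    rr_tendsto.eventually (lt_mem_nhds (max_lt hx1 (by norm_num)))
  obtain ⟨i0, hi0⟩ := eventually_atTop.mp hev
  have hex : ∀ i, ∃ y : ℂ, ‖y‖ = rr (i + i0) ∧ ‖BB d β n x‖ ≤ ‖BB d β n y‖ := by
    intro i
    have hr := hi0 (i + i0) (by omega)
    have hr1 := rr_lt (i + i0)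
    have hr0 := rr_pos (i + i0)
    by_contra hno
    push Not at hno
    obtain ⟨y, hy, hmax⟩ := exists_mem_frontier_isMaxOn_norm (f := BB d β n)
      (U := ball (0 : ℂ) (rr (i + i0))) isBounded_ball ⟨0, mem_ball_self hr0⟩
      (by
        apply DifferentiableOn.diffContOnCl
        rw [closure_ball _ hr0.ne']
        exact hBd.mono (closedBall_subset_ball hr1))
    rw [frontier_ball _ hr0.ne', mem_sphere_zero_iff_norm] at hy
    have h1 := hno y hy
    have h2 := hmax (subset_closure (show x ∈ ball (0 : ℂ) (rr (i + i0)) by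
      rw [mem_ball_zero_iff]
      exact (le_max_left _ _).trans_lt hr))
    simp only [Function.comp] at h2
    exact absurd h2 (not_le.mpr h1)
  choose y hy1 hy2 using hex
  have hy0 : ∀ i, y i ≠ 0 := by
    intro i h
    have := hy1 i
    rw [h, norm_zero] at this
    linarith [rr_pos (i + i0)]
  have hyb : ∀ i, y i ∈ ball (0 : ℂ) 1 := fun i => by
    rw [mem_ball_zero_iff, hy1]
    exact rr_lt _
  set c : ℕ → ℂ := fun i => (y i)⁻¹ * β (y i) with hc
  have hc4 : ∀ i, c i ∈ closedBall (0 : ℂ) 4 := by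
    intro i
    rw [mem_closedBall_zero_iff, hc]
    simp only
    rw [norm_mul, norm_inv, hy1]
    have h1 := hβ.bound _ (hyb i)
    have h2 : (rr (i + i0))⁻¹ ≤ 2 := by
      rw [inv_le_comm₀ (rr_pos _) (by norm_num)]
      have := (le_max_right ‖x‖ (1 / 2)).trans_lt (hi0 (i + i0) (by omega))
      linarith
    calc (rr (i + i0))⁻¹ * ‖β (y i)‖ ≤ 2 * 2 :=
          mul_le_mul h2 h1 (norm_nonneg _) (by norm_num)
      _ = 4 := by norm_num
  have hP : ∀ i, ‖BB d β n x‖ ≤ ‖P d (n + 1) (c i)‖ := by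
    intro i
    refine (hy2 i).trans ?_
    rw [BB_eq hd β n _ (hy0 i), norm_mul, norm_pow, hy1]
    have h1 : rr (i + i0) ^ (d ^ n) ≤ 1 := pow_le_one₀ (rr_pos _).le (rr_lt _).le
    exact mul_le_of_le_one_left (norm_nonneg _) h1
  obtain ⟨cs, hcs, φ, hφ, hlim⟩ := (isCompact_closedBall (0 : ℂ) 4).tendsto_subseq hc4
  have hPc : ‖BB d β n x‖ ≤ ‖P d (n + 1) cs‖ := by
    have h1 : Tendsto (fun i => ‖P d (n + 1) (c (φ i))‖) atTop (𝓝 ‖P d (n + 1) cs‖) :=
      (((continuous_P d (n + 1)).tendsto cs).comp hlim).norm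
    exact ge_of_tendsto h1 (Eventually.of_forall fun i => hP _)
  have hcsM : cs ∉ multibrotSet d := by
    intro h
    have := (mem_multibrot_iff hd cs).mp h (n + 1)
    linarith
  obtain ⟨xs, hxs, hxs0, hxsc⟩ := hβ.surj cs hcsM
  have hxs1 : ‖xs‖ < 1 := mem_ball_zero_iff.mp hxs
  set ρ : ℝ := (1 + ‖xs‖) / 2 with hρ
  have hρ1 : ρ < 1 := by rw [hρ]; linarith
  have hmem : cs ∈ UU β ρ := ⟨xs, ⟨hxs0, by rw [hρ]; linarith⟩, hxsc⟩
  have h2 : ∀ᶠ i in atTop, c (φ i) ∈ UU β ρ :=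
    hlim.eventually ((isOpen_UU (isExt_of_beta hβ) hρ1.le).mem_nhds hmem)
  have h3 : ∀ᶠ i in atTop, ρ < rr (φ i + i0) := by
    have h4 : Tendsto (fun i => rr (φ i + i0)) atTop (𝓝 1) :=
      rr_tendsto.comp (tendsto_atTop_mono (fun i => Nat.le_add_right _ _) hφ.tendsto_atTop)
    exact h4.eventually (lt_mem_nhds hρ1)
  obtain ⟨i, h4, h5⟩ := (h2.and h3).exists
  obtain ⟨z, ⟨hz0, hz⟩, hzc⟩ := h4
  have h6 := hβ.inj z (mem_ball_zero_iff.mpr (hz.trans hρ1)) (y (φ i)) (hyb _) hz0 (hy0 _) hzc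
  rw [h6, hy1] at hz
  linarith

/-- Schwarz lemma for `B_n ^ a - 1`. -/
theorem BB_pow_sub_one {d : ℕ} (hd : 2 ≤ d) {β : ℂ → ℂ} (hβ : IsBeta d β) (n a : ℕ) {x : ℂ}
    (hx : x ∈ ball (0 : ℂ) 1) :
    ‖BB d β n x ^ a - 1‖ ≤ (2 ^ a + 1) * ‖x‖ ^ (d ^ (n + 1) - 1) := by
  have hK : d ^ (n + 1) - 1 ≠ 0 := by
    have : 1 < d ^ (n + 1) := Nat.one_lt_pow (by omega) (by omega)
    omega
  obtain ⟨K, hKe⟩ := Nat.exists_eq_succ_of_ne_zero hK
  have h0 : BB d β n 0 = 1 := by rw [BB_at_zero hd, hβ.zero, one_pow]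
  have hBd : DifferentiableOn ℂ (BB d β n) (ball 0 1) := BB_diff hβ.diff n
  have h1 := Complex.dist_le_mul_div_pow_of_mapsTo_ball_of_isLittleO
    (f := fun x => BB d β n x ^ a) (c := 0) (z := x) (R₁ := 1) (R₂ := 2 ^ a + 1) (n := K)
    (hBd.pow a) ?_ ?_ hx
  · simp only [h0, one_pow] at h1
    rw [dist_eq_norm, dist_zero_right, ← Nat.succ_eq_add_one, ← hKe, div_one] at h1
    exact h1
  · intro y hy
    simp only [h0, one_pow]
    rw [mem_closedBall, dist_eq_norm]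
    have h2 := BB_le_two hd hβ n hy
    calc ‖BB d β n y ^ a - 1‖ ≤ ‖BB d β n y ^ a‖ + ‖(1 : ℂ)‖ := norm_sub_le _ _
      _ ≤ 2 ^ a + 1 := by
          rw [norm_one, norm_pow]
          gcongr
  · simp only [h0, one_pow]
    obtain ⟨C, hC⟩ := hβ.order n
    -- factor `B ^ a - 1 = (B - 1) * S`
    set S : ℂ → ℂ := fun x => ∑ i ∈ Finset.range a, (BB d β n x) ^ i with hS
    have hSc : ContinuousAt S 0 := by
      have hc : ContinuousAt (BB d β n) 0 :=
        (hBd.differentiableAt (ball_mem_nhds 0 one_pos)).continuousAt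
      simp only [hS]
      fun_prop
    have hSb : S =O[𝓝 0] (fun _ => (1 : ℂ)) := hSc.isBigO_one ℂ
    have hB : (fun x => BB d β n x - 1) =O[𝓝 0] (fun x : ℂ => x ^ (K + 1)) := by
      apply Asymptotics.IsBigO.of_bound C
      filter_upwards [ball_mem_nhds (0 : ℂ) (show (0 : ℝ) < 1 / 2 by norm_num)] with x hx
      have := hC x hx
      rwa [hKe, ← norm_pow] at this
    have h2 := hSb.mul hB
    have h3 : (fun x => BB d β n x ^ a - 1) =O[𝓝 0] (fun x : ℂ => x ^ (K + 1)) := by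
      refine h2.congr (fun x => ?_) (fun x => one_mul _)
      simp only [hS]
      exact geom_sum_mul _ _
    refine h3.trans_isLittleO ?_
    have h4 : (fun x : ℂ => x ^ (K + 1)) =o[𝓝 0] (fun x : ℂ => x ^ K) :=
      Asymptotics.isLittleO_pow_pow (Nat.lt_succ_self K)
    refine h4.norm_right.congr (fun _ => rfl) (fun x => ?_)
    rw [sub_zero, norm_pow]

end Run7.h275.EJ
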