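import Mathlib
import Pool.Agent.Run7.h275.EJ3

set_option autoImplicit false

open Complex Topology Filter Metric MeasureTheory Set N62a1eb23

namespace Run7.h275.EJ

open Pool.Agent.H713R2 Pool.Agent.H713R2.AR Pool.Agent.H712R2

theorem tc_const_mul {F : ℂ → ℂ} (hF : DifferentiableOn ℂ F (ball 0 1)) (c : ℂ) (k : ℕ) :
    tc (fun x => c * F x) k = c * tc F k := by
  have h := tc_unique (a := fun k => c * tc F k) (F := fun x => c * F x) one_pos
    (hF.const_mul c) ?_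
  · rw [← h]
  · filter_upwards [ball_mem_nhds (0 : ℂ) one_pos] with x hx
    simpa only [mul_assoc] using (hasSum_tc hF hx).mul_left c

/-- `V = x T' - L T` for `T = x ^ L S (x⁻¹ β x)`. -/
noncomputable def VV (β : ℂ → ℂ) (S : Polynomial ℂ) (L : ℕ) (x : ℂ) : ℂ :=
  x * deriv (HQ β S L) x - L * HQ β S L x

theorem VV_diff {β : ℂ → ℂ} (hβ : DifferentiableOn ℂ β (ball 0 1)) (S : Polynomial ℂ) (L : ℕ) :
    DifferentiableOn ℂ (VV β S L) (ball 0 1) := by
  unfold VV
  exact (differentiableOn_id.mul ((HQ_diff hβ S L).deriv isOpen_ball)).sub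
    ((HQ_diff hβ S L).const_mul _)

theorem tc_VV {β : ℂ → ℂ} (hβ : DifferentiableOn ℂ β (ball 0 1)) (S : Polynomial ℂ) (L k : ℕ) :
    tc (VV β S L) k = ((k : ℂ) - L) * tc (HQ β S L) k := by
  have h1 := HQ_diff hβ S L
  have h2 : tc (VV β S L) k = tc (fun x => x * deriv (HQ β S L) x) k -
      tc (fun x => (L : ℂ) * HQ β S L x) k :=
    tc_sub one_pos (differentiableOn_id.mul (h1.deriv isOpen_ball)) (h1.const_mul _) k
  rw [h2, tc_id_mul_deriv h1, tc_const_mul h1]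
  ring

/-- Derivative of a polynomial of the exterior map. -/
theorem VV_deriv {β : ℂ → ℂ} (hβ : DifferentiableOn ℂ β (ball 0 1)) {S : Polynomial ℂ} {L : ℕ}
    (hL : S.natDegree ≤ L) {x : ℂ} (hx : x ∈ ball (0 : ℂ) 1) (hx0 : x ≠ 0) :
    HasDerivAt (fun x => S.eval (x⁻¹ * β x)) (VV β S L x / x ^ (L + 1)) x := by
  have h1 : HasDerivAt (HQ β S L) (deriv (HQ β S L) x) x :=
    ((HQ_diff hβ S L).differentiableAt (isOpen_ball.mem_nhds hx)).hasDerivAt
  have h2 := ((hasDerivAt_pow L x).inv (pow_ne_zero L hx0)).mul h1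
  have h3 : (fun x => S.eval (x⁻¹ * β x)) =ᶠ[𝓝 x] fun x => (x ^ L)⁻¹ * HQ β S L x := by
    filter_upwards [isOpen_ne.mem_nhds hx0] with y hy
    rw [HQ_eval β hL hy, inv_mul_cancel_left₀ (pow_ne_zero _ hy)]
  refine (h2.congr_of_eventuallyEq h3).congr_deriv ?_
  unfold VV
  simp only [Pi.inv_apply]
  generalize HQ β S L x = b
  generalize deriv (HQ β S L) x = b'
  cases L with
  | zero =>
    simp only [Nat.cast_zero, zero_mul, neg_zero, pow_zero, zero_add, pow_one, inv_one,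
      sub_zero]
    field_simp
    ring
  | succ l =>
    rw [Nat.add_sub_cancel]
    have h4 : x ^ l ≠ 0 := pow_ne_zero _ hx0
    rw [pow_succ x (l + 1), pow_succ x l]
    generalize x ^ l = w at h4
    field_simp
    ring

/-- The key identity. -/
theorem key_identity {d : ℕ} (hd : 2 ≤ d) {β : ℂ → ℂ} (hβ : IsBeta d β) {S Q : Polynomial ℂ}
    {L n a : ℕ} (hL : S.natDegree ≤ L)
    (hQ : Polynomial.derivative Q = (PP d (n + 1)) ^ a * Polynomial.derivative S)
    (hQD : Q.natDegree ≤ a * d ^ n + L) {x : ℂ} (hx : x ∈ ball (0 : ℂ) 1) :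
    VV β Q (a * d ^ n + L) x = BB d β n x ^ a * VV β S L x := by
  have hne : ∀ x ∈ ball (0 : ℂ) 1, x ≠ 0 →
      VV β Q (a * d ^ n + L) x = BB d β n x ^ a * VV β S L x := by
    intro x hx hx0
    have h1 := VV_deriv hβ.diff hQD hx hx0
    have h2 := VV_deriv hβ.diff hL hx hx0
    have hψ : HasDerivAt (fun x => x⁻¹ * β x) (deriv (fun x => x⁻¹ * β x) x) x := by
      apply DifferentiableAt.hasDerivAt
      exact (differentiableAt_inv hx0).mul (hβ.diff.differentiableAt (isOpen_ball.mem_nhds hx))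
    have h3 : HasDerivAt (fun x => Q.eval (x⁻¹ * β x))
        ((Polynomial.derivative Q).eval (x⁻¹ * β x) * deriv (fun x => x⁻¹ * β x) x) x :=
      HasDerivAt.comp x (h₂ := fun w => Q.eval w) (h := fun z => z⁻¹ * β z)
        (Q.hasDerivAt (x⁻¹ * β x)) hψ
    have h4 : HasDerivAt (fun x => S.eval (x⁻¹ * β x))
        ((Polynomial.derivative S).eval (x⁻¹ * β x) * deriv (fun x => x⁻¹ * β x) x) x :=
      HasDerivAt.comp x (h₂ := fun w => S.eval w) (h := fun z => z⁻¹ * β z)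
        (S.hasDerivAt (x⁻¹ * β x)) hψ
    have h5 := h1.unique h3
    have h6 := h2.unique h4
    rw [hQ, Polynomial.eval_mul, Polynomial.eval_pow, eval_PP, mul_assoc, ← h6] at h5
    rw [BB_eq hd β n x hx0, mul_pow, ← pow_mul]
    have h7 : x ^ (a * d ^ n + L + 1) = x ^ (d ^ n * a) * x ^ (L + 1) := by
      rw [← pow_add]; congr 1; ring
    rw [h7] at h5
    have h8 : x ^ (d ^ n * a) ≠ 0 := pow_ne_zero _ hx0
    have h9 : x ^ (L + 1) ≠ 0 := pow_ne_zero _ hx0
    field_simp at h5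
    rw [h5]
    ring
  by_cases hx0 : x = 0
  · subst hx0
    have c1 : ContinuousAt (VV β Q (a * d ^ n + L)) 0 :=
      ((VV_diff hβ.diff Q _).differentiableAt (ball_mem_nhds 0 one_pos)).continuousAt
    have c2 : ContinuousAt (fun x => BB d β n x ^ a * VV β S L x) 0 :=
      ((((BB_diff hβ.diff n).pow a).mul (VV_diff hβ.diff S L)).differentiableAt
        (ball_mem_nhds 0 one_pos)).continuousAt
    have t1 := c1.tendsto.mono_left (nhdsWithin_le_nhds (s := {0}ᶜ))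
    have t2 := c2.tendsto.mono_left (nhdsWithin_le_nhds (s := {0}ᶜ))
    refine tendsto_nhds_unique t1 (t2.congr' ?_)
    filter_upwards [self_mem_nhdsWithin, nhdsWithin_le_nhds (ball_mem_nhds (0 : ℂ) one_pos)]
      with y hy1 hy2
    exact (hne y hy2 hy1).symm
  · exact hne x hx hx0

/-- The error function. -/
noncomputable def EE (d : ℕ) (β : ℂ → ℂ) (S : Polynomial ℂ) (L n a : ℕ) (x : ℂ) : ℂ :=
  (BB d β n x ^ a - 1) * VV β S L x

theorem EE_diff {d : ℕ} {β : ℂ → ℂ} (hβ : DifferentiableOn ℂ β (ball 0 1)) (S : Polynomial ℂ)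
    (L n a : ℕ) : DifferentiableOn ℂ (EE d β S L n a) (ball 0 1) := by
  unfold EE
  exact (((BB_diff hβ n).pow a).sub (differentiableOn_const _)).mul (VV_diff hβ S L)

theorem EE_bound {d : ℕ} (hd : 2 ≤ d) {β : ℂ → ℂ} (hβ : IsBeta d β) (S : Polynomial ℂ)
    (L n a : ℕ) {x : ℂ} (hx : x ∈ ball (0 : ℂ) 1) :
    ‖EE d β S L n a x‖ ≤ (2 ^ a + 1) * ‖x‖ ^ (d ^ (n + 1) - 1) * ‖VV β S L x‖ := by
  unfold EE
  rw [norm_mul]
  exact mul_le_mul_of_nonneg_right (BB_pow_sub_one hd hβ n a hx) (norm_nonneg _)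

theorem tc_EE_zero {d : ℕ} (hd : 2 ≤ d) {β : ℂ → ℂ} (hβ : IsBeta d β) (S : Polynomial ℂ)
    (L n a : ℕ) {k : ℕ} (hk : k < d ^ (n + 1) - 1) : tc (EE d β S L n a) k = 0 := by
  have hsub : ball (0 : ℂ) (1 / 2) ⊆ ball 0 1 := ball_subset_ball (by norm_num)
  obtain ⟨C, hC⟩ : ∃ C, ∀ x ∈ closedBall (0 : ℂ) (1 / 2), ‖VV β S L x‖ ≤ C :=
    (isCompact_closedBall (0 : ℂ) (1 / 2)).exists_bound_of_continuousOn
      ((VV_diff hβ.diff S L).continuousOn.mono (closedBall_subset_ball (by norm_num)))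
  apply tc_eq_zero_of_order (r := 1 / 2) (C := (2 ^ a + 1) * C) (K := d ^ (n + 1) - 1)
    (by norm_num) hk ((EE_diff hβ.diff S L n a).mono hsub)
  intro x hx
  refine (EE_bound hd hβ S L n a (hsub hx)).trans ?_
  have h2 := hC x (ball_subset_closedBall hx)
  calc (2 ^ a + 1) * ‖x‖ ^ (d ^ (n + 1) - 1) * ‖VV β S L x‖
      ≤ (2 ^ a + 1) * ‖x‖ ^ (d ^ (n + 1) - 1) * C :=
        mul_le_mul_of_nonneg_left h2 (by positivity)
    _ = (2 ^ a + 1) * C * ‖x‖ ^ (d ^ (n + 1) - 1) := by ring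

/-- Coefficients of `V_Q`. -/
theorem tc_VQ {d : ℕ} (hd : 2 ≤ d) {β : ℂ → ℂ} (hβ : IsBeta d β) {S Q : Polynomial ℂ}
    {L n a : ℕ} (hL : S.natDegree ≤ L)
    (hQ : Polynomial.derivative Q = (PP d (n + 1)) ^ a * Polynomial.derivative S)
    (hQD : Q.natDegree ≤ a * d ^ n + L) (k : ℕ) :
    tc (VV β Q (a * d ^ n + L)) k = tc (VV β S L) k + tc (EE d β S L n a) k := by
  rw [← tc_add one_pos (VV_diff hβ.diff S L) (EE_diff hβ.diff S L n a)]
  have h1 := tc_unique (a := tc (fun x => VV β S L x + EE d β S L n a x))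
    (F := VV β Q (a * d ^ n + L)) one_pos (VV_diff hβ.diff _ _) ?_
  · exact (congrFun h1 k).symm
  · filter_upwards [ball_mem_nhds (0 : ℂ) one_pos] with x hx
    rw [key_identity hd hβ hL hQ hQD hx]
    have h2 := hasSum_tc (F := fun x => VV β S L x + EE d β S L n a x)
      ((VV_diff hβ.diff S L).add (EE_diff (d := d) hβ.diff S L n a)) hx
    have h3 : (BB d β n x ^ a * VV β S L x) = VV β S L x + EE d β S L n a x := by
      simp only [EE]
      ring
    rw [h3]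
    exact h2

end Run7.h275.EJ
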