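import Mathlib
import Pool.Agent.Run7.h275.EJ4

set_option autoImplicit false

open Complex Topology Filter Metric MeasureTheory Set N62a1eb23

namespace Run7.h275.EJ

open Pool.Agent.H713R2 Pool.Agent.H713R2.AR Pool.Agent.H712R2

/-- Kronecker's lemma, in the form needed here. -/
theorem kronecker {f : ℕ → ℝ} (hf : ∀ k, 0 ≤ f k) (hs : Summable (fun k : ℕ => f k / ((k : ℝ) + 1))) :
    Tendsto (fun m : ℕ => (1 / (m : ℝ)) * ∑ k ∈ Finset.range m, f k) atTop (𝓝 0) := by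
  have h1 : Tendsto (fun m : ℕ => ∑' k : ℕ, if k < m then f k / m else 0) atTop
      (𝓝 (∑' _ : ℕ, (0 : ℝ))) := by
    apply tendsto_tsum_of_dominated_convergence hs
    · intro k
      have h2 : Tendsto (fun m : ℕ => f k / (m : ℝ)) atTop (𝓝 0) :=
        tendsto_const_nhds.div_atTop tendsto_natCast_atTop_atTop
      refine squeeze_zero (fun m => ?_) (fun m => ?_) h2
      · split_ifs
        · have := hf k
          positivity
        · exact le_rfl
      · split_ifs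
        · exact le_rfl
        · have := hf k
          positivity
    · refine Eventually.of_forall fun m k => ?_
      have hk := hf k
      split_ifs with h
      · rw [Real.norm_eq_abs, abs_of_nonneg (by positivity)]
        apply div_le_div_of_nonneg_left hk (by positivity)
        exact_mod_cast h
      · rw [norm_zero]
        positivity
  rw [tsum_zero] at h1
  refine h1.congr fun m => ?_
  rw [tsum_eq_sum (s := Finset.range m) (fun k hk => by
    rw [if_neg]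
    intro h
    exact hk (Finset.mem_range.mpr h)), Finset.mul_sum]
  apply Finset.sum_congr rfl
  intro k hk
  rw [if_pos (Finset.mem_range.mp hk)]
  ring

/-- The weighted sums tend to zero. -/
theorem shift_sum {f : ℕ → ℝ} (hf : ∀ k, 0 ≤ f k) (hs : Summable (fun k : ℕ => f k / ((k : ℝ) + 1))) :
    Tendsto (fun M : ℕ => ∑' k : ℕ, f k / ((k : ℝ) + M + 1)) atTop (𝓝 0) ∧
    ∀ M : ℕ, Summable (fun k : ℕ => f k / ((k : ℝ) + M + 1)) := by
  have hle : ∀ M k : ℕ, f k / ((k : ℝ) + M + 1) ≤ f k / ((k : ℝ) + 1) := by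
    intro M k
    apply div_le_div_of_nonneg_left (hf k) (by positivity)
    have : (0 : ℝ) ≤ M := Nat.cast_nonneg M
    linarith
  have h0 : ∀ M k : ℕ, 0 ≤ f k / ((k : ℝ) + M + 1) := by
    intro M k
    have := hf k
    positivity
  refine ⟨?_, fun M => hs.of_nonneg_of_le (h0 M) (hle M)⟩
  have h1 : Tendsto (fun M : ℕ => ∑' k : ℕ, f k / ((k : ℝ) + M + 1)) atTop
      (𝓝 (∑' _ : ℕ, (0 : ℝ))) := by
    apply tendsto_tsum_of_dominated_convergence hs
    · intro k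
      apply tendsto_const_nhds.div_atTop
      apply tendsto_atTop_add_const_right
      exact tendsto_atTop_add_const_left _ _ tendsto_natCast_atTop_atTop
    · refine Eventually.of_forall fun M k => ?_
      rw [Real.norm_eq_abs, abs_of_nonneg (h0 M k)]
      exact hle M k
  rwa [tsum_zero] at h1

/-- Finite energy of the coefficients. -/
theorem summable_v {d : ℕ} {β : ℂ → ℂ} (hβ : IsBeta d β) {S : Polynomial ℂ} {L : ℕ}
    (hL : S.natDegree ≤ L) :
    Summable (fun k : ℕ => ‖tc (VV β S L) k‖ ^ 2 / ((k : ℝ) + 1)) := by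
  have h1 := (energy_identity (isExt_of_beta hβ) hL).1
  rw [← summable_nat_add_iff (L + 1)]
  refine h1.of_nonneg_of_le (fun j => by positivity) (fun j => ?_)
  rw [tc_VV hβ.diff, norm_mul, mul_pow]
  have h2 : ((j + (L + 1) : ℕ) : ℂ) - L = (((j : ℝ) + 1 : ℝ) : ℂ) := by push_cast; ring
  rw [h2, Complex.norm_real, Real.norm_eq_abs, abs_of_nonneg (by positivity)]
  rw [div_le_iff₀ (by positivity)]
  push_cast
  have h3 : 0 ≤ ‖tc (HQ β S L) (j + (L + 1))‖ ^ 2 := by positivity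
  have h4 : (0 : ℝ) ≤ j := Nat.cast_nonneg j
  have h5 : (0 : ℝ) ≤ L := Nat.cast_nonneg L
  nlinarith [mul_nonneg (mul_nonneg h4 h5) h3, mul_nonneg h4 h3, mul_nonneg h5 h3]

/-- Energy of the error. -/
theorem error_energy {d : ℕ} (hd : 2 ≤ d) {β : ℂ → ℂ} (hβ : IsBeta d β) {S : Polynomial ℂ}
    {L : ℕ} (hL : S.natDegree ≤ L) (n a M : ℕ) :
    Summable (fun j : ℕ => ‖tc (EE d β S L n a) (j + (d ^ (n + 1) - 1))‖ ^ 2 / ((j : ℝ) + M + 1)) ∧
    ∑' j : ℕ, ‖tc (EE d β S L n a) (j + (d ^ (n + 1) - 1))‖ ^ 2 / ((j : ℝ) + M + 1) ≤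
      (2 ^ a + 1) ^ 2 * ∑' j : ℕ, ‖tc (VV β S L) j‖ ^ 2 / ((j : ℝ) + M + 1) := by
  set K : ℕ := d ^ (n + 1) - 1 with hK
  have hEd := EE_diff (d := d) hβ.diff S L n a
  have hVd := VV_diff hβ.diff S L
  have hsq : ∀ t : ℝ, 0 < t → t < 1 → ∃ ρ : ℝ, 0 < ρ ∧ ρ < 1 ∧ t = ρ ^ 2 := by
    intro t h0 h1
    refine ⟨Real.sqrt t, Real.sqrt_pos.mpr h0, ?_, (Real.sq_sqrt h0.le).symm⟩
    rw [Real.sqrt_lt' one_pos]
    simpa using h1
  have hsh : ∀ ρ : ℝ, 0 < ρ → ρ < 1 →
      Summable (fun j => ‖tc (EE d β S L n a) (j + K)‖ ^ 2 * ρ ^ (2 * j)) ∧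
      ∑' k, ‖tc (EE d β S L n a) k‖ ^ 2 * ρ ^ (2 * k) =
        ρ ^ (2 * K) * ∑' j, ‖tc (EE d β S L n a) (j + K)‖ ^ 2 * ρ ^ (2 * j) := by
    intro ρ h0 h1
    have s1 := summable_sq hEd h0 h1
    have s2 := (summable_nat_add_iff K).mpr s1
    have e1 : (fun j => ‖tc (EE d β S L n a) (j + K)‖ ^ 2 * ρ ^ (2 * (j + K))) =
        fun j => ρ ^ (2 * K) * (‖tc (EE d β S L n a) (j + K)‖ ^ 2 * ρ ^ (2 * j)) := by
      funext j
      rw [mul_add, pow_add]
      ring
    rw [e1] at s2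
    refine ⟨(summable_mul_left_iff (pow_ne_zero _ h0.ne')).mp s2, ?_⟩
    rw [← s1.sum_add_tsum_nat_add K, e1, tsum_mul_left]
    have e2 : ∑ i ∈ Finset.range K, ‖tc (EE d β S L n a) i‖ ^ 2 * ρ ^ (2 * i) = 0 := by
      apply Finset.sum_eq_zero
      intro i hi
      rw [tc_EE_zero hd hβ S L n a (Finset.mem_range.mp hi), norm_zero]
      ring
    rw [e2, zero_add]
  have hv := shift_sum (f := fun j => ‖tc (VV β S L) j‖ ^ 2) (fun j => by positivity)
    (summable_v hβ hL)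
  have h := compare_seq (a := fun j => ‖tc (EE d β S L n a) (j + K)‖ ^ 2)
    (b := fun j => (2 ^ a + 1) ^ 2 * ‖tc (VV β S L) j‖ ^ 2) (fun j => by positivity)
    (fun j => by positivity)
    (fun t h0 h1 => by
      obtain ⟨ρ, hρ0, hρ1, rfl⟩ := hsq t h0 h1
      refine (hsh ρ hρ0 hρ1).1.congr fun j => ?_
      rw [← pow_mul])
    (fun t h0 h1 => by
      obtain ⟨ρ, hρ0, hρ1, rfl⟩ := hsq t h0 h1
      refine ((summable_sq hVd hρ0 hρ1).mul_left ((2 ^ a + 1) ^ 2)).congr fun j => ?_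
      rw [← pow_mul]
      ring)
    (fun t h0 h1 => by
      obtain ⟨ρ, hρ0, hρ1, rfl⟩ := hsq t h0 h1
      have h2 := parseval_le hEd hVd (C := 2 ^ a + 1) (K := K) (by positivity)
        (fun x hx => EE_bound hd hβ S L n a hx) hρ0 hρ1
      rw [(hsh ρ hρ0 hρ1).2] at h2
      have h3 : ∑' j, ‖tc (EE d β S L n a) (j + K)‖ ^ 2 * ρ ^ (2 * j) ≤
          (2 ^ a + 1) ^ 2 * ∑' k, ‖tc (VV β S L) k‖ ^ 2 * ρ ^ (2 * k) := by
        have h4 : 0 < ρ ^ (2 * K) := by positivity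
        apply le_of_mul_le_mul_left _ h4
        calc ρ ^ (2 * K) * ∑' j, ‖tc (EE d β S L n a) (j + K)‖ ^ 2 * ρ ^ (2 * j)
            ≤ (2 ^ a + 1) ^ 2 * ρ ^ (2 * K) * ∑' k, ‖tc (VV β S L) k‖ ^ 2 * ρ ^ (2 * k) := h2
          _ = ρ ^ (2 * K) * ((2 ^ a + 1) ^ 2 * ∑' k, ‖tc (VV β S L) k‖ ^ 2 * ρ ^ (2 * k)) := by
              ring
      rw [← tsum_mul_left] at h3
      refine le_trans (le_of_eq ?_) (h3.trans (le_of_eq ?_))
      · apply tsum_congr
        intro j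
        rw [← pow_mul]
      · apply tsum_congr
        intro j
        rw [← pow_mul]
        ring) M
    ((hv.2 M).mul_left ((2 ^ a + 1) ^ 2) |>.congr fun j => by ring)
  refine ⟨h.1, h.2.trans (le_of_eq ?_)⟩
  rw [← tsum_mul_left]
  apply tsum_congr
  intro j
  ring

end Run7.h275.EJ
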