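import Mathlib
import Pool.Agent.Run7.h275.EJ5

set_option autoImplicit false

open Complex Topology Filter Metric MeasureTheory Set N62a1eb23

namespace Run7.h275.EJ

open Pool.Agent.H713R2 Pool.Agent.H713R2.AR Pool.Agent.H712R2

/-- The mean square of the critical orbit. -/
noncomputable def II (d : ℕ) (S : Polynomial ℂ) (a n : ℕ) : ℝ :=
  1 / Real.pi * ∫ c in multibrotSet d, ‖P d (n + 1) c‖ ^ (2 * a) *
    ‖(Polynomial.derivative S).eval c‖ ^ 2

theorem exists_Q (d : ℕ) (hd : 2 ≤ d) (S : Polynomial ℂ) {L : ℕ} (hL : S.natDegree ≤ L)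
    (n a : ℕ) (hL1 : 1 ≤ L) : ∃ Q : Polynomial ℂ,
      Polynomial.derivative Q = (PP d (n + 1)) ^ a * Polynomial.derivative S ∧
      Q.natDegree ≤ a * d ^ n + L := by
  obtain ⟨Q, hQ⟩ := Pool.Agent.H713R2.exists_antideriv ((PP d (n + 1)) ^ a * Polynomial.derivative S)
  refine ⟨Q, hQ, ?_⟩
  rw [Polynomial.natDegree_le_iff_coeff_eq_zero]
  intro m hm
  obtain ⟨l, rfl⟩ := Nat.exists_eq_add_of_le' (show 1 ≤ m by omega)
  have h1 : (Polynomial.derivative Q).natDegree ≤ a * d ^ n + (L - 1) := by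
    rw [hQ]
    refine Polynomial.natDegree_mul_le.trans ?_
    have h2 : ((PP d (n + 1)) ^ a).natDegree ≤ a * d ^ n := by
      rw [Polynomial.natDegree_pow, natDegree_PP hd]
    have h3 := Polynomial.natDegree_derivative_le S
    omega
  have h2 : (Polynomial.derivative Q).coeff l = 0 :=
    Polynomial.coeff_eq_zero_of_natDegree_lt (by omega)
  rw [Polynomial.coeff_derivative] at h2
  rcases mul_eq_zero.mp h2 with h3 | h3
  · exact h3
  · exact absurd h3 (by exact_mod_cast Nat.succ_ne_zero l)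

/-- The exact identity. -/
theorem identity_u {d : ℕ} {β : ℂ → ℂ} (hβ : IsBeta d β) {S Q : Polynomial ℂ}
    {n a D : ℕ}
    (hQ : Polynomial.derivative Q = (PP d (n + 1)) ^ a * Polynomial.derivative S)
    (hQD : Q.natDegree ≤ D) :
    Summable (fun j : ℕ => ‖tc (VV β Q D) (j + (D + 1))‖ ^ 2 / ((j : ℝ) + 1)) ∧
    ∑ k ∈ Finset.range D, ‖tc (VV β Q D) k‖ ^ 2 / ((D : ℝ) - k) -
      ∑' j : ℕ, ‖tc (VV β Q D) (j + (D + 1))‖ ^ 2 / ((j : ℝ) + 1) = II d S a n := by
  obtain ⟨h1, h2⟩ := energy_identity (isExt_of_beta hβ) hQD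
  have e1 : (fun j : ℕ => ‖tc (VV β Q D) (j + (D + 1))‖ ^ 2 / ((j : ℝ) + 1)) =
      fun j : ℕ => ((j : ℝ) + 1) * ‖tc (HQ β Q D) (j + (D + 1))‖ ^ 2 := by
    funext j
    rw [tc_VV hβ.diff, norm_mul, mul_pow]
    have h2 : ((j + (D + 1) : ℕ) : ℂ) - D = (((j : ℝ) + 1 : ℝ) : ℂ) := by push_cast; ring
    rw [h2, Complex.norm_real, Real.norm_eq_abs, abs_of_nonneg (by positivity)]
    field_simp
  have e2 : ∑ k ∈ Finset.range D, ‖tc (VV β Q D) k‖ ^ 2 / ((D : ℝ) - k) =
      ∑ k ∈ Finset.range D, ((D : ℝ) - k) * ‖tc (HQ β Q D) k‖ ^ 2 := by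
    apply Finset.sum_congr rfl
    intro k hk
    have hk' : (k : ℝ) < D := by exact_mod_cast Finset.mem_range.mp hk
    rw [tc_VV hβ.diff, norm_mul, mul_pow]
    have h2 : (k : ℂ) - D = ((((k : ℝ) - D : ℝ)) : ℂ) := by push_cast; ring
    rw [h2, Complex.norm_real, Real.norm_eq_abs, sq_abs]
    have h3 : (D : ℝ) - k ≠ 0 := by linarith
    field_simp
    ring
  refine ⟨by rw [e1]; exact h1, ?_⟩
  rw [e1, e2, h2, II, compl_UU_eq hβ]
  congr 1
  apply integral_congr_ae
  refine Eventually.of_forall fun z => ?_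
  simp only
  rw [hQ, Polynomial.eval_mul, Polynomial.eval_pow, eval_PP, norm_mul, norm_pow, mul_pow, ← pow_mul,
    mul_comm a 2]

/-- The main limit. -/
theorem main_limit {d : ℕ} (hd : 2 ≤ d) {β : ℂ → ℂ} (hβ : IsBeta d β) {S : Polynomial ℂ} {L : ℕ}
    (hL : S.natDegree ≤ L) (hL1 : 1 ≤ L) {a : ℕ} (ha : 1 ≤ a) (had : a < d) {δ : ℝ} (hδ : 0 < δ)
    (hδ1 : δ < 1) :
    Tendsto (fun n : ℕ => ∑ i ∈ Finset.range ⌊δ * (d : ℝ) ^ n⌋₊,
      (‖tc (VV β S L) (a * d ^ n + L - (i + 1))‖ ^ 2 -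
        ‖tc (VV β S L) (a * d ^ n + L + (i + 1))‖ ^ 2) / ((i : ℝ) + 1) - II d S a n)
      atTop (𝓝 0) := by
  set v : ℕ → ℂ := tc (VV β S L) with hv
  set w : ℕ → ℕ := fun n => ⌊δ * (d : ℝ) ^ n⌋₊ with hw
  set D : ℕ → ℕ := fun n => a * d ^ n + L with hD
  set K : ℕ → ℕ := fun n => d ^ (n + 1) - 1 with hK
  have hsv : Summable (fun k : ℕ => ‖v k‖ ^ 2 / ((k : ℝ) + 1)) := summable_v hβ hL
  have hd1 : (1 : ℝ) < d := by exact_mod_cast (by omega : 1 < d)
  have hdn : ∀ n, 1 ≤ (d : ℝ) ^ n := fun n => one_le_pow₀ hd1.le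
  have hN : Tendsto (fun n : ℕ => (d : ℝ) ^ n) atTop atTop := tendsto_pow_atTop_atTop_of_one_lt hd1
  have hNn : Tendsto (fun n : ℕ => d ^ n) atTop atTop :=
    tendsto_pow_atTop_atTop_of_one_lt (by omega)
  have hwlt : ∀ n, δ * (d : ℝ) ^ n < (w n : ℝ) + 1 := fun n => Nat.lt_floor_add_one _
  have hwle : ∀ n, (w n : ℝ) ≤ δ * (d : ℝ) ^ n := fun n =>
    Nat.floor_le (mul_nonneg hδ.le (by positivity))
  have hDr : ∀ n, (D n : ℝ) = a * (d : ℝ) ^ n + L := fun n => by simp [hD]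
  have hDle : ∀ n, (D n : ℝ) ≤ (a + L) * (d : ℝ) ^ n := by
    intro n
    rw [hDr]
    have h1 : (0 : ℝ) ≤ L := Nat.cast_nonneg L
    nlinarith [hdn n]
  -- condition on `n`
  have hcond : ∀ᶠ n in atTop, w n + L + 2 ≤ d ^ n := by
    have h1 := (hN.const_mul_atTop (show 0 < 1 - δ by linarith)).eventually_ge_atTop ((L : ℝ) + 2)
    filter_upwards [h1] with n hn
    have h2 : (w n : ℝ) + L + 2 ≤ (d : ℝ) ^ n := by
      have := hwle n
      linarith
    exact_mod_cast h2
  -- remainders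
  set R1 : ℕ → ℝ := fun n => (a + L) / δ * ((1 / (D n : ℝ)) * ∑ k ∈ Finset.range (D n), ‖v k‖ ^ 2)
    with hR1
  set c : ℝ := 1 + (a + L + 1) / δ with hc
  set R2 : ℕ → ℝ := fun n => 2 * (c * ∑' j : ℕ, ‖v (j + (w n + D n + 1))‖ ^ 2 /
    (((j + (w n + D n + 1) : ℕ) : ℝ) + 1)) + 2 * ((2 ^ a + 1) ^ 2 *
      ∑' j : ℕ, ‖v j‖ ^ 2 / ((j : ℝ) + ((K n - D n - 1 : ℕ) : ℝ) + 1)) with hR2
  have hDt : Tendsto D atTop atTop := by
    apply tendsto_atTop_mono _ hNn
    intro n
    simp only [hD]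
    nlinarith [Nat.zero_le L, Nat.zero_le (d ^ n)]
  have hR1t : Tendsto R1 atTop (𝓝 0) := by
    have h1 := (kronecker (f := fun k => ‖v k‖ ^ 2) (fun k => by positivity) hsv).comp hDt
    have h2 := h1.const_mul ((a + L) / δ)
    rw [mul_zero] at h2
    exact h2
  have hMt : Tendsto (fun n => K n - D n - 1) atTop atTop := by
    have h1 : Tendsto (fun n => d ^ n - (L + 2)) atTop atTop := tendsto_sub_atTop_nat (L + 2) |>.comp hNn
    apply tendsto_atTop_mono _ h1
    intro n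
    simp only [hD, hK]
    have h2 : (a + 1) * d ^ n ≤ d ^ (n + 1) := by
      rw [pow_succ, mul_comm (d ^ n) d]
      exact Nat.mul_le_mul_right _ had
    have h3 : (a + 1) * d ^ n = a * d ^ n + d ^ n := by ring
    omega
  have hR2t : Tendsto R2 atTop (𝓝 0) := by
    have h1 : Tendsto (fun n => ∑' j : ℕ, ‖v (j + (w n + D n + 1))‖ ^ 2 /
        (((j + (w n + D n + 1) : ℕ) : ℝ) + 1)) atTop (𝓝 0) := by
      have h2 := tendsto_sum_nat_add (fun k : ℕ => ‖v k‖ ^ 2 / ((k : ℝ) + 1))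
      have h3 : Tendsto (fun n => w n + D n + 1) atTop atTop :=
        tendsto_atTop_mono (fun n => by omega) hDt
      exact h2.comp h3
    have h4 : Tendsto (fun n => ∑' j : ℕ, ‖v j‖ ^ 2 / ((j : ℝ) + ((K n - D n - 1 : ℕ) : ℝ) + 1))
        atTop (𝓝 0) :=
      ((shift_sum (f := fun j => ‖v j‖ ^ 2) (fun j => by positivity) hsv).1).comp hMt
    have h5 := ((h1.const_mul c).const_mul 2).add ((h4.const_mul ((2 ^ a + 1 : ℝ) ^ 2)).const_mul 2)
    simp only [mul_zero, add_zero] at h5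
    exact h5
  -- the estimate
  have hest : ∀ᶠ n in atTop, |∑ i ∈ Finset.range (w n),
      (‖v (D n - (i + 1))‖ ^ 2 - ‖v (D n + (i + 1))‖ ^ 2) / ((i : ℝ) + 1) - II d S a n| ≤
      R1 n + R2 n := by
    filter_upwards [hcond] with n hn
    obtain ⟨Q, hQ, hQD⟩ := exists_Q d hd S hL n a hL1
    obtain ⟨hs, hid⟩ := identity_u hβ hQ hQD
    have huv : ∀ k, tc (VV β Q (D n)) k = v k + tc (EE d β S L n a) k := fun k =>
      tc_VQ hd hβ hL hQ hQD k
    have hKD : D n + w n + 1 ≤ K n := by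
      simp only [hD, hK]
      have h2 : (a + 1) * d ^ n ≤ d ^ (n + 1) := by
        rw [pow_succ, mul_comm (d ^ n) d]
        exact Nat.mul_le_mul_right _ had
      have h3 : (a + 1) * d ^ n = a * d ^ n + d ^ n := by ring
      omega
    have huv0 : ∀ k, k < K n → tc (VV β Q (D n)) k = v k := fun k hk => by
      rw [huv, tc_EE_zero hd hβ S L n a hk, add_zero]
    have hwD : w n ≤ D n := by
      simp only [hD]
      have : 1 * d ^ n ≤ a * d ^ n := Nat.mul_le_mul_right _ ha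
      omega
    -- left part
    have hleft : ∑ k ∈ Finset.range (D n), ‖tc (VV β Q (D n)) k‖ ^ 2 / ((D n : ℝ) - k) =
        ∑ i ∈ Finset.range (w n), ‖v (D n - (i + 1))‖ ^ 2 / ((i : ℝ) + 1) +
        ∑ i ∈ Finset.Ico (w n) (D n), ‖v (D n - (i + 1))‖ ^ 2 / ((i : ℝ) + 1) := by
      rw [Finset.sum_range_add_sum_Ico _ hwD, ← Finset.sum_range_reflect]
      apply Finset.sum_congr rfl
      intro i hi
      have hi' := Finset.mem_range.mp hi
      rw [huv0 _ (by omega), show D n - 1 - i = D n - (i + 1) by omega]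
      congr 1
      rw [Nat.cast_sub (by omega)]
      push_cast
      ring
    have hleft2 : ∑ i ∈ Finset.Ico (w n) (D n), ‖v (D n - (i + 1))‖ ^ 2 / ((i : ℝ) + 1) ≤ R1 n := by
      have h1 : ∑ i ∈ Finset.Ico (w n) (D n), ‖v (D n - (i + 1))‖ ^ 2 / ((i : ℝ) + 1) ≤
          ∑ i ∈ Finset.Ico (w n) (D n), ‖v (D n - (i + 1))‖ ^ 2 * (1 / (δ * (d : ℝ) ^ n)) := by
        apply Finset.sum_le_sum
        intro i hi
        have hi' : (w n : ℝ) ≤ i := by exact_mod_cast (Finset.mem_Ico.mp hi).1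
        rw [div_eq_mul_one_div]
        apply mul_le_mul_of_nonneg_left _ (by positivity)
        apply one_div_le_one_div_of_le (mul_pos hδ (by linarith [hdn n]))
        linarith [hwlt n]
      refine h1.trans ?_
      rw [← Finset.sum_mul]
      have h2 : ∑ i ∈ Finset.Ico (w n) (D n), ‖v (D n - (i + 1))‖ ^ 2 ≤
          ∑ k ∈ Finset.range (D n), ‖v k‖ ^ 2 := by
        rw [← Finset.sum_range_reflect (fun k => ‖v k‖ ^ 2) (D n)]
        have h3 : ∑ i ∈ Finset.range (D n), ‖v (D n - 1 - i)‖ ^ 2 =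
            ∑ i ∈ Finset.range (D n), ‖v (D n - (i + 1))‖ ^ 2 := by
          apply Finset.sum_congr rfl
          intro i _
          rw [show D n - 1 - i = D n - (i + 1) by omega]
        rw [h3]
        apply Finset.sum_le_sum_of_subset_of_nonneg
        · intro i hi
          exact Finset.mem_range.mpr (Finset.mem_Ico.mp hi).2
        · intro i _ _
          positivity
      simp only [hR1]
      have h4 : 1 / (δ * (d : ℝ) ^ n) ≤ (a + L) / δ * (1 / (D n : ℝ)) := by
        have hD0 : (0 : ℝ) < D n := by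
          rw [hDr]
          have : (1 : ℝ) ≤ L := by exact_mod_cast hL1
          have h5 : (0 : ℝ) ≤ a * (d : ℝ) ^ n := by positivity
          linarith
        rw [div_mul_div_comm, mul_one, div_le_div_iff₀ (by positivity) (by positivity), one_mul]
        have := hDle n
        calc δ * (D n : ℝ) ≤ δ * ((a + L) * (d : ℝ) ^ n) := mul_le_mul_of_nonneg_left this hδ.le
          _ = (a + L) * (δ * (d : ℝ) ^ n) := by ring
      calc (∑ i ∈ Finset.Ico (w n) (D n), ‖v (D n - (i + 1))‖ ^ 2) * (1 / (δ * (d : ℝ) ^ n))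
          ≤ (∑ k ∈ Finset.range (D n), ‖v k‖ ^ 2) * ((a + L) / δ * (1 / (D n : ℝ))) := by
            apply mul_le_mul h2 h4
            · positivity
            · exact Finset.sum_nonneg fun k _ => by positivity
        _ = _ := by ring
    have hleft3 : 0 ≤ ∑ i ∈ Finset.Ico (w n) (D n), ‖v (D n - (i + 1))‖ ^ 2 / ((i : ℝ) + 1) :=
      Finset.sum_nonneg fun k _ => by positivity
    -- right part
    have hright := hs.sum_add_tsum_nat_add (w n)
    have hr1 : ∑ i ∈ Finset.range (w n), ‖tc (VV β Q (D n)) (i + (D n + 1))‖ ^ 2 / ((i : ℝ) + 1) =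
        ∑ i ∈ Finset.range (w n), ‖v (D n + (i + 1))‖ ^ 2 / ((i : ℝ) + 1) := by
      apply Finset.sum_congr rfl
      intro i hi
      have hi' := Finset.mem_range.mp hi
      rw [huv0 _ (by omega), show i + (D n + 1) = D n + (i + 1) by ring]
    set X : ℝ := ∑' j : ℕ, ‖tc (VV β Q (D n)) (j + w n + (D n + 1))‖ ^ 2 /
      (((j + w n : ℕ) : ℝ) + 1) with hX
    have hX0 : 0 ≤ X := tsum_nonneg fun j => by positivity
    have hXle : X ≤ R2 n := by
      have hs' := (summable_nat_add_iff (w n)).mpr hs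
      -- the two parts
      have hc0 : 0 ≤ c := by positivity
      have b1 : ∀ j : ℕ, ‖v (j + (w n + D n + 1))‖ ^ 2 / (((j + w n : ℕ) : ℝ) + 1) ≤
          c * (‖v (j + (w n + D n + 1))‖ ^ 2 / (((j + (w n + D n + 1) : ℕ) : ℝ) + 1)) := by
        intro j
        rw [← mul_div_assoc, mul_comm c, mul_div_assoc, div_eq_mul_one_div]
        apply mul_le_mul_of_nonneg_left _ (by positivity)
        rw [div_le_div_iff₀ (by positivity) (by positivity), one_mul]
        have h1 : ((j + (w n + D n + 1) : ℕ) : ℝ) + 1 = (((j + w n : ℕ) : ℝ) + 1) + (D n + 1) := by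
          push_cast; ring
        rw [h1, hc, add_mul, one_mul]
        have h2 : (D n : ℝ) + 1 ≤ (a + L + 1) / δ * (((j + w n : ℕ) : ℝ) + 1) := by
          have h3 : δ * (d : ℝ) ^ n ≤ ((j + w n : ℕ) : ℝ) + 1 := by
            have h4 : (0 : ℝ) ≤ j := Nat.cast_nonneg j
            push_cast
            linarith [hwlt n]
          have h5 : (D n : ℝ) + 1 ≤ (a + L + 1) * (d : ℝ) ^ n := by
            have := hDle n
            nlinarith [hdn n]
          calc (D n : ℝ) + 1 ≤ (a + L + 1) * (d : ℝ) ^ n := h5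
            _ = (a + L + 1) / δ * (δ * (d : ℝ) ^ n) := by field_simp
            _ ≤ _ := mul_le_mul_of_nonneg_left h3 (by positivity)
        linarith
      have sv1 : Summable (fun j : ℕ => ‖v (j + (w n + D n + 1))‖ ^ 2 /
          (((j + (w n + D n + 1) : ℕ) : ℝ) + 1)) :=
        (summable_nat_add_iff (w n + D n + 1)).mpr hsv
      have sv2 : Summable (fun j : ℕ => ‖v (j + (w n + D n + 1))‖ ^ 2 /
          (((j + w n : ℕ) : ℝ) + 1)) :=
        (sv1.mul_left c).of_nonneg_of_le (fun j => by positivity) b1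
      have t1 : ∑' j : ℕ, ‖v (j + (w n + D n + 1))‖ ^ 2 / (((j + w n : ℕ) : ℝ) + 1) ≤
          c * ∑' j : ℕ, ‖v (j + (w n + D n + 1))‖ ^ 2 /
          (((j + (w n + D n + 1) : ℕ) : ℝ) + 1) := by
        rw [← tsum_mul_left]
        exact sv2.tsum_le_tsum b1 (sv1.mul_left c)
      -- error part
      obtain ⟨se, te⟩ := error_energy hd hβ hL n a (K n - D n - 1)
      set e : ℕ → ℂ := tc (EE d β S L n a) with he
      set g : ℕ → ℝ := fun j => ‖e (j + (w n + D n + 1))‖ ^ 2 / (((j + w n : ℕ) : ℝ) + 1) with hg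
      set T : ℕ := K n - (w n + D n + 1) with hT
      have hgT : ∀ j, g (j + T) = ‖e (j + (d ^ (n + 1) - 1))‖ ^ 2 /
          ((j : ℝ) + ((K n - D n - 1 : ℕ) : ℝ) + 1) := by
        intro j
        simp only [hg]
        have h1 : j + T + (w n + D n + 1) = j + (d ^ (n + 1) - 1) := by
          have : K n = d ^ (n + 1) - 1 := rfl
          omega
        have h2 : (((j + T + w n : ℕ)) : ℝ) + 1 = (j : ℝ) + ((K n - D n - 1 : ℕ) : ℝ) + 1 := by
          have h3 : j + T + w n = j + (K n - D n - 1) := by omega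
          rw [h3]
          push_cast
          ring
        rw [h1, h2]
      have hg0 : ∀ j, j < T → g j = 0 := by
        intro j hj
        simp only [hg]
        have h1 : e (j + (w n + D n + 1)) = 0 := by
          apply tc_EE_zero hd hβ S L n a
          have : K n = d ^ (n + 1) - 1 := rfl
          omega
        rw [h1, norm_zero]
        simp
      have sgT : Summable (fun j => g (j + T)) := by
        refine se.congr fun j => ?_
        rw [hgT]
      have sg : Summable g := (summable_nat_add_iff T).mp sgT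
      have tg : ∑' j, g j ≤ (2 ^ a + 1) ^ 2 *
          ∑' j : ℕ, ‖v j‖ ^ 2 / ((j : ℝ) + ((K n - D n - 1 : ℕ) : ℝ) + 1) := by
        rw [← sg.sum_add_tsum_nat_add T, Finset.sum_eq_zero (fun j hj => hg0 j (Finset.mem_range.mp hj)),
          zero_add]
        refine le_trans (le_of_eq ?_) te
        exact tsum_congr hgT
      -- combine
      have b2 : ∀ j : ℕ, ‖tc (VV β Q (D n)) (j + w n + (D n + 1))‖ ^ 2 / (((j + w n : ℕ) : ℝ) + 1) ≤
          2 * (‖v (j + (w n + D n + 1))‖ ^ 2 / (((j + w n : ℕ) : ℝ) + 1)) + 2 * g j := by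
        intro j
        rw [show j + w n + (D n + 1) = j + (w n + D n + 1) by ring, huv]
        simp only [hg]
        rw [← mul_add, ← add_div, ← mul_div_assoc]
        apply div_le_div_of_nonneg_right _ (by positivity)
        have h1 := norm_add_le (v (j + (w n + D n + 1))) (e (j + (w n + D n + 1)))
        have h2 := norm_nonneg (v (j + (w n + D n + 1)) + e (j + (w n + D n + 1)))
        nlinarith [sq_nonneg (‖v (j + (w n + D n + 1))‖ - ‖e (j + (w n + D n + 1))‖),
          norm_nonneg (v (j + (w n + D n + 1))), norm_nonneg (e (j + (w n + D n + 1)))]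
      have h6 : X ≤ ∑' j : ℕ, (2 * (‖v (j + (w n + D n + 1))‖ ^ 2 / (((j + w n : ℕ) : ℝ) + 1)) +
          2 * g j) := hs'.tsum_le_tsum b2 ((sv2.mul_left 2).add (sg.mul_left 2))
      rw [(sv2.mul_left 2).tsum_add (sg.mul_left 2), tsum_mul_left, tsum_mul_left] at h6
      simp only [hR2]
      linarith
    rw [← hid, ← hright, hr1, hleft]
    have e3 : ∑ i ∈ Finset.range (w n),
        (‖v (D n - (i + 1))‖ ^ 2 - ‖v (D n + (i + 1))‖ ^ 2) / ((i : ℝ) + 1) =
        ∑ i ∈ Finset.range (w n), ‖v (D n - (i + 1))‖ ^ 2 / ((i : ℝ) + 1) -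
        ∑ i ∈ Finset.range (w n), ‖v (D n + (i + 1))‖ ^ 2 / ((i : ℝ) + 1) := by
      rw [← Finset.sum_sub_distrib]
      apply Finset.sum_congr rfl
      intro i _
      ring
    rw [e3]
    rw [abs_le]
    constructor <;> linarith
  have hR : Tendsto (fun n => R1 n + R2 n) atTop (𝓝 0) := by
    have := hR1t.add hR2t
    rwa [add_zero] at this
  exact squeeze_zero_norm' (hest.mono fun n hn => by rwa [Real.norm_eq_abs]) hR

end Run7.h275.EJ
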