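import Mathlib
import Pool.Agent.H713R2.Main1

set_option autoImplicit false

/-! Parameters with an attracting fixed point belong to the multibrot set. -/

open Complex Topology Filter Metric Set N62a1eb23

namespace Run7.h275.EJ

open Pool.Agent.H712R2

theorem exists_log_ball {c : ℂ} {ρ : ℝ} {h : ℂ → ℂ} (hd : DifferentiableOn ℂ h (ball c ρ))
    (hne : ∀ z ∈ ball c ρ, h z ≠ 0) (z₀ : ℂ) (hz₀ : z₀ ∈ ball c ρ) :
    ∃ l : ℂ → ℂ, DifferentiableOn ℂ l (ball c ρ) ∧ (∀ z ∈ ball c ρ, cexp (l z) = h z) ∧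
      l z₀ = Complex.log (h z₀) := by
  have hdd : DifferentiableOn ℂ (deriv h) (ball c ρ) := hd.deriv isOpen_ball
  have hg : DifferentiableOn ℂ (fun z => deriv h z / h z) (ball c ρ) := hdd.div hd hne
  obtain ⟨l, hl0, hl⟩ := (hg.isExactOn_ball).with_val_at z₀ (Complex.log (h z₀))
  have hld : DifferentiableOn ℂ l (ball c ρ) :=
    fun z hz => (hl z hz).differentiableAt.differentiableWithinAt
  refine ⟨l, hld, ?_, hl0⟩
  have hu : DifferentiableOn ℂ (fun z => cexp (-l z) * h z) (ball c ρ) := (hld.neg.cexp).mul hd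
  have hderiv : EqOn (deriv (fun z => cexp (-l z) * h z)) 0 (ball c ρ) := by
    intro z hz
    have hhz : HasDerivAt h (deriv h z) z :=
      ((hd z hz).differentiableAt (isOpen_ball.mem_nhds hz)).hasDerivAt
    have h3 := ((hl z hz).neg.cexp).mul hhz
    have h4 : deriv (fun z => cexp (-l z) * h z) z = _ := h3.deriv
    rw [h4]
    have := hne z hz
    simp only [Pi.zero_apply]
    field_simp
    ring
  intro z hz
  have hconst := isOpen_ball.is_const_of_deriv_eq_zero (convex_ball c ρ).isPreconnected hu hderiv hz hz₀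
  simp only [hl0] at hconst
  rw [Complex.exp_neg (Complex.log (h z₀)), Complex.exp_log (hne z₀ hz₀),
    inv_mul_cancel₀ (hne z₀ hz₀), Complex.exp_neg] at hconst
  field_simp at hconst
  exact hconst.symm

/-- Escape: outside of a large disc the modulus does not decrease. -/
theorem escape_norm {d : ℕ} (hd : 2 ≤ d) {c : ℂ} {R : ℝ} (hR : 2 ≤ R) (hc : ‖c‖ ≤ R) {w : ℂ}
    (hw : R ≤ ‖w‖) (n : ℕ) : ‖w‖ ≤ ‖(fun z => z ^ d + c)^[n] w‖ := by
  induction n with
  | zero => exact le_rfl
  | succ n ih =>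
    rw [Function.iterate_succ_apply']
    set u := (fun z => z ^ d + c)^[n] w with hu
    have h1 : R ≤ ‖u‖ := hw.trans ih
    have h2 : 2 * ‖u‖ ≤ ‖u ^ d‖ := by
      rw [norm_pow]
      calc 2 * ‖u‖ ≤ ‖u‖ * ‖u‖ := mul_le_mul_of_nonneg_right (hR.trans h1) (norm_nonneg _)
        _ = ‖u‖ ^ 2 := by ring
        _ ≤ ‖u‖ ^ d := pow_le_pow_right₀ (by linarith) hd
    have h3 : ‖u ^ d‖ - ‖c‖ ≤ ‖u ^ d + c‖ := by
      have := norm_sub_le (u ^ d + c) c
      rw [add_sub_cancel_right] at this
      linarith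
    change ‖w‖ ≤ ‖u ^ d + c‖
    linarith

/-- A parameter with an attracting fixed point is in the multibrot set. -/
theorem mem_of_fixed {d : ℕ} (hd : 2 ≤ d) {z₀ : ℂ} (hz : d * ‖z₀‖ ^ (d - 1) < 1) :
    z₀ - z₀ ^ d ∈ multibrotSet d := by
  set c : ℂ := z₀ - z₀ ^ d with hc
  set f : ℂ → ℂ := fun z => z ^ d + c with hf
  have hd0 : d ≠ 0 := by omega
  have hfix : f z₀ = z₀ := by simp [hf, hc]
  by_cases hz0 : z₀ = 0
  · have hc0 : c = 0 := by rw [hc, hz0, zero_pow hd0, sub_zero]
    rw [hc0, mem_multibrot_iff hd]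
    have h1 : ∀ k, P d k 0 = 0 := by
      intro k
      induction k with
      | zero => rfl
      | succ k ih => rw [P_succ, ih, zero_pow hd0, add_zero]
    intro k
    rw [h1, norm_zero]
    norm_num
  set μ : ℂ := d * z₀ ^ (d - 1) with hμ
  have hμ0 : μ ≠ 0 := mul_ne_zero (by exact_mod_cast hd0) (pow_ne_zero _ hz0)
  have hμ1 : ‖μ‖ < 1 := by
    rw [hμ, norm_mul, norm_pow, Complex.norm_natCast]
    exact hz
  have hfd : HasDerivAt f μ z₀ := by
    have := (hasDerivAt_pow d z₀).add_const c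
    exact this
  -- trapping disc
  obtain ⟨q, hq1, hq2⟩ := exists_between hμ1
  obtain ⟨r, hr, hcon⟩ : ∃ r > 0, ∀ z ∈ ball z₀ r, ‖f z - z₀‖ ≤ q * ‖z - z₀‖ := by
    have h1 : Tendsto (fun z => ‖z - z₀‖⁻¹ * ‖f z - f z₀‖) (𝓝[≠] z₀) (𝓝 ‖μ‖) := by
      have h2 := (hasDerivAt_iff_tendsto_slope.mp hfd).norm
      refine h2.congr fun z => ?_
      rw [slope_def_field, norm_div, div_eq_inv_mul]
    have h3 := h1.eventually (gt_mem_nhds hq1)
    rw [eventually_nhdsWithin_iff] at h3
    obtain ⟨r, hr, hball⟩ := Metric.eventually_nhds_iff_ball.mp h3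
    refine ⟨r, hr, fun z hz => ?_⟩
    by_cases hzz : z = z₀
    · rw [hzz, hfix, sub_self, norm_zero, mul_zero]
    · have h4 := hball z hz hzz
      rw [hfix] at h4
      have h5 : 0 < ‖z - z₀‖ := norm_pos_iff.mpr (sub_ne_zero.mpr hzz)
      rw [← div_eq_inv_mul, div_lt_iff₀ h5] at h4
      exact h4.le
  have hq0 : 0 ≤ q := (norm_nonneg _).trans hq1.le
  have htrap : ∀ n, ∀ z ∈ ball z₀ r, f^[n] z ∈ ball z₀ r := by
    intro n
    induction n with
    | zero => intro z hz; exact hz
    | succ n ih =>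
      intro z hz
      rw [Function.iterate_succ_apply']
      have h1 := ih z hz
      have h2 := hcon _ h1
      rw [mem_ball, dist_eq_norm] at h1 ⊢
      calc ‖f (f^[n] z) - z₀‖ ≤ q * ‖f^[n] z - z₀‖ := h2
        _ ≤ 1 * ‖f^[n] z - z₀‖ := mul_le_mul_of_nonneg_right hq2.le (norm_nonneg _)
        _ < r := by rw [one_mul]; exact h1
  by_contra hcM
  have hP : ∀ k, P d k c = f^[k] 0 := fun k => rfl
  -- the orbit of the critical value avoids the disc
  have havoid : ∀ n, f^[n] c ∉ ball z₀ r := by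
    intro n hn
    apply hcM
    intro hlim
    have h1 : ∀ k, f^[n + 1 + k] 0 ∈ ball z₀ r := by
      intro k
      have h2 : f^[n + 1] 0 = f^[n] c := by
        rw [Function.iterate_succ_apply]
        congr 1
        simp [hf, hd0]
      rw [show n + 1 + k = k + (n + 1) by ring, Function.iterate_add_apply, h2]
      exact htrap k _ hn
    have h3 : Tendsto (fun k => f^[n + 1 + k] 0) atTop (Bornology.cobounded ℂ) := by
      have : Tendsto (fun k : ℕ => n + 1 + k) atTop atTop :=
        tendsto_atTop_mono (fun k => Nat.le_add_left _ _) tendsto_id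
      exact hlim.comp this
    have h4 : ∀ᶠ k : ℕ in atTop, f^[n + 1 + k] 0 ∈ (ball z₀ r)ᶜ :=
      h3.eventually (Bornology.isBounded_def.mp isBounded_ball)
    obtain ⟨k, hk⟩ := h4.exists
    exact hk (h1 k)
  have hz0b : z₀ ∈ ball z₀ r := mem_ball_self hr
  -- inverse branches
  have hbranch : ∀ n, ∃ g : ℂ → ℂ, DifferentiableOn ℂ g (ball z₀ r) ∧ g z₀ = z₀ ∧
      (∀ z ∈ ball z₀ r, f^[n] (g z) = z) ∧ μ ^ n * deriv g z₀ = 1 := by
    intro n
    induction n with
    | zero => exact ⟨id, differentiableOn_id, rfl, fun z _ => rfl, by simp⟩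
    | succ n ih =>
      obtain ⟨g, hgd, hg0, hgf, hgder⟩ := ih
      set h : ℂ → ℂ := fun z => g z - c with hh
      have hhd : DifferentiableOn ℂ h (ball z₀ r) := hgd.sub (differentiableOn_const _)
      have hhne : ∀ z ∈ ball z₀ r, h z ≠ 0 := by
        intro z hz h0
        have h1 : g z = c := sub_eq_zero.mp h0
        have h2 := hgf z hz
        rw [h1] at h2
        apply havoid n
        rw [h2]
        exact hz
      obtain ⟨l, hld, hle, -⟩ := exists_log_ball hhd hhne z₀ hz0b
      have hh0 : h z₀ = z₀ ^ d := by simp [hh, hg0, hc]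
      set G : ℂ → ℂ := fun z => z₀ * cexp ((l z - l z₀) / d) with hG
      have hGd : DifferentiableOn ℂ G (ball z₀ r) := by
        have := ((hld.sub (differentiableOn_const (l z₀))).div_const (d : ℂ)).cexp
        exact this.const_mul z₀
      have hG0 : G z₀ = z₀ := by simp [hG]
      have hdC : (d : ℂ) ≠ 0 := by exact_mod_cast hd0
      have hGpow : ∀ z ∈ ball z₀ r, G z ^ d = h z := by
        intro z hz
        simp only [hG]
        rw [mul_pow, ← Complex.exp_nat_mul, mul_div_cancel₀ _ hdC, Complex.exp_sub, hle z hz,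
          hle z₀ hz0b, hh0]
        have : z₀ ^ d ≠ 0 := pow_ne_zero _ hz0
        field_simp
      have hfG : ∀ z ∈ ball z₀ r, f (G z) = g z := by
        intro z hz
        simp only [hf]
        rw [hGpow z hz]
        simp [hh]
      refine ⟨G, hGd, hG0, ?_, ?_⟩
      · intro z hz
        rw [Function.iterate_succ_apply, hfG z hz]
        exact hgf z hz
      · have h1 : HasDerivAt G (deriv G z₀) z₀ :=
          (hGd.differentiableAt (ball_mem_nhds z₀ hr)).hasDerivAt
        have h2 : HasDerivAt (fun z => f (G z)) (μ * deriv G z₀) z₀ := by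
          have h3 : HasDerivAt f μ (G z₀) := by rw [hG0]; exact hfd
          exact h3.comp z₀ h1
        have h3 : (fun z => f (G z)) =ᶠ[𝓝 z₀] g := by
          filter_upwards [ball_mem_nhds z₀ hr] with z hz using hfG z hz
        have h4 : deriv g z₀ = μ * deriv G z₀ := (h2.congr_of_eventuallyEq h3.symm).deriv
        rw [h4] at hgder
        rw [pow_succ]
        linear_combination hgder
  -- bound for the branches
  set R : ℝ := 2 + ‖c‖ + ‖z₀‖ + r with hR
  have hbound : ∀ n, ∀ g : ℂ → ℂ, (∀ z ∈ ball z₀ r, f^[n] (g z) = z) →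
      ∀ z ∈ ball z₀ r, ‖g z‖ ≤ R := by
    intro n g hg z hz
    by_contra hlt
    push Not at hlt
    have h1 := escape_norm hd (R := R) (c := c) (by
      have := norm_nonneg c
      have := norm_nonneg z₀
      linarith) (by
      have := norm_nonneg z₀
      linarith) hlt.le n
    have h2 : (fun z => z ^ d + c)^[n] (g z) = z := hg z hz
    rw [h2] at h1
    have h3 : ‖z‖ < ‖z₀‖ + r := by
      have h4 : ‖z‖ ≤ ‖z - z₀‖ + ‖z₀‖ := by
        have := norm_add_le (z - z₀) z₀
        rwa [sub_add_cancel] at this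
      have h5 := mem_ball_iff_norm.mp hz
      linarith
    have := norm_nonneg c
    linarith
  -- Cauchy estimate
  obtain ⟨n, hn⟩ : ∃ n : ℕ, R / (r / 2) < (1 / ‖μ‖) ^ n := by
    have h1 : 1 < 1 / ‖μ‖ := by
      rw [lt_div_iff₀ (norm_pos_iff.mpr hμ0), one_mul]
      exact hμ1
    exact pow_unbounded_of_one_lt _ h1
  obtain ⟨g, hgd, hg0, hgf, hgder⟩ := hbranch n
  have h1 := Complex.norm_deriv_le_of_forall_mem_sphere_norm_le (c := z₀) (R := r / 2) (C := R)
    (f := g) (by linarith) (by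
      apply DifferentiableOn.diffContOnCl
      rw [closure_ball _ (by linarith)]
      exact hgd.mono (closedBall_subset_ball (by linarith)))
    (fun z hz => hbound n g hgf z (by
      rw [mem_sphere] at hz
      rw [mem_ball, hz]
      linarith))
  have h2 : ‖deriv g z₀‖ = (1 / ‖μ‖) ^ n := by
    have h3 : ‖μ‖ ^ n * ‖deriv g z₀‖ = 1 := by
      rw [← norm_pow, ← norm_mul, hgder, norm_one]
    have h4 : ‖μ‖ ^ n ≠ 0 := pow_ne_zero _ (norm_pos_iff.mpr hμ0).ne'
    rw [div_pow, one_pow, eq_div_iff h4, mul_comm]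
    exact h3
  rw [h2] at h1
  linarith

end Run7.h275.EJ
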