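import Mathlib
import Pool.Agent.H713R2.Area
import Pool.Agent.Run7.h275.EJ6
import Pool.Agent.Run7.h275.EJ7

set_option autoImplicit false

open Complex Topology Filter Metric MeasureTheory Set N62a1eb23

namespace Run7.h275.EJ

open Pool.Agent.H713R2 Pool.Agent.H712R2

/-- Bessel's inequality on the unit disc. -/
theorem area_lower {F : ℂ → ℂ} (hF : DifferentiableOn ℂ F (ball 0 1)) (K : ℕ) :
    ENNReal.ofReal (Real.pi * ∑ k ∈ Finset.range K, ‖tc F k‖ ^ 2 / ((k : ℝ) + 1)) ≤
      ∫⁻ z in ball (0 : ℂ) 1, ENNReal.ofReal (‖F z‖ ^ 2) := by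
  have hpi := Real.pi_pos
  set A : Set ℂ := ball (0 : ℂ) 1 with hA
  have hAm : MeasurableSet A := isOpen_ball.measurableSet
  rw [← lintegral_indicator hAm, ← Complex.lintegral_comp_polarCoord_symm]
  set S : Set (ℝ × ℝ) := Ioo (0 : ℝ) 1 ×ˢ Ioo (-Real.pi) Real.pi with hS
  have hSm : MeasurableSet S := measurableSet_Ioo.prod measurableSet_Ioo
  have hST : S ⊆ polarCoord.target := by
    rw [polarCoord_target]
    apply prod_mono _ subset_rfl
    intro r hr
    exact hr.1
  have hmem : ∀ q ∈ S, circleMap 0 q.1 q.2 ∈ A ∧ ‖circleMap 0 q.1 q.2‖ = q.1 := by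
    intro q hq
    have h3 : ‖circleMap 0 q.1 q.2‖ = q.1 := by
      rw [norm_circleMap_zero, abs_of_pos hq.1.1]
    refine ⟨?_, h3⟩
    rw [hA, mem_ball_zero_iff, h3]
    exact hq.1.2
  have h3 : ∫⁻ q in S, ENNReal.ofReal (q.1 * ‖F (circleMap 0 q.1 q.2)‖ ^ 2) ≤
      ∫⁻ p in polarCoord.target, ENNReal.ofReal p.1 •
        A.indicator (fun z => ENNReal.ofReal (‖F z‖ ^ 2)) (Complex.polarCoord.symm p) := by
    refine le_trans ?_ (lintegral_mono_set hST)
    apply setLIntegral_mono_ae' hSm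
    refine Filter.Eventually.of_forall fun q hq => ?_
    obtain ⟨h4, h5⟩ := hmem q hq
    have hq0 : 0 < q.1 := hq.1.1
    rw [polar_eq_circleMap, indicator_of_mem h4, smul_eq_mul, ← ENNReal.ofReal_mul hq0.le]
  refine le_trans ?_ h3
  -- Tonelli
  have hcont : ContinuousOn (fun q : ℝ × ℝ => q.1 * ‖F (circleMap 0 q.1 q.2)‖ ^ 2) S := by
    apply ContinuousOn.mul continuousOn_fst
    apply ContinuousOn.pow
    apply ContinuousOn.norm
    apply hF.continuousOn.comp
    · apply Continuous.continuousOn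
      unfold circleMap
      fun_prop
    · intro q hq
      exact (hmem q hq).1
  have hae : AEMeasurable (fun q : ℝ × ℝ => ENNReal.ofReal (q.1 * ‖F (circleMap 0 q.1 q.2)‖ ^ 2))
      (((volume : Measure ℝ).prod (volume : Measure ℝ)).restrict S) :=
    (hcont.aemeasurable hSm).ennreal_ofReal
  rw [Measure.volume_eq_prod, hS, setLIntegral_prod _ hae]
  have h4 : ∫⁻ r in Ioo (0 : ℝ) 1,
      ENNReal.ofReal (2 * Real.pi * ∑ k ∈ Finset.range K, ‖tc F k‖ ^ 2 * r ^ (2 * k + 1)) ≤
      ∫⁻ r in Ioo (0 : ℝ) 1, ∫⁻ θ in Ioo (-Real.pi) Real.pi,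
        ENNReal.ofReal (r * ‖F (circleMap 0 r θ)‖ ^ 2) := by
    apply setLIntegral_mono_ae' measurableSet_Ioo
    refine Filter.Eventually.of_forall fun r hr => ?_
    have hr0 : 0 < r := hr.1
    have hc2 : Continuous (fun θ : ℝ => r * ‖F (circleMap 0 r θ)‖ ^ 2) := by
      apply continuous_const.mul
      apply Continuous.pow
      apply Continuous.norm
      apply hF.continuousOn.comp_continuous (continuous_circleMap 0 r)
      intro θ
      rw [mem_ball_zero_iff, norm_circleMap_zero, abs_of_pos hr0]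
      exact hr.2
    have h5 : ∫⁻ θ in Ioo (-Real.pi) Real.pi, ENNReal.ofReal (r * ‖F (circleMap 0 r θ)‖ ^ 2) =
        ENNReal.ofReal (∫ θ in (-Real.pi)..Real.pi, r * ‖F (circleMap 0 r θ)‖ ^ 2) := by
      rw [restrict_Ioo_eq_restrict_Ioc, intervalIntegral.integral_of_le (by linarith)]
      rw [ofReal_integral_eq_lintegral_ofReal]
      · exact (hc2.intervalIntegrable _ _).1
      · exact Filter.Eventually.of_forall fun θ => by positivity
    rw [h5]
    apply ENNReal.ofReal_le_ofReal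
    rw [intervalIntegral.integral_const_mul]
    have h6 := bessel hF hr0 hr.2 K
    calc 2 * Real.pi * ∑ k ∈ Finset.range K, ‖tc F k‖ ^ 2 * r ^ (2 * k + 1)
        = r * (2 * Real.pi * ∑ k ∈ Finset.range K, ‖tc F k‖ ^ 2 * r ^ (2 * k)) := by
          rw [Finset.mul_sum, Finset.mul_sum, Finset.mul_sum]
          apply Finset.sum_congr rfl
          intro k _
          ring
      _ ≤ _ := mul_le_mul_of_nonneg_left h6 hr0.le
  refine le_trans (le_of_eq ?_) h4
  have h5 : ∫⁻ r in Ioo (0 : ℝ) 1,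
      ENNReal.ofReal (2 * Real.pi * ∑ k ∈ Finset.range K, ‖tc F k‖ ^ 2 * r ^ (2 * k + 1)) =
      ENNReal.ofReal (∫ r in (0 : ℝ)..1,
        2 * Real.pi * ∑ k ∈ Finset.range K, ‖tc F k‖ ^ 2 * r ^ (2 * k + 1)) := by
    rw [restrict_Ioo_eq_restrict_Ioc, intervalIntegral.integral_of_le (by norm_num)]
    rw [ofReal_integral_eq_lintegral_ofReal]
    · have hc3 : Continuous (fun r : ℝ =>
        2 * Real.pi * ∑ k ∈ Finset.range K, ‖tc F k‖ ^ 2 * r ^ (2 * k + 1)) := by fun_prop
      exact (hc3.intervalIntegrable _ _).1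
    · rw [Filter.EventuallyLE, ae_restrict_iff' measurableSet_Ioc]
      refine Filter.Eventually.of_forall fun r hr => ?_
      have hr0 : 0 < r := hr.1
      simp only [Pi.zero_apply]
      positivity
  rw [h5]
  congr 1
  rw [intervalIntegral.integral_const_mul, intervalIntegral.integral_finsetSum]
  · rw [mul_comm 2 Real.pi, mul_assoc]
    congr 1
    rw [Finset.mul_sum]
    apply Finset.sum_congr rfl
    intro k _
    rw [intervalIntegral.integral_const_mul, integral_pow, one_pow, zero_pow (by omega), sub_zero]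
    push_cast
    field_simp
    ring
  · intro k _
    exact (by fun_prop : Continuous fun r : ℝ => ‖tc F k‖ ^ 2 * r ^ (2 * k + 1)).intervalIntegrable
      _ _

theorem tc_pow (m k : ℕ) : tc (fun x : ℂ => x ^ m) k = if k = m then 1 else 0 := by
  have h := tc_unique (a := fun k => if k = m then (1 : ℂ) else 0) (F := fun x : ℂ => x ^ m)
    one_pos (differentiableOn_pow m) ?_
  · rw [← h]
  · refine Eventually.of_forall fun x => ?_
    have h1 : (fun k => (if k = m then (1 : ℂ) else 0) * x ^ k) =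
        fun k => if k = m then x ^ m else 0 := by
      funext k
      split_ifs with hk
      · rw [hk, one_mul]
      · rw [zero_mul]
    rw [h1]
    exact hasSum_ite_eq m (x ^ m)

theorem tc_scale {F : ℂ → ℂ} (hF : DifferentiableOn ℂ F (ball 0 1)) {r : ℝ} (hr : 0 < r)
    (hr1 : r ≤ 1) (k : ℕ) : tc (fun z => F (r * z)) k = r ^ k * tc F k := by
  have hmap : ∀ z ∈ ball (0 : ℂ) 1, (r : ℂ) * z ∈ ball (0 : ℂ) 1 := by
    intro z hz
    rw [mem_ball_zero_iff] at hz ⊢
    rw [norm_mul, Complex.norm_real, Real.norm_eq_abs, abs_of_pos hr]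
    calc r * ‖z‖ ≤ 1 * ‖z‖ := mul_le_mul_of_nonneg_right hr1 (norm_nonneg _)
      _ < 1 := by rw [one_mul]; exact hz
  have hd : DifferentiableOn ℂ (fun z => F (r * z)) (ball 0 1) :=
    hF.comp (by fun_prop) hmap
  have h := tc_unique (a := fun k => (r : ℂ) ^ k * tc F k) (F := fun z => F (r * z)) one_pos hd ?_
  · rw [← h]
  · filter_upwards [ball_mem_nhds (0 : ℂ) one_pos] with z hz
    have h1 := hasSum_tc hF (hmap z hz)
    have h2 : (fun k => (r : ℂ) ^ k * tc F k * z ^ k) = fun k => tc F k * (r * z) ^ k := by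
      funext k
      rw [mul_pow]
      ring
    rw [h2]
    exact h1

/-- The critical orbit along the main component. -/
theorem orbit_main {d : ℕ} (hd : 2 ≤ d) (n : ℕ) : ∃ q : ℂ → ℂ, Differentiable ℂ q ∧
    ∀ y : ℂ, P d (n + 2) (y - y ^ d) = y + y ^ (2 * d - 1) * q y := by
  obtain ⟨e, rfl⟩ := Nat.exists_eq_add_of_le' (show 1 ≤ d by omega)
  induction n with
  | zero =>
    refine ⟨fun y => -∑ i ∈ Finset.range (e + 1), (1 - y ^ e) ^ i, by fun_prop, fun y => ?_⟩
    have h1 := geom_sum_mul (1 - y ^ e) (e + 1)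
    rw [zero_add, show (2 : ℕ) = 1 + 1 by norm_num, P_succ, P_one hd]
    have h2 : y - y ^ (e + 1) = y * (1 - y ^ e) := by ring
    have h3 : (1 + 1) * (e + 1) - 1 = (e + 1) + e := by omega
    rw [h3, h2, mul_pow]
    have h4 : (1 - y ^ e) ^ (e + 1) = 1 + (∑ i ∈ Finset.range (e + 1), (1 - y ^ e) ^ i) *
        (1 - y ^ e - 1) := by rw [h1]; ring
    rw [h4]
    ring
  | succ n ih =>
    obtain ⟨q, hq, hP⟩ := ih
    refine ⟨fun y => y ^ e * q y * ∑ i ∈ Finset.range (e + 1), (1 + y ^ (2 * e) * q y) ^ i,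
      by fun_prop, fun y => ?_⟩
    have h1 := geom_sum_mul (1 + y ^ (2 * e) * q y) (e + 1)
    rw [show n + 1 + 2 = (n + 2) + 1 by ring, P_succ, hP]
    have h3 : 2 * (e + 1) - 1 = 2 * e + 1 := by omega
    rw [h3]
    have h5 : y + y ^ (2 * e + 1) * q y = y * (1 + y ^ (2 * e) * q y) := by ring
    rw [h5, mul_pow]
    have h4 : (1 + y ^ (2 * e) * q y) ^ (e + 1) = 1 + (∑ i ∈ Finset.range (e + 1),
        (1 + y ^ (2 * e) * q y) ^ i) * (1 + y ^ (2 * e) * q y - 1) := by rw [h1]; ring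
    rw [h4]
    ring

theorem tc_main {d : ℕ} (hd : 2 ≤ d) (n a : ℕ) :
    tc (fun y => P d (n + 2) (y - y ^ d) ^ a * (1 - d * y ^ (d - 1))) a = 1 ∧
    tc (fun y => P d (n + 2) (y - y ^ d) ^ a * (1 - d * y ^ (d - 1))) (a + (d - 1)) = -d := by
  obtain ⟨q, hq, hP⟩ := orbit_main hd n
  obtain ⟨e, rfl⟩ := Nat.exists_eq_add_of_le' (show 1 ≤ d by omega)
  have he : 1 ≤ e := by omega
  set sg : ℂ → ℂ := fun y => ∑ i ∈ Finset.range a, (1 + y ^ (2 * e) * q y) ^ i with hsg
  set Rm : ℂ → ℂ := fun y => y ^ (a + 2 * e) * (q y * sg y * (1 - ((e + 1 : ℕ) : ℂ) * y ^ e)) with hRm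
  have hsgd : Differentiable ℂ sg := by
    simp only [hsg]
    fun_prop
  have hRd : Differentiable ℂ Rm := by
    simp only [hRm]
    fun_prop
  have hfun : (fun y => P (e + 1) (n + 2) (y - y ^ (e + 1)) ^ a *
      (1 - ((e + 1 : ℕ) : ℂ) * y ^ (e + 1 - 1))) =
      fun y => (y ^ a - ((e + 1 : ℕ) : ℂ) * y ^ (a + e)) + Rm y := by
    funext y
    rw [hP]
    have h1 := geom_sum_mul (1 + y ^ (2 * e) * q y) a
    have h3 : 2 * (e + 1) - 1 = 2 * e + 1 := by omega
    rw [h3]
    have h5 : y + y ^ (2 * e + 1) * q y = y * (1 + y ^ (2 * e) * q y) := by ring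
    rw [h5, mul_pow]
    have h4 : (1 + y ^ (2 * e) * q y) ^ a = 1 + sg y * (1 + y ^ (2 * e) * q y - 1) := by
      rw [hsg, h1]; ring
    rw [h4, Nat.add_sub_cancel]
    simp only [hRm]
    ring
  rw [hfun]
  have hR0 : ∀ k, k < a + 2 * e → tc Rm k = 0 := by
    intro k hk
    obtain ⟨C, hC⟩ : ∃ C, ∀ x ∈ closedBall (0 : ℂ) (1 / 2),
        ‖q x * sg x * (1 - ((e + 1 : ℕ) : ℂ) * x ^ e)‖ ≤ C :=
      (isCompact_closedBall (0 : ℂ) (1 / 2)).exists_bound_of_continuousOn (by
        apply Continuous.continuousOn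
        have h1 := hq.continuous
        have h2 := hsgd.continuous
        fun_prop)
    apply tc_eq_zero_of_order (r := 1 / 2) (C := C) (by norm_num) hk hRd.differentiableOn
    intro x hx
    simp only [hRm]
    rw [norm_mul, norm_pow, mul_comm]
    exact mul_le_mul_of_nonneg_right (hC x (ball_subset_closedBall hx)) (by positivity)
  have h1d : DifferentiableOn ℂ (fun y : ℂ => y ^ a) (ball 0 1) := differentiableOn_pow a
  have h2d : DifferentiableOn ℂ (fun y : ℂ => y ^ (a + e)) (ball 0 1) := differentiableOn_pow _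
  have h3d : DifferentiableOn ℂ (fun y : ℂ => ((e + 1 : ℕ) : ℂ) * y ^ (a + e)) (ball 0 1) :=
    h2d.const_mul _
  have htc : ∀ k, tc (fun y => (y ^ a - ((e + 1 : ℕ) : ℂ) * y ^ (a + e)) + Rm y) k =
      ((if k = a then 1 else 0) - ((e + 1 : ℕ) : ℂ) * (if k = a + e then 1 else 0)) + tc Rm k := by
    intro k
    have h1 := tc_add one_pos (h1d.sub h3d) hRd.differentiableOn k
    have h2 := tc_sub one_pos h1d h3d k
    have h3 := tc_const_mul h2d ((e + 1 : ℕ) : ℂ) k
    rw [tc_pow] at h3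
    rw [h3, tc_pow] at h2
    rw [← h2]
    exact h1
  constructor
  · rw [htc, hR0 a (by omega), if_pos rfl, if_neg (by omega)]
    ring
  · rw [Nat.add_sub_cancel, htc, hR0 (a + e) (by omega), if_neg (by omega), if_pos rfl]
    push_cast
    ring

end Run7.h275.EJ
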