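import Mathlib
import Pool.Agent.Run7.h275.EJ8

set_option autoImplicit false

open Complex Topology Filter Metric MeasureTheory Set N62a1eb23

namespace Run7.h275.EJ

open Pool.Agent.H713R2 Pool.Agent.H712R2

theorem main_inj {d : ℕ} (hd : 2 ≤ d) {r : ℝ} (hr : 0 < r) (hdr : (d : ℝ) * r ^ (d - 1) = 1)
    {u v : ℂ} (hu : ‖u‖ < r) (hv : ‖v‖ < r) (h : u - u ^ d = v - v ^ d) : u = v := by
  by_contra hne
  have h1 := geom_sum₂_mul u v d
  have h2 : (∑ i ∈ Finset.range d, u ^ i * v ^ (d - 1 - i)) * (u - v) = u - v := by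
    rw [h1]
    linear_combination -h
  have h3 : (∑ i ∈ Finset.range d, u ^ i * v ^ (d - 1 - i)) = 1 :=
    mul_right_cancel₀ (sub_ne_zero.mpr hne) (by rw [h2, one_mul])
  set s : ℝ := max ‖u‖ ‖v‖ with hs
  have hs0 : 0 ≤ s := (norm_nonneg u).trans (le_max_left _ _)
  have hsr : s < r := max_lt hu hv
  have h4 : ‖∑ i ∈ Finset.range d, u ^ i * v ^ (d - 1 - i)‖ ≤ d * s ^ (d - 1) := by
    calc ‖∑ i ∈ Finset.range d, u ^ i * v ^ (d - 1 - i)‖
        ≤ ∑ i ∈ Finset.range d, ‖u ^ i * v ^ (d - 1 - i)‖ := norm_sum_le _ _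
      _ ≤ ∑ _i ∈ Finset.range d, s ^ (d - 1) := by
          apply Finset.sum_le_sum
          intro i hi
          have hi' := Finset.mem_range.mp hi
          rw [norm_mul, norm_pow, norm_pow]
          calc ‖u‖ ^ i * ‖v‖ ^ (d - 1 - i) ≤ s ^ i * s ^ (d - 1 - i) :=
                mul_le_mul (pow_le_pow_left₀ (norm_nonneg _) (le_max_left _ _) _)
                  (pow_le_pow_left₀ (norm_nonneg _) (le_max_right _ _) _) (by positivity)
                  (by positivity)
            _ = s ^ (d - 1) := by rw [← pow_add]; congr 1; omega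
      _ = d * s ^ (d - 1) := by rw [Finset.sum_const, Finset.card_range, nsmul_eq_mul]
  rw [h3, norm_one] at h4
  have h5 : s ^ (d - 1) < r ^ (d - 1) := pow_lt_pow_left₀ hsr hs0 (by omega)
  have h6 : (0 : ℝ) < d := by exact_mod_cast (by omega : 0 < d)
  have h7 : (d : ℝ) * s ^ (d - 1) < d * r ^ (d - 1) := mul_lt_mul_of_pos_left h5 h6
  linarith

theorem lint_lower {d : ℕ} (hd : 2 ≤ d) {r : ℝ} (hr : 0 < r) (hdr : (d : ℝ) * r ^ (d - 1) = 1)
    (n a : ℕ) :
    ENNReal.ofReal (Real.pi * (r ^ (2 * (a + 1)) * (1 / ((a : ℝ) + 1) + 1 / ((a : ℝ) + d)))) ≤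
      ∫⁻ c in multibrotSet d, ENNReal.ofReal (‖P d (n + 2) c‖ ^ (2 * a)) := by
  have hpi := Real.pi_pos
  have hd0 : (0 : ℝ) < d := by exact_mod_cast (by omega : 0 < d)
  have hd1 : (1 : ℝ) ≤ d := by exact_mod_cast (by omega : 1 ≤ d)
  have hr1 : r ≤ 1 := by
    by_contra hlt
    push Not at hlt
    have h1 : 1 < r ^ (d - 1) := one_lt_pow₀ hlt (by omega)
    nlinarith
  set H : ℂ → ℂ := fun z => (r : ℂ) * z - ((r : ℂ) * z) ^ d with hH
  set H' : ℂ → ℂ := fun z => (r : ℂ) * (1 - d * ((r : ℂ) * z) ^ (d - 1)) with hH'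
  set F : ℂ → ℂ := fun y => P d (n + 2) (y - y ^ d) ^ a * (1 - d * y ^ (d - 1)) with hF
  have hFd : Differentiable ℂ F := by
    have h1 := differentiable_P d (n + 2)
    simp only [hF]
    fun_prop
  set G : ℂ → ℂ := fun z => (r : ℂ) * F (r * z) with hG
  have hGd : Differentiable ℂ G := by
    simp only [hG]
    fun_prop
  have hGeq : ∀ z, G z = P d (n + 2) (H z) ^ a * H' z := by
    intro z
    simp only [hG, hF, hH, hH']
    ring
  have hHd : ∀ z, HasDerivAt H (H' z) z := by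
    intro z
    have h1 : HasDerivAt (fun z : ℂ => (r : ℂ) * z) ((r : ℂ) * 1) z := (hasDerivAt_id z).const_mul _
    have h2 := h1.sub (h1.pow d)
    refine h2.congr_deriv ?_
    simp only [hH']
    ring
  have hmem : ∀ z ∈ ball (0 : ℂ) 1, ‖(r : ℂ) * z‖ < r := by
    intro z hz
    rw [norm_mul, Complex.norm_real, Real.norm_eq_abs, abs_of_pos hr]
    have := mem_ball_zero_iff.mp hz
    nlinarith
  have hinj : InjOn H (ball (0 : ℂ) 1) := by
    intro z hz w hw h
    have h1 := main_inj hd hr hdr (hmem z hz) (hmem w hw) h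
    exact mul_left_cancel₀ (by exact_mod_cast hr.ne') h1
  have hsub : H '' ball (0 : ℂ) 1 ⊆ multibrotSet d := by
    rintro _ ⟨z, hz, rfl⟩
    apply mem_of_fixed hd
    have h1 := hmem z hz
    have h2 : ‖(r : ℂ) * z‖ ^ (d - 1) < r ^ (d - 1) := pow_lt_pow_left₀ h1 (norm_nonneg _) (by omega)
    calc (d : ℝ) * ‖(r : ℂ) * z‖ ^ (d - 1) < d * r ^ (d - 1) := mul_lt_mul_of_pos_left h2 hd0
      _ = 1 := hdr
  have hcv := lintegral_image_eq_lintegral_abs_det_fderiv_mul (volume : Measure ℂ)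
    (s := ball (0 : ℂ) 1) isOpen_ball.measurableSet
    (f := H) (f' := fun x => (ContinuousLinearMap.toSpanSingleton ℂ (H' x)).restrictScalars ℝ)
    (fun x _ => ((hHd x).hasFDerivAt.restrictScalars ℝ).hasFDerivWithinAt) hinj
    (fun c => ENNReal.ofReal (‖P d (n + 2) c‖ ^ (2 * a)))
  have h1 : ∫⁻ z in ball (0 : ℂ) 1, ENNReal.ofReal (‖G z‖ ^ 2) ≤
      ∫⁻ c in multibrotSet d, ENNReal.ofReal (‖P d (n + 2) c‖ ^ (2 * a)) := by
    refine le_trans (le_of_eq ?_) (lintegral_mono_set hsub)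
    rw [hcv]
    apply lintegral_congr
    intro z
    rw [det_mul_real, abs_of_nonneg (by positivity), ← ENNReal.ofReal_mul (by positivity), hGeq,
      norm_mul, norm_pow]
    congr 1
    ring
  refine le_trans ?_ h1
  refine le_trans ?_ (area_lower hGd.differentiableOn (a + d))
  apply ENNReal.ofReal_le_ofReal
  apply mul_le_mul_of_nonneg_left _ hpi.le
  obtain ⟨t1, t2⟩ := tc_main hd n a
  have hFd1 : DifferentiableOn ℂ F (ball 0 1) := hFd.differentiableOn
  have htc : ∀ k, tc G k = r * (r ^ k * tc F k) := by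
    intro k
    have h2 : DifferentiableOn ℂ (fun z : ℂ => F (r * z)) (ball 0 1) := by
      apply Differentiable.differentiableOn
      fun_prop
    have h3 := tc_const_mul h2 (r : ℂ) k
    rw [tc_scale hFd1 hr hr1] at h3
    exact h3
  have hg1 : ‖tc G a‖ ^ 2 / ((a : ℝ) + 1) = r ^ (2 * (a + 1)) * (1 / ((a : ℝ) + 1)) := by
    rw [htc, t1, mul_one, norm_mul, norm_pow, Complex.norm_real, Real.norm_eq_abs, abs_of_pos hr]
    ring
  have hg2 : ‖tc G (a + (d - 1))‖ ^ 2 / (((a + (d - 1) : ℕ) : ℝ) + 1) =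
      r ^ (2 * (a + 1)) * (1 / ((a : ℝ) + d)) := by
    rw [htc, t2, norm_mul, norm_mul, norm_pow, Complex.norm_real, Real.norm_eq_abs, abs_of_pos hr,
      norm_neg, Complex.norm_natCast]
    have h3 : (((a + (d - 1) : ℕ) : ℝ) + 1) = (a : ℝ) + d := by
      rw [Nat.cast_add, Nat.cast_sub (by omega)]
      push_cast
      ring
    rw [h3]
    have h4 : (r * (r ^ (a + (d - 1)) * (d : ℝ))) ^ 2 =
        r ^ (2 * (a + 1)) * ((d : ℝ) * r ^ (d - 1)) ^ 2 := by
      rw [pow_add]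
      ring
    rw [h4, hdr]
    ring
  have hsum : ‖tc G a‖ ^ 2 / ((a : ℝ) + 1) +
      ‖tc G (a + (d - 1))‖ ^ 2 / (((a + (d - 1) : ℕ) : ℝ) + 1) ≤
      ∑ k ∈ Finset.range (a + d), ‖tc G k‖ ^ 2 / ((k : ℝ) + 1) := by
    have h5 := Finset.sum_le_sum_of_subset_of_nonneg (s := {a, a + (d - 1)})
      (t := Finset.range (a + d)) (f := fun k : ℕ => ‖tc G k‖ ^ 2 / ((k : ℝ) + 1)) (by
        intro k hk
        rw [Finset.mem_insert, Finset.mem_singleton] at hk
        rw [Finset.mem_range]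
        omega) (fun k _ _ => by positivity)
    rw [Finset.sum_pair (by omega)] at h5
    exact h5
  rw [hg1, hg2] at hsum
  refine le_trans (le_of_eq ?_) hsum
  ring

/-- The lower bound for the mean square of the critical orbit. -/
theorem II_lower {d : ℕ} (hd : 2 ≤ d) {r : ℝ} (hr : 0 < r) (hdr : (d : ℝ) * r ^ (d - 1) = 1)
    {n : ℕ} (hn : 1 ≤ n) (a : ℕ) :
    r ^ (2 * (a + 1)) * (1 / ((a : ℝ) + 1) + 1 / ((a : ℝ) + d)) ≤ II d Polynomial.X a n := by
  have hpi := Real.pi_pos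
  obtain ⟨m, rfl⟩ := Nat.exists_eq_add_of_le' hn
  have h1 := lint_lower hd hr hdr m a
  unfold II
  simp only [Polynomial.derivative_X, Polynomial.eval_one, norm_one, one_pow, mul_one]
  have hint : IntegrableOn (fun c => ‖P d (m + 1 + 1) c‖ ^ (2 * a)) (multibrotSet d) := by
    apply ContinuousOn.integrableOn_compact (isCompact_multibrot hd)
    exact ((continuous_P d _).norm.pow _).continuousOn
  rw [← ofReal_integral_eq_lintegral_ofReal hint (Eventually.of_forall fun c => by positivity),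
    ENNReal.ofReal_le_ofReal_iff (integral_nonneg fun c => by positivity)] at h1
  rw [one_div_mul_eq_div, le_div_iff₀ hpi, mul_comm _ Real.pi]
  exact h1

end Run7.h275.EJ
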