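import Mathlib
import Pool.Agent.H713R2.Main3
import Pool.Agent.Run7.h275.EJ9

set_option autoImplicit false

open Complex Topology Filter Metric MeasureTheory Set N62a1eb23

namespace Run7.h275.EJ

open Pool.Agent.H713R2 Pool.Agent.H713R2.AR Pool.Agent.H712R2

/-- The Laurent coefficients of `S ∘ ψ` are Taylor coefficients of `x ^ L S (x⁻¹ β x)`. -/
theorem coeff_bridge {β ψ : ℂ → ℂ} (hβ : DifferentiableOn ℂ β (ball 0 1))
    (hψ : ∀ z : ℂ, 1 < ‖z‖ → ψ z = z * β z⁻¹) {S R : Polynomial ℂ} {s : ℕ → ℂ}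
    (hs : ∀ z : ℂ, 1 < ‖z‖ → HasSum (fun m : ℕ => s m / z ^ m) (S.eval (ψ z) - R.eval z))
    {L : ℕ} (hSL : S.natDegree ≤ L) (hRL : R.natDegree ≤ L) {m : ℕ} (hm : 1 ≤ m) :
    tc (HQ β S L) (m + L) = s m := by
  have hHd := HQ_diff hβ S L
  have hFd : DifferentiableOn ℂ (fun x => x * HQ β S L x) (ball 0 1) := differentiableOn_id.mul hHd
  have h := tc_unique (a := fun k => (if k ≤ L + 1 ∧ 1 ≤ k then R.coeff (L + 1 - k) else 0) +
    (if k < L + 1 then 0 else s (k - (L + 1)))) (F := fun x => x * HQ β S L x) one_pos hFd ?_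
  · have h1 := congrFun h (m + L + 1)
    rw [tc_id_mul one_pos hHd] at h1
    rw [← h1]
    rw [if_neg (by omega), if_neg (by omega), zero_add]
    congr 1
    omega
  · filter_upwards [ball_mem_nhds (0 : ℂ) one_pos] with x hx
    by_cases hx0 : x = 0
    · subst hx0
      rw [zero_mul]
      convert! hasSum_zero using 2 with k
      rcases Nat.eq_zero_or_pos k with hk | hk
      · subst hk
        rw [if_neg (by omega), if_pos (by omega)]
        simp
      · rw [zero_pow (by omega), mul_zero]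
    · have hxz := one_lt_norm_inv hx hx0
      have h1 := (hs x⁻¹ hxz).mul_left (x ^ (L + 1))
      have hψx : ψ x⁻¹ = x⁻¹ * β x := by rw [hψ _ hxz, inv_inv]
      have h2 : HasSum (fun k : ℕ => (if k < L + 1 then 0 else s (k - (L + 1))) * x ^ k)
          (x ^ (L + 1) * (S.eval (ψ x⁻¹) - R.eval x⁻¹)) := by
        rw [← hasSum_nat_add_iff' (L + 1)]
        have e1 : ∑ i ∈ Finset.range (L + 1), (if i < L + 1 then 0 else s (i - (L + 1))) * x ^ i = 0 := by
          apply Finset.sum_eq_zero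
          intro i hi
          rw [if_pos (Finset.mem_range.mp hi), zero_mul]
        rw [e1, sub_zero]
        have e2 : (fun k : ℕ => (if k + (L + 1) < L + 1 then 0 else s (k + (L + 1) - (L + 1))) *
            x ^ (k + (L + 1))) = fun k => x ^ (L + 1) * (s k / x⁻¹ ^ k) := by
          funext k
          rw [if_neg (by omega), Nat.add_sub_cancel, inv_pow, div_inv_eq_mul, pow_add]
          ring
        rw [e2]
        exact h1
      have h3 : HasSum (fun k : ℕ => (if k ≤ L + 1 ∧ 1 ≤ k then R.coeff (L + 1 - k) else 0) * x ^ k)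
          (x ^ (L + 1) * R.eval x⁻¹) := by
        have e1 : x ^ (L + 1) * R.eval x⁻¹ = ∑ k ∈ Finset.range (L + 2),
            (if k ≤ L + 1 ∧ 1 ≤ k then R.coeff (L + 1 - k) else 0) * x ^ k := by
          rw [Finset.sum_range_succ', if_neg (by omega), zero_mul, add_zero,
            ← Finset.sum_range_reflect, Polynomial.eval_eq_sum_range' (Nat.lt_succ_of_le hRL),
            Finset.mul_sum]
          apply Finset.sum_congr rfl
          intro i hi
          have hi' := Finset.mem_range.mp hi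
          rw [if_pos (by omega), show L + 1 - (L + 1 - 1 - i + 1) = i by omega,
            show L + 1 - 1 - i + 1 = L + 1 - i by omega, inv_pow]
          have h5 : x ^ (L + 1) = x ^ (L + 1 - i) * x ^ i := by
            rw [← pow_add]; congr 1; omega
          rw [h5]
          have h6 : x ^ i ≠ 0 := pow_ne_zero _ hx0
          field_simp
        rw [e1]
        apply hasSum_sum_of_ne_finset_zero
        intro k hk
        rw [Finset.mem_range, not_lt] at hk
        rw [if_neg (by omega), zero_mul]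
      have h4 := h3.add h2
      have e3 : x ^ (L + 1) * R.eval x⁻¹ + x ^ (L + 1) * (S.eval (ψ x⁻¹) - R.eval x⁻¹) =
          x * HQ β S L x := by
        rw [HQ_eval β hSL hx0, hψx]
        ring
      rw [e3] at h4
      simpa only [add_mul] using h4

/-- The energy jump in terms of the Laurent coefficients of `S ∘ ψ`. -/
theorem energy_jump {d : ℕ} (hd : 2 ≤ d) {ψ : ℂ → ℂ} (hψ : IsExteriorMap (multibrotSet d) ψ)
    {S R : Polynomial ℂ} {s : ℕ → ℂ}
    (hs : ∀ z : ℂ, 1 < ‖z‖ → HasSum (fun m : ℕ => s m / z ^ m) (S.eval (ψ z) - R.eval z))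
    {a : ℕ} (ha : 1 ≤ a) (had : a < d) {δ : ℝ} (hδ : 0 < δ) (hδ1 : δ < 1) :
    Tendsto (fun n : ℕ => ∑ k ∈ Finset.Icc 1 ⌊δ * (d : ℝ) ^ n⌋₊,
      ((((a * d ^ n - k : ℕ) : ℝ) * ‖s (a * d ^ n - k)‖) ^ 2 -
        (((a * d ^ n + k : ℕ) : ℝ) * ‖s (a * d ^ n + k)‖) ^ 2) / (k : ℝ) - II d S a n)
      atTop (𝓝 0) := by
  obtain ⟨β, hβ⟩ := exists_beta hd
  set L : ℕ := max (max S.natDegree R.natDegree) 1 with hL
  have hSL : S.natDegree ≤ L := (le_max_left _ _).trans (le_max_left _ _)
  have hRL : R.natDegree ≤ L := (le_max_right _ _).trans (le_max_left _ _)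
  have hL1 : 1 ≤ L := le_max_right _ _
  have hv : ∀ m : ℕ, ‖tc (VV β S L) (m + L)‖ = (m : ℝ) * ‖s m‖ := by
    intro m
    rw [tc_VV hβ.diff, norm_mul]
    have h2 : ((m + L : ℕ) : ℂ) - L = ((m : ℝ) : ℂ) := by push_cast; ring
    rw [h2, Complex.norm_real, Real.norm_eq_abs, abs_of_nonneg (by positivity)]
    rcases Nat.eq_zero_or_pos m with hm | hm
    · subst hm
      simp
    · rw [coeff_bridge hβ.diff (fun z hz => exteriorMap_unique hβ hψ hz) hs hSL hRL hm]
  have h := main_limit hd hβ hSL hL1 ha had hδ hδ1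
  refine h.congr fun n => ?_
  congr 1
  have hfl : ⌊δ * (d : ℝ) ^ n⌋₊ ≤ a * d ^ n := by
    have h1 : δ * (d : ℝ) ^ n ≤ ((a * d ^ n : ℕ) : ℝ) := by
      push_cast
      apply mul_le_mul_of_nonneg_right _ (by positivity)
      have : (1 : ℝ) ≤ a := by exact_mod_cast ha
      linarith
    exact Nat.floor_le_of_le h1
  symm
  apply Finset.sum_bij (fun k _ => k - 1)
  · intro k hk
    have := Finset.mem_Icc.mp hk
    exact Finset.mem_range.mpr (by omega)
  · intro i hi j hj h
    have := Finset.mem_Icc.mp hi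
    have := Finset.mem_Icc.mp hj
    omega
  · intro i hi
    have := Finset.mem_range.mp hi
    exact ⟨i + 1, Finset.mem_Icc.mpr (by omega), by omega⟩
  · intro k hk
    have hk' := Finset.mem_Icc.mp hk
    have e1 : a * d ^ n + L - (k - 1 + 1) = (a * d ^ n - k) + L := by omega
    have e2 : a * d ^ n + L + (k - 1 + 1) = (a * d ^ n + k) + L := by omega
    have e3 : ((k - 1 : ℕ) : ℝ) + 1 = k := by
      rw [Nat.cast_sub hk'.1]
      push_cast
      ring
    rw [e1, e2, e3, hv, hv]

end Run7.h275.EJ
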