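import Pool.Agent.TH188.ARC.A19

/-!
# Quadratic transforms of projective models at closed points, over arbitrary noetherian bases

Variants of `step_core`, `step_LR`, `step_all_LR` of the starting files `Pool.Agent.TH188.ARC.A9`, `A16`
(helper188's team), without an element of the base ring of positive value.
-/

set_option autoImplicit false
set_option linter.unusedVariables false
set_option linter.unusedSectionVars false

namespace Pool.Agent.Run7.h275.AP

open IsLocalRing Pool.Agent.TH188.QS Pool.Agent.W418.LU2 Pool.Agent.H918R2.Quad Pool.Agent.TH188.ARC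

variable {O F : Type} [CommRing O] [Field F] [Algebra O F]

/-- The quadratic transform at the centre, with given generators. -/
theorem step_core' {V : ValuationSubring F}
    (hOV : ∀ o, algebraMap O F o ∈ V) {M : Submodule O F} {g : F} {ϖ : F}
    (hϖB : ϖ ∈ (chart O M g).toSubring) (hϖ0 : ϖ ≠ 0) (hϖ : V.valuation ϖ < 1)
    (hg : g ∈ M) (hg0 : g ≠ 0) (hMV : ∀ m ∈ M, m / g ∈ V)
    (s : Finset (chart O M g).toSubring)
    (hs' : ∀ b : (chart O M g).toSubring,
      b ∈ Ideal.span (s : Set (chart O M g).toSubring) ↔ V.valuation (b : F) < 1)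
    (k : ℕ) (hks : ∀ y ∈ s, (y : F) * g ^ k ∈ M ^ k) :
    ∃ g', g' ∈ cut V hOV (M ^ (k + 1)) (g ^ (k + 1)) ∧ g' ≠ 0 ∧
      (∀ m ∈ cut V hOV (M ^ (k + 1)) (g ^ (k + 1)), m / g' ∈ V) ∧
      (∃ e, Mi V.toSubring (lo V.toSubring (chart O M g).toSubring) e) ∧
      lo V.toSubring (chart O (cut V hOV (M ^ (k + 1)) (g ^ (k + 1))) g').toSubring =
        qt V.toSubring (lo V.toSubring (chart O M g).toSubring) := by
  classical
  have hBV : (chart O M g).toSubring ≤ V.toSubring := by
    let V' : Subalgebra O F := { V.toSubring with algebraMap_mem' := hOV }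
    have : chart O M g ≤ V' := Algebra.adjoin_le (by
      rintro _ ⟨m, hm, rfl⟩
      exact hMV m hm)
    exact this
  -- the centre
  let 𝔫 : Ideal (chart O M g).toSubring :=
    { carrier := {b | V.valuation (b : F) < 1}
      zero_mem' := by
        change V.valuation ((0 : (chart O M g).toSubring) : F) < 1
        rw [ZeroMemClass.coe_zero, map_zero]; exact zero_lt_one
      add_mem' := fun {a b} ha hb => by
        change V.valuation ((a + b : (chart O M g).toSubring) : F) < 1
        exact Valuation.map_add_lt _ ha hb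
      smul_mem' := fun c a ha => by
        change V.valuation ((c * a : (chart O M g).toSubring) : F) < 1
        rw [Subring.coe_mul, map_mul]
        exact mul_lt_one_aux ((V.valuation_le_one_iff _).2 (hBV c.2)) ha }
  have hs : Ideal.span (s : Set (chart O M g).toSubring) = 𝔫 := Ideal.ext hs'
  have hs𝔫 : ∀ y ∈ s, V.valuation (y : F) < 1 := fun y hy => by
    have : y ∈ 𝔫 := by rw [← hs]; exact Ideal.subset_span hy
    exact this
  -- a generator of least value
  obtain ⟨e, hes, hemin⟩ : ∃ e ∈ s, ∀ y ∈ s, V.valuation (y : F) ≤ V.valuation (e : F) := by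
    have hne : s.Nonempty := by
      by_contra h
      rw [Finset.not_nonempty_iff_eq_empty] at h
      have h1 : (⟨_, hϖB⟩ : (chart O M g).toSubring) ∈ 𝔫 := hϖ
      rw [← hs, h, Finset.coe_empty, Ideal.span_empty, Ideal.mem_bot] at h1
      exact hϖ0 (congrArg Subtype.val h1)
    exact Finset.exists_max_image s (fun y => V.valuation (y : F)) hne
  have hmin : ∀ b : (chart O M g).toSubring, b ∈ 𝔫 → V.valuation (b : F) ≤ V.valuation (e : F) := by
    intro b hb
    rw [← hs] at hb
    induction hb using Submodule.span_induction with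
    | mem y hy => exact hemin y hy
    | zero => rw [ZeroMemClass.coe_zero, map_zero]; exact zero_le
    | add a b _ _ ha hb =>
      rw [Subring.coe_add]
      exact (Valuation.map_add _ _ _).trans (max_le ha hb)
    | smul c a _ ha =>
      rw [smul_eq_mul, Subring.coe_mul, map_mul]
      exact mul_le_of_le_one_of_le ((V.valuation_le_one_iff _).2 (hBV c.2)) ha
  have he0 : (e : F) ≠ 0 := by
    intro h
    have h1 := hmin ⟨_, hϖB⟩ hϖ
    rw [h, map_zero] at h1
    have h2 : V.valuation ϖ = 0 := le_antisymm h1 zero_le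
    exact hϖ0 ((Valuation.zero_iff _).1 h2)
  have hdivV : ∀ b : (chart O M g).toSubring, b ∈ 𝔫 → (b : F) * (e : F)⁻¹ ∈ V := by
    intro b hb
    rw [← V.valuation_le_one_iff, map_mul, map_inv₀]
    exact mul_inv_le_one_of_le₀ (hmin b hb) zero_le
  have hks' : ∀ y ∈ s, (y : F) * g ^ (k + 1) ∈ M ^ (k + 1) := fun y hy => by
    have h1 : (y : F) * g ^ (k + 1) = (y : F) * g ^ k * g := by rw [pow_succ, mul_assoc]
    rw [h1, pow_succ M]
    exact Submodule.mul_mem_mul (hks y hy) hg
  have hgk : g ^ (k + 1) ≠ 0 := pow_ne_zero _ hg0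
  set M' : Submodule O F := cut V hOV (M ^ (k + 1)) (g ^ (k + 1)) with hM'
  have hM'le : M' ≤ M ^ (k + 1) := fun m hm => hm.1
  have hM'B : ∀ m ∈ M', ∃ b : (chart O M g).toSubring, b ∈ 𝔫 ∧ m = b * g ^ (k + 1) := by
    rintro m ⟨h1, h2⟩
    exact ⟨⟨m / g ^ (k + 1), pow_div_mem hg0 _ m h1⟩, h2, (div_mul_cancel₀ _ hgk).symm⟩
  have hBM' : ∀ b : (chart O M g).toSubring, b ∈ 𝔫 → (b : F) * g ^ (k + 1) ∈ M ^ (k + 1) → (b : F) * g ^ (k + 1) ∈ M' := by
    intro b hb hbm
    refine ⟨hbm, ?_⟩
    rw [mul_div_cancel_right₀ _ hgk]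
    exact hb
  have he𝔫 : e ∈ 𝔫 := hs𝔫 e hes
  have hg' : (e : F) * g ^ (k + 1) ∈ M' := hBM' e he𝔫 (hks' e hes)
  have hg'0 : (e : F) * g ^ (k + 1) ≠ 0 := mul_ne_zero he0 hgk
  have hM'V : ∀ m ∈ M', m / ((e : F) * g ^ (k + 1)) ∈ V := by
    intro m hm
    obtain ⟨b, hb, rfl⟩ := hM'B m hm
    rw [mul_div_mul_right _ _ hgk, div_eq_mul_inv]
    exact hdivV b hb
  set B' := (chart O M' ((e : F) * g ^ (k + 1))).toSubring with hB'
  have hB'V : B' ≤ V.toSubring := by
    let V' : Subalgebra O F := { V.toSubring with algebraMap_mem' := hOV }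
    have : chart O M' ((e : F) * g ^ (k + 1)) ≤ V' := Algebra.adjoin_le (by
      rintro _ ⟨m, hm, rfl⟩
      exact hM'V m hm)
    exact this
  have hOB' : ∀ o, algebraMap O F o ∈ B' := fun o =>
    Subalgebra.algebraMap_mem (chart O M' ((e : F) * g ^ (k + 1))) o
  have hmemB' : ∀ b : (chart O M g).toSubring, b ∈ 𝔫 → (b : F) * g ^ (k + 1) ∈ M ^ (k + 1) →
      (b : F) * (e : F)⁻¹ ∈ B' := by
    intro b hb hbm
    have h1 : (b : F) * (e : F)⁻¹ = ((b : F) * g ^ (k + 1)) / ((e : F) * g ^ (k + 1)) := by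
      rw [mul_div_mul_right _ _ hgk, div_eq_mul_inv]
    rw [h1]
    exact Algebra.subset_adjoin ⟨_, hBM' b hb hbm, rfl⟩
  have hBB' : (chart O M g).toSubring ≤ B' := by
    let B'' : Subalgebra O F := { B' with algebraMap_mem' := hOB' }
    have : chart O M g ≤ B'' := Algebra.adjoin_le (by
      rintro _ ⟨m, hm, rfl⟩
      have hwB : m / g ∈ (chart O M g).toSubring := Algebra.subset_adjoin ⟨m, hm, rfl⟩
      have h1 := hmemB' (⟨_, hwB⟩ * e) (𝔫.mul_mem_left _ he𝔫) (by
        have h2 : ((⟨_, hwB⟩ * e : (chart O M g).toSubring) : F) * g ^ (k + 1) = m * ((e : F) * g ^ k) := by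
          rw [Subring.coe_mul]
          change m / g * (e : F) * g ^ (k + 1) = _
          rw [pow_succ]
          field_simp
        rw [h2, pow_succ', ]
        exact Submodule.mul_mem_mul hm (hks e hes))
      have h3 : ((⟨_, hwB⟩ * e : (chart O M g).toSubring) : F) * (e : F)⁻¹ = m / g := by
        rw [Subring.coe_mul, mul_assoc, mul_inv_cancel₀ he0, mul_one]
      rw [h3] at h1
      exact h1)
    exact this
  have hdivB' : ∀ b : (chart O M g).toSubring, b ∈ 𝔫 → (b : F) * (e : F)⁻¹ ∈ B' := by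
    intro b hb
    rw [← hs] at hb
    induction hb using Submodule.span_induction with
    | mem y hy => exact hmemB' y (hs𝔫 y hy) (hks' y hy)
    | zero => rw [ZeroMemClass.coe_zero, zero_mul]; exact B'.zero_mem
    | add a b _ _ ha hb =>
      rw [Subring.coe_add, add_mul]
      exact B'.add_mem ha hb
    | smul c a _ ha =>
      rw [smul_eq_mul, Subring.coe_mul, mul_assoc]
      exact B'.mul_mem (hBB' c.2) ha
  have hnu : ∀ {x : F}, NU V.toSubring x ↔ V.valuation x < 1 := nu_iff
  have hQV : lo V.toSubring (chart O M g).toSubring ≤ V.toSubring := Pool.Agent.W418.LU2.lo_le hBV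
  have hQ𝔫 : ∀ y ∈ lo V.toSubring (chart O M g).toSubring, NU V.toSubring y →
      ∃ b : (chart O M g).toSubring, b ∈ 𝔫 ∧ ∃ c ∈ (chart O M g).toSubring, c ≠ 0 ∧ c⁻¹ ∈ V ∧ y = b * c⁻¹ := by
    rintro y ⟨a, ha, c, hc, hc0, hci, rfl⟩ hn
    refine ⟨⟨a, ha⟩, ?_, c, hc, hc0, hci, rfl⟩
    change V.valuation a < 1
    rw [hnu] at hn
    have h1 : a = a * c⁻¹ * c := by rw [mul_assoc, inv_mul_cancel₀ hc0, mul_one]
    rw [h1, map_mul]
    exact mul_lt_one_aux' hn ((V.valuation_le_one_iff _).2 (hBV hc))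
  have hMi : Mi V.toSubring (lo V.toSubring (chart O M g).toSubring) (e : F) :=
    { mem := le_lo _ _ e.2
      ne := he0
      nu := (val_lt_iff he0).1 he𝔫
      min := by
        intro y hy hn
        obtain ⟨b, hb, c, hc, hc0, hci, rfl⟩ := hQ𝔫 y hy hn
        have h1 : (b : F) * c⁻¹ * (e : F)⁻¹ = c⁻¹ * ((b : F) * (e : F)⁻¹) := by ring
        rw [h1]
        exact V.mul_mem _ _ hci (hdivV b hb) }
  refine ⟨_, hg', hg'0, hM'V, ⟨_, hMi⟩, ?_⟩
  · rw [qt_eq hQV hMi]
    change lo V.toSubring B' = lo V.toSubring (Subring.closure _)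
    apply le_antisymm
    · refine lo_le_lo (qcl_le hQV hMi) ((?_ : B' ≤ _).trans (le_lo _ _))
      let C : Subring F := Subring.closure ((lo V.toSubring (chart O M g).toSubring : Set F) ∪
        {t | ∃ y ∈ lo V.toSubring (chart O M g).toSubring, NU V.toSubring y ∧ t = y * (e : F)⁻¹})
      have hBC : (chart O M g).toSubring ≤ C := fun b hb => Subring.subset_closure (Or.inl (le_lo _ _ hb))
      let C' : Subalgebra O F := { C with
        algebraMap_mem' := fun o => hBC (Subalgebra.algebraMap_mem (chart O M g) o) }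
      have : chart O M' ((e : F) * g ^ (k + 1)) ≤ C' := Algebra.adjoin_le (by
        rintro _ ⟨m, hm, rfl⟩
        obtain ⟨b, hb, rfl⟩ := hM'B m hm
        rw [mul_div_mul_right _ _ hgk, div_eq_mul_inv]
        exact Subring.subset_closure (Or.inr ⟨b, le_lo _ _ b.2, hnu.2 hb, rfl⟩))
      exact this
    · refine lo_le_lo hB'V ?_
      rw [Subring.closure_le]
      rintro x (hx | ⟨y, hy, hn, rfl⟩)
      · exact lo_le_lo hB'V (hBB'.trans (le_lo _ _)) hx
      · obtain ⟨b, hb, c, hc, hc0, hci, rfl⟩ := hQ𝔫 y hy hn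
        refine ⟨(b : F) * (e : F)⁻¹, hdivB' b hb, c, hBB' hc, hc0, hci, by ring⟩


/-- The effect of a step on the local ring at the centre of `W`. -/
theorem step_LR' {V : ValuationSubring F}
    (hOV : ∀ o, algebraMap O F o ∈ V) {M : Submodule O F} {g : F}
    (hg : g ∈ M) (hg0 : g ≠ 0) (hMV : ∀ m ∈ M, m / g ∈ V)
    (hne : ∃ y ∈ lo V.toSubring (chart O M g).toSubring, y ≠ 0 ∧ V.valuation y < 1)
    {k : ℕ} (hk : 1 ≤ k)
    {j : F} (hj : j ∈ M) (hj0 : j ≠ 0)
    (hsj : (∀ m ∈ M, m / j ∈ V) → ∃ s : Finset (chart O M j).toSubring,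
      (∀ b : (chart O M j).toSubring,
        b ∈ Ideal.span (s : Set (chart O M j).toSubring) ↔ V.valuation (b : F) < 1) ∧
      ∀ y ∈ s, (y : F) * j ^ k ∈ M ^ k)
    (hmax : (∀ m ∈ M, m / j ∈ V) → ∀ b ∈ chart O M j, ¬ V.valuation b < 1 →
      ∃ c ∈ chart O M j, V.valuation (b * c - 1) < 1)
    {W : ValuationSubring F} (hOW : ∀ o, algebraMap O F o ∈ W) (hMW : ∀ m ∈ M, m / j ∈ W) :
    (lo W.toSubring (chart O M j).toSubring = lo V.toSubring (chart O M g).toSubring →
      (∃ e, Mi W.toSubring (lo W.toSubring (chart O M j).toSubring) e) ∧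
      LR W (cut V hOV (M ^ (k + 1)) (g ^ (k + 1)))
        (qt W.toSubring (lo W.toSubring (chart O M j).toSubring))) ∧
    (lo W.toSubring (chart O M j).toSubring ≠ lo V.toSubring (chart O M g).toSubring →
      LR W (cut V hOV (M ^ (k + 1)) (g ^ (k + 1))) (lo W.toSubring (chart O M j).toSubring)) := by
  classical
  have hBW := chart_le_V hOW hMW
  have hBVg := chart_le_V hOV hMV
  have hle : cut V hOV (M ^ (k + 1)) (g ^ (k + 1)) ≤ M ^ (k + 1) := fun m hm => hm.1
  have hjg : j / g ∈ V := hMV j hj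
  have hjg0 : j / g ≠ 0 := div_ne_zero hj0 hg0
  have hgk : g ^ (k + 1) ≠ 0 := pow_ne_zero _ hg0
  have hjk : j ^ (k + 1) ≠ 0 := pow_ne_zero _ hj0
  by_cases hcase : V.valuation (j / g) < 1
  · -- the chart of `j` does not contain the centre
    have hmem : j ^ (k + 1) ∈ cut V hOV (M ^ (k + 1)) (g ^ (k + 1)) :=
      ⟨Submodule.pow_mem_pow _ hj _, by
        rw [← div_pow, map_pow]
        exact pow_lt_one₀ zero_le hcase (Nat.succ_ne_zero k)⟩
    obtain ⟨hx0, hM'W, hlo⟩ := other_aux (x := j ^ (k + 1)) hOW hle hj0 hMW hmem (by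
        rw [div_self hjk, map_one]
        exact lt_irrefl _) (by
        intro m hm
        have h1 : m / j * j ^ (k + 1) = m * j ^ k := by
          rw [pow_succ]
          field_simp
        rw [h1]
        refine ⟨by rw [pow_succ' M]; exact Submodule.mul_mem_mul hm (Submodule.pow_mem_pow _ hj _),
          ?_⟩
        have h2 : m * j ^ k / g ^ (k + 1) = m / g * (j / g) ^ k := by
          rw [pow_succ, div_pow]
          field_simp
        rw [h2, map_mul, map_pow]
        exact mul_lt_one_aux ((V.valuation_le_one_iff _).2 (hMV m hm))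
          (pow_lt_one₀ zero_le hcase (by omega)))
    refine ⟨fun heq => ?_, fun _ => ⟨_, hmem, hx0, hM'W, hlo⟩⟩
    exfalso
    have h1 : g / j ∈ lo W.toSubring (chart O M j).toSubring :=
      le_lo _ _ (Algebra.subset_adjoin ⟨g, hg, rfl⟩)
    rw [heq] at h1
    have h2 := lo_le hBVg h1
    rw [val_lt_iff hjg0, inv_div] at hcase
    exact hcase h2
  · have hgj : g / j ∈ V := by
      rw [val_lt_iff hjg0, not_not, inv_div] at hcase
      exact hcase
    have hMVj : ∀ m ∈ M, m / j ∈ V := fun m hm => by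
      have h1 : m / j = m / g * (g / j) := by field_simp
      rw [h1]
      exact V.mul_mem _ _ (hMV m hm) hgj
    have hBV := chart_le_V hOV hMVj
    have hVlo : lo V.toSubring (chart O M g).toSubring =
        lo V.toSubring (chart O M j).toSubring := lo_chart_eq hOV hg hg0 hj hj0 hMV hMVj
    have hcut : cut V hOV (M ^ (k + 1)) (g ^ (k + 1)) = cut V hOV (M ^ (k + 1)) (j ^ (k + 1)) := by
      have e1 : ∀ m : F, m / g ^ (k + 1) = (j / g) ^ (k + 1) * (m / j ^ (k + 1)) := fun m => by
        rw [div_pow]; field_simp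
      have e2 : ∀ m : F, m / j ^ (k + 1) = (g / j) ^ (k + 1) * (m / g ^ (k + 1)) := fun m => by
        rw [div_pow]; field_simp
      have l1 : V.valuation ((j / g) ^ (k + 1)) ≤ 1 :=
        (V.valuation_le_one_iff _).2 (V.toSubring.pow_mem hjg _)
      have l2 : V.valuation ((g / j) ^ (k + 1)) ≤ 1 :=
        (V.valuation_le_one_iff _).2 (V.toSubring.pow_mem hgj _)
      ext m
      constructor
      · rintro ⟨h1, h2⟩
        refine ⟨h1, ?_⟩
        rw [e2, map_mul]
        exact mul_lt_one_aux l2 h2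
      · rintro ⟨h1, h2⟩
        refine ⟨h1, ?_⟩
        rw [e1, map_mul]
        exact mul_lt_one_aux l1 h2
    rw [hcut, hVlo]
    obtain ⟨s, hs, hks⟩ := hsj hMVj
    have hle' : cut V hOV (M ^ (k + 1)) (j ^ (k + 1)) ≤ M ^ (k + 1) := fun m hm => hm.1
    by_cases hall : ∀ b : (chart O M j).toSubring, V.valuation (b : F) < 1 ↔
        W.valuation (b : F) < 1
    · -- the centres agree
      have hcutW : cut V hOV (M ^ (k + 1)) (j ^ (k + 1)) =
          cut W hOW (M ^ (k + 1)) (j ^ (k + 1)) := by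
        ext m
        constructor
        · rintro ⟨h1, h2⟩
          exact ⟨h1, (hall ⟨_, pow_div_mem hj0 _ m h1⟩).1 h2⟩
        · rintro ⟨h1, h2⟩
          exact ⟨h1, (hall ⟨_, pow_div_mem hj0 _ m h1⟩).2 h2⟩
      rw [hcutW]
      obtain ⟨ϖ, hϖB, hϖ0, hϖV⟩ : ∃ ϖ ∈ (chart O M j).toSubring, ϖ ≠ 0 ∧ V.valuation ϖ < 1 := by
        obtain ⟨y, hy, hy0, hyV⟩ := hne
        rw [hVlo] at hy
        obtain ⟨a, ha, c, hc, hc0, hci, rfl⟩ := hy
        refine ⟨a, ha, fun h => hy0 (by rw [h, zero_mul]), ?_⟩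
        have h1 : a = a * c⁻¹ * c := by rw [mul_assoc, inv_mul_cancel₀ hc0, mul_one]
        rw [h1, map_mul]
        exact mul_lt_one_aux' hyV ((V.valuation_le_one_iff _).2 (hBV hc))
      have hϖW : W.valuation ϖ < 1 := (hall ⟨ϖ, hϖB⟩).1 hϖV
      obtain ⟨g', hg', hg'0, hM'W, he, hlo⟩ := step_core' hOW hϖB hϖ0 hϖW hj hj0 hMW s
        (fun b => (hs b).trans (hall b)) k hks
      refine ⟨fun _ => ⟨he, g', hg', hg'0, hM'W, hlo⟩, fun hne => absurd ?_ hne⟩
      have hden : ∀ (b : F) (hb : b ∈ (chart O M j).toSubring), b ≠ 0 → (b⁻¹ ∈ W ↔ b⁻¹ ∈ V) := by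
        intro b hb hb0
        have h1 := hall ⟨b, hb⟩
        have h2 : (V.valuation b < 1 ↔ b⁻¹ ∉ V) := val_lt_iff hb0
        have h3 : (W.valuation b < 1 ↔ b⁻¹ ∉ W) := val_lt_iff hb0
        have h4 : V.valuation b < 1 ↔ W.valuation b < 1 := h1
        tauto
      apply le_antisymm
      · rintro _ ⟨a, ha, b, hb, hb0, hbi, rfl⟩
        exact ⟨a, ha, b, hb, hb0, (hden b hb hb0).1 hbi, rfl⟩
      · rintro _ ⟨a, ha, b, hb, hb0, hbi, rfl⟩
        exact ⟨a, ha, b, hb, hb0, (hden b hb hb0).2 hbi, rfl⟩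
    · -- the centres are different
      refine ⟨fun heq => absurd ?_ hall, fun _ => ?_⟩
      · intro b
        have hbQ : (b : F) ∈ lo W.toSubring (chart O M j).toSubring := le_lo _ _ b.2
        have hbQ' : (b : F) ∈ lo V.toSubring (chart O M j).toSubring := le_lo _ _ b.2
        by_cases hb0 : (b : F) = 0
        · rw [hb0, map_zero, map_zero]
          exact ⟨fun _ => zero_lt_one, fun _ => zero_lt_one⟩
        rw [val_lt_iff hb0, val_lt_iff hb0, not_iff_not]
        constructor
        · intro h1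
          have h2 := ic_lo hBV _ hbQ' hb0 h1
          rw [← heq] at h2
          exact lo_le hBW h2
        · intro h1
          have h2 := ic_lo hBW _ hbQ hb0 h1
          rw [heq] at h2
          exact lo_le hBV h2
      have hy : ∃ y ∈ s, ¬ W.valuation (y : F) < 1 := by
        by_contra hcon
        push Not at hcon
        apply hall
        have hVW : ∀ b : (chart O M j).toSubring, V.valuation (b : F) < 1 →
            W.valuation (b : F) < 1 := by
          intro b hb
          rw [← hs] at hb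
          induction hb using Submodule.span_induction with
          | mem y hy => exact hcon y hy
          | zero => rw [ZeroMemClass.coe_zero, map_zero]; exact zero_lt_one
          | add a b _ _ ha hb =>
            rw [Subring.coe_add]
            exact Valuation.map_add_lt _ ha hb
          | smul c a _ ha =>
            rw [smul_eq_mul, Subring.coe_mul, map_mul]
            exact mul_lt_one_aux ((W.valuation_le_one_iff _).2 (hBW c.2)) ha
        intro b
        refine ⟨hVW b, fun hb => ?_⟩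
        by_contra hn
        obtain ⟨c, hc, hbc⟩ := hmax hMVj b b.2 hn
        have h1 := hVW (b * ⟨c, hc⟩ - 1) hbc
        have h2 : W.valuation ((b : F) * c) < 1 := by
          rw [map_mul, mul_comm]
          exact mul_lt_one_aux ((W.valuation_le_one_iff _).2 (hBW hc)) hb
        have h3 : (1 : F) = (b : F) * c - ((b * ⟨c, hc⟩ - 1 : (chart O M j).toSubring) : F) := by
          change (1 : F) = (b : F) * c - ((b : F) * c - 1)
          ring
        have h4 : W.valuation (1 : F) < 1 := by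
          rw [h3, sub_eq_add_neg]
          refine Valuation.map_add_lt _ h2 ?_
          rw [Valuation.map_neg]
          exact h1
        rw [map_one] at h4
        exact lt_irrefl _ h4
      obtain ⟨y, hys, hyW⟩ := hy
      have hyV : V.valuation (y : F) < 1 := (hs y).1 (Ideal.subset_span hys)
      have hyk := hks y hys
      have hyM : (y : F) * j ^ (k + 1) ∈ cut V hOV (M ^ (k + 1)) (j ^ (k + 1)) := by
        refine ⟨?_, ?_⟩
        · have h1 : (y : F) * j ^ (k + 1) = (y : F) * j ^ k * j := by rw [pow_succ, mul_assoc]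
          rw [h1, pow_succ M]
          exact Submodule.mul_mem_mul hyk hj
        · rw [mul_div_cancel_right₀ _ hjk]
          exact hyV
      obtain ⟨hx0, hM'W, hlo⟩ := other_aux (x := (y : F) * j ^ (k + 1)) hOW hle' hj0 hMW hyM (by
          rw [mul_div_cancel_right₀ _ hjk]
          exact hyW) (by
          intro m hm
          have h1 : m / j * ((y : F) * j ^ (k + 1)) = m * ((y : F) * j ^ k) := by
            rw [pow_succ]
            field_simp
          rw [h1]
          refine ⟨by rw [pow_succ' M]; exact Submodule.mul_mem_mul hm hyk, ?_⟩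
          have h2 : m * ((y : F) * j ^ k) / j ^ (k + 1) = m / j * y := by
            rw [pow_succ]
            field_simp
          rw [h2, map_mul]
          exact mul_lt_one_aux ((V.valuation_le_one_iff _).2 (hMVj m hm)) hyV)
      exact ⟨_, hyM, hx0, hM'W, hlo⟩

/-- One step at `V`: the effect on all the local rings. -/
theorem step_all_LR' [IsNoetherianRing O] {V : ValuationSubring F}
    (hOV : ∀ o, algebraMap O F o ∈ V) {M : Submodule O F} (hM : M.FG) {QV : Subring F}
    (hQV : LR V M QV) (hne' : ∃ y ∈ QV, y ≠ 0 ∧ V.valuation y < 1)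
    (hmax : ∀ j ∈ M, j ≠ 0 → (∀ m ∈ M, m / j ∈ V) → ∀ b ∈ chart O M j, ¬ V.valuation b < 1 →
      ∃ c ∈ chart O M j, V.valuation (b * c - 1) < 1) :
    ∃ (M' : Submodule O F), M'.FG ∧ (∃ g ∈ M', g ≠ 0) ∧
      ∀ W : ValuationSubring F, (∀ o, algebraMap O F o ∈ W) → ∀ Q, LR W M Q →
        (Q = QV → (∃ e, Mi W.toSubring Q e) ∧ Q ≤ W.toSubring ∧ IC W.toSubring Q ∧
          LR W M' (qt W.toSubring Q)) ∧
        (Q ≠ QV → LR W M' Q) := by
  classical
  obtain ⟨g, hg, hg0, hMV, rfl⟩ := hQV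
  obtain ⟨G, hG⟩ := hM
  have hGM : ∀ j ∈ G, j ∈ M := fun j hj => by rw [← hG]; exact Submodule.subset_span hj
  have hM : M.FG := ⟨G, hG⟩
  have hk : ∀ j : F, ∃ k₀ : ℕ, j ∈ M → j ≠ 0 → (∀ m ∈ M, m / j ∈ V) →
      ∃ s : Finset (chart O M j).toSubring, (∀ b : (chart O M j).toSubring,
        b ∈ Ideal.span (s : Set (chart O M j).toSubring) ↔ V.valuation (b : F) < 1) ∧
      ∀ k, k₀ ≤ k → ∀ y ∈ s, (y : F) * j ^ k ∈ M ^ k := by
    intro j
    by_cases h : j ∈ M ∧ j ≠ 0 ∧ ∀ m ∈ M, m / j ∈ V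
    · obtain ⟨k₀, s, h1, h2⟩ := exists_bound hOV hM h.1 h.2.1 h.2.2
      exact ⟨k₀, fun _ _ _ => ⟨s, h1, h2⟩⟩
    · exact ⟨0, fun h1 h2 h3 => absurd ⟨h1, h2, h3⟩ h⟩
  choose kk hkk using hk
  set k : ℕ := max 1 (max (kk g) (G.sup kk)) with hkdef
  have hk1 : 1 ≤ k := le_max_left _ _
  have hkg : kk g ≤ k := (le_max_left _ _).trans (le_max_right _ _)
  have hkG : ∀ j ∈ G, kk j ≤ k := fun j hj =>
    (Finset.le_sup hj).trans ((le_max_right _ _).trans (le_max_right _ _))
  obtain ⟨s, hs, hks⟩ := hkk g hg hg0 hMV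
  have hBV := chart_le_V hOV hMV
  obtain ⟨ϖ, hϖB, hϖ0, hϖ⟩ : ∃ ϖ ∈ (chart O M g).toSubring, ϖ ≠ 0 ∧ V.valuation ϖ < 1 := by
    obtain ⟨y, hy, hy0, hyV⟩ := hne'
    obtain ⟨a, ha, c, hc, hc0, hci, rfl⟩ := hy
    refine ⟨a, ha, fun h => hy0 (by rw [h, zero_mul]), ?_⟩
    have h1 : a = a * c⁻¹ * c := by rw [mul_assoc, inv_mul_cancel₀ hc0, mul_one]
    rw [h1, map_mul]
    exact mul_lt_one_aux' hyV ((V.valuation_le_one_iff _).2 (hBV hc))
  obtain ⟨g', hg', hg'0, hM'V, -, hlo⟩ := step_core' hOV hϖB hϖ0 hϖ hg hg0 hMV s hs k (hks k hkg)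
  refine ⟨cut V hOV (M ^ (k + 1)) (g ^ (k + 1)), ?_, ⟨g', hg', hg'0⟩, ?_⟩
  · have h1 : (M ^ (k + 1)).FG := hM.pow _
    have h2 : IsNoetherian O (M ^ (k + 1) : Submodule O F) := isNoetherian_of_fg_of_noetherian _ h1
    have h3 : IsNoetherian O (cut V hOV (M ^ (k + 1)) (g ^ (k + 1))) :=
      isNoetherian_of_le fun m hm => hm.1
    exact Module.Finite.iff_fg.1 inferInstance
  · rintro W hOW Q ⟨gW, hgW, hgW0, hMgW, hQ⟩
    -- the generator of largest value
    have hne : (G.filter fun j => j ≠ 0).Nonempty := by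
      by_contra h
      rw [Finset.not_nonempty_iff_eq_empty] at h
      apply hg0
      have h1 : g ∈ Submodule.span O (G : Set F) := by rw [hG]; exact hg
      have h2 : Submodule.span O (G : Set F) ≤ ⊥ := by
        rw [Submodule.span_le]
        intro j hj
        by_contra hj0
        have : j ∈ G.filter fun j => j ≠ 0 := Finset.mem_filter.2 ⟨hj, hj0⟩
        rw [h] at this
        exact absurd this (Finset.notMem_empty _)
      exact (Submodule.mem_bot O).1 (h2 h1)
    obtain ⟨j, hjG, hjmax⟩ := Finset.exists_max_image _ (fun j => W.valuation j) hne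
    rw [Finset.mem_filter] at hjG
    have hjM := hGM j hjG.1
    have hj0 := hjG.2
    have hMW : ∀ m ∈ M, m / j ∈ W := by
      intro m hm
      rw [← hG] at hm
      induction hm using Submodule.span_induction with
      | mem m hm =>
        by_cases hm0 : m = 0
        · rw [hm0, zero_div]; exact W.zero_mem
        · rw [← W.valuation_le_one_iff, map_div₀]
          exact div_le_one_of_le₀ (hjmax m (Finset.mem_filter.2 ⟨hm, hm0⟩)) zero_le
      | zero => rw [zero_div]; exact W.zero_mem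
      | add a b _ _ ha hb => rw [add_div]; exact W.add_mem _ _ ha hb
      | smul c a _ ha =>
        rw [Algebra.smul_def, mul_div_assoc]
        exact W.mul_mem _ _ (hOW c) ha
    have hQj : lo W.toSubring (chart O M j).toSubring = Q := by
      rw [← hQ]
      exact lo_chart_eq hOW hjM hj0 hgW hgW0 hMW hMgW
    obtain ⟨h1, h2⟩ := step_LR' hOV hg hg0 hMV hne' hk1 hjM hj0 (fun h => by
      obtain ⟨s, hs, hks⟩ := hkk j hjM hj0 h
      exact ⟨s, hs, hks k (hkG j hjG.1)⟩) (hmax j hjM hj0) hOW hMW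
    rw [hQj] at h1 h2
    have hBW := chart_le_V hOW hMW
    refine ⟨fun h => ?_, h2⟩
    obtain ⟨h3, h4⟩ := h1 h
    refine ⟨h3, ?_, ?_, h4⟩
    · rw [← hQj]; exact lo_le hBW
    · rw [← hQj]; exact ic_lo hBW


end Pool.Agent.Run7.h275.AP
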