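import Pool.Agent.Run7.h275.AP1
import Pool.Agent.TH188.ARC.A18
import Pool.Agent.TH188.ARC.A20

/-!
# Sequences of quadratic transformations at closed points with finite residue fields
-/

set_option autoImplicit false
set_option linter.unusedVariables false
set_option linter.unusedSectionVars false

namespace Pool.Agent.Run7.h275.AP

open IsLocalRing Pool.Agent.TH188.QS Pool.Agent.W418.LU2 Pool.Agent.H918R2.Quad Pool.Agent.TH188.ARC

variable {O F : Type} [CommRing O] [Field F] [Algebra O F]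

/-- The residue field of the ring `Q` at the centre of `V` is a finite field with at most `d` elements. -/
def Rz (d : ℕ) (V : ValuationSubring F) (Q : Subring F) : Prop :=
  ∃ q : ℕ, 2 ≤ q ∧ q ≤ d ∧ V.valuation (q : F) < 1 ∧ ∀ b ∈ Q, V.valuation (b ^ q - b) < 1

/-- The local rings of the points of the model which are closed, not regular, and have residue fields with at
most `d` elements. -/
def Sg (d : ℕ) (M : Submodule O F) : Set (Subring F) :=
  {Q | ∃ V : ValuationSubring F, (∀ o, algebraMap O F o ∈ V) ∧ LR V M Q ∧ Rz d V Q ∧ ¬ IsRegularLocalRing Q}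

/-- `M'` is the blowing-up of `M` in the points `Sg d M`. -/
def BU (d : ℕ) (M M' : Submodule O F) : Prop :=
  ∀ W : ValuationSubring F, (∀ o, algebraMap O F o ∈ W) → ∀ Q, LR W M Q →
    (Q ∈ Sg d M → LR W M' (qt W.toSubring Q)) ∧ (Q ∉ Sg d M → LR W M' Q)

lemma max_rz {d : ℕ} {V : ValuationSubring F} (hOV : ∀ o, algebraMap O F o ∈ V) {M : Submodule O F}
    {Q : Subring F} (hQ : LR V M Q) (hR : Rz d V Q) {j : F} (hj : j ∈ M) (hj0 : j ≠ 0)
    (hMV : ∀ m ∈ M, m / j ∈ V) :
    ∀ b ∈ chart O M j, ¬ V.valuation b < 1 → ∃ c ∈ chart O M j, V.valuation (b * c - 1) < 1 := by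
  intro b hb hb1
  obtain ⟨q, hq2, -, -, hq⟩ := hR
  have hQj : lo V.toSubring (chart O M j).toSubring = Q := LR.unique hOV ⟨j, hj, hj0, hMV, rfl⟩ hQ
  have hbQ : b ∈ Q := by rw [← hQj]; exact le_lo _ _ hb
  have h1 := hq b hbQ
  refine ⟨b ^ (q - 2), Subalgebra.pow_mem _ hb _, ?_⟩
  obtain ⟨k, rfl⟩ : ∃ k, q = k + 2 := ⟨q - 2, by omega⟩
  have h2 : b ^ (k + 2) - b = b * (b * b ^ (k + 2 - 2) - 1) := by
    rw [Nat.add_sub_cancel]
    ring
  rw [h2, map_mul] at h1
  by_contra hcon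
  rw [not_lt] at hcon hb1
  exact absurd h1 (not_lt.2 (one_le_mul hb1 hcon))

/-- Rings which are closed under the inverses are regular. -/
lemma field_regular {V : ValuationSubring F} {Q : Subring F} (hQV : Q ≤ V.toSubring) (hIC : IC V.toSubring Q)
    (h : ¬ ∃ y ∈ Q, y ≠ 0 ∧ V.valuation y < 1) : IsRegularLocalRing Q := by
  have hF : IsField Q :=
    { exists_pair_ne := ⟨0, 1, zero_ne_one⟩
      mul_comm := mul_comm
      mul_inv_cancel := by
        intro a ha
        have ha0 : (a : F) ≠ 0 := fun h0 => ha (Subtype.ext h0)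
        have h1 : ¬ V.valuation (a : F) < 1 := fun h1 => h ⟨a, a.2, ha0, h1⟩
        rw [Pool.Agent.TH188.ARC.val_lt_iff ha0, not_not] at h1
        exact ⟨⟨_, hIC a a.2 ha0 h1⟩, Subtype.ext (mul_inv_cancel₀ ha0)⟩ }
  let _ : Field Q := hF.toField
  infer_instance

lemma LR.facts {W : ValuationSubring F} (hOW : ∀ o, algebraMap O F o ∈ W) {M : Submodule O F} {Q : Subring F}
    (h : LR W M Q) : Q ≤ W.toSubring ∧ IC W.toSubring Q := by
  obtain ⟨g, hg, hg0, hgW, rfl⟩ := h
  exact ⟨lo_le (chart_le_V hOW hgW), ic_lo (chart_le_V hOW hgW)⟩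

/-- Local rings of the model which are dominated by `W`. -/
lemma LR.transfer {V W : ValuationSubring F} (hOV : ∀ o, algebraMap O F o ∈ V)
    (hOW : ∀ o, algebraMap O F o ∈ W) {M : Submodule O F} {Q : Subring F} (h : LR V M Q)
    (hQW : Q ≤ W.toSubring) (hIC : IC W.toSubring Q) : LR W M Q := by
  obtain ⟨hQV, hICV⟩ := LR.facts hOV h
  obtain ⟨g, hg, hg0, hgV, hQ⟩ := h
  have hBQ : (chart O M g).toSubring ≤ Q := by rw [← hQ]; exact le_lo _ _
  have hgW : ∀ m ∈ M, m / g ∈ W := fun m hm => hQW (hBQ (Algebra.subset_adjoin ⟨m, hm, rfl⟩))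
  refine ⟨g, hg, hg0, hgW, ?_⟩
  rw [← hQ]
  apply le_antisymm
  · rintro _ ⟨a, ha, b, hb, hb0, hbi, rfl⟩
    exact ⟨a, ha, b, hb, hb0, hQV (hIC b (hBQ hb) hb0 hbi), rfl⟩
  · rintro _ ⟨a, ha, b, hb, hb0, hbi, rfl⟩
    exact ⟨a, ha, b, hb, hb0, hQW (hICV b (hBQ hb) hb0 hbi), rfl⟩

lemma exists_LR {V : ValuationSubring F} (hOV : ∀ o, algebraMap O F o ∈ V) {M : Submodule O F}
    (hM : M.FG) (hne : ∃ g ∈ M, g ≠ 0) : ∃ Q, LR V M Q := by
  obtain ⟨g, hg, hg0⟩ := hne
  obtain ⟨j, hj, hj0, hjV⟩ := exists_gen_max hOV hM hg hg0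
  exact ⟨_, j, hj, hj0, hjV, rfl⟩

/-- The blowing-up of a finite set of closed points. -/
theorem exists_BU [IsNoetherianRing O] {d : ℕ} {M : Submodule O F} (hM : M.FG) (hMne : ∃ g ∈ M, g ≠ 0)
    (hfin : (Sg d M).Finite) : ∃ M' : Submodule O F, M'.FG ∧ (∃ g ∈ M', g ≠ 0) ∧ BU d M M' := by
  classical
  have key : ∀ T : Finset (Subring F), (∀ Q ∈ T, Q ∈ Sg d M) →
      ∃ M' : Submodule O F, M'.FG ∧ (∃ g ∈ M', g ≠ 0) ∧
        ∀ W : ValuationSubring F, (∀ o, algebraMap O F o ∈ W) → ∀ Q, LR W M Q →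
          (Q ∈ T → LR W M' (qt W.toSubring Q)) ∧ (Q ∉ T → LR W M' Q) := by
    intro T
    induction T using Finset.induction_on with
    | empty =>
      intro _
      exact ⟨M, hM, hMne, fun W hW Q hQ => ⟨fun h => absurd h (Finset.notMem_empty _), fun _ => hQ⟩⟩
    | insert Q₀ T hQ₀T ih =>
      intro hT
      obtain ⟨M₁, hM₁, hM₁ne, h1⟩ := ih fun Q hQ => hT Q (Finset.mem_insert_of_mem hQ)
      obtain ⟨V, hOV, hVQ, hRz, hnreg⟩ := hT Q₀ (Finset.mem_insert_self _ _)
      have hVQ₁ : LR V M₁ Q₀ := (h1 V hOV Q₀ hVQ).2 hQ₀T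
      have hne : ∃ y ∈ Q₀, y ≠ 0 ∧ V.valuation y < 1 := by
        by_contra hcon
        exact hnreg (field_regular (LR.facts hOV hVQ).1 (LR.facts hOV hVQ).2 hcon)
      obtain ⟨M₂, hM₂, hne₂, hst⟩ := step_all_LR' hOV hM₁ hVQ₁ hne
        (fun j hj hj0 hjV => max_rz hOV hVQ₁ hRz hj hj0 hjV)
      refine ⟨M₂, hM₂, hne₂, fun W hOW Q hQ => ⟨fun hQT => ?_, fun hQT => ?_⟩⟩
      · by_cases hc : Q ∈ T
        · have h2 := (h1 W hOW Q hQ).1 hc
          refine (hst W hOW _ h2).2 fun h3 => hQ₀T ?_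
          -- the two local rings of `M` are dominated by `W`
          obtain ⟨h4, h5⟩ := LR.facts hOW h2
          rw [h3] at h4 h5
          rw [LR.unique hOW (LR.transfer hOV hOW hVQ h4 h5) hQ]
          exact hc
        · have hQQ : Q = Q₀ := by
            rcases Finset.mem_insert.1 hQT with h | h
            · exact h
            · exact absurd h hc
          exact ((hst W hOW _ ((h1 W hOW Q hQ).2 hc)).1 hQQ).2.2.2
      · have hQ1 : Q ∉ T := fun h => hQT (Finset.mem_insert_of_mem h)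
        have hQ2 : Q ≠ Q₀ := fun h => hQT (h ▸ Finset.mem_insert_self _ _)
        exact (hst W hOW Q ((h1 W hOW Q hQ).2 hQ1)).2 hQ2
  obtain ⟨M', hM', hM'ne, h1⟩ := key hfin.toFinset (fun Q hQ => by
    rw [Set.Finite.mem_toFinset] at hQ
    exact hQ)
  refine ⟨M', hM', hM'ne, fun W hOW Q hQ => ?_⟩
  have h2 := h1 W hOW Q hQ
  rwa [Set.Finite.mem_toFinset] at h2

/-- Finitely many ideals contain an integer and all the elements `b ^ q - b`. -/
lemma finite_ideals' [Algebra.FiniteType ℤ O] {B : Type} [CommRing B] [Algebra O B]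
    [Algebra.FiniteType O B] {N : ℕ} (hN : N ≠ 0) {q : ℕ} (hq : 2 ≤ q) :
    {P : Ideal B | (N : B) ∈ P ∧ ∀ b : B, b ^ q - b ∈ P}.Finite := by
  classical
  let I : Ideal B := Ideal.span ({(N : B)} ∪ Set.range fun b : B => b ^ q - b)
  have hNI : (N : B) ∈ I := Ideal.subset_span (Or.inl rfl)
  have hqI : ∀ b : B, b ^ q - b ∈ I := fun b => Ideal.subset_span (Or.inr ⟨b, rfl⟩)
  have hint : Algebra.IsIntegral ℤ (B ⧸ I) := by
    refine ⟨fun z => ?_⟩
    obtain ⟨b, rfl⟩ := Ideal.Quotient.mk_surjective z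
    refine ⟨Polynomial.X ^ q - Polynomial.X, ?_, ?_⟩
    · exact Polynomial.monic_X_pow_sub (by
        refine lt_of_le_of_lt Polynomial.degree_X_le ?_
        exact_mod_cast hq)
    · rw [Polynomial.eval₂_sub, Polynomial.eval₂_X_pow, Polynomial.eval₂_X, ← map_pow, ← map_sub]
      exact Ideal.Quotient.eq_zero_iff_mem.2 (hqI b)
  have hft : Algebra.FiniteType O (B ⧸ I) :=
    Algebra.FiniteType.of_surjective (Ideal.Quotient.mkₐ O I) (Ideal.Quotient.mkₐ_surjective O I)
  have hftZ : Algebra.FiniteType ℤ (B ⧸ I) := Algebra.FiniteType.trans (S := O) inferInstance hft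
  have hfinZ : Module.Finite ℤ (B ⧸ I) := Algebra.IsIntegral.finite
  have htor : Module.IsTorsion ℤ (B ⧸ I) := by
    intro z
    refine ⟨⟨(N : ℤ), mem_nonZeroDivisors_of_ne_zero (by exact_mod_cast hN)⟩, ?_⟩
    change (N : ℤ) • z = 0
    obtain ⟨b, rfl⟩ := Ideal.Quotient.mk_surjective z
    rw [zsmul_eq_mul, Int.cast_natCast]
    have h1 : ((N : ℕ) : B ⧸ I) = Ideal.Quotient.mk I (N : B) := (map_natCast _ N).symm
    rw [h1, Ideal.Quotient.eq_zero_iff_mem.2 hNI, zero_mul]
  have hF : Finite (B ⧸ I) := Module.finite_of_fg_torsion _ htor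
  have hFI : Finite (Ideal (B ⧸ I)) := Finite.of_injective (fun J : Ideal (B ⧸ I) =>
    (J : Set (B ⧸ I))) SetLike.coe_injective
  refine (Set.finite_range fun J : Ideal (B ⧸ I) => J.comap (Ideal.Quotient.mk I)).subset ?_
  rintro P ⟨hNP, hqP⟩
  have hIP : I ≤ P := by
    refine Ideal.span_le.2 ?_
    rintro x (hx | ⟨b, rfl⟩)
    · rw [Set.mem_singleton_iff] at hx
      rw [hx]; exact hNP
    · exact hqP b
  refine ⟨P.map (Ideal.Quotient.mk I), ?_⟩
  change Ideal.comap _ (Ideal.map _ P) = P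
  rw [Ideal.comap_map_of_surjective _ Ideal.Quotient.mk_surjective]
  apply le_antisymm
  · refine sup_le le_rfl ?_
    intro x hx
    rw [Ideal.mem_comap, Ideal.mem_bot, Ideal.Quotient.eq_zero_iff_mem] at hx
    exact hIP hx
  · exact le_sup_left

theorem finite_centres' [Algebra.FiniteType ℤ O] {M : Submodule O F} (hM : M.FG) (hne : ∃ g ∈ M, g ≠ 0)
    {N : ℕ} (hN : N ≠ 0) (C : ℕ) (𝓖 : Set (ValuationSubring F))
    (hO : ∀ W ∈ 𝓖, ∀ o, algebraMap O F o ∈ W) (hNW : ∀ W ∈ 𝓖, W.valuation (N : F) < 1)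
    (hq : ∀ W ∈ 𝓖, ∀ Q, LR W M Q → Rz C W Q) :
    {Q : Subring F | ∃ W ∈ 𝓖, LR W M Q}.Finite := by
  classical
  obtain ⟨G, hG⟩ := hM
  obtain ⟨g, hg, hg0⟩ := hne
  have hft : ∀ j : F, Algebra.FiniteType O (chart O M j) := by
    intro j
    have h1 : chart O M j = Algebra.adjoin O ((fun m => m / j) '' (G : Set F)) := by
      apply le_antisymm
      · refine Algebra.adjoin_le ?_
        rintro _ ⟨m, hm, rfl⟩
        change m / j ∈ Algebra.adjoin O ((fun m => m / j) '' (G : Set F))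
        rw [← hG] at hm
        induction hm using Submodule.span_induction with
        | mem m hm => exact Algebra.subset_adjoin ⟨m, hm, rfl⟩
        | zero => rw [zero_div]; exact Subalgebra.zero_mem _
        | add a b _ _ ha hb => rw [add_div]; exact Subalgebra.add_mem _ ha hb
        | smul c a _ ha => rw [smul_div_assoc]; exact Subalgebra.smul_mem _ ha c
      · refine Algebra.adjoin_mono ?_
        rintro _ ⟨m, hm, rfl⟩
        exact ⟨m, hG ▸ Submodule.subset_span hm, rfl⟩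
    rw [h1]
    exact (Subalgebra.fg_iff_finiteType _).1 (Subalgebra.fg_def.2
      ⟨_, G.finite_toSet.image _, rfl⟩)
  let st : (j : F) → Ideal (chart O M j) → Set F := fun j P =>
    {x | ∃ a b : chart O M j, b ∉ P ∧ x = (a : F) * (b : F)⁻¹}
  have hfin : (⋃ j ∈ G, ⋃ q ∈ Finset.Icc 2 C, (st j) ''
      {P : Ideal (chart O M j) | (N : chart O M j) ∈ P ∧ ∀ b : chart O M j, b ^ q - b ∈ P}).Finite := by
    refine Set.Finite.biUnion G.finite_toSet fun j _ => ?_
    refine Set.Finite.biUnion (Finset.Icc 2 C).finite_toSet fun q hq' => ?_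
    have hq2 : 2 ≤ q := (Finset.mem_Icc.1 hq').1
    have := hft j
    exact (finite_ideals' (O := O) hN hq2).image _
  refine Set.Finite.of_finite_image (f := fun Q : Subring F => (Q : Set F)) (hfin.subset ?_)
    (SetLike.coe_injective.injOn)
  rintro _ ⟨Q, ⟨W, hW, gW, hgW, hgW0, hMgW, rfl⟩, rfl⟩
  obtain ⟨j, hjG, hj0, hMW⟩ := exists_gen_max' (hO W hW) hG hg hg0
  have hjM : j ∈ M := by rw [← hG]; exact Submodule.subset_span hjG
  obtain ⟨q, hq2, hqC, -, hqW⟩ := hq W hW _ ⟨j, hjM, hj0, hMW, rfl⟩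
  have hBW := chart_le_V (hO W hW) hMW
  rw [lo_chart_eq (hO W hW) hgW hgW0 hjM hj0 hMgW hMW]
  simp only [Set.mem_iUnion]
  let P : Ideal (chart O M j) :=
    { carrier := {b | W.valuation (b : F) < 1}
      zero_mem' := by
        change W.valuation ((0 : chart O M j) : F) < 1
        rw [ZeroMemClass.coe_zero, map_zero]; exact zero_lt_one
      add_mem' := fun {a b} ha hb => by
        change W.valuation ((a + b : chart O M j) : F) < 1
        exact Valuation.map_add_lt _ ha hb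
      smul_mem' := fun c a ha => by
        change W.valuation ((c * a : chart O M j) : F) < 1
        rw [Subalgebra.coe_mul, map_mul]
        exact mul_lt_one_aux ((W.valuation_le_one_iff _).2 (hBW c.2)) ha }
  refine ⟨j, hjG, q, Finset.mem_Icc.2 ⟨hq2, hqC⟩, P, ⟨?_, ?_⟩, ?_⟩
  · have h1 : W.valuation ((N : chart O M j) : F) < 1 := by
      have : ((N : chart O M j) : F) = (N : F) := by norm_cast
      rw [this]
      exact hNW W hW
    exact h1
  · intro b
    exact hqW b (le_lo _ _ b.2)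
  · ext x
    constructor
    · rintro ⟨a, b, hb, rfl⟩
      have hb1 : ¬ W.valuation (b : F) < 1 := hb
      have hb0 : (b : F) ≠ 0 := by
        intro h
        apply hb1
        rw [h, map_zero]
        exact zero_lt_one
      rw [Pool.Agent.TH188.ARC.val_lt_iff hb0, not_not] at hb1
      exact ⟨a, a.2, b, b.2, hb0, hb1, rfl⟩
    · rintro ⟨a, ha, b, hb, hb0, hbi, rfl⟩
      refine ⟨⟨a, ha⟩, ⟨b, hb⟩, ?_, rfl⟩
      intro h
      have h1 : W.valuation b < 1 := h
      exact (Pool.Agent.TH188.ARC.val_lt_iff hb0).1 h1 hbi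

/-- The number of elements of a finite residue field. -/
lemma residue_facts {W : ValuationSubring F} (hf : Finite (ResidueField W)) :
    2 ≤ Nat.card (ResidueField W) ∧ W.valuation ((Nat.card (ResidueField W) : ℕ) : F) < 1 ∧
      ∀ b ∈ W, W.valuation (b ^ Nat.card (ResidueField W) - b) < 1 := by
  have := Fintype.ofFinite (ResidueField W)
  have hmem : ∀ z : W, residue W z = 0 → W.valuation (z : F) < 1 := by
    intro z hz
    rw [residue_eq_zero_iff] at hz
    exact (W.valuation_lt_one_iff z).1 hz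
  refine ⟨Finite.one_lt_card, ?_, ?_⟩
  · have h := hmem ((Nat.card (ResidueField W) : ℕ) : W) (by
      rw [map_natCast, Nat.card_eq_fintype_card]
      exact Nat.cast_card_eq_zero (ResidueField W))
    simpa using h
  · intro b hb
    have h := hmem (⟨b, hb⟩ ^ Nat.card (ResidueField W) - ⟨b, hb⟩) (by
      rw [map_sub, map_pow, Nat.card_eq_fintype_card, FiniteField.pow_card, sub_self])
    simpa using h

theorem Sg_fin [Algebra.FiniteType ℤ O] {d : ℕ} {M : Submodule O F} (hM : M.FG) (hne : ∃ g ∈ M, g ≠ 0) :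
    (Sg d M).Finite := by
  have h := finite_centres' hM hne (N := d.factorial) (Nat.factorial_ne_zero d) d
    {V | (∀ o, algebraMap O F o ∈ V) ∧ ∃ Q, LR V M Q ∧ Rz d V Q} (fun W hW => hW.1) ?_ ?_
  · refine h.subset ?_
    rintro Q ⟨V, hOV, hQ, hR, -⟩
    exact ⟨V, ⟨hOV, Q, hQ, hR⟩, hQ⟩
  · rintro W ⟨hOW, Q, hQ, q, h2, hc, h1, -⟩
    obtain ⟨k, hk⟩ : q ∣ d.factorial := Nat.dvd_factorial (by omega) hc
    rw [hk, Nat.cast_mul, map_mul]
    refine mul_lt_one_aux' h1 ?_
    have : ((k : ℕ) : F) ∈ W := natCast_mem W k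
    exact (W.valuation_le_one_iff _).2 this
  · rintro W ⟨hOW, Q, hQ, hR⟩ Q' hQ'
    rw [LR.unique hOW hQ' hQ]
    exact hR

/-- The level is bounded by the value of a minor of the Jacobian matrix. -/
theorem lv_jac [IsDomain O] [IsRegularRing O] {n : ℕ} (y : Fin n → F) (i : Fin n) (hyi : y i ≠ 0)
    {V : ValuationSubring F} (hOV : ∀ o, algebraMap O F o ∈ V) (hV : ∀ j, y j / y i ∈ V) {r : ℕ}
    (f : Fin r → MvPolynomial (Fin n) O)
    (D : Fin r → Derivation ℤ (MvPolynomial (Fin n) O) (MvPolynomial (Fin n) O))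
    (hf : ∀ k, MvPolynomial.aeval (fun j => y j / y i) (f k) = 0)
    (hgen : ∀ s : MvPolynomial (Fin n) O, MvPolynomial.aeval (fun j => y j / y i) s = 0 →
      ∃ t, MvPolynomial.aeval (fun j => y j / y i) t ≠ 0 ∧ t * s ∈ Ideal.span (Set.range f))
    {e : ℕ} (hδ : ∀ z : ℕ → F, (∀ k < e + 1,
      z k ∈ qseq V (chart O (Submodule.span O (Set.range y)) (y i)).toSubring k ∧ z k ≠ 0 ∧
        V.valuation (z k) < 1) →
      (Matrix.of fun k l => MvPolynomial.aeval (fun j => y j / y i) (D l (f k))).det *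
        (∏ i ∈ Finset.range (e + 1), z i)⁻¹ ∉ V) :
    Lv V (Submodule.span O (Set.range y)) e := by
  classical
  let S := MvPolynomial (Fin n) O
  let φ : S →+* F := (MvPolynomial.aeval (fun j => y j / y i) : S →ₐ[O] F).toRingHom
  have hφr : φ.range = (chart O (Submodule.span O (Set.range y)) (y i)).toSubring := by
    rw [chart_span, Algebra.adjoin_range_eq_range_aeval]
    rfl
  have hMV : ∀ m ∈ Submodule.span O (Set.range y), m / y i ∈ V := by
    intro m hm
    induction hm using Submodule.span_induction with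
    | mem m hm => obtain ⟨j, rfl⟩ := hm; exact hV j
    | zero => rw [zero_div]; exact V.zero_mem
    | add a b _ _ ha hb => rw [add_div]; exact V.add_mem _ _ ha hb
    | smul c a _ ha =>
      rw [Algebra.smul_def, mul_div_assoc]
      exact V.mul_mem _ _ (hOV c) ha
  have hBV := chart_le_V hOV hMV
  have hrV : φ.range ≤ V.toSubring := by rw [hφr]; exact hBV
  have hLR : LR V (Submodule.span O (Set.range y)) (lo V.toSubring φ.range) :=
    ⟨y i, Submodule.subset_span ⟨i, rfl⟩, hyi, hMV, by rw [hφr]⟩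
  by_cases hne0 : ∃ y ∈ φ.range, y ≠ 0 ∧ V.valuation y < 1
  · have hφV : ∀ s, φ s ∈ V := fun s => hrV ⟨s, rfl⟩
    have hD : ∀ j, Der φ (fun s => φ (D j s)) := fun j =>
      { add := fun a b => by rw [map_add, map_add]
        mul := fun a b => by
          rw [Derivation.leibniz, smul_eq_mul, smul_eq_mul, map_add, map_mul, map_mul] }
    have hnoe : IsNoetherianRing φ.range := isNoetherianRing_of_surjective _ _ φ.rangeRestrict
      φ.rangeRestrict_surjective
    obtain ⟨-, hmi⟩ := seq_fg (Q := qseq V φ.range) hrV hne0 rfl (fun n => rfl)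
    obtain ⟨m, hm, hreg⟩ := exists_regular_lt (Q := qseq V φ.range) hφV hD (C := 1) one_ne_zero
      (fun j s => by rw [one_mul]; exact hφV _) hf hgen rfl (fun n => rfl) hmi (n := e + 1) (by
        intro z hz
        rw [one_pow, one_mul]
        rw [hφr] at hz
        exact hδ z hz)
    refine ⟨_, hLR, m, by omega, ?_⟩
    rw [← qseq_eq]
    exact hreg
  · refine ⟨_, hLR, 0, Nat.zero_le _, field_regular (V := V) (lo_le hrV) (ic_lo hrV) ?_⟩
    rintro ⟨x, ⟨a, ha, c, hc, hc0, hci, rfl⟩, hx0, hxV⟩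
    refine hne0 ⟨a, ha, fun h => hx0 (by rw [h, zero_mul]), ?_⟩
    have h1 : a = a * c⁻¹ * c := by rw [mul_assoc, inv_mul_cancel₀ hc0, mul_one]
    rw [h1, map_mul]
    exact mul_lt_one_aux' hxV ((V.valuation_le_one_iff _).2 (hrV hc))

end Pool.Agent.Run7.h275.AP
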