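import Pool.Agent.Run7.h275.AP2

/-!
# Points with values in valuation rings with finite residue fields
-/

set_option autoImplicit false
set_option linter.unusedVariables false
set_option linter.unusedSectionVars false

namespace Pool.Agent.Run7.h275.AP

open IsLocalRing Pool.Agent.TH188.QS Pool.Agent.W418.LU2 Pool.Agent.H918R2.Quad Pool.Agent.TH188.ARC

/-- The local ring at the kernel of `α`. -/
theorem loc_data' {F L : Type} [Field F] [Field L] {B : Subring F} (α : B →+* L) :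
    ∃ (A : Subring F) (π : A →+* L) (h : B ≤ A),
      (∀ b : B, π ⟨b, h b.2⟩ = α b) ∧ (∀ a : A, π a ≠ 0 → (a : F)⁻¹ ∈ A) := by
  have hp : (RingHom.ker α).IsPrime := RingHom.ker_isPrime _
  have h0 : ∀ c : B, α c ≠ 0 → (c : F) ≠ 0 := by
    intro c hc h
    apply hc
    have : c = 0 := Subtype.ext h
    rw [this, map_zero]
  have hu1 : ∀ y : (RingHom.ker α).primeCompl, IsUnit (B.subtype (y : B)) := fun y =>
    isUnit_iff_ne_zero.2 (h0 _ fun h => y.2 (RingHom.mem_ker.2 h))
  have hu2 : ∀ y : (RingHom.ker α).primeCompl, IsUnit (α (y : B)) := fun y =>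
    isUnit_iff_ne_zero.2 fun h => y.2 (RingHom.mem_ker.2 h)
  let Lo := Localization.AtPrime (RingHom.ker α)
  let θ : Lo →+* F := IsLocalization.lift (M := (RingHom.ker α).primeCompl) hu1
  let ρ : Lo →+* L := IsLocalization.lift (M := (RingHom.ker α).primeCompl) hu2
  have hθi : Function.Injective θ := by
    rw [injective_iff_map_eq_zero]
    intro z hz
    obtain ⟨a, y, rfl⟩ := IsLocalization.exists_mk'_eq (RingHom.ker α).primeCompl z
    have h1 : B.subtype a = B.subtype (y : B) * 0 :=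
      (IsLocalization.lift_mk'_spec (S := Lo) (hg := hu1) a 0 y).1 hz
    rw [mul_zero] at h1
    have h2 : a = 0 := Subtype.ext h1
    rw [h2, IsLocalization.mk'_zero]
  let e : Lo ≃+* θ.range := RingEquiv.ofBijective θ.rangeRestrict
    ⟨fun a b h => hθi (congrArg Subtype.val h), θ.rangeRestrict_surjective⟩
  have he : ∀ z, ((e z : θ.range) : F) = θ z := fun z => rfl
  let π : θ.range →+* L := ρ.comp e.symm.toRingHom
  have hπ : ∀ z, π (e z) = ρ z := fun z => by
    change ρ (e.symm (e z)) = ρ z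
    rw [RingEquiv.symm_apply_apply]
  have hB : B ≤ θ.range := fun b hb => ⟨algebraMap B Lo ⟨b, hb⟩, IsLocalization.lift_eq hu1 _⟩
  have hmk : ∀ (a : B) (y : (RingHom.ker α).primeCompl),
      θ (IsLocalization.mk' Lo a y) = (a : F) * ((y : B) : F)⁻¹ := by
    intro a y
    rw [IsLocalization.lift_mk'_spec]
    have hy := h0 (y : B) fun h => y.2 (RingHom.mem_ker.2 h)
    change (a : F) = ((y : B) : F) * ((a : F) * ((y : B) : F)⁻¹)
    field_simp
  refine ⟨θ.range, π, hB, ?_, ?_⟩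
  · intro b
    have h1 : (⟨b, hB b.2⟩ : θ.range) = e (algebraMap B Lo b) := by
      apply Subtype.ext
      rw [he]
      exact (IsLocalization.lift_eq hu1 _).symm
    rw [h1, hπ]
    exact IsLocalization.lift_eq hu2 _
  · intro a ha
    obtain ⟨z, rfl⟩ := e.surjective a
    obtain ⟨b, y, rfl⟩ := IsLocalization.exists_mk'_eq (RingHom.ker α).primeCompl z
    rw [hπ] at ha
    have hb : α b ≠ 0 := by
      intro hb
      apply ha
      rw [IsLocalization.lift_mk'_spec, mul_zero]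
      exact hb
    have hbp : b ∈ (RingHom.ker α).primeCompl := fun h => hb (RingHom.mem_ker.1 h)
    refine ⟨IsLocalization.mk' Lo (y : B) ⟨b, hbp⟩, ?_⟩
    rw [hmk, he, hmk, mul_inv, inv_inv, mul_comm]

section

variable (O : Type) {F : Type} [CommRing O] [Field F] [Algebra O F]

/-- `δ` is a minor of the Jacobian matrix of equations at the generic point of the chart `i`. -/
def Mn {n : ℕ} (y : Fin n → F) (i : Fin n) (δ : F) : Prop :=
  ∃ (r : ℕ) (f : Fin r → MvPolynomial (Fin n) O)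
    (D : Fin r → Derivation ℤ (MvPolynomial (Fin n) O) (MvPolynomial (Fin n) O)),
    (∀ k, MvPolynomial.aeval (fun j => y j / y i) (f k) = 0) ∧
    (∀ s : MvPolynomial (Fin n) O, MvPolynomial.aeval (fun j => y j / y i) s = 0 →
      ∃ t, MvPolynomial.aeval (fun j => y j / y i) t ≠ 0 ∧ t * s ∈ Ideal.span (Set.range f)) ∧
    δ = (Matrix.of fun k l => MvPolynomial.aeval (fun j => y j / y i) (D l (f k))).det

/-- The data of a point with values in `R`. -/
structure AD {n : ℕ} (y : Fin n → F) (d e : ℕ) {L : Type} [Field L] (R : ValuationSubring L)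
    (A : Subring F) (π : A →+* L) (V : ValuationSubring F) (i : Fin n) (δ : F) : Prop where
  yi : y i ≠ 0
  fin : Finite (ResidueField R)
  card : Nat.card (ResidueField R) ≤ d
  tr : Tr A π R V
  BA : (chart O (Submodule.span O (Set.range y)) (y i)).toSubring ≤ A
  mem : ∀ b (hb : b ∈ (chart O (Submodule.span O (Set.range y)) (y i)).toSubring), π ⟨b, BA hb⟩ ∈ R
  δB : δ ∈ (chart O (Submodule.span O (Set.range y)) (y i)).toSubring
  δ0 : π ⟨δ, BA δB⟩ ≠ 0
  mn : Mn O y i δ
  bd : ∀ z : ℕ → L, (∀ k < e + 1, z k ∈ R ∧ z k ≠ 0 ∧ R.valuation (z k) < 1) →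
    π ⟨δ, BA δB⟩ * (∏ k ∈ Finset.range (e + 1), z k)⁻¹ ∉ R

end

section

variable {O F : Type} [CommRing O] [Field F] [Algebra O F]
variable {n : ℕ} {y : Fin n → F} {d e : ℕ} {L : Type} [Field L] {R : ValuationSubring L}
    {A : Subring F} {π : A →+* L} {V : ValuationSubring F} {i : Fin n} {δ : F}

lemma AD.BV (h : AD O y d e R A π V i δ) :
    (chart O (Submodule.span O (Set.range y)) (y i)).toSubring ≤ V.toSubring := fun b hb =>
  (h.tr.mem ⟨b, h.BA hb⟩).2 (h.mem b hb)

lemma AD.OV (h : AD O y d e R A π V i δ) : ∀ o, algebraMap O F o ∈ V := fun o =>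
  h.BV (Subalgebra.algebraMap_mem (chart O (Submodule.span O (Set.range y)) (y i)) o)

lemma AD.MV (h : AD O y d e R A π V i δ) : ∀ m ∈ Submodule.span O (Set.range y), m / y i ∈ V :=
  fun m hm => h.BV (Algebra.subset_adjoin ⟨m, hm, rfl⟩)

lemma AD.LR0 (h : AD O y d e R A π V i δ) : LR V (Submodule.span O (Set.range y))
    (lo V.toSubring (chart O (Submodule.span O (Set.range y)) (y i)).toSubring) :=
  ⟨y i, Submodule.subset_span ⟨i, rfl⟩, h.yi, h.MV, rfl⟩

lemma AD.lv [IsDomain O] [IsRegularRing O] (h : AD O y d e R A π V i δ) :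
    Lv V (Submodule.span O (Set.range y)) e := by
  obtain ⟨r, f, D, hf, hgen, hδ⟩ := h.mn
  by_cases hV : V.valuation δ < 1
  · refine lv_jac y i h.yi h.OV (fun j => h.MV _ (Submodule.subset_span ⟨j, rfl⟩)) f D hf hgen ?_
    intro z hz
    rw [← hδ]
    exact h.tr.dv_of (Q := fun k => qseq V (chart O (Submodule.span O (Set.range y)) (y i)).toSubring k)
      (fun k => (h.tr.qseq_le h.BA h.δB hV (fun _ => h.δ0) k).1) (h.BA h.δB) h.δ0 h.bd z hz
  · obtain ⟨Q, hQ, m, hm, hr⟩ := lv_jac (e := 0) y i h.yi h.OV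
      (fun j => h.MV _ (Submodule.subset_span ⟨j, rfl⟩)) f D hf hgen (by
        intro z hz hcon
        rw [← hδ] at hcon
        obtain ⟨-, hz0, hz1⟩ := hz 0 (by omega)
        apply hV
        rw [zero_add, Finset.prod_range_one] at hcon
        have h1 : δ = δ * (z 0)⁻¹ * z 0 := by rw [mul_assoc, inv_mul_cancel₀ hz0, mul_one]
        rw [h1, map_mul]
        exact mul_lt_one_aux ((V.valuation_le_one_iff _).2 hcon) hz1)
    exact ⟨Q, hQ, m, by omega, hr⟩

lemma AD.reg0 [IsDomain O] [IsRegularRing O] (h : AD O y d e R A π V i δ) (hV : ¬ V.valuation δ < 1) :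
    IsRegularLocalRing
      (lo V.toSubring (chart O (Submodule.span O (Set.range y)) (y i)).toSubring) := by
  have h' : AD O y d 0 R A π V i δ :=
    { h with
      bd := by
        intro z hz hcon
        obtain ⟨-, hz0, hz1⟩ := hz 0 (by omega)
        rw [zero_add, Finset.prod_range_one] at hcon
        apply hV
        have h2 : (V.valuation δ < 1) ↔ _ := h.tr.lt ⟨δ, h.BA h.δB⟩
        rw [h2]
        have h1 : π ⟨δ, h.BA h.δB⟩ = π ⟨δ, h.BA h.δB⟩ * (z 0)⁻¹ * z 0 := by
          rw [mul_assoc, inv_mul_cancel₀ hz0, mul_one]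
        rw [h1, map_mul]
        exact mul_lt_one_aux ((R.valuation_le_one_iff _).2 hcon) hz1 }
  obtain ⟨Q, hQ, m, hm, hr⟩ := h'.lv
  obtain rfl : m = 0 := by omega
  rw [LR.unique h.OV h.LR0 hQ]
  exact hr

lemma AD.rz (h : AD O y d e R A π V i δ) {Q : Subring F} (hQA : Q ≤ A) (hQV : Q ≤ V.toSubring) :
    Rz d V Q := by
  obtain ⟨h2, h1, h3⟩ := residue_facts h.fin
  refine ⟨_, h2, h.card, ?_, ?_⟩
  · have e1 := h.tr.lt ((Nat.card (ResidueField R) : ℕ) : A)
    rw [map_natCast] at e1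
    have e2 := e1.2 h1
    simpa using e2
  · intro b hb
    have hbR : π ⟨b, hQA hb⟩ ∈ R := (h.tr.mem ⟨b, hQA hb⟩).1 (hQV hb)
    have e1 := h.tr.lt (⟨b, hQA hb⟩ ^ Nat.card (ResidueField R) - ⟨b, hQA hb⟩)
    rw [map_sub, map_pow] at e1
    have e2 := e1.2 (h3 _ hbR)
    simpa using e2

lemma Rz.mono {d d' : ℕ} (h : d ≤ d') {V : ValuationSubring F} {Q : Subring F} (hR : Rz d V Q) : Rz d' V Q := by
  obtain ⟨q, h2, hc, h1, h3⟩ := hR
  exact ⟨q, h2, hc.trans h, h1, h3⟩

/-- The local rings along the tower. -/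
lemma AD.tower [IsDomain O] [IsRegularRing O] (h : AD O y d e R A π V i δ) {M : ℕ → Submodule O F}
    (hM0 : M 0 = Submodule.span O (Set.range y)) (hfg : ∀ k, (M k).FG) (hne : ∀ k, ∃ g ∈ M k, g ≠ 0)
    (hBU : ∀ k, BU k (M k) (M (k + 1))) : ∀ k,
    (∀ Q, LR V (M k) Q →
      lo V.toSubring (chart O (Submodule.span O (Set.range y)) (y i)).toSubring ≤ Q ∧ Q ≤ A ∧
      (¬ V.valuation δ < 1 →
        Q = lo V.toSubring (chart O (Submodule.span O (Set.range y)) (y i)).toSubring)) ∧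
    Lv V (M k) (e - (k - d)) := by
  intro k
  induction k with
  | zero =>
    rw [hM0]
    refine ⟨?_, ?_⟩
    · intro Q hQ
      rw [LR.unique h.OV hQ h.LR0]
      exact ⟨le_rfl, h.tr.lo_le h.BA, fun _ => rfl⟩
    · rw [Nat.zero_sub, Nat.sub_zero]
      exact h.lv
  | succ k ih =>
    obtain ⟨ih, ihL⟩ := ih
    obtain ⟨Q, hQ⟩ := exists_LR h.OV (hfg k) (hne k)
    obtain ⟨i1, i2, i3⟩ := ih Q hQ
    obtain ⟨w1, w2⟩ := hBU k V h.OV Q hQ
    obtain ⟨hQV, hIC⟩ := LR.facts h.OV hQ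
    have hRz : Rz d V Q := h.rz i2 hQV
    obtain ⟨Q₁, hQ₁, m, hm, hr⟩ := ihL
    obtain rfl := LR.unique h.OV hQ₁ hQ
    by_cases hc : Q₁ ∈ Sg k (M k)
    · have hnreg : ¬ IsRegularLocalRing Q₁ := by
        obtain ⟨-, -, -, -, hn⟩ := hc
        exact hn
      have hδV : V.valuation δ < 1 := by
        by_contra hV
        apply hnreg
        rw [i3 hV]
        exact h.reg0 hV
      refine ⟨fun Q' hQ' => ?_, ?_⟩
      · rw [LR.unique h.OV hQ' (w1 hc)]
        refine ⟨i1.trans (le_qt _ _), ?_, fun hV => absurd hδV hV⟩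
        exact h.tr.qt_le i2 (i1 (le_lo _ _ h.δB)) hδV (fun _ => h.δ0)
      · rcases m with _ | m
        · exact absurd hr hnreg
        · refine ⟨_, w1 hc, m, by omega, ?_⟩
          rw [Function.iterate_succ_apply] at hr
          exact hr
    · refine ⟨fun Q' hQ' => ?_, ?_⟩
      · rw [LR.unique h.OV hQ' (w2 hc)]
        exact ⟨i1, i2, i3⟩
      · by_cases hreg : IsRegularLocalRing Q₁
        · exact ⟨_, w2 hc, 0, Nat.zero_le _, hreg⟩
        · have hkd : k < d := by
            by_contra hkd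
            exact hc ⟨V, h.OV, hQ, hRz.mono (not_lt.1 hkd), hreg⟩
          exact ⟨_, w2 hc, m, by omega, hr⟩

end

/-- **The main theorem.** -/
theorem main {O F : Type} [CommRing O] [Field F] [Algebra O F] [IsDomain O] [IsRegularRing O]
    [Algebra.FiniteType ℤ O] {n : ℕ} (hn : 0 < n) (y : Fin n → F) (hy : ∀ i, y i ≠ 0) :
    ∃ M : ℕ → Submodule O F, M 0 = Submodule.span O (Set.range y) ∧
      (∀ k, (M k).FG ∧ (Sg k (M k)).Finite ∧ BU k (M k) (M (k + 1))) ∧
      ∀ (L : Type) [Field L] (R : ValuationSubring L), Finite (ResidueField R) → ∀ (i : Fin n)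
        (α : (chart O (Submodule.span O (Set.range y)) (y i)).toSubring →+* R)
        (δ : (chart O (Submodule.span O (Set.range y)) (y i)).toSubring), Mn O y i (δ : F) →
        ∀ e : ℕ, α δ ∉ maximalIdeal R ^ (e + 1) → ∀ k, Nat.card (ResidueField R) + e ≤ k →
        ∃ (V : ValuationSubring F) (Q : Subring F), (∀ o, algebraMap O F o ∈ V) ∧ LR V (M k) Q ∧
          IsRegularLocalRing Q ∧
          ∃ (h : (chart O (Submodule.span O (Set.range y)) (y i)).toSubring ≤ Q) (β : Q →+* R),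
            (∀ b : (chart O (Submodule.span O (Set.range y)) (y i)).toSubring, β ⟨b, h b.2⟩ = α b) ∧
              ∀ b : Q, IsUnit (β b) → IsUnit b := by
  classical
  set M₀ : Submodule O F := Submodule.span O (Set.range y) with hM₀
  have hfg0 : M₀.FG := Submodule.fg_span (Set.finite_range y)
  have hne0 : ∃ g ∈ M₀, g ≠ 0 := ⟨y ⟨0, hn⟩, Submodule.subset_span ⟨_, rfl⟩, hy _⟩
  -- the tower
  let St : Type := {M : Submodule O F // M.FG ∧ ∃ g ∈ M, g ≠ 0}
  have hnext : ∀ (k : ℕ) (M : St), ∃ M' : St, BU k M.1 M'.1 := by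
    rintro k ⟨M, hM, hne⟩
    obtain ⟨M', h1, h2, h3⟩ := exists_BU (d := k) hM hne (Sg_fin hM hne)
    exact ⟨⟨M', h1, h2⟩, h3⟩
  choose nx hnx using hnext
  let T : ℕ → St := fun k => Nat.rec ⟨M₀, hfg0, hne0⟩ (fun k M => nx k M) k
  have hT : ∀ k, BU k (T k).1 (T (k + 1)).1 := fun k => hnx k (T k)
  refine ⟨fun k => (T k).1, rfl, fun k => ⟨(T k).2.1, Sg_fin (T k).2.1 (T k).2.2, hT k⟩, ?_⟩
  intro L _ R hf i α δ hmn e hδ k hk
  obtain ⟨A, π, hBA, hπα, hu⟩ := loc_data' (R.subtype.comp α)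
  obtain ⟨V, hV⟩ := exists_tr A π R hu
  have hbd : ∀ z : ℕ → L, (∀ k < e + 1, z k ∈ R ∧ z k ≠ 0 ∧ R.valuation (z k) < 1) →
      π ⟨δ, hBA δ.2⟩ * (∏ k ∈ Finset.range (e + 1), z k)⁻¹ ∉ R := by
    intro z hz hcon
    apply hδ
    have hz0 : ∏ k ∈ Finset.range (e + 1), z k ≠ 0 :=
      Finset.prod_ne_zero_iff.2 fun k hk => (hz k (Finset.mem_range.1 hk)).2.1
    let z' : ℕ → R := fun k => if hk : k < e + 1 then ⟨z k, (hz k hk).1⟩ else 1
    have hz' : ∀ k < e + 1, ((z' k : R) : L) = z k := fun k hk => by simp only [z', dif_pos hk]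
    have h1 : α δ = ⟨_, hcon⟩ * ∏ k ∈ Finset.range (e + 1), z' k := by
      apply Subtype.ext
      have h2 : ((∏ k ∈ Finset.range (e + 1), z' k : R) : L) = ∏ k ∈ Finset.range (e + 1), z k := by
        rw [SubmonoidClass.coe_finsetProd]
        exact Finset.prod_congr rfl fun k hk => hz' k (Finset.mem_range.1 hk)
      change ((α δ : R) : L) = π ⟨δ, hBA δ.2⟩ * (∏ k ∈ Finset.range (e + 1), z k)⁻¹ *
        ((∏ k ∈ Finset.range (e + 1), z' k : R) : L)
      rw [h2, mul_assoc, inv_mul_cancel₀ hz0, mul_one, hπα]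
      rfl
    rw [h1]
    refine Ideal.mul_mem_left _ _ ?_
    have h3 : ∏ k ∈ Finset.range (e + 1), z' k ∈ ∏ k ∈ Finset.range (e + 1), maximalIdeal R := by
      refine Ideal.prod_mem_prod fun k hk => ?_
      rw [R.valuation_lt_one_iff, hz' k (Finset.mem_range.1 hk)]
      exact (hz k (Finset.mem_range.1 hk)).2.2
    rw [Finset.prod_const, Finset.card_range] at h3
    exact h3
  have hδ0 : π ⟨δ, hBA δ.2⟩ ≠ 0 := by
    intro h0
    apply hδ
    have h1 : α δ = 0 := by
      apply Subtype.ext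
      have h2 := hπα δ
      rw [h0] at h2
      exact h2.symm
    rw [h1]
    exact Ideal.zero_mem _
  have hAD : AD O y (Nat.card (ResidueField R)) e R A π V i (δ : F) :=
    { yi := hy i
      fin := hf
      card := le_rfl
      tr := hV
      BA := hBA
      mem := fun b hb => by
        rw [hπα ⟨b, hb⟩]
        exact (α ⟨b, hb⟩).2
      δB := δ.2
      δ0 := hδ0
      mn := hmn
      bd := hbd }
  obtain ⟨hall, Q, hQ, m, hm, hr⟩ := hAD.tower (M := fun k => (T k).1) rfl (fun k => (T k).2.1)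
    (fun k => (T k).2.2) hT k
  obtain rfl : m = 0 := by omega
  obtain ⟨i1, i2, -⟩ := hall Q hQ
  obtain ⟨hQV, hIC⟩ := LR.facts hAD.OV hQ
  have hBQ : (chart O M₀ (y i)).toSubring ≤ Q := (le_lo _ _).trans i1
  have hπR : ∀ b : Q, π (Subring.inclusion i2 b) ∈ R := fun b => (hV.mem (Subring.inclusion i2 b)).1 (hQV b.2)
  refine ⟨V, Q, hAD.OV, hQ, hr, hBQ,
    (π.comp (Subring.inclusion i2)).codRestrict R.toSubring hπR, ?_, ?_⟩
  · intro b
    apply Subtype.ext
    exact hπα b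
  · intro b hb
    have h1 : ¬ R.valuation (π (Subring.inclusion i2 b)) < 1 := by
      intro hlt
      have h2 := (R.valuation_lt_one_iff ⟨_, hπR b⟩).2 hlt
      exact h2 hb
    rw [← hV.lt] at h1
    have h3 : ¬ V.valuation (b : F) < 1 := h1
    have hb0 : (b : F) ≠ 0 := by
      intro h0
      apply h3
      rw [h0, map_zero]
      exact zero_lt_one
    rw [Pool.Agent.TH188.ARC.val_lt_iff hb0, not_not] at h3
    exact isUnit_iff_exists_inv.2 ⟨⟨_, hIC b b.2 hb0 h3⟩, Subtype.ext (mul_inv_cancel₀ hb0)⟩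

end Pool.Agent.Run7.h275.AP
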