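import Pool.Agent.Run7.h275.AP3

/-!
# Normal crossings along sequences of quadratic transforms
-/

set_option autoImplicit false
set_option linter.unusedVariables false
set_option linter.unusedSectionVars false

namespace Pool.Agent.Run7.h275.AP

open IsLocalRing Pool.Agent.TH188.QS Pool.Agent.W418.LU2 Pool.Agent.H918R2.Quad Pool.Agent.TH188.ARC

section nmon

variable {F : Type} [Field F]

/-- Units times monomials with natural exponents. -/
def NMon (P : Subring F) {ι : Type} [Fintype ι] (x : ι → F) (g : F) : Prop :=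
  ∃ u, u ≠ 0 ∧ u ∈ P ∧ u⁻¹ ∈ P ∧ ∃ δ : ι → ℕ, g = u * ∏ i, x i ^ δ i

variable {P P' : Subring F} {ι κ : Type} [Fintype ι] [Fintype κ] {x : ι → F} {x' : κ → F}

lemma NMon.unit {u : F} (h0 : u ≠ 0) (h1 : u ∈ P) (h2 : u⁻¹ ∈ P) : NMon P x u :=
  ⟨u, h0, h1, h2, 0, by simp⟩

lemma NMon.one : NMon P x 1 := NMon.unit one_ne_zero P.one_mem (by rw [inv_one]; exact P.one_mem)

lemma NMon.self (i : ι) : NMon P x (x i) := by
  classical
  refine ⟨1, one_ne_zero, P.one_mem, by rw [inv_one]; exact P.one_mem, Pi.single i 1, ?_⟩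
  rw [one_mul, Finset.prod_eq_single i]
  · rw [Pi.single_eq_same, pow_one]
  · intro j _ hj
    rw [Pi.single_eq_of_ne hj, pow_zero]
  · intro h
    exact absurd (Finset.mem_univ i) h

lemma NMon.mul {g h : F} (hg : NMon P x g) (hh : NMon P x h) : NMon P x (g * h) := by
  obtain ⟨u, u0, u1, u2, δ, rfl⟩ := hg
  obtain ⟨v, v0, v1, v2, γ, rfl⟩ := hh
  refine ⟨u * v, mul_ne_zero u0 v0, P.mul_mem u1 v1, ?_, δ + γ, ?_⟩
  · rw [mul_inv]; exact P.mul_mem u2 v2
  · have h1 : ∏ i, x i ^ (δ + γ) i = (∏ i, x i ^ δ i) * ∏ i, x i ^ γ i := by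
      rw [← Finset.prod_mul_distrib]
      exact Finset.prod_congr rfl fun i _ => by rw [Pi.add_apply, pow_add]
    rw [h1]; ring

lemma NMon.pow {g : F} (hg : NMon P x g) (n : ℕ) : NMon P x (g ^ n) := by
  induction n with
  | zero => rw [pow_zero]; exact NMon.one
  | succ n ih => rw [pow_succ]; exact ih.mul hg

lemma NMon.prod {μ : Type} (s : Finset μ) {g : μ → F} (hg : ∀ i ∈ s, NMon P x (g i)) :
    NMon P x (∏ i ∈ s, g i) := by
  classical
  induction s using Finset.induction_on with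
  | empty => simpa using NMon.one
  | insert a s ha ih =>
    rw [Finset.prod_insert ha]
    exact (hg a (Finset.mem_insert_self _ _)).mul (ih fun i hi => hg i (Finset.mem_insert_of_mem hi))

lemma NMon.of_gen (hP : P ≤ P') (h : ∀ i, NMon P' x' (x i)) {g : F} (hg : NMon P x g) :
    NMon P' x' g := by
  obtain ⟨u, u0, u1, u2, δ, rfl⟩ := hg
  exact (NMon.unit u0 (hP u1) (hP u2)).mul (NMon.prod _ fun i _ => (h i).pow _)

/-- The quadratic transform of a regular local ring, with natural exponents. -/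
theorem regN_step {A : Subring F} (hA : Loc A) (h : RegP A P x) {z : F} (hz : Mi A P z) :
    ∃ (κ : Type) (_ : Fintype κ) (x' : κ → F), RegP A (qt A P) x' ∧
      (∀ g, NMon P x g → NMon (qt A P) x' g) ∧ NMon (qt A P) x' z := by
  classical
  obtain ⟨m, w, h1, hf⟩ := RegP.full h
  obtain ⟨j, hj, hzj, hj0⟩ := hf.exists_dvd hA h.PA h1.mem hz
  set y : ι ⊕ Fin m → F := Sum.elim x w with hy
  have hM : Mi A P (y j) := hz.of_dvd (h1.mem j) hj0 hj hzj
  let s : Finset (ι ⊕ Fin m) := Finset.univ.filter fun i => i ≠ j ∧ (y i)⁻¹ ∉ A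
  have hs : ∀ i ∈ s, i ≠ j ∧ (y i)⁻¹ ∉ A ∧ y i * (y j)⁻¹ ∈ A := by
    intro i hi
    obtain ⟨-, h2, h3⟩ := Finset.mem_filter.1 hi
    exact ⟨h2, h3, hM.min _ (h1.mem i) fun h => h3 h.2⟩
  have h2 := regP_qt hA h1 j hj s hs
  have h3 : lo A (Subring.closure ((P : Set F) ∪ {t | ∃ i ∈ s, t = y i * (y j)⁻¹})) = qt A P := by
    apply le_antisymm
    · refine lo_mono (Subring.closure_mono ?_)
      rintro t (ht | ⟨i, hi, rfl⟩)
      · exact Or.inl ht
      · exact Or.inr ⟨y i, h1.mem i, y j, fun h => (hs i hi).2.1 h.2, hM, rfl⟩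
    · rw [qt_eq h.PA hM]
      refine lo_mono ?_
      rw [Subring.closure_le]
      rintro t (ht | ⟨v, hv, hvn, rfl⟩)
      · exact Subring.subset_closure (Or.inl ht)
      · obtain ⟨c, hc, hc0, rfl⟩ := hf v hv hvn
        rw [Finset.sum_mul]
        refine Subring.sum_mem _ fun i _ => ?_
        rw [mul_assoc]
        by_cases hi : c i = 0
        · rw [hi, zero_mul]; exact Subring.zero_mem _
        · refine Subring.mul_mem _ (Subring.subset_closure (Or.inl (hc i))) ?_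
          by_cases hij : i = j
          · rw [hij, mul_inv_cancel₀ hj0]
            exact Subring.one_mem _
          · exact Subring.subset_closure (Or.inr ⟨i, Finset.mem_filter.2
              ⟨Finset.mem_univ _, hij, hc0 i hi⟩, rfl⟩)
  rw [h3] at h2
  refine ⟨ι ⊕ Fin m, inferInstance, _, h2, ?_, ?_⟩
  · intro g hg
    refine NMon.of_gen (le_qt A P) ?_ hg
    have key : ∀ i : ι ⊕ Fin m, NMon (qt A P)
        (fun i => if i ∈ s then y i * (y j)⁻¹ else y i) (y i) := by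
      intro i
      have hjs : j ∉ s := fun h => (hs j h).1 rfl
      by_cases hi : i ∈ s
      · have e1 := NMon.self (P := qt A P) (x := fun i => if i ∈ s then y i * (y j)⁻¹ else y i) i
        have e2 := NMon.self (P := qt A P) (x := fun i => if i ∈ s then y i * (y j)⁻¹ else y i) j
        have e3 := e1.mul e2
        simp only [if_pos hi, if_neg hjs] at e3
        rwa [inv_mul_cancel_right₀ hj0] at e3
      · have e1 := NMon.self (P := qt A P) (x := fun i => if i ∈ s then y i * (y j)⁻¹ else y i) i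
        simp only [if_neg hi] at e1
        exact e1
    exact fun i => key (Sum.inl i)
  · have hjs : j ∉ s := fun h => (hs j h).1 rfl
    have e2 := NMon.self (P := qt A P) (x := fun i => if i ∈ s then y i * (y j)⁻¹ else y i) j
    simp only [if_neg hjs] at e2
    have e3 : NMon (qt A P) (fun i => if i ∈ s then y i * (y j)⁻¹ else y i) (z * (y j)⁻¹) := by
      refine NMon.unit (mul_ne_zero hz.ne (inv_ne_zero hj0)) (div_mem_qt hM hz.mem hz.NU) ?_
      rw [mul_inv, inv_inv, mul_comm]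
      exact div_mem_qt hz (h1.mem j) fun h => hj h.2
    have e4 := e3.mul e2
    rwa [inv_mul_cancel_right₀ hj0] at e4

end nmon

section nc

variable {O F : Type} [CommRing O] [Field F] [Algebra O F]

/-- The ideal, in the local ring `Q` of a model which dominates `Proj O[M₀]`, of the closed subscheme which is defined by
the homogeneous elements `N` of degree `c`. -/
def DI (M₀ N : Submodule O F) (c : ℕ) (Q : Subring F) : Ideal Q :=
  Ideal.span {b : Q | ∃ w ∈ M₀, w ≠ 0 ∧ (∀ m ∈ M₀, m / w ∈ Q) ∧ ∃ n ∈ N, (b : F) = n / w ^ c}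

/-- Normal crossings. -/
def NCr (M₀ N : Submodule O F) (c : ℕ) (Q : Subring F) : Prop :=
  ∃ (_ : IsRegularLocalRing Q) (r : ℕ) (x : Fin r → Q) (α : Fin r → ℕ),
    Ideal.span (Set.range x) = maximalIdeal Q ∧ ringKrullDim Q = r ∧
      DI M₀ N c Q = Ideal.span {∏ i, x i ^ α i}

theorem ncr_of {M₀ N : Submodule O F} {c : ℕ} {A P : Subring F} {ι : Type} [Fintype ι] {x : ι → F}
    (h : RegP A P x) {g : F} (hg : NMon P x g) {w : F} (hw : w ∈ M₀) (hw0 : w ≠ 0)
    (hwP : ∀ m ∈ M₀, m / w ∈ P) (hN : ∀ n ∈ N, n / w ^ c * g⁻¹ ∈ P) {n₁ : F} (hn₁ : n₁ ∈ N)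
    (hn₁0 : n₁ ≠ 0) (hu : (n₁ / w ^ c * g⁻¹)⁻¹ ∈ A) : NCr M₀ N c P := by
  classical
  have hreg := h.reg
  let J := {i : ι // (⟨x i, h.mem i⟩ : P) ∈ maximalIdeal P}
  have h0 : Ind (fun i : J => (⟨x i, h.mem i⟩ : P)) :=
    h.ind.ind (Subtype.val : J → ι) Subtype.val_injective fun i => i.2
  obtain ⟨m, w', hspan, hd⟩ := h0.extend
  obtain ⟨u, u0, u1, u2, δ, hgδ⟩ := hg
  let e := Fintype.equivFin (J ⊕ Fin m)
  let X : J ⊕ Fin m → P := Sum.elim (fun i : J => (⟨x i, h.mem i⟩ : P)) w'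
  let η : J ⊕ Fin m → ℕ := Sum.elim (fun i => δ i) fun _ => 0
  have hxu : ∀ i, ¬ ((⟨x i, h.mem i⟩ : P) ∈ maximalIdeal P) → (x i)⁻¹ ∈ P := by
    intro i hi
    rw [h.mem_max, not_not] at hi
    exact h.inv _ (h.mem i) (h.ne i) hi.2
  have hw0c : w ^ c ≠ 0 := pow_ne_zero _ hw0
  -- the unit
  have hx0 : ∀ i, x i ≠ 0 := h.ne
  have hg0 : g ≠ 0 := by
    rw [hgδ]
    exact mul_ne_zero u0 (Finset.prod_ne_zero_iff.2 fun i _ => pow_ne_zero _ (hx0 i))
  have hprod : ∏ i, x i ^ δ i = (∏ i ∈ Finset.univ.filter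
      (fun i => ¬ (⟨x i, h.mem i⟩ : P) ∈ maximalIdeal P), x i ^ δ i) * ∏ i : J, x i ^ δ i := by
    rw [mul_comm, ← Finset.prod_filter_mul_prod_filter_not Finset.univ
      (fun i => (⟨x i, h.mem i⟩ : P) ∈ maximalIdeal P)]
    congr 1
    exact (Finset.prod_subtype _ (fun i => by simp) (fun i => x i ^ δ i))
  set v : F := u * ∏ i ∈ Finset.univ.filter
      (fun i => ¬ (⟨x i, h.mem i⟩ : P) ∈ maximalIdeal P), x i ^ δ i with hv
  have hvP : v ∈ P := P.mul_mem u1 (P.prod_mem fun i _ => P.pow_mem (h.mem i) _)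
  have hviP : v⁻¹ ∈ P := by
    rw [hv, mul_inv, ← Finset.prod_inv_distrib]
    refine P.mul_mem u2 (P.prod_mem fun i hi => ?_)
    rw [← inv_pow]
    exact P.pow_mem (hxu i (Finset.mem_filter.1 hi).2) _
  have hv0 : v ≠ 0 := mul_ne_zero u0 (Finset.prod_ne_zero_iff.2 fun i _ => pow_ne_zero _ (hx0 i))
  have hgv : g = v * ∏ i : J, x i ^ δ i := by rw [hgδ, hprod, hv, mul_assoc]
  have hpr : ((∏ i, X (e.symm i) ^ η (e.symm i) : P) : F) = ∏ i : J, x i ^ δ i := by
    rw [e.symm.prod_comp (fun i => X i ^ η i), Fintype.prod_sum_type]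
    have h1 : ∏ i : Fin m, X (Sum.inr i) ^ η (Sum.inr i) = 1 :=
      Finset.prod_eq_one fun i _ => pow_zero _
    rw [h1, mul_one, SubmonoidClass.coe_finsetProd]
    rfl
  have hgm : v⁻¹ * g = ((∏ i, X (e.symm i) ^ η (e.symm i) : P) : F) := by
    rw [hpr, hgv, inv_mul_cancel_left₀ hv0]
  refine ⟨hreg, Fintype.card (J ⊕ Fin m), fun i => X (e.symm i), fun i => η (e.symm i), ?_, ?_, ?_⟩
  · refine Eq.trans ?_ hspan
    congr 1
    ext z
    constructor
    · rintro ⟨i, rfl⟩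
      exact ⟨_, rfl⟩
    · rintro ⟨i, rfl⟩
      exact ⟨e i, by simp [X]⟩
  · rw [hd, Fintype.card_sum, Fintype.card_fin]
  · apply le_antisymm
    · refine Ideal.span_le.2 ?_
      rintro b ⟨w₁, hw₁, hw₁0, hw₁P, n, hn, hb⟩
      rw [SetLike.mem_coe, Ideal.mem_span_singleton']
      have h2 : n / w ^ c * g⁻¹ * v * (w / w₁) ^ c ∈ P :=
        P.mul_mem (P.mul_mem (hN n hn) hvP) (P.pow_mem (hw₁P w hw) _)
      refine ⟨⟨_, h2⟩, Subtype.ext ?_⟩
      change n / w ^ c * g⁻¹ * v * (w / w₁) ^ c * ((∏ i, X (e.symm i) ^ η (e.symm i) : P) : F) = b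
      rw [← hgm, hb, div_pow]
      have := pow_ne_zero c hw₁0
      field_simp
    · rw [Ideal.span_singleton_le_iff_mem]
      have h3 : (n₁ / w ^ c * g⁻¹)⁻¹ ∈ P := h.inv _ (hN n₁ hn₁)
        (mul_ne_zero (div_ne_zero hn₁0 hw0c) (inv_ne_zero hg0)) hu
      have hn₁P : n₁ / w ^ c ∈ P := by
        have h4 : n₁ / w ^ c = n₁ / w ^ c * g⁻¹ * g := by
          rw [mul_assoc, inv_mul_cancel₀ hg0, mul_one]
        rw [h4]
        refine P.mul_mem (hN n₁ hn₁) ?_
        rw [hgv]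
        exact P.mul_mem hvP (P.prod_mem fun i _ => P.pow_mem (h.mem i) _)
      have h4 : (∏ i, X (e.symm i) ^ η (e.symm i) : P) =
          ⟨v⁻¹ * (n₁ / w ^ c * g⁻¹)⁻¹, P.mul_mem hviP h3⟩ * ⟨n₁ / w ^ c, hn₁P⟩ := by
        apply Subtype.ext
        rw [← hgm]
        change v⁻¹ * g = v⁻¹ * (n₁ / w ^ c * g⁻¹)⁻¹ * (n₁ / w ^ c)
        field_simp
      rw [h4]
      exact Ideal.mul_mem_left _ _ (Ideal.subset_span ⟨w, hw, hw0, hwP, n₁, hn₁, rfl⟩)

/-- The number of steps. -/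
theorem level_nc {M₀ N : Submodule O F} {c : ℕ} {V : ValuationSubring F} {B : Subring F}
    (hBV : B ≤ V.toSubring) {w : F} (hw : w ∈ M₀) (hw0 : w ≠ 0) (hwB : ∀ m ∈ M₀, m / w ∈ B)
    (hNB : ∀ n ∈ N, n / w ^ c ∈ B) {Q : ℕ → Subring F} (hQV : ∀ n, Q n ≤ V.toSubring)
    (hBQ : ∀ n, B ≤ Q n) (hIC : ∀ n, IC V.toSubring (Q n))
    (hQs : ∀ n, Q (n + 1) = qt V.toSubring (Q n)) (hmi : ∀ n, ∃ e, Mi V.toSubring (Q n) e)
    {δ : F} (hδV : δ ∈ V) (hreg : ∀ n, (∀ z : ℕ → F,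
      (∀ i < n, z i ∈ Q i ∧ z i ≠ 0 ∧ V.valuation (z i) < 1) →
        δ * (∏ i ∈ Finset.range n, z i)⁻¹ ∉ V) → ∃ m < n, IsRegularLocalRing (Q m))
    {n₀ : F} (hn₀ : n₀ ∈ N) {e : ℕ} (hb : ∀ z : ℕ → F,
      (∀ i < e + 1, z i ∈ Q i ∧ z i ≠ 0 ∧ V.valuation (z i) < 1) →
        δ * (n₀ / w ^ c) * (∏ i ∈ Finset.range (e + 1), z i)⁻¹ ∉ V) :
    ∃ m ≤ e, NCr M₀ N c (Q m) := by
  classical
  by_contra hcon
  push Not at hcon
  have hw0c : w ^ c ≠ 0 := pow_ne_zero _ hw0
  have haV : n₀ / w ^ c ∈ V := hBV (hNB n₀ hn₀)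
  -- the steps at nonregular rings
  have hex : ∃ m, e + 1 ≤ m ∨ IsRegularLocalRing (Q m) := ⟨e + 1, Or.inl le_rfl⟩
  obtain ⟨m₀, hm₀, hmin⟩ : ∃ m₀, (e + 1 ≤ m₀ ∨ IsRegularLocalRing (Q m₀)) ∧
      ∀ k < m₀, ¬ (e + 1 ≤ k ∨ IsRegularLocalRing (Q k)) :=
    ⟨Nat.find hex, Nat.find_spec hex, fun k hk => Nat.find_min hex hk⟩
  have hm₀e : m₀ ≤ e + 1 := by
    by_contra h
    push Not at h
    exact hmin (e + 1) h (Or.inl le_rfl)
  obtain ⟨z, hz, hzV⟩ : ∃ z : ℕ → F, (∀ i < m₀, z i ∈ Q i ∧ z i ≠ 0 ∧ V.valuation (z i) < 1) ∧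
      δ * (∏ i ∈ Finset.range m₀, z i)⁻¹ ∈ V := by
    by_contra h
    push Not at h
    obtain ⟨m, hm, hr⟩ := hreg m₀ (fun z hz hV => h z hz hV)
    exact hmin m hm (Or.inr hr)
  by_cases hcase : e + 1 ≤ m₀
  · obtain rfl : m₀ = e + 1 := le_antisymm hm₀e hcase
    apply hb z hz
    have h1 : δ * (n₀ / w ^ c) * (∏ i ∈ Finset.range (e + 1), z i)⁻¹ =
        δ * (∏ i ∈ Finset.range (e + 1), z i)⁻¹ * (n₀ / w ^ c) := by ring
    rw [h1]
    exact V.mul_mem _ _ hzV haV
  · have hr₀ : IsRegularLocalRing (Q m₀) := by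
      rcases hm₀ with h | h
      · exact absurd h hcase
      · exact h
    have key : ∀ j, m₀ + j ≤ e + 1 → ∃ (z' : ℕ → F) (κ : Type) (_ : Fintype κ) (x' : κ → F),
        (∀ k < j, z' k ∈ Q (m₀ + k) ∧ z' k ≠ 0 ∧ V.valuation (z' k) < 1) ∧
        RegP V.toSubring (Q (m₀ + j)) x' ∧ NMon (Q (m₀ + j)) x' (∏ k ∈ Finset.range j, z' k) ∧
        ∀ n ∈ N, n / w ^ c * (∏ k ∈ Finset.range j, z' k)⁻¹ ∈ Q (m₀ + j) := by
      intro j
      induction j with
      | zero =>
        intro _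
        refine ⟨fun _ => 1, Empty, inferInstance, Empty.elim, fun k hk => absurd hk (Nat.not_lt_zero _),
          RegP.of_reg (hQV m₀) (hIC m₀) hr₀, ?_, ?_⟩
        · rw [Finset.range_zero, Finset.prod_empty]
          exact NMon.one
        · intro n hn
          rw [Finset.range_zero, Finset.prod_empty, inv_one, mul_one]
          exact hBQ _ (hNB n hn)
      | succ j ih =>
        intro hj
        obtain ⟨z', κ, _, x', h1, h2, h3, h4⟩ := ih (by omega)
        have hnc := hcon (m₀ + j) (by omega)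
        set g := ∏ k ∈ Finset.range j, z' k with hg
        have hg0 : g ≠ 0 := Finset.prod_ne_zero_iff.2 fun k hk => (h1 k (Finset.mem_range.1 hk)).2.1
        have h5 : ∀ n ∈ N, NU V.toSubring (n / w ^ c * g⁻¹) := by
          rintro n hn ⟨h6, h7⟩
          have hn0 : n ≠ 0 := by
            intro h0
            apply h6
            rw [h0, zero_div, zero_mul]
          exact hnc (ncr_of h2 h3 hw hw0 (fun m hm => hBQ _ (hwB m hm)) h4 hn hn0 h7)
        obtain ⟨ε, hε⟩ := hmi (m₀ + j)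
        obtain ⟨κ', hκ', x'', r1, r2, r3⟩ := regN_step (loc_V V) h2 hε
        have hQj : Q (m₀ + (j + 1)) = qt V.toSubring (Q (m₀ + j)) := hQs (m₀ + j)
        let z'' : ℕ → F := fun k => if k < j then z' k else ε
        have hz'' : ∏ k ∈ Finset.range (j + 1), z'' k = g * ε := by
          rw [Finset.prod_range_succ]
          congr 1
          · exact Finset.prod_congr rfl fun k hk => if_pos (Finset.mem_range.1 hk)
          · exact if_neg (lt_irrefl _)
        refine ⟨z'', κ', hκ', x'', ?_, ?_, ?_, ?_⟩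
        · intro k hk
          by_cases hkj : k < j
          · simp only [z'', if_pos hkj]
            exact h1 k hkj
          · obtain rfl : k = j := by omega
            simp only [z'', if_neg hkj]
            exact ⟨hε.mem, hε.ne, (Pool.Agent.TH188.ARC.val_lt_iff hε.ne).2 hε.nu⟩
        · rw [hQj]; exact r1
        · rw [hz'', hQj]
          exact (r2 _ h3).mul r3
        · intro n hn
          rw [hz'', hQj, mul_inv, ← mul_assoc]
          exact div_mem_qt hε (h4 n hn) (h5 n hn)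
    obtain ⟨z', κ, _, x', h1, h2, h3, h4⟩ := key (e + 1 - m₀) (by omega)
    let ζ : ℕ → F := fun k => if k < m₀ then z k else z' (k - m₀)
    apply hb ζ
    · intro k hk
      by_cases hkm : k < m₀
      · simp only [ζ, if_pos hkm]
        exact hz k hkm
      · simp only [ζ, if_neg hkm]
        have := h1 (k - m₀) (by omega)
        rwa [show m₀ + (k - m₀) = k by omega] at this
    · have hζ : ∏ k ∈ Finset.range (e + 1), ζ k =
          (∏ k ∈ Finset.range m₀, z k) * ∏ k ∈ Finset.range (e + 1 - m₀), z' k := by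
        have he : e + 1 = m₀ + (e + 1 - m₀) := by omega
        conv_lhs => rw [he, Finset.prod_range_add]
        congr 1
        · exact Finset.prod_congr rfl fun k hk => if_pos (Finset.mem_range.1 hk)
        · refine Finset.prod_congr rfl fun k hk => ?_
          simp only [ζ, if_neg (show ¬ m₀ + k < m₀ by omega), Nat.add_sub_cancel_left]
      rw [hζ]
      have h5 : δ * (n₀ / w ^ c) * ((∏ k ∈ Finset.range m₀, z k) *
          ∏ k ∈ Finset.range (e + 1 - m₀), z' k)⁻¹ = δ * (∏ k ∈ Finset.range m₀, z k)⁻¹ *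
          (n₀ / w ^ c * (∏ k ∈ Finset.range (e + 1 - m₀), z' k)⁻¹) := by
        rw [mul_inv]; ring
      rw [h5]
      exact V.mul_mem _ _ hzV (hQV _ (h4 n₀ hn₀))

end nc

end Pool.Agent.Run7.h275.AP
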