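import Pool.Agent.Run7.h275.AP4

/-!
# Towers of point blow-ups: regular with normal crossings
-/

set_option autoImplicit false
set_option linter.unusedVariables false
set_option linter.unusedSectionVars false

namespace Pool.Agent.Run7.h275.AP

open IsLocalRing Pool.Agent.TH188.QS Pool.Agent.W418.LU2 Pool.Agent.H918R2.Quad Pool.Agent.TH188.ARC

section

variable {O F : Type} [CommRing O] [Field F] [Algebra O F]

/-- The local rings of the closed points of the model with residue fields with at most `d` elements and the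
property `Bd`. -/
def SB (Bd : Subring F → Prop) (d : ℕ) (M : Submodule O F) : Set (Subring F) :=
  {Q | ∃ V : ValuationSubring F, (∀ o, algebraMap O F o ∈ V) ∧ LR V M Q ∧ Rz d V Q ∧ Bd Q}

/-- `M'` is the blowing-up of `M` in the points `SB Bd d M`. -/
def BUB (Bd : Subring F → Prop) (d : ℕ) (M M' : Submodule O F) : Prop :=
  ∀ W : ValuationSubring F, (∀ o, algebraMap O F o ∈ W) → ∀ Q, LR W M Q →
    (Q ∈ SB Bd d M → LR W M' (qt W.toSubring Q)) ∧ (Q ∉ SB Bd d M → LR W M' Q)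

theorem exists_BUB [IsNoetherianRing O] {Bd : Subring F → Prop} {d : ℕ} {M : Submodule O F} (hM : M.FG)
    (hMne : ∃ g ∈ M, g ≠ 0) (hB : ∀ V : ValuationSubring F, (∀ o, algebraMap O F o ∈ V) → ∀ Q, LR V M Q → Bd Q →
      ∃ y ∈ Q, y ≠ 0 ∧ V.valuation y < 1) (hfin : (SB Bd d M).Finite) :
    ∃ M' : Submodule O F, M'.FG ∧ (∃ g ∈ M', g ≠ 0) ∧ BUB Bd d M M' := by
  classical
  have key : ∀ T : Finset (Subring F), (∀ Q ∈ T, Q ∈ SB Bd d M) →
      ∃ M' : Submodule O F, M'.FG ∧ (∃ g ∈ M', g ≠ 0) ∧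
        ∀ W : ValuationSubring F, (∀ o, algebraMap O F o ∈ W) → ∀ Q, LR W M Q →
          (Q ∈ T → LR W M' (qt W.toSubring Q)) ∧ (Q ∉ T → LR W M' Q) := by
    intro T
    induction T using Finset.induction_on with
    | empty =>
      intro _
      exact ⟨M, hM, hMne, fun W hW Q hQ => ⟨fun h => absurd h (Finset.notMem_empty _), fun _ => hQ⟩⟩
    | insert Q₀ T hQ₀T ih =>
      intro hT
      obtain ⟨M₁, hM₁, hM₁ne, h1⟩ := ih fun Q hQ => hT Q (Finset.mem_insert_of_mem hQ)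
      obtain ⟨V, hOV, hVQ, hRz, hbd⟩ := hT Q₀ (Finset.mem_insert_self _ _)
      have hVQ₁ : LR V M₁ Q₀ := (h1 V hOV Q₀ hVQ).2 hQ₀T
      obtain ⟨M₂, hM₂, hne₂, hst⟩ := step_all_LR' hOV hM₁ hVQ₁ (hB V hOV Q₀ hVQ hbd)
        (fun j hj hj0 hjV => max_rz hOV hVQ₁ hRz hj hj0 hjV)
      refine ⟨M₂, hM₂, hne₂, fun W hOW Q hQ => ⟨fun hQT => ?_, fun hQT => ?_⟩⟩
      · by_cases hc : Q ∈ T
        · have h2 := (h1 W hOW Q hQ).1 hc
          refine (hst W hOW _ h2).2 fun h3 => hQ₀T ?_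
          obtain ⟨h4, h5⟩ := LR.facts hOW h2
          rw [h3] at h4 h5
          rw [LR.unique hOW (LR.transfer hOV hOW hVQ h4 h5) hQ]
          exact hc
        · have hQQ : Q = Q₀ := by
            rcases Finset.mem_insert.1 hQT with h | h
            · exact h
            · exact absurd h hc
          exact ((hst W hOW _ ((h1 W hOW Q hQ).2 hc)).1 hQQ).2.2.2
      · have hQ1 : Q ∉ T := fun h => hQT (Finset.mem_insert_of_mem h)
        have hQ2 : Q ≠ Q₀ := fun h => hQT (h ▸ Finset.mem_insert_self _ _)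
        exact (hst W hOW Q ((h1 W hOW Q hQ).2 hQ1)).2 hQ2
  obtain ⟨M', hM', hM'ne, h1⟩ := key hfin.toFinset (fun Q hQ => by
    rw [Set.Finite.mem_toFinset] at hQ
    exact hQ)
  refine ⟨M', hM', hM'ne, fun W hOW Q hQ => ?_⟩
  have h2 := h1 W hOW Q hQ
  rwa [Set.Finite.mem_toFinset] at h2

theorem SB_fin [Algebra.FiniteType ℤ O] {Bd : Subring F → Prop} {d : ℕ} {M : Submodule O F} (hM : M.FG)
    (hne : ∃ g ∈ M, g ≠ 0) : (SB Bd d M).Finite := by
  have h := finite_centres' hM hne (N := d.factorial) (Nat.factorial_ne_zero d) d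
    {V | (∀ o, algebraMap O F o ∈ V) ∧ ∃ Q, LR V M Q ∧ Rz d V Q} (fun W hW => hW.1) ?_ ?_
  · refine h.subset ?_
    rintro Q ⟨V, hOV, hQ, hR, -⟩
    exact ⟨V, ⟨hOV, Q, hQ, hR⟩, hQ⟩
  · rintro W ⟨hOW, Q, hQ, q, h2, hc, h1, -⟩
    obtain ⟨k, hk⟩ : q ∣ d.factorial := Nat.dvd_factorial (by omega) hc
    rw [hk, Nat.cast_mul, map_mul]
    refine mul_lt_one_aux' h1 ?_
    have : ((k : ℕ) : F) ∈ W := natCast_mem W k
    exact (W.valuation_le_one_iff _).2 this
  · rintro W ⟨hOW, Q, hQ, hR⟩ Q' hQ'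
    rw [LR.unique hOW hQ' hQ]
    exact hR

/-- The model dominates `M₀`. -/
def Dm (M₀ M : Submodule O F) : Prop :=
  ∀ V : ValuationSubring F, (∀ o, algebraMap O F o ∈ V) → ∀ Q, LR V M Q →
    ∃ w ∈ M₀, w ≠ 0 ∧ ∀ m ∈ M₀, m / w ∈ Q

lemma Dm.self (M₀ : Submodule O F) : Dm M₀ M₀ := by
  rintro V hOV Q ⟨g, hg, hg0, hgV, rfl⟩
  exact ⟨g, hg, hg0, fun m hm => le_lo _ _ (Algebra.subset_adjoin ⟨m, hm, rfl⟩)⟩

lemma Dm.next {M₀ M M' : Submodule O F} (h : Dm M₀ M) (hM : M.FG) (hne : ∃ g ∈ M, g ≠ 0)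
    {Bd : Subring F → Prop} {d : ℕ} (hBU : BUB Bd d M M') : Dm M₀ M' := by
  intro V hOV Q' hQ'
  obtain ⟨Q, hQ⟩ := exists_LR hOV hM hne
  obtain ⟨w, hw, hw0, hwQ⟩ := h V hOV Q hQ
  obtain ⟨h1, h2⟩ := hBU V hOV Q hQ
  by_cases hc : Q ∈ SB Bd d M
  · rw [LR.unique hOV hQ' (h1 hc)]
    exact ⟨w, hw, hw0, fun m hm => le_qt _ _ (hwQ m hm)⟩
  · rw [LR.unique hOV hQ' (h2 hc)]
    exact ⟨w, hw, hw0, hwQ⟩

/-- Fields have normal crossings. -/
lemma field_ncr {M₀ N : Submodule O F} {c : ℕ} {V : ValuationSubring F} {Q : Subring F}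
    (hQV : Q ≤ V.toSubring) (hIC : IC V.toSubring Q)
    {w : F} (hw : w ∈ M₀) (hw0 : w ≠ 0) (hwQ : ∀ m ∈ M₀, m / w ∈ Q) (hNM : N ≤ M₀ ^ c)
    {n₁ : F} (hn₁ : n₁ ∈ N) (hn₁0 : n₁ ≠ 0) (hOQ : ∀ o, algebraMap O F o ∈ Q)
    (h : ¬ ∃ y ∈ Q, y ≠ 0 ∧ V.valuation y < 1) : NCr M₀ N c Q := by
  have hNQ : ∀ n ∈ N, n / w ^ c ∈ Q := by
    let Q' : Subalgebra O F := { Q with algebraMap_mem' := hOQ }
    have h1 : chart O M₀ w ≤ Q' := Algebra.adjoin_le (by
      rintro _ ⟨m, hm, rfl⟩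
      exact hwQ m hm)
    intro n hn
    exact h1 (pow_div_mem hw0 c n (hNM hn))
  have hreg := field_regular hQV hIC h
  refine ncr_of (RegP.of_reg hQV hIC hreg) (NMon.one) hw hw0 hwQ (fun n hn => ?_) hn₁ hn₁0 ?_
  · rw [inv_one, mul_one]
    exact hNQ n hn
  · rw [inv_one, mul_one]
    have h0 : n₁ / w ^ c ≠ 0 := div_ne_zero hn₁0 (pow_ne_zero _ hw0)
    have h2 : ¬ V.valuation (n₁ / w ^ c) < 1 := fun h2 => h ⟨_, hNQ n₁ hn₁, h0, h2⟩
    rw [Pool.Agent.TH188.ARC.val_lt_iff h0, not_not] at h2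
    exact h2

/-- The level is bounded by the value of a minor of the Jacobian matrix and an element of the ideal. -/
theorem lv_ncr [IsDomain O] [IsRegularRing O] {n : ℕ} (y : Fin n → F) (i : Fin n) (hyi : y i ≠ 0)
    {N : Submodule O F} {c : ℕ} (hNM : N ≤ (Submodule.span O (Set.range y)) ^ c)
    {V : ValuationSubring F} (hOV : ∀ o, algebraMap O F o ∈ V) (hV : ∀ j, y j / y i ∈ V) {r : ℕ}
    (f : Fin r → MvPolynomial (Fin n) O)
    (D : Fin r → Derivation ℤ (MvPolynomial (Fin n) O) (MvPolynomial (Fin n) O))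
    (hf : ∀ k, MvPolynomial.aeval (fun j => y j / y i) (f k) = 0)
    (hgen : ∀ s : MvPolynomial (Fin n) O, MvPolynomial.aeval (fun j => y j / y i) s = 0 →
      ∃ t, MvPolynomial.aeval (fun j => y j / y i) t ≠ 0 ∧ t * s ∈ Ideal.span (Set.range f))
    {n₀ : F} (hn₀ : n₀ ∈ N) (hn₀0 : n₀ ≠ 0) {e : ℕ} (hδ : ∀ z : ℕ → F, (∀ k < e + 1,
      z k ∈ qseq V (chart O (Submodule.span O (Set.range y)) (y i)).toSubring k ∧ z k ≠ 0 ∧
        V.valuation (z k) < 1) →
      (Matrix.of fun k l => MvPolynomial.aeval (fun j => y j / y i) (D l (f k))).det * (n₀ / y i ^ c) *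
        (∏ i ∈ Finset.range (e + 1), z i)⁻¹ ∉ V) :
    ∃ Q, LR V (Submodule.span O (Set.range y)) Q ∧
      ∃ m ≤ e, NCr (Submodule.span O (Set.range y)) N c ((qt V.toSubring)^[m] Q : Subring F) := by
  classical
  let S := MvPolynomial (Fin n) O
  let φ : S →+* F := (MvPolynomial.aeval (fun j => y j / y i) : S →ₐ[O] F).toRingHom
  have hφr : φ.range = (chart O (Submodule.span O (Set.range y)) (y i)).toSubring := by
    rw [chart_span, Algebra.adjoin_range_eq_range_aeval]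
    rfl
  have hMV : ∀ m ∈ Submodule.span O (Set.range y), m / y i ∈ V := by
    intro m hm
    induction hm using Submodule.span_induction with
    | mem m hm => obtain ⟨j, rfl⟩ := hm; exact hV j
    | zero => rw [zero_div]; exact V.zero_mem
    | add a b _ _ ha hb => rw [add_div]; exact V.add_mem _ _ ha hb
    | smul c a _ ha =>
      rw [Algebra.smul_def, mul_div_assoc]
      exact V.mul_mem _ _ (hOV c) ha
  have hBV := chart_le_V hOV hMV
  have hrV : φ.range ≤ V.toSubring := by rw [hφr]; exact hBV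
  have hLR : LR V (Submodule.span O (Set.range y)) (lo V.toSubring φ.range) :=
    ⟨y i, Submodule.subset_span ⟨i, rfl⟩, hyi, hMV, by rw [hφr]⟩
  have hyM : y i ∈ Submodule.span O (Set.range y) := Submodule.subset_span ⟨i, rfl⟩
  have hwB : ∀ m ∈ Submodule.span O (Set.range y), m / y i ∈ φ.range := fun m hm => by
    rw [hφr]; exact Algebra.subset_adjoin ⟨m, hm, rfl⟩
  by_cases hne0 : ∃ y ∈ φ.range, y ≠ 0 ∧ V.valuation y < 1
  · have hφV : ∀ s, φ s ∈ V := fun s => hrV ⟨s, rfl⟩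
    have hD : ∀ j, Der φ (fun s => φ (D j s)) := fun j =>
      { add := fun a b => by rw [map_add, map_add]
        mul := fun a b => by
          rw [Derivation.leibniz, smul_eq_mul, smul_eq_mul, map_add, map_mul, map_mul] }
    have hnoe : IsNoetherianRing φ.range := isNoetherianRing_of_surjective _ _ φ.rangeRestrict
      φ.rangeRestrict_surjective
    obtain ⟨-, hmi⟩ := seq_fg (Q := qseq V φ.range) hrV hne0 rfl (fun n => rfl)
    obtain ⟨b1, b2, b3, b4, b5⟩ := seq_basic (Q := qseq V φ.range) hrV hne0 rfl (fun n => rfl)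
    obtain ⟨m, hm, hnc⟩ := level_nc (M₀ := Submodule.span O (Set.range y)) (N := N) (c := c) (V := V)
      (B := φ.range) hrV hyM hyi hwB (fun n hn => by
        rw [hφr]
        exact pow_div_mem hyi c n (hNM hn)) (Q := qseq V φ.range) b1
      b3 b4 (fun n => rfl) hmi (δ := (Matrix.of fun k l => φ (D l (f k))).det)
      (by
        have h1 : (Matrix.of fun k l => φ (D l (f k))).det =
            φ (Matrix.of fun k l => D l (f k)).det := by
          rw [RingHom.map_det]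
          rfl
        rw [h1]
        exact hφV _)
      (fun n hn => exists_regular_lt (Q := qseq V φ.range) hφV hD (C := 1) one_ne_zero
        (fun j s => by rw [one_mul]; exact hφV _) hf hgen rfl (fun n => rfl) hmi (n := n) (by
          intro z hz
          rw [one_pow, one_mul]
          exact hn z hz)) hn₀ (e := e) (by
        intro z hz
        rw [hφr] at hz
        exact hδ z hz)
    refine ⟨_, hLR, m, by omega, ?_⟩
    rw [← qseq_eq]
    exact hnc
  · have hno : ¬ ∃ x ∈ lo V.toSubring φ.range, x ≠ 0 ∧ V.valuation x < 1 := by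
      rintro ⟨x, ⟨a, ha, c, hc, hc0, hci, rfl⟩, hx0, hxV⟩
      refine hne0 ⟨a, ha, fun h => hx0 (by rw [h, zero_mul]), ?_⟩
      have h1 : a = a * c⁻¹ * c := by rw [mul_assoc, inv_mul_cancel₀ hc0, mul_one]
      rw [h1, map_mul]
      exact mul_lt_one_aux' hxV ((V.valuation_le_one_iff _).2 (hrV hc))
    refine ⟨_, hLR, 0, Nat.zero_le _, field_ncr (V := V) (lo_le hrV) (ic_lo hrV) hyM hyi
      (fun m hm => le_lo _ _ (hwB m hm)) hNM hn₀ hn₀0 (fun o => le_lo _ _ ?_) hno⟩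
    rw [hφr]
    exact Subalgebra.algebraMap_mem _ o

end

section

variable (O : Type) {F : Type} [CommRing O] [Field F] [Algebra O F]

/-- The data of a point with values in `R`. -/
structure AE {n : ℕ} (y : Fin n → F) (N : Submodule O F) (c : ℕ) (d e : ℕ) {L : Type} [Field L]
    (R : ValuationSubring L) (A : Subring F) (π : A →+* L) (V : ValuationSubring F) (i : Fin n) (δ n₀ : F) :
    Prop where
  yi : y i ≠ 0
  fin : Finite (ResidueField R)
  card : Nat.card (ResidueField R) ≤ d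
  tr : Tr A π R V
  BA : (chart O (Submodule.span O (Set.range y)) (y i)).toSubring ≤ A
  mem : ∀ b (hb : b ∈ (chart O (Submodule.span O (Set.range y)) (y i)).toSubring), π ⟨b, BA hb⟩ ∈ R
  δB : δ * (n₀ / y i ^ c) ∈ (chart O (Submodule.span O (Set.range y)) (y i)).toSubring
  δ0 : π ⟨δ * (n₀ / y i ^ c), BA δB⟩ ≠ 0
  mn : Mn O y i δ
  NM : N ≤ (Submodule.span O (Set.range y)) ^ c
  nN : n₀ ∈ N
  bd : ∀ z : ℕ → L, (∀ k < e + 1, z k ∈ R ∧ z k ≠ 0 ∧ R.valuation (z k) < 1) →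
    π ⟨δ * (n₀ / y i ^ c), BA δB⟩ * (∏ k ∈ Finset.range (e + 1), z k)⁻¹ ∉ R

end

section

variable {O F : Type} [CommRing O] [Field F] [Algebra O F]
variable {n : ℕ} {y : Fin n → F} {N : Submodule O F} {c d e : ℕ} {L : Type} [Field L] {R : ValuationSubring L}
    {A : Subring F} {π : A →+* L} {V : ValuationSubring F} {i : Fin n} {δ n₀ : F}

lemma AE.n0 (h : AE O y N c d e R A π V i δ n₀) : n₀ ≠ 0 := by
  intro h0
  apply h.δ0
  have h1 : (⟨δ * (n₀ / y i ^ c), h.BA h.δB⟩ : A) = 0 := by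
    apply Subtype.ext
    change δ * (n₀ / y i ^ c) = 0
    rw [h0, zero_div, mul_zero]
  rw [h1, map_zero]

lemma AE.BV (h : AE O y N c d e R A π V i δ n₀) :
    (chart O (Submodule.span O (Set.range y)) (y i)).toSubring ≤ V.toSubring := fun b hb =>
  (h.tr.mem ⟨b, h.BA hb⟩).2 (h.mem b hb)

lemma AE.OV (h : AE O y N c d e R A π V i δ n₀) : ∀ o, algebraMap O F o ∈ V := fun o =>
  h.BV (Subalgebra.algebraMap_mem (chart O (Submodule.span O (Set.range y)) (y i)) o)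

lemma AE.MV (h : AE O y N c d e R A π V i δ n₀) : ∀ m ∈ Submodule.span O (Set.range y), m / y i ∈ V :=
  fun m hm => h.BV (Algebra.subset_adjoin ⟨m, hm, rfl⟩)

lemma AE.LR0 (h : AE O y N c d e R A π V i δ n₀) : LR V (Submodule.span O (Set.range y))
    (lo V.toSubring (chart O (Submodule.span O (Set.range y)) (y i)).toSubring) :=
  ⟨y i, Submodule.subset_span ⟨i, rfl⟩, h.yi, h.MV, rfl⟩

lemma AE.lv [IsDomain O] [IsRegularRing O] (h : AE O y N c d e R A π V i δ n₀) :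
    ∃ Q, LR V (Submodule.span O (Set.range y)) Q ∧
      ∃ m ≤ e, NCr (Submodule.span O (Set.range y)) N c ((qt V.toSubring)^[m] Q : Subring F) := by
  obtain ⟨r, f, D, hf, hgen, hδ⟩ := h.mn
  by_cases hV : V.valuation (δ * (n₀ / y i ^ c)) < 1
  · refine lv_ncr y i h.yi h.NM h.OV (fun j => h.MV _ (Submodule.subset_span ⟨j, rfl⟩)) f D hf hgen h.nN h.n0 ?_
    intro z hz
    rw [← hδ]
    exact h.tr.dv_of (Q := fun k => qseq V (chart O (Submodule.span O (Set.range y)) (y i)).toSubring k)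
      (fun k => (h.tr.qseq_le h.BA h.δB hV (fun _ => h.δ0) k).1) (h.BA h.δB) h.δ0 h.bd z hz
  · obtain ⟨Q, hQ, m, hm, hr⟩ := lv_ncr (e := 0) y i h.yi h.NM h.OV
      (fun j => h.MV _ (Submodule.subset_span ⟨j, rfl⟩)) f D hf hgen h.nN h.n0 (by
        intro z hz hcon
        rw [← hδ] at hcon
        obtain ⟨-, hz0, hz1⟩ := hz 0 (by omega)
        apply hV
        rw [zero_add, Finset.prod_range_one] at hcon
        have h1 : δ * (n₀ / y i ^ c) = δ * (n₀ / y i ^ c) * (z 0)⁻¹ * z 0 := by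
          rw [mul_assoc _ (z 0)⁻¹, inv_mul_cancel₀ hz0, mul_one]
        rw [h1, map_mul]
        exact mul_lt_one_aux ((V.valuation_le_one_iff _).2 hcon) hz1)
    exact ⟨Q, hQ, m, by omega, hr⟩

lemma AE.nc0 [IsDomain O] [IsRegularRing O] (h : AE O y N c d e R A π V i δ n₀)
    (hV : ¬ V.valuation (δ * (n₀ / y i ^ c)) < 1) :
    NCr (Submodule.span O (Set.range y)) N c
      (lo V.toSubring (chart O (Submodule.span O (Set.range y)) (y i)).toSubring) := by
  have h' : AE O y N c d 0 R A π V i δ n₀ :=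
    { h with
      bd := by
        intro z hz hcon
        obtain ⟨-, hz0, hz1⟩ := hz 0 (by omega)
        rw [zero_add, Finset.prod_range_one] at hcon
        apply hV
        have h2 : (V.valuation (δ * (n₀ / y i ^ c)) < 1) ↔ _ := h.tr.lt ⟨_, h.BA h.δB⟩
        rw [h2]
        have h1 : π ⟨_, h.BA h.δB⟩ = π ⟨_, h.BA h.δB⟩ * (z 0)⁻¹ * z 0 := by
          rw [mul_assoc, inv_mul_cancel₀ hz0, mul_one]
        rw [h1, map_mul]
        exact mul_lt_one_aux ((R.valuation_le_one_iff _).2 hcon) hz1 }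
  obtain ⟨Q, hQ, m, hm, hr⟩ := h'.lv
  obtain rfl : m = 0 := by omega
  rw [LR.unique h.OV h.LR0 hQ]
  exact hr

lemma AE.rz (h : AE O y N c d e R A π V i δ n₀) {Q : Subring F} (hQA : Q ≤ A) (hQV : Q ≤ V.toSubring) :
    Rz d V Q := by
  obtain ⟨h2, h1, h3⟩ := residue_facts h.fin
  refine ⟨_, h2, h.card, ?_, ?_⟩
  · have e1 := h.tr.lt ((Nat.card (ResidueField R) : ℕ) : A)
    rw [map_natCast] at e1
    have e2 := e1.2 h1
    simpa using e2
  · intro b hb
    have hbR : π ⟨b, hQA hb⟩ ∈ R := (h.tr.mem ⟨b, hQA hb⟩).1 (hQV hb)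
    have e1 := h.tr.lt (⟨b, hQA hb⟩ ^ Nat.card (ResidueField R) - ⟨b, hQA hb⟩)
    rw [map_sub, map_pow] at e1
    have e2 := e1.2 (h3 _ hbR)
    simpa using e2

/-- The local rings along the tower. -/
lemma AE.tower [IsDomain O] [IsRegularRing O] (h : AE O y N c d e R A π V i δ n₀) {M : ℕ → Submodule O F}
    (hM0 : M 0 = Submodule.span O (Set.range y)) (hfg : ∀ k, (M k).FG) (hne : ∀ k, ∃ g ∈ M k, g ≠ 0)
    (hBU : ∀ k, BUB (fun Q => ¬ NCr (Submodule.span O (Set.range y)) N c Q) k (M k) (M (k + 1))) : ∀ k,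
    (∀ Q, LR V (M k) Q →
      lo V.toSubring (chart O (Submodule.span O (Set.range y)) (y i)).toSubring ≤ Q ∧ Q ≤ A ∧
      (¬ V.valuation (δ * (n₀ / y i ^ c)) < 1 →
        Q = lo V.toSubring (chart O (Submodule.span O (Set.range y)) (y i)).toSubring)) ∧
    ∃ Q, LR V (M k) Q ∧
      ∃ m ≤ e - (k - d), NCr (Submodule.span O (Set.range y)) N c ((qt V.toSubring)^[m] Q : Subring F) := by
  intro k
  induction k with
  | zero =>
    rw [hM0]
    refine ⟨?_, ?_⟩
    · intro Q hQ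
      rw [LR.unique h.OV hQ h.LR0]
      exact ⟨le_rfl, h.tr.lo_le h.BA, fun _ => rfl⟩
    · rw [Nat.zero_sub, Nat.sub_zero]
      exact h.lv
  | succ k ih =>
    obtain ⟨ih, ihL⟩ := ih
    obtain ⟨Q, hQ⟩ := exists_LR h.OV (hfg k) (hne k)
    obtain ⟨i1, i2, i3⟩ := ih Q hQ
    obtain ⟨w1, w2⟩ := hBU k V h.OV Q hQ
    obtain ⟨hQV, hIC⟩ := LR.facts h.OV hQ
    have hRz : Rz d V Q := h.rz i2 hQV
    obtain ⟨Q₁, hQ₁, m, hm, hr⟩ := ihL
    obtain rfl := LR.unique h.OV hQ₁ hQ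
    by_cases hc : Q₁ ∈ SB (fun Q => ¬ NCr (Submodule.span O (Set.range y)) N c Q) k (M k)
    · have hnreg : ¬ NCr (Submodule.span O (Set.range y)) N c Q₁ := by
        obtain ⟨-, -, -, -, hn⟩ := hc
        exact hn
      have hδV : V.valuation (δ * (n₀ / y i ^ c)) < 1 := by
        by_contra hV
        apply hnreg
        rw [i3 hV]
        exact h.nc0 hV
      refine ⟨fun Q' hQ' => ?_, ?_⟩
      · rw [LR.unique h.OV hQ' (w1 hc)]
        refine ⟨i1.trans (le_qt _ _), ?_, fun hV => absurd hδV hV⟩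
        exact h.tr.qt_le i2 (i1 (le_lo _ _ h.δB)) hδV (fun _ => h.δ0)
      · rcases m with _ | m
        · exact absurd hr hnreg
        · refine ⟨_, w1 hc, m, by omega, ?_⟩
          rw [Function.iterate_succ_apply] at hr
          exact hr
    · refine ⟨fun Q' hQ' => ?_, ?_⟩
      · rw [LR.unique h.OV hQ' (w2 hc)]
        exact ⟨i1, i2, i3⟩
      · by_cases hreg : NCr (Submodule.span O (Set.range y)) N c Q₁
        · exact ⟨_, w2 hc, 0, Nat.zero_le _, hreg⟩
        · have hkd : k < d := by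
            by_contra hkd
            exact hc ⟨V, h.OV, hQ, hRz.mono (not_lt.1 hkd), hreg⟩
          exact ⟨_, w2 hc, m, by omega, hr⟩

end

/-- **The main theorem.** -/
theorem main_nc {O F : Type} [CommRing O] [Field F] [Algebra O F] [IsDomain O] [IsRegularRing O]
    [Algebra.FiniteType ℤ O] {n : ℕ} (hn : 0 < n) (y : Fin n → F) (hy : ∀ i, y i ≠ 0)
    {N : Submodule O F} {c : ℕ} (hN : N ≠ ⊥) (hNM : N ≤ (Submodule.span O (Set.range y)) ^ c) :
    ∃ M : ℕ → Submodule O F, M 0 = Submodule.span O (Set.range y) ∧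
      (∀ k, (M k).FG ∧ (SB (fun Q => ¬ NCr (Submodule.span O (Set.range y)) N c Q) k (M k)).Finite ∧
        BUB (fun Q => ¬ NCr (Submodule.span O (Set.range y)) N c Q) k (M k) (M (k + 1))) ∧
      ∀ (L : Type) [Field L] (R : ValuationSubring L), Finite (ResidueField R) → ∀ (i : Fin n)
        (α : (chart O (Submodule.span O (Set.range y)) (y i)).toSubring →+* R)
        (δ a : (chart O (Submodule.span O (Set.range y)) (y i)).toSubring), Mn O y i (δ : F) →
        (∃ n₀ ∈ N, (a : F) = n₀ / y i ^ c) →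
        ∀ e : ℕ, α (δ * a) ∉ maximalIdeal R ^ (e + 1) → ∀ k, Nat.card (ResidueField R) + e ≤ k →
        ∃ (V : ValuationSubring F) (Q : Subring F), (∀ o, algebraMap O F o ∈ V) ∧ LR V (M k) Q ∧
          NCr (Submodule.span O (Set.range y)) N c Q ∧
          ∃ (h : (chart O (Submodule.span O (Set.range y)) (y i)).toSubring ≤ Q) (β : Q →+* R),
            (∀ b : (chart O (Submodule.span O (Set.range y)) (y i)).toSubring, β ⟨b, h b.2⟩ = α b) ∧
              ∀ b : Q, IsUnit (β b) → IsUnit b := by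
  classical
  set M₀ : Submodule O F := Submodule.span O (Set.range y) with hM₀
  have hfg0 : M₀.FG := Submodule.fg_span (Set.finite_range y)
  have hne0 : ∃ g ∈ M₀, g ≠ 0 := ⟨y ⟨0, hn⟩, Submodule.subset_span ⟨_, rfl⟩, hy _⟩
  obtain ⟨n₁, hn₁, hn₁0⟩ := (Submodule.ne_bot_iff N).1 hN
  -- the tower
  let St : Type := {M : Submodule O F // M.FG ∧ (∃ g ∈ M, g ≠ 0) ∧ Dm M₀ M}
  have hnext : ∀ (k : ℕ) (M : St), ∃ M' : St, BUB (fun Q => ¬ NCr M₀ N c Q) k M.1 M'.1 := by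
    rintro k ⟨M, hM, hne, hDm⟩
    obtain ⟨M', h1, h2, h3⟩ := exists_BUB (Bd := fun Q => ¬ NCr M₀ N c Q) (d := k) hM hne (by
      intro V hOV Q hQ hb
      by_contra hcon
      obtain ⟨w, hw, hw0, hwQ⟩ := hDm V hOV Q hQ
      obtain ⟨f1, f2⟩ := LR.facts hOV hQ
      refine hb (field_ncr f1 f2 hw hw0 hwQ hNM hn₁ hn₁0 ?_ hcon)
      intro o
      obtain ⟨g, hg, hg0, hgV, rfl⟩ := hQ
      exact le_lo _ _ (Subalgebra.algebraMap_mem (chart O M g) o)) (SB_fin hM hne)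
    exact ⟨⟨M', h1, h2, hDm.next hM hne h3⟩, h3⟩
  choose nx hnx using hnext
  let T : ℕ → St := fun k => Nat.rec ⟨M₀, hfg0, hne0, Dm.self M₀⟩ (fun k M => nx k M) k
  have hT : ∀ k, BUB (fun Q => ¬ NCr M₀ N c Q) k (T k).1 (T (k + 1)).1 := fun k => hnx k (T k)
  refine ⟨fun k => (T k).1, rfl, fun k => ⟨(T k).2.1, SB_fin (T k).2.1 (T k).2.2.1, hT k⟩, ?_⟩
  rintro L _ R hf i α δ a hmn ⟨n₀, hn₀, han⟩ e hδ k hk
  obtain ⟨A, π, hBA, hπα, hu⟩ := loc_data' (R.subtype.comp α)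
  obtain ⟨V, hV⟩ := exists_tr A π R hu
  have hδa : (δ : F) * (n₀ / y i ^ c) = ((δ * a : (chart O M₀ (y i)).toSubring) : F) := by
    rw [← han]; rfl
  have hδaB : (δ : F) * (n₀ / y i ^ c) ∈ (chart O M₀ (y i)).toSubring := by
    rw [hδa]; exact (δ * a).2
  have hπδ : π ⟨(δ : F) * (n₀ / y i ^ c), hBA hδaB⟩ = ((α (δ * a) : R) : L) := by
    have h1 : (⟨(δ : F) * (n₀ / y i ^ c), hBA hδaB⟩ : A) =
        ⟨((δ * a : (chart O M₀ (y i)).toSubring) : F), hBA (δ * a).2⟩ := Subtype.ext hδa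
    rw [h1, hπα]
    rfl
  have hbd : ∀ z : ℕ → L, (∀ k < e + 1, z k ∈ R ∧ z k ≠ 0 ∧ R.valuation (z k) < 1) →
      π ⟨(δ : F) * (n₀ / y i ^ c), hBA hδaB⟩ * (∏ k ∈ Finset.range (e + 1), z k)⁻¹ ∉ R := by
    intro z hz hcon
    apply hδ
    have hz0 : ∏ k ∈ Finset.range (e + 1), z k ≠ 0 :=
      Finset.prod_ne_zero_iff.2 fun k hk => (hz k (Finset.mem_range.1 hk)).2.1
    let z' : ℕ → R := fun k => if hk : k < e + 1 then ⟨z k, (hz k hk).1⟩ else 1
    have hz' : ∀ k < e + 1, ((z' k : R) : L) = z k := fun k hk => by simp only [z', dif_pos hk]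
    have h1 : α (δ * a) = ⟨_, hcon⟩ * ∏ k ∈ Finset.range (e + 1), z' k := by
      apply Subtype.ext
      have h2 : ((∏ k ∈ Finset.range (e + 1), z' k : R) : L) = ∏ k ∈ Finset.range (e + 1), z k := by
        rw [SubmonoidClass.coe_finsetProd]
        exact Finset.prod_congr rfl fun k hk => hz' k (Finset.mem_range.1 hk)
      change ((α (δ * a) : R) : L) = π ⟨(δ : F) * (n₀ / y i ^ c), hBA hδaB⟩ *
        (∏ k ∈ Finset.range (e + 1), z k)⁻¹ * ((∏ k ∈ Finset.range (e + 1), z' k : R) : L)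
      rw [h2, mul_assoc, inv_mul_cancel₀ hz0, mul_one, hπδ]
    rw [h1]
    refine Ideal.mul_mem_left _ _ ?_
    have h3 : ∏ k ∈ Finset.range (e + 1), z' k ∈ ∏ k ∈ Finset.range (e + 1), maximalIdeal R := by
      refine Ideal.prod_mem_prod fun k hk => ?_
      rw [R.valuation_lt_one_iff, hz' k (Finset.mem_range.1 hk)]
      exact (hz k (Finset.mem_range.1 hk)).2.2
    rw [Finset.prod_const, Finset.card_range] at h3
    exact h3
  have hδ0 : π ⟨(δ : F) * (n₀ / y i ^ c), hBA hδaB⟩ ≠ 0 := by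
    intro h0
    apply hδ
    rw [hπδ] at h0
    have h1 : α (δ * a) = 0 := Subtype.ext h0
    rw [h1]
    exact Ideal.zero_mem _
  have hAE : AE O y N c (Nat.card (ResidueField R)) e R A π V i (δ : F) n₀ :=
    { yi := hy i
      fin := hf
      card := le_rfl
      tr := hV
      BA := hBA
      mem := fun b hb => by
        rw [hπα ⟨b, hb⟩]
        exact (α ⟨b, hb⟩).2
      δB := hδaB
      δ0 := hδ0
      mn := hmn
      NM := hNM
      nN := hn₀
      bd := hbd }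
  obtain ⟨hall, Q, hQ, m, hm, hr⟩ := hAE.tower (M := fun k => (T k).1) rfl (fun k => (T k).2.1)
    (fun k => (T k).2.2.1) hT k
  obtain rfl : m = 0 := by omega
  obtain ⟨i1, i2, -⟩ := hall Q hQ
  obtain ⟨hQV, hIC⟩ := LR.facts hAE.OV hQ
  have hBQ : (chart O M₀ (y i)).toSubring ≤ Q := (le_lo _ _).trans i1
  have hπR : ∀ b : Q, π (Subring.inclusion i2 b) ∈ R := fun b => (hV.mem (Subring.inclusion i2 b)).1 (hQV b.2)
  refine ⟨V, Q, hAE.OV, hQ, hr, hBQ,
    (π.comp (Subring.inclusion i2)).codRestrict R.toSubring hπR, ?_, ?_⟩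
  · intro b
    apply Subtype.ext
    exact hπα b
  · intro b hb
    have h1 : ¬ R.valuation (π (Subring.inclusion i2 b)) < 1 := by
      intro hlt
      have h2 := (R.valuation_lt_one_iff ⟨_, hπR b⟩).2 hlt
      exact h2 hb
    rw [← hV.lt] at h1
    have h3 : ¬ V.valuation (b : F) < 1 := h1
    have hb0 : (b : F) ≠ 0 := by
      intro h0
      apply h3
      rw [h0, map_zero]
      exact zero_lt_one
    rw [Pool.Agent.TH188.ARC.val_lt_iff hb0, not_not] at h3
    exact isUnit_iff_exists_inv.2 ⟨⟨_, hIC b b.2 hb0 h3⟩, Subtype.ext (mul_inv_cancel₀ hb0)⟩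

end Pool.Agent.Run7.h275.AP
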