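import Pool.Agent.Run7.h275.AP5

/-!
# Towers of point blow-ups for models of regular varieties over number fields
-/

set_option autoImplicit false
set_option linter.unusedVariables false
set_option linter.unusedSectionVars false

namespace Pool.Agent.Run7.h275.AP

open IsLocalRing Pool.Agent.TH188.QS Pool.Agent.W418.LU2 Pool.Agent.H918R2.Quad Pool.Agent.TH188.ARC

section

variable {O F : Type} [CommRing O] [Field F] [Algebra O F]

/-- The level is bounded by the value of `δ` and an element of the ideal. -/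
theorem lv_star [IsNoetherianRing O] {n : ℕ} (y : Fin n → F) (i : Fin n) (hyi : y i ≠ 0)
    {N : Submodule O F} {c : ℕ} (hNM : N ≤ (Submodule.span O (Set.range y)) ^ c)
    {V : ValuationSubring F} (hOV : ∀ o, algebraMap O F o ∈ V) (hV : ∀ j, y j / y i ∈ V) {δ : F}
    (hδB : δ ∈ (chart O (Submodule.span O (Set.range y)) (y i)).toSubring)
    (hst : Star (chart O (Submodule.span O (Set.range y)) (y i)).toSubring δ)
    {n₀ : F} (hn₀ : n₀ ∈ N) (hn₀0 : n₀ ≠ 0) {e : ℕ} (hδ : ∀ z : ℕ → F, (∀ k < e + 1,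
      z k ∈ qseq V (chart O (Submodule.span O (Set.range y)) (y i)).toSubring k ∧ z k ≠ 0 ∧
        V.valuation (z k) < 1) →
      δ * (n₀ / y i ^ c) * (∏ i ∈ Finset.range (e + 1), z i)⁻¹ ∉ V) :
    ∃ Q, LR V (Submodule.span O (Set.range y)) Q ∧
      ∃ m ≤ e, NCr (Submodule.span O (Set.range y)) N c ((qt V.toSubring)^[m] Q : Subring F) := by
  classical
  set B : Subring F := (chart O (Submodule.span O (Set.range y)) (y i)).toSubring with hB
  have hMV : ∀ m ∈ Submodule.span O (Set.range y), m / y i ∈ V := by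
    intro m hm
    induction hm using Submodule.span_induction with
    | mem m hm => obtain ⟨j, rfl⟩ := hm; exact hV j
    | zero => rw [zero_div]; exact V.zero_mem
    | add a b _ _ ha hb => rw [add_div]; exact V.add_mem _ _ ha hb
    | smul c a _ ha =>
      rw [Algebra.smul_def, mul_div_assoc]
      exact V.mul_mem _ _ (hOV c) ha
  have hBV : B ≤ V.toSubring := chart_le_V hOV hMV
  have hLR : LR V (Submodule.span O (Set.range y)) (lo V.toSubring B) :=
    ⟨y i, Submodule.subset_span ⟨i, rfl⟩, hyi, hMV, rfl⟩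
  have hyM : y i ∈ Submodule.span O (Set.range y) := Submodule.subset_span ⟨i, rfl⟩
  have hwB : ∀ m ∈ Submodule.span O (Set.range y), m / y i ∈ B := fun m hm =>
    Algebra.subset_adjoin ⟨m, hm, rfl⟩
  by_cases hne0 : ∃ y ∈ B, y ≠ 0 ∧ V.valuation y < 1
  · have hnoe : IsNoetherianRing B :=
      chart_noeth (Submodule.fg_span (Set.finite_range y)) (y i)
    obtain ⟨-, hmi⟩ := seq_fg (Q := qseq V B) hBV hne0 rfl (fun n => rfl)
    obtain ⟨b1, b2, b3, b4, b5⟩ := seq_basic (Q := qseq V B) hBV hne0 rfl (fun n => rfl)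
    obtain ⟨ϖ, hϖB, hϖ0, hϖV⟩ := hne0
    obtain ⟨m, hm, hnc⟩ := level_nc (M₀ := Submodule.span O (Set.range y)) (N := N) (c := c) (V := V)
      (B := B) hBV hyM hyi hwB (fun n hn => pow_div_mem hyi c n (hNM hn)) (Q := qseq V B) b1
      b3 b4 (fun n => rfl) hmi (δ := δ) (hBV hδB)
      (fun n hn => hst V hBV ϖ hϖB hϖ0 hϖV n hn) hn₀ (e := e) hδ
    refine ⟨_, hLR, m, by omega, ?_⟩
    rw [← qseq_eq]
    exact hnc
  · have hno : ¬ ∃ x ∈ lo V.toSubring B, x ≠ 0 ∧ V.valuation x < 1 := by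
      rintro ⟨x, ⟨a, ha, c, hc, hc0, hci, rfl⟩, hx0, hxV⟩
      refine hne0 ⟨a, ha, fun h => hx0 (by rw [h, zero_mul]), ?_⟩
      have h1 : a = a * c⁻¹ * c := by rw [mul_assoc, inv_mul_cancel₀ hc0, mul_one]
      rw [h1, map_mul]
      exact mul_lt_one_aux' hxV ((V.valuation_le_one_iff _).2 (hBV hc))
    refine ⟨_, hLR, 0, Nat.zero_le _, field_ncr (V := V) (lo_le hBV) (ic_lo hBV) hyM hyi
      (fun m hm => le_lo _ _ (hwB m hm)) hNM hn₀ hn₀0 (fun o => le_lo _ _ ?_) hno⟩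
    exact Subalgebra.algebraMap_mem _ o

end

section

variable (O : Type) {F : Type} [CommRing O] [Field F] [Algebra O F]

/-- The data of a point with values in `R`. -/
structure AF {n : ℕ} (y : Fin n → F) (N : Submodule O F) (c : ℕ) (d e : ℕ) {L : Type} [Field L]
    (R : ValuationSubring L) (A : Subring F) (π : A →+* L) (V : ValuationSubring F) (i : Fin n) (δ n₀ : F) :
    Prop where
  yi : y i ≠ 0
  fin : Finite (ResidueField R)
  card : Nat.card (ResidueField R) ≤ d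
  tr : Tr A π R V
  BA : (chart O (Submodule.span O (Set.range y)) (y i)).toSubring ≤ A
  mem : ∀ b (hb : b ∈ (chart O (Submodule.span O (Set.range y)) (y i)).toSubring), π ⟨b, BA hb⟩ ∈ R
  δB : δ * (n₀ / y i ^ c) ∈ (chart O (Submodule.span O (Set.range y)) (y i)).toSubring
  δ0 : π ⟨δ * (n₀ / y i ^ c), BA δB⟩ ≠ 0
  δC : δ ∈ (chart O (Submodule.span O (Set.range y)) (y i)).toSubring
  st : Star (chart O (Submodule.span O (Set.range y)) (y i)).toSubring δ
  NM : N ≤ (Submodule.span O (Set.range y)) ^ c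
  nN : n₀ ∈ N
  bd : ∀ z : ℕ → L, (∀ k < e + 1, z k ∈ R ∧ z k ≠ 0 ∧ R.valuation (z k) < 1) →
    π ⟨δ * (n₀ / y i ^ c), BA δB⟩ * (∏ k ∈ Finset.range (e + 1), z k)⁻¹ ∉ R

end

section

variable {O F : Type} [CommRing O] [Field F] [Algebra O F]
variable {n : ℕ} {y : Fin n → F} {N : Submodule O F} {c d e : ℕ} {L : Type} [Field L] {R : ValuationSubring L}
    {A : Subring F} {π : A →+* L} {V : ValuationSubring F} {i : Fin n} {δ n₀ : F}

lemma AF.n0 (h : AF O y N c d e R A π V i δ n₀) : n₀ ≠ 0 := by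
  intro h0
  apply h.δ0
  have h1 : (⟨δ * (n₀ / y i ^ c), h.BA h.δB⟩ : A) = 0 := by
    apply Subtype.ext
    change δ * (n₀ / y i ^ c) = 0
    rw [h0, zero_div, mul_zero]
  rw [h1, map_zero]

lemma AF.BV (h : AF O y N c d e R A π V i δ n₀) :
    (chart O (Submodule.span O (Set.range y)) (y i)).toSubring ≤ V.toSubring := fun b hb =>
  (h.tr.mem ⟨b, h.BA hb⟩).2 (h.mem b hb)

lemma AF.OV (h : AF O y N c d e R A π V i δ n₀) : ∀ o, algebraMap O F o ∈ V := fun o =>
  h.BV (Subalgebra.algebraMap_mem (chart O (Submodule.span O (Set.range y)) (y i)) o)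

lemma AF.MV (h : AF O y N c d e R A π V i δ n₀) : ∀ m ∈ Submodule.span O (Set.range y), m / y i ∈ V :=
  fun m hm => h.BV (Algebra.subset_adjoin ⟨m, hm, rfl⟩)

lemma AF.LR0 (h : AF O y N c d e R A π V i δ n₀) : LR V (Submodule.span O (Set.range y))
    (lo V.toSubring (chart O (Submodule.span O (Set.range y)) (y i)).toSubring) :=
  ⟨y i, Submodule.subset_span ⟨i, rfl⟩, h.yi, h.MV, rfl⟩

lemma AF.lv [IsNoetherianRing O] (h : AF O y N c d e R A π V i δ n₀) :
    ∃ Q, LR V (Submodule.span O (Set.range y)) Q ∧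
      ∃ m ≤ e, NCr (Submodule.span O (Set.range y)) N c ((qt V.toSubring)^[m] Q : Subring F) := by
  by_cases hV : V.valuation (δ * (n₀ / y i ^ c)) < 1
  · refine lv_star y i h.yi h.NM h.OV (fun j => h.MV _ (Submodule.subset_span ⟨j, rfl⟩)) h.δC h.st h.nN h.n0 ?_
    intro z hz
    exact h.tr.dv_of (Q := fun k => qseq V (chart O (Submodule.span O (Set.range y)) (y i)).toSubring k)
      (fun k => (h.tr.qseq_le h.BA h.δB hV (fun _ => h.δ0) k).1) (h.BA h.δB) h.δ0 h.bd z hz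
  · obtain ⟨Q, hQ, m, hm, hr⟩ := lv_star (e := 0) y i h.yi h.NM h.OV
      (fun j => h.MV _ (Submodule.subset_span ⟨j, rfl⟩)) h.δC h.st h.nN h.n0 (by
        intro z hz hcon
        obtain ⟨-, hz0, hz1⟩ := hz 0 (by omega)
        apply hV
        rw [zero_add, Finset.prod_range_one] at hcon
        have h1 : δ * (n₀ / y i ^ c) = δ * (n₀ / y i ^ c) * (z 0)⁻¹ * z 0 := by
          rw [mul_assoc _ (z 0)⁻¹, inv_mul_cancel₀ hz0, mul_one]
        rw [h1, map_mul]
        exact mul_lt_one_aux ((V.valuation_le_one_iff _).2 hcon) hz1)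
    exact ⟨Q, hQ, m, by omega, hr⟩

lemma AF.nc0 [IsNoetherianRing O] (h : AF O y N c d e R A π V i δ n₀)
    (hV : ¬ V.valuation (δ * (n₀ / y i ^ c)) < 1) :
    NCr (Submodule.span O (Set.range y)) N c
      (lo V.toSubring (chart O (Submodule.span O (Set.range y)) (y i)).toSubring) := by
  have h' : AF O y N c d 0 R A π V i δ n₀ :=
    { h with
      bd := by
        intro z hz hcon
        obtain ⟨-, hz0, hz1⟩ := hz 0 (by omega)
        rw [zero_add, Finset.prod_range_one] at hcon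
        apply hV
        have h2 : (V.valuation (δ * (n₀ / y i ^ c)) < 1) ↔ _ := h.tr.lt ⟨_, h.BA h.δB⟩
        rw [h2]
        have h1 : π ⟨_, h.BA h.δB⟩ = π ⟨_, h.BA h.δB⟩ * (z 0)⁻¹ * z 0 := by
          rw [mul_assoc, inv_mul_cancel₀ hz0, mul_one]
        rw [h1, map_mul]
        exact mul_lt_one_aux ((R.valuation_le_one_iff _).2 hcon) hz1 }
  obtain ⟨Q, hQ, m, hm, hr⟩ := h'.lv
  obtain rfl : m = 0 := by omega
  rw [LR.unique h.OV h.LR0 hQ]
  exact hr

lemma AF.rz (h : AF O y N c d e R A π V i δ n₀) {Q : Subring F} (hQA : Q ≤ A) (hQV : Q ≤ V.toSubring) :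
    Rz d V Q := by
  obtain ⟨h2, h1, h3⟩ := residue_facts h.fin
  refine ⟨_, h2, h.card, ?_, ?_⟩
  · have e1 := h.tr.lt ((Nat.card (ResidueField R) : ℕ) : A)
    rw [map_natCast] at e1
    have e2 := e1.2 h1
    simpa using e2
  · intro b hb
    have hbR : π ⟨b, hQA hb⟩ ∈ R := (h.tr.mem ⟨b, hQA hb⟩).1 (hQV hb)
    have e1 := h.tr.lt (⟨b, hQA hb⟩ ^ Nat.card (ResidueField R) - ⟨b, hQA hb⟩)
    rw [map_sub, map_pow] at e1
    have e2 := e1.2 (h3 _ hbR)
    simpa using e2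

/-- The local rings along the tower. -/
lemma AF.tower [IsNoetherianRing O] (h : AF O y N c d e R A π V i δ n₀) {M : ℕ → Submodule O F}
    (hM0 : M 0 = Submodule.span O (Set.range y)) (hfg : ∀ k, (M k).FG) (hne : ∀ k, ∃ g ∈ M k, g ≠ 0)
    (hBU : ∀ k, BUB (fun Q => ¬ NCr (Submodule.span O (Set.range y)) N c Q) k (M k) (M (k + 1))) : ∀ k,
    (∀ Q, LR V (M k) Q →
      lo V.toSubring (chart O (Submodule.span O (Set.range y)) (y i)).toSubring ≤ Q ∧ Q ≤ A ∧
      (¬ V.valuation (δ * (n₀ / y i ^ c)) < 1 →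
        Q = lo V.toSubring (chart O (Submodule.span O (Set.range y)) (y i)).toSubring)) ∧
    ∃ Q, LR V (M k) Q ∧
      ∃ m ≤ e - (k - d), NCr (Submodule.span O (Set.range y)) N c ((qt V.toSubring)^[m] Q : Subring F) := by
  intro k
  induction k with
  | zero =>
    rw [hM0]
    refine ⟨?_, ?_⟩
    · intro Q hQ
      rw [LR.unique h.OV hQ h.LR0]
      exact ⟨le_rfl, h.tr.lo_le h.BA, fun _ => rfl⟩
    · rw [Nat.zero_sub, Nat.sub_zero]
      exact h.lv
  | succ k ih =>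
    obtain ⟨ih, ihL⟩ := ih
    obtain ⟨Q, hQ⟩ := exists_LR h.OV (hfg k) (hne k)
    obtain ⟨i1, i2, i3⟩ := ih Q hQ
    obtain ⟨w1, w2⟩ := hBU k V h.OV Q hQ
    obtain ⟨hQV, hIC⟩ := LR.facts h.OV hQ
    have hRz : Rz d V Q := h.rz i2 hQV
    obtain ⟨Q₁, hQ₁, m, hm, hr⟩ := ihL
    obtain rfl := LR.unique h.OV hQ₁ hQ
    by_cases hc : Q₁ ∈ SB (fun Q => ¬ NCr (Submodule.span O (Set.range y)) N c Q) k (M k)
    · have hnreg : ¬ NCr (Submodule.span O (Set.range y)) N c Q₁ := by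
        obtain ⟨-, -, -, -, hn⟩ := hc
        exact hn
      have hδV : V.valuation (δ * (n₀ / y i ^ c)) < 1 := by
        by_contra hV
        apply hnreg
        rw [i3 hV]
        exact h.nc0 hV
      refine ⟨fun Q' hQ' => ?_, ?_⟩
      · rw [LR.unique h.OV hQ' (w1 hc)]
        refine ⟨i1.trans (le_qt _ _), ?_, fun hV => absurd hδV hV⟩
        exact h.tr.qt_le i2 (i1 (le_lo _ _ h.δB)) hδV (fun _ => h.δ0)
      · rcases m with _ | m
        · exact absurd hr hnreg
        · refine ⟨_, w1 hc, m, by omega, ?_⟩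
          rw [Function.iterate_succ_apply] at hr
          exact hr
    · refine ⟨fun Q' hQ' => ?_, ?_⟩
      · rw [LR.unique h.OV hQ' (w2 hc)]
        exact ⟨i1, i2, i3⟩
      · by_cases hreg : NCr (Submodule.span O (Set.range y)) N c Q₁
        · exact ⟨_, w2 hc, 0, Nat.zero_le _, hreg⟩
        · have hkd : k < d := by
            by_contra hkd
            exact hc ⟨V, h.OV, hQ, hRz.mono (not_lt.1 hkd), hreg⟩
          exact ⟨_, w2 hc, m, by omega, hr⟩

end

/-- **The main theorem.** -/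
theorem main_star {O F : Type} [CommRing O] [Field F] [Algebra O F] [IsNoetherianRing O]
    [Algebra.FiniteType ℤ O] {n : ℕ} (hn : 0 < n) (y : Fin n → F) (hy : ∀ i, y i ≠ 0)
    {N : Submodule O F} {c : ℕ} (hN : N ≠ ⊥) (hNM : N ≤ (Submodule.span O (Set.range y)) ^ c) :
    ∃ M : ℕ → Submodule O F, M 0 = Submodule.span O (Set.range y) ∧ (∀ k, ∃ g ∈ M k, g ≠ 0) ∧
      (∀ k, (M k).FG ∧ (SB (fun Q => ¬ NCr (Submodule.span O (Set.range y)) N c Q) k (M k)).Finite ∧
        BUB (fun Q => ¬ NCr (Submodule.span O (Set.range y)) N c Q) k (M k) (M (k + 1))) ∧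
      ∀ (L : Type) [Field L] (R : ValuationSubring L), Finite (ResidueField R) → ∀ (i : Fin n)
        (α : (chart O (Submodule.span O (Set.range y)) (y i)).toSubring →+* R)
        (δ a : (chart O (Submodule.span O (Set.range y)) (y i)).toSubring),
        Star (chart O (Submodule.span O (Set.range y)) (y i)).toSubring (δ : F) →
        (∃ n₀ ∈ N, (a : F) = n₀ / y i ^ c) →
        ∀ e : ℕ, α (δ * a) ∉ maximalIdeal R ^ (e + 1) → ∀ k, Nat.card (ResidueField R) + e ≤ k →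
        ∃ (V : ValuationSubring F) (Q : Subring F), (∀ o, algebraMap O F o ∈ V) ∧ LR V (M k) Q ∧
          NCr (Submodule.span O (Set.range y)) N c Q ∧
          ∃ (h : (chart O (Submodule.span O (Set.range y)) (y i)).toSubring ≤ Q) (β : Q →+* R),
            (∀ b : (chart O (Submodule.span O (Set.range y)) (y i)).toSubring, β ⟨b, h b.2⟩ = α b) ∧
              ∀ b : Q, IsUnit (β b) → IsUnit b := by
  classical
  set M₀ : Submodule O F := Submodule.span O (Set.range y) with hM₀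
  have hfg0 : M₀.FG := Submodule.fg_span (Set.finite_range y)
  have hne0 : ∃ g ∈ M₀, g ≠ 0 := ⟨y ⟨0, hn⟩, Submodule.subset_span ⟨_, rfl⟩, hy _⟩
  obtain ⟨n₁, hn₁, hn₁0⟩ := (Submodule.ne_bot_iff N).1 hN
  -- the tower
  let St : Type := {M : Submodule O F // M.FG ∧ (∃ g ∈ M, g ≠ 0) ∧ Dm M₀ M}
  have hnext : ∀ (k : ℕ) (M : St), ∃ M' : St, BUB (fun Q => ¬ NCr M₀ N c Q) k M.1 M'.1 := by
    rintro k ⟨M, hM, hne, hDm⟩
    obtain ⟨M', h1, h2, h3⟩ := exists_BUB (Bd := fun Q => ¬ NCr M₀ N c Q) (d := k) hM hne (by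
      intro V hOV Q hQ hb
      by_contra hcon
      obtain ⟨w, hw, hw0, hwQ⟩ := hDm V hOV Q hQ
      obtain ⟨f1, f2⟩ := LR.facts hOV hQ
      refine hb (field_ncr f1 f2 hw hw0 hwQ hNM hn₁ hn₁0 ?_ hcon)
      intro o
      obtain ⟨g, hg, hg0, hgV, rfl⟩ := hQ
      exact le_lo _ _ (Subalgebra.algebraMap_mem (chart O M g) o)) (SB_fin hM hne)
    exact ⟨⟨M', h1, h2, hDm.next hM hne h3⟩, h3⟩
  choose nx hnx using hnext
  let T : ℕ → St := fun k => Nat.rec ⟨M₀, hfg0, hne0, Dm.self M₀⟩ (fun k M => nx k M) k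
  have hT : ∀ k, BUB (fun Q => ¬ NCr M₀ N c Q) k (T k).1 (T (k + 1)).1 := fun k => hnx k (T k)
  refine ⟨fun k => (T k).1, rfl, fun k => (T k).2.2.1, fun k => ⟨(T k).2.1, SB_fin (T k).2.1 (T k).2.2.1, hT k⟩, ?_⟩
  rintro L _ R hf i α δ a hmn ⟨n₀, hn₀, han⟩ e hδ k hk
  obtain ⟨A, π, hBA, hπα, hu⟩ := loc_data' (R.subtype.comp α)
  obtain ⟨V, hV⟩ := exists_tr A π R hu
  have hδa : (δ : F) * (n₀ / y i ^ c) = ((δ * a : (chart O M₀ (y i)).toSubring) : F) := by
    rw [← han]; rfl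
  have hδaB : (δ : F) * (n₀ / y i ^ c) ∈ (chart O M₀ (y i)).toSubring := by
    rw [hδa]; exact (δ * a).2
  have hπδ : π ⟨(δ : F) * (n₀ / y i ^ c), hBA hδaB⟩ = ((α (δ * a) : R) : L) := by
    have h1 : (⟨(δ : F) * (n₀ / y i ^ c), hBA hδaB⟩ : A) =
        ⟨((δ * a : (chart O M₀ (y i)).toSubring) : F), hBA (δ * a).2⟩ := Subtype.ext hδa
    rw [h1, hπα]
    rfl
  have hbd : ∀ z : ℕ → L, (∀ k < e + 1, z k ∈ R ∧ z k ≠ 0 ∧ R.valuation (z k) < 1) →
      π ⟨(δ : F) * (n₀ / y i ^ c), hBA hδaB⟩ * (∏ k ∈ Finset.range (e + 1), z k)⁻¹ ∉ R := by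
    intro z hz hcon
    apply hδ
    have hz0 : ∏ k ∈ Finset.range (e + 1), z k ≠ 0 :=
      Finset.prod_ne_zero_iff.2 fun k hk => (hz k (Finset.mem_range.1 hk)).2.1
    let z' : ℕ → R := fun k => if hk : k < e + 1 then ⟨z k, (hz k hk).1⟩ else 1
    have hz' : ∀ k < e + 1, ((z' k : R) : L) = z k := fun k hk => by simp only [z', dif_pos hk]
    have h1 : α (δ * a) = ⟨_, hcon⟩ * ∏ k ∈ Finset.range (e + 1), z' k := by
      apply Subtype.ext
      have h2 : ((∏ k ∈ Finset.range (e + 1), z' k : R) : L) = ∏ k ∈ Finset.range (e + 1), z k := by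
        rw [SubmonoidClass.coe_finsetProd]
        exact Finset.prod_congr rfl fun k hk => hz' k (Finset.mem_range.1 hk)
      change ((α (δ * a) : R) : L) = π ⟨(δ : F) * (n₀ / y i ^ c), hBA hδaB⟩ *
        (∏ k ∈ Finset.range (e + 1), z k)⁻¹ * ((∏ k ∈ Finset.range (e + 1), z' k : R) : L)
      rw [h2, mul_assoc, inv_mul_cancel₀ hz0, mul_one, hπδ]
    rw [h1]
    refine Ideal.mul_mem_left _ _ ?_
    have h3 : ∏ k ∈ Finset.range (e + 1), z' k ∈ ∏ k ∈ Finset.range (e + 1), maximalIdeal R := by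
      refine Ideal.prod_mem_prod fun k hk => ?_
      rw [R.valuation_lt_one_iff, hz' k (Finset.mem_range.1 hk)]
      exact (hz k (Finset.mem_range.1 hk)).2.2
    rw [Finset.prod_const, Finset.card_range] at h3
    exact h3
  have hδ0 : π ⟨(δ : F) * (n₀ / y i ^ c), hBA hδaB⟩ ≠ 0 := by
    intro h0
    apply hδ
    rw [hπδ] at h0
    have h1 : α (δ * a) = 0 := Subtype.ext h0
    rw [h1]
    exact Ideal.zero_mem _
  have hAF : AF O y N c (Nat.card (ResidueField R)) e R A π V i (δ : F) n₀ :=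
    { yi := hy i
      fin := hf
      card := le_rfl
      tr := hV
      BA := hBA
      mem := fun b hb => by
        rw [hπα ⟨b, hb⟩]
        exact (α ⟨b, hb⟩).2
      δB := hδaB
      δ0 := hδ0
      δC := δ.2
      st := hmn
      NM := hNM
      nN := hn₀
      bd := hbd }
  obtain ⟨hall, Q, hQ, m, hm, hr⟩ := hAF.tower (M := fun k => (T k).1) rfl (fun k => (T k).2.1)
    (fun k => (T k).2.2.1) hT k
  obtain rfl : m = 0 := by omega
  obtain ⟨i1, i2, -⟩ := hall Q hQ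
  obtain ⟨hQV, hIC⟩ := LR.facts hAF.OV hQ
  have hBQ : (chart O M₀ (y i)).toSubring ≤ Q := (le_lo _ _).trans i1
  have hπR : ∀ b : Q, π (Subring.inclusion i2 b) ∈ R := fun b => (hV.mem (Subring.inclusion i2 b)).1 (hQV b.2)
  refine ⟨V, Q, hAF.OV, hQ, hr, hBQ,
    (π.comp (Subring.inclusion i2)).codRestrict R.toSubring hπR, ?_, ?_⟩
  · intro b
    apply Subtype.ext
    exact hπα b
  · intro b hb
    have h1 : ¬ R.valuation (π (Subring.inclusion i2 b)) < 1 := by
      intro hlt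
      have h2 := (R.valuation_lt_one_iff ⟨_, hπR b⟩).2 hlt
      exact h2 hb
    rw [← hV.lt] at h1
    have h3 : ¬ V.valuation (b : F) < 1 := h1
    have hb0 : (b : F) ≠ 0 := by
      intro h0
      apply h3
      rw [h0, map_zero]
      exact zero_lt_one
    rw [Pool.Agent.TH188.ARC.val_lt_iff hb0, not_not] at h3
    exact isUnit_iff_exists_inv.2 ⟨⟨_, hIC b b.2 hb0 h3⟩, Subtype.ext (mul_inv_cancel₀ hb0)⟩

end Pool.Agent.Run7.h275.AP

namespace Pool.Agent.Run7.h275.AP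

open IsLocalRing Pool.Agent.TH188.QS Pool.Agent.W418.LU2 Pool.Agent.H918R2.Quad Pool.Agent.TH188.ARC

section

variable {O F : Type} [CommRing O] [Field F] [Algebra O F]

lemma dm_all {M₀ : Submodule O F} {M : ℕ → Submodule O F} (h0 : M 0 = M₀) (hfg : ∀ k, (M k).FG)
    (hne : ∀ k, ∃ g ∈ M k, g ≠ 0) {Bd : Subring F → Prop} (hBU : ∀ k, BUB Bd k (M k) (M (k + 1))) :
    ∀ k, Dm M₀ (M k) := by
  intro k
  induction k with
  | zero => rw [h0]; exact Dm.self M₀
  | succ k ih => exact ih.next (hfg k) (hne k) (hBU k)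

/-- The divisor of an element of the base ring. -/
lemma ncr_span {M₀ : Submodule O F} {p : O} (hp : algebraMap O F p ≠ 0) {V : ValuationSubring F} {Q : Subring F}
    (hQV : Q ≤ V.toSubring) (hIC : IC V.toSubring Q) (hOQ : ∀ o, algebraMap O F o ∈ Q)
    {w : F} (hw : w ∈ M₀) (hw0 : w ≠ 0) (hwQ : ∀ m ∈ M₀, m / w ∈ Q) :
    NCr M₀ (Submodule.span O {algebraMap O F p}) 0 Q ↔
      ∃ (_ : IsRegularLocalRing Q) (r : ℕ) (x : Fin r → Q) (α : Fin r → ℕ),
        Ideal.span (Set.range x) = maximalIdeal Q ∧ ringKrullDim Q = r ∧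
          Ideal.span {(⟨algebraMap O F p, hOQ p⟩ : Q)} = Ideal.span {∏ i, x i ^ α i} := by
  have hDI : DI M₀ (Submodule.span O {algebraMap O F p}) 0 Q =
      Ideal.span {(⟨algebraMap O F p, hOQ p⟩ : Q)} := by
    apply le_antisymm
    · refine Ideal.span_le.2 ?_
      rintro b ⟨w', -, -, -, n, hn, hb⟩
      obtain ⟨o, rfl⟩ := Submodule.mem_span_singleton.1 hn
      rw [SetLike.mem_coe, Ideal.mem_span_singleton']
      refine ⟨⟨algebraMap O F o, hOQ o⟩, Subtype.ext ?_⟩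
      change algebraMap O F o * algebraMap O F p = b
      rw [hb, pow_zero, div_one, Algebra.smul_def]
    · rw [Ideal.span_singleton_le_iff_mem]
      refine Ideal.subset_span ⟨w, hw, hw0, hwQ, algebraMap O F p, Submodule.mem_span_singleton_self _, ?_⟩
      rw [pow_zero, div_one]
  unfold NCr
  rw [hDI]

lemma ncr_one {M₀ : Submodule O F} {V : ValuationSubring F} {Q : Subring F}
    (hQV : Q ≤ V.toSubring) (hIC : IC V.toSubring Q) (hOQ : ∀ o, algebraMap O F o ∈ Q)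
    {w : F} (hw : w ∈ M₀) (hw0 : w ≠ 0) (hwQ : ∀ m ∈ M₀, m / w ∈ Q) :
    NCr M₀ (Submodule.span O {algebraMap O F 1}) 0 Q ↔ IsRegularLocalRing Q := by
  constructor
  · rintro ⟨h, -⟩
    exact h
  · intro h
    refine ncr_of (w := w) (n₁ := 1) (RegP.of_reg hQV hIC h) NMon.one hw hw0 hwQ ?_ ?_ one_ne_zero ?_
    · intro n hn
      obtain ⟨o, rfl⟩ := Submodule.mem_span_singleton.1 hn
      rw [inv_one, mul_one, pow_zero, div_one, map_one, Algebra.smul_def, mul_one]
      exact hOQ o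
    · rw [map_one]
      exact Submodule.mem_span_singleton_self _
    · rw [inv_one, mul_one, pow_zero, div_one, inv_one]
      exact V.one_mem

end

end Pool.Agent.Run7.h275.AP
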