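import Pool.Agent.Run7.h275.RL

/-!
# Interface: models which are regular at all valuations of bounded Jacobian order

Let `O` be a noetherian ring, `F` a field, `O → F`.  A *model* is `Proj O[M]`, `M ⊆ F` a finitely generated nonzero
`O`-submodule; `LR V M Q` says that `Q` is its local ring at the centre of the valuation ring `V` (`lo V B` = localisation
of `B ≤ V` at the centre of `V`).  All blowing-ups have the form `Proj O[M * C] → Proj O[M]` with `C ≤ M ^ k`.

`Vn M k V c`: the homogeneous element `c ∈ M ^ k` vanishes at the centre of `V`.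
`Sep M V E`: the centre of `V` is not in the closure of the centres of the class `E` of valuation rings.
`Dn M E' E`: `E' ⊆ E` and the centres of `E'` are dense in those of `E`.
`OrdLe V a q`: `a ∉ 𝔪_V ^ (q + 1)`.
`Bd M V E q`: the ideal of the closure of the centres of `E` has order `≤ q` at `V`.
-/

set_option autoImplicit false
set_option linter.unusedVariables false

namespace Pool.Agent.Run7.h275.RB

open IsLocalRing Pool.Agent.W418.LU2 Pool.Agent.H918R2.Quad Pool.Agent.Run7.h275.RL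

section defs

/-- The valuation ring contains (the image of) the base ring. -/
def Cn (O : Type) {F : Type} [CommRing O] [Field F] [Algebra O F] (V : ValuationSubring F) : Prop :=
  ∀ o : O, algebraMap O F o ∈ V

variable {O F : Type} [CommRing O] [Field F] [Algebra O F]

/-- `c`, a homogeneous element of degree `k`, vanishes at the centre of `V`. -/
def Vn (M : Submodule O F) (k : ℕ) (V : ValuationSubring F) (c : F) : Prop :=
  ∃ w ∈ M, V.valuation c < V.valuation w ^ k

/-- The centre of `V` is not in the closure of the centres of the elements of `E`. -/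
def Sep (M : Submodule O F) (V : ValuationSubring F) (E : Set (ValuationSubring F)) : Prop :=
  ∃ k, ∃ c ∈ M ^ k, ¬ Vn M k V c ∧ ∀ T ∈ E, Vn M k T c

/-- `a ∉ 𝔪_V ^ (q + 1)`. -/
def OrdLe (V : ValuationSubring F) (a : F) (q : ℕ) : Prop :=
  ∀ z : ℕ → F, (∀ i < q + 1, V.valuation (z i) < 1) →
    V.valuation (∏ i ∈ Finset.range (q + 1), z i) < V.valuation a

/-- The ideal of the closure of (the centres of) `E` has order at most `q` at `V`. -/
def Bd (M : Submodule O F) (V : ValuationSubring F) (E : Set (ValuationSubring F)) (q : ℕ) : Prop :=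
  ∃ k, ∃ c ∈ M ^ k, (∀ T ∈ E, Vn M k T c) ∧ ∀ w ∈ M, w ≠ 0 → OrdLe V (c / w ^ k) q

/-- `E'` is dense in `E`. -/
def Dn (M : Submodule O F) (E' E : Set (ValuationSubring F)) : Prop :=
  E' ⊆ E ∧ ∀ k, ∀ c ∈ M ^ k, (∀ T ∈ E', Vn M k T c) → ∀ T ∈ E, Vn M k T c

/-- The closure of `E` is irreducible. -/
def Irr (M : Submodule O F) (E : Set (ValuationSubring F)) : Prop :=
  E.Nonempty ∧ ∀ j, ∀ a ∈ M ^ j, ∀ k, ∀ b ∈ M ^ k, (∀ T ∈ E, Vn M j T a ∨ Vn M k T b) →
    (∀ T ∈ E, Vn M j T a) ∨ (∀ T ∈ E, Vn M k T b)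

/-- `Proj O[M]` is regular at the centre of `V`. -/
def Rg (M : Submodule O F) (V : ValuationSubring F) : Prop := ∃ Q, LR V M Q ∧ IsRegularLocalRing Q

/-- A finitely generated nonzero module. -/
def Md (M : Submodule O F) : Prop := M.FG ∧ ∃ g ∈ M, g ≠ 0

variable (O) in
/-- `B` is a finitely generated `O`-algebra. -/
def FGO (B : Subring F) : Prop := ∃ s : Finset F, (Algebra.adjoin O (s : Set F)).toSubring = B

/-- `Spec B` is a chart at the centre of `V`. -/
def On (M : Submodule O F) (B : Subring F) (V : ValuationSubring F) : Prop :=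
  B ≤ V.toSubring ∧ LR V M (lo V.toSubring B)

/-- The ideal of the closure in `Spec B` of the centres of the elements of `E`. -/
def IB (B : Subring F) (E : Set (ValuationSubring F)) : Ideal B where
  carrier := {b | ∀ T ∈ E, B ≤ T.toSubring → T.valuation (b : F) < 1}
  zero_mem' := fun T _ _ => by
    change T.valuation (0 : F) < 1
    rw [map_zero]
    exact zero_lt_one
  add_mem' := fun {a b} ha hb T hT hB => by
    change T.valuation ((a : F) + (b : F)) < 1
    exact Valuation.map_add_lt _ (ha T hT hB) (hb T hT hB)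
  smul_mem' := fun c x hx T hT hB => by
    change T.valuation ((c : F) * (x : F)) < 1
    rw [map_mul]
    exact mul_lt_one_aux ((T.valuation_le_one_iff _).2 (hB c.2)) (hx T hT hB)

end defs

section general

variable {F : Type} [Field F]

/-- The local ring of the blowing-up of `Spec B` in the ideal `I`, at the centre of `A`; here `x ∈ I` generates `I A`. -/
def bl (A B : Subring F) (I : Ideal B) (x : F) : Subring F :=
  lo A (Subring.closure ((B : Set F) ∪ {t | ∃ b : B, b ∈ I ∧ t = (b : F) / x}))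

/-- The closed subscheme `V(I)` of `Spec B` is regular at the centre of `A`: the local ring of `B / I` there. -/
def RQ (A B : Subring F) (I : Ideal B) : Prop :=
  IsRegularLocalRing (lo A B ⧸ I.map (Subring.inclusion (le_lo A B)))

end general

/-- Finitely generated domains over `O` are regular on a nonempty open set. -/
def J0 (O : Type) [CommRing O] : Prop :=
  ∀ (B : Type) [CommRing B] [IsDomain B] [Algebra O B], Algebra.FiniteType O B →
    ∃ t : B, t ≠ 0 ∧ ∀ (q : Ideal B) [q.IsPrime], t ∉ q → IsRegularLocalRing (Localization.AtPrime q)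

section pres

/-- The data of a presentation of a chart as a closed subscheme of a regular one. -/
structure Pres (S F : Type) [CommRing S] [IsDomain S] [Field F] where
  φ : S →+* F
  r : ℕ
  D : Fin r → S → F
  hD : ∀ j, Der φ (D j)
  f₀ : Fin r → S
  P : Subring (FractionRing S)
  f : Fin r → FractionRing S
  z : ℕ → F
  u : F

variable {S F : Type} [CommRing S] [IsDomain S] [Field F]

/-- The minor of the Jacobian matrix of the initial presentation. -/
noncomputable def Pres.dl (p : Pres S F) : F := (Matrix.of fun i j => p.D j (p.f₀ i)).det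

/-- The product of the first `n` exceptional parameters. -/
noncomputable def Pres.Z (p : Pres S F) (n : ℕ) : F := ∏ i ∈ Finset.range n, p.z i

/-- The presentation, of level `n`, of the chart `B`. -/
structure Pres.Ok (O : Type) [CommRing O] [Algebra O (FractionRing S)] [Algebra O F] (p : Pres S F) (n : ℕ)
    (B : Subring F) : Prop where
  fg : FGO O p.P
  fgB : FGO O B
  SP : ∀ s, algebraMap S (FractionRing S) s ∈ p.P
  pr : ∀ s ∈ p.P, ∃ w ∈ B, Pr p.φ s w
  im : im p.φ p.P = B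
  zB : ∀ i < n, p.z i ∈ B ∧ p.z i ≠ 0
  bd : ∀ j, ∀ s ∈ p.P, p.Z n * dd p.φ (p.D j) s ∈ B
  fP : ∀ i, p.f i ∈ p.P
  f0 : ∀ i, Pr p.φ (p.f i) 0
  gen : ∀ y : FractionRing S, Pr p.φ y 0 → ∃ g : Fin p.r → FractionRing S,
    (∀ i, ∃ w, Pr p.φ (g i) w) ∧ y = ∑ i, g i * p.f i
  u0 : p.u ≠ 0
  det : (Matrix.of fun i j => dd p.φ (p.D j) (p.f i)).det * p.Z n ^ (p.r + 1) = p.u * p.dl

/-- The presentation is good at `V`. -/
structure Pres.At (p : Pres S F) (n : ℕ) (B : Subring F) (V : ValuationSubring F) : Prop where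
  BV : B ≤ V.toSubring
  uV : p.u⁻¹ ∈ V
  zV : ∀ i < n, V.valuation (p.z i) < 1
  reg : IsRegularLocalRing (lo (AA (FractionRing S) p.φ V) p.P)

end pres

/-! ## Pieces -/

/-- **WF** Noetherian induction on the closure of a class.  For example: `R := Algebra.adjoin O {m T : m ∈ M}` in
`Polynomial F` is a noetherian ring (finitely generated over `O`); to `E` belongs the ideal of the `p ∈ R` with
`Vn M k T (p.coeff k)` for all `k` and `T ∈ E` (an ideal as the elements of `E` contain `O` and `p.coeff k ∈ M ^ k`);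
it gets strictly larger.  (Or: tuples of ideals of the charts `O[M / y_i]`.) -/
def S_WF : Prop := ∀ (O F : Type) [CommRing O] [Field F] [Algebra O F] [IsNoetherianRing O] (M : Submodule O F),
  Md M → WellFounded (fun E' E : Set (ValuationSubring F) => E' ⊆ E ∧ (∀ V ∈ E, Cn O V) ∧
    ∃ k, ∃ c ∈ M ^ k, (∀ T ∈ E', Vn M k T c) ∧ ∃ T ∈ E, ¬ Vn M k T c)

/-- **PEEL** A nonempty class contains an irreducible relatively open subclass in one chart.  Proof: let `w` be one of
finitely many generators of `M` such that some `V ∈ E` has its centre in the chart of `w`, that is, `¬ Vn M 1 V w`.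
Among the nonempty classes `E_h = {V ∈ E : ¬ Vn M k V h}`, `h ∈ M ^ k`, contained in `E_w`, choose one which is minimal
for the relation of `S_WF`.  If `a`, `b` do not vanish identically on `E_h` but at every element one of them vanishes:
`E_(h a)` is nonempty and (minimality) `b`, which vanishes on `E_(h a)`, vanishes on `E_h`.
(`¬ Vn (j + k) V (a b) ↔ ¬ Vn j V a ∧ ¬ Vn k V b` for `V ⊇ O`, `a ∈ M ^ j`, `b ∈ M ^ k`.) -/
def S_PEEL : Prop := ∀ (O F : Type) [CommRing O] [Field F] [Algebra O F] [IsNoetherianRing O] (M : Submodule O F),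
  Md M → ∀ E : Set (ValuationSubring F), (∀ V ∈ E, Cn O V) → E.Nonempty →
    ∃ k, ∃ h ∈ M ^ k, Irr M {V ∈ E | ¬ Vn M k V h} ∧
      ∃ w ∈ M, w ≠ 0 ∧ ∀ V ∈ E, ¬ Vn M k V h → ∀ m ∈ M, m / w ∈ V

/-- **OPN** The domain of a rational function is open.  Proof: `Q = lo V (chart O M w)`, `s = (p / w ^ j) / (q / w ^ j)`
with `p, q ∈ M ^ j`, `(q / w ^ j)⁻¹ ∈ V`; let `a = w * q ∈ M ^ (j + 1)`. -/
def S_OPN : Prop := ∀ (O F : Type) [CommRing O] [Field F] [Algebra O F] (M : Submodule O F), Md M →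
  ∀ (V : ValuationSubring F), Cn O V → ∀ Q : Subring F, LR V M Q → ∀ s ∈ Q,
    ∃ k, ∃ a ∈ M ^ k, ¬ Vn M k V a ∧ ∀ T : ValuationSubring F, Cn O T → ¬ Vn M k T a →
      ∀ Q' : Subring F, LR T M Q' → s ∈ Q'

/-- **CEN** The centre of the blowing-up.  `C = {c ∈ M ^ k : c vanishes on E}` for a suitable `k`, which generates the
ideal of the closure of `E` at (the centre of) every `V`: for `c ∈ M ^ j` vanishing on `E` there is `W ∈ M ^ (k + l)`
with `W c ∈ M ^ (j + l) C`, not vanishing at `V`.  Proof: let `y_1, …, y_n ≠ 0` generate `M`, `B_i = O[M / y_i]`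
(noetherian).  The ideal `I_i = {b ∈ B_i : T(b) < 1 for all T ∈ E containing B_i}` is finitely generated.  If
`b = m / y_i ^ a ∈ I_i`, `m ∈ M ^ a`, then `y_i m ∈ M ^ (a + 1)` vanishes on all of `E` (if `T(y_i)` is not maximal
then `T(m) T(y_i) < max`), so for a large `k` the elements `c / y_i ^ k`, `c ∈ C_k`, generate `I_i` for all `i` (multiply
by powers of `y_i`).  Then `c / y_i ^ j = Σ β_l (c_l / y_i ^ k)`, `β_l = m_l / y_i ^ a`, so `c y_i ^ (k + a) ∈ M ^ (j + a) C`
(if `a = 0`, ... take `W = y_i ^ (k + a)`, `l = a`, where `T(y_i)` is maximal at `V`). -/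
def S_CEN : Prop := ∀ (O F : Type) [CommRing O] [Field F] [Algebra O F] [IsNoetherianRing O] (M : Submodule O F),
  Md M → ∀ E : Set (ValuationSubring F), (∀ V ∈ E, Cn O V) →
    (∃ k, ∃ c ∈ M ^ k, c ≠ 0 ∧ ∀ T ∈ E, Vn M k T c) →
    ∃ k, ∃ C : Submodule O F, Md C ∧ (∀ c, c ∈ C ↔ c ∈ M ^ k ∧ ∀ T ∈ E, Vn M k T c) ∧
      ∀ j, ∀ c ∈ M ^ j, (∀ T ∈ E, Vn M j T c) → ∀ V : ValuationSubring F, Cn O V →
        ∃ l, ∃ W ∈ M ^ (k + l), ¬ Vn M (k + l) V W ∧ W * c ∈ M ^ (j + l) * C

/-- The conclusion of `S_CEN`. -/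
def Cent {O F : Type} [CommRing O] [Field F] [Algebra O F] (M : Submodule O F) (E : Set (ValuationSubring F))
    (k : ℕ) (C : Submodule O F) : Prop :=
  Md C ∧ (∀ c, c ∈ C ↔ c ∈ M ^ k ∧ ∀ T ∈ E, Vn M k T c) ∧
      ∀ j, ∀ c ∈ M ^ j, (∀ T ∈ E, Vn M j T c) → ∀ V : ValuationSubring F, Cn O V →
        ∃ l, ∃ W ∈ M ^ (k + l), ¬ Vn M (k + l) V W ∧ W * c ∈ M ^ (j + l) * C

/-- **BUA** The blowing-up is an isomorphism outside of the centre.  Proof: let `c ∈ M ^ j` vanish on `E` but not at `V`.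
`W c = Σ μ_i c_i` (`μ_i ∈ M ^ (j + l)`, `c_i ∈ C`) does not vanish at `V`, so some `c₀ = c_i ∈ C ⊆ M ^ k` does not vanish
at `V`: `c₀ / w ^ k` is a unit of `V`, where `m / w ∈ V` for all `m ∈ M`.  With `w c₀ ∈ M * C` the chart
`O[M C / (w c₀)] ⊇ O[M / w]` is contained in `Q = lo V O[M / w]` as `c / c₀ = (c / w ^ k) / (c₀ / w ^ k)`. -/
def S_BUA : Prop := ∀ (O F : Type) [CommRing O] [Field F] [Algebra O F] (M : Submodule O F),
  Md M → ∀ E : Set (ValuationSubring F), (∀ V ∈ E, Cn O V) → ∀ k C, Cent M E k C →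
    ∀ V : ValuationSubring F, Cn O V → Sep M V E → ∀ Q : Subring F, LR V M Q → LR V (M * C) Q

/-- **BUB** The local rings of the blowing-up at the elements of a dense subclass `E'` of `E`, in terms of a chart `B`.
Proof: Let `V ∈ E'`, `w ∈ M` with `M / w ⊆ V`, `Q = lo V B = lo V O[M / w]`, `c₀ ∈ C` with `C / c₀ ⊆ V`.  The local
ring of `Proj O[M C]` is `lo V Q[C / c₀]`.  The ideals of `Q` generated by `G₁ = {c / w ^ k : c ∈ C}` and by
`G₂ = IB B E'` are equal: (⊆) `c / w ^ k = s / t`, `s, t ∈ B`, `V(t) = 1`; there is `t₁ ∈ B`, `V(t₁) = 1`, with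
`t₁ (m / w) ∈ B` for all `m ∈ M`; if `T ∈ E'` and `T(t t₁) = 1` then `M / w ⊆ T`, `s / t = c / w ^ k` is a nonunit
of `T`; so `t₁ s ∈ IB B E'`.  (⊇) `b ∈ IB B E' ⊆ Q`, `b = p / q`, `p, q ∈ M ^ j`, `q / w ^ j` a unit of `V`;
then `p = b q` vanishes on `E'` (`T(p) = T(b) T(q) < T(q)`, for `T(q) ≠ 0`), so on `E`; by `Cent`, `W p ∈ M ^ (j + l) C`,
`W / w ^ (k + l)` a unit of `V`, and `p / w ^ j ∈ Q G₁`.  If an ideal `I` of `Q` is generated by `G₁` and by `G₂`, with
`x_i ∈ G_i` such that `G_i / x_i ⊆ V`, then `x₁ / x₂` is a unit of `V` and `lo V Q[G₁ / x₁] = lo V Q[G₂ / x₂]`. -/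
def S_BUB : Prop := ∀ (O F : Type) [CommRing O] [Field F] [Algebra O F] [IsNoetherianRing O] (M : Submodule O F),
  Md M → ∀ E : Set (ValuationSubring F), (∀ V ∈ E, Cn O V) → ∀ k C, Cent M E k C →
    ∀ (E' : Set (ValuationSubring F)) (B : Subring F), Dn M E' E → FGO O B → (∀ V ∈ E', On M B V) →
    ∀ V ∈ E', (∃ x : B, x ∈ IB B E' ∧ x ≠ 0 ∧ ∀ b : B, b ∈ IB B E' → (b : F) / x ∈ V) ∧
      ∀ x : B, x ∈ IB B E' → x ≠ 0 → (∀ b : B, b ∈ IB B E' → (b : F) / x ∈ V) →
        LR V (M * C) (bl V.toSubring B (IB B E') x)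

/-- **BUC** The contact with a class which is separated from the centre drops.  Proof: let `c ∈ M ^ j` vanish on
`𝒯 ∪ E`, of order `≤ q + 1` at `V ∈ E`.  By `Cent`, `W c ∈ M ^ (j + l) C`, `W ∈ M ^ (k + l)` not vanishing at `V`.  Let
`c₀ ∈ C` with `C / c₀ ⊆ V`.  Let `a = j + l`; if `a = 0` multiply `W c` by an element of `M` first, so that `a ≥ 1`.  Then
`c'' = W c c₀ ^ (a - 1) ∈ M ^ a C ^ a = (M C) ^ a`.  For `w'' ∈ M C`: `V(w'') ≤ V(w c₀)`, `w` maximal, and
`c'' / (w c₀) ^ a = (W / w ^ (k + l)) (c / w ^ j) / (c₀ / w ^ k)`, of order `≤ q` as `V(c₀ / w ^ k) < 1` (`V ∈ E`).  For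
`T ∈ 𝒯` there is an element of `C` not vanishing at `T` (as in `S_BUA`), so with `c_T ∈ C` maximal at `T`,
`T(c_T) = T(w_T) ^ k`, and `T(c'') < T(w_T) ^ (k + l + j) T(c_T) ^ (a - 1) = T(w_T c_T) ^ a`. -/
def S_BUC : Prop := ∀ (O F : Type) [CommRing O] [Field F] [Algebra O F] (M : Submodule O F),
  Md M → ∀ E : Set (ValuationSubring F), (∀ V ∈ E, Cn O V) → ∀ k C, Cent M E k C →
    ∀ (𝒯 : Set (ValuationSubring F)), (∀ T ∈ 𝒯, Cn O T ∧ Sep M T E) →
    ∀ V ∈ E, ∀ q, Bd M V (𝒯 ∪ E) (q + 1) → Bd (M * C) V 𝒯 q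

/-- **MON** The blowing-up of a regular local ring in a regular centre is regular.  `A` is a local ring (`Loc A`) of
`F`, `P ≤ A`, `Q = lo A P` is regular and `Q / I Q` is regular; `x ∈ I` generates `I A`.  Proof: `I Q` is generated by a
part `y_i`, `i ∈ s₀`, of a regular system of parameters `y` of `Q` (the kernel of a surjection of regular local rings:
lift a regular system of parameters of `Q / I Q`, ...: `Q / (y_i : i ∈ s₀) → Q / I Q` is a surjection of domains of the
same dimension); some `y_j`, `j ∈ s₀`, satisfies `x / y_j ∈ A`; apply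
`regP_qt` (file RL) with `s = s₀ \ {j}`, and compare the closures as in `Pool.Agent.TH188.QS.regP_step`. -/
def S_MON : Prop := ∀ (F : Type) [Field F] (A P : Subring F), Loc A → P ≤ A → IsRegularLocalRing (lo A P) →
  ∀ I : Ideal P, RQ A P I → ∀ x : P, x ∈ I → x ≠ 0 → (∀ b : P, b ∈ I → (b : F) / x ∈ A) →
    IsRegularLocalRing (bl A P I x)

/-- **J0F** Finitely generated domains over a perfect field are generically regular.  Proof:
`exists_jac` (light copy: file RLJ) for `S = MvPolynomial (Fin n) k → B → Frac B` (formally smooth over `k`), then at the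
primes not containing the minor `t` the ring is regular: `S_REG0`'s argument (the equations are independent modulo the square of the maximal ideal of the local ring of `S`), or Mathlib. -/
def S_J0F : Prop := ∀ (k : Type) [Field k] [PerfectField k], J0 k

/-- **J0Z** The same over the integers (characteristic zero: `exists_jac` with `k₀ = ℤ`; characteristic `p`: `B` is
a finitely generated domain over `ZMod p`, `S_J0F`). -/
def S_J0Z : Prop := S_J0F → J0 ℤ

/-- **LQ** The closure of the centres is regular on an open set.  From `J0 O` for `B / 𝔭`, and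
`lo V B / 𝔭 ≃ (B / 𝔭)_(𝔮 / 𝔭)` with `𝔮` the centre of `V` on `B`. -/
def S_LQ : Prop := ∀ (O F : Type) [CommRing O] [Field F] [Algebra O F] [IsNoetherianRing O], J0 O →
  ∀ B : Subring F, FGO O B → ∀ 𝔭 : Ideal B, 𝔭.IsPrime →
    ∃ t : B, t ∉ 𝔭 ∧ ∀ V : ValuationSubring F, B ≤ V.toSubring → (∀ b : B, b ∈ 𝔭 → V.valuation (b : F) < 1) →
      ¬ V.valuation (t : F) < 1 → RQ V.toSubring B 𝔭

/-- **GR** If `B_𝔭` is regular then `B` is regular on an open set of `V(𝔭)`.  Proof: `𝔭 B_𝔭` is generated by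
`s = dim B_𝔭` elements `g_1, …, g_s ∈ 𝔭`, which generate `𝔭 B_u` for some `u ∉ 𝔭`; for `V` with `V(u t) = 1` (`t` from
`S_LQ`) the maximal ideal of `Q = lo V B` is generated by `s + dim Q / 𝔭 Q ≤ dim Q` elements. -/
def S_GR : Prop := ∀ (F : Type) [Field F] (B : Subring F) [IsNoetherianRing B] (𝔭 : Ideal B) [𝔭.IsPrime],
  IsRegularLocalRing (Localization.AtPrime 𝔭) →
    ∃ t : B, t ∉ 𝔭 ∧ ∀ V : ValuationSubring F, B ≤ V.toSubring → (∀ b : B, b ∈ 𝔭 → V.valuation (b : F) < 1) →
      ¬ V.valuation (t : F) < 1 → RQ V.toSubring B 𝔭 → IsRegularLocalRing (lo V.toSubring B)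

/-- **DEP** The dichotomy for a presentation: if `B_𝔭` is not regular then the equations are dependent modulo the square
of `𝔓 = θ⁻¹ 𝔭`.  (`θ : P → B` is the surjection with `Pr p.φ s (θ s)`.)  Proof: the localisation `P_𝔓` is regular: it
is a localisation of the regular local ring `lo (AA V₀) P` (`Pool.Agent.N98.SS.regular_localization`, Serre).  If the `f_i`
were independent modulo the square of its maximal ideal (`Ind`) then, as in `US.regular`, `P_𝔓 / (f) ≃ B_𝔭` would be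
regular. So `Σ a_i f_i ∈ 𝔓² P_𝔓` with some `a_(i₀) ∉ 𝔓 P_𝔓`; clear the denominators. -/
def S_DEP : Prop := ∀ (O S F : Type) [CommRing O] [IsNoetherianRing O] [CommRing S] [IsDomain S] [Field F]
  [Algebra O (FractionRing S)] [Algebra O F] (p : Pres S F) (n : ℕ) (B : Subring F), p.Ok O n B →
  ∀ (𝔭 : Ideal B) [𝔭.IsPrime] (V₀ : ValuationSubring F), p.At n B V₀ →
    (∀ b : B, b ∈ 𝔭 → V₀.valuation (b : F) < 1) → ¬ IsRegularLocalRing (Localization.AtPrime 𝔭) →
    ∃ (a : Fin p.r → FractionRing S) (i₀ : Fin p.r) (wa : B), (∀ i, a i ∈ p.P) ∧ Pr p.φ (a i₀) (wa : F) ∧ wa ∉ 𝔭 ∧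
      ∃ N : p.P, (N : FractionRing S) = ∑ i, a i * p.f i ∧
        N ∈ (Ideal.span {s : p.P | ∃ w : B, w ∈ 𝔭 ∧ Pr p.φ (s : FractionRing S) (w : F)}) ^ 2

/-- **STEP** The presentations of the charts of the blowing-up.  Let `x_1, …, x_m` generate the ideal `𝔓 = θ⁻¹ 𝔭` of
`P` (noetherian).  For `l` with `θ x_l ≠ 0` let `P'_l = P[x_1 / x_l, …, x_m / x_l]`, `B'_l = B[θ x_j / θ x_l]`,
`z'_n = θ x_l`, `u' = wa * u`, `f'_i = f_i / x_l` for `i ≠ i₀` and `f'_(i₀) = N / x_l ^ 2`, `t = wa`.  All the formulas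
are in `Pool.Agent.TH188.QS.US.next`. At `V` one takes `l` such that `θ x_l` has the maximal value;
`lo (AA V) P'_l = bl (AA V) P 𝔓 x_l` is regular by `S_MON`, as `lo (AA V) P / 𝔓 ≃ lo V B / 𝔭` is regular. -/
def S_STEP : Prop := S_MON → ∀ (O S F : Type) [CommRing O] [IsNoetherianRing O] [CommRing S] [IsDomain S] [Field F]
  [Algebra O (FractionRing S)] [Algebra O F] (p : Pres S F) (n : ℕ) (B : Subring F), p.Ok O n B →
  ∀ (𝔭 : Ideal B) [𝔭.IsPrime] (a : Fin p.r → FractionRing S) (i₀ : Fin p.r) (wa : B), (∀ i, a i ∈ p.P) →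
    Pr p.φ (a i₀) (wa : F) → wa ∉ 𝔭 →
    (∃ N : p.P, (N : FractionRing S) = ∑ i, a i * p.f i ∧
        N ∈ (Ideal.span {s : p.P | ∃ w : B, w ∈ 𝔭 ∧ Pr p.φ (s : FractionRing S) (w : F)}) ^ 2) →
    ∃ (m : ℕ) (p' : Fin m → Pres S F) (B' : Fin m → Subring F),
      (∀ l, (p' l).Ok O (n + 1) (B' l) ∧ (p' l).dl = p.dl) ∧
      ∀ V : ValuationSubring F, p.At n B V → (∀ b : B, b ∈ 𝔭 → V.valuation (b : F) < 1) →
        ¬ V.valuation (wa : F) < 1 → RQ V.toSubring B 𝔭 →
        ∀ x : B, x ∈ 𝔭 → x ≠ 0 → (∀ b : B, b ∈ 𝔭 → (b : F) / x ∈ V) →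
          ∃ l, (p' l).At (n + 1) (B' l) V ∧ lo V.toSubring (B' l) = bl V.toSubring B 𝔭 x

/-- **BND** The number of steps is bounded by the order of the minor.  Proof: `Z dd(f_i) ∈ V`, so
`Z ^ r det ∈ V` and `u δ = Z (Z ^ r det) `; so `V(δ) ≤ V(Z) = V(z_0 ⋯ z_(n-1))`. -/
def S_BND : Prop := ∀ (O S F : Type) [CommRing O] [CommRing S] [IsDomain S] [Field F]
  [Algebra O (FractionRing S)] [Algebra O F] (p : Pres S F) (n : ℕ) (B : Subring F), p.Ok O n B →
  ∀ (V : ValuationSubring F), p.At n B V → ∀ e, OrdLe V p.dl e → n ≤ e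

/-- **INIT** The presentation of level `0` of a chart: `φ : S → F` with the image `B`, `S` a regular ring which is
finitely generated over `O`, equations `f₀` and derivations `D`. (`regular_range`, and `US.init`.) -/
def S_INIT : Prop := ∀ (O S F : Type) [CommRing O] [IsNoetherianRing O] [CommRing S] [IsDomain S] [IsRegularRing S]
  [Field F] [Algebra O F] [Algebra O S] [Algebra.FiniteType O S] [Algebra O (FractionRing S)]
  [IsScalarTower O S (FractionRing S)] (φ : S →+* F) (_ : ∀ o, φ (algebraMap O S o) = algebraMap O F o) (r : ℕ) (D : Fin r → S → F) (hD : ∀ j, Der φ (D j))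
  (f₀ : Fin r → S), (∀ i, φ (f₀ i) = 0) →
  (∀ s, φ s = 0 → ∃ t, φ t ≠ 0 ∧ t * s ∈ Ideal.span (Set.range f₀)) → (∀ j s, D j s ∈ φ.range) →
  ∃ p : Pres S F, p.Ok O 0 φ.range ∧ p.dl = (Matrix.of fun i j => D j (f₀ i)).det ∧
    ∀ V : ValuationSubring F, φ.range ≤ V.toSubring → p.At 0 φ.range V

/-- **REG0** At level zero: if the minor is a unit of `V` then the centre is regular.  Proof: `P = lo (AA V) S` is
regular (`regular_range`). If `Σ a_i f_i ∈ 𝔪_P ^ 2`, `a_i ∈ P`, then `Σ θ(a_i) dd(D_j)(f_i) ∈ 𝔪_V` for all `j` (as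
`dd(D_j)(P) ⊆ V`, `f_i ↦ 0`), so all `θ(a_i) ∈ 𝔪_V` as the determinant is a unit: the `f_i` are independent (`Ind`), and
`P / (f) = lo V B` as in `Pool.Agent.TH188.QS.US.regular`. -/
def S_REG0 : Prop := ∀ (S F : Type) [CommRing S] [IsDomain S] [IsRegularRing S]
  [Field F] (φ : S →+* F) (r : ℕ) (D : Fin r → S → F) (hD : ∀ j, Der φ (D j))
  (f₀ : Fin r → S), (∀ i, φ (f₀ i) = 0) →
  (∀ s, φ s = 0 → ∃ t, φ t ≠ 0 ∧ t * s ∈ Ideal.span (Set.range f₀)) → (∀ j s, D j s ∈ φ.range) →
  ∀ V : ValuationSubring F, φ.range ≤ V.toSubring → ¬ V.valuation (Matrix.of fun i j => D j (f₀ i)).det < 1 →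
    IsRegularLocalRing (lo V.toSubring φ.range)

/-- **PER** Separation and bounds persist.  Proof: replace `c ∈ M ^ k` by `c c₀ ^ k ∈ (M C) ^ k`, where `c₀ ∈ C` is
maximal at `V` (`C / c₀ ⊆ V`, `c₀ ≠ 0`; it exists as `C` is finitely generated and `V ⊇ O`). -/
def S_PER : Prop := ∀ (O F : Type) [CommRing O] [Field F] [Algebra O F] (M C : Submodule O F), Md M → Md C →
  Md (M * C) ∧ ∀ V : ValuationSubring F, Cn O V → ∀ 𝒮 : Set (ValuationSubring F),
    (Sep M V 𝒮 → Sep (M * C) V 𝒮) ∧ ∀ q, Bd M V 𝒮 q → Bd (M * C) V 𝒮 q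

/-- **TRN** Transfer of density between models with the same local rings at the elements of `E`.  Proof (from
`S_OPN`): let `a' ∈ M' ^ j` not vanish at `V ∈ E`; let `w' ∈ M'` with `M' / w' ⊆ V`.  The elements `m'_i / w'` (`m'_i`
generators of `M'`) and `w' ^ j / a'` are in the local ring `Q` of `M'` and `M` at `V`; by `S_OPN` (take the product of
the sections) there is `a ∈ M ^ k`, not vanishing at `V`, such that all these elements are in the local rings at
`T` for all `T ∈ E` at which `a` does not vanish; at these `T` also `a'` does not vanish.  As `E'` is dense there is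
such a `T` in `E'`.  (`¬ Vn (j + k) V (a b) ↔ ¬ Vn j V a ∧ ¬ Vn k V b` for `V ⊇ O`, `a ∈ M ^ j`, `b ∈ M ^ k`.) -/
def S_TRN : Prop := S_OPN → ∀ (O F : Type) [CommRing O] [Field F] [Algebra O F] (M M' : Submodule O F), Md M → Md M' →
  ∀ E' E : Set (ValuationSubring F), (∀ V ∈ E, Cn O V) → (∀ V ∈ E, ∀ Q : Subring F, LR V M Q → LR V M' Q) →
    Dn M E' E → Dn M' E' E

/-- **PRI** The ideal of the closure of a dense subclass `E'` of an irreducible class `E`, in a chart `B`, is a prime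
ideal, it does not change if `E'` is replaced by a nonempty relatively open subclass, and `t ≠ 0` modulo this ideal
contains a relatively open set.  Proof (from `S_OPN`): if `t ∈ B`, `T₀ ∈ E'`, `T₀(t) = 1` then `t⁻¹ ∈ lo T₀ B`, so there
is `a ∈ M ^ k`, not vanishing at `T₀`, with `t⁻¹ ∈ lo T B ⊆ T` for all `T ∈ E'` at which `a` does not vanish. -/
def S_PRI : Prop := S_OPN → ∀ (O F : Type) [CommRing O] [Field F] [Algebra O F] (M : Submodule O F), Md M →
  ∀ E' E : Set (ValuationSubring F), (∀ V ∈ E, Cn O V) → Irr M E → Dn M E' E →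
  ∀ B : Subring F, (∀ V ∈ E', On M B V) →
    (IB B E').IsPrime ∧
    (∀ j, ∀ g ∈ M ^ j, (∃ T ∈ E, ¬ Vn M j T g) → IB B {T ∈ E' | ¬ Vn M j T g} = IB B E') ∧
    ∀ t : B, t ∉ IB B E' → ∃ k, ∃ a ∈ M ^ k, (∃ T ∈ E, ¬ Vn M k T a) ∧
      ∀ T ∈ E', ¬ Vn M k T a → ¬ T.valuation (t : F) < 1

/-- The class `E` can be resolved by a blowing-up which is an isomorphism outside of its closure, and can be separated
from `𝒯`. -/
def Res {O F : Type} [CommRing O] [Field F] [Algebra O F] (M : Submodule O F) (E 𝒯 : Set (ValuationSubring F)) :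
    Prop :=
  ∃ C : Submodule O F, Md C ∧
    (∀ V : ValuationSubring F, Cn O V → Sep M V E → ∀ Q : Subring F, LR V M Q → LR V (M * C) Q) ∧
    ∀ V ∈ E, Rg (M * C) V ∧ Sep (M * C) V 𝒯

/-- Every element of `E` is regular on `M` or has a presentation of level `n` from a finite list. -/
def St (O S : Type) {F : Type} [CommRing O] [CommRing S] [IsDomain S] [Field F] [Algebra O F]
    [Algebra O (FractionRing S)] (M : Submodule O F) (n e : ℕ) (E : Set (ValuationSubring F)) : Prop :=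
  ∃ (m : ℕ) (p : Fin m → Pres S F) (B : Fin m → Subring F), (∀ l, (p l).Ok O n (B l)) ∧
    ∀ V ∈ E, Rg M V ∨ ∃ l, (p l).At n (B l) V ∧ LR V M (lo V.toSubring (B l)) ∧ OrdLe V (p l).dl e

/-- **SEP0** (proved by helper275) Separation for regular classes. -/
def S_SEP0 : Prop := ∀ (O F : Type) [CommRing O] [Field F] [Algebra O F] [IsNoetherianRing O], J0 O →
  ∀ (q : ℕ) (M : Submodule O F), Md M → ∀ E 𝒯 : Set (ValuationSubring F), (∀ V ∈ E, Cn O V) →
    (∀ T ∈ 𝒯, Cn O T ∧ Sep M T E) → (∀ V ∈ E, Rg M V ∧ Bd M V 𝒯 q) → Res M E 𝒯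

/-- **RES** (proved by helper275) The main theorem. -/
def S_RES : Prop := ∀ (O S F : Type) [CommRing O] [CommRing S] [IsDomain S] [Field F] [Algebra O F]
    [Algebra O (FractionRing S)] [IsNoetherianRing O], J0 O →
  ∀ (e q n : ℕ) (M : Submodule O F), Md M → ∀ E 𝒯 : Set (ValuationSubring F), (∀ V ∈ E, Cn O V) →
    (∀ T ∈ 𝒯, Cn O T ∧ Sep M T E) → (∀ V ∈ E, Bd M V (E ∪ 𝒯) q) → St O S M n e E → Res M E 𝒯

end Pool.Agent.Run7.h275.RB
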