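import Pool.Agent.Run7.h275.RB0

/-!
# Basic facts on vanishing at centres
-/

set_option autoImplicit false
set_option linter.unusedVariables false

namespace Pool.Agent.Run7.h275.RB

open IsLocalRing Pool.Agent.W418.LU2 Pool.Agent.H918R2.Quad Pool.Agent.Run7.h275.RL

section basic

variable {O F : Type} [CommRing O] [Field F] [Algebra O F] {M : Submodule O F} {V : ValuationSubring F}

lemma exists_wmax (hM : Md M) (hV : Cn O V) : ∃ w ∈ M, w ≠ 0 ∧ ∀ m ∈ M, m / w ∈ V := by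
  obtain ⟨g, hg, hg0⟩ := hM.2
  exact exists_gen_max hV hM.1 hg hg0

lemma val_le_of_div {m w : F} (hw : w ≠ 0) (h : m / w ∈ V) : V.valuation m ≤ V.valuation w := by
  have h1 : V.valuation (m / w) ≤ 1 := (V.valuation_le_one_iff _).2 h
  have h2 : m = m / w * w := by rw [div_mul_cancel₀ _ hw]
  rw [h2, map_mul]
  exact mul_le_of_le_one_left' h1

lemma div_of_val_le {m w : F} (hw : w ≠ 0) (h : V.valuation m ≤ V.valuation w) : m / w ∈ V := by
  rw [← V.valuation_le_one_iff, map_div₀]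
  exact div_le_one_of_le₀ h zero_le

lemma pow_le_max (hV : Cn O V) {w : F} (hw0 : w ≠ 0) (hw : ∀ m ∈ M, m / w ∈ V) (k : ℕ) {m : F}
    (hm : m ∈ M ^ k) : V.valuation m ≤ V.valuation w ^ k := by
  have h1 : m / w ^ k ∈ V := chart_le_V hV hw (pow_div_mem hw0 k m hm)
  rw [← map_pow]
  exact val_le_of_div (pow_ne_zero _ hw0) h1

lemma vn_iff (hV : Cn O V) {w : F} (hwM : w ∈ M) (hw0 : w ≠ 0) (hw : ∀ m ∈ M, m / w ∈ V) (k : ℕ) (c : F) :
    Vn M k V c ↔ V.valuation c < V.valuation w ^ k := by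
  constructor
  · rintro ⟨w', hw', h⟩
    refine h.trans_le ?_
    exact pow_le_pow_left₀ zero_le (val_le_of_div hw0 (hw w' hw')) k
  · intro h
    exact ⟨w, hwM, h⟩

lemma not_vn_iff (hV : Cn O V) {w : F} (hwM : w ∈ M) (hw0 : w ≠ 0) (hw : ∀ m ∈ M, m / w ∈ V) (k : ℕ) (c : F) :
    ¬ Vn M k V c ↔ V.valuation w ^ k ≤ V.valuation c := by
  rw [vn_iff hV hwM hw0 hw, not_lt]

lemma not_vn_mul (hM : Md M) (hV : Cn O V) {j k : ℕ} {a b : F} (ha : a ∈ M ^ j) (hb : b ∈ M ^ k) :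
    ¬ Vn M (j + k) V (a * b) ↔ ¬ Vn M j V a ∧ ¬ Vn M k V b := by
  obtain ⟨w, hwM, hw0, hw⟩ := exists_wmax hM hV
  rw [not_vn_iff hV hwM hw0 hw, not_vn_iff hV hwM hw0 hw, not_vn_iff hV hwM hw0 hw, map_mul, pow_add]
  have hwp : 0 < V.valuation w := (Valuation.pos_iff _).2 hw0
  have ha' := pow_le_max hV hw0 hw j ha
  have hb' := pow_le_max hV hw0 hw k hb
  constructor
  · intro h
    constructor
    · by_contra hcon
      rw [not_le] at hcon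
      refine absurd h (not_le.2 ?_)
      exact (mul_le_mul' le_rfl hb').trans_lt (mul_lt_mul_of_pos_right hcon (pow_pos hwp k))
    · by_contra hcon
      rw [not_le] at hcon
      refine absurd h (not_le.2 ?_)
      rw [mul_comm, mul_comm (V.valuation w ^ j)]
      exact (mul_le_mul' le_rfl ha').trans_lt (mul_lt_mul_of_pos_right hcon (pow_pos hwp j))
  · rintro ⟨h1, h2⟩
    exact mul_le_mul' h1 h2

lemma vn_mul_left (hM : Md M) (hV : Cn O V) {j k : ℕ} {a b : F} (ha : a ∈ M ^ j) (hb : b ∈ M ^ k)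
    (h : Vn M j V a) : Vn M (j + k) V (a * b) := by
  by_contra hcon
  exact ((not_vn_mul hM hV ha hb).1 hcon).1 h

lemma vn_mul_right (hM : Md M) (hV : Cn O V) {j k : ℕ} {a b : F} (ha : a ∈ M ^ j) (hb : b ∈ M ^ k)
    (h : Vn M k V b) : Vn M (j + k) V (a * b) := by
  by_contra hcon
  exact ((not_vn_mul hM hV ha hb).1 hcon).2 h

lemma mul_mem_pow_add {j k : ℕ} {a b : F} (ha : a ∈ M ^ j) (hb : b ∈ M ^ k) : a * b ∈ M ^ (j + k) := by
  rw [pow_add]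
  exact Submodule.mul_mem_mul ha hb

lemma Sep.mono {E E' : Set (ValuationSubring F)} (h : Sep M V E) (hE : E' ⊆ E) : Sep M V E' := by
  obtain ⟨k, c, hc, h1, h2⟩ := h
  exact ⟨k, c, hc, h1, fun T hT => h2 T (hE hT)⟩

lemma Bd.mono {E E' : Set (ValuationSubring F)} {q : ℕ} (h : Bd M V E q) (hE : E' ⊆ E) : Bd M V E' q := by
  obtain ⟨k, c, hc, h1, h2⟩ := h
  exact ⟨k, c, hc, fun T hT => h1 T (hE hT), h2⟩

/-- The class of the elements which are not separated from `𝒯`. -/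
lemma Bd.union {E 𝒯 : Set (ValuationSubring F)} {q : ℕ} (h : Bd M V 𝒯 q) (hE : ∀ T ∈ E, ¬ Sep M T 𝒯) :
    Bd M V (𝒯 ∪ E) q := by
  obtain ⟨k, c, hc, h1, h2⟩ := h
  refine ⟨k, c, hc, ?_, h2⟩
  rintro T (hT | hT)
  · exact h1 T hT
  · by_contra hcon
    exact hE T hT ⟨k, c, hc, hcon, h1⟩

lemma OrdLe.zero {a : F} (h : OrdLe V a 0) : ¬ V.valuation a < 1 := by
  intro ha
  have := h (fun _ => a) (fun _ _ => ha)
  rw [zero_add, Finset.prod_range_one] at this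
  exact lt_irrefl _ this

lemma OrdLe.ne {a : F} {q : ℕ} (h : OrdLe V a q) : a ≠ 0 := by
  rintro rfl
  have := h (fun _ => 0) (fun _ _ => by rw [map_zero]; exact zero_lt_one)
  rw [map_zero] at this
  exact absurd this not_lt_zero

lemma Bd.sep (hM : Md M) (hV : Cn O V) {E : Set (ValuationSubring F)} (h : Bd M V E 0) : Sep M V E := by
  obtain ⟨k, c, hc, h1, h2⟩ := h
  obtain ⟨w, hwM, hw0, hw⟩ := exists_wmax hM hV
  refine ⟨k, c, hc, ?_, h1⟩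
  rw [not_vn_iff hV hwM hw0 hw]
  have h3 := (h2 w hwM hw0).zero
  rw [not_lt, map_div₀, map_pow] at h3
  have hwp : 0 < V.valuation w ^ k := pow_pos ((Valuation.pos_iff _).2 hw0) k
  exact (one_le_div₀ hwp).1 h3

lemma Bd.ne_zero {E : Set (ValuationSubring F)} {q : ℕ} (hM : Md M) (h : Bd M V E q) :
    ∃ k, ∃ c ∈ M ^ k, c ≠ 0 ∧ ∀ T ∈ E, Vn M k T c := by
  obtain ⟨k, c, hc, h1, h2⟩ := h
  obtain ⟨g, hg, hg0⟩ := hM.2
  refine ⟨k, c, hc, ?_, h1⟩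
  rintro rfl
  exact (h2 g hg hg0).ne (zero_div _)

lemma Rg.iso {M' : Submodule O F} (h : Rg M V) (hi : ∀ Q : Subring F, LR V M Q → LR V M' Q) : Rg M' V := by
  obtain ⟨Q, hQ, hr⟩ := h
  exact ⟨Q, hi Q hQ, hr⟩

lemma Res.empty {𝒯 : Set (ValuationSubring F)} : Res M ∅ 𝒯 := by
  refine ⟨1, ⟨?_, 1, Submodule.one_le.1 le_rfl, one_ne_zero⟩, ?_, ?_⟩
  · rw [Submodule.one_eq_span]
    exact Submodule.fg_span_singleton _
  · intro V _ _ Q hQ
    rwa [mul_one]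
  · intro V hV
    exact absurd hV (Set.notMem_empty V)

end basic

/-- Gluing. -/
lemma glue (hPER : S_PER) (hBUA : S_BUA) {O F : Type} [CommRing O] [Field F] [Algebra O F]
    {M : Submodule O F} (hM : Md M) {E E' U 𝒯 : Set (ValuationSubring F)} (hE : ∀ V ∈ E, Cn O V)
    (hE' : E' ⊆ E) (hU : U ⊆ E) (hEE : ∀ V ∈ E, V ∈ E' ∨ V ∈ U) {C₁ : Submodule O F} (hC₁ : Md C₁)
    (iso : ∀ V : ValuationSubring F, Cn O V → Sep M V E' → ∀ Q : Subring F, LR V M Q → LR V (M * C₁) Q)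
    (good : ∀ V ∈ E', Rg (M * C₁) V ∧ Sep (M * C₁) V (𝒯 ∪ U))
    {k : ℕ} {C₂ : Submodule O F} (hC : Cent (M * C₁) U k C₂) (hR : Res (M * C₁ * C₂) U 𝒯) : Res M E 𝒯 := by
  obtain ⟨C₃, hC₃, iso₃, good₃⟩ := hR
  obtain ⟨p1, p2⟩ := hPER O F M C₁ hM hC₁
  obtain ⟨p3, p4⟩ := hPER O F (M * C₁) C₂ p1 hC.1
  obtain ⟨p5, p6⟩ := hPER O F (M * C₁ * C₂) C₃ p3 hC₃
  have e1 : M * (C₁ * (C₂ * C₃)) = M * C₁ * C₂ * C₃ := by
    rw [mul_assoc, mul_assoc]
  have hUC : ∀ V ∈ U, Cn O V := fun V hV => hE V (hU hV)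
  have iso' : ∀ V : ValuationSubring F, Cn O V → Sep (M * C₁) V U → ∀ Q : Subring F, LR V (M * C₁) Q →
      LR V (M * C₁ * C₂ * C₃) Q := by
    intro V hV hs Q hQ
    refine iso₃ V hV (((p4 V hV U).1) hs) Q ?_
    exact hBUA O F (M * C₁) p1 U hUC k C₂ hC V hV hs Q hQ
  refine ⟨C₁ * (C₂ * C₃), ?_, ?_, ?_⟩
  · obtain ⟨q1, -⟩ := hPER O F C₂ C₃ hC.1 hC₃
    exact (hPER O F C₁ (C₂ * C₃) hC₁ q1).1
  · intro V hV hs Q hQ
    rw [e1]
    exact iso' V hV ((p2 V hV U).1 (hs.mono hU)) Q (iso V hV (hs.mono hE') Q hQ)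
  · intro V hV
    rw [e1]
    rcases hEE V hV with h | h
    · obtain ⟨g1, g2⟩ := good V h
      refine ⟨g1.iso (iso' V (hE V hV) (g2.mono Set.subset_union_right)), ?_⟩
      exact (p6 V (hE V hV) 𝒯).1 ((p4 V (hE V hV) 𝒯).1 (g2.mono Set.subset_union_left))
    · exact good₃ V h

end Pool.Agent.Run7.h275.RB
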