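import Pool.Agent.Run7.h275.RB6

/-!
# Interface, fourth part: the tower

There is a tower `… → X_2 → X_1 → X_0 = Proj O[M₀]` such that `X_(e+1) → X_e` is an isomorphism over the locus where `X_e` is
regular and the divisor has normal crossings, and this locus contains the centres of all valuations of Jacobian order
`≤ e`.
-/

set_option autoImplicit false
set_option linter.unusedVariables false

namespace Pool.Agent.Run7.h275.RB

open IsLocalRing Pool.Agent.W418.LU2 Pool.Agent.H918R2.Quad Pool.Agent.Run7.h275.RL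

/-- **ISO** The blowing-up of `C ≤ M ^ k` is an isomorphism where `C` is the unit ideal (from the proof of `S_BUA`). -/
def S_ISO : Prop := ∀ (O F : Type) [CommRing O] [Field F] [Algebra O F] (M C : Submodule O F) (k : ℕ), Md M → Md C →
  C ≤ M ^ k → ∀ V : ValuationSubring F, Cn O V → (∃ c ∈ C, ¬ Vn M k V c) → ∀ Q : Subring F, LR V M Q → LR V (M * C) Q

/-- **NVC** The centre is the unit ideal outside of the closure of the class (from the proof of `S_BUA`). -/
def S_NVC : Prop := ∀ (O F : Type) [CommRing O] [Field F] [Algebra O F] (M : Submodule O F),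
  Md M → ∀ E : Set (ValuationSubring F), ∀ k C, Cent M E k C →
    ∀ V : ValuationSubring F, Cn O V → Sep M V E → ∃ c ∈ C, ¬ Vn M k V c

/-- **NUL** If `V(𝔠) ⊆ V(J)` then `J ^ N ⊆ 𝔠`. Proof: let `𝔮 ⊇ 𝔠` be a prime ideal of `B`; there is a valuation ring `V` of
`F` which dominates `B_𝔮`; so `J ⊆ 𝔮`; `J ⊆ √𝔠`, `J` is finitely generated. -/
def S_NUL : Prop := ∀ (F : Type) [Field F] (B : Subring F) [IsNoetherianRing B] (J 𝔠 : Ideal B),
  (∀ V : ValuationSubring F, B ≤ V.toSubring → (∀ c : B, c ∈ 𝔠 → V.valuation (c : F) < 1) →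
    ∀ b : B, b ∈ J → V.valuation (b : F) < 1) → ∃ N : ℕ, J ^ N ≤ 𝔠

section

variable {F : Type} [Field F]

/-- Normal crossings: `Q` is regular and the ideal is generated by a monomial in a regular system of parameters. -/
def NCI (Q : Subring F) (I : Ideal Q) : Prop :=
  ∃ (_ : IsRegularLocalRing Q) (r : ℕ) (x : Fin r → Q) (α : Fin r → ℕ),
    Ideal.span (Set.range x) = maximalIdeal Q ∧ ringKrullDim Q = r ∧ I = Ideal.span {∏ i, x i ^ α i}

/-- The ideal of `lo A B` generated by the ideal `I` of `B`. -/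
def IL (A B : Subring F) (I : Ideal B) : Ideal (lo A B) := I.map (Subring.inclusion (le_lo A B))

end

/-- **NCO** Normal crossings spread out (with `I = ⊤`: regularity).  Proof: let `x` be the regular system of parameters of
`Q = lo V B`, `J = {i : x i ∈ 𝔭 Q}`.  `Q / (x i : i ∈ J)` is regular, so its localisation at `𝔭` is regular, and `x i`, `i ∈ J`, is
a part of a regular system of parameters `x i (i ∈ J), g_j` of `Q_𝔭 = B_𝔭` (`regular_localization`, Serre; see `S_GR`, `S_DEP`).
There is a `t ∉ 𝔭` such that over `B_t` all `x i`, `g_j` are defined, `x i`, `i ∉ J`, is a unit, `𝔭 B_t = (x i (i ∈ J), g_j)` and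
`I B_t = (∏ x i ^ α i)` (a generator `u ∈ I` is a multiple of `∏ x i ^ α i` in `Q`, the denominator is not in the centre of `V`,
which contains `𝔭`; and conversely).  For `T` with `T(t) = 1`, `lo T B / 𝔭` regular: `x i (i ∈ J), g_j` and a lift of a regular
system of parameters of `lo T B / 𝔭` generate the maximal ideal of `lo T B`, their number is at most the dimension. -/
def S_NCO : Prop := ∀ (F : Type) [Field F] (B : Subring F) [IsNoetherianRing B] (I 𝔭 : Ideal B) [𝔭.IsPrime]
  (V : ValuationSubring F), B ≤ V.toSubring → (∀ b : B, b ∈ 𝔭 → V.valuation (b : F) < 1) →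
  NCI (lo V.toSubring B) (IL V.toSubring B I) →
  ∃ t : B, t ∉ 𝔭 ∧ ∀ T : ValuationSubring F, B ≤ T.toSubring → (∀ b : B, b ∈ 𝔭 → T.valuation (b : F) < 1) →
    ¬ T.valuation (t : F) < 1 → RQ T.toSubring B 𝔭 → NCI (lo T.toSubring B) (IL T.toSubring B I)

/-- **TRP** Presentations of the charts of `Proj O[M₀ C]`, `M₀ = (y_1, …, y_n)`, `C = (g_1, …, g_m) ≤ M₀ ^ κ`.  Let
`S = O[x_1, …, x_n][t_1, …, t_m]`, `φ(x_j) = y_j / y_i`, `φ(t_b) = g_b / g_k`, `G_b ∈ O[x]` with `φ(G_b) = g_b / y_i ^ κ`. The equations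
are the `f_a` and `G_k t_b - G_b`; the derivations `D_l` (on the coefficients) and `∂ / ∂ t_b`: the matrix is block triangular.
For `s ∈ ker φ`: `G_k ^ N s` is congruent to a polynomial in `x` modulo `G_k t_b - G_b`.  Then `S_INIT'` (helper806). -/
def S_TRP : Prop := ∀ (O F : Type) [CommRing O] [IsDomain O] [IsRegularRing O] [Field F] [Algebra O F] (n m : ℕ)
  (y : Fin n → F) (g : Fin m → F), (∀ i, y i ≠ 0) → (∀ k, g k ≠ 0) → ∀ κ : ℕ,
  (∀ k, g k ∈ (Submodule.span O (Set.range y)) ^ κ) → ∀ (i : Fin n) (k : Fin m) (δ : F), Mn O y i δ →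
  ∃ p : Pres (MvPolynomial (Fin m) (MvPolynomial (Fin n) O)) F,
    p.Ok O 0 (chart O (Submodule.span O (Set.range y) * Submodule.span O (Set.range g)) (y i * g k)).toSubring ∧
    p.dl = δ * (g k / y i ^ κ) ^ m ∧
    ∀ V : ValuationSubring F,
      (chart O (Submodule.span O (Set.range y) * Submodule.span O (Set.range g)) (y i * g k)).toSubring ≤ V.toSubring →
      p.At 0 (chart O (Submodule.span O (Set.range y) * Submodule.span O (Set.range g)) (y i * g k)).toSubring V

end Pool.Agent.Run7.h275.RB
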