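import Pool.Agent.Run7.h275.RB8
import Pool.Agent.Run7.h275.RB10

/-!
# The general induction, with control of the centres
-/

set_option autoImplicit false
set_option linter.unusedVariables false

namespace Pool.Agent.Run7.h275.RB

open IsLocalRing Pool.Agent.W418.LU2 Pool.Agent.H918R2.Quad Pool.Agent.Run7.h275.RL

section gen

variable {O F : Type} [CommRing O] [Field F] [Algebra O F]

/-- `C` is a centre in `M ^ k` which is the unit ideal outside of the closure of `E`. -/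
def Nvn (M : Submodule O F) (E : Set (ValuationSubring F)) (C : Submodule O F) : Prop :=
  ∃ k, C ≤ M ^ k ∧ ∀ V : ValuationSubring F, Cn O V → Sep M V E → ∃ c ∈ C, ¬ Vn M k V c

/-- The class `E` can be transformed into a class with the property `P` by a blowing-up which is an isomorphism
outside of its closure, and can be separated from `𝒯`. -/
def ResQ (P : Submodule O F → ValuationSubring F → Prop) (M : Submodule O F) (E 𝒯 : Set (ValuationSubring F)) :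
    Prop :=
  ∃ C : Submodule O F, Md C ∧ Nvn M E C ∧ ∀ V ∈ E, P (M * C) V ∧ Sep (M * C) V 𝒯

lemma one_nv {M : Submodule O F} {V : ValuationSubring F} : ¬ Vn M 0 V 1 := by
  rintro ⟨w, -, hw⟩
  rw [map_one, pow_zero] at hw
  exact lt_irrefl _ hw

lemma ResQ.empty {P : Submodule O F → ValuationSubring F → Prop} {M : Submodule O F}
    {𝒯 : Set (ValuationSubring F)} : ResQ P M ∅ 𝒯 := by
  refine ⟨1, ⟨?_, 1, Submodule.one_le.1 le_rfl, one_ne_zero⟩, ⟨0, by rw [pow_zero], ?_⟩, ?_⟩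
  · rw [Submodule.one_eq_span]
    exact Submodule.fg_span_singleton _
  · intro V _ _
    exact ⟨1, Submodule.one_le.1 le_rfl, one_nv⟩
  · intro V hV
    exact absurd hV (Set.notMem_empty V)

/-- Composition of blowing-ups. -/
lemma nv_comp {M C C' : Submodule O F} (hM : Md M) {k k' : ℕ} (hC : C ≤ M ^ k) (hC' : C' ≤ (M * C) ^ k') :
    C * C' ≤ M ^ (k + (1 + k) * k') ∧ ∀ V : ValuationSubring F, Cn O V → (∃ c ∈ C, ¬ Vn M k V c) →
      (∃ c ∈ C', ¬ Vn (M * C) k' V c) → ∃ c ∈ C * C', ¬ Vn M (k + (1 + k) * k') V c := by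
  constructor
  · rw [pow_add, pow_mul]
    refine mul_le_mul' hC (hC'.trans ?_)
    refine pow_le_pow_left' ?_ k'
    rw [pow_add, pow_one]
    exact mul_le_mul' le_rfl hC
  · rintro V hV ⟨c, hc, h1⟩ ⟨c', hc', h2⟩
    obtain ⟨w, hwM, hw0, hw⟩ := exists_wmax hM hV
    refine ⟨c * c', Submodule.mul_mem_mul hc hc', ?_⟩
    rw [not_vn_iff hV hwM hw0 hw] at h1 ⊢
    have hwp : 0 < V.valuation w := (Valuation.pos_iff _).2 hw0
    have hc0 : c ≠ 0 := by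
      rintro rfl
      rw [map_zero] at h1
      exact absurd (pow_pos hwp k) (not_lt.2 h1)
    have h3 : V.valuation (w * c) ^ k' ≤ V.valuation c' := by
      by_contra hcon
      rw [not_le] at hcon
      exact h2 ⟨w * c, Submodule.mul_mem_mul hwM hc, hcon⟩
    rw [map_mul, pow_add, pow_mul]
    refine mul_le_mul' h1 (le_trans ?_ h3)
    refine pow_le_pow_left₀ zero_le ?_ k'
    rw [map_mul, pow_add, pow_one]
    exact mul_le_mul' le_rfl h1

lemma ResQ.of_bad (hPER : S_PER) (hISO : S_ISO) {P : Submodule O F → ValuationSubring F → Prop} (hP : IsoInv P)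
    {M : Submodule O F} (hM : Md M) {E 𝒯 : Set (ValuationSubring F)} (hE : ∀ V ∈ E, Cn O V)
    (hreg : ∀ V ∈ E, P M V) (h : ResQ P M {V ∈ E | ¬ Sep M V 𝒯} 𝒯) : ResQ P M E 𝒯 := by
  obtain ⟨C, hC, ⟨k, hk, nv⟩, good⟩ := h
  refine ⟨C, hC, ⟨k, hk, fun V hV hs => nv V hV (hs.mono fun T hT => hT.1)⟩, fun V hV => ?_⟩
  by_cases hs : Sep M V 𝒯
  · refine ⟨hP _ _ V (hISO O F M C k hM hC hk V (hE V hV) (nv V (hE V hV) ?_)) (hreg V hV),
      (((hPER O F M C hM hC).2 V (hE V hV) 𝒯).1 hs)⟩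
    obtain ⟨k, c, hc, h1, h2⟩ := hs
    refine ⟨k, c, hc, h1, ?_⟩
    rintro T ⟨hT, hTs⟩
    by_contra hcon
    exact hTs ⟨k, c, hc, hcon, h2⟩
  · exact good V ⟨hV, hs⟩

lemma glueQ (hPER : S_PER) (hISO : S_ISO) (hNVC : S_NVC) {P : Submodule O F → ValuationSubring F → Prop}
    (hP : IsoInv P)
    {M : Submodule O F} (hM : Md M) {E E' U 𝒯 : Set (ValuationSubring F)} (hE : ∀ V ∈ E, Cn O V)
    (hE' : E' ⊆ E) (hU : U ⊆ E) (hEE : ∀ V ∈ E, V ∈ E' ∨ V ∈ U) {C₁ : Submodule O F} (hC₁ : Md C₁)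
    (nv : Nvn M E' C₁)
    (good : ∀ V ∈ E', P (M * C₁) V ∧ Sep (M * C₁) V (𝒯 ∪ U))
    {k : ℕ} {C₂ : Submodule O F} (hC : Cent (M * C₁) U k C₂) (hR : ResQ P (M * C₁ * C₂) U 𝒯) : ResQ P M E 𝒯 := by
  obtain ⟨C₃, hC₃, ⟨k₃, hk₃, nv₃⟩, good₃⟩ := hR
  obtain ⟨k₁, hk₁, nv₁⟩ := nv
  obtain ⟨p1, p2⟩ := hPER O F M C₁ hM hC₁
  obtain ⟨p3, p4⟩ := hPER O F (M * C₁) C₂ p1 hC.1
  obtain ⟨p5, p6⟩ := hPER O F (M * C₁ * C₂) C₃ p3 hC₃
  have hk₂ : C₂ ≤ (M * C₁) ^ k := fun c hc => ((hC.2.1 c).1 hc).1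
  have e1 : M * (C₁ * C₂ * C₃) = M * C₁ * C₂ * C₃ := by
    simp only [mul_assoc]
  have hUC : ∀ V ∈ U, Cn O V := fun V hV => hE V (hU hV)
  have iso' : ∀ V : ValuationSubring F, Cn O V → Sep (M * C₁) V U → ∀ Q : Subring F, LR V (M * C₁) Q →
      LR V (M * C₁ * C₂ * C₃) Q := by
    intro V hV hs Q hQ
    refine hISO O F (M * C₁ * C₂) C₃ k₃ p3 hC₃ hk₃ V hV (nv₃ V hV (((p4 V hV U).1) hs)) Q ?_
    exact hISO O F (M * C₁) C₂ k p1 hC.1 hk₂ V hV (hNVC O F (M * C₁) p1 U k C₂ hC V hV hs) Q hQ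
  obtain ⟨c1, c2⟩ := nv_comp hM hk₁ hk₂
  have hk₃' : C₃ ≤ (M * (C₁ * C₂)) ^ k₃ := by rw [← mul_assoc]; exact hk₃
  obtain ⟨c3, c4⟩ := nv_comp hM c1 hk₃'
  refine ⟨C₁ * C₂ * C₃, ?_, ⟨_, c3, ?_⟩, ?_⟩
  · obtain ⟨q1, -⟩ := hPER O F C₁ C₂ hC₁ hC.1
    exact (hPER O F (C₁ * C₂) C₃ q1 hC₃).1
  · intro V hV hs
    have hs1 : Sep (M * C₁) V U := (p2 V hV U).1 (hs.mono hU)
    refine c4 V hV (c2 V hV (nv₁ V hV (hs.mono hE')) (hNVC O F (M * C₁) p1 U k C₂ hC V hV hs1)) ?_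
    rw [← mul_assoc]
    exact nv₃ V hV ((p4 V hV U).1 hs1)
  · intro V hV
    rw [e1]
    rcases hEE V hV with h | h
    · obtain ⟨g1, g2⟩ := good V h
      refine ⟨hP _ _ V (iso' V (hE V hV) (g2.mono Set.subset_union_right)) g1, ?_⟩
      exact (p6 V (hE V hV) 𝒯).1 ((p4 V (hE V hV) 𝒯).1 (g2.mono Set.subset_union_left))
    · exact good₃ V h

/-- **The general theorem.** -/
theorem GENQ [IsNoetherianRing O] (hWF : S_WF) (hCEN : S_CEN) (hISO : S_ISO) (hNVC : S_NVC) (hBUC : S_BUC)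
    (hPER : S_PER)
    {P : Submodule O F → ValuationSubring F → Prop} (hP : IsoInv P)
    {G : ℕ → Submodule O F → Set (ValuationSubring F) → Prop}
    (hmono : ∀ b M E E', E' ⊆ E → G b M E → G b M E') (hG0 : ∀ M E, G 0 M E → ∀ V ∈ E, P M V)
    (hstep : StepG G) (b : ℕ) : ∀ (q : ℕ) (M : Submodule O F), Md M → ∀ E 𝒯 : Set (ValuationSubring F),
      (∀ V ∈ E, Cn O V) → (∀ T ∈ 𝒯, Cn O T ∧ Sep M T E) → (∀ V ∈ E, Bd M V (E ∪ 𝒯) q) → G b M E →
      ResQ P M E 𝒯 := by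
  -- level zero
  have h0 : ∀ (q : ℕ) (M : Submodule O F), Md M → ∀ E 𝒯 : Set (ValuationSubring F), (∀ V ∈ E, Cn O V) →
      (∀ T ∈ 𝒯, Cn O T ∧ Sep M T E) → (∀ V ∈ E, Bd M V 𝒯 q) → G 0 M E → ResQ P M E 𝒯 := by
    intro q
    induction q with
    | zero =>
      intro M hM E 𝒯 hE h𝒯 hR hG
      refine ResQ.of_bad hPER hISO hP hM hE (hG0 M E hG) ?_
      have h0 : {V ∈ E | ¬ Sep M V 𝒯} = ∅ := by
        ext V
        simp only [Set.mem_ofPred_eq, Set.mem_empty_iff_false, iff_false, not_and, not_not]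
        exact fun hV => (hR V hV).sep hM (hE V hV)
      rw [h0]
      exact ResQ.empty
    | succ q ihq =>
      intro M hM
      have key : ∀ E 𝒯 : Set (ValuationSubring F), (∀ V ∈ E, Cn O V) → (∀ T ∈ 𝒯, Cn O T ∧ Sep M T E) →
          (∀ V ∈ E, Bd M V 𝒯 (q + 1)) → (∀ V ∈ E, ¬ Sep M V 𝒯) → G 0 M E → ResQ P M E 𝒯 := by
        intro E
        induction E using (hWF O F M hM).induction with
        | _ E ihE =>
        intro 𝒯 hE h𝒯 hR hns hG
        by_cases hne : E.Nonempty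
        swap
        · rw [Set.not_nonempty_iff_eq_empty.1 hne]
          exact ResQ.empty
        obtain ⟨k, h, hh, hUne, hnext⟩ := hstep 0 M hM E hE hne hG
        set U : Set (ValuationSubring F) := {V ∈ E | ¬ Vn M k V h} with hU
        set E' : Set (ValuationSubring F) := {V ∈ E | Vn M k V h} with hE'
        have hE'E : E' ⊆ E := fun V hV => hV.1
        have hUE : U ⊆ E := fun V hV => hV.1
        have hTE' : ∀ T ∈ 𝒯 ∪ U, Cn O T ∧ Sep M T E' := by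
          rintro T (hT | hT)
          · exact ⟨(h𝒯 T hT).1, (h𝒯 T hT).2.mono hE'E⟩
          · exact ⟨hE T hT.1, k, h, hh, hT.2, fun T' hT' => hT'.2⟩
        obtain ⟨C₁, hC₁, nv₁, good₁⟩ := ihE E' ⟨hE'E, hE, k, h, hh, fun T hT => hT.2, by
            obtain ⟨T, hT⟩ := hUne
            exact ⟨T, hT.1, hT.2⟩⟩ (𝒯 ∪ U) (fun V hV => hE V hV.1) hTE' (fun V hV =>
              (hR V hV.1).union fun T hT => hns T hT.1)
              (fun V hV hs => hns V hV.1 (hs.mono Set.subset_union_left)) (hmono 0 M E E' hE'E hG)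
        obtain ⟨hM1, per1⟩ := hPER O F M C₁ hM hC₁
        have hUC : ∀ V ∈ U, Cn O V := fun V hV => hE V hV.1
        have isoU : ∀ V ∈ U, ∀ Q : Subring F, LR V M Q → LR V (M * C₁) Q := fun V hV =>
          hISO O F M C₁ _ hM hC₁ nv₁.choose_spec.1 V (hUC V hV)
            (nv₁.choose_spec.2 V (hUC V hV) (hTE' V (Or.inr hV)).2)
        have hBdU : ∀ V ∈ U, Bd (M * C₁) V (𝒯 ∪ U) (q + 1) := fun V hV =>
          (per1 V (hUC V hV) _).2 _ ((hR V hV.1).union fun T hT => hns T hT.1)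
        obtain ⟨k₂, C₂, hC₂⟩ := hCEN O F (M * C₁) hM1 U hUC (by
          obtain ⟨T, hT⟩ := hUne
          exact ((hBdU T hT).mono Set.subset_union_right).ne_zero hM1)
        obtain ⟨hM2, per2⟩ := hPER O F (M * C₁) C₂ hM1 hC₂.1
        have hR3 : ResQ P (M * C₁ * C₂) U 𝒯 := by
          refine ihq (M * C₁ * C₂) hM2 U 𝒯 hUC (fun T hT => ⟨(h𝒯 T hT).1, ?_⟩) (fun V hV => ?_)
            (hnext (M * C₁) hM1 isoU k₂ C₂ hC₂)
          · exact (per2 T (h𝒯 T hT).1 U).1 ((per1 T (h𝒯 T hT).1 U).1 ((h𝒯 T hT).2.mono hUE))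
          · exact hBUC O F (M * C₁) hM1 U hUC k₂ C₂ hC₂ 𝒯 (fun T hT => ⟨(h𝒯 T hT).1,
              (per1 T (h𝒯 T hT).1 U).1 ((h𝒯 T hT).2.mono hUE)⟩) V hV q (hBdU V hV)
        exact glueQ hPER hISO hNVC hP hM hE hE'E hUE (fun V hV => by
          by_cases h1 : Vn M k V h
          · exact Or.inl ⟨hV, h1⟩
          · exact Or.inr ⟨hV, h1⟩) hC₁ nv₁ good₁ hC₂ hR3
      intro E 𝒯 hE h𝒯 hR hG
      refine ResQ.of_bad hPER hISO hP hM hE (hG0 M E hG) ?_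
      exact key _ 𝒯 (fun V hV => hE V hV.1) (fun T hT => ⟨(h𝒯 T hT).1, (h𝒯 T hT).2.mono fun V hV => hV.1⟩)
        (fun V hV => hR V hV.1) (fun V hV => hV.2) (hmono 0 M E _ (fun V hV => hV.1) hG)
  induction b with
  | zero =>
    intro q M hM E 𝒯 hE h𝒯 hBd hG
    exact h0 q M hM E 𝒯 hE h𝒯 (fun V hV => (hBd V hV).mono Set.subset_union_right) hG
  | succ b ihb =>
    intro q M hM E
    induction E using (hWF O F M hM).induction with
    | _ E ihE =>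
    intro 𝒯 hE h𝒯 hBd hG
    by_cases hne : E.Nonempty
    swap
    · rw [Set.not_nonempty_iff_eq_empty.1 hne]
      exact ResQ.empty
    obtain ⟨k, h, hh, hUne, hnext⟩ := hstep (b + 1) M hM E hE hne hG
    set U : Set (ValuationSubring F) := {V ∈ E | ¬ Vn M k V h} with hU
    set E' : Set (ValuationSubring F) := {V ∈ E | Vn M k V h} with hE'
    have hE'E : E' ⊆ E := fun V hV => hV.1
    have hUE : U ⊆ E := fun V hV => hV.1
    have hTE' : ∀ T ∈ 𝒯 ∪ U, Cn O T ∧ Sep M T E' := by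
      rintro T (hT | hT)
      · exact ⟨(h𝒯 T hT).1, (h𝒯 T hT).2.mono hE'E⟩
      · exact ⟨hE T hT.1, k, h, hh, hT.2, fun T' hT' => hT'.2⟩
    obtain ⟨C₁, hC₁, nv₁, good₁⟩ := ihE E' ⟨hE'E, hE, k, h, hh, fun T hT => hT.2, by
        obtain ⟨T, hT⟩ := hUne
        exact ⟨T, hT.1, hT.2⟩⟩ (𝒯 ∪ U) (fun V hV => hE V hV.1) hTE' (fun V hV => (hBd V hV.1).mono (by
          rintro T (hT | hT | hT)
          · exact Or.inl hT.1
          · exact Or.inr hT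
          · exact Or.inl hT.1)) (hmono _ M E E' hE'E hG)
    obtain ⟨hM1, per1⟩ := hPER O F M C₁ hM hC₁
    have hUC : ∀ V ∈ U, Cn O V := fun V hV => hE V hV.1
    have isoU : ∀ V ∈ U, ∀ Q : Subring F, LR V M Q → LR V (M * C₁) Q := fun V hV =>
      hISO O F M C₁ _ hM hC₁ nv₁.choose_spec.1 V (hUC V hV)
        (nv₁.choose_spec.2 V (hUC V hV) (hTE' V (Or.inr hV)).2)
    have hBdU : ∀ V ∈ U, Bd (M * C₁) V (U ∪ 𝒯) q := fun V hV =>
      (per1 V (hUC V hV) _).2 _ ((hBd V hV.1).mono (Set.union_subset_union_left _ hUE))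
    obtain ⟨k₂, C₂, hC₂⟩ := hCEN O F (M * C₁) hM1 U hUC (by
      obtain ⟨T, hT⟩ := hUne
      exact ((hBdU T hT).mono Set.subset_union_left).ne_zero hM1)
    obtain ⟨hM2, per2⟩ := hPER O F (M * C₁) C₂ hM1 hC₂.1
    have hR3 : ResQ P (M * C₁ * C₂) U 𝒯 := by
      refine ihb q (M * C₁ * C₂) hM2 U 𝒯 hUC (fun T hT => ⟨(h𝒯 T hT).1, ?_⟩)
        (fun V hV => (per2 V (hUC V hV) _).2 _ (hBdU V hV)) ?_
      · exact (per2 T (h𝒯 T hT).1 U).1 ((per1 T (h𝒯 T hT).1 U).1 ((h𝒯 T hT).2.mono hUE))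
      · have := hnext (M * C₁) hM1 isoU k₂ C₂ hC₂
        rwa [Nat.add_sub_cancel] at this
    exact glueQ hPER hISO hNVC hP hM hE hE'E hUE (fun V hV => by
      by_cases h1 : Vn M k V h
      · exact Or.inl ⟨hV, h1⟩
      · exact Or.inr ⟨hV, h1⟩) hC₁ nv₁ good₁ hC₂ hR3

end gen

end Pool.Agent.Run7.h275.RB
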