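import Pool.Agent.Run7.h275.RB11

/-!
# The regular version, with control of the centres
-/

set_option autoImplicit false
set_option linter.unusedVariables false

namespace Pool.Agent.Run7.h275.RB

open IsLocalRing Pool.Agent.W418.LU2 Pool.Agent.H918R2.Quad Pool.Agent.Run7.h275.RL

theorem stepSt {O F : Type} [CommRing O] [Field F] [Algebra O F] {S : Type} [CommRing S] [IsDomain S]
    [Algebra O (FractionRing S)] [IsNoetherianRing O]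
    (hPEEL : S_PEEL) (hOPN : S_OPN) (hBUB : S_BUB)
    (hMON : S_MON) (hLQ : S_LQ) (hGR : S_GR) (hDEP : S_DEP) (hSTEP : S_STEP)
    (hTRN : S_TRN) (hPRI : S_PRI) (hJ : J0 O) (n e : ℕ) (M : Submodule O F) (hM : Md M)
    (E : Set (ValuationSubring F)) (hE : ∀ V ∈ E, Cn O V) (hne : E.Nonempty) (hSt : St O S M n e E) :
    ∃ k, ∃ h ∈ M ^ k, {V ∈ E | ¬ Vn M k V h}.Nonempty ∧
      ∀ M' : Submodule O F, Md M' → (∀ V ∈ {V ∈ E | ¬ Vn M k V h}, ∀ Q : Subring F, LR V M Q → LR V M' Q) →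
        ∀ k₂ C₂, Cent M' {V ∈ E | ¬ Vn M k V h} k₂ C₂ → St O S (M' * C₂) (n + 1) e {V ∈ E | ¬ Vn M k V h} := by
  -- peeling
  obtain ⟨k, h, hh, hirr, w, hwM, hw0, hw⟩ := hPEEL O F M hM E hE hne
  set Eh : Set (ValuationSubring F) := {V ∈ E | ¬ Vn M k V h} with hEh
  have hEhC : ∀ V ∈ Eh, Cn O V := fun V hV => hE V hV.1
  obtain ⟨m, p, B, hOk, hcl⟩ := hSt
  -- the classes
  let K : Fin m → Set (ValuationSubring F) := fun l => {V ∈ Eh | ¬ Rg M V ∧ (p l).At n (B l) V ∧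
    LR V M (lo V.toSubring (B l)) ∧ OrdLe V (p l).dl e}
  let Kr : Set (ValuationSubring F) := {V ∈ Eh | Rg M V}
  have hKE : ∀ l, K l ⊆ Eh := fun l V hV => hV.1
  choose j a ha hane hcase using fun l => claim_l hOPN hPRI hLQ hGR hDEP hSTEP hMON hJ hM (K := K l) hEhC hirr
    (hKE l) (hOk l) (fun V hV => ⟨hV.2.1, hV.2.2.1, hV.2.2.2.1⟩)
  -- the regular elements
  set Bi : Subring F := (chart O M w).toSubring with hBi
  have hOni : ∀ V ∈ Eh, On M Bi V := fun V hV => on_chart (hE V hV.1) hwM hw0 (hw V hV.1 hV.2)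
  have hinf : ∃ j, ∃ a ∈ M ^ j, (∃ T ∈ Eh, ¬ Vn M j T a) ∧ ((∀ V ∈ Kr, Vn M j V a) ∨ (Dn M Kr Eh ∧
      ∀ V ∈ Kr, ¬ Vn M j V a → RQ V.toSubring Bi (IB Bi Kr))) := by
    by_cases hd : Dn M Kr Eh
    swap
    · have h1 : ∃ k, ∃ c ∈ M ^ k, (∀ T ∈ Kr, Vn M k T c) ∧ ∃ T ∈ Eh, ¬ Vn M k T c := by
        by_contra hcon
        push Not at hcon
        exact hd ⟨fun V hV => hV.1, fun k c hc h T hT => hcon k c hc h T hT⟩
      obtain ⟨k, c, hc, h2, h3⟩ := h1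
      exact ⟨k, c, hc, h3, Or.inl h2⟩
    · obtain ⟨hprime, hsame, hopen⟩ := hPRI hOPN O F M hM Kr Eh hEhC hirr hd Bi fun V hV => hOni V hV.1
      obtain ⟨t, ht, hRQ⟩ := hLQ O F hJ Bi (fgo_chart hM.1 w) (IB Bi Kr) hprime
      obtain ⟨j, c, hc, hcne, hct⟩ := hopen t ht
      refine ⟨j, c, hc, hcne, Or.inr ⟨hd, fun V hV hVc => ?_⟩⟩
      exact hRQ V (hOni V hV.1).1 (fun b hb => hb V hV (hOni V hV.1).1) (hct V hV hVc)
  obtain ⟨ji, ai, hai, haine, hcasei⟩ := hinf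
  obtain ⟨J₀, A₀, hA₀, hA₀ne, hA₀l⟩ := prodA hM hEhC hirr m j a ha hane
  obtain ⟨T₀, hT₀, hT1, hT2⟩ := hirr.both hA₀ hai hA₀ne haine
  set J := J₀ + ji with hJdef
  set A := A₀ * ai with hAdef
  have hA : A ∈ M ^ J := mul_mem_pow_add hA₀ hai
  have hAne : ∃ T ∈ Eh, ¬ Vn M J T A := ⟨T₀, hT₀, (not_vn_mul hM (hEhC _ hT₀) hA₀ hai).2 ⟨hT1, hT2⟩⟩
  have hAl : ∀ T ∈ Eh, ¬ Vn M J T A → (∀ l, ¬ Vn M (j l) T (a l)) ∧ ¬ Vn M ji T ai := by
    intro T hT hTA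
    obtain ⟨h3, h4⟩ := (not_vn_mul hM (hEhC _ hT) hA₀ hai).1 hTA
    exact ⟨hA₀l T hT h3, h4⟩
  -- the open subclass
  have hmem : ∀ V ∈ E, ¬ Vn M (k + J) V (h * A) ↔ ¬ Vn M k V h ∧ ¬ Vn M J V A := fun V hV =>
    not_vn_mul hM (hE V hV) hh hA
  have hhA : h * A ∈ M ^ (k + J) := mul_mem_pow_add hh hA
  refine ⟨k + J, h * A, hhA, ?_, ?_⟩
  · obtain ⟨T, hT, hTa⟩ := hAne
    exact ⟨T, hT.1, (hmem T hT.1).2 ⟨hT.2, hTa⟩⟩
  set U : Set (ValuationSubring F) := {V ∈ E | ¬ Vn M (k + J) V (h * A)} with hU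
  have hUh : U = {T ∈ Eh | ¬ Vn M J T A} := by
    ext V
    constructor
    · rintro ⟨hV, h1⟩
      obtain ⟨h2, h3⟩ := (hmem V hV).1 h1
      exact ⟨⟨hV, h2⟩, h3⟩
    · rintro ⟨⟨hV, h2⟩, h3⟩
      exact ⟨hV, (hmem V hV).2 ⟨h2, h3⟩⟩
  intro M' hM' isoU k₂ C₂ hC₂
  have hUC : ∀ V ∈ U, Cn O V := fun V hV => hE V hV.1
  have hUEh : ∀ V ∈ U, V ∈ Eh ∧ ¬ Vn M J V A := fun V hV => by rw [hUh] at hV; exact hV
  -- the blowing-up at the elements of a dense class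
  have blow : ∀ (K' : Set (ValuationSubring F)) (B' : Subring F), Dn M K' Eh → FGO O B' →
      (∀ V ∈ K', On M B' V) → ∀ V ∈ K', ¬ Vn M J V A →
      (∃ x : B', x ∈ IB B' K' ∧ x ≠ 0 ∧ ∀ b : B', b ∈ IB B' K' → (b : F) / x ∈ V) ∧
      ∀ x : B', x ∈ IB B' K' → x ≠ 0 → (∀ b : B', b ∈ IB B' K' → (b : F) / x ∈ V) →
        LR V (M' * C₂) (bl V.toSubring B' (IB B' K') x) := by
    intro K' B' hd hfg hOn V hV hVA
    have hd' : Dn M {T ∈ K' | ¬ Vn M J T A} U := by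
      rw [hUh]
      exact hd.open' hM hEhC hA
    have hd'' := hTRN hOPN O F M M' hM hM' _ U hUC isoU hd'
    obtain ⟨hprime, hsame, hopen⟩ := hPRI hOPN O F M hM K' Eh hEhC hirr hd B' hOn
    have hIB := hsame J A hA hAne
    have := hBUB O F M' hM' U hUC k₂ C₂ hC₂ {T ∈ K' | ¬ Vn M J T A} B' hd'' hfg (fun T hT =>
      ⟨(hOn T hT.1).1, isoU T (hd''.1 hT) _ (hOn T hT.1).2⟩) V ⟨hV, hVA⟩
    rw [hIB] at this
    exact this
  classical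
  choose m' p' B' hp' hV' using fun l : {l : Fin m // Dn M (K l) Eh ∧
    ¬ ∀ V ∈ K l, Vn M (j l) V (a l)} => ((hcase l.1).resolve_left l.2.2).2
  let ι := Σ l : {l : Fin m // Dn M (K l) Eh ∧ ¬ ∀ V ∈ K l, Vn M (j l) V (a l)}, Fin (m' l)
  let ε := Fintype.equivFin ι
  refine ⟨Fintype.card ι, fun i => p' (ε.symm i).1 (ε.symm i).2, fun i => B' (ε.symm i).1 (ε.symm i).2,
    fun i => (hp' (ε.symm i).1 (ε.symm i).2).1, ?_⟩
  intro V hV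
  obtain ⟨hVh, hVA⟩ := hUEh V hV
  obtain ⟨hVl, hVi⟩ := hAl V hVh hVA
  by_cases hreg : Rg M V
  · left
    have hVK : V ∈ Kr := ⟨hVh, hreg⟩
    rcases hcasei with h1 | ⟨hd, hRQ⟩
    · exact absurd (h1 V hVK) hVi
    · obtain ⟨⟨x, hx, hx0, hxV⟩, hbl⟩ := blow Kr Bi hd (fgo_chart hM.1 w) (fun T hT => hOni T hT.1) V hVK hVA
      refine ⟨_, hbl x hx hx0 hxV, ?_⟩
      exact hMON F V.toSubring Bi (loc_V V) (hOni V hVh).1 (((hOni V hVh).rg (hUC V hV)).1 hreg) _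
        (hRQ V hVK hVi) x hx hx0 hxV
  · right
    rcases hcl V hV.1 with h1 | ⟨l, h1, h2, h3⟩
    · exact absurd h1 hreg
    · have hVK : V ∈ K l := ⟨hVh, hreg, h1, h2, h3⟩
      have hn1 : ¬ ∀ V ∈ K l, Vn M (j l) V (a l) := fun h4 => hVl l (h4 V hVK)
      have hd : Dn M (K l) Eh := ((hcase l).resolve_left hn1).1
      obtain ⟨⟨x, hx, hx0, hxV⟩, hbl⟩ := blow (K l) (B l) hd (hOk l).fgB (fun T hT =>
        ⟨hT.2.2.1.BV, hT.2.2.2.1⟩) V hVK hVA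
      obtain ⟨l', h5, h6⟩ := hV' ⟨l, hd, hn1⟩ V hVK (hVl l) x hx hx0 hxV
      refine ⟨ε ⟨⟨l, hd, hn1⟩, l'⟩, ?_⟩
      beta_reduce
      rw [Equiv.symm_apply_apply]
      refine ⟨h5, ?_, ?_⟩
      · rw [h6]
        exact hbl x hx hx0 hxV
      · rw [(hp' ⟨l, hd, hn1⟩ l').2]
        exact h3

/-- The theorem for regularity. -/
theorem RESQ {O F : Type} [CommRing O] [Field F] [Algebra O F] {S : Type} [CommRing S] [IsDomain S]
    [Algebra O (FractionRing S)] [IsNoetherianRing O]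
    (hWF : S_WF) (hCEN : S_CEN) (hISO : S_ISO) (hNVC : S_NVC) (hBUC : S_BUC) (hPER : S_PER)
    (hPEEL : S_PEEL) (hOPN : S_OPN) (hBUB : S_BUB)
    (hMON : S_MON) (hLQ : S_LQ) (hGR : S_GR) (hDEP : S_DEP) (hSTEP : S_STEP) (hBND : S_BND)
    (hTRN : S_TRN) (hPRI : S_PRI) (hJ : J0 O) (e q : ℕ) (M : Submodule O F) (hM : Md M)
    (E : Set (ValuationSubring F)) (hE : ∀ V ∈ E, Cn O V) (hBd : ∀ V ∈ E, Bd M V E q) (hSt : St O S M 0 e E) :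
    ResQ Rg M E ∅ := by
  have hbnd : ∀ (M : Submodule O F) (E : Set (ValuationSubring F)), St O S M (e + 1) e E → ∀ V ∈ E, Rg M V := by
    rintro M E ⟨m, p, B, hOk, h1⟩ V hV
    rcases h1 V hV with h2 | ⟨l, h2, h3, h4⟩
    · exact h2
    · exfalso
      have := hBND O S F (p l) (e + 1) (B l) (hOk l) V h2 e h4
      omega
  have hP : IsoInv (Rg (O := O) (F := F)) := fun M M' V h hr => hr.iso h
  refine GENQ hWF hCEN hISO hNVC hBUC hPER hP (G := fun b M E => b ≤ e + 1 ∧ St O S M (e + 1 - b) e E)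
    ?_ ?_ ?_ (e + 1) q M hM E ∅ hE (fun T hT => absurd hT (Set.notMem_empty T))
    (fun V hV => by rw [Set.union_empty]; exact hBd V hV) ⟨le_rfl, by rw [Nat.sub_self]; exact hSt⟩
  · rintro b M E E' hE' ⟨hb, m, p, B, h1, h2⟩
    exact ⟨hb, m, p, B, h1, fun V hV => h2 V (hE' hV)⟩
  · rintro M E ⟨-, h⟩
    rw [Nat.sub_zero] at h
    exact hbnd M E h
  · rintro b M hM E hE hne ⟨hb, h⟩
    rcases b with _ | b
    · rw [Nat.sub_zero] at h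
      have h1 : St O S M e e E := ⟨0, fun i => i.elim0, fun i => i.elim0, fun i => i.elim0,
        fun V hV => Or.inl (hbnd M E h V hV)⟩
      obtain ⟨k, g, hg, hne', hnext⟩ := stepSt hPEEL hOPN hBUB hMON hLQ hGR hDEP hSTEP hTRN hPRI hJ e e M hM E hE
        hne h1
      exact ⟨k, g, hg, hne', fun M' hM' hi k₂ C₂ hC₂ => ⟨by omega, hnext M' hM' hi k₂ C₂ hC₂⟩⟩
    · obtain ⟨k, g, hg, hne', hnext⟩ := stepSt hPEEL hOPN hBUB hMON hLQ hGR hDEP hSTEP hTRN hPRI hJ _ e M hM E hE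
        hne h
      refine ⟨k, g, hg, hne', fun M' hM' hi k₂ C₂ hC₂ => ⟨by omega, ?_⟩⟩
      have h2 := hnext M' hM' hi k₂ C₂ hC₂
      have h3 : e + 1 - (b + 1 - 1) = e + 1 - (b + 1) + 1 := by omega
      rw [h3]
      exact h2

end Pool.Agent.Run7.h275.RB
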