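import Pool.Agent.Run7.h275.RB4
import Pool.Agent.Run7.h915.RB.WF
import Pool.Agent.Run7.h915.RB.PEEL
import Pool.Agent.Run7.h915.RB.PER
import Pool.Agent.Run7.h915.RB.BUA
import Pool.Agent.Run7.h915.RB.BUC
import Pool.Agent.Run7.h973.RB.BUB
import Pool.Agent.Run7.h957.RB.CEN
import Pool.Agent.Run7.h617.RB.Dep
import Pool.Agent.Run7.h637.RB.BND
import Pool.Agent.Run7.h637.RB.REG0
import Pool.Agent.Run7.h637.RB.GR
import Pool.Agent.Run7.h637.RB.LQ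
import Pool.Agent.Run7.h806.RB.INIT
import Pool.Agent.Run7.h704.RB.J0
import Pool.Agent.Run7.h56.RB.MON
import Pool.Agent.Run7.h56.RB.STEP
import Pool.Agent.Run7.h651.RB.OPN
import Pool.Agent.Run7.h651.RB.PRI
import Pool.Agent.Run7.h651.RB.TRN

/-!
# Assembly of the pieces
-/

set_option autoImplicit false

namespace Pool.Agent.Run7.h275.RB

open Pool.Agent.Run7.h275.RL

theorem t_SEP0 : S_SEP0 :=
  SEP0 Pool.Agent.Run7.h915.RB.t_WF Pool.Agent.Run7.h915.RB.t_PEEL Pool.Agent.Run7.h651.RB.t_OPN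
    Pool.Agent.Run7.h957.RB.CEN Pool.Agent.Run7.h915.RB.t_BUA Pool.Agent.Run7.h973.RB.BUB
    Pool.Agent.Run7.h915.RB.t_BUC Pool.Agent.Run7.h56.RB.MON Pool.Agent.Run7.h637.RB.LQ
    Pool.Agent.Run7.h915.RB.t_PER Pool.Agent.Run7.h651.RB.t_PRI

theorem t_RES : S_RES :=
  RES Pool.Agent.Run7.h915.RB.t_WF Pool.Agent.Run7.h915.RB.t_PEEL Pool.Agent.Run7.h651.RB.t_OPN
    Pool.Agent.Run7.h957.RB.CEN Pool.Agent.Run7.h915.RB.t_BUA Pool.Agent.Run7.h973.RB.BUB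
    Pool.Agent.Run7.h56.RB.MON Pool.Agent.Run7.h637.RB.LQ Pool.Agent.Run7.h637.RB.GR
    Pool.Agent.Run7.h617.RB.dep Pool.Agent.Run7.h56.RB.STEP Pool.Agent.Run7.h637.RB.BND
    Pool.Agent.Run7.h915.RB.t_PER Pool.Agent.Run7.h651.RB.t_TRN Pool.Agent.Run7.h651.RB.t_PRI t_SEP0

/-- **The main theorem.** -/
theorem t_BDD {O F : Type} [CommRing O] [IsDomain O]
    [IsRegularRing O] [Field F] [Algebra O F] (hJ : J0 O) {n : ℕ} (y : Fin n → F) (hy : ∀ i, y i ≠ 0)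
    (hn : 0 < n) (e : ℕ) :
    ∃ C : Submodule O F, Md C ∧
      (∀ V : ValuationSubring F, Cn O V → ∀ i, (∀ j, y j / y i ∈ V) → ∀ δ, Mn O y i δ → ¬ V.valuation δ < 1 →
        ∀ Q : Subring F, LR V (Submodule.span O (Set.range y)) Q →
          LR V (Submodule.span O (Set.range y) * C) Q ∧ IsRegularLocalRing Q) ∧
      ∀ V : ValuationSubring F, Cn O V → ∀ i, (∀ j, y j / y i ∈ V) → ∀ δ, Mn O y i δ → OrdLe V δ e →
        Rg (Submodule.span O (Set.range y) * C) V :=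
  BDD t_INIT' Pool.Agent.Run7.h637.RB.REG0 t_RES hJ y hy hn e

theorem j0_field (k : Type) [Field k] [PerfectField k] : J0 k := Pool.Agent.Run7.h704.RB.J0F k

theorem j0_int : J0 ℤ := Pool.Agent.Run7.h704.RB.J0Z Pool.Agent.Run7.h704.RB.J0F

end Pool.Agent.Run7.h275.RB
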