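import Pool.Agent.Run7.h275.RB12
import Pool.Agent.Run7.h275.RBM

/-!
# ISO, NVC and the openness principle
-/

set_option autoImplicit false
set_option linter.unusedVariables false

namespace Pool.Agent.Run7.h275.RB

open IsLocalRing Pool.Agent.W418.LU2 Pool.Agent.H918R2.Quad Pool.Agent.Run7.h275.RL

theorem t_NVC : S_NVC := fun O F _ _ _ M hM E k C hC V hV hs =>
  Pool.Agent.Run7.h915.RB.exists_not_vn hM hC hV hs

theorem t_ISO : S_ISO := by
  intro O F _ _ _ M C k hM hCM hCk V hV hc Q hQ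
  obtain ⟨c₀, hc₀, hc₀V⟩ := hc
  obtain ⟨w, hwM, hw0, hwV, rfl⟩ := hQ
  have hc₀k : c₀ ∈ M ^ k := hCk hc₀
  have hwp : 0 < V.valuation w := (Valuation.pos_iff _).2 hw0
  have hval : V.valuation c₀ = V.valuation w ^ k :=
    le_antisymm (pow_le_max hV hw0 hwV k hc₀k) ((not_vn_iff hV hwM hw0 hwV k c₀).1 hc₀V)
  have hc₀0 : c₀ ≠ 0 := by
    rintro rfl
    rw [map_zero] at hval
    exact absurd (pow_pos hwp k) (by rw [← hval]; exact lt_irrefl _)
  have hcV : ∀ m ∈ C, m / c₀ ∈ V := fun m hm => div_of_val_le hc₀0 (by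
    rw [hval]
    exact pow_le_max hV hw0 hwV k (hCk hm))
  have hmx : ∀ m ∈ M * C, m / (w * c₀) ∈ V := by
    intro m hm
    induction hm using Submodule.mul_induction_on' with
    | mem_mul_mem a ha b hb =>
      rw [mul_div_mul_comm]
      exact V.mul_mem _ _ (hwV a ha) (hcV b hb)
    | add a _ b _ ha hb => rw [add_div]; exact V.add_mem _ _ ha hb
  refine ⟨w * c₀, Submodule.mul_mem_mul hwM hc₀, mul_ne_zero hw0 hc₀0, hmx, ?_⟩
  apply lo_eq (chart_le_V hV hwV)
  · -- `O[M / w] ≤ O[M C / (w c₀)]`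
    have : chart O M w ≤ chart O (M * C) (w * c₀) := Algebra.adjoin_le (by
      rintro _ ⟨m, hm, rfl⟩
      refine Algebra.subset_adjoin ⟨m * c₀, Submodule.mul_mem_mul hm hc₀, ?_⟩
      rw [mul_div_mul_right _ _ hc₀0])
    exact this
  · let A : Subalgebra O F := { lo V.toSubring (chart O M w).toSubring with
      algebraMap_mem' := fun o => le_lo _ _ (Subalgebra.algebraMap_mem (chart O M w) o) }
    have hA : chart O (M * C) (w * c₀) ≤ A := Algebra.adjoin_le (by
      rintro _ ⟨m, hm, rfl⟩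
      change m / (w * c₀) ∈ lo V.toSubring (chart O M w).toSubring
      refine Submodule.mul_induction_on hm (fun a ha b hb => ?_) (fun a b ha hb => ?_)
      · have h1 : a * b / (w * c₀) = a / w * (b / w ^ k * (c₀ / w ^ k)⁻¹) := by
          field_simp
        rw [h1]
        refine Subring.mul_mem _ (le_lo _ _ (Algebra.subset_adjoin ⟨a, ha, rfl⟩)) ?_
        refine ⟨b / w ^ k, pow_div_mem hw0 k b (hCk hb), c₀ / w ^ k,
          pow_div_mem hw0 k c₀ hc₀k, div_ne_zero hc₀0 (pow_ne_zero k hw0), ?_, rfl⟩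
        change (c₀ / w ^ k)⁻¹ ∈ V
        rw [← V.valuation_le_one_iff, map_inv₀, map_div₀, map_pow, hval,
          div_self (pow_ne_zero k hwp.ne'), inv_one]
      · rw [add_div]
        exact Subring.add_mem _ ha hb)
    exact hA

section

variable {O F : Type} [CommRing O] [Field F] [Algebra O F] {M : Submodule O F}

/-- **The openness principle.** -/
theorem OPP [IsNoetherianRing O] (hM : Md M) (P : ValuationSubring F → Prop) (W : Set F)
    (hW : ∀ V : ValuationSubring F, Cn O V → ∃ w ∈ M, w ≠ 0 ∧ w ∈ W ∧ ∀ m ∈ M, m / w ∈ V)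
    (hP : ∀ w ∈ M, w ≠ 0 → w ∈ W → ∀ 𝔭 : Ideal (chart O M w).toSubring, 𝔭.IsPrime →
      ∀ V : ValuationSubring F, Cn O V → (∀ m ∈ M, m / w ∈ V) →
      (∀ b : (chart O M w).toSubring, b ∈ 𝔭 → V.valuation (b : F) < 1) → P V →
      ∃ t : (chart O M w).toSubring, t ∉ 𝔭 ∧ ∀ T : ValuationSubring F, Cn O T → (∀ m ∈ M, m / w ∈ T) →
        (∀ b : (chart O M w).toSubring, b ∈ 𝔭 → T.valuation (b : F) < 1) → ¬ T.valuation (t : F) < 1 → P T)
    {V : ValuationSubring F} (hV : Cn O V) (hPV : P V) : Sep M V {T | Cn O T ∧ ¬ P T} := by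
  have key : ∀ E : Set (ValuationSubring F), (∀ T ∈ E, Cn O T ∧ ¬ P T) → Sep M V E := by
    intro E
    induction E using (Pool.Agent.Run7.h915.RB.t_WF O F M hM).induction with
    | _ E ihE =>
    intro hE
    by_cases hne : E.Nonempty
    swap
    · rw [Set.not_nonempty_iff_eq_empty.1 hne]
      exact ⟨0, 1, by rw [pow_zero]; exact Submodule.one_le.1 le_rfl, one_nv,
        fun T hT => absurd hT (Set.notMem_empty T)⟩
    have hEC : ∀ T ∈ E, Cn O T := fun T hT => (hE T hT).1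
    obtain ⟨k, h, hh, hirr, w, hwM, hw0, hw⟩ := Pool.Agent.Run7.h915.RB.t_PEEL O F M hM E hEC hne
    set Eh : Set (ValuationSubring F) := {T ∈ E | ¬ Vn M k T h} with hEh
    have hEhC : ∀ T ∈ Eh, Cn O T := fun T hT => hEC T hT.1
    -- the open part
    have hsh : Sep M V Eh := by
      by_contra hns
      obtain ⟨v, hvM, hv0, hvW, hv⟩ := hW V hV
      have hnv1 : ∀ a : F, ∀ j, a ∈ M ^ j → (∀ T ∈ Eh, Vn M j T a) → Vn M j V a := by
        intro a j ha hall
        by_contra hcon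
        exact hns ⟨j, a, ha, hcon, hall⟩
      have hvV : ¬ Vn M 1 V v := by
        rw [not_vn_iff hV hvM hv0 hv, pow_one]
      have hv1 : v ∈ M ^ 1 := by rwa [pow_one]
      obtain ⟨T₀, hT₀, hT₀v⟩ : ∃ T ∈ Eh, ¬ Vn M 1 T v := by
        by_contra hcon
        push Not at hcon
        exact hvV (hnv1 v 1 hv1 hcon)
      set K : Set (ValuationSubring F) := {T ∈ Eh | ¬ Vn M 1 T v} with hK
      have hKv : ∀ T ∈ K, ∀ m ∈ M, m / v ∈ T := by
        rintro T ⟨hT, hTv⟩ m hm
        refine div_of_val_le hv0 ?_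
        by_contra hcon
        rw [not_le] at hcon
        exact hTv ⟨m, hm, by rw [pow_one]; exact hcon⟩
      have hDn : Dn M K Eh := by
        refine ⟨fun T hT => hT.1, ?_⟩
        intro j a ha hall T hT
        by_contra hcon
        obtain ⟨T', hT', h1, h2⟩ := hirr.both ha hv1 ⟨T, hT, hcon⟩ ⟨T₀, hT₀, hT₀v⟩
        exact h1 (hall T' ⟨hT', h2⟩)
      set B : Subring F := (chart O M v).toSubring with hB
      have hOn : ∀ T ∈ K, On M B T := fun T hT => on_chart (hEhC T hT.1) hvM hv0 (hKv T hT)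
      obtain ⟨hprime, -, -⟩ := Pool.Agent.Run7.h651.RB.t_PRI Pool.Agent.Run7.h651.RB.t_OPN O F M hM K Eh hEhC hirr
        hDn B hOn
      have hc : ∀ b : B, b ∈ IB B K → V.valuation (b : F) < 1 := by
        intro b hb
        by_contra hcon
        obtain ⟨j, hj⟩ := chart_pow_mem hvM hv0 b.2
        have hbm := hj j le_rfl
        have h1 : Vn M j V ((b : F) * v ^ j) := by
          refine hnv1 _ j hbm (hDn.2 j _ hbm ?_)
          intro T hT
          have hTb : T.valuation (b : F) < 1 := hb T hT (hOn T hT).1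
          rw [vn_iff (hEhC T hT.1) hvM hv0 (hKv T hT), map_mul, map_pow]
          exact mul_lt_of_lt_one_left (pow_pos ((Valuation.pos_iff _).2 hv0) j) hTb
        rw [vn_iff hV hvM hv0 hv, map_mul, map_pow] at h1
        exact absurd h1 (not_lt.2 (le_mul_of_one_le_left' (not_lt.1 hcon)))
      obtain ⟨t, ht, htP⟩ := hP v hvM hv0 hvW (IB B K) hprime V hV hv hc hPV
      apply ht
      intro T hT hBT
      by_contra hcon
      exact (hE T hT.1.1).2 (htP T (hEhC T hT.1) (hKv T hT) (fun b hb => hb T hT hBT) hcon)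
    -- the rest
    obtain ⟨T₁, hT₁⟩ := hirr.1
    have hrest : Sep M V {T ∈ E | Vn M k T h} := by
      refine ihE _ ⟨fun T hT => hT.1, hEC, k, h, hh, fun T hT => hT.2, T₁, hT₁.1, hT₁.2⟩ fun T hT => hE T hT.1
    obtain ⟨j, a, ha, ha1, ha2⟩ := hsh
    obtain ⟨j', a', ha', ha1', ha2'⟩ := hrest
    refine ⟨j + j', a * a', mul_mem_pow_add ha ha', (not_vn_mul hM hV ha ha').2 ⟨ha1, ha1'⟩, ?_⟩
    intro T hT
    by_cases hTh : Vn M k T h
    · exact vn_mul_right hM (hEC T hT) ha ha' (ha2' T ⟨hT, hTh⟩)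
    · exact vn_mul_left hM (hEC T hT) ha ha' (ha2 T ⟨hT, hTh⟩)
  exact key _ fun T hT => hT

end

end Pool.Agent.Run7.h275.RB
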