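import Pool.Agent.Run7.h275.RB8
import Pool.Agent.Run7.h275.RBM
import Pool.Agent.Run7.h637.RB.MONX
import Pool.Agent.Run7.h637.RB.NCF
import Pool.Agent.Run7.h617.RB.StepN

/-!
# Models with normal crossings at all valuations of bounded order
-/

set_option autoImplicit false
set_option linter.unusedVariables false

namespace Pool.Agent.Run7.h275.RB

open IsLocalRing Pool.Agent.W418.LU2 Pool.Agent.H918R2.Quad Pool.Agent.Run7.h275.RL

theorem t_STN {O F : Type} [CommRing O] [Field F] [Algebra O F] [IsNoetherianRing O] (hJ : J0 O)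
    (M₀ N₀ : Submodule O F) (c : ℕ) : StepG (StN M₀ N₀ c) :=
  STN Pool.Agent.Run7.h915.RB.t_PEEL Pool.Agent.Run7.h651.RB.t_OPN Pool.Agent.Run7.h973.RB.BUB
    Pool.Agent.Run7.h637.RB.LQ Pool.Agent.Run7.h651.RB.t_TRN Pool.Agent.Run7.h651.RB.t_PRI
    Pool.Agent.Run7.h637.RB.MONX Pool.Agent.Run7.h617.RB.stepN hJ M₀ N₀ c

theorem t_GEN {O F : Type} [CommRing O] [Field F] [Algebra O F] [IsNoetherianRing O] (hJ : J0 O)
    (M₀ N₀ : Submodule O F) (c b q : ℕ) (M : Submodule O F) (hM : Md M) (E : Set (ValuationSubring F))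
    (hE : ∀ V ∈ E, Cn O V) (hBd : ∀ V ∈ E, Bd M V E q) (hSt : StN M₀ N₀ c b M E) :
    ResP (PN M₀ N₀ c) M E ∅ :=
  GEN Pool.Agent.Run7.h915.RB.t_WF Pool.Agent.Run7.h957.RB.CEN Pool.Agent.Run7.h915.RB.t_BUA
    Pool.Agent.Run7.h915.RB.t_BUC Pool.Agent.Run7.h915.RB.t_PER (PN.iso M₀ N₀ c) (StN.mono M₀ N₀ c)
    (StN.zero M₀ N₀ c) (t_STN hJ M₀ N₀ c) b q M hM E ∅ hE (fun T hT => absurd hT (Set.notMem_empty T))
    (fun V hV => by rw [Set.union_empty]; exact hBd V hV) hSt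

section

variable {O F : Type} [CommRing O] [Field F] [Algebra O F] {n : ℕ} {y : Fin n → F}

lemma regP_zero {A P : Subring F} (hPA : P ≤ A) (hinv : IC A P) (hreg : IsRegularLocalRing P) (x : Fin 0 → F) :
    RegP A P x where
  PA := hPA
  ne := fun i => i.elim0
  mem := fun i => i.elim0
  reg := hreg
  inv := hinv
  ind := by
    intro c _ _ i
    exact i.elim0

lemma prod_lt_one {V : ValuationSubring F} (z : ℕ → F) (q : ℕ) (hz : ∀ i < q + 1, V.valuation (z i) < 1) :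
    V.valuation (∏ i ∈ Finset.range (q + 1), z i) < 1 := by
  induction q with
  | zero =>
    rw [zero_add, Finset.prod_range_one]
    exact hz 0 Nat.zero_lt_one
  | succ q ih =>
    rw [Finset.prod_range_succ, map_mul]
    exact mul_lt_one_aux' (ih fun i hi => hz i (by omega)) (hz (q + 1) (by omega)).le

lemma max_span {V : ValuationSubring F} (hV : Cn O V) {i : Fin n} (hi : ∀ j, y j / y i ∈ V) :
    ∀ m ∈ Submodule.span O (Set.range y), m / y i ∈ V := by
  intro m hm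
  induction hm using Submodule.span_induction with
  | mem m hm => obtain ⟨j, rfl⟩ := hm; exact hi j
  | zero => rw [zero_div]; exact V.zero_mem
  | add a b _ _ ha hb => rw [add_div]; exact V.add_mem _ _ ha hb
  | smul c a _ ha =>
    rw [Algebra.smul_def, mul_div_assoc]
    exact V.mul_mem _ _ (hV c) ha

lemma lr_ph (hy : ∀ i, y i ≠ 0) {V : ValuationSubring F} (hV : Cn O V) {i : Fin n} (hi : ∀ j, y j / y i ∈ V) :
    LR V (Submodule.span O (Set.range y)) (lo V.toSubring (ph O y i).range) := by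
  rw [ph_range]
  exact ⟨y i, Submodule.subset_span ⟨i, rfl⟩, hy i, max_span hV hi, rfl⟩

/-- The homogeneous form of an element `a` of the chart `i`, times `y i`. -/
lemma sec_of (hy : ∀ i, y i ≠ 0) {i : Fin n} {a : F}
    (ha : a ∈ chart O (Submodule.span O (Set.range y)) (y i)) :
    ∃ k, ∃ c ∈ (Submodule.span O (Set.range y)) ^ k,
      (∀ T : ValuationSubring F, Cn O T → ((∀ j, y j / y i ∈ T) → T.valuation a < 1) →
        Vn (Submodule.span O (Set.range y)) k T c) ∧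
      ∀ V : ValuationSubring F, Cn O V → (∀ j, y j / y i ∈ V) → ∀ w ∈ Submodule.span O (Set.range y), w ≠ 0 →
        V.valuation a ≤ V.valuation (c / w ^ k) := by
  set M₀ : Submodule O F := Submodule.span O (Set.range y) with hM₀
  have hyM : ∀ i, y i ∈ M₀ := fun i => Submodule.subset_span ⟨i, rfl⟩
  have hM : Md M₀ := ⟨Submodule.fg_span (Set.finite_range y), y i, hyM i, hy _⟩
  obtain ⟨k, hk⟩ := chart_pow_mem (hyM i) (hy i) ha
  have hm := hk k le_rfl
  refine ⟨k + 1, a * y i ^ k * y i, ?_, ?_, ?_⟩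
  · exact mul_mem_pow_add hm (by rw [pow_one]; exact hyM i)
  · intro T hTC hT
    obtain ⟨w, hwM, hw0, hw⟩ := exists_wmax hM hTC
    rw [vn_iff hTC hwM hw0 hw, map_mul, pow_succ]
    have hwp : 0 < T.valuation w := (Valuation.pos_iff _).2 hw0
    have h2 := pow_le_max hTC hw0 hw k hm
    have h3 : T.valuation (y i) ≤ T.valuation w := val_le_of_div hw0 (hw _ (hyM i))
    rcases h3.lt_or_eq with h4 | h4
    · exact (mul_le_mul' h2 le_rfl).trans_lt (mul_lt_mul_of_pos_left h4 (pow_pos hwp k))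
    · have h5 : ∀ j, y j / y i ∈ T := fun j => div_of_val_le (hy i) (by
        rw [h4]
        exact val_le_of_div hw0 (hw _ (hyM j)))
      have h6 := hT h5
      rw [h4, map_mul, map_pow, h4]
      refine mul_lt_mul_of_pos_right ?_ hwp
      calc T.valuation a * T.valuation w ^ k < 1 * T.valuation w ^ k :=
            mul_lt_mul_of_pos_right h6 (pow_pos hwp k)
        _ = T.valuation w ^ k := one_mul _
  · intro V hV hi w hw hw0
    have h2 : V.valuation w ≤ V.valuation (y i) := val_le_of_div (hy i) (max_span hV hi w hw)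
    have hwp : 0 < V.valuation w := (Valuation.pos_iff _).2 hw0
    rw [map_div₀, map_mul, map_mul, map_pow, map_pow, mul_assoc, ← pow_succ, mul_div_assoc]
    refine le_mul_of_one_le_right' ?_
    rw [one_le_div₀ (pow_pos hwp _)]
    exact pow_le_pow_left₀ zero_le h2 _

end

/-- **The main theorem, with normal crossings.** -/
theorem t_BDL {O F : Type} [CommRing O] [IsDomain O]
    [IsRegularRing O] [Field F] [Algebra O F] (hJ : J0 O) {n : ℕ} (y : Fin n → F) (hy : ∀ i, y i ≠ 0)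
    (hn : 0 < n) (N₀ : Submodule O F) (c : ℕ) (hN : N₀ ≤ (Submodule.span O (Set.range y)) ^ c) (e : ℕ) :
    ∃ C : Submodule O F, Md C ∧
      (∀ V : ValuationSubring F, Cn O V → ∀ i, (∀ j, y j / y i ∈ V) → ∀ δ, Mn O y i δ → ∀ s ∈ N₀,
        ¬ V.valuation (δ * (s / y i ^ c)) < 1 →
        ∀ Q : Subring F, LR V (Submodule.span O (Set.range y)) Q →
          LR V (Submodule.span O (Set.range y) * C) Q ∧ IsRegularLocalRing Q) ∧
      ∀ V : ValuationSubring F, Cn O V → ∀ i, (∀ j, y j / y i ∈ V) → ∀ δ, Mn O y i δ → ∀ s ∈ N₀,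
        OrdLe V (δ * (s / y i ^ c)) e →
        ∃ Q, LR V (Submodule.span O (Set.range y) * C) Q ∧ NCr (Submodule.span O (Set.range y)) N₀ c Q := by
  classical
  obtain ⟨C₁, hC₁, iso₁, good₁⟩ := t_BDD hJ y hy hn e
  set M₀ : Submodule O F := Submodule.span O (Set.range y) with hM₀
  have hyM : ∀ i, y i ∈ M₀ := fun i => Submodule.subset_span ⟨i, rfl⟩
  have hM : Md M₀ := ⟨Submodule.fg_span (Set.finite_range y), y ⟨0, hn⟩, hyM _, hy _⟩
  obtain ⟨hM1, per1⟩ := Pool.Agent.Run7.h915.RB.t_PER O F M₀ C₁ hM hC₁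
  -- generators
  obtain ⟨S, hS⟩ := hC₁.1
  let _ : Fintype {g // g ∈ S ∧ g ≠ 0} := Fintype.subtype (S.filter fun g => g ≠ 0) (by
    intro x
    rw [Finset.mem_filter])
  have hgmem : ∀ k : {g // g ∈ S ∧ g ≠ 0}, (k : F) ∈ C₁ := fun k => hS ▸ Submodule.subset_span k.2.1
  have hgmax : ∀ V : ValuationSubring F, Cn O V → ∃ k : {g // g ∈ S ∧ g ≠ 0}, ∀ m ∈ C₁, m / (k : F) ∈ V := by
    intro V hV
    have hSne : (S.filter fun g => g ≠ 0).Nonempty := by
      by_contra hcon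
      rw [Finset.not_nonempty_iff_eq_empty] at hcon
      obtain ⟨g, hg, hg0⟩ := hC₁.2
      rw [← hS] at hg
      have h1 : (S : Set F) ⊆ {0} := by
        intro s hs
        by_contra h0
        have : s ∈ S.filter fun g => g ≠ 0 := Finset.mem_filter.2 ⟨hs, h0⟩
        rw [hcon] at this
        exact absurd this (Finset.notMem_empty s)
      have h2 : g ∈ Submodule.span O ({0} : Set F) := Submodule.span_mono h1 hg
      rw [Submodule.span_zero_singleton, Submodule.mem_bot] at h2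
      exact hg0 h2
    obtain ⟨g, hg, hmax⟩ := Finset.exists_max_image _ (fun g => V.valuation g) hSne
    obtain ⟨hg1, hg2⟩ := Finset.mem_filter.1 hg
    refine ⟨⟨g, hg1, hg2⟩, ?_⟩
    intro m hm
    rw [← hS] at hm
    change m / g ∈ V
    induction hm using Submodule.span_induction with
    | mem m hm =>
      by_cases h0 : m = 0
      · rw [h0, zero_div]; exact V.zero_mem
      · exact div_of_val_le hg2 (hmax m (Finset.mem_filter.2 ⟨hm, h0⟩))
    | zero => rw [zero_div]; exact V.zero_mem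
    | add a b _ _ ha hb => rw [add_div]; exact V.add_mem _ _ ha hb
    | smul c a _ ha =>
      rw [Algebra.smul_def, mul_div_assoc]
      exact V.mul_mem _ _ (hV c) ha
  -- the initial charts
  let p₀ : Fin n × {g // g ∈ S ∧ g ≠ 0} → NP F := fun l =>
    { B := (chart O (M₀ * C₁) (y l.1 * (l.2 : F))).toSubring
      s := 0
      x := Fin.elim0
      m := 1
      w := y l.1 }
  have hchart : ∀ (l : Fin n × {g // g ∈ S ∧ g ≠ 0}), ∀ m ∈ M₀, m / y l.1 ∈ chart O (M₀ * C₁) (y l.1 * (l.2 : F)) := by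
    intro l m hm
    refine Algebra.subset_adjoin ⟨m * (l.2 : F), Submodule.mul_mem_mul hm (hgmem l.2), ?_⟩
    rw [mul_div_mul_right _ _ l.2.2.2]
  have hOk : ∀ l, (p₀ l).Ok M₀ N₀ c := by
    intro l
    refine ⟨fgo_chart hM1.1 _, fun i => i.elim0, fun i => i.elim0, ⟨fun i => i.elim0, ?_⟩, hyM _, hy _,
      fun m hm => hchart l m hm, ?_⟩
    · change (1 : F) = ∏ i : Fin 0, _
      rw [Fin.prod_univ_zero]
    · intro s hs
      change s / (y l.1 ^ c * 1) ∈ (chart O (M₀ * C₁) (y l.1 * (l.2 : F))).toSubring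
      rw [mul_one]
      have h1 := pow_div_mem (hy l.1) c s (hN hs)
      have h2 : chart O M₀ (y l.1) ≤ chart O (M₀ * C₁) (y l.1 * (l.2 : F)) := by
        refine Algebra.adjoin_le ?_
        rintro _ ⟨m, hm, rfl⟩
        exact hchart l m hm
      exact h2 h1
  have hAt : ∀ (V : ValuationSubring F), Cn O V → ∀ i, (∀ j, y j / y i ∈ V) → ∀ δ, Mn O y i δ → OrdLe V δ e →
      ∃ k, (p₀ (i, k)).At V ∧ LR V (M₀ * C₁) (lo V.toSubring (p₀ (i, k)).B) := by
    intro V hV i hi δ hδ hord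
    obtain ⟨k, hk⟩ := hgmax V hV
    have hmx : ∀ m ∈ M₀ * C₁, m / (y i * (k : F)) ∈ V := by
      intro m hm
      induction hm using Submodule.mul_induction_on' with
      | mem_mul_mem a ha b hb =>
        rw [mul_div_mul_comm]
        exact V.mul_mem _ _ (max_span hV hi a ha) (hk b hb)
      | add a _ b _ ha hb => rw [add_div]; exact V.add_mem _ _ ha hb
    have hLR : LR V (M₀ * C₁) (lo V.toSubring (p₀ (i, k)).B) :=
      ⟨y i * (k : F), Submodule.mul_mem_mul (hyM i) (hgmem k), mul_ne_zero (hy i) k.2.2, hmx, rfl⟩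
    have hle : (p₀ (i, k)).B ≤ V.toSubring := chart_le_V hV hmx
    refine ⟨k, ⟨hle, ?_⟩, hLR⟩
    obtain ⟨Q, hQ, hreg⟩ := good₁ V hV i hi δ hδ hord
    rw [LR.unique hV hQ hLR] at hreg
    exact regP_zero (lo_le hle) (ic_lo hle) hreg _
  have hsplit : ∀ (V : ValuationSubring F), Cn O V → ∀ i, (∀ j, y j / y i ∈ V) → ∀ δ, Mn O y i δ → ∀ s ∈ N₀,
      V.valuation (δ * (s / y i ^ c)) ≤ V.valuation δ ∧
        V.valuation (δ * (s / y i ^ c)) ≤ V.valuation (s / y i ^ c) := by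
    intro V hV i hi δ hδ s hs
    have h1 : δ ∈ V := by
      have h2 := hδ.mem
      rw [ph_range] at h2
      exact chart_le_V hV (max_span hV hi) h2
    have h2 : s / y i ^ c ∈ V := chart_le_V hV (max_span hV hi) (pow_div_mem (hy i) c s (hN hs))
    rw [map_mul]
    exact ⟨mul_le_of_le_one_right' ((V.valuation_le_one_iff _).2 h2),
      mul_le_of_le_one_left' ((V.valuation_le_one_iff _).2 h1)⟩
  have hLv : ∀ (V : ValuationSubring F) (i : Fin n) k (s : F), s ∈ N₀ → ∀ b, OrdLe V (s / y i ^ c) b →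
      (p₀ (i, k)).Lv N₀ c V b := by
    intro V i k s hs b hb
    refine ⟨s, hs, ?_⟩
    change OrdLe V (s / (y i ^ c * 1)) b
    rwa [mul_one]
  -- the class
  let E : Set (ValuationSubring F) := {V | Cn O V ∧ (∃ i, (∀ j, y j / y i ∈ V) ∧ ∃ δ, Mn O y i δ ∧ ∃ s ∈ N₀,
    OrdLe V (δ * (s / y i ^ c)) e) ∧ ∀ i, (∀ j, y j / y i ∈ V) → ∀ δ, Mn O y i δ → ∀ s ∈ N₀,
      V.valuation (δ * (s / y i ^ c)) < 1}
  have hEC : ∀ V ∈ E, Cn O V := fun V hV => hV.1
  have hsec : ∀ i δ, Mn O y i δ → ∀ s ∈ N₀, ∃ k, ∃ a ∈ M₀ ^ k, (∀ T ∈ E, Vn M₀ k T a) ∧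
      ∀ V : ValuationSubring F, Cn O V → (∀ j, y j / y i ∈ V) → ∀ w ∈ M₀, w ≠ 0 →
        V.valuation (δ * (s / y i ^ c)) ≤ V.valuation (a / w ^ k) := by
    intro i δ hδ s hs
    have h1 : δ * (s / y i ^ c) ∈ chart O M₀ (y i) := by
      refine Subalgebra.mul_mem _ ?_ (pow_div_mem (hy i) c s (hN hs))
      have := hδ.mem
      rw [ph_range] at this
      exact this
    obtain ⟨k, a, ha, h2, h3⟩ := sec_of hy h1
    exact ⟨k, a, ha, fun T hT => h2 T (hEC T hT) fun h4 => hT.2.2 i h4 δ hδ s hs, h3⟩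
  have hBd₀ : ∀ V ∈ E, Bd M₀ V E e := by
    intro V hV
    obtain ⟨hVC, ⟨i, hi, δ, hδ, s, hs, hord⟩, -⟩ := hV
    obtain ⟨k, a, ha, h1, h2⟩ := hsec i δ hδ s hs
    exact ⟨k, a, ha, h1, fun w hw hw0 => hord.le (h2 V hVC hi w hw hw0)⟩
  have hBd : ∀ V ∈ E, Bd (M₀ * C₁) V E e := fun V hV => (per1 V (hEC V hV) E).2 e (hBd₀ V hV)
  have hSt : StN M₀ N₀ c e (M₀ * C₁) E := by
    let ε := Fintype.equivFin (Fin n × {g // g ∈ S ∧ g ≠ 0})
    refine ⟨Fintype.card (Fin n × {g // g ∈ S ∧ g ≠ 0}), fun l => p₀ (ε.symm l), fun l => hOk _, ?_⟩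
    rintro V ⟨hVC, ⟨i, hi, δ, hδ, s, hs, hord⟩, -⟩
    obtain ⟨h1, h2⟩ := hsplit V hVC i hi δ hδ s hs
    obtain ⟨k, h3, h4⟩ := hAt V hVC i hi δ hδ (hord.le h1)
    refine ⟨ε (i, k), ?_⟩
    beta_reduce
    rw [Equiv.symm_apply_apply]
    exact ⟨h3, h4, hLv V i k s hs e (hord.le h2)⟩
  obtain ⟨C₂, hC₂, iso₂, good₂⟩ := t_GEN hJ M₀ N₀ c e e (M₀ * C₁) hM1 E hEC hBd hSt
  have e1 : M₀ * (C₁ * C₂) = M₀ * C₁ * C₂ := by rw [mul_assoc]
  have hsepE : ∀ V : ValuationSubring F, Cn O V → ∀ i, (∀ j, y j / y i ∈ V) → ∀ δ, Mn O y i δ → ∀ s ∈ N₀,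
      ¬ V.valuation (δ * (s / y i ^ c)) < 1 → Sep (M₀ * C₁) V E := by
    intro V hV i hi δ hδ s hs hu
    refine (per1 V hV E).1 ?_
    obtain ⟨k, a, ha, h1, h2⟩ := hsec i δ hδ s hs
    refine ⟨k, a, ha, ?_, h1⟩
    rw [not_vn_iff hV (hyM i) (hy i) (max_span hV hi)]
    have h3 := h2 V hV hi (y i) (hyM i) (hy i)
    rw [not_lt] at hu
    have h4 := hu.trans h3
    rw [map_div₀, map_pow] at h4
    exact (one_le_div₀ (pow_pos ((Valuation.pos_iff _).2 (hy i)) k)).1 h4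
  refine ⟨C₁ * C₂, (Pool.Agent.Run7.h915.RB.t_PER O F C₁ C₂ hC₁ hC₂).1, ?_, ?_⟩
  · intro V hV i hi δ hδ s hs hu Q hQ
    obtain ⟨h1, h2⟩ := hsplit V hV i hi δ hδ s hs
    have hu1 : ¬ V.valuation δ < 1 := fun h => hu (h1.trans_lt h)
    obtain ⟨h3, h4⟩ := iso₁ V hV i hi δ hδ hu1 Q hQ
    refine ⟨?_, h4⟩
    rw [e1]
    exact iso₂ V hV (hsepE V hV i hi δ hδ s hs hu) Q h3
  · intro V hV i hi δ hδ s hs hord
    rw [e1]
    have hfin : PN M₀ N₀ c (M₀ * C₁ * C₂) V := by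
      by_cases hVE : V ∈ E
      · exact (good₂ V hVE).1
      · have h1 : ∃ i, (∀ j, y j / y i ∈ V) ∧ ∃ δ, Mn O y i δ ∧ ∃ s ∈ N₀, ¬ V.valuation (δ * (s / y i ^ c)) < 1 := by
          by_contra hcon
          push Not at hcon
          exact hVE ⟨hV, ⟨i, hi, δ, hδ, s, hs, hord⟩, fun i' hi' δ' hδ' s' hs' => hcon i' hi' δ' hδ' s' hs'⟩
        obtain ⟨i', hi', δ', hδ', s', hs', hu⟩ := h1
        obtain ⟨h2, h3⟩ := hsplit V hV i' hi' δ' hδ' s' hs'
        have hunit : ∀ a : F, ¬ V.valuation a < 1 → ∀ q, OrdLe V a q := by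
          intro a ha q z hz
          refine lt_of_lt_of_le ?_ (not_lt.1 ha)
          exact prod_lt_one z q hz
        obtain ⟨k, h4, h5⟩ := hAt V hV i' hi' δ' hδ' (hunit δ' (fun h => hu (h2.trans_lt h)) e)
        exact ⟨p₀ (i', k), hOk _, h4, iso₂ V hV (hsepE V hV i' hi' δ' hδ' s' hs' hu) _ h5,
          hLv V i' k s' hs' 0 (hunit _ (fun h => hu (h3.trans_lt h)) 0)⟩
    obtain ⟨p, h1, h2, h3, h4⟩ := hfin
    exact ⟨_, h3, Pool.Agent.Run7.h637.RB.NCF O F M₀ N₀ c p h1 V h2 h4⟩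

end Pool.Agent.Run7.h275.RB
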