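import Pool.Agent.Run7.h275.RB13
import Pool.Agent.Run7.h275.RB9

/-!
# Openness of the normal crossings locus, initial charts
-/

set_option autoImplicit false
set_option linter.unusedVariables false

namespace Pool.Agent.Run7.h275.RB

open IsLocalRing Pool.Agent.W418.LU2 Pool.Agent.H918R2.Quad Pool.Agent.Run7.h275.RL

section

variable {O F : Type} [CommRing O] [Field F] [Algebra O F]

/-- `Proj O[M]` is regular at the centre of `V` and the subscheme has normal crossings there. -/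
def NCm (M₀ N₀ : Submodule O F) (c : ℕ) (M : Submodule O F) (V : ValuationSubring F) : Prop :=
  ∃ Q, LR V M Q ∧ NCr M₀ N₀ c Q

lemma NCm.iso {M₀ N₀ : Submodule O F} {c : ℕ} {M M' : Submodule O F} {V : ValuationSubring F}
    (h : NCm M₀ N₀ c M V) (hi : ∀ Q : Subring F, LR V M Q → LR V M' Q) : NCm M₀ N₀ c M' V := by
  obtain ⟨Q, hQ, hr⟩ := h
  exact ⟨Q, hi Q hQ, hr⟩

lemma NCm.of_PN {M₀ N₀ : Submodule O F} {c : ℕ} {M : Submodule O F} {V : ValuationSubring F}
    (h : PN M₀ N₀ c M V) : NCm M₀ N₀ c M V := by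
  obtain ⟨p, h1, h2, h3, h4⟩ := h
  exact ⟨_, h3, Pool.Agent.Run7.h637.RB.NCF O F M₀ N₀ c p h1 V h2 h4⟩

/-- The ideal of the subscheme in a chart. -/
def IC0 (N₀ : Submodule O F) (c : ℕ) (w₀ : F) (B : Subring F) : Ideal B :=
  Ideal.span {b : B | ∃ n ∈ N₀, (b : F) = n / w₀ ^ c}

lemma DI_eq {M₀ N₀ : Submodule O F} {c : ℕ} (hN : N₀ ≤ M₀ ^ c) {A B : Subring F} {w₀ : F} (hw : w₀ ∈ M₀)
    (hw0 : w₀ ≠ 0) (hwB : ∀ m ∈ M₀, m / w₀ ∈ B) (hOB : ∀ o : O, algebraMap O F o ∈ B) :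
    DI M₀ N₀ c (lo A B) = IL A B (IC0 N₀ c w₀ B) := by
  have hNB : ∀ s ∈ N₀, s / w₀ ^ c ∈ B := by
    intro s hs
    let B' : Subalgebra O F := { B with algebraMap_mem' := hOB }
    have h1 : chart O M₀ w₀ ≤ B' := Algebra.adjoin_le (by
      rintro _ ⟨m, hm, rfl⟩
      exact hwB m hm)
    exact h1 (pow_div_mem hw0 c s (hN hs))
  apply le_antisymm
  · refine Ideal.span_le.2 ?_
    rintro b ⟨w, hwM, hw0', hwQ, s, hs, hb⟩
    have h1 : (⟨s / w₀ ^ c, hNB s hs⟩ : B) ∈ IC0 N₀ c w₀ B := Ideal.subset_span ⟨s, hs, rfl⟩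
    have h2 := Ideal.mem_map_of_mem (Subring.inclusion (le_lo A B)) h1
    have h3 : b = (⟨w₀ / w, hwQ w₀ hw⟩ : lo A B) ^ c *
        Subring.inclusion (le_lo A B) ⟨s / w₀ ^ c, hNB s hs⟩ := by
      apply Subtype.ext
      rw [hb]
      change s / w ^ c = (w₀ / w) ^ c * (s / w₀ ^ c)
      rw [div_pow]
      field_simp
    rw [h3]
    exact Ideal.mul_mem_left _ _ h2
  · refine Ideal.map_le_iff_le_comap.2 (Ideal.span_le.2 ?_)
    rintro b ⟨s, hs, hb⟩
    refine Ideal.subset_span ⟨w₀, hw, hw0, fun m hm => le_lo A B (hwB m hm), s, hs, ?_⟩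
    exact hb

/-- The normal crossings locus is open. -/
theorem ncm_open [IsNoetherianRing O] (hNCO : S_NCO) (hJ : J0 O) {M₀ C N₀ : Submodule O F} {c : ℕ} (hM₀ : Md M₀)
    (hC : Md C) (hN : N₀ ≤ M₀ ^ c) {V : ValuationSubring F} (hV : Cn O V) (h : NCm M₀ N₀ c (M₀ * C) V) :
    Sep (M₀ * C) V {T | Cn O T ∧ ¬ NCm M₀ N₀ c (M₀ * C) T} := by
  have hM := (Pool.Agent.Run7.h915.RB.t_PER O F M₀ C hM₀ hC).1
  refine OPP hM (fun V => NCm M₀ N₀ c (M₀ * C) V) {w | ∃ w₀ ∈ M₀, ∃ c₀ ∈ C, w₀ ≠ 0 ∧ c₀ ≠ 0 ∧ w = w₀ * c₀} ?_ ?_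
    hV h
  · intro V hV
    obtain ⟨w₀, h1, h2, h3⟩ := exists_wmax hM₀ hV
    obtain ⟨c₀, h4, h5, h6⟩ := exists_wmax hC hV
    refine ⟨w₀ * c₀, Submodule.mul_mem_mul h1 h4, mul_ne_zero h2 h5, ⟨w₀, h1, c₀, h4, h2, h5, rfl⟩, ?_⟩
    intro m hm
    induction hm using Submodule.mul_induction_on' with
    | mem_mul_mem a ha b hb =>
      rw [mul_div_mul_comm]
      exact V.mul_mem _ _ (h3 a ha) (h6 b hb)
    | add a _ b _ ha hb => rw [add_div]; exact V.add_mem _ _ ha hb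
  · rintro w hwM hw0 ⟨w₀, hw₀, c₀, hc₀, hw₀0, hc₀0, rfl⟩
    set B : Subring F := (chart O (M₀ * C) (w₀ * c₀)).toSubring with hB
    intro 𝔭 hp V hV hVw hpV hPV
    have hwB : ∀ m ∈ M₀, m / w₀ ∈ B := by
      intro m hm
      refine Algebra.subset_adjoin ⟨m * c₀, Submodule.mul_mem_mul hm hc₀, ?_⟩
      rw [mul_div_mul_right _ _ hc₀0]
    have hOB : ∀ o : O, algebraMap O F o ∈ B := fun o => Subalgebra.algebraMap_mem _ o
    have hfg : FGO O B := fgo_chart hM.1 _
    have hnoe : IsNoetherianRing B := hfg.noeth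
    have hLR : ∀ T : ValuationSubring F, Cn O T → (∀ m ∈ M₀ * C, m / (w₀ * c₀) ∈ T) →
        LR T (M₀ * C) (lo T.toSubring B) := fun T _ hTw => ⟨w₀ * c₀, hwM, hw0, hTw, rfl⟩
    obtain ⟨Q, hQ, hnc⟩ := hPV
    rw [LR.unique hV hQ (hLR V hV hVw)] at hnc
    have hnc' : NCI (lo V.toSubring B) (IL V.toSubring B (IC0 N₀ c w₀ B)) := by
      rw [← DI_eq hN hw₀ hw₀0 hwB hOB]
      exact hnc
    obtain ⟨t₁, ht₁, h1⟩ := hNCO F B (IC0 N₀ c w₀ B) 𝔭 V (chart_le_V hV hVw) hpV hnc'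
    obtain ⟨t₂, ht₂, h2⟩ := Pool.Agent.Run7.h637.RB.LQ O F hJ B hfg 𝔭 hp
    refine ⟨t₁ * t₂, fun h => (hp.mem_or_mem h).elim ht₁ ht₂, ?_⟩
    intro T hT hTw hTp hTt
    have hBT : B ≤ T.toSubring := chart_le_V hT hTw
    have h3 : ¬ T.valuation (t₁ : F) < 1 := by
      intro hs
      apply hTt
      change T.valuation ((t₁ : F) * (t₂ : F)) < 1
      rw [map_mul]
      exact mul_lt_one_aux' hs ((T.valuation_le_one_iff _).2 (hBT t₂.2))
    have h4 : ¬ T.valuation (t₂ : F) < 1 := by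
      intro hs
      apply hTt
      change T.valuation ((t₁ : F) * (t₂ : F)) < 1
      rw [map_mul]
      exact mul_lt_one_aux ((T.valuation_le_one_iff _).2 (hBT t₁.2)) hs
    have h5 := h1 T hBT hTp h3 (h2 T hBT hTp h4)
    rw [← DI_eq hN hw₀ hw₀0 hwB hOB] at h5
    exact ⟨_, hLR T hT hTw, h5⟩

/-- Nonzero generators. -/
lemma exists_gens {C : Submodule O F} (hC : Md C) : ∃ (m : ℕ) (g : Fin m → F), (∀ k, g k ≠ 0) ∧
    C = Submodule.span O (Set.range g) := by
  classical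
  obtain ⟨S, hS⟩ := hC.1
  let T := S.filter fun g => g ≠ 0
  let ε := T.equivFin
  refine ⟨T.card, fun k => (ε.symm k : F), fun k => (Finset.mem_filter.1 (ε.symm k).2).2, ?_⟩
  rw [← hS]
  apply le_antisymm
  · refine Submodule.span_le.2 ?_
    intro s hs
    by_cases h0 : s = 0
    · rw [h0]; exact Submodule.zero_mem _
    · refine Submodule.subset_span ⟨ε ⟨s, Finset.mem_filter.2 ⟨hs, h0⟩⟩, ?_⟩
      change ((ε.symm (ε ⟨s, _⟩) : T) : F) = s
      rw [Equiv.symm_apply_apply]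
  · refine Submodule.span_le.2 ?_
    rintro _ ⟨k, rfl⟩
    exact Submodule.subset_span (Finset.mem_filter.1 (ε.symm k).2).1

lemma exists_max_gen {m : ℕ} {g : Fin m → F} (hg : ∀ k, g k ≠ 0)
    (hC : Md (Submodule.span O (Set.range g))) {V : ValuationSubring F} (hV : Cn O V) :
    ∃ k, ∀ c ∈ Submodule.span O (Set.range g), c / g k ∈ V := by
  have hm : 0 < m := by
    rcases m with _ | m
    · obtain ⟨x, hx, hx0⟩ := hC.2
      exfalso
      apply hx0
      have h1 : Set.range g = ∅ := Set.range_eq_empty _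
      rw [h1, Submodule.span_empty, Submodule.mem_bot] at hx
      exact hx
    · exact Nat.succ_pos m
  have : Nonempty (Fin m) := ⟨⟨0, hm⟩⟩
  obtain ⟨k, hk⟩ := Finite.exists_max fun k => V.valuation (g k)
  exact ⟨k, max_span hV fun j => div_of_val_le (hg k) (hk j)⟩

variable {n : ℕ} {y : Fin n → F}

/-- The initial charts with empty boundary. -/
lemma init_np (hy : ∀ i, y i ≠ 0) {C N₀ : Submodule O F} {c : ℕ} (hC : Md C)
    (hN : N₀ ≤ (Submodule.span O (Set.range y)) ^ c) :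
    ∃ (m : ℕ) (p : Fin m → NP F), (∀ l, (p l).Ok (Submodule.span O (Set.range y)) N₀ c) ∧
      ∀ V : ValuationSubring F, Cn O V → ∀ i, (∀ j, y j / y i ∈ V) →
        Rg (Submodule.span O (Set.range y) * C) V → ∀ s ∈ N₀, ∀ b, OrdLe V (s / y i ^ c) b →
        ∃ l, (p l).At V ∧ LR V (Submodule.span O (Set.range y) * C) (lo V.toSubring (p l).B) ∧ (p l).Lv N₀ c V b := by
  classical
  by_cases hn : 0 < n
  swap
  · refine ⟨0, fun l => l.elim0, fun l => l.elim0, ?_⟩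
    intro V hV i
    exact absurd (Nat.lt_of_le_of_lt (Nat.zero_le _) i.2) hn
  set M₀ : Submodule O F := Submodule.span O (Set.range y) with hM₀
  have hyM : ∀ i, y i ∈ M₀ := fun i => Submodule.subset_span ⟨i, rfl⟩
  have hM : Md M₀ := ⟨Submodule.fg_span (Set.finite_range y), y ⟨0, hn⟩, hyM _, hy _⟩
  obtain ⟨r, g, hg, rfl⟩ := exists_gens hC
  have hM1 := (Pool.Agent.Run7.h915.RB.t_PER O F M₀ _ hM hC).1
  have hgmem : ∀ k, g k ∈ Submodule.span O (Set.range g) := fun k => Submodule.subset_span ⟨k, rfl⟩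
  let p₀ : Fin n × Fin r → NP F := fun l =>
    { B := (chart O (M₀ * Submodule.span O (Set.range g)) (y l.1 * g l.2)).toSubring
      s := 0
      x := Fin.elim0
      m := 1
      w := y l.1 }
  have hchart : ∀ (l : Fin n × Fin r), ∀ m ∈ M₀,
      m / y l.1 ∈ chart O (M₀ * Submodule.span O (Set.range g)) (y l.1 * g l.2) := by
    intro l m hm
    refine Algebra.subset_adjoin ⟨m * g l.2, Submodule.mul_mem_mul hm (hgmem l.2), ?_⟩
    rw [mul_div_mul_right _ _ (hg l.2)]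
  have hOk : ∀ l, (p₀ l).Ok M₀ N₀ c := by
    intro l
    refine ⟨fgo_chart hM1.1 _, fun i => i.elim0, fun i => i.elim0, ⟨fun i => i.elim0, ?_⟩, hyM _, hy _,
      fun m hm => hchart l m hm, ?_⟩
    · change (1 : F) = ∏ i : Fin 0, _
      rw [Fin.prod_univ_zero]
    · intro s hs
      change s / (y l.1 ^ c * 1) ∈ (chart O (M₀ * Submodule.span O (Set.range g)) (y l.1 * g l.2)).toSubring
      rw [mul_one]
      have h1 := pow_div_mem (hy l.1) c s (hN hs)
      have h2 : chart O M₀ (y l.1) ≤ chart O (M₀ * Submodule.span O (Set.range g)) (y l.1 * g l.2) := by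
        refine Algebra.adjoin_le ?_
        rintro _ ⟨m, hm, rfl⟩
        exact hchart l m hm
      exact h2 h1
  let ε := Fintype.equivFin (Fin n × Fin r)
  refine ⟨Fintype.card (Fin n × Fin r), fun l => p₀ (ε.symm l), fun l => hOk _, ?_⟩
  intro V hV i hi hreg s hs b hb
  obtain ⟨k, hk⟩ := exists_max_gen hg hC hV
  have hmx : ∀ m ∈ M₀ * Submodule.span O (Set.range g), m / (y i * g k) ∈ V := by
    intro m hm
    induction hm using Submodule.mul_induction_on' with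
    | mem_mul_mem a ha b hb =>
      rw [mul_div_mul_comm]
      exact V.mul_mem _ _ (max_span hV hi a ha) (hk b hb)
    | add a _ b _ ha hb => rw [add_div]; exact V.add_mem _ _ ha hb
  have hLR : LR V (M₀ * Submodule.span O (Set.range g)) (lo V.toSubring (p₀ (i, k)).B) :=
    ⟨y i * g k, Submodule.mul_mem_mul (hyM i) (hgmem k), mul_ne_zero (hy i) (hg k), hmx, rfl⟩
  have hle : (p₀ (i, k)).B ≤ V.toSubring := chart_le_V hV hmx
  refine ⟨ε (i, k), ?_⟩
  beta_reduce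
  rw [Equiv.symm_apply_apply]
  refine ⟨⟨hle, ?_⟩, hLR, s, hs, ?_⟩
  · obtain ⟨Q, hQ, hreg⟩ := hreg
    rw [LR.unique hV hQ hLR] at hreg
    exact regP_zero (lo_le hle) (ic_lo hle) hreg _
  · change OrdLe V (s / (y i ^ c * 1)) b
    rwa [mul_one]

/-! ### Orders -/

lemma OrdLe.mono {V : ValuationSubring F} {a : F} {p q : ℕ} (h : OrdLe V a p) (hpq : p ≤ q) : OrdLe V a q := by
  intro z hz
  refine lt_of_le_of_lt ?_ (h z fun i hi => hz i (by omega))
  obtain ⟨d, rfl⟩ := Nat.exists_eq_add_of_le hpq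
  clear hpq h
  induction d with
  | zero => exact le_rfl
  | succ d ih =>
    refine le_trans ?_ (ih fun i hi => hz i (by omega))
    have e1 : p + (d + 1) + 1 = p + d + 1 + 1 := by omega
    rw [e1, Finset.prod_range_succ, map_mul]
    exact mul_le_of_le_one_right' (hz (p + d + 1) (by omega)).le

lemma OrdLe.mul {V : ValuationSubring F} {a b : F} {p q : ℕ} (ha : OrdLe V a p) (hb : OrdLe V b q) :
    OrdLe V (a * b) (p + q + 1) := by
  intro z hz
  have e1 : p + q + 1 + 1 = (p + 1) + (q + 1) := by omega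
  rw [e1, Finset.prod_range_add, map_mul, map_mul]
  have h1 := ha z fun i hi => hz i (by omega)
  have h2 := hb (fun i => z (p + 1 + i)) fun i hi => hz _ (by omega)
  have hb0 : 0 < V.valuation b := (Valuation.pos_iff _).2 hb.ne
  calc V.valuation (∏ x ∈ Finset.range (p + 1), z x) * V.valuation (∏ x ∈ Finset.range (q + 1), z (p + 1 + x))
      ≤ V.valuation (∏ x ∈ Finset.range (p + 1), z x) * V.valuation b := mul_le_mul' le_rfl h2.le
    _ < V.valuation a * V.valuation b := mul_lt_mul_of_pos_right h1 hb0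

lemma OrdLe.one {V : ValuationSubring F} (q : ℕ) : OrdLe V (1 : F) q := by
  intro z hz
  rw [map_one]
  exact prod_lt_one z q hz

lemma OrdLe.pow {V : ValuationSubring F} {a : F} {p : ℕ} (ha : OrdLe V a p) (m : ℕ) :
    OrdLe V (a ^ m) (m * (p + 1)) := by
  induction m with
  | zero => rw [pow_zero]; exact OrdLe.one _
  | succ m ih =>
    rw [pow_succ]
    refine (ih.mul ha).mono ?_
    rw [Nat.succ_mul]
    omega

lemma OrdLe.of_unit {V : ValuationSubring F} {a : F} (ha : ¬ V.valuation a < 1) (q : ℕ) : OrdLe V a q := by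
  intro z hz
  exact lt_of_lt_of_le (prod_lt_one z q hz) (not_lt.1 ha)

end

end Pool.Agent.Run7.h275.RB
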