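import Pool.Agent.Run7.h275.RB14

/-!
# The tower
-/

set_option autoImplicit false
set_option linter.unusedVariables false
set_option linter.unusedSectionVars false

namespace Pool.Agent.Run7.h275.RB

open IsLocalRing Pool.Agent.W418.LU2 Pool.Agent.H918R2.Quad Pool.Agent.Run7.h275.RL

theorem t_RESQ {O F : Type} [CommRing O] [Field F] [Algebra O F] {S : Type} [CommRing S] [IsDomain S]
    [Algebra O (FractionRing S)] [IsNoetherianRing O] (hJ : J0 O) (e q : ℕ) (M : Submodule O F) (hM : Md M)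
    (E : Set (ValuationSubring F)) (hE : ∀ V ∈ E, Cn O V) (hBd : ∀ V ∈ E, Bd M V E q) (hSt : St O S M 0 e E) :
    ResQ Rg M E ∅ :=
  RESQ Pool.Agent.Run7.h915.RB.t_WF Pool.Agent.Run7.h957.RB.CEN t_ISO t_NVC
    Pool.Agent.Run7.h915.RB.t_BUC Pool.Agent.Run7.h915.RB.t_PER Pool.Agent.Run7.h915.RB.t_PEEL
    Pool.Agent.Run7.h651.RB.t_OPN Pool.Agent.Run7.h973.RB.BUB
    Pool.Agent.Run7.h56.RB.MON Pool.Agent.Run7.h637.RB.LQ Pool.Agent.Run7.h637.RB.GR
    Pool.Agent.Run7.h617.RB.dep Pool.Agent.Run7.h56.RB.STEP Pool.Agent.Run7.h637.RB.BND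
    Pool.Agent.Run7.h651.RB.t_TRN Pool.Agent.Run7.h651.RB.t_PRI hJ e q M hM E hE hBd hSt

theorem t_GENQ {O F : Type} [CommRing O] [Field F] [Algebra O F] [IsNoetherianRing O] (hJ : J0 O)
    (M₀ N₀ : Submodule O F) (c b q : ℕ) (M : Submodule O F) (hM : Md M) (E : Set (ValuationSubring F))
    (hE : ∀ V ∈ E, Cn O V) (hBd : ∀ V ∈ E, Bd M V E q) (hSt : StN M₀ N₀ c b M E) :
    ResQ (PN M₀ N₀ c) M E ∅ :=
  GENQ Pool.Agent.Run7.h915.RB.t_WF Pool.Agent.Run7.h957.RB.CEN t_ISO t_NVC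
    Pool.Agent.Run7.h915.RB.t_BUC Pool.Agent.Run7.h915.RB.t_PER (PN.iso M₀ N₀ c) (StN.mono M₀ N₀ c)
    (StN.zero M₀ N₀ c) (t_STN hJ M₀ N₀ c) b q M hM E ∅ hE (fun T hT => absurd hT (Set.notMem_empty T))
    (fun V hV => by rw [Set.union_empty]; exact hBd V hV) hSt

section

variable {O F : Type} [CommRing O] [IsDomain O] [IsRegularRing O] [Field F] [Algebra O F] {n : ℕ} {y : Fin n → F}

/-- `a` is the product of a minor and of a local equation, at a point of the chart `i`. -/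
def Ac (O : Type) {F : Type} [CommRing O] [Field F] [Algebra O F] {n : ℕ} (y : Fin n → F) (N₀ : Submodule O F)
    (c : ℕ) (V : ValuationSubring F) (i : Fin n) (a : F) : Prop :=
  (∀ j, y j / y i ∈ V) ∧ ∃ δ, Mn O y i δ ∧ ∃ s ∈ N₀, a = δ * (s / y i ^ c)

lemma split_le {N₀ : Submodule O F} {c : ℕ} (hy : ∀ i, y i ≠ 0) (hN : N₀ ≤ (Submodule.span O (Set.range y)) ^ c)
    {V : ValuationSubring F} (hV : Cn O V) {i : Fin n} (hi : ∀ j, y j / y i ∈ V) {δ : F} (hδ : Mn O y i δ)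
    {s : F} (hs : s ∈ N₀) : V.valuation (δ * (s / y i ^ c)) ≤ V.valuation δ ∧
      V.valuation (δ * (s / y i ^ c)) ≤ V.valuation (s / y i ^ c) := by
  have h1 : δ ∈ V := by
    have h2 := hδ.mem
    rw [ph_range] at h2
    exact chart_le_V hV (max_span hV hi) h2
  have h2 : s / y i ^ c ∈ V := chart_le_V hV (max_span hV hi) (pow_div_mem (hy i) c s (hN hs))
  rw [map_mul]
  exact ⟨mul_le_of_le_one_right' ((V.valuation_le_one_iff _).2 h2),
    mul_le_of_le_one_left' ((V.valuation_le_one_iff _).2 h1)⟩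

/-- Where `a` is a unit there are normal crossings on `Proj O[M₀]`. -/
lemma ncm_unit (hy : ∀ i, y i ≠ 0) {N₀ : Submodule O F} {c : ℕ} (hN : N₀ ≤ (Submodule.span O (Set.range y)) ^ c)
    {V : ValuationSubring F} (hV : Cn O V) {i : Fin n} {a : F} (ha : Ac O y N₀ c V i a) (hu : ¬ V.valuation a < 1) :
    NCm (Submodule.span O (Set.range y)) N₀ c (Submodule.span O (Set.range y)) V := by
  obtain ⟨hi, δ, hδ, s, hs, rfl⟩ := ha
  obtain ⟨h1, h2⟩ := split_le hy hN hV hi hδ hs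
  have hone : Md (1 : Submodule O F) := ⟨by
    rw [Submodule.one_eq_span]
    exact Submodule.fg_span_singleton _, 1, Submodule.one_le.1 le_rfl, one_ne_zero⟩
  obtain ⟨m, p, hOk, hp⟩ := init_np hy hone hN
  rw [mul_one] at hp
  have hreg : Rg (Submodule.span O (Set.range y)) V := by
    refine ⟨_, lr_ph hy hV hi, ?_⟩
    have hrV : (ph O y i).range ≤ V.toSubring := by
      rw [ph_range]
      exact chart_le_V hV (max_span hV hi)
    have hu1 : ¬ V.valuation δ < 1 := fun h => hu (h1.trans_lt h)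
    obtain ⟨r, f, D, hf, hgen, rfl⟩ := hδ
    exact Pool.Agent.Run7.h637.RB.REG0 (MvPolynomial (Fin n) O) F (ph O y i) r (fun l s => ph O y i (D l s))
      (fun l => ph_der (D l)) f hf hgen (fun l s => ⟨_, rfl⟩) V hrV hu1
  obtain ⟨l, h3, h4, h5⟩ := hp V hV i hi hreg s hs 0 (OrdLe.of_unit (fun h => hu (h2.trans_lt h)) 0)
  exact NCm.of_PN ⟨p l, hOk l, h3, h4, h5⟩

/-- A stage of the tower. -/
structure Stg (O : Type) {F : Type} [CommRing O] [Field F] [Algebra O F] {n : ℕ} (y : Fin n → F)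
    (N₀ : Submodule O F) (c κ : ℕ) (C : Submodule O F) : Prop where
  md : Md C
  le : C ≤ (Submodule.span O (Set.range y)) ^ κ
  nv : ∀ V : ValuationSubring F, Cn O V → ∀ i a, Ac O y N₀ c V i a → ¬ V.valuation a < 1 →
    ∃ g ∈ C, ¬ Vn (Submodule.span O (Set.range y)) κ V g

/-- Bounded transfer: the order of the centre is bounded in terms of the order of `a`. -/
lemma Stg.bound (hNUL : S_NUL) (hy : ∀ i, y i ≠ 0) {N₀ : Submodule O F} {c κ : ℕ}
    (hN : N₀ ≤ (Submodule.span O (Set.range y)) ^ c) {C : Submodule O F} (h : Stg O y N₀ c κ C) (i : Fin n) :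
    ∃ N : ℕ, ∀ V : ValuationSubring F, Cn O V → ∀ a, Ac O y N₀ c V i a → a ≠ 0 →
      ∃ g ∈ C, V.valuation a ^ N ≤ V.valuation (g / y i ^ κ) := by
  have hnoeO : IsNoetherianRing O := inferInstance
  set M₀ : Submodule O F := Submodule.span O (Set.range y) with hM₀
  have hyM : ∀ i, y i ∈ M₀ := fun i => Submodule.subset_span ⟨i, rfl⟩
  have hM : Md M₀ := ⟨Submodule.fg_span (Set.finite_range y), y i, hyM _, hy _⟩
  set B : Subring F := (chart O M₀ (y i)).toSubring with hB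
  have hnoe : IsNoetherianRing B := (fgo_chart hM.1 _).noeth
  have hOB : ∀ o : O, algebraMap O F o ∈ B := fun o => Subalgebra.algebraMap_mem _ o
  have hyB : ∀ j, y j / y i ∈ B := fun j => Algebra.subset_adjoin ⟨y j, hyM j, rfl⟩
  let J : Ideal B := Ideal.span {b | ∃ δ, Mn O y i δ ∧ ∃ s ∈ N₀, (b : F) = δ * (s / y i ^ c)}
  let 𝔠 : Ideal B := Ideal.span {b | ∃ g ∈ C, (b : F) = g / y i ^ κ}
  obtain ⟨N, hNle⟩ := hNUL F B J 𝔠 (by
    intro V hBV hc b hb
    have hV : Cn O V := fun o => hBV (hOB o)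
    have hi : ∀ j, y j / y i ∈ V := fun j => hBV (hyB j)
    by_contra hcon
    have hb0 : (b : F) ≠ 0 := by
      intro h0
      rw [h0, map_zero] at hcon
      exact hcon zero_lt_one
    obtain ⟨d, ⟨δ, hδ, s, hs, hd⟩, hle⟩ := val_span hBV hb hb0
    have hu : ¬ V.valuation (d : F) < 1 := fun h => hcon (hle.trans_lt h)
    obtain ⟨g, hg, hgV⟩ := h.nv V hV i d ⟨hi, δ, hδ, s, hs, hd⟩ hu
    rw [not_vn_iff hV (hyM i) (hy i) (max_span hV hi)] at hgV
    have h1 := hc ⟨g / y i ^ κ, pow_div_mem (hy i) κ g (h.le hg)⟩ (Ideal.subset_span ⟨g, hg, rfl⟩)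
    change V.valuation (g / y i ^ κ) < 1 at h1
    rw [map_div₀, map_pow] at h1
    exact absurd h1 (not_lt.2 ((one_le_div₀ (pow_pos ((Valuation.pos_iff _).2 (hy i)) κ)).2 hgV)))
  refine ⟨N, ?_⟩
  rintro V hV a ⟨hi, δ, hδ, s, hs, ha⟩ ha0
  have hBV : B ≤ V.toSubring := chart_le_V hV (max_span hV hi)
  have haB : a ∈ B := by
    rw [ha]
    refine B.mul_mem ?_ (pow_div_mem (hy i) c s (hN hs))
    have h2 := hδ.mem
    rw [ph_range] at h2
    exact h2
  have h0 : (⟨a, haB⟩ : B) ∈ J := Ideal.subset_span ⟨δ, hδ, s, hs, ha⟩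
  have h1 : (⟨a, haB⟩ : B) ^ N ∈ 𝔠 := hNle (Ideal.pow_mem_pow h0 N)
  obtain ⟨d, ⟨g, hg, hd⟩, hle⟩ := val_span hBV h1 (by
    change a ^ N ≠ 0
    exact pow_ne_zero _ ha0)
  refine ⟨g, hg, ?_⟩
  rw [← hd, ← map_pow]
  exact hle

/-- **The step of the tower.** -/
theorem tower_step (hNCO : S_NCO) (hNUL : S_NUL) (hTRP : S_TRP) (hJ : J0 O) (hy : ∀ i, y i ≠ 0) (hn : 0 < n)
    {N₀ : Submodule O F} {c κ : ℕ}
    (hN : N₀ ≤ (Submodule.span O (Set.range y)) ^ c) {C : Submodule O F} (h : Stg O y N₀ c κ C) (e : ℕ) :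
    ∃ κ' C', Md C' ∧ C' ≤ (Submodule.span O (Set.range y) * C) ^ κ' ∧
      (∀ V : ValuationSubring F, Cn O V → NCm (Submodule.span O (Set.range y)) N₀ c (Submodule.span O (Set.range y) * C) V →
        ∃ g ∈ C', ¬ Vn (Submodule.span O (Set.range y) * C) κ' V g) ∧
      ∀ V : ValuationSubring F, Cn O V → ∀ i a, Ac O y N₀ c V i a → OrdLe V a e →
        NCm (Submodule.span O (Set.range y)) N₀ c (Submodule.span O (Set.range y) * C * C') V := by
  classical
  have hnoeO : IsNoetherianRing O := inferInstance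
  set M₀ : Submodule O F := Submodule.span O (Set.range y) with hM₀
  have hyM : ∀ i, y i ∈ M₀ := fun i => Submodule.subset_span ⟨i, rfl⟩
  have hMM : Md M₀ := ⟨Submodule.fg_span (Set.finite_range y), y ⟨0, hn⟩, hyM _, hy _⟩
  obtain ⟨hM, per0⟩ := Pool.Agent.Run7.h915.RB.t_PER O F M₀ C hMM h.md
  set M : Submodule O F := M₀ * C with hMdef
  -- the class
  let E : Set (ValuationSubring F) := {V | Cn O V ∧ (∃ i a, Ac O y N₀ c V i a ∧ OrdLe V a e) ∧ ¬ NCm M₀ N₀ c M V}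
  have hEC : ∀ V ∈ E, Cn O V := fun V hV => hV.1
  have hopen : ∀ V : ValuationSubring F, Cn O V → NCm M₀ N₀ c M V → Sep M V E := by
    intro V hV hnc
    exact (ncm_open hNCO hJ hMM h.md hN hV hnc).mono fun T hT => ⟨hT.1, hT.2.2⟩
  have hunit : ∀ V : ValuationSubring F, Cn O V → ∀ i a, Ac O y N₀ c V i a → ¬ V.valuation a < 1 →
      NCm M₀ N₀ c M V := by
    intro V hV i a ha hu
    exact (ncm_unit hy hN hV ha hu).iso (t_ISO O F M₀ C κ hMM h.md h.le V hV (h.nv V hV i a ha hu))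
  have hBd₀ : ∀ V ∈ E, Bd M₀ V E e := by
    intro V hV
    obtain ⟨hVC, ⟨i, a, ⟨hi, δ, hδ, s, hs, ha⟩, hord⟩, -⟩ := hV
    have h1 : a ∈ chart O M₀ (y i) := by
      rw [ha]
      refine Subalgebra.mul_mem _ ?_ (pow_div_mem (hy i) c s (hN hs))
      have := hδ.mem
      rw [ph_range] at this
      exact this
    obtain ⟨k, b, hb, h2, h3⟩ := sec_of hy h1
    refine ⟨k, b, hb, fun T hT => h2 T hT.1 fun h4 => ?_, fun w hw hw0 => hord.le (h3 V hVC hi w hw hw0)⟩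
    by_contra hcon
    exact hT.2.2 (hunit T hT.1 i a ⟨h4, δ, hδ, s, hs, ha⟩ hcon)
  have hBd : ∀ V ∈ E, Bd M V E e := fun V hV => (per0 V (hEC V hV) E).2 e (hBd₀ V hV)
  -- the presentations
  choose N hNb using fun i => h.bound hNUL hy hN i
  obtain ⟨m, g, hg, hCg⟩ := exists_gens h.md
  have hgC : ∀ k, g k ∈ C := fun k => by rw [hCg]; exact Submodule.subset_span ⟨k, rfl⟩
  have hnoe : ∀ i, IsNoetherianRing (ph O y i).range := fun i =>
    isNoetherianRing_of_surjective _ _ (ph O y i).rangeRestrict (ph O y i).rangeRestrict_surjective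
  have hfin : ∀ i, ∃ t : Finset (ph O y i).range, (t : Set (ph O y i).range) ⊆ {b | Mn O y i (b : F)} ∧
      Ideal.span {b : (ph O y i).range | Mn O y i (b : F)} = Ideal.span (t : Set (ph O y i).range) := by
    intro i
    have := hnoe i
    exact Submodule.fg_span_iff_fg_span_finset_subset _ |>.1 (IsNoetherian.noetherian _)
  choose t ht hts using hfin
  obtain ⟨e₁, he₁⟩ : ∃ e₁, ∀ i, e + m * (N i * (e + 1) + 1) + 1 ≤ e₁ := by
    refine ⟨∑ i, (e + m * (N i * (e + 1) + 1) + 1), fun i => ?_⟩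
    exact Finset.single_le_sum (f := fun i => e + m * (N i * (e + 1) + 1) + 1) (fun _ _ => Nat.zero_le _)
      (Finset.mem_univ i)
  have hpres : ∀ (i : Fin n) (k : Fin m) (b : (ph O y i).range), Mn O y i (b : F) →
      ∃ p : Pres (MvPolynomial (Fin m) (MvPolynomial (Fin n) O)) F,
        p.Ok O 0 (chart O M (y i * g k)).toSubring ∧ p.dl = (b : F) * (g k / y i ^ κ) ^ m ∧
        ∀ V : ValuationSubring F, (chart O M (y i * g k)).toSubring ≤ V.toSubring →
          p.At 0 (chart O M (y i * g k)).toSubring V := by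
    intro i k b hb
    have h1 := hTRP O F n m y g hy hg κ (fun k => h.le (hgC k)) i k b hb
    rw [← hCg] at h1
    exact h1
  have hSt : St O (MvPolynomial (Fin m) (MvPolynomial (Fin n) O)) M 0 e₁ E := by
    choose p hp1 hp2 hp3 using hpres
    let ι := Fin m × Σ i : Fin n, {b // b ∈ t i}
    let ε := Fintype.equivFin ι
    refine ⟨Fintype.card ι, fun l => p (ε.symm l).2.1 (ε.symm l).1 (ε.symm l).2.2.1 (ht _ (ε.symm l).2.2.2),
      fun l => (chart O M (y (ε.symm l).2.1 * g (ε.symm l).1)).toSubring, fun l => hp1 _ _ _ _, ?_⟩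
    rintro V ⟨hV, ⟨i, a, hA, hord⟩, -⟩
    right
    obtain ⟨hi, δ, hδ, s, hs, ha⟩ := hA
    have ha0 : a ≠ 0 := hord.ne
    have hδ0 : δ ≠ 0 := by
      rintro rfl
      rw [zero_mul] at ha
      exact ha0 ha
    have hrV : (ph O y i).range ≤ V.toSubring := by
      rw [ph_range]
      exact chart_le_V hV (max_span hV hi)
    have h1 : (⟨δ, hδ.mem⟩ : (ph O y i).range) ∈ Ideal.span (t i : Set (ph O y i).range) := by
      rw [← hts i]
      exact Ideal.subset_span hδ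
    obtain ⟨d, hd, hle⟩ := val_span hrV h1 hδ0
    obtain ⟨k, hk⟩ := exists_max_gen hg (by rw [← hCg]; exact h.md) hV
    rw [← hCg] at hk
    have hmx : ∀ x ∈ M, x / (y i * g k) ∈ V := by
      intro x hx
      induction hx using Submodule.mul_induction_on' with
      | mem_mul_mem a ha b hb =>
        rw [mul_div_mul_comm]
        exact V.mul_mem _ _ (max_span hV hi a ha) (hk b hb)
      | add a _ b _ ha hb => rw [add_div]; exact V.add_mem _ _ ha hb
    have hBV : (chart O M (y i * g k)).toSubring ≤ V.toSubring := chart_le_V hV hmx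
    refine ⟨ε (k, ⟨i, ⟨d, hd⟩⟩), ?_⟩
    beta_reduce
    rw [Equiv.symm_apply_apply]
    refine ⟨hp3 _ _ _ _ V hBV, ⟨y i * g k, Submodule.mul_mem_mul (hyM i) (hgC k), mul_ne_zero (hy i) (hg k), hmx,
      rfl⟩, ?_⟩
    rw [hp2]
    have h2 : OrdLe V (d : F) e := by
      refine hord.le ?_
      rw [ha]
      exact (split_le hy hN hV hi hδ hs).1.trans hle
    have h3 : OrdLe V (g k / y i ^ κ) (N i * (e + 1)) := by
      obtain ⟨g', hg', hle'⟩ := hNb i V hV a ⟨hi, δ, hδ, s, hs, ha⟩ ha0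
      refine (hord.pow (N i)).le ?_
      rw [map_pow]
      refine hle'.trans ?_
      rw [map_div₀, map_div₀]
      exact div_le_div_of_nonneg_right (val_le_of_div (hg k) (hk g' hg')) zero_le
    exact (h2.mul (h3.pow m)).mono (he₁ i)
  obtain ⟨C₁, hC₁, ⟨k₁, hk₁, nv₁⟩, good₁⟩ := t_RESQ hJ e₁ e M hM E hEC hBd hSt
  obtain ⟨hM', per1⟩ := Pool.Agent.Run7.h915.RB.t_PER O F M C₁ hM hC₁
  have hCC : Md (C * C₁) := (Pool.Agent.Run7.h915.RB.t_PER O F C C₁ h.md hC₁).1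
  have e1 : M₀ * (C * C₁) = M * C₁ := by rw [hMdef, mul_assoc]
  have hSt' : StN M₀ N₀ c e (M * C₁) E := by
    obtain ⟨r, p, hOk, hp⟩ := init_np hy hCC hN
    refine ⟨r, p, hOk, ?_⟩
    intro V hV
    have hV' := hV
    obtain ⟨hVC, ⟨i, a, ⟨hi, δ, hδ, s, hs, ha⟩, hord⟩, -⟩ := hV'
    have h1 := (good₁ V hV).1
    rw [← e1] at h1
    have h2 := hp V hVC i hi h1 s hs e (hord.le (by
      rw [ha]
      exact (split_le hy hN hVC hi hδ hs).2))
    rw [← hM₀, e1] at h2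
    exact h2
  obtain ⟨C₂, hC₂, ⟨k₂, hk₂, nv₂⟩, good₂⟩ := t_GENQ hJ M₀ N₀ c e e (M * C₁) hM' E hEC
    (fun V hV => (per1 V (hEC V hV) E).2 e (hBd V hV)) hSt'
  obtain ⟨c1, c2⟩ := nv_comp hM hk₁ hk₂
  have hnv : ∀ V : ValuationSubring F, Cn O V → Sep M V E → ∃ g ∈ C₁ * C₂, ¬ Vn M (k₁ + (1 + k₁) * k₂) V g := by
    intro V hV hs
    exact c2 V hV (nv₁ V hV hs) (nv₂ V hV ((per1 V hV E).1 hs))
  have hMd : Md (C₁ * C₂) := (Pool.Agent.Run7.h915.RB.t_PER O F C₁ C₂ hC₁ hC₂).1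
  refine ⟨k₁ + (1 + k₁) * k₂, C₁ * C₂, hMd, c1, fun V hV hnc => hnv V hV (hopen V hV hnc), ?_⟩
  intro V hV i a ha hord
  by_cases hnc : NCm M₀ N₀ c M V
  · exact hnc.iso (t_ISO O F M (C₁ * C₂) _ hM hMd c1 V hV (hnv V hV (hopen V hV hnc)))
  · have := (good₂ V ⟨hV, ⟨i, a, ha, hord⟩, hnc⟩).1
    rw [mul_assoc] at this
    exact NCm.of_PN this

end

end Pool.Agent.Run7.h275.RB
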