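import Pool.Agent.Run7.h275.RB5

/-!
# Interface, fifth part: points with values in valuation rings
-/

set_option autoImplicit false
set_option linter.unusedVariables false

namespace Pool.Agent.Run7.h275.RB

open IsLocalRing Pool.Agent.W418.LU2 Pool.Agent.H918R2.Quad Pool.Agent.Run7.h275.RL

/-- **PTS** A point `π` of `Spec B` with values in the valuation ring `R` of `L`, whose generic point is a regular point of
`Spec B`, is given by valuation rings `V ⊆ W` of `F`.  Proof: `𝔮 = ker π` is a prime ideal of `B`; there is a valuation ring `V₀` of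
`F` which contains `B` and has the centre `𝔮` on `B`; `A = lo V₀ B = B_𝔮` is regular; `π` extends to `π' : A → L` with the kernel
`𝔮 A = 𝔪_A`.  Let `W` be as in `S_CMP1` (helper24: CMP1), then `A = lo W B`, and let `V` be as in `S_CMP2` for `A`, `W`, `π'`, `R`.
`β` is the restriction of `π'` to `Q ≤ A`. -/
def S_PTS : Prop := ∀ (F L : Type) [Field F] [Field L] (B : Subring F) (_ : ∀ z : F, ∃ a ∈ B, ∃ b ∈ B, b ≠ 0 ∧ z = a / b)
  (π : B →+* L) (R : ValuationSubring L), (∀ b, π b ∈ R) →
  (∀ V₀ : ValuationSubring F, B ≤ V₀.toSubring → (∀ b : B, V₀.valuation (b : F) < 1 ↔ π b = 0) →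
    IsRegularLocalRing (lo V₀.toSubring B)) →
  ∃ W V : ValuationSubring F, V.toSubring ≤ W.toSubring ∧ B ≤ V.toSubring ∧
    (∀ b : B, W.valuation (b : F) < 1 ↔ π b = 0) ∧ (∀ (b : B) (q : ℕ), OrdLe R (π b) q → OrdLe V (b : F) q) ∧
    ∀ Q : Subring F, Q ≤ V.toSubring → IC V.toSubring Q → Q ≤ lo W.toSubring B →
      ∃ β : Q →+* R, (∀ q : Q, IsUnit (β q) → IsUnit q) ∧
        ∀ (b : B) (h : (b : F) ∈ Q), ((β ⟨b, h⟩ : R) : L) = π b

end Pool.Agent.Run7.h275.RB
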