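import Pool.Agent.Run7.h275.RB15

/-!
# The tower theorem
-/

set_option autoImplicit false
set_option linter.unusedVariables false
set_option linter.unusedSectionVars false

namespace Pool.Agent.Run7.h275.RB

open IsLocalRing Pool.Agent.W418.LU2 Pool.Agent.H918R2.Quad Pool.Agent.Run7.h275.RL

section

variable {O F : Type} [CommRing O] [IsDomain O] [IsRegularRing O] [Field F] [Algebra O F] {n : ℕ} {y : Fin n → F}

/-- **The tower theorem.** -/
theorem TOWER (hNCO : S_NCO) (hNUL : S_NUL) (hTRP : S_TRP) (hJ : J0 O) (hy : ∀ i, y i ≠ 0) (hn : 0 < n)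
    {N₀ : Submodule O F} {c : ℕ} (hN : N₀ ≤ (Submodule.span O (Set.range y)) ^ c) :
    ∃ (M C : ℕ → Submodule O F) (k : ℕ → ℕ), M 0 = Submodule.span O (Set.range y) ∧
      (∀ e, Md (C e) ∧ C e ≤ M e ^ k e ∧ M (e + 1) = M e * C e) ∧
      (∀ e, ∃ D : Submodule O F, Md D ∧ M e = Submodule.span O (Set.range y) * D) ∧
      (∀ (e : ℕ) (V : ValuationSubring F), Cn O V → NCm (Submodule.span O (Set.range y)) N₀ c (M e) V →
        ∃ g ∈ C e, ¬ Vn (M e) (k e) V g) ∧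
      ∀ (e : ℕ) (V : ValuationSubring F), Cn O V → ∀ i a, Ac O y N₀ c V i a → OrdLe V a e →
        NCm (Submodule.span O (Set.range y)) N₀ c (M e) V := by
  classical
  set M₀ : Submodule O F := Submodule.span O (Set.range y) with hM₀
  have hyM : ∀ i, y i ∈ M₀ := fun i => Submodule.subset_span ⟨i, rfl⟩
  have hMM : Md M₀ := ⟨Submodule.fg_span (Set.finite_range y), y ⟨0, hn⟩, hyM _, hy _⟩
  let St := {p : ℕ × Submodule O F // Stg O y N₀ c p.1 p.2}
  have hone : Md (1 : Submodule O F) := ⟨by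
    rw [Submodule.one_eq_span]
    exact Submodule.fg_span_singleton _, 1, Submodule.one_le.1 le_rfl, one_ne_zero⟩
  -- the first stage
  let s₀ : St := ⟨(0, 1), hone, by rw [pow_zero], fun V hV i a ha hu => ⟨1, Submodule.one_le.1 le_rfl, one_nv⟩⟩
  -- the next stage
  have hstep : ∀ (e : ℕ) (s : St), ∃ κ' C', Md C' ∧ C' ≤ (M₀ * s.1.2) ^ κ' ∧
      (∀ V : ValuationSubring F, Cn O V → NCm M₀ N₀ c (M₀ * s.1.2) V → ∃ g ∈ C', ¬ Vn (M₀ * s.1.2) κ' V g) ∧
      ∀ V : ValuationSubring F, Cn O V → ∀ i a, Ac O y N₀ c V i a → OrdLe V a e →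
        NCm M₀ N₀ c (M₀ * s.1.2 * C') V := fun e s => tower_step hNCO hNUL hTRP hJ hy hn hN s.2 e
  choose κ' C' h1 h2 h3 h4 using hstep
  have hnext : ∀ (e : ℕ) (s : St), Stg O y N₀ c (s.1.1 + (1 + s.1.1) * κ' e s) (s.1.2 * C' e s) := by
    intro e s
    obtain ⟨c1, c2⟩ := nv_comp hMM s.2.le (h2 e s)
    refine ⟨(Pool.Agent.Run7.h915.RB.t_PER O F _ _ s.2.md (h1 e s)).1, c1, ?_⟩
    intro V hV i a ha hu
    have hnv := s.2.nv V hV i a ha hu
    refine c2 V hV hnv (h3 e s V hV ?_)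
    exact (ncm_unit hy hN hV ha hu).iso (t_ISO O F M₀ s.1.2 s.1.1 hMM s.2.md s.2.le V hV hnv)
  let nx : ℕ → St → St := fun e s => ⟨(s.1.1 + (1 + s.1.1) * κ' e s, s.1.2 * C' e s), hnext e s⟩
  let sq : ℕ → St := fun e => Nat.rec s₀ (fun e s => nx (e + 1) s) e
  have hsq : ∀ e, sq (e + 1) = nx (e + 1) (sq e) := fun e => rfl
  refine ⟨fun e => M₀ * (sq e).1.2, fun e => C' (e + 1) (sq e), fun e => κ' (e + 1) (sq e), ?_, ?_, ?_, ?_, ?_⟩
  · change M₀ * (1 : Submodule O F) = M₀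
    rw [mul_one]
  · intro e
    refine ⟨h1 _ _, h2 _ _, ?_⟩
    change M₀ * ((sq e).1.2 * C' (e + 1) (sq e)) = M₀ * (sq e).1.2 * C' (e + 1) (sq e)
    rw [mul_assoc]
  · intro e
    exact ⟨(sq e).1.2, (sq e).2.md, rfl⟩
  · intro e V hV hnc
    exact h3 (e + 1) (sq e) V hV hnc
  · intro e V hV i a ha hord
    rcases e with _ | e
    · have h5 := ncm_unit hy hN hV ha hord.zero
      change NCm M₀ N₀ c (M₀ * (1 : Submodule O F)) V
      rw [mul_one]
      exact h5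
    · have h5 := h4 (e + 1) (sq e) V hV i a ha hord
      rw [mul_assoc] at h5
      exact h5

end

end Pool.Agent.Run7.h275.RB
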