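import Pool.Agent.Run7.h275.RB17
import Pool.Agent.Run7.h216.RB.NulJ
import Pool.Agent.Run7.h216.RB.Trp
import Pool.Agent.Run7.h781.RB.NCO

/-!
# The tower theorem, without hypotheses
-/

set_option autoImplicit false
set_option linter.unusedVariables false

namespace Pool.Agent.Run7.h275.RB

open IsLocalRing Pool.Agent.W418.LU2 Pool.Agent.H918R2.Quad Pool.Agent.Run7.h275.RL

theorem t_TOWER {O F : Type} [CommRing O] [IsDomain O] [IsRegularRing O] [Field F] [Algebra O F] {n : ℕ}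
    {y : Fin n → F} (hJ : J0 O) (hy : ∀ i, y i ≠ 0) (hn : 0 < n)
    {N₀ : Submodule O F} {c : ℕ} (hN : N₀ ≤ (Submodule.span O (Set.range y)) ^ c) :
    ∃ (M C : ℕ → Submodule O F) (k : ℕ → ℕ), M 0 = Submodule.span O (Set.range y) ∧
      (∀ e, Md (C e) ∧ C e ≤ M e ^ k e ∧ M (e + 1) = M e * C e) ∧
      (∀ e, ∃ D : Submodule O F, Md D ∧ M e = Submodule.span O (Set.range y) * D) ∧
      (∀ (e : ℕ) (V : ValuationSubring F), Cn O V → NCm (Submodule.span O (Set.range y)) N₀ c (M e) V →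
        ∃ g ∈ C e, ¬ Vn (M e) (k e) V g) ∧
      ∀ (e : ℕ) (V : ValuationSubring F), Cn O V → ∀ i a, Ac O y N₀ c V i a → OrdLe V a e →
        NCm (Submodule.span O (Set.range y)) N₀ c (M e) V :=
  TOWER Pool.Agent.Run7.h781.RB.NCO Pool.Agent.Run7.h216.RB.t_NUL Pool.Agent.Run7.h216.RB.t_TRP hJ hy hn hN

end Pool.Agent.Run7.h275.RB
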