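import Pool.Agent.Run7.h275.RB18

/-!
# The tower of regular loci; the family of affine charts
-/

set_option autoImplicit false
set_option linter.unusedVariables false
set_option linter.unusedSectionVars false

namespace Pool.Agent.Run7.h275.RB

open IsLocalRing Pool.Agent.W418.LU2 Pool.Agent.H918R2.Quad Pool.Agent.Run7.h275.RL

section

variable {O F : Type} [CommRing O] [Field F] [Algebra O F]

/-- The tower: `X_(e+1) → X_e` is an isomorphism over the regular locus, which is open. -/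
structure Twr (M : ℕ → Submodule O F) : Prop where
  md : ∀ e, Md (M e)
  iso : ∀ (e : ℕ) (V : ValuationSubring F), Cn O V → ∀ Q : Subring F, LR V (M e) Q → IsRegularLocalRing Q →
    LR V (M (e + 1)) Q
  opn : ∀ (e : ℕ) (V : ValuationSubring F), Cn O V → Rg (M e) V → Sep (M e) V {T | Cn O T ∧ ¬ Rg (M e) T}

lemma Twr.iso_le {M : ℕ → Submodule O F} (h : Twr M) {e e' : ℕ} (he : e ≤ e') {V : ValuationSubring F} (hV : Cn O V)
    {Q : Subring F} (hQ : LR V (M e) Q) (hr : IsRegularLocalRing Q) : LR V (M e') Q := by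
  obtain ⟨d, rfl⟩ := Nat.exists_eq_add_of_le he
  clear he
  induction d with
  | zero => exact hQ
  | succ d ih => exact h.iso (e + d) V hV Q ih hr

end

section

variable {O F : Type} [CommRing O] [IsDomain O] [IsRegularRing O] [Field F] [Algebra O F] {n : ℕ} {y : Fin n → F}

/-- **The tower of regular loci.** -/
theorem t_TOWR (hJ : J0 O) (hy : ∀ i, y i ≠ 0) (hn : 0 < n) :
    ∃ M : ℕ → Submodule O F, Twr M ∧ M 0 = Submodule.span O (Set.range y) ∧
      (∀ e, ∃ D : Submodule O F, Md D ∧ M e = Submodule.span O (Set.range y) * D) ∧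
      ∀ (e : ℕ) (V : ValuationSubring F), Cn O V → ∀ i, (∀ j, y j / y i ∈ V) → ∀ δ, Mn O y i δ → OrdLe V δ e →
        Rg (M e) V := by
  have hnoeO : IsNoetherianRing O := inferInstance
  have hN : (1 : Submodule O F) ≤ Submodule.span O (Set.range y) ^ 0 := by rw [pow_zero]
  obtain ⟨M, C, k, h0, h1, h2, h3, h4⟩ := t_TOWER hJ hy hn hN
  have hyM : ∀ i, y i ∈ Submodule.span O (Set.range y) := fun i => Submodule.subset_span ⟨i, rfl⟩
  have hMM : Md (Submodule.span O (Set.range y)) := ⟨Submodule.fg_span (Set.finite_range y), y ⟨0, hn⟩, hyM _, hy _⟩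
  have hmd : ∀ e, Md (M e) := by
    intro e
    obtain ⟨D, hD, hMD⟩ := h2 e
    rw [hMD]
    exact (Pool.Agent.Run7.h915.RB.t_PER O F _ D hMM hD).1
  have hmaxi : ∀ V : ValuationSubring F, Cn O V → ∃ i, ∀ j, y j / y i ∈ V := by
    intro V hV
    obtain ⟨i, hi⟩ := exists_max_gen hy hMM hV
    exact ⟨i, fun j => hi _ (hyM j)⟩
  -- regular points
  have hrg : ∀ (e : ℕ) (V : ValuationSubring F), Cn O V → (Rg (M e) V ↔
      NCm (Submodule.span O (Set.range y)) (1 : Submodule O F) 0 (M e) V) := by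
    intro e V hV
    constructor
    · intro hr
      obtain ⟨D, hD, hMD⟩ := h2 e
      obtain ⟨m, p, hOk, hp⟩ := init_np hy hD hN
      obtain ⟨i, hi⟩ := hmaxi V hV
      rw [hMD] at hr ⊢
      obtain ⟨l, h5, h6, h7⟩ := hp V hV i hi hr 1 (Submodule.one_le.1 le_rfl) 0 (by
        rw [pow_zero, div_one]
        exact OrdLe.one 0)
      exact NCm.of_PN ⟨p l, hOk l, h5, h6, h7⟩
    · rintro ⟨Q, hQ, hnc⟩
      exact ⟨Q, hQ, hnc.choose⟩
  refine ⟨M, ⟨hmd, ?_, ?_⟩, h0, h2, ?_⟩
  · intro e V hV Q hQ hr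
    obtain ⟨g, hg, hgV⟩ := h3 e V hV ((hrg e V hV).1 ⟨Q, hQ, hr⟩)
    rw [(h1 e).2.2]
    exact t_ISO O F (M e) (C e) (k e) (hmd e) (h1 e).1 (h1 e).2.1 V hV ⟨g, hg, hgV⟩ Q hQ
  · intro e V hV hr
    have hnc := (hrg e V hV).1 hr
    obtain ⟨D, hD, hMD⟩ := h2 e
    have h5 : Sep (M e) V {T | Cn O T ∧ ¬ NCm (Submodule.span O (Set.range y)) (1 : Submodule O F) 0 (M e) T} := by
      rw [hMD] at hnc ⊢
      exact ncm_open Pool.Agent.Run7.h781.RB.NCO hJ hMM hD hN hV hnc
    exact h5.mono fun T hT => ⟨hT.1, fun h => hT.2 ((hrg e T hT.1).2 h)⟩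
  · intro e V hV i hi δ hδ hord
    refine (hrg e V hV).2 (h4 e V hV i δ ⟨hi, δ, hδ, 1, Submodule.one_le.1 le_rfl, ?_⟩ hord)
    rw [pow_zero, div_one, mul_one]

end

section family

variable {O F : Type} [CommRing O] [Field F] [Algebra O F]

/-- Every element of `F` is a fraction of elements of `B`. -/
def Frc (B : Subring F) : Prop := ∀ z : F, ∃ a ∈ B, ∃ b ∈ B, b ≠ 0 ∧ z = a / b

/-- The affine open sets of the regular loci. -/
def Bs (M : ℕ → Submodule O F) : Set (Subring F) :=
  {B | FGO O B ∧ Frc B ∧ ∃ e, ∀ V : ValuationSubring F, B ≤ V.toSubring →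
    LR V (M e) (lo V.toSubring B) ∧ IsRegularLocalRing (lo V.toSubring B)}

lemma FGO.base {B : Subring F} (h : FGO O B) (o : O) : algebraMap O F o ∈ B := by
  obtain ⟨s, rfl⟩ := h
  exact Subalgebra.algebraMap_mem _ o

lemma FGO.cn {B : Subring F} (h : FGO O B) {V : ValuationSubring F} (hB : B ≤ V.toSubring) : Cn O V :=
  fun o => hB (h.base o)

lemma fgo_eq (s : Set F) : (Algebra.adjoin O s).toSubring = Subring.closure (Set.range (algebraMap O F) ∪ s) := by
  rw [Algebra.adjoin_eq_ring_closure]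

lemma FGO.sup {B C : Subring F} (hB : FGO O B) (hC : FGO O C) : FGO O (B ⊔ C) := by
  classical
  obtain ⟨s, rfl⟩ := hB
  obtain ⟨t, rfl⟩ := hC
  refine ⟨s ∪ t, ?_⟩
  rw [fgo_eq, fgo_eq, fgo_eq]
  have hl : ∀ (A B : Subring F) (x : F), x ∈ A → x ∈ A ⊔ B := fun A B x hx => le_sup_left (a := A) (b := B) hx
  have hr : ∀ (A B : Subring F) (x : F), x ∈ B → x ∈ A ⊔ B := fun A B x hx => le_sup_right (a := A) (b := B) hx
  apply le_antisymm
  · refine Subring.closure_le.2 ?_
    rintro x (hx | hx)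
    · exact hl _ _ _ (Subring.subset_closure (Or.inl hx))
    · rw [Finset.coe_union] at hx
      rcases hx with hx | hx
      · exact hl _ _ _ (Subring.subset_closure (Or.inr hx))
      · exact hr _ _ _ (Subring.subset_closure (Or.inr hx))
  · refine sup_le (Subring.closure_mono ?_) (Subring.closure_mono ?_)
    · rw [Finset.coe_union]
      exact Set.union_subset_union_right _ Set.subset_union_left
    · rw [Finset.coe_union]
      exact Set.union_subset_union_right _ Set.subset_union_right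

lemma FGO.adj {B : Subring F} (hB : FGO O B) (x : F) : FGO O (Subring.closure ((B : Set F) ∪ {x})) := by
  classical
  obtain ⟨s, rfl⟩ := hB
  refine ⟨insert x s, ?_⟩
  rw [fgo_eq, fgo_eq]
  apply le_antisymm
  · refine Subring.closure_le.2 ?_
    rintro z (hz | hz)
    · exact Subring.subset_closure (Or.inl (Subring.subset_closure (Or.inl hz)))
    · rw [Finset.coe_insert] at hz
      rcases hz with hz | hz
      · exact Subring.subset_closure (Or.inr hz)
      · exact Subring.subset_closure (Or.inl (Subring.subset_closure (Or.inr hz)))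
  · refine Subring.closure_le.2 ?_
    rintro z (hz | hz)
    · refine Subring.closure_mono ?_ hz
      rw [Finset.coe_insert]
      exact Set.union_subset_union_right _ (Set.subset_insert _ _)
    · refine Subring.subset_closure (Or.inr ?_)
      rw [Finset.coe_insert]
      exact Or.inl hz

lemma FGO.over {B C : Subring F} (hB : FGO O B) (hC : FGO O C) (h : B ≤ C) :
    ∃ s : Finset F, C = Subring.closure ((B : Set F) ∪ s) := by
  obtain ⟨t, rfl⟩ := hC
  refine ⟨t, le_antisymm ?_ ?_⟩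
  · rw [fgo_eq]
    refine Subring.closure_le.2 ?_
    rintro z (⟨o, rfl⟩ | hz)
    · exact Subring.subset_closure (Or.inl (hB.base o))
    · exact Subring.subset_closure (Or.inr hz)
  · refine Subring.closure_le.2 ?_
    rintro z (hz | hz)
    · exact h hz
    · exact Algebra.subset_adjoin hz

lemma Frc.mono {B C : Subring F} (hB : Frc B) (h : B ≤ C) : Frc C := by
  intro z
  obtain ⟨a, ha, b, hb, h1, h2⟩ := hB z
  exact ⟨a, h ha, b, h hb, h1, h2⟩

lemma lo_sup {B C : Subring F} {V : ValuationSubring F} (hB : B ≤ V.toSubring) (hC : C ≤ V.toSubring)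
    (h : lo V.toSubring B = lo V.toSubring C) : lo V.toSubring (B ⊔ C) = lo V.toSubring B := by
  apply le_antisymm
  · have h1 : B ⊔ C ≤ lo V.toSubring B := sup_le (le_lo _ _) (h ▸ le_lo _ _)
    calc lo V.toSubring (B ⊔ C) ≤ lo V.toSubring (lo V.toSubring B) := lo_mono h1
      _ = lo V.toSubring B := (ic_lo hB).lo_eq
  · exact lo_mono le_sup_left

variable {M : ℕ → Submodule O F}

lemma Bs.loc (hT : Twr M) {B C : Subring F} (hB : B ∈ Bs M) (hC : C ∈ Bs M) {V : ValuationSubring F}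
    (hBV : B ≤ V.toSubring) (hCV : C ≤ V.toSubring) : lo V.toSubring B = lo V.toSubring C := by
  obtain ⟨h1, -, e, h2⟩ := hB
  obtain ⟨h3, -, e', h4⟩ := hC
  have hV : Cn O V := h1.cn hBV
  obtain ⟨h5, h6⟩ := h2 V hBV
  obtain ⟨h7, h8⟩ := h4 V hCV
  exact LR.unique hV (hT.iso_le (le_max_left e e') hV h5 h6) (hT.iso_le (le_max_right e e') hV h7 h8)

lemma Bs.sup (hT : Twr M) {B C : Subring F} (hB : B ∈ Bs M) (hC : C ∈ Bs M) : B ⊔ C ∈ Bs M := by
  obtain ⟨h1, h2, e, h3⟩ := id hB
  refine ⟨h1.sup hC.1, h2.mono le_sup_left, e, fun V hV => ?_⟩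
  have hBV : B ≤ V.toSubring := le_sup_left.trans hV
  have hCV : C ≤ V.toSubring := le_sup_right.trans hV
  rw [lo_sup hBV hCV (Bs.loc hT hB hC hBV hCV)]
  exact h3 V hBV

end family

end Pool.Agent.Run7.h275.RB
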