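import Pool.Agent.Run7.h275.RB1

/-!
# Separation for regular classes
-/

set_option autoImplicit false
set_option linter.unusedVariables false

namespace Pool.Agent.Run7.h275.RB

open IsLocalRing Pool.Agent.W418.LU2 Pool.Agent.H918R2.Quad Pool.Agent.Run7.h275.RL

section basic

variable {O F : Type} [CommRing O] [Field F] [Algebra O F] {M : Submodule O F} {V : ValuationSubring F}

lemma fgo_chart (hM : M.FG) (g : F) : FGO O (chart O M g).toSubring := by
  classical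
  obtain ⟨s, hs⟩ := hM
  refine ⟨s.image fun m => m / g, ?_⟩
  congr 1
  apply le_antisymm
  · refine Algebra.adjoin_le ?_
    intro y hy
    rw [Finset.coe_image] at hy
    obtain ⟨m, hm, rfl⟩ := hy
    exact Algebra.subset_adjoin ⟨m, hs ▸ Submodule.subset_span hm, rfl⟩
  · refine Algebra.adjoin_le ?_
    rintro _ ⟨m, hm, rfl⟩
    change m / g ∈ Algebra.adjoin O ((s.image fun m => m / g : Finset F) : Set F)
    rw [← hs] at hm
    induction hm using Submodule.span_induction with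
    | mem m hm =>
      refine Algebra.subset_adjoin ?_
      rw [Finset.coe_image]
      exact ⟨m, hm, rfl⟩
    | zero => rw [zero_div]; exact Subalgebra.zero_mem _
    | add a b _ _ ha hb => rw [add_div]; exact Subalgebra.add_mem _ ha hb
    | smul c a _ ha => rw [smul_div_assoc]; exact Subalgebra.smul_mem _ ha c

lemma on_chart (hV : Cn O V) {w : F} (hwM : w ∈ M) (hw0 : w ≠ 0) (hw : ∀ m ∈ M, m / w ∈ V) :
    On M (chart O M w).toSubring V :=
  ⟨chart_le_V hV hw, w, hwM, hw0, hw, rfl⟩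

lemma On.rg {B : Subring F} (hV : Cn O V) (h : On M B V) : Rg M V ↔ IsRegularLocalRing (lo V.toSubring B) := by
  constructor
  · rintro ⟨Q, hQ, hr⟩
    rw [LR.unique hV hQ h.2] at hr
    exact hr
  · intro hr
    exact ⟨_, h.2, hr⟩

/-- Elements which are separated already. -/
lemma Res.of_bad (hPER : S_PER) (hM : Md M) {E 𝒯 : Set (ValuationSubring F)} (hE : ∀ V ∈ E, Cn O V)
    (hreg : ∀ V ∈ E, Rg M V) (h : Res M {V ∈ E | ¬ Sep M V 𝒯} 𝒯) : Res M E 𝒯 := by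
  obtain ⟨C, hC, iso, good⟩ := h
  refine ⟨C, hC, fun V hV hs => iso V hV (hs.mono fun T hT => hT.1), fun V hV => ?_⟩
  by_cases hs : Sep M V 𝒯
  · refine ⟨(hreg V hV).iso (iso V (hE V hV) ?_), (((hPER O F M C hM hC).2 V (hE V hV) 𝒯).1 hs)⟩
    obtain ⟨k, c, hc, h1, h2⟩ := hs
    refine ⟨k, c, hc, h1, ?_⟩
    rintro T ⟨hT, hTs⟩
    by_contra hcon
    exact hTs ⟨k, c, hc, hcon, h2⟩
  · exact good V ⟨hV, hs⟩

end basic

theorem SEP0 (hWF : S_WF) (hPEEL : S_PEEL) (hOPN : S_OPN) (hCEN : S_CEN) (hBUA : S_BUA) (hBUB : S_BUB)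
    (hBUC : S_BUC) (hMON : S_MON) (hLQ : S_LQ) (hPER : S_PER) (hPRI : S_PRI) : S_SEP0 := by
  intro O F _ _ _ _ hJ q
  induction q with
  | zero =>
    intro M hM E 𝒯 hE h𝒯 hR
    refine Res.of_bad hPER hM hE (fun V hV => (hR V hV).1) ?_
    have h0 : {V ∈ E | ¬ Sep M V 𝒯} = ∅ := by
      ext V
      simp only [Set.mem_ofPred_eq, Set.mem_empty_iff_false, iff_false, not_and, not_not]
      exact fun hV => (hR V hV).2.sep hM (hE V hV)
    rw [h0]
    exact Res.empty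
  | succ q ihq =>
    intro M hM
    have key : ∀ E 𝒯 : Set (ValuationSubring F), (∀ V ∈ E, Cn O V) → (∀ T ∈ 𝒯, Cn O T ∧ Sep M T E) →
        (∀ V ∈ E, Rg M V ∧ Bd M V 𝒯 (q + 1)) → (∀ V ∈ E, ¬ Sep M V 𝒯) → Res M E 𝒯 := by
      intro E
      induction E using (hWF O F M hM).induction with
      | _ E ihE =>
      intro 𝒯 hE h𝒯 hR hns
      by_cases hne : E.Nonempty
      swap
      · rw [Set.not_nonempty_iff_eq_empty.1 hne]
        exact Res.empty
      -- peeling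
      obtain ⟨k, h, hh, hirr, w, hwM, hw0, hw⟩ := hPEEL O F M hM E hE hne
      set Eh : Set (ValuationSubring F) := {V ∈ E | ¬ Vn M k V h} with hEh
      have hEhE : ∀ V ∈ Eh, V ∈ E := fun V hV => hV.1
      set B : Subring F := (chart O M w).toSubring with hB
      have hOn : ∀ V ∈ Eh, On M B V := fun V hV => on_chart (hE V hV.1) hwM hw0 (hw V hV.1 hV.2)
      have hDn : Dn M Eh Eh := ⟨subset_rfl, fun k c hc h => h⟩
      obtain ⟨hprime, hsame, hopen⟩ := hPRI hOPN O F M hM Eh Eh (fun V hV => hE V hV.1) hirr hDn B hOn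
      obtain ⟨t, ht, hRQ⟩ := hLQ O F hJ B (fgo_chart hM.1 w) (IB B Eh) hprime
      obtain ⟨j, a, ha, hane, hat⟩ := hopen t ht
      set U : Set (ValuationSubring F) := {V ∈ E | ¬ Vn M (k + j) V (h * a)} with hU
      have hmem : ∀ V ∈ E, ¬ Vn M (k + j) V (h * a) ↔ ¬ Vn M k V h ∧ ¬ Vn M j V a := fun V hV =>
        not_vn_mul hM (hE V hV) hh ha
      have hUh : U = {T ∈ Eh | ¬ Vn M j T a} := by
        ext V
        constructor
        · rintro ⟨hV, h1⟩
          obtain ⟨h2, h3⟩ := (hmem V hV).1 h1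
          exact ⟨⟨hV, h2⟩, h3⟩
        · rintro ⟨⟨hV, h2⟩, h3⟩
          exact ⟨hV, (hmem V hV).2 ⟨h2, h3⟩⟩
      have hUne : U.Nonempty := by
        obtain ⟨T, hT, hTa⟩ := hane
        rw [hUh]
        exact ⟨T, hT, hTa⟩
      have hIB : IB B U = IB B Eh := by
        rw [hUh]
        exact hsame j a ha hane
      set E' : Set (ValuationSubring F) := {V ∈ E | Vn M (k + j) V (h * a)} with hE'
      have hE'E : E' ⊆ E := fun V hV => hV.1
      have hUE : U ⊆ E := fun V hV => hV.1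
      have hha : h * a ∈ M ^ (k + j) := mul_mem_pow_add hh ha
      have hTE' : ∀ T ∈ 𝒯 ∪ U, Cn O T ∧ Sep M T E' := by
        rintro T (hT | hT)
        · exact ⟨(h𝒯 T hT).1, (h𝒯 T hT).2.mono hE'E⟩
        · exact ⟨hE T hT.1, k + j, h * a, hha, hT.2, fun T' hT' => hT'.2⟩
      obtain ⟨C₁, hC₁, iso₁, good₁⟩ := ihE E' ⟨hE'E, hE, k + j, h * a, hha, fun T hT => hT.2, by
          obtain ⟨T, hT⟩ := hUne
          exact ⟨T, hT.1, hT.2⟩⟩ (𝒯 ∪ U) (fun V hV => hE V hV.1) hTE' (fun V hV => ⟨(hR V hV.1).1,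
            (hR V hV.1).2.union fun T hT => hns T hT.1⟩) (fun V hV hs => hns V hV.1 (hs.mono Set.subset_union_left))
      obtain ⟨hM1, per1⟩ := hPER O F M C₁ hM hC₁
      have hUC : ∀ V ∈ U, Cn O V := fun V hV => hE V hV.1
      have isoU : ∀ V ∈ U, ∀ Q : Subring F, LR V M Q → LR V (M * C₁) Q := fun V hV =>
        iso₁ V (hUC V hV) (hTE' V (Or.inr hV)).2
      have hBdU : ∀ V ∈ U, Bd (M * C₁) V (𝒯 ∪ U) (q + 1) := fun V hV =>
        (per1 V (hUC V hV) _).2 _ ((hR V hV.1).2.union fun T hT => hns T hT.1)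
      obtain ⟨k₂, C₂, hC₂⟩ := hCEN O F (M * C₁) hM1 U hUC (by
        obtain ⟨T, hT⟩ := hUne
        exact ((hBdU T hT).mono Set.subset_union_right).ne_zero hM1)
      obtain ⟨hM2, per2⟩ := hPER O F (M * C₁) C₂ hM1 hC₂.1
      have hOnU : ∀ V ∈ U, On (M * C₁) B V := fun V hV => by
        have h1 : V ∈ Eh := by rw [hUh] at hV; exact hV.1
        exact ⟨(hOn V h1).1, isoU V hV _ (hOn V h1).2⟩
      have hregU : ∀ V ∈ U, Rg (M * C₁ * C₂) V := by
        intro V hV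
        have h1 : V ∈ Eh := by rw [hUh] at hV; exact hV.1
        have h2 : ¬ Vn M j V a := by rw [hUh] at hV; exact hV.2
        obtain ⟨⟨x, hx, hx0, hxV⟩, hbl⟩ := hBUB O F (M * C₁) hM1 U hUC k₂ C₂ hC₂ U B ⟨subset_rfl, fun k c hc h => h⟩
          (fgo_chart hM.1 w) hOnU V hV
        refine ⟨_, hbl x hx hx0 hxV, ?_⟩
        refine hMON F V.toSubring B (loc_V V) (hOn V h1).1 (((hOn V h1).rg (hUC V hV)).1 (hR V hV.1).1) _ ?_ x hx
          hx0 hxV
        rw [hIB]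
        exact hRQ V (hOn V h1).1 (fun b hb => hb V h1 (hOn V h1).1) (hat V h1 h2)
      have hR3 : Res (M * C₁ * C₂) U 𝒯 := by
        refine ihq (M * C₁ * C₂) hM2 U 𝒯 hUC (fun T hT => ⟨(h𝒯 T hT).1, ?_⟩) (fun V hV => ⟨hregU V hV, ?_⟩)
        · exact (per2 T (h𝒯 T hT).1 U).1 ((per1 T (h𝒯 T hT).1 U).1 ((h𝒯 T hT).2.mono hUE))
        · exact hBUC O F (M * C₁) hM1 U hUC k₂ C₂ hC₂ 𝒯 (fun T hT => ⟨(h𝒯 T hT).1,
            (per1 T (h𝒯 T hT).1 U).1 ((h𝒯 T hT).2.mono hUE)⟩) V hV q (hBdU V hV)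
      exact glue hPER hBUA hM hE hE'E hUE (fun V hV => by
        by_cases h1 : Vn M (k + j) V (h * a)
        · exact Or.inl ⟨hV, h1⟩
        · exact Or.inr ⟨hV, h1⟩) hC₁ iso₁ good₁ hC₂ hR3
    intro E 𝒯 hE h𝒯 hR
    refine Res.of_bad hPER hM hE (fun V hV => (hR V hV).1) ?_
    exact key _ 𝒯 (fun V hV => hE V hV.1) (fun T hT => ⟨(h𝒯 T hT).1, (h𝒯 T hT).2.mono fun V hV => hV.1⟩)
      (fun V hV => hR V hV.1) fun V hV => hV.2

end Pool.Agent.Run7.h275.RB
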