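import Pool.Agent.Run7.h275.RB19

/-!
# Finitely many affine charts of the regular locus of each stage
-/

set_option autoImplicit false
set_option linter.unusedVariables false
set_option linter.unusedSectionVars false

namespace Pool.Agent.Run7.h275.RB

open IsLocalRing Pool.Agent.W418.LU2 Pool.Agent.H918R2.Quad Pool.Agent.Run7.h275.RL

section

variable {O F : Type} [CommRing O] [Field F] [Algebra O F]

lemma lo_adj {B : Subring F} {V : ValuationSubring F} (hB : B ≤ V.toSubring) {h : F} (hh : h ∈ B) (h0 : h ≠ 0)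
    (hi : h⁻¹ ∈ V) : lo V.toSubring (Subring.closure ((B : Set F) ∪ {h⁻¹})) = lo V.toSubring B := by
  apply le_antisymm
  · have h1 : Subring.closure ((B : Set F) ∪ {h⁻¹}) ≤ lo V.toSubring B := by
      refine Subring.closure_le.2 ?_
      rintro z (hz | hz)
      · exact le_lo _ _ hz
      · rw [Set.mem_singleton_iff] at hz
        rw [hz]
        exact ic_lo hB h (le_lo _ _ hh) h0 hi
    calc lo V.toSubring (Subring.closure ((B : Set F) ∪ {h⁻¹})) ≤ lo V.toSubring (lo V.toSubring B) := lo_mono h1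
      _ = lo V.toSubring B := (ic_lo hB).lo_eq
  · refine lo_mono fun z hz => Subring.subset_closure (Or.inl hz)

lemma inv_mem_of_not_lt {V : ValuationSubring F} {h : F} (h1 : ¬ V.valuation h < 1) : h ≠ 0 ∧ h⁻¹ ∈ V := by
  have h0 : h ≠ 0 := by
    rintro rfl
    rw [map_zero] at h1
    exact h1 zero_lt_one
  refine ⟨h0, ?_⟩
  rw [← V.valuation_le_one_iff, map_inv₀]
  exact inv_le_one_of_one_le₀ (not_lt.1 h1)

lemma not_lt_of_inv_mem {V : ValuationSubring F} {h : F} (h0 : h ≠ 0) (h1 : h⁻¹ ∈ V) : ¬ V.valuation h < 1 := by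
  intro hlt
  have h2 := (V.valuation_le_one_iff _).2 h1
  have h3 := mul_lt_one_aux' hlt h2
  rw [← map_mul, mul_inv_cancel₀ h0, map_one] at h3
  exact lt_irrefl _ h3

lemma adj_le {B : Subring F} {V : ValuationSubring F} (hB : B ≤ V.toSubring) {h : F} (hi : h⁻¹ ∈ V) :
    Subring.closure ((B : Set F) ∪ {h⁻¹}) ≤ V.toSubring := by
  refine Subring.closure_le.2 ?_
  rintro z (hz | hz)
  · exact hB hz
  · rw [Set.mem_singleton_iff] at hz
    rw [hz]
    exact hi

variable {n : ℕ} {y : Fin n → F}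

/-- **Reach.** -/
theorem reach [IsNoetherianRing O] (hy : ∀ i, y i ≠ 0) (hn : 0 < n)
    (hF : ∀ i, Frc (chart O (Submodule.span O (Set.range y)) (y i)).toSubring) {M : ℕ → Submodule O F} (hT : Twr M)
    (hM : ∀ e, ∃ D : Submodule O F, Md D ∧ M e = Submodule.span O (Set.range y) * D) (e : ℕ) :
    ∃ T : Finset (Subring F), (∀ B ∈ T, B ∈ Bs M) ∧ ∀ V : ValuationSubring F, Cn O V → ∀ j, (∀ j', y j' / y j ∈ V) →
      Rg (M e) V → ∃ B ∈ T, B ≤ V.toSubring ∧
        (chart O (Submodule.span O (Set.range y)) (y j)).toSubring ≤ B := by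
  classical
  set M₀ : Submodule O F := Submodule.span O (Set.range y) with hM₀
  have hyM : ∀ i, y i ∈ M₀ := fun i => Submodule.subset_span ⟨i, rfl⟩
  have hMM : Md M₀ := ⟨Submodule.fg_span (Set.finite_range y), y ⟨0, hn⟩, hyM _, hy _⟩
  obtain ⟨D, hD, hMD⟩ := hM e
  obtain ⟨m, g, hg, hDg⟩ := exists_gens hD
  have hgD : ∀ k, g k ∈ D := fun k => by rw [hDg]; exact Submodule.subset_span ⟨k, rfl⟩
  have hmd := hT.md e
  let A : Fin n × Fin m → Subring F := fun l => (chart O (M e) (y l.1 * g l.2)).toSubring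
  have hmemM : ∀ l : Fin n × Fin m, y l.1 * g l.2 ∈ M e := fun l => by
    rw [hMD]; exact Submodule.mul_mem_mul (hyM _) (hgD _)
  have hne : ∀ l : Fin n × Fin m, y l.1 * g l.2 ≠ 0 := fun l => mul_ne_zero (hy _) (hg _)
  have hch : ∀ l : Fin n × Fin m, (chart O M₀ (y l.1)).toSubring ≤ A l := by
    intro l
    have : chart O M₀ (y l.1) ≤ chart O (M e) (y l.1 * g l.2) := Algebra.adjoin_le (by
      rintro _ ⟨x, hx, rfl⟩
      refine Algebra.subset_adjoin ⟨x * g l.2, by rw [hMD]; exact Submodule.mul_mem_mul hx (hgD _), ?_⟩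
      rw [mul_div_mul_right _ _ (hg _)])
    exact this
  have hfgo : ∀ l, FGO O (A l) := fun l => fgo_chart hmd.1 _
  have hnoe : ∀ l, IsNoetherianRing (A l) := fun l => (hfgo l).noeth
  have hmx : ∀ l (V : ValuationSubring F), A l ≤ V.toSubring → ∀ x ∈ M e, x / (y l.1 * g l.2) ∈ V :=
    fun l V hV x hx => hV (Algebra.subset_adjoin ⟨x, hx, rfl⟩)
  have hfin : ∀ l, ∃ t : Finset (A l), Ideal.span (t : Set (A l)) = IB (A l) {T | Cn O T ∧ ¬ Rg (M e) T} := by
    intro l
    have := hnoe l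
    exact (isNoetherianRing_iff_ideal_fg (A l)).1 inferInstance _
  choose t ht using hfin
  let T : Finset (Subring F) := Finset.univ.biUnion fun l => ((t l).filter fun h => h ≠ 0).image fun h : A l =>
    Subring.closure ((A l : Set F) ∪ {(h : F)⁻¹})
  refine ⟨T, ?_, ?_⟩
  · intro B hB
    obtain ⟨l, -, hB⟩ := Finset.mem_biUnion.1 hB
    obtain ⟨h, hh, rfl⟩ := Finset.mem_image.1 hB
    obtain ⟨hht, hh0⟩ := Finset.mem_filter.1 hh
    have hh0' : (h : F) ≠ 0 := fun h1 => hh0 (Subtype.ext h1)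
    refine ⟨(hfgo l).adj _, (hF l.1).mono ((hch l).trans fun z hz => Subring.subset_closure (Or.inl hz)), e, ?_⟩
    intro V hV
    have hAV : A l ≤ V.toSubring := fun z hz => hV (Subring.subset_closure (Or.inl hz))
    have hVC : Cn O V := (hfgo l).cn hAV
    have hhV : (h : F)⁻¹ ∈ V := hV (Subring.subset_closure (Or.inr rfl))
    have hreg : Rg (M e) V := by
      by_contra hcon
      have h1 : h ∈ IB (A l) {T | Cn O T ∧ ¬ Rg (M e) T} := by
        rw [← ht l]
        exact Ideal.subset_span hht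
      exact not_lt_of_inv_mem hh0' hhV (h1 V ⟨hVC, hcon⟩ hAV)
    have hLR : LR V (M e) (lo V.toSubring (A l)) := ⟨_, hmemM l, hne l, hmx l V hAV, rfl⟩
    rw [lo_adj hAV h.2 hh0' hhV]
    obtain ⟨Q, hQ, hr⟩ := hreg
    rw [LR.unique hVC hQ hLR] at hr
    exact ⟨hLR, hr⟩
  · intro V hV j hj hr
    obtain ⟨k, hk⟩ := exists_max_gen hg (by rw [← hDg]; exact hD) hV
    rw [← hDg] at hk
    have hmxV : ∀ x ∈ M e, x / (y j * g k) ∈ V := by
      intro x hx
      rw [hMD] at hx
      induction hx using Submodule.mul_induction_on' with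
      | mem_mul_mem a ha b hb =>
        rw [mul_div_mul_comm]
        exact V.mul_mem _ _ (max_span hV hj a ha) (hk b hb)
      | add a _ b _ ha hb => rw [add_div]; exact V.add_mem _ _ ha hb
    have hAV : A (j, k) ≤ V.toSubring := chart_le_V hV hmxV
    obtain ⟨a, c, hc, hcV, hcT⟩ := hT.opn e V hV hr
    have hbmem : c / (y j * g k) ^ a ∈ A (j, k) := pow_div_mem (hne (j, k)) a c hc
    have hbZ : (⟨c / (y j * g k) ^ a, hbmem⟩ : A (j, k)) ∈ IB (A (j, k)) {T | Cn O T ∧ ¬ Rg (M e) T} := by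
      intro T' hT' hAT
      have h1 := (vn_iff hT'.1 (hmemM (j, k)) (hne (j, k)) (hmx (j, k) T' hAT) a c).1 (hcT T' hT')
      change T'.valuation (c / (y j * g k) ^ a) < 1
      rw [map_div₀, map_pow]
      exact (div_lt_one₀ (pow_pos ((Valuation.pos_iff _).2 (hne (j, k))) a)).2 h1
    have hbV : ¬ V.valuation (c / (y j * g k) ^ a) < 1 := by
      rw [not_vn_iff hV (hmemM (j, k)) (hne (j, k)) hmxV] at hcV
      rw [map_div₀, map_pow, not_lt]
      exact (one_le_div₀ (pow_pos ((Valuation.pos_iff _).2 (hne (j, k))) a)).2 hcV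
    have hb0 : c / (y j * g k) ^ a ≠ 0 := (inv_mem_of_not_lt hbV).1
    rw [← ht (j, k)] at hbZ
    obtain ⟨h, hh, hle⟩ := val_span hAV hbZ hb0
    have hhV : ¬ V.valuation (h : F) < 1 := fun h1 => hbV (hle.trans_lt h1)
    obtain ⟨hh0, hhi⟩ := inv_mem_of_not_lt hhV
    refine ⟨Subring.closure ((A (j, k) : Set F) ∪ {(h : F)⁻¹}), ?_, adj_le hAV hhi,
      (hch (j, k)).trans fun z hz => Subring.subset_closure (Or.inl hz)⟩
    refine Finset.mem_biUnion.2 ⟨(j, k), Finset.mem_univ _, Finset.mem_image.2 ⟨h, Finset.mem_filter.2 ⟨hh, ?_⟩, rfl⟩⟩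
    rintro rfl
    exact hh0 rfl

end

end Pool.Agent.Run7.h275.RB
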