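import Pool.Agent.Run7.h275.RB20
import Pool.Agent.Run7.h275.RB16

/-!
# The family of charts over a given scheme, and the lifting of arcs
-/

set_option autoImplicit false
set_option linter.unusedVariables false
set_option linter.unusedSectionVars false

namespace Pool.Agent.Run7.h275.RB

open IsLocalRing Pool.Agent.W418.LU2 Pool.Agent.H918R2.Quad Pool.Agent.Run7.h275.RL

section

variable {O F : Type} [CommRing O] [Field F] [Algebra O F]

/-- Generators which contain `1`. -/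
lemma gens1 {A : Subring F} (h : FGO O A) : ∃ (m : ℕ) (a : Fin (m + 1) → F), a 0 = 1 ∧ (∀ j, a j ≠ 0) ∧
    A = (Algebra.adjoin O (Set.range a)).toSubring := by
  classical
  obtain ⟨s, rfl⟩ := h
  let T := s.filter fun g => g ≠ 0
  let ε := T.equivFin
  let a : Fin (T.card + 1) → F := Fin.cons 1 fun k => ((ε.symm k : T) : F)
  refine ⟨T.card, a, rfl, ?_, ?_⟩
  · intro j
    refine Fin.cases ?_ (fun k => ?_) j
    · exact one_ne_zero
    · exact (Finset.mem_filter.1 (ε.symm k).2).2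
  · congr 1
    apply le_antisymm
    · refine Algebra.adjoin_le ?_
      intro z hz
      by_cases h0 : z = 0
      · rw [h0]; exact Subalgebra.zero_mem _
      · refine Algebra.subset_adjoin ⟨Fin.succ (ε ⟨z, Finset.mem_filter.2 ⟨hz, h0⟩⟩), ?_⟩
        change ((ε.symm (ε ⟨z, _⟩) : T) : F) = z
        rw [Equiv.symm_apply_apply]
    · refine Algebra.adjoin_le ?_
      rintro _ ⟨j, rfl⟩
      refine Fin.cases ?_ (fun k => ?_) j
      · exact Subalgebra.one_mem _
      · exact Algebra.subset_adjoin (Finset.mem_filter.1 (ε.symm k).2).1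

/-- The fractions of elements of `B`. -/
def FrS (B : Subring F) : Subring F where
  carrier := {z | ∃ a ∈ B, ∃ b ∈ B, b ≠ 0 ∧ z = a / b}
  zero_mem' := ⟨0, B.zero_mem, 1, B.one_mem, one_ne_zero, by rw [zero_div]⟩
  one_mem' := ⟨1, B.one_mem, 1, B.one_mem, one_ne_zero, by rw [div_one]⟩
  add_mem' := by
    rintro x y ⟨a, ha, b, hb, hb0, rfl⟩ ⟨c, hc, d, hd, hd0, rfl⟩
    exact ⟨a * d + b * c, B.add_mem (B.mul_mem ha hd) (B.mul_mem hb hc), b * d, B.mul_mem hb hd,
      mul_ne_zero hb0 hd0, by rw [div_add_div _ _ hb0 hd0]⟩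
  mul_mem' := by
    rintro x y ⟨a, ha, b, hb, hb0, rfl⟩ ⟨c, hc, d, hd, hd0, rfl⟩
    exact ⟨a * c, B.mul_mem ha hc, b * d, B.mul_mem hb hd, mul_ne_zero hb0 hd0, by rw [div_mul_div_comm]⟩
  neg_mem' := by
    rintro x ⟨a, ha, b, hb, hb0, rfl⟩
    exact ⟨-a, B.neg_mem ha, b, hb, hb0, by rw [neg_div]⟩

lemma Frc.of_le {A B : Subring F} (hA : Frc A) (h : A ≤ FrS B) : Frc B := by
  intro z
  obtain ⟨a, ha, b, hb, hb0, rfl⟩ := hA z
  obtain ⟨a₁, ha₁, a₂, ha₂, ha0, rfl⟩ := h ha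
  obtain ⟨b₁, hb₁, b₂, hb₂, hb20, rfl⟩ := h hb
  have hb10 : b₁ ≠ 0 := by
    rintro rfl
    rw [zero_div] at hb0
    exact hb0 rfl
  refine ⟨a₁ * b₂, B.mul_mem ha₁ hb₂, a₂ * b₁, B.mul_mem ha₂ hb₁, mul_ne_zero ha0 hb10, ?_⟩
  field_simp

/-- Common denominators. -/
lemma common_den {A : Subring F} (hA : Frc A) (G : Finset F) : ∃ f ∈ A, f ≠ 0 ∧ ∀ g ∈ G, f * g ∈ A := by
  classical
  induction G using Finset.induction_on with
  | empty => exact ⟨1, A.one_mem, one_ne_zero, fun g hg => absurd hg (Finset.notMem_empty g)⟩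
  | insert z G hz ih =>
    obtain ⟨f, hf, hf0, hG⟩ := ih
    obtain ⟨a, ha, b, hb, hb0, hzab⟩ := hA z
    refine ⟨f * b, A.mul_mem hf hb, mul_ne_zero hf0 hb0, ?_⟩
    intro g hg
    rcases Finset.mem_insert.1 hg with rfl | hg
    · rw [hzab, mul_assoc, mul_div_cancel₀ _ hb0]
      exact A.mul_mem hf ha
    · have : f * b * g = b * (f * g) := by ring
      rw [this]
      exact A.mul_mem hb (hG g hg)

lemma mem_adj_of_den {A : Subring F} {f g : F} (hf : f ≠ 0) (h : f * g ∈ A) :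
    g ∈ Subring.closure ((A : Set F) ∪ {f⁻¹}) := by
  have : g = f * g * f⁻¹ := by
    field_simp
  rw [this]
  exact Subring.mul_mem _ (Subring.subset_closure (Or.inl h)) (Subring.subset_closure (Or.inr rfl))

lemma lo_mono_V {V W : ValuationSubring F} (h : V.toSubring ≤ W.toSubring) (B : Subring F) :
    lo V.toSubring B ≤ lo W.toSubring B := by
  rintro x ⟨a, ha, b, hb, hb0, hbi, rfl⟩
  exact ⟨a, ha, b, hb, hb0, h hbi, rfl⟩

/-- A common open set of finitely many models. -/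
lemma common_open {r : ℕ} (hr : 0 < r) {A : Fin r → Subring F} (hA : ∀ i, FGO O (A i)) (hAF : ∀ i, Frc (A i))
    (G : Finset F) : ∃ B₀ : Subring F, (∀ g ∈ G, g ∈ B₀) ∧ (∀ i, A i ≤ B₀) ∧ FGO O B₀ ∧
      ∀ i, ∃ f ∈ A i, f ≠ 0 ∧ B₀ = Subring.closure ((A i : Set F) ∪ {f⁻¹}) := by
  classical
  let i₀ : Fin r := ⟨0, hr⟩
  choose s hs using hA
  obtain ⟨f, hfA, hf0, hfG⟩ := common_den (hAF i₀) (G ∪ Finset.univ.biUnion fun i => s i)
  set B₁ : Subring F := Subring.closure ((A i₀ : Set F) ∪ {f⁻¹}) with hB₁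
  have hA' : ∀ i, FGO O (A i) := fun i => ⟨s i, hs i⟩
  have hFB₁ : FGO O B₁ := (hA' i₀).adj _
  have hGB : ∀ g ∈ G, g ∈ B₁ := fun g hg => mem_adj_of_den hf0 (hfG g (Finset.mem_union_left _ hg))
  have hsB : ∀ i, ∀ g ∈ s i, g ∈ B₁ := fun i g hg => mem_adj_of_den hf0 (hfG g (Finset.mem_union_right _
    (Finset.mem_biUnion.2 ⟨i, Finset.mem_univ _, hg⟩)))
  have hAB : ∀ i, A i ≤ B₁ := by
    intro i
    rw [← hs i, fgo_eq]
    refine Subring.closure_le.2 ?_
    rintro z (⟨o, rfl⟩ | hz)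
    · exact hFB₁.base o
    · exact hsB i z hz
  obtain ⟨t, ht⟩ := id hFB₁
  choose b hb hb0 hbt using fun i => common_den (hAF i) t
  have hBb : ∀ i, B₁ ≤ Subring.closure ((A i : Set F) ∪ {(b i)⁻¹}) := by
    intro i
    rw [← ht, fgo_eq]
    refine Subring.closure_le.2 ?_
    rintro z (⟨o, rfl⟩ | hz)
    · exact Subring.subset_closure (Or.inl ((hA' i).base o))
    · exact mem_adj_of_den (hb0 i) (hbt i z hz)
  let c : F := ∏ i, b i
  have hc0 : c ≠ 0 := Finset.prod_ne_zero_iff.2 fun i _ => hb0 i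
  have hcB : c ∈ B₁ := prod_mem fun i _ => hAB i (hb i)
  -- elements of `A[1/b]`
  have hden : ∀ i, ∀ z ∈ Subring.closure ((A i : Set F) ∪ {(b i)⁻¹}), ∃ k : ℕ, b i ^ k * z ∈ A i := by
    intro i z hz
    induction hz using Subring.closure_induction with
    | mem z hz =>
      rcases hz with hz | hz
      · exact ⟨0, by rw [pow_zero, one_mul]; exact hz⟩
      · rw [Set.mem_singleton_iff] at hz
        refine ⟨1, ?_⟩
        rw [hz, pow_one, mul_inv_cancel₀ (hb0 i)]
        exact Subring.one_mem _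
    | zero => exact ⟨0, by rw [mul_zero]; exact Subring.zero_mem _⟩
    | one => exact ⟨0, by rw [mul_one, pow_zero]; exact Subring.one_mem _⟩
    | add x z _ _ hx hz =>
      obtain ⟨k, hk⟩ := hx
      obtain ⟨l, hl⟩ := hz
      refine ⟨k + l, ?_⟩
      have : b i ^ (k + l) * (x + z) = b i ^ l * (b i ^ k * x) + b i ^ k * (b i ^ l * z) := by ring
      rw [this]
      exact Subring.add_mem _ (Subring.mul_mem _ (Subring.pow_mem _ (hb i) _) hk)
        (Subring.mul_mem _ (Subring.pow_mem _ (hb i) _) hl)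
    | neg x _ hx =>
      obtain ⟨k, hk⟩ := hx
      exact ⟨k, by rw [mul_neg]; exact Subring.neg_mem _ hk⟩
    | mul x z _ _ hx hz =>
      obtain ⟨k, hk⟩ := hx
      obtain ⟨l, hl⟩ := hz
      refine ⟨k + l, ?_⟩
      have : b i ^ (k + l) * (x * z) = (b i ^ k * x) * (b i ^ l * z) := by ring
      rw [this]
      exact Subring.mul_mem _ hk hl
  refine ⟨Subring.closure ((B₁ : Set F) ∪ {c⁻¹}), fun g hg => Subring.subset_closure (Or.inl (hGB g hg)),
    fun i z hz => Subring.subset_closure (Or.inl (hAB i hz)), hFB₁.adj _, ?_⟩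
  intro i
  obtain ⟨k, hk⟩ := hden i c (hBb i hcB)
  have hf : b i * (b i ^ k * c) ≠ 0 := mul_ne_zero (hb0 i) (mul_ne_zero (pow_ne_zero _ (hb0 i)) hc0)
  refine ⟨b i * (b i ^ k * c), Subring.mul_mem _ (hb i) hk, hf, le_antisymm ?_ ?_⟩
  · -- `b⁻¹`, `c⁻¹`
    set D : Subring F := Subring.closure ((A i : Set F) ∪ {(b i * (b i ^ k * c))⁻¹}) with hD
    have hAD : A i ≤ D := fun z hz => Subring.subset_closure (Or.inl hz)
    have hfD : (b i * (b i ^ k * c))⁻¹ ∈ D := Subring.subset_closure (Or.inr rfl)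
    have h1 : (b i)⁻¹ ∈ D := by
      have : (b i)⁻¹ = (b i ^ k * c) * (b i * (b i ^ k * c))⁻¹ := by
        have := hb0 i
        field_simp
      rw [this]
      exact D.mul_mem (hAD hk) hfD
    have h2 : c⁻¹ ∈ D := by
      have : c⁻¹ = b i ^ (k + 1) * (b i * (b i ^ k * c))⁻¹ := by
        have := hb0 i
        rw [pow_succ]
        field_simp
      rw [this]
      exact D.mul_mem (D.pow_mem (hAD (hb i)) _) hfD
    refine Subring.closure_le.2 ?_
    rintro z (hz | hz)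
    · have h3 : Subring.closure ((A i : Set F) ∪ {(b i)⁻¹}) ≤ D := by
        refine Subring.closure_le.2 ?_
        rintro x (hx | hx)
        · exact hAD hx
        · rw [Set.mem_singleton_iff] at hx
          rw [hx]
          exact h1
      exact h3 (hBb i hz)
    · rw [Set.mem_singleton_iff] at hz
      rw [hz]
      exact h2
  · refine Subring.closure_le.2 ?_
    rintro z (hz | hz)
    · exact Subring.subset_closure (Or.inl (hAB i hz))
    · rw [Set.mem_singleton_iff] at hz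
      rw [hz]
      set D : Subring F := Subring.closure ((B₁ : Set F) ∪ {c⁻¹}) with hD
      have hBD : B₁ ≤ D := fun z hz => Subring.subset_closure (Or.inl hz)
      have hcD : c⁻¹ ∈ D := Subring.subset_closure (Or.inr rfl)
      have h1 : (b i)⁻¹ ∈ D := by
        have h2 : c = b i * ∏ i' ∈ Finset.univ.erase i, b i' :=
          (Finset.mul_prod_erase Finset.univ b (Finset.mem_univ i)).symm
        have h3 : ∏ i' ∈ Finset.univ.erase i, b i' ≠ 0 := Finset.prod_ne_zero_iff.2 fun i' _ => hb0 i'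
        have h4 : (b i)⁻¹ = (∏ i' ∈ Finset.univ.erase i, b i') * c⁻¹ := by
          rw [h2]
          have := hb0 i
          field_simp
        rw [h4]
        exact D.mul_mem (hBD (prod_mem fun i' _ => hAB i' (hb i'))) hcD
      rw [mul_inv, mul_inv, ← inv_pow]
      exact D.mul_mem h1 (D.mul_mem (D.pow_mem h1 _) hcD)

/-- `B` lies in the complement of the closed set, on which `b` vanishes. -/
def Cd (A B : Subring F) (b : F) : Prop := b ∈ A ∧ b ≠ 0 ∧ B ≤ Subring.closure ((A : Set F) ∪ {b⁻¹})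

end

section core

variable {O F : Type} [CommRing O] [IsDomain O] [IsRegularRing O] [Field F] [Algebra O F]

/-- **The ring side of the main theorem.** -/
theorem CORE (hPTS : S_PTS) (hJ : J0 O) (hMnz : ∀ (n : ℕ) (y : Fin n → F) (i : Fin n), ∃ δ, δ ≠ 0 ∧ Mn O y i δ)
    {r : ℕ} (hr : 0 < r) (A : Fin r → Subring F) (hA : ∀ i, FGO O (A i)) (hAF : ∀ i, Frc (A i)) :
    ∃ 𝓑 : Set (Subring F), (∀ B ∈ 𝓑, FGO O B ∧ Frc B ∧ (∃ i, A i ≤ B) ∧
        ∀ V : ValuationSubring F, B ≤ V.toSubring → IsRegularLocalRing (lo V.toSubring B)) ∧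
      (∀ B ∈ 𝓑, ∀ C ∈ 𝓑, B ⊔ C ∈ 𝓑) ∧
      (∀ B ∈ 𝓑, ∀ C ∈ 𝓑, ∀ V : ValuationSubring F, B ≤ V.toSubring → C ≤ V.toSubring →
        lo V.toSubring B = lo V.toSubring C) ∧
      ∃ B₀ ∈ 𝓑, (∀ i, A i ≤ B₀) ∧ (∀ i, ∃ f, Cd (A i) B₀ f ∧ B₀ = Subring.closure ((A i : Set F) ∪ {f⁻¹})) ∧
        ∃ T : ℕ → Finset (Subring F), (∀ q, ∀ B ∈ T q, B ∈ 𝓑) ∧
          ∀ (q : ℕ) (L : Type) [Field L] (R : ValuationSubring L) (i : Fin r) (π : A i →+* L), (∀ a, π a ∈ R) →
            ∀ b : A i, Cd (A i) B₀ (b : F) → OrdLe R (π b) q →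
            ∃ B ∈ T q, A i ≤ B ∧ ∃ β : B →+* R, ∀ (a : A i) (h : (a : F) ∈ B), ((β ⟨a, h⟩ : R) : L) = π a := by
  classical
  have hnoeO : IsNoetherianRing O := inferInstance
  choose m a ha1 ha0 hAa using fun i => gens1 (hA i)
  have haA : ∀ i k, a i k ∈ A i := fun i k => by rw [hAa i]; exact Algebra.subset_adjoin ⟨k, rfl⟩
  -- the coordinates
  let P := ∀ i : Fin r, Fin (m i + 1)
  let yP : P → F := fun p => ∏ i, a i (p i)
  let ε : P ≃ Fin (Fintype.card P) := Fintype.equivFin P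
  set n := Fintype.card P with hn
  let y : Fin n → F := fun j => yP (ε.symm j)
  have hyε : ∀ p, y (ε p) = yP p := fun p => by
    change yP (ε.symm (ε p)) = yP p
    rw [Equiv.symm_apply_apply]
  have hyP : ∀ p, yP p ≠ 0 := fun p => Finset.prod_ne_zero_iff.2 fun i _ => ha0 i (p i)
  have hy : ∀ j, y j ≠ 0 := fun j => hyP _
  have hn0 : 0 < n := Fintype.card_pos_iff.2 ⟨fun i => 0⟩
  set M₀ : Submodule O F := Submodule.span O (Set.range y) with hM₀
  have hyM : ∀ j, y j ∈ M₀ := fun j => Submodule.subset_span ⟨j, rfl⟩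
  have hyPM : ∀ p, yP p ∈ M₀ := fun p => by rw [← hyε]; exact hyM _
  have hMM : Md M₀ := ⟨Submodule.fg_span (Set.finite_range y), y ⟨0, hn0⟩, hyM _, hy _⟩
  have hupd : ∀ (p : P) (i : Fin r) (k : Fin (m i + 1)),
      yP (Function.update p i k) / yP p = a i k / a i (p i) := by
    intro p i k
    have h1 : yP (Function.update p i k) = a i k * ∏ i' ∈ Finset.univ.erase i, a i' (p i') := by
      change ∏ i', a i' (Function.update p i k i') = _
      rw [← Finset.mul_prod_erase _ _ (Finset.mem_univ i), Function.update_self]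
      congr 1
      refine Finset.prod_congr rfl fun i' hi' => ?_
      rw [Function.update_of_ne (Finset.ne_of_mem_erase hi')]
    have h2 : yP p = a i (p i) * ∏ i' ∈ Finset.univ.erase i, a i' (p i') :=
      (Finset.mul_prod_erase Finset.univ (fun i' => a i' (p i')) (Finset.mem_univ i)).symm
    have h3 : ∏ i' ∈ Finset.univ.erase i, a i' (p i') ≠ 0 := Finset.prod_ne_zero_iff.2 fun i' _ => ha0 _ _
    rw [h1, h2, mul_div_mul_right _ _ h3]
  have hOch : ∀ j (o : O), algebraMap O F o ∈ (chart O M₀ (y j)).toSubring := fun j o => Subalgebra.algebraMap_mem _ o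
  -- the chart at a point of `A i`
  have hchA : ∀ (i : Fin r) (p : P), p i = 0 → A i ≤ (chart O M₀ (y (ε p))).toSubring := by
    intro i p hp
    rw [hAa i]
    refine (Algebra.adjoin_le ?_ : _ ≤ chart O M₀ (y (ε p)))
    rintro _ ⟨k, rfl⟩
    refine Algebra.subset_adjoin ⟨yP (Function.update p i k), hyPM _, ?_⟩
    rw [hyε, hupd, hp, ha1, div_one]
  have hmaxA : ∀ (V : ValuationSubring F), Cn O V → ∀ i, A i ≤ V.toSubring →
      ∃ j, (∀ j', y j' / y j ∈ V) ∧ A i ≤ (chart O M₀ (y j)).toSubring := by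
    intro V hV i hiV
    have h1 : ∀ i', ∃ k : Fin (m i' + 1), ∀ k', a i' k' / a i' k ∈ V := by
      intro i'
      obtain ⟨k, hk⟩ := Finite.exists_max fun k => V.valuation (a i' k)
      exact ⟨k, fun k' => div_of_val_le (ha0 i' k) (hk k')⟩
    choose κ hκ using h1
    let p : P := Function.update κ i 0
    have hpi : p i = 0 := Function.update_self i 0 κ
    have hp : ∀ i' k', a i' k' / a i' (p i') ∈ V := by
      intro i' k'
      by_cases hi : i' = i
      · subst hi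
        rw [hpi, ha1, div_one]
        exact hiV (haA _ _)
      · have : p i' = κ i' := Function.update_of_ne hi 0 κ
        rw [this]
        exact hκ i' k'
    refine ⟨ε p, fun j' => ?_, hchA i p hpi⟩
    rw [hyε]
    change (∏ i', a i' (ε.symm j' i')) / ∏ i', a i' (p i') ∈ V
    rw [← Finset.prod_div_distrib]
    exact prod_mem fun i' _ => hp i' _
  -- the zero index
  let p₀ : P := fun i => 0
  have hy0 : y (ε p₀) = 1 := by
    rw [hyε]
    exact Finset.prod_eq_one fun i _ => ha1 i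
  let i₀ : Fin r := ⟨0, hr⟩
  have hF : ∀ j, Frc (chart O M₀ (y j)).toSubring := by
    intro j
    refine (hAF i₀).of_le ?_
    have hO : ∀ o : O, algebraMap O F o ∈ FrS (chart O M₀ (y j)).toSubring := fun o =>
      ⟨_, hOch j o, 1, Subring.one_mem _, one_ne_zero, by rw [div_one]⟩
    let S : Subalgebra O F := { FrS (chart O M₀ (y j)).toSubring with algebraMap_mem' := hO }
    have h1 : Algebra.adjoin O (Set.range (a i₀)) ≤ S := Algebra.adjoin_le (by
      rintro _ ⟨k, rfl⟩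
      refine ⟨yP (Function.update p₀ i₀ k) / y j, Algebra.subset_adjoin ⟨_, hyPM _, rfl⟩, yP p₀ / y j,
        Algebra.subset_adjoin ⟨_, hyPM _, rfl⟩, div_ne_zero (hyP _) (hy j), ?_⟩
      rw [div_div_div_cancel_right₀ (hy j), hupd]
      change a i₀ k = a i₀ k / a i₀ 0
      rw [ha1, div_one])
    rw [hAa i₀]
    exact h1
  -- the tower
  obtain ⟨M, hT, hM0, hMD, hMreg⟩ := t_TOWR (F := F) hJ hy hn0
  choose δ hδ0 hδ using fun j => hMnz n y j
  -- the open set
  let G : Finset F := (Finset.univ.biUnion fun i => (Finset.univ.image fun k => a i k) ∪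
    Finset.univ.image fun k => (a i k)⁻¹) ∪ Finset.univ.image fun j => (δ j)⁻¹
  obtain ⟨B₀, hGB, hAB, hFB₀, hcl⟩ := common_open hr hA hAF G
  obtain ⟨f, hfA, hf0, hB₀⟩ := hcl i₀
  have haB : ∀ i k, a i k ∈ B₀ := fun i k => hGB _ (Finset.mem_union_left _ (Finset.mem_biUnion.2
    ⟨i, Finset.mem_univ _, Finset.mem_union_left _ (Finset.mem_image_of_mem _ (Finset.mem_univ _))⟩))
  have haiB : ∀ i k, (a i k)⁻¹ ∈ B₀ := fun i k => hGB _ (Finset.mem_union_left _ (Finset.mem_biUnion.2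
    ⟨i, Finset.mem_univ _, Finset.mem_union_right _ (Finset.mem_image_of_mem _ (Finset.mem_univ _))⟩))
  have hδB : ∀ j, (δ j)⁻¹ ∈ B₀ := fun j => hGB _ (Finset.mem_union_right _ (Finset.mem_image_of_mem _
    (Finset.mem_univ _)))
  have hOB : ∀ o : O, algebraMap O F o ∈ B₀ := fun o => hFB₀.base o
  have hyB : ∀ p, yP p ∈ B₀ := fun p => prod_mem fun i _ => haB i _
  have hyiB : ∀ p, (yP p)⁻¹ ∈ B₀ := fun p => by
    change (∏ i, a i (p i))⁻¹ ∈ B₀
    rw [← Finset.prod_inv_distrib]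
    exact prod_mem fun i _ => haiB i _
  have hB₀s : B₀ ∈ Bs M := by
    refine ⟨hFB₀, (hAF i₀).mono (hAB i₀), 0, ?_⟩
    intro V hV
    have hVC : Cn O V := hFB₀.cn hV
    have hyV : ∀ j j', y j' / y j ∈ V := fun j j' => by
      rw [div_eq_mul_inv]
      exact V.mul_mem _ _ (hV (hyB _)) (hV (hyiB _))
    have hreg : Rg (M 0) V := hMreg 0 V hVC (ε p₀) (hyV _) (δ (ε p₀)) (hδ _)
      (OrdLe.of_unit (not_lt_of_inv_mem (hδ0 _) (hV (hδB _))) 0)
    have hAch : A i₀ ≤ (chart O M₀ (y (ε p₀))).toSubring := hchA i₀ p₀ rfl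
    have hchB : (chart O M₀ (y (ε p₀))).toSubring ≤ B₀ := by
      let S : Subalgebra O F := { B₀ with algebraMap_mem' := hOB }
      have h1 : chart O M₀ (y (ε p₀)) ≤ S := Algebra.adjoin_le (by
        rintro _ ⟨x, hx, rfl⟩
        rw [hy0, div_one]
        induction hx using Submodule.span_induction with
        | mem x hx => obtain ⟨j, rfl⟩ := hx; exact hyB _
        | zero => exact S.zero_mem
        | add x z _ _ hx hz => exact S.add_mem hx hz
        | smul c x _ hx => exact S.smul_mem hx c)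
      exact h1
    have hlo : lo V.toSubring (chart O M₀ (y (ε p₀))).toSubring = lo V.toSubring B₀ := by
      apply le_antisymm (lo_mono hchB)
      have hfV : f⁻¹ ∈ V := hV (by rw [hB₀]; exact Subring.subset_closure (Or.inr rfl))
      rw [hB₀, lo_adj ((hAB i₀).trans hV) hfA hf0 hfV]
      exact lo_mono hAch
    have hLR : LR V (M 0) (lo V.toSubring B₀) := by
      rw [hM0, ← hlo]
      exact ⟨_, hyM _, hy _, max_span hVC (hyV _), rfl⟩
    obtain ⟨Q, hQ, hr⟩ := hreg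
    rw [LR.unique hVC hQ hLR] at hr
    exact ⟨hLR, hr⟩
  -- the bound
  have hbound : ∀ i j, ∃ N : ℕ, A i ≤ (chart O M₀ (y j)).toSubring → ∀ V : ValuationSubring F,
      (chart O M₀ (y j)).toSubring ≤ V.toSubring → ∀ b, Cd (A i) B₀ b → V.valuation b ^ N ≤ V.valuation (δ j) := by
    intro i j
    by_cases hij : A i ≤ (chart O M₀ (y j)).toSubring
    swap
    · exact ⟨0, fun h => absurd h hij⟩
    set C : Subring F := (chart O M₀ (y j)).toSubring with hC
    have hnoe : IsNoetherianRing C := (fgo_chart hMM.1 (y j)).noeth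
    have hδC : δ j ∈ C := by
      have := (hδ j).mem
      rw [ph_range] at this
      exact this
    let J : Ideal C := Ideal.span {b | Cd (A i) B₀ (b : F)}
    obtain ⟨N, hN⟩ := Pool.Agent.Run7.h216.RB.t_NUL F C J (Ideal.span {(⟨δ j, hδC⟩ : C)}) (by
      intro V hCV hc b hb
      by_contra hcon
      obtain ⟨hb0, -⟩ := inv_mem_of_not_lt hcon
      obtain ⟨d, hd, hle⟩ := val_span hCV hb hb0
      obtain ⟨hd0, hdi⟩ := inv_mem_of_not_lt fun h => hcon (hle.trans_lt h)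
      have h1 : B₀ ≤ V.toSubring := hd.2.2.trans (adj_le (hij.trans hCV) hdi)
      exact not_lt_of_inv_mem (hδ0 j) (h1 (hδB j)) (hc _ (Ideal.subset_span rfl)))
    refine ⟨N, fun _ V hCV b hb => ?_⟩
    have h1 : (⟨b, hij hb.1⟩ : C) ∈ J := Ideal.subset_span hb
    have h2 := hN (Ideal.pow_mem_pow h1 N)
    obtain ⟨c, hc⟩ := Ideal.mem_span_singleton'.1 h2
    have h3 : (c : F) * δ j = b ^ N := congrArg Subtype.val hc
    rw [← map_pow, ← h3, map_mul]
    exact mul_le_of_le_one_left' ((V.valuation_le_one_iff _).2 (hCV c.2))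
  choose N hN using hbound
  let eq : ℕ → ℕ := fun q => ∑ i, ∑ j, N i j * (q + 1)
  have heq : ∀ q i j, N i j * (q + 1) ≤ eq q := by
    intro q i j
    calc N i j * (q + 1) ≤ ∑ j, N i j * (q + 1) :=
          Finset.single_le_sum (f := fun j => N i j * (q + 1)) (fun _ _ => Nat.zero_le _) (Finset.mem_univ j)
      _ ≤ eq q := Finset.single_le_sum (f := fun i => ∑ j, N i j * (q + 1)) (fun _ _ => Nat.zero_le _)
          (Finset.mem_univ i)
  choose T hTB hTV using fun e => reach (O := O) hy hn0 hF hT hMD e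
  refine ⟨{B | B ∈ Bs M ∧ ∃ i, A i ≤ B}, ?_, ?_, ?_, B₀, ⟨hB₀s, i₀, hAB i₀⟩, hAB, ?_,
    fun q => (T (eq q)).filter fun B => ∃ i, A i ≤ B, ?_, ?_⟩
  · rintro B ⟨hB, hi⟩
    obtain ⟨h1, h2, e, h3⟩ := hB
    exact ⟨h1, h2, hi, fun V hV => (h3 V hV).2⟩
  · rintro B ⟨hB, i, hi⟩ C ⟨hC, -⟩
    exact ⟨Bs.sup hT hB hC, i, hi.trans le_sup_left⟩
  · rintro B ⟨hB, -⟩ C ⟨hC, -⟩ V hBV hCV
    exact Bs.loc hT hB hC hBV hCV
  · intro i
    obtain ⟨f, hf, hf0, hfB⟩ := hcl i
    exact ⟨f, ⟨hf, hf0, hfB.le⟩, hfB⟩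
  · intro q B hB
    obtain ⟨h1, h2⟩ := Finset.mem_filter.1 hB
    exact ⟨hTB _ B h1, h2⟩
  · intro q L _ R i π hπ b hb hord
    have hπb : π b ≠ 0 := hord.ne
    have hloA : ∀ V : ValuationSubring F, A i ≤ V.toSubring → ¬ V.valuation (b : F) < 1 →
        B₀ ≤ V.toSubring ∧ lo V.toSubring (A i) = lo V.toSubring B₀ := by
      intro V hV hbV
      obtain ⟨hb0, hbi⟩ := inv_mem_of_not_lt hbV
      refine ⟨hb.2.2.trans (adj_le hV hbi), le_antisymm (lo_mono (hAB i)) ?_⟩
      rw [← lo_adj hV b.2 hb0 hbi]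
      exact lo_mono hb.2.2
    obtain ⟨W, V, hVW, hAV, hW, hordV, hβ⟩ := hPTS F L (A i) (hAF i) π R hπ (by
      intro V₀ hV₀ hc
      obtain ⟨h1, h2⟩ := hloA V₀ hV₀ fun h => hπb ((hc b).1 h)
      obtain ⟨-, -, e, h3⟩ := hB₀s
      rw [h2]
      exact (h3 V₀ h1).2)
    have hVC : Cn O V := (hA i).cn hAV
    obtain ⟨j, hj, hAj⟩ := hmaxA V hVC i hAV
    have hCV : (chart O M₀ (y j)).toSubring ≤ V.toSubring := chart_le_V hVC (max_span hVC hj)
    have hordδ : OrdLe V (δ j) (eq q) := by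
      refine OrdLe.le (((hordV b q hord).pow (N i j)).mono (heq q i j)) ?_
      rw [map_pow]
      exact hN i j hAj V hCV b hb
    have hreg : Rg (M (eq q)) V := hMreg (eq q) V hVC j hj (δ j) (hδ j) hordδ
    obtain ⟨B, hB, hBV, hjB⟩ := hTV (eq q) V hVC j hj hreg
    have hAB' : A i ≤ B := hAj.trans hjB
    obtain ⟨hWB, hloW⟩ := hloA W (hAV.trans hVW) fun h => hπb ((hW b).1 h)
    obtain ⟨β, -, hβ2⟩ := hβ (lo V.toSubring B) (lo_le hBV) (ic_lo hBV) (by
      rw [hloW, Bs.loc hT hB₀s (hTB _ B hB) hWB (hBV.trans hVW)]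
      exact lo_mono_V hVW B)
    refine ⟨B, Finset.mem_filter.2 ⟨hB, i, hAB'⟩, hAB', β.comp (Subring.inclusion (le_lo _ _)), ?_⟩
    intro a' h
    exact hβ2 a' (le_lo _ _ h)

end core

end Pool.Agent.Run7.h275.RB
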