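import Pool.Agent.Run7.h275.RB21

/-!
# The ring side of the absolute version
-/

set_option autoImplicit false
set_option linter.unusedVariables false
set_option linter.unusedSectionVars false

namespace Pool.Agent.Run7.h275.RB

open IsLocalRing Pool.Agent.W418.LU2 Pool.Agent.H918R2.Quad Pool.Agent.Run7.h275.RL

section

variable {F : Type} [Field F]

lemma adj_den {B : Subring F} {f : F} (hf : f ∈ B) (hf0 : f ≠ 0) :
    ∀ z ∈ Subring.closure ((B : Set F) ∪ {f⁻¹}), ∃ k : ℕ, f ^ k * z ∈ B := by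
  intro z hz
  induction hz using Subring.closure_induction with
  | mem z hz =>
    rcases hz with hz | hz
    · exact ⟨0, by rw [pow_zero, one_mul]; exact hz⟩
    · rw [Set.mem_singleton_iff] at hz
      refine ⟨1, ?_⟩
      rw [hz, pow_one, mul_inv_cancel₀ hf0]
      exact Subring.one_mem _
  | zero => exact ⟨0, by rw [mul_zero]; exact Subring.zero_mem _⟩
  | one => exact ⟨0, by rw [mul_one, pow_zero]; exact Subring.one_mem _⟩
  | add x z _ _ hx hz =>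
    obtain ⟨k, hk⟩ := hx
    obtain ⟨l, hl⟩ := hz
    refine ⟨k + l, ?_⟩
    have : f ^ (k + l) * (x + z) = f ^ l * (f ^ k * x) + f ^ k * (f ^ l * z) := by ring
    rw [this]
    exact Subring.add_mem _ (Subring.mul_mem _ (Subring.pow_mem _ hf _) hk)
      (Subring.mul_mem _ (Subring.pow_mem _ hf _) hl)
  | neg x _ hx =>
    obtain ⟨k, hk⟩ := hx
    exact ⟨k, by rw [mul_neg]; exact Subring.neg_mem _ hk⟩
  | mul x z _ _ hx hz =>
    obtain ⟨k, hk⟩ := hx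
    obtain ⟨l, hl⟩ := hz
    refine ⟨k + l, ?_⟩
    have : f ^ (k + l) * (x * z) = (f ^ k * x) * (f ^ l * z) := by ring
    rw [this]
    exact Subring.mul_mem _ hk hl

lemma lift_adj {B : Subring F} {f : F} (hf : f ∈ B) (hf0 : f ≠ 0) {L : Type} [Field L] (β : B →+* L)
    (hβ : β ⟨f, hf⟩ ≠ 0) : ∃ γ : Subring.closure ((B : Set F) ∪ {f⁻¹}) →+* L,
      ∀ (b : F) (hb : b ∈ B) (h : b ∈ Subring.closure ((B : Set F) ∪ {f⁻¹})), γ ⟨b, h⟩ = β ⟨b, hb⟩ := by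
  set D : Subring F := Subring.closure ((B : Set F) ∪ {f⁻¹}) with hD
  have hBD : B ≤ D := fun z hz => Subring.subset_closure (Or.inl hz)
  let φ : B →+* D := Subring.inclusion hBD
  let _ : Algebra B D := φ.toAlgebra
  let S : Submonoid B := Submonoid.powers ⟨f, hf⟩
  have hpow : ∀ s : S, ∃ k : ℕ, ((s : B) : F) = f ^ k := by
    rintro ⟨s, k, hk⟩
    refine ⟨k, ?_⟩
    have h1 : (⟨f, hf⟩ : B) ^ k = s := hk
    have h2 : (((⟨f, hf⟩ : B) ^ k : B) : F) = (s : F) := congrArg Subtype.val h1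
    exact h2.symm
  have : IsLocalization S D := by
    refine ⟨?_, ?_, ?_⟩
    · intro s
      obtain ⟨k, hk⟩ := hpow s
      refine isUnit_iff_exists_inv.2 ⟨⟨(f⁻¹) ^ k, D.pow_mem (Subring.subset_closure (Or.inr rfl)) k⟩, Subtype.ext ?_⟩
      change ((s : B) : F) * (f⁻¹) ^ k = 1
      rw [hk, ← mul_pow, mul_inv_cancel₀ hf0, one_pow]
    · intro z
      obtain ⟨k, hk⟩ := adj_den hf hf0 z z.2
      refine ⟨(⟨f ^ k * z, hk⟩, ⟨⟨f, hf⟩ ^ k, k, rfl⟩), Subtype.ext ?_⟩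
      change (z : F) * f ^ k = f ^ k * z
      rw [mul_comm]
    · intro a b hab
      refine ⟨1, ?_⟩
      have h1 : (a : F) = b := congrArg (fun z : D => (z : F)) hab
      rw [Subtype.ext h1]
  have hu : ∀ s : S, IsUnit (β s) := by
    rintro ⟨s, k, hk⟩
    rw [isUnit_iff_ne_zero]
    have h1 : (⟨f, hf⟩ : B) ^ k = s := hk
    change β s ≠ 0
    rw [← h1, map_pow]
    exact pow_ne_zero _ hβ
  refine ⟨IsLocalization.lift hu, fun b hb h => ?_⟩
  exact IsLocalization.lift_eq hu (⟨b, hb⟩ : B)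

end

section core

variable {O F : Type} [CommRing O] [IsDomain O] [IsRegularRing O] [Field F] [Algebra O F]

/-- **The ring side of the absolute version.** -/
theorem COREB (hPTS : S_PTS) (hJ : J0 O) (hMnz : ∀ (n : ℕ) (y : Fin n → F) (i : Fin n), ∃ δ, δ ≠ 0 ∧ Mn O y i δ)
    {n : ℕ} (hn : 0 < n) (y : Fin n → F) (hy : ∀ i, y i ≠ 0)
    (hF : ∀ i, Frc (chart O (Submodule.span O (Set.range y)) (y i)).toSubring) :
    ∃ 𝓑 : Set (Subring F), (∀ B ∈ 𝓑, FGO O B ∧ Frc B ∧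
        ∀ V : ValuationSubring F, B ≤ V.toSubring → IsRegularLocalRing (lo V.toSubring B)) ∧
      (∀ B ∈ 𝓑, ∀ C ∈ 𝓑, B ⊔ C ∈ 𝓑) ∧
      (∀ B ∈ 𝓑, ∀ C ∈ 𝓑, ∀ V : ValuationSubring F, B ≤ V.toSubring → C ≤ V.toSubring →
        lo V.toSubring B = lo V.toSubring C) ∧
      ∃ B₀ ∈ 𝓑, ∀ (K : Type) [Field K] (R : ValuationSubring K), (∀ x ∈ R, x ≠ 0 → ∃ q, OrdLe R x q) →
        ∀ π : B₀ →+* K, (∀ (o : O) (h : algebraMap O F o ∈ B₀), π ⟨_, h⟩ ∈ R) →
          ∃ B ∈ 𝓑, ∃ (β : B →+* R) (γ : (B ⊔ B₀ : Subring F) →+* K),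
            (∀ (b : F) (hb : b ∈ B) (h : b ∈ B ⊔ B₀), γ ⟨b, h⟩ = β ⟨b, hb⟩) ∧
            ∀ (b : F) (hb : b ∈ B₀) (h : b ∈ B ⊔ B₀), γ ⟨b, h⟩ = π ⟨b, hb⟩ := by
  classical
  set M₀ : Submodule O F := Submodule.span O (Set.range y) with hM₀
  have hyM : ∀ j, y j ∈ M₀ := fun j => Submodule.subset_span ⟨j, rfl⟩
  have hMM : Md M₀ := ⟨Submodule.fg_span (Set.finite_range y), y ⟨0, hn⟩, hyM _, hy _⟩
  obtain ⟨𝓑, hB1, hB2, hB3, B₀, hB₀, hAB₀, hopen, T, hTB, harc⟩ := CORE hPTS hJ hMnz hn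
    (fun i => (chart O M₀ (y i)).toSubring) (fun i => fgo_chart hMM.1 _) hF
  refine ⟨𝓑, fun B hB => ⟨(hB1 B hB).1, (hB1 B hB).2.1, (hB1 B hB).2.2.2⟩, hB2, hB3, B₀, hB₀, ?_⟩
  intro K _ R hfin π hπO
  have hyy : ∀ i j, y j / y i ∈ (chart O M₀ (y i)).toSubring := fun i j =>
    Algebra.subset_adjoin ⟨y j, hyM j, rfl⟩
  have hyB : ∀ i j, y j / y i ∈ B₀ := fun i j => hAB₀ i (hyy i j)
  let i₀ : Fin n := ⟨0, hn⟩
  let v : Fin n → K := fun j => π ⟨y j / y i₀, hyB i₀ j⟩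
  have hvmul : ∀ i j, v i * π ⟨y j / y i, hyB i j⟩ = v j := by
    intro i j
    change π _ * π _ = π _
    rw [← map_mul]
    congr 1
    apply Subtype.ext
    change y i / y i₀ * (y j / y i) = y j / y i₀
    have h1 := hy i
    have h2 := hy i₀
    field_simp
  have hv0 : ∀ j, v j ≠ 0 := by
    intro j h0
    have h1 := hvmul j i₀
    rw [h0, zero_mul] at h1
    have h2 : v i₀ = 1 := by
      have : (⟨y i₀ / y i₀, hyB i₀ i₀⟩ : B₀) = 1 := Subtype.ext (div_self (hy i₀))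
      change π _ = 1
      rw [this, map_one]
    rw [h2] at h1
    exact zero_ne_one h1
  have : Nonempty (Fin n) := ⟨i₀⟩
  obtain ⟨i, hi⟩ := Finite.exists_max fun j => R.valuation (v j)
  -- the values of the chart `i` are in `R`
  have hπA : ∀ a : (chart O M₀ (y i)).toSubring, π ⟨a, hAB₀ i a.2⟩ ∈ R := by
    have hyR : ∀ j, π ⟨y j / y i, hyB i j⟩ ∈ R := by
      intro j
      have h1 : π ⟨y j / y i, hyB i j⟩ = v j / v i := by
        rw [eq_div_iff (hv0 i), mul_comm, hvmul]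
      rw [h1]
      exact div_of_val_le (hv0 i) (hi j)
    have hMR : ∀ x ∈ M₀, ∃ h : x / y i ∈ B₀, π ⟨x / y i, h⟩ ∈ R := by
      intro x hx
      induction hx using Submodule.span_induction with
      | mem x hx => obtain ⟨j, rfl⟩ := hx; exact ⟨hyB i j, hyR j⟩
      | zero =>
        refine ⟨by rw [zero_div]; exact B₀.zero_mem, ?_⟩
        have : (⟨0 / y i, by rw [zero_div]; exact B₀.zero_mem⟩ : B₀) = 0 := Subtype.ext (zero_div _)
        rw [this, map_zero]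
        exact R.zero_mem
      | add x z _ _ hx hz =>
        obtain ⟨h1, h2⟩ := hx
        obtain ⟨h3, h4⟩ := hz
        refine ⟨by rw [add_div]; exact B₀.add_mem h1 h3, ?_⟩
        have : (⟨(x + z) / y i, by rw [add_div]; exact B₀.add_mem h1 h3⟩ : B₀) =
            ⟨x / y i, h1⟩ + ⟨z / y i, h3⟩ := Subtype.ext (add_div _ _ _)
        rw [this, map_add]
        exact R.add_mem _ _ h2 h4
      | smul c x _ hx =>
        obtain ⟨h1, h2⟩ := hx
        have hc : algebraMap O F c ∈ B₀ := hAB₀ i (Subalgebra.algebraMap_mem _ c)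
        have e1 : c • x / y i = algebraMap O F c * (x / y i) := by
          rw [Algebra.smul_def, mul_div_assoc]
        refine ⟨by rw [e1]; exact B₀.mul_mem hc h1, ?_⟩
        have : (⟨c • x / y i, by rw [e1]; exact B₀.mul_mem hc h1⟩ : B₀) = ⟨algebraMap O F c, hc⟩ * ⟨x / y i, h1⟩ :=
          Subtype.ext e1
        rw [this, map_mul]
        exact R.mul_mem _ _ (hπO c hc) h2
    rintro ⟨a, ha⟩
    have key : ∀ a ∈ chart O M₀ (y i), ∃ h : a ∈ B₀, π ⟨a, h⟩ ∈ R := by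
      intro a ha
      induction ha using Algebra.adjoin_induction with
      | mem a ha =>
        obtain ⟨x, hx, rfl⟩ := ha
        exact hMR x hx
      | algebraMap c => exact ⟨hAB₀ i (Subalgebra.algebraMap_mem _ c), hπO c _⟩
      | add a b _ _ ha hb =>
        obtain ⟨h1, h2⟩ := ha
        obtain ⟨h3, h4⟩ := hb
        refine ⟨B₀.add_mem h1 h3, ?_⟩
        have : (⟨a + b, B₀.add_mem h1 h3⟩ : B₀) = ⟨a, h1⟩ + ⟨b, h3⟩ := rfl
        rw [this, map_add]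
        exact R.add_mem _ _ h2 h4
      | mul a b _ _ ha hb =>
        obtain ⟨h1, h2⟩ := ha
        obtain ⟨h3, h4⟩ := hb
        refine ⟨B₀.mul_mem h1 h3, ?_⟩
        have : (⟨a * b, B₀.mul_mem h1 h3⟩ : B₀) = ⟨a, h1⟩ * ⟨b, h3⟩ := rfl
        rw [this, map_mul]
        exact R.mul_mem _ _ h2 h4
    exact (key a ha).2
  obtain ⟨f, ⟨hfA, hf0, hfB⟩, hB₀f⟩ := hopen i
  have hfinv : f⁻¹ ∈ B₀ := by rw [hB₀f]; exact Subring.subset_closure (Or.inr rfl)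
  have hπf : π ⟨f, hAB₀ i hfA⟩ ≠ 0 := by
    intro h0
    have h1 : π ⟨f, hAB₀ i hfA⟩ * π ⟨f⁻¹, hfinv⟩ = 1 := by
      rw [← map_mul]
      have : (⟨f, hAB₀ i hfA⟩ * ⟨f⁻¹, hfinv⟩ : B₀) = 1 := Subtype.ext (mul_inv_cancel₀ hf0)
      rw [this, map_one]
    rw [h0, zero_mul] at h1
    exact zero_ne_one h1
  obtain ⟨q, hq⟩ := hfin _ (hπA ⟨f, hfA⟩) hπf
  obtain ⟨B, hB, hAB, β, hβ⟩ := harc q K R i (π.comp (Subring.inclusion (hAB₀ i))) (fun a => hπA a) ⟨f, hfA⟩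
    ⟨hfA, hf0, hfB⟩ hq
  have hβf : ((R.subtype : R →+* K).comp β) ⟨f, hAB hfA⟩ ≠ 0 := by
    have h1 := hβ ⟨f, hfA⟩ (hAB hfA)
    change ((β ⟨f, hAB hfA⟩ : R) : K) ≠ 0
    rw [h1]
    exact hπf
  obtain ⟨γ', hγ'⟩ := lift_adj (hAB hfA) hf0 ((R.subtype : R →+* K).comp β) hβf
  have hle : B ⊔ B₀ ≤ Subring.closure ((B : Set F) ∪ {f⁻¹}) := by
    refine sup_le (fun z hz => Subring.subset_closure (Or.inl hz)) ?_
    rw [hB₀f]
    exact Subring.closure_mono (Set.union_subset_union_left _ hAB)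
  refine ⟨B, hTB q B hB, β, γ'.comp (Subring.inclusion hle), ?_, ?_⟩
  · intro b hb h
    exact hγ' b hb (hle h)
  · -- uniqueness
    have key : ∀ z ∈ Subring.closure (((chart O M₀ (y i)).toSubring : Set F) ∪ {f⁻¹}), ∀ (h : z ∈ B ⊔ B₀) (hb : z ∈ B₀),
        γ' ⟨z, hle h⟩ = π ⟨z, hb⟩ := by
      intro z hz h hb
      obtain ⟨k, hk⟩ := adj_den hfA hf0 z hz
      have hfBB : f ∈ B ⊔ B₀ := le_sup_left (a := B) (b := B₀) (hAB hfA)
      have e1 : γ' ⟨f, hle hfBB⟩ = π ⟨f, hAB₀ i hfA⟩ := by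
        rw [hγ' f (hAB hfA)]
        exact hβ ⟨f, hfA⟩ (hAB hfA)
      have hfz : f ^ k * z ∈ B ⊔ B₀ := (B ⊔ B₀).mul_mem ((B ⊔ B₀).pow_mem hfBB k) h
      have e2 : γ' ⟨f ^ k * z, hle hfz⟩ = π ⟨f ^ k * z, hAB₀ i hk⟩ := by
        rw [hγ' _ (hAB hk)]
        exact hβ ⟨f ^ k * z, hk⟩ (hAB hk)
      have e3 : γ' ⟨f ^ k * z, hle hfz⟩ = γ' ⟨f, hle hfBB⟩ ^ k * γ' ⟨z, hle h⟩ := by
        rw [← map_pow, ← map_mul]
        rfl
      have e4 : π ⟨f ^ k * z, hAB₀ i hk⟩ = π ⟨f, hAB₀ i hfA⟩ ^ k * π ⟨z, hb⟩ := by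
        rw [← map_pow, ← map_mul]
        rfl
      rw [e3, e4, e1] at e2
      exact mul_left_cancel₀ (pow_ne_zero k hπf) e2
    intro b hb h
    exact key b (by rw [← hB₀f]; exact hb) h hb

end core

end Pool.Agent.Run7.h275.RB
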