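import Pool.Agent.Run7.h275.RB20

/-!
# The tower, the family of charts and reach for the normal crossings locus
-/

set_option autoImplicit false
set_option linter.unusedVariables false
set_option linter.unusedSectionVars false

namespace Pool.Agent.Run7.h275.RB

open IsLocalRing Pool.Agent.W418.LU2 Pool.Agent.H918R2.Quad Pool.Agent.Run7.h275.RL

section

variable {O F : Type} [CommRing O] [Field F] [Algebra O F]

/-- The local ring of `Proj O[M]` at the centre of `V` has the property `P`. -/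
def RgP (P : Subring F → Prop) (M : Submodule O F) (V : ValuationSubring F) : Prop := ∃ Q, LR V M Q ∧ P Q

/-- The tower: `X_(e+1) → X_e` is an isomorphism over the locus with the property `P`, which is open. -/
structure TwrP (P : Subring F → Prop) (M : ℕ → Submodule O F) : Prop where
  md : ∀ e, Md (M e)
  iso : ∀ (e : ℕ) (V : ValuationSubring F), Cn O V → ∀ Q : Subring F, LR V (M e) Q → P Q →
    LR V (M (e + 1)) Q
  opn : ∀ (e : ℕ) (V : ValuationSubring F), Cn O V → RgP P (M e) V → Sep (M e) V {T | Cn O T ∧ ¬ RgP P (M e) T}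

lemma TwrP.iso_le {P : Subring F → Prop} {M : ℕ → Submodule O F} (h : TwrP P M) {e e' : ℕ} (he : e ≤ e')
    {V : ValuationSubring F} (hV : Cn O V) {Q : Subring F} (hQ : LR V (M e) Q) (hr : P Q) : LR V (M e') Q := by
  obtain ⟨d, rfl⟩ := Nat.exists_eq_add_of_le he
  clear he
  induction d with
  | zero => exact hQ
  | succ d ih => exact h.iso (e + d) V hV Q ih hr

end

section

variable {O F : Type} [CommRing O] [IsDomain O] [IsRegularRing O] [Field F] [Algebra O F] {n : ℕ} {y : Fin n → F}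

/-- **The tower of normal crossings loci.** -/
theorem t_TOWL (hJ : J0 O) (hy : ∀ i, y i ≠ 0) (hn : 0 < n) {N₀ : Submodule O F} {c : ℕ}
    (hN : N₀ ≤ (Submodule.span O (Set.range y)) ^ c) :
    ∃ M : ℕ → Submodule O F, TwrP (NCr (Submodule.span O (Set.range y)) N₀ c) M ∧
      M 0 = Submodule.span O (Set.range y) ∧
      (∀ e, ∃ D : Submodule O F, Md D ∧ M e = Submodule.span O (Set.range y) * D) ∧
      ∀ (e : ℕ) (V : ValuationSubring F), Cn O V → ∀ i a, Ac O y N₀ c V i a → OrdLe V a e →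
        RgP (NCr (Submodule.span O (Set.range y)) N₀ c) (M e) V := by
  have hnoeO : IsNoetherianRing O := inferInstance
  obtain ⟨M, C, k, h0, h1, h2, h3, h4⟩ := t_TOWER hJ hy hn hN
  have hyM : ∀ i, y i ∈ Submodule.span O (Set.range y) := fun i => Submodule.subset_span ⟨i, rfl⟩
  have hMM : Md (Submodule.span O (Set.range y)) := ⟨Submodule.fg_span (Set.finite_range y), y ⟨0, hn⟩, hyM _, hy _⟩
  have hmd : ∀ e, Md (M e) := by
    intro e
    obtain ⟨D, hD, hMD⟩ := h2 e
    rw [hMD]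
    exact (Pool.Agent.Run7.h915.RB.t_PER O F _ D hMM hD).1
  refine ⟨M, ⟨hmd, ?_, ?_⟩, h0, h2, h4⟩
  · intro e V hV Q hQ hr
    obtain ⟨g, hg, hgV⟩ := h3 e V hV ⟨Q, hQ, hr⟩
    rw [(h1 e).2.2]
    exact t_ISO O F (M e) (C e) (k e) (hmd e) (h1 e).1 (h1 e).2.1 V hV ⟨g, hg, hgV⟩ Q hQ
  · intro e V hV hr
    obtain ⟨D, hD, hMD⟩ := h2 e
    have h5 : Sep (M e) V {T | Cn O T ∧ ¬ NCm (Submodule.span O (Set.range y)) N₀ c (M e) T} := by
      have hr' : NCm (Submodule.span O (Set.range y)) N₀ c (M e) V := hr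
      rw [hMD] at hr' ⊢
      exact ncm_open Pool.Agent.Run7.h781.RB.NCO hJ hMM hD hN hV hr'
    exact h5

end

section family

variable {O F : Type} [CommRing O] [Field F] [Algebra O F]

/-- The affine open sets of the loci with the property `P`. -/
def BsP (P : Subring F → Prop) (M : ℕ → Submodule O F) : Set (Subring F) :=
  {B | FGO O B ∧ Frc B ∧ ∃ e, ∀ V : ValuationSubring F, B ≤ V.toSubring →
    LR V (M e) (lo V.toSubring B) ∧ P (lo V.toSubring B)}

variable {P : Subring F → Prop} {M : ℕ → Submodule O F}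

lemma BsP.loc (hT : TwrP P M) {B C : Subring F} (hB : B ∈ BsP P M) (hC : C ∈ BsP P M) {V : ValuationSubring F}
    (hBV : B ≤ V.toSubring) (hCV : C ≤ V.toSubring) : lo V.toSubring B = lo V.toSubring C := by
  obtain ⟨h1, -, e, h2⟩ := hB
  obtain ⟨h3, -, e', h4⟩ := hC
  have hV : Cn O V := h1.cn hBV
  obtain ⟨h5, h6⟩ := h2 V hBV
  obtain ⟨h7, h8⟩ := h4 V hCV
  exact LR.unique hV (hT.iso_le (le_max_left e e') hV h5 h6) (hT.iso_le (le_max_right e e') hV h7 h8)

lemma BsP.sup (hT : TwrP P M) {B C : Subring F} (hB : B ∈ BsP P M) (hC : C ∈ BsP P M) : B ⊔ C ∈ BsP P M := by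
  obtain ⟨h1, h2, e, h3⟩ := id hB
  refine ⟨h1.sup hC.1, h2.mono le_sup_left, e, fun V hV => ?_⟩
  have hBV : B ≤ V.toSubring := le_sup_left.trans hV
  have hCV : C ≤ V.toSubring := le_sup_right.trans hV
  rw [lo_sup hBV hCV (BsP.loc hT hB hC hBV hCV)]
  exact h3 V hBV

variable {n : ℕ} {y : Fin n → F}

/-- **Reach.** -/
theorem reachP [IsNoetherianRing O] (hy : ∀ i, y i ≠ 0) (hn : 0 < n)
    (hF : ∀ i, Frc (chart O (Submodule.span O (Set.range y)) (y i)).toSubring) (hT : TwrP P M)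
    (hM : ∀ e, ∃ D : Submodule O F, Md D ∧ M e = Submodule.span O (Set.range y) * D) (e : ℕ) :
    ∃ T : Finset (Subring F), (∀ B ∈ T, B ∈ BsP P M) ∧ ∀ V : ValuationSubring F, Cn O V → ∀ j, (∀ j', y j' / y j ∈ V) →
      RgP P (M e) V → ∃ B ∈ T, B ≤ V.toSubring ∧
        (chart O (Submodule.span O (Set.range y)) (y j)).toSubring ≤ B := by
  classical
  set M₀ : Submodule O F := Submodule.span O (Set.range y) with hM₀
  have hyM : ∀ i, y i ∈ M₀ := fun i => Submodule.subset_span ⟨i, rfl⟩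
  have hMM : Md M₀ := ⟨Submodule.fg_span (Set.finite_range y), y ⟨0, hn⟩, hyM _, hy _⟩
  obtain ⟨D, hD, hMD⟩ := hM e
  obtain ⟨m, g, hg, hDg⟩ := exists_gens hD
  have hgD : ∀ k, g k ∈ D := fun k => by rw [hDg]; exact Submodule.subset_span ⟨k, rfl⟩
  have hmd := hT.md e
  let A : Fin n × Fin m → Subring F := fun l => (chart O (M e) (y l.1 * g l.2)).toSubring
  have hmemM : ∀ l : Fin n × Fin m, y l.1 * g l.2 ∈ M e := fun l => by
    rw [hMD]; exact Submodule.mul_mem_mul (hyM _) (hgD _)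
  have hne : ∀ l : Fin n × Fin m, y l.1 * g l.2 ≠ 0 := fun l => mul_ne_zero (hy _) (hg _)
  have hch : ∀ l : Fin n × Fin m, (chart O M₀ (y l.1)).toSubring ≤ A l := by
    intro l
    have : chart O M₀ (y l.1) ≤ chart O (M e) (y l.1 * g l.2) := Algebra.adjoin_le (by
      rintro _ ⟨x, hx, rfl⟩
      refine Algebra.subset_adjoin ⟨x * g l.2, by rw [hMD]; exact Submodule.mul_mem_mul hx (hgD _), ?_⟩
      rw [mul_div_mul_right _ _ (hg _)])
    exact this
  have hfgo : ∀ l, FGO O (A l) := fun l => fgo_chart hmd.1 _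
  have hnoe : ∀ l, IsNoetherianRing (A l) := fun l => (hfgo l).noeth
  have hmx : ∀ l (V : ValuationSubring F), A l ≤ V.toSubring → ∀ x ∈ M e, x / (y l.1 * g l.2) ∈ V :=
    fun l V hV x hx => hV (Algebra.subset_adjoin ⟨x, hx, rfl⟩)
  have hfin : ∀ l, ∃ t : Finset (A l), Ideal.span (t : Set (A l)) = IB (A l) {T | Cn O T ∧ ¬ RgP P (M e) T} := by
    intro l
    have := hnoe l
    exact (isNoetherianRing_iff_ideal_fg (A l)).1 inferInstance _
  choose t ht using hfin
  let T : Finset (Subring F) := Finset.univ.biUnion fun l => ((t l).filter fun h => h ≠ 0).image fun h : A l =>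
    Subring.closure ((A l : Set F) ∪ {(h : F)⁻¹})
  refine ⟨T, ?_, ?_⟩
  · intro B hB
    obtain ⟨l, -, hB⟩ := Finset.mem_biUnion.1 hB
    obtain ⟨h, hh, rfl⟩ := Finset.mem_image.1 hB
    obtain ⟨hht, hh0⟩ := Finset.mem_filter.1 hh
    have hh0' : (h : F) ≠ 0 := fun h1 => hh0 (Subtype.ext h1)
    refine ⟨(hfgo l).adj _, (hF l.1).mono ((hch l).trans fun z hz => Subring.subset_closure (Or.inl hz)), e, ?_⟩
    intro V hV
    have hAV : A l ≤ V.toSubring := fun z hz => hV (Subring.subset_closure (Or.inl hz))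
    have hVC : Cn O V := (hfgo l).cn hAV
    have hhV : (h : F)⁻¹ ∈ V := hV (Subring.subset_closure (Or.inr rfl))
    have hreg : RgP P (M e) V := by
      by_contra hcon
      have h1 : h ∈ IB (A l) {T | Cn O T ∧ ¬ RgP P (M e) T} := by
        rw [← ht l]
        exact Ideal.subset_span hht
      exact not_lt_of_inv_mem hh0' hhV (h1 V ⟨hVC, hcon⟩ hAV)
    have hLR : LR V (M e) (lo V.toSubring (A l)) := ⟨_, hmemM l, hne l, hmx l V hAV, rfl⟩
    rw [lo_adj hAV h.2 hh0' hhV]
    obtain ⟨Q, hQ, hr⟩ := hreg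
    rw [LR.unique hVC hQ hLR] at hr
    exact ⟨hLR, hr⟩
  · intro V hV j hj hr
    obtain ⟨k, hk⟩ := exists_max_gen hg (by rw [← hDg]; exact hD) hV
    rw [← hDg] at hk
    have hmxV : ∀ x ∈ M e, x / (y j * g k) ∈ V := by
      intro x hx
      rw [hMD] at hx
      induction hx using Submodule.mul_induction_on' with
      | mem_mul_mem a ha b hb =>
        rw [mul_div_mul_comm]
        exact V.mul_mem _ _ (max_span hV hj a ha) (hk b hb)
      | add a _ b _ ha hb => rw [add_div]; exact V.add_mem _ _ ha hb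
    have hAV : A (j, k) ≤ V.toSubring := chart_le_V hV hmxV
    obtain ⟨a, c, hc, hcV, hcT⟩ := hT.opn e V hV hr
    have hbmem : c / (y j * g k) ^ a ∈ A (j, k) := pow_div_mem (hne (j, k)) a c hc
    have hbZ : (⟨c / (y j * g k) ^ a, hbmem⟩ : A (j, k)) ∈ IB (A (j, k)) {T | Cn O T ∧ ¬ RgP P (M e) T} := by
      intro T' hT' hAT
      have h1 := (vn_iff hT'.1 (hmemM (j, k)) (hne (j, k)) (hmx (j, k) T' hAT) a c).1 (hcT T' hT')
      change T'.valuation (c / (y j * g k) ^ a) < 1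
      rw [map_div₀, map_pow]
      exact (div_lt_one₀ (pow_pos ((Valuation.pos_iff _).2 (hne (j, k))) a)).2 h1
    have hbV : ¬ V.valuation (c / (y j * g k) ^ a) < 1 := by
      rw [not_vn_iff hV (hmemM (j, k)) (hne (j, k)) hmxV] at hcV
      rw [map_div₀, map_pow, not_lt]
      exact (one_le_div₀ (pow_pos ((Valuation.pos_iff _).2 (hne (j, k))) a)).2 hcV
    have hb0 : c / (y j * g k) ^ a ≠ 0 := (inv_mem_of_not_lt hbV).1
    rw [← ht (j, k)] at hbZ
    obtain ⟨h, hh, hle⟩ := val_span hAV hbZ hb0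
    have hhV : ¬ V.valuation (h : F) < 1 := fun h1 => hbV (hle.trans_lt h1)
    obtain ⟨hh0, hhi⟩ := inv_mem_of_not_lt hhV
    refine ⟨Subring.closure ((A (j, k) : Set F) ∪ {(h : F)⁻¹}), ?_, adj_le hAV hhi,
      (hch (j, k)).trans fun z hz => Subring.subset_closure (Or.inl hz)⟩
    refine Finset.mem_biUnion.2 ⟨(j, k), Finset.mem_univ _, Finset.mem_image.2 ⟨h, Finset.mem_filter.2 ⟨hh, ?_⟩, rfl⟩⟩
    rintro rfl
    exact hh0 rfl

end family

end Pool.Agent.Run7.h275.RB
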