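import Pool.Agent.Run7.h275.RB23
import Pool.Agent.Run7.h275.RB22
import Pool.Agent.Run7.h216.RB.Pts

/-!
# The family of charts with normal crossings, and the lifting of arcs
-/

set_option autoImplicit false
set_option linter.unusedVariables false
set_option linter.unusedSectionVars false

namespace Pool.Agent.Run7.h275.RB

open IsLocalRing Pool.Agent.W418.LU2 Pool.Agent.H918R2.Quad Pool.Agent.Run7.h275.RL

section nc

variable {F : Type} [Field F]

/-- The zero set of `f` in the spectrum of the local subring `Q` has strict normal crossings. -/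
def NCz (Q : Subring F) (f : F) : Prop :=
  ∃ (_ : IsLocalRing Q) (d : ℕ) (x : Fin d → Q) (J : Finset (Fin d)),
    Ideal.span (Set.range x) = IsLocalRing.maximalIdeal Q ∧ ringKrullDim Q = d ∧
    ∀ (𝔭 : Ideal Q), 𝔭.IsPrime → ∀ q : Q, (q : F) = f → (q ∉ 𝔭 ↔ ∀ j ∈ J, x j ∉ 𝔭)

lemma val_mul_one {V : ValuationSubring F} {a b : F} (ha : a ∈ V) (hb : b ∈ V) (h : ¬ V.valuation (a * b) < 1) :
    ¬ V.valuation a < 1 ∧ ¬ V.valuation b < 1 := by
  have h1 := (V.valuation_le_one_iff _).2 ha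
  have h2 := (V.valuation_le_one_iff _).2 hb
  rw [map_mul] at h
  exact ⟨fun h3 => h (mul_lt_one_aux' h3 h2), fun h3 => h (mul_lt_one_aux h1 h3)⟩

lemma val_pow_one {V : ValuationSubring F} {a : F} (ha : a ∈ V) (n : ℕ) (hn : ¬ V.valuation a < 1) :
    ¬ V.valuation (a ^ n) < 1 := by
  have h1 := le_antisymm ((V.valuation_le_one_iff _).2 ha) (not_lt.1 hn)
  rw [map_pow, h1, one_pow]
  exact lt_irrefl _

/-- From the ideal of the boundary to its zero set. -/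
theorem ncz {O : Type} [CommRing O] [Algebra O F] {M₀ : Submodule O F} {f : F} {c : ℕ} (h1M : (1 : F) ∈ M₀)
    (hf0 : f ≠ 0) (hfM : f ∈ M₀ ^ c) {C₀ A₀ B₀ A₁ Q : Subring F} {f₁ : F}
    (hB₀ : B₀ = Subring.closure ((A₀ : Set F) ∪ {f⁻¹})) (hAC : A₀ ≤ C₀) (hC₀ : ∀ T : ValuationSubring F,
      Cn O T → (∀ m ∈ M₀, m ∈ T) → C₀ ≤ T.toSubring)
    (hMB : ∀ m ∈ M₀, m ∈ B₀) (hfB : f ∈ B₀) (hA₁ : A₁ ≤ Q) (hf₁ : f₁ ∈ A₁) (hf₁0 : f₁ ≠ 0)
    (hB₁ : B₀ = Subring.closure ((A₁ : Set F) ∪ {f₁⁻¹})) (hO : ∀ o : O, algebraMap O F o ∈ Q)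
    (hw : ∃ w ∈ M₀, w ≠ 0 ∧ ∀ m ∈ M₀, m / w ∈ Q)
    (h : NCr M₀ (Submodule.span O {f}) (c + 1) Q) : NCz Q f₁ := by
  classical
  obtain ⟨hreg, r, x, α, hspan, hdim, hDI⟩ := h
  refine ⟨inferInstance, r, x, Finset.univ.filter fun l => α l ≠ 0, hspan, hdim, ?_⟩
  intro 𝔭 hp q hq
  have hfMe : f ∈ M₀ ^ (c + 1) := by
    rw [pow_succ]
    have := Submodule.mul_mem_mul hfM h1M
    rwa [mul_one] at this
  -- the monomial
  have h1 : (∏ i, x i ^ α i) ∉ 𝔭 ↔ ∀ j ∈ Finset.univ.filter fun l => α l ≠ 0, x j ∉ 𝔭 := by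
    rw [← not_iff_not]
    push Not
    rw [hp.prod_mem_iff]
    constructor
    · rintro ⟨i, -, hi⟩
      have h0 : α i ≠ 0 := by
        intro h0
        rw [h0, pow_zero] at hi
        exact hp.ne_top ((Ideal.eq_top_iff_one _).2 hi)
      exact ⟨i, Finset.mem_filter.2 ⟨Finset.mem_univ _, h0⟩, hp.mem_of_pow_mem _ hi⟩
    · rintro ⟨i, hi, hx⟩
      exact ⟨i, Finset.mem_univ _, Ideal.pow_mem_of_mem _ hx _ (Nat.pos_of_ne_zero (Finset.mem_filter.1 hi).2)⟩
  rw [← h1]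
  have h2 : (∏ i, x i ^ α i) ∈ 𝔭 ↔ DI M₀ (Submodule.span O {f}) (c + 1) Q ≤ 𝔭 := by
    rw [hDI, Ideal.span_singleton_le_iff_mem]
  rw [h2]
  obtain ⟨T, hQT, hT⟩ := Pool.Agent.Run7.h216.RB.exists_centre Q 𝔭
  have hTC : Cn O T := fun o => hQT (hO o)
  constructor
  · -- `f₁` is a unit at `T`
    intro hq𝔭
    have hvq : ¬ T.valuation f₁ < 1 := by
      rw [← hq, hT]
      exact hq𝔭
    have hBT : B₀ ≤ T.toSubring := by
      rw [hB₁]
      exact adj_le (hA₁.trans hQT) (inv_mem_of_not_lt hvq).2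
    obtain ⟨w, hwM, hw0, hwQ⟩ := hw
    have hfQ : f / w ^ (c + 1) ∈ Q := by
      let Q' : Subalgebra O F := { Q with algebraMap_mem' := hO }
      have h3 : chart O M₀ w ≤ Q' := Algebra.adjoin_le (by
        rintro _ ⟨m, hm, rfl⟩
        exact hwQ m hm)
      exact h3 (pow_div_mem hw0 (c + 1) f hfMe)
    intro hle
    have h4 : (⟨f / w ^ (c + 1), hfQ⟩ : Q) ∈ 𝔭 := hle (Ideal.subset_span ⟨w, hwM, hw0, hwQ, f,
      Submodule.mem_span_singleton_self f, rfl⟩)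
    rw [← hT] at h4
    have h5 : (f / w ^ (c + 1))⁻¹ ∈ T := by
      rw [inv_div, div_eq_mul_inv]
      have hfi : f⁻¹ ∈ B₀ := by rw [hB₀]; exact Subring.subset_closure (Or.inr rfl)
      exact T.mul_mem _ _ (hBT (B₀.pow_mem (hMB w hwM) _)) (hBT hfi)
    exact not_lt_of_inv_mem (div_ne_zero hf0 (pow_ne_zero _ hw0)) h5 h4
  · intro hle
    obtain ⟨b, hb, hb𝔭⟩ := Set.not_subset.1 fun h => hle (Ideal.span_le.2 h)
    obtain ⟨w, hwM, hw0, hwQ, s, hs, hbs⟩ := hb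
    obtain ⟨o, rfl⟩ := Submodule.mem_span_singleton.1 hs
    have hbT : ¬ T.valuation (b : F) < 1 := by
      rw [hT]
      exact hb𝔭
    have hfQ : f / w ^ c ∈ Q := by
      let Q' : Subalgebra O F := { Q with algebraMap_mem' := hO }
      have h3 : chart O M₀ w ≤ Q' := Algebra.adjoin_le (by
        rintro _ ⟨m, hm, rfl⟩
        exact hwQ m hm)
      exact h3 (pow_div_mem hw0 c f hfM)
    have hwi : w⁻¹ ∈ Q := by
      have := hwQ 1 h1M
      rwa [one_div] at this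
    have e1 : (b : F) = (algebraMap O F o * (f / w ^ c)) * w⁻¹ := by
      rw [hbs, Algebra.smul_def, pow_succ]
      field_simp
    rw [e1] at hbT
    obtain ⟨h5, h6⟩ := val_mul_one (T.mul_mem _ _ (hTC o) (hQT hfQ)) (hQT hwi) hbT
    obtain ⟨-, h7⟩ := val_mul_one (hTC o) (hQT hfQ) h5
    have hwT : w ∈ T := by
      have := (inv_mem_of_not_lt h6).2
      rwa [inv_inv] at this
    have hfT : f⁻¹ ∈ T := by
      have h8 := (inv_mem_of_not_lt h7).2
      have e2 : f⁻¹ = (f / w ^ c)⁻¹ * (w⁻¹) ^ c := by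
        rw [inv_div, inv_pow, div_eq_mul_inv, mul_comm (w ^ c), mul_assoc, mul_inv_cancel₀ (pow_ne_zero _ hw0), mul_one]
      rw [e2]
      exact T.mul_mem _ _ h8 (T.pow_mem (hQT hwi) c)
    have hMT : ∀ m ∈ M₀, m ∈ T := by
      intro m hm
      have e3 : m = m / w * w := by field_simp
      rw [e3]
      exact T.mul_mem _ _ (hQT (hwQ m hm)) hwT
    have hBT : B₀ ≤ T.toSubring := by
      rw [hB₀]
      exact adj_le (hAC.trans (hC₀ T hTC hMT)) hfT
    have hf₁T : f₁⁻¹ ∈ T := hBT (by rw [hB₁]; exact Subring.subset_closure (Or.inr rfl))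
    intro hq𝔭
    rw [← hT, hq] at hq𝔭
    exact not_lt_of_inv_mem hf₁0 hf₁T hq𝔭

end nc

section core

variable {O F : Type} [CommRing O] [IsDomain O] [IsRegularRing O] [Field F] [Algebra O F]

/-- **The ring side of the main theorem.** -/
theorem COREL (hPTS : S_PTS) (hJ : J0 O) (hMnz : ∀ (n : ℕ) (y : Fin n → F) (i : Fin n), ∃ δ, δ ≠ 0 ∧ Mn O y i δ)
    {r : ℕ} (hr : 0 < r) (A : Fin r → Subring F) (hA : ∀ i, FGO O (A i)) (hAF : ∀ i, Frc (A i))
    (G₀ : Finset F) :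
    ∃ 𝓑 : Set (Subring F), (∀ B ∈ 𝓑, FGO O B ∧ Frc B ∧ (∃ i, A i ≤ B) ∧
        ∀ V : ValuationSubring F, B ≤ V.toSubring → IsRegularLocalRing (lo V.toSubring B)) ∧
      (∀ B ∈ 𝓑, ∀ C ∈ 𝓑, B ⊔ C ∈ 𝓑) ∧
      (∀ B ∈ 𝓑, ∀ C ∈ 𝓑, ∀ V : ValuationSubring F, B ≤ V.toSubring → C ≤ V.toSubring →
        lo V.toSubring B = lo V.toSubring C) ∧
      ∃ B₀ ∈ 𝓑, (∀ g ∈ G₀, g ∈ B₀) ∧
        (∀ B ∈ 𝓑, ∀ i, A i ≤ B → ∀ f ∈ A i, f ≠ 0 → B₀ = Subring.closure ((A i : Set F) ∪ {f⁻¹}) →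
          ∀ V : ValuationSubring F, B ≤ V.toSubring → NCz (lo V.toSubring B) f) ∧ (∀ i, A i ≤ B₀) ∧ (∀ i, ∃ f, Cd (A i) B₀ f ∧ B₀ = Subring.closure ((A i : Set F) ∪ {f⁻¹})) ∧
        ∃ T : ℕ → Finset (Subring F), (∀ q, ∀ B ∈ T q, B ∈ 𝓑) ∧
          ∀ (q : ℕ) (L : Type) [Field L] (R : ValuationSubring L) (i : Fin r) (π : A i →+* L), (∀ a, π a ∈ R) →
            ∀ b : A i, Cd (A i) B₀ (b : F) → OrdLe R (π b) q →
            ∃ B ∈ T q, A i ≤ B ∧ ∃ β : B →+* R, ∀ (a : A i) (h : (a : F) ∈ B), ((β ⟨a, h⟩ : R) : L) = π a := by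
  classical
  have hnoeO : IsNoetherianRing O := inferInstance
  choose m a ha1 ha0 hAa using fun i => gens1 (hA i)
  have haA : ∀ i k, a i k ∈ A i := fun i k => by rw [hAa i]; exact Algebra.subset_adjoin ⟨k, rfl⟩
  -- the coordinates
  let P := ∀ i : Fin r, Fin (m i + 1)
  let yP : P → F := fun p => ∏ i, a i (p i)
  let ε : P ≃ Fin (Fintype.card P) := Fintype.equivFin P
  set n := Fintype.card P with hn
  let y : Fin n → F := fun j => yP (ε.symm j)
  have hyε : ∀ p, y (ε p) = yP p := fun p => by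
    change yP (ε.symm (ε p)) = yP p
    rw [Equiv.symm_apply_apply]
  have hyP : ∀ p, yP p ≠ 0 := fun p => Finset.prod_ne_zero_iff.2 fun i _ => ha0 i (p i)
  have hy : ∀ j, y j ≠ 0 := fun j => hyP _
  have hn0 : 0 < n := Fintype.card_pos_iff.2 ⟨fun i => 0⟩
  set M₀ : Submodule O F := Submodule.span O (Set.range y) with hM₀
  have hyM : ∀ j, y j ∈ M₀ := fun j => Submodule.subset_span ⟨j, rfl⟩
  have hyPM : ∀ p, yP p ∈ M₀ := fun p => by rw [← hyε]; exact hyM _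
  have hMM : Md M₀ := ⟨Submodule.fg_span (Set.finite_range y), y ⟨0, hn0⟩, hyM _, hy _⟩
  have hupd : ∀ (p : P) (i : Fin r) (k : Fin (m i + 1)),
      yP (Function.update p i k) / yP p = a i k / a i (p i) := by
    intro p i k
    have h1 : yP (Function.update p i k) = a i k * ∏ i' ∈ Finset.univ.erase i, a i' (p i') := by
      change ∏ i', a i' (Function.update p i k i') = _
      rw [← Finset.mul_prod_erase _ _ (Finset.mem_univ i), Function.update_self]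
      congr 1
      refine Finset.prod_congr rfl fun i' hi' => ?_
      rw [Function.update_of_ne (Finset.ne_of_mem_erase hi')]
    have h2 : yP p = a i (p i) * ∏ i' ∈ Finset.univ.erase i, a i' (p i') :=
      (Finset.mul_prod_erase Finset.univ (fun i' => a i' (p i')) (Finset.mem_univ i)).symm
    have h3 : ∏ i' ∈ Finset.univ.erase i, a i' (p i') ≠ 0 := Finset.prod_ne_zero_iff.2 fun i' _ => ha0 _ _
    rw [h1, h2, mul_div_mul_right _ _ h3]
  have hOch : ∀ j (o : O), algebraMap O F o ∈ (chart O M₀ (y j)).toSubring := fun j o => Subalgebra.algebraMap_mem _ o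
  -- the chart at a point of `A i`
  have hchA : ∀ (i : Fin r) (p : P), p i = 0 → A i ≤ (chart O M₀ (y (ε p))).toSubring := by
    intro i p hp
    rw [hAa i]
    refine (Algebra.adjoin_le ?_ : _ ≤ chart O M₀ (y (ε p)))
    rintro _ ⟨k, rfl⟩
    refine Algebra.subset_adjoin ⟨yP (Function.update p i k), hyPM _, ?_⟩
    rw [hyε, hupd, hp, ha1, div_one]
  have hmaxA : ∀ (V : ValuationSubring F), Cn O V → ∀ i, A i ≤ V.toSubring →
      ∃ j, (∀ j', y j' / y j ∈ V) ∧ A i ≤ (chart O M₀ (y j)).toSubring := by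
    intro V hV i hiV
    have h1 : ∀ i', ∃ k : Fin (m i' + 1), ∀ k', a i' k' / a i' k ∈ V := by
      intro i'
      obtain ⟨k, hk⟩ := Finite.exists_max fun k => V.valuation (a i' k)
      exact ⟨k, fun k' => div_of_val_le (ha0 i' k) (hk k')⟩
    choose κ hκ using h1
    let p : P := Function.update κ i 0
    have hpi : p i = 0 := Function.update_self i 0 κ
    have hp : ∀ i' k', a i' k' / a i' (p i') ∈ V := by
      intro i' k'
      by_cases hi : i' = i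
      · subst hi
        rw [hpi, ha1, div_one]
        exact hiV (haA _ _)
      · have : p i' = κ i' := Function.update_of_ne hi 0 κ
        rw [this]
        exact hκ i' k'
    refine ⟨ε p, fun j' => ?_, hchA i p hpi⟩
    rw [hyε]
    change (∏ i', a i' (ε.symm j' i')) / ∏ i', a i' (p i') ∈ V
    rw [← Finset.prod_div_distrib]
    exact prod_mem fun i' _ => hp i' _
  -- the zero index
  let p₀ : P := fun i => 0
  have hy0 : y (ε p₀) = 1 := by
    rw [hyε]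
    exact Finset.prod_eq_one fun i _ => ha1 i
  let i₀ : Fin r := ⟨0, hr⟩
  have hF : ∀ j, Frc (chart O M₀ (y j)).toSubring := by
    intro j
    refine (hAF i₀).of_le ?_
    have hO : ∀ o : O, algebraMap O F o ∈ FrS (chart O M₀ (y j)).toSubring := fun o =>
      ⟨_, hOch j o, 1, Subring.one_mem _, one_ne_zero, by rw [div_one]⟩
    let S : Subalgebra O F := { FrS (chart O M₀ (y j)).toSubring with algebraMap_mem' := hO }
    have h1 : Algebra.adjoin O (Set.range (a i₀)) ≤ S := Algebra.adjoin_le (by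
      rintro _ ⟨k, rfl⟩
      refine ⟨yP (Function.update p₀ i₀ k) / y j, Algebra.subset_adjoin ⟨_, hyPM _, rfl⟩, yP p₀ / y j,
        Algebra.subset_adjoin ⟨_, hyPM _, rfl⟩, div_ne_zero (hyP _) (hy j), ?_⟩
      rw [div_div_div_cancel_right₀ (hy j), hupd]
      change a i₀ k = a i₀ k / a i₀ 0
      rw [ha1, div_one])
    rw [hAa i₀]
    exact h1
  -- the tower
  choose δ hδ0 hδ using fun j => hMnz n y j
  -- the open set
  let G : Finset F := ((Finset.univ.biUnion fun i => (Finset.univ.image fun k => a i k) ∪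
    Finset.univ.image fun k => (a i k)⁻¹) ∪ Finset.univ.image fun j => (δ j)⁻¹) ∪ G₀
  obtain ⟨B₀, hGB, hAB, hFB₀, hcl⟩ := common_open hr hA hAF G
  obtain ⟨f, hfA, hf0, hB₀⟩ := hcl i₀
  have haB : ∀ i k, a i k ∈ B₀ := fun i k => hGB _ (Finset.mem_union_left _ (Finset.mem_union_left _ (Finset.mem_biUnion.2
    ⟨i, Finset.mem_univ _, Finset.mem_union_left _ (Finset.mem_image_of_mem _ (Finset.mem_univ _))⟩)))
  have haiB : ∀ i k, (a i k)⁻¹ ∈ B₀ := fun i k => hGB _ (Finset.mem_union_left _ (Finset.mem_union_left _ (Finset.mem_biUnion.2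
    ⟨i, Finset.mem_univ _, Finset.mem_union_right _ (Finset.mem_image_of_mem _ (Finset.mem_univ _))⟩)))
  have hδB : ∀ j, (δ j)⁻¹ ∈ B₀ := fun j => hGB _ (Finset.mem_union_left _ (Finset.mem_union_right _ (Finset.mem_image_of_mem _
    (Finset.mem_univ _))))
  have hOB : ∀ o : O, algebraMap O F o ∈ B₀ := fun o => hFB₀.base o
  have hyB : ∀ p, yP p ∈ B₀ := fun p => prod_mem fun i _ => haB i _
  have hyiB : ∀ p, (yP p)⁻¹ ∈ B₀ := fun p => by
    change (∏ i, a i (p i))⁻¹ ∈ B₀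
    rw [← Finset.prod_inv_distrib]
    exact prod_mem fun i _ => haiB i _
  -- the boundary
  have hC₀A : A i₀ ≤ (chart O M₀ (y (ε p₀))).toSubring := hchA i₀ p₀ rfl
  have h1M : (1 : F) ∈ M₀ := by rw [← hy0]; exact hyM _
  obtain ⟨c₀, hc₀⟩ := chart_pow_mem (hyM (ε p₀)) (hy _) (hC₀A hfA)
  have hfM : f ∈ M₀ ^ c₀ := by
    have := hc₀ c₀ le_rfl
    rwa [hy0, one_pow, mul_one] at this
  set N₀ : Submodule O F := Submodule.span O {f} with hN₀
  have hfMe : f ∈ M₀ ^ (c₀ + 1) := by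
    rw [pow_succ]
    have := Submodule.mul_mem_mul hfM h1M
    rwa [mul_one] at this
  have hN : N₀ ≤ M₀ ^ (c₀ + 1) := by
    rw [hN₀, Submodule.span_singleton_le_iff_mem]
    exact hfMe
  obtain ⟨M, hT, hM0, hMD, hMreg⟩ := t_TOWL (F := F) hJ hy hn0 hN
  have hfiB : f⁻¹ ∈ B₀ := by rw [hB₀]; exact Subring.subset_closure (Or.inr rfl)
  have hfB : f ∈ B₀ := hAB i₀ hfA
  have hMB : ∀ m ∈ M₀, m ∈ B₀ := by
    intro x hx
    induction hx using Submodule.span_induction with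
    | mem x hx => obtain ⟨j, rfl⟩ := hx; exact hyB _
    | zero => exact B₀.zero_mem
    | add x z _ _ hx hz => exact B₀.add_mem hx hz
    | smul c x _ hx =>
      rw [Algebra.smul_def]
      exact B₀.mul_mem (hOB c) hx
  have hB₀s : B₀ ∈ BsP (NCr M₀ N₀ (c₀ + 1)) M := by
    refine ⟨hFB₀, (hAF i₀).mono (hAB i₀), 0, ?_⟩
    intro V hV
    have hVC : Cn O V := hFB₀.cn hV
    have hyV : ∀ j j', y j' / y j ∈ V := fun j j' => by
      rw [div_eq_mul_inv]
      exact V.mul_mem _ _ (hV (hyB _)) (hV (hyiB _))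
    have hreg : RgP (NCr M₀ N₀ (c₀ + 1)) (M 0) V := hMreg 0 V hVC (ε p₀)
      (δ (ε p₀) * (f / y (ε p₀) ^ (c₀ + 1))) ⟨hyV _, δ (ε p₀), hδ _, f, Submodule.mem_span_singleton_self f, rfl⟩
      (OrdLe.of_unit (not_lt_of_inv_mem (mul_ne_zero (hδ0 _) (div_ne_zero hf0 (pow_ne_zero _ (hy _)))) (by
        rw [mul_inv, inv_div, div_eq_mul_inv]
        exact V.mul_mem _ _ (hV (hδB _)) (V.mul_mem _ _ (hV (B₀.pow_mem (hyB _) _)) (hV hfiB)))) 0)
    have hchB : (chart O M₀ (y (ε p₀))).toSubring ≤ B₀ := by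
      let S : Subalgebra O F := { B₀ with algebraMap_mem' := hOB }
      have h1 : chart O M₀ (y (ε p₀)) ≤ S := Algebra.adjoin_le (by
        rintro _ ⟨x, hx, rfl⟩
        rw [hy0, div_one]
        exact hMB x hx)
      exact h1
    have hlo : lo V.toSubring (chart O M₀ (y (ε p₀))).toSubring = lo V.toSubring B₀ := by
      apply le_antisymm (lo_mono hchB)
      have hfV : f⁻¹ ∈ V := hV hfiB
      rw [hB₀, lo_adj ((hAB i₀).trans hV) hfA hf0 hfV]
      exact lo_mono hC₀A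
    have hLR : LR V (M 0) (lo V.toSubring B₀) := by
      rw [hM0, ← hlo]
      exact ⟨_, hyM _, hy _, max_span hVC (hyV _), rfl⟩
    obtain ⟨Q, hQ, hr⟩ := hreg
    rw [LR.unique hVC hQ hLR] at hr
    exact ⟨hLR, hr⟩
  -- normal crossings
  have hNC : ∀ B ∈ BsP (NCr M₀ N₀ (c₀ + 1)) M, ∀ i, A i ≤ B → ∀ f' ∈ A i, f' ≠ 0 →
      B₀ = Subring.closure ((A i : Set F) ∪ {f'⁻¹}) →
      ∀ V : ValuationSubring F, B ≤ V.toSubring → NCz (lo V.toSubring B) f' := by
    intro B hB i hi f' hf' hf'0 hB₀' V hV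
    have hVC : Cn O V := hB.1.cn hV
    obtain ⟨e, he⟩ := hB.2.2
    obtain ⟨hLR, hnc⟩ := he V hV
    obtain ⟨D, hD, hMDe⟩ := hMD e
    obtain ⟨w₀, h1, h2, h3⟩ := exists_wmax hMM hVC
    obtain ⟨d₀, h4, h5, h6⟩ := exists_wmax hD hVC
    have hmx : ∀ m ∈ M e, m / (w₀ * d₀) ∈ V := by
      intro m hm
      rw [hMDe] at hm
      induction hm using Submodule.mul_induction_on' with
      | mem_mul_mem a ha b hb =>
        rw [mul_div_mul_comm]
        exact V.mul_mem _ _ (h3 a ha) (h6 b hb)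
      | add a _ b _ ha hb => rw [add_div]; exact V.add_mem _ _ ha hb
    have hLR' : LR V (M e) (lo V.toSubring (chart O (M e) (w₀ * d₀)).toSubring) :=
      ⟨w₀ * d₀, by rw [hMDe]; exact Submodule.mul_mem_mul h1 h4, mul_ne_zero h2 h5, hmx, rfl⟩
    refine ncz (C₀ := (chart O M₀ (y (ε p₀))).toSubring) (A₁ := A i) h1M hf0 hfM hB₀ hC₀A ?_ hMB hfB
      (hi.trans (le_lo _ _)) hf' hf'0 hB₀' (fun o => le_lo _ _ (hB.1.base o)) ?_ hnc
    · intro T hTC hMT
      refine chart_le_V hTC fun m hm => ?_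
      rw [hy0, div_one]
      exact hMT m hm
    · refine ⟨w₀, h1, h2, fun m hm => ?_⟩
      rw [LR.unique hVC hLR hLR']
      refine le_lo _ _ (Algebra.subset_adjoin ⟨m * d₀, by rw [hMDe]; exact Submodule.mul_mem_mul hm h4, ?_⟩)
      rw [mul_div_mul_right _ _ h5]
  -- the bound
  have hbound : ∀ i j, ∃ N : ℕ, A i ≤ (chart O M₀ (y j)).toSubring → ∀ V : ValuationSubring F,
      (chart O M₀ (y j)).toSubring ≤ V.toSubring → ∀ b, Cd (A i) B₀ b → V.valuation b ^ N ≤ V.valuation (δ j * (f / y j ^ (c₀ + 1))) := by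
    intro i j
    by_cases hij : A i ≤ (chart O M₀ (y j)).toSubring
    swap
    · exact ⟨0, fun h => absurd h hij⟩
    set C : Subring F := (chart O M₀ (y j)).toSubring with hC
    have hnoe : IsNoetherianRing C := (fgo_chart hMM.1 (y j)).noeth
    have hδC : δ j * (f / y j ^ (c₀ + 1)) ∈ C := by
      have := (hδ j).mem
      rw [ph_range] at this
      exact C.mul_mem this (pow_div_mem (hy j) (c₀ + 1) f hfMe)
    let J : Ideal C := Ideal.span {b | Cd (A i) B₀ (b : F)}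
    obtain ⟨N, hN⟩ := Pool.Agent.Run7.h216.RB.t_NUL F C J (Ideal.span {(⟨δ j * (f / y j ^ (c₀ + 1)), hδC⟩ : C)}) (by
      intro V hCV hc b hb
      by_contra hcon
      obtain ⟨hb0, -⟩ := inv_mem_of_not_lt hcon
      obtain ⟨d, hd, hle⟩ := val_span hCV hb hb0
      obtain ⟨hd0, hdi⟩ := inv_mem_of_not_lt fun h => hcon (hle.trans_lt h)
      have h1 : B₀ ≤ V.toSubring := hd.2.2.trans (adj_le (hij.trans hCV) hdi)
      exact not_lt_of_inv_mem (mul_ne_zero (hδ0 j) (div_ne_zero hf0 (pow_ne_zero _ (hy j)))) (by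
        rw [mul_inv, inv_div, div_eq_mul_inv]
        exact V.mul_mem _ _ (h1 (hδB _)) (V.mul_mem _ _ (h1 (B₀.pow_mem (hyB _) _)) (h1 hfiB)))
        (hc _ (Ideal.subset_span rfl)))
    refine ⟨N, fun _ V hCV b hb => ?_⟩
    have h1 : (⟨b, hij hb.1⟩ : C) ∈ J := Ideal.subset_span hb
    have h2 := hN (Ideal.pow_mem_pow h1 N)
    obtain ⟨c, hc⟩ := Ideal.mem_span_singleton'.1 h2
    have h3 : (c : F) * (δ j * (f / y j ^ (c₀ + 1))) = b ^ N := congrArg Subtype.val hc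
    rw [← map_pow, ← h3, map_mul]
    exact mul_le_of_le_one_left' ((V.valuation_le_one_iff _).2 (hCV c.2))
  choose N hN using hbound
  let eq : ℕ → ℕ := fun q => ∑ i, ∑ j, N i j * (q + 1)
  have heq : ∀ q i j, N i j * (q + 1) ≤ eq q := by
    intro q i j
    calc N i j * (q + 1) ≤ ∑ j, N i j * (q + 1) :=
          Finset.single_le_sum (f := fun j => N i j * (q + 1)) (fun _ _ => Nat.zero_le _) (Finset.mem_univ j)
      _ ≤ eq q := Finset.single_le_sum (f := fun i => ∑ j, N i j * (q + 1)) (fun _ _ => Nat.zero_le _)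
          (Finset.mem_univ i)
  choose T hTB hTV using fun e => reachP (O := O) hy hn0 hF hT hMD e
  refine ⟨{B | B ∈ BsP (NCr M₀ N₀ (c₀ + 1)) M ∧ ∃ i, A i ≤ B}, ?_, ?_, ?_, B₀, ⟨hB₀s, i₀, hAB i₀⟩,
    fun g hg => hGB g (Finset.mem_union_right _ hg), fun B hB => hNC B hB.1, hAB, ?_,
    fun q => (T (eq q)).filter fun B => ∃ i, A i ≤ B, ?_, ?_⟩
  · rintro B ⟨hB, hi⟩
    obtain ⟨h1, h2, e, h3⟩ := hB
    exact ⟨h1, h2, hi, fun V hV => (h3 V hV).2.choose⟩
  · rintro B ⟨hB, i, hi⟩ C ⟨hC, -⟩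
    exact ⟨BsP.sup hT hB hC, i, hi.trans le_sup_left⟩
  · rintro B ⟨hB, -⟩ C ⟨hC, -⟩ V hBV hCV
    exact BsP.loc hT hB hC hBV hCV
  · intro i
    obtain ⟨f, hf, hf0, hfB⟩ := hcl i
    exact ⟨f, ⟨hf, hf0, hfB.le⟩, hfB⟩
  · intro q B hB
    obtain ⟨h1, h2⟩ := Finset.mem_filter.1 hB
    exact ⟨hTB _ B h1, h2⟩
  · intro q L _ R i π hπ b hb hord
    have hπb : π b ≠ 0 := hord.ne
    have hloA : ∀ V : ValuationSubring F, A i ≤ V.toSubring → ¬ V.valuation (b : F) < 1 →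
        B₀ ≤ V.toSubring ∧ lo V.toSubring (A i) = lo V.toSubring B₀ := by
      intro V hV hbV
      obtain ⟨hb0, hbi⟩ := inv_mem_of_not_lt hbV
      refine ⟨hb.2.2.trans (adj_le hV hbi), le_antisymm (lo_mono (hAB i)) ?_⟩
      rw [← lo_adj hV b.2 hb0 hbi]
      exact lo_mono hb.2.2
    obtain ⟨W, V, hVW, hAV, hW, hordV, hβ⟩ := hPTS F L (A i) (hAF i) π R hπ (by
      intro V₀ hV₀ hc
      obtain ⟨h1, h2⟩ := hloA V₀ hV₀ fun h => hπb ((hc b).1 h)
      obtain ⟨-, -, e, h3⟩ := hB₀s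
      rw [h2]
      exact (h3 V₀ h1).2.choose)
    have hVC : Cn O V := (hA i).cn hAV
    obtain ⟨j, hj, hAj⟩ := hmaxA V hVC i hAV
    have hCV : (chart O M₀ (y j)).toSubring ≤ V.toSubring := chart_le_V hVC (max_span hVC hj)
    have hordδ : OrdLe V (δ j * (f / y j ^ (c₀ + 1))) (eq q) := by
      refine OrdLe.le (((hordV b q hord).pow (N i j)).mono (heq q i j)) ?_
      rw [map_pow]
      exact hN i j hAj V hCV b hb
    have hreg : RgP (NCr M₀ N₀ (c₀ + 1)) (M (eq q)) V := hMreg (eq q) V hVC j _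
      ⟨hj, δ j, hδ j, f, Submodule.mem_span_singleton_self f, rfl⟩ hordδ
    obtain ⟨B, hB, hBV, hjB⟩ := hTV (eq q) V hVC j hj hreg
    have hAB' : A i ≤ B := hAj.trans hjB
    obtain ⟨hWB, hloW⟩ := hloA W (hAV.trans hVW) fun h => hπb ((hW b).1 h)
    obtain ⟨β, -, hβ2⟩ := hβ (lo V.toSubring B) (lo_le hBV) (ic_lo hBV) (by
      rw [hloW, BsP.loc hT hB₀s (hTB _ B hB) hWB (hBV.trans hVW)]
      exact lo_mono_V hVW B)
    refine ⟨B, Finset.mem_filter.2 ⟨hB, i, hAB'⟩, hAB', β.comp (Subring.inclusion (le_lo _ _)), ?_⟩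
    intro a' h
    exact hβ2 a' (le_lo _ _ h)

end core

end Pool.Agent.Run7.h275.RB
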