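import Pool.Agent.Run7.h275.RB24

/-!
# Projective schemes which are regular where `N` is invertible
-/

set_option autoImplicit false
set_option linter.unusedVariables false
set_option linter.unusedSectionVars false

namespace Pool.Agent.Run7.h275.RB

open IsLocalRing Pool.Agent.W418.LU2 Pool.Agent.H918R2.Quad Pool.Agent.Run7.h275.RL

section

variable {O F : Type} [CommRing O] [Field F] [Algebra O F]

/-- From the ideal of the boundary to its zero set, the case of one function. -/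
theorem ncz0 {M₀ : Submodule O F} {s : F} {Q : Subring F} (hO : ∀ o : O, algebraMap O F o ∈ Q)
    (hw : ∃ w ∈ M₀, w ≠ 0 ∧ ∀ m ∈ M₀, m / w ∈ Q)
    (h : NCr M₀ (Submodule.span O {s}) 0 Q) : NCz Q s := by
  classical
  obtain ⟨hreg, r, x, α, hspan, hdim, hDI⟩ := h
  refine ⟨inferInstance, r, x, Finset.univ.filter fun l => α l ≠ 0, hspan, hdim, ?_⟩
  intro 𝔭 hp q hq
  have h1 : (∏ i, x i ^ α i) ∉ 𝔭 ↔ ∀ j ∈ Finset.univ.filter fun l => α l ≠ 0, x j ∉ 𝔭 := by
    rw [← not_iff_not]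
    push Not
    rw [hp.prod_mem_iff]
    constructor
    · rintro ⟨i, -, hi⟩
      have h0 : α i ≠ 0 := by
        intro h0
        rw [h0, pow_zero] at hi
        exact hp.ne_top ((Ideal.eq_top_iff_one _).2 hi)
      exact ⟨i, Finset.mem_filter.2 ⟨Finset.mem_univ _, h0⟩, hp.mem_of_pow_mem _ hi⟩
    · rintro ⟨i, hi, hx⟩
      exact ⟨i, Finset.mem_univ _, Ideal.pow_mem_of_mem _ hx _ (Nat.pos_of_ne_zero (Finset.mem_filter.1 hi).2)⟩
  rw [← h1]
  have h2 : (∏ i, x i ^ α i) ∈ 𝔭 ↔ DI M₀ (Submodule.span O {s}) 0 Q ≤ 𝔭 := by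
    rw [hDI, Ideal.span_singleton_le_iff_mem]
  rw [h2, not_iff_not]
  obtain ⟨w, hwM, hw0, hwQ⟩ := hw
  constructor
  · intro hq𝔭
    refine Ideal.span_le.2 ?_
    rintro b ⟨w', -, -, -, t, ht, hb⟩
    obtain ⟨o, rfl⟩ := Submodule.mem_span_singleton.1 ht
    have h3 : b = (⟨algebraMap O F o, hO o⟩ : Q) * q := by
      apply Subtype.ext
      rw [hb, pow_zero, div_one, Algebra.smul_def, ← hq]
      rfl
    rw [h3]
    exact Ideal.mul_mem_left _ _ hq𝔭
  · intro hle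
    refine hle (Ideal.subset_span ⟨w, hwM, hw0, hwQ, s, Submodule.mem_span_singleton_self s, ?_⟩)
    rw [hq, pow_zero, div_one]

end

section core

variable {O F : Type} [CommRing O] [IsDomain O] [IsRegularRing O] [Field F] [Algebra O F]

/-- **The ring side of the theorem on models of regular projective schemes.** -/
theorem CORE3 (hPTS : S_PTS) (hJ : J0 O) {n : ℕ} (hn : 0 < n) (y : Fin n → F) (hy : ∀ i, y i ≠ 0)
    (hF : ∀ i, Frc (chart O (Submodule.span O (Set.range y)) (y i)).toSubring) (N : ℕ) (hN0 : (N : F) ≠ 0)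
    (hN : ∀ (i : Fin n) (V : ValuationSubring F), Cn O V → (∀ j, y j / y i ∈ V) →
      ∃ δ, Mn O y i δ ∧ V.valuation (N : F) ≤ V.valuation δ) :
    ∃ 𝓑 : Set (Subring F), (∀ B ∈ 𝓑, FGO O B ∧ Frc B ∧
        (∀ V : ValuationSubring F, B ≤ V.toSubring → IsRegularLocalRing (lo V.toSubring B)) ∧
        ∀ V : ValuationSubring F, B ≤ V.toSubring → NCz (lo V.toSubring B) (N : F)) ∧
      (∀ B ∈ 𝓑, ∀ C ∈ 𝓑, B ⊔ C ∈ 𝓑) ∧
      (∀ B ∈ 𝓑, ∀ C ∈ 𝓑, ∀ V : ValuationSubring F, B ≤ V.toSubring → C ≤ V.toSubring →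
        lo V.toSubring B = lo V.toSubring C) ∧
      (∀ i, Subring.closure (((chart O (Submodule.span O (Set.range y)) (y i)).toSubring : Set F) ∪ {(N : F)⁻¹}) ∈ 𝓑) ∧
      ∃ T : ℕ → Finset (Subring F), (∀ q, ∀ B ∈ T q, B ∈ 𝓑) ∧
        ∀ (q : ℕ) (L : Type) [Field L] (R : ValuationSubring L) (i : Fin n)
          (π : (chart O (Submodule.span O (Set.range y)) (y i)).toSubring →+* L), (∀ a, π a ∈ R) →
          OrdLe R (N : L) q →
          ∃ B ∈ T q, (chart O (Submodule.span O (Set.range y)) (y i)).toSubring ≤ B ∧ ∃ β : B →+* R,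
            ∀ (a : (chart O (Submodule.span O (Set.range y)) (y i)).toSubring) (h : (a : F) ∈ B),
              ((β ⟨a, h⟩ : R) : L) = π a := by
  classical
  have hnoeO : IsNoetherianRing O := inferInstance
  set M₀ : Submodule O F := Submodule.span O (Set.range y) with hM₀
  have hyM : ∀ j, y j ∈ M₀ := fun j => Submodule.subset_span ⟨j, rfl⟩
  have hMM : Md M₀ := ⟨Submodule.fg_span (Set.finite_range y), y ⟨0, hn⟩, hyM _, hy _⟩
  set N₀ : Submodule O F := Submodule.span O {(N : F)} with hN₀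
  have hNO : (N : F) = algebraMap O F (N : O) := (map_natCast _ _).symm
  have hN₀le : N₀ ≤ M₀ ^ 0 := by
    rw [pow_zero, hN₀, Submodule.span_singleton_le_iff_mem, hNO]
    exact Submodule.mem_one.2 ⟨_, rfl⟩
  obtain ⟨M, hT, hM0, hMD, hMreg⟩ := t_TOWL (F := F) hJ hy hn hN₀le
  have hNch : ∀ i, (N : F) ∈ (chart O M₀ (y i)).toSubring := fun i => by
    rw [hNO]; exact Subalgebra.algebraMap_mem _ _
  have hmaxi : ∀ V : ValuationSubring F, Cn O V → ∃ i, ∀ j, y j / y i ∈ V := by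
    intro V hV
    obtain ⟨i, hi⟩ := exists_max_gen hy hMM hV
    exact ⟨i, fun j => hi _ (hyM j)⟩
  have hreg : ∀ (e : ℕ) (V : ValuationSubring F), Cn O V → OrdLe V ((N : F) ^ 2) e → ∀ i, (∀ j, y j / y i ∈ V) →
      RgP (NCr M₀ N₀ 0) (M e) V := by
    intro e V hV hord i hi
    obtain ⟨δ, hδ, hle⟩ := hN i V hV hi
    refine hMreg e V hV i (δ * ((N : F) / y i ^ 0)) ⟨hi, δ, hδ, (N : F), Submodule.mem_span_singleton_self _, rfl⟩
      (OrdLe.le hord ?_)
    rw [pow_zero, div_one, pow_two, map_mul, map_mul]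
    exact mul_le_mul_left hle _
  -- the charts of the generic fibre
  have hCi : ∀ i, Subring.closure (((chart O M₀ (y i)).toSubring : Set F) ∪ {(N : F)⁻¹}) ∈
      BsP (NCr M₀ N₀ 0) M := by
    intro i
    refine ⟨(fgo_chart hMM.1 _).adj _, (hF i).mono fun z hz => Subring.subset_closure (Or.inl hz), 0, ?_⟩
    intro V hV
    have hchV : (chart O M₀ (y i)).toSubring ≤ V.toSubring := fun z hz => hV (Subring.subset_closure (Or.inl hz))
    have hNi : (N : F)⁻¹ ∈ V := hV (Subring.subset_closure (Or.inr rfl))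
    have hVC : Cn O V := fun o => hchV (Subalgebra.algebraMap_mem _ o)
    have hi : ∀ j, y j / y i ∈ V := fun j => hchV (Algebra.subset_adjoin ⟨y j, hyM j, rfl⟩)
    have h1 : RgP (NCr M₀ N₀ 0) (M 0) V := hreg 0 V hVC (OrdLe.of_unit (not_lt_of_inv_mem (pow_ne_zero _ hN0) (by
      rw [← inv_pow]
      exact V.pow_mem hNi 2)) 0) i hi
    rw [lo_adj hchV (hNch i) hN0 hNi]
    have hLR : LR V (M 0) (lo V.toSubring (chart O M₀ (y i)).toSubring) := by
      rw [hM0]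
      exact ⟨_, hyM _, hy _, max_span hVC hi, rfl⟩
    obtain ⟨Q, hQ, hr⟩ := h1
    rw [LR.unique hVC hQ hLR] at hr
    exact ⟨hLR, hr⟩
  have hNC : ∀ B ∈ BsP (NCr M₀ N₀ 0) M, ∀ V : ValuationSubring F, B ≤ V.toSubring → NCz (lo V.toSubring B) (N : F) := by
    intro B hB V hV
    have hVC : Cn O V := hB.1.cn hV
    obtain ⟨e, he⟩ := hB.2.2
    obtain ⟨hLR, hnc⟩ := he V hV
    obtain ⟨D, hD, hMDe⟩ := hMD e
    obtain ⟨w₀, h1, h2, h3⟩ := exists_wmax hMM hVC
    obtain ⟨d₀, h4, h5, h6⟩ := exists_wmax hD hVC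
    have hmx : ∀ m ∈ M e, m / (w₀ * d₀) ∈ V := by
      intro m hm
      rw [hMDe] at hm
      induction hm using Submodule.mul_induction_on' with
      | mem_mul_mem a ha b hb =>
        rw [mul_div_mul_comm]
        exact V.mul_mem _ _ (h3 a ha) (h6 b hb)
      | add a _ b _ ha hb => rw [add_div]; exact V.add_mem _ _ ha hb
    have hLR' : LR V (M e) (lo V.toSubring (chart O (M e) (w₀ * d₀)).toSubring) :=
      ⟨w₀ * d₀, by rw [hMDe]; exact Submodule.mul_mem_mul h1 h4, mul_ne_zero h2 h5, hmx, rfl⟩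
    refine ncz0 (fun o => le_lo _ _ (hB.1.base o)) ⟨w₀, h1, h2, fun m hm => ?_⟩ hnc
    rw [LR.unique hVC hLR hLR']
    refine le_lo _ _ (Algebra.subset_adjoin ⟨m * d₀, by rw [hMDe]; exact Submodule.mul_mem_mul hm h4, ?_⟩)
    rw [mul_div_mul_right _ _ h5]
  choose T hTB hTV using fun e => reachP (O := O) hy hn hF hT hMD e
  refine ⟨BsP (NCr M₀ N₀ 0) M, ?_, fun B hB C hC => BsP.sup hT hB hC,
    fun B hB C hC V hBV hCV => BsP.loc hT hB hC hBV hCV, hCi, fun q => T (2 * (q + 1)), fun q => hTB _, ?_⟩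
  · intro B hB
    obtain ⟨h1, h2, e, h3⟩ := id hB
    exact ⟨h1, h2, fun V hV => (h3 V hV).2.choose, hNC B hB⟩
  · intro q L _ R i π hπ hord
    let A : Subring F := (chart O M₀ (y i)).toSubring
    have hπN : π ⟨(N : F), hNch i⟩ = (N : L) := by
      have : (⟨(N : F), hNch i⟩ : A) = (N : A) := Subtype.ext (by rw [Subring.coe_natCast])
      rw [this, map_natCast]
    have hπ0 : π ⟨(N : F), hNch i⟩ ≠ 0 := by rw [hπN]; exact hord.ne
    have hloA : ∀ V : ValuationSubring F, A ≤ V.toSubring → ¬ V.valuation (N : F) < 1 →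
        Subring.closure ((A : Set F) ∪ {(N : F)⁻¹}) ≤ V.toSubring ∧
          lo V.toSubring A = lo V.toSubring (Subring.closure ((A : Set F) ∪ {(N : F)⁻¹})) := by
      intro V hV hbV
      obtain ⟨hb0, hbi⟩ := inv_mem_of_not_lt hbV
      exact ⟨adj_le hV hbi, (lo_adj hV (hNch i) hb0 hbi).symm⟩
    obtain ⟨W, V, hVW, hAV, hW, hordV, hβ⟩ := hPTS F L A (hF i) π R hπ (by
      intro V₀ hV₀ hc
      obtain ⟨h1, h2⟩ := hloA V₀ hV₀ fun h => hπ0 ((hc ⟨(N : F), hNch i⟩).1 h)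
      obtain ⟨-, -, e, h3⟩ := hCi i
      rw [h2]
      exact (h3 V₀ h1).2.choose)
    have hVC : Cn O V := fun o => hAV (Subalgebra.algebraMap_mem (chart O M₀ (y i)) o)
    have hi : ∀ j, y j / y i ∈ V := fun j => hAV (Algebra.subset_adjoin ⟨y j, hyM j, rfl⟩)
    have hordN : OrdLe V ((N : F) ^ 2) (2 * (q + 1)) :=
      (hordV ⟨(N : F), hNch i⟩ q (by rw [hπN]; exact hord)).pow 2
    obtain ⟨B, hB, hBV, hAB⟩ := hTV _ V hVC i hi (hreg _ V hVC hordN i hi)
    obtain ⟨hWB, hloW⟩ := hloA W (hAV.trans hVW) fun h => hπ0 ((hW ⟨(N : F), hNch i⟩).1 h)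
    obtain ⟨β, -, hβ2⟩ := hβ (lo V.toSubring B) (lo_le hBV) (ic_lo hBV) (by
      rw [hloW, BsP.loc hT (hCi i) (hTB _ B hB) hWB (hBV.trans hVW)]
      exact lo_mono_V hVW B)
    refine ⟨B, hB, hAB, β.comp (Subring.inclusion (le_lo _ _)), ?_⟩
    intro a' h
    exact hβ2 a' (le_lo _ _ h)

end core

end Pool.Agent.Run7.h275.RB
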