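import Pool.Agent.Run7.h275.RB26

/-!
# Extension of points of the generic fibre
-/

set_option autoImplicit false
set_option linter.unusedVariables false
set_option linter.unusedSectionVars false

namespace Pool.Agent.Run7.h275.RB

open IsLocalRing Pool.Agent.W418.LU2 Pool.Agent.H918R2.Quad Pool.Agent.Run7.h275.RL

section

variable {O F : Type} [CommRing O] [Field F] [Algebra O F] {n : ℕ} {y : Fin n → F}

/-- The chart with `N` inverted. -/
def cN (O : Type) {F : Type} [CommRing O] [Field F] [Algebra O F] {n : ℕ} (y : Fin n → F) (N : ℕ) (i : Fin n) :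
    Subring F :=
  Subring.closure (((chart O (Submodule.span O (Set.range y)) (y i)).toSubring : Set F) ∪ {(N : F)⁻¹})

lemma ch_le_cN (N : ℕ) (i : Fin n) : (chart O (Submodule.span O (Set.range y)) (y i)).toSubring ≤ cN O y N i :=
  fun z hz => Subring.subset_closure (Or.inl hz)

lemma N_mem_ch (N : ℕ) (i : Fin n) : (N : F) ∈ (chart O (Submodule.span O (Set.range y)) (y i)).toSubring := by
  have : (N : F) = algebraMap O F (N : O) := (map_natCast _ _).symm
  rw [this]
  exact Subalgebra.algebraMap_mem _ _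

/-- Values of a chart. -/
lemma ch_values {K : Type} [Field K] (R : ValuationSubring K) {D : Subring F} (i : Fin n)
    (h : (chart O (Submodule.span O (Set.range y)) (y i)).toSubring ≤ D) (γ : D →+* K)
    (hO : ∀ (o : O) (ho : algebraMap O F o ∈ D), γ ⟨_, ho⟩ ∈ R)
    (hy : ∀ (j : Fin n) (hj : y j / y i ∈ D), γ ⟨_, hj⟩ ∈ R) :
    ∀ a : (chart O (Submodule.span O (Set.range y)) (y i)).toSubring, γ ⟨a, h a.2⟩ ∈ R := by
  have hMR : ∀ x ∈ Submodule.span O (Set.range y), ∃ h : x / y i ∈ D, γ ⟨x / y i, h⟩ ∈ R := by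
    intro x hx
    induction hx using Submodule.span_induction with
    | mem x hx =>
      obtain ⟨j, rfl⟩ := hx
      have : y j / y i ∈ D := h (Algebra.subset_adjoin ⟨y j, Submodule.subset_span ⟨j, rfl⟩, rfl⟩)
      exact ⟨this, hy j this⟩
    | zero =>
      refine ⟨by rw [zero_div]; exact D.zero_mem, ?_⟩
      have : (⟨0 / y i, by rw [zero_div]; exact D.zero_mem⟩ : D) = 0 := Subtype.ext (zero_div _)
      rw [this, map_zero]
      exact R.zero_mem
    | add x z _ _ hx hz =>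
      obtain ⟨h1, h2⟩ := hx
      obtain ⟨h3, h4⟩ := hz
      refine ⟨by rw [add_div]; exact D.add_mem h1 h3, ?_⟩
      have : (⟨(x + z) / y i, by rw [add_div]; exact D.add_mem h1 h3⟩ : D) =
          ⟨x / y i, h1⟩ + ⟨z / y i, h3⟩ := Subtype.ext (add_div _ _ _)
      rw [this, map_add]
      exact R.add_mem _ _ h2 h4
    | smul c x _ hx =>
      obtain ⟨h1, h2⟩ := hx
      have hc : algebraMap O F c ∈ D := h (Subalgebra.algebraMap_mem _ c)
      have e1 : c • x / y i = algebraMap O F c * (x / y i) := by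
        rw [Algebra.smul_def, mul_div_assoc]
      refine ⟨by rw [e1]; exact D.mul_mem hc h1, ?_⟩
      have : (⟨c • x / y i, by rw [e1]; exact D.mul_mem hc h1⟩ : D) = ⟨algebraMap O F c, hc⟩ * ⟨x / y i, h1⟩ :=
        Subtype.ext e1
      rw [this, map_mul]
      exact R.mul_mem _ _ (hO c hc) h2
  rintro ⟨a, ha⟩
  have key : ∀ a ∈ chart O (Submodule.span O (Set.range y)) (y i), ∃ h : a ∈ D, γ ⟨a, h⟩ ∈ R := by
    intro a ha
    induction ha using Algebra.adjoin_induction with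
    | mem a ha =>
      obtain ⟨x, hx, rfl⟩ := ha
      exact hMR x hx
    | algebraMap c => exact ⟨h (Subalgebra.algebraMap_mem _ c), hO c _⟩
    | add a b _ _ ha hb =>
      obtain ⟨h1, h2⟩ := ha
      obtain ⟨h3, h4⟩ := hb
      refine ⟨D.add_mem h1 h3, ?_⟩
      have : (⟨a + b, D.add_mem h1 h3⟩ : D) = ⟨a, h1⟩ + ⟨b, h3⟩ := rfl
      rw [this, map_add]
      exact R.add_mem _ _ h2 h4
    | mul a b _ _ ha hb =>
      obtain ⟨h1, h2⟩ := ha
      obtain ⟨h3, h4⟩ := hb
      refine ⟨D.mul_mem h1 h3, ?_⟩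
      have : (⟨a * b, D.mul_mem h1 h3⟩ : D) = ⟨a, h1⟩ * ⟨b, h3⟩ := rfl
      rw [this, map_mul]
      exact R.mul_mem _ _ h2 h4
  exact (key a ha).2

/-- A point of the generic fibre with values in `K` lies in a chart in which its coordinates are in `R`. -/
theorem ext_point (hy : ∀ i, y i ≠ 0) (N : ℕ) {K : Type} [Field K] (R : ValuationSubring K) (i : Fin n)
    (φ : cN O y N i →+* K) (hφ : ∀ (o : O) (h : algebraMap O F o ∈ cN O y N i), φ ⟨_, h⟩ ∈ R) :
    ∃ (l : Fin n) (π : (chart O (Submodule.span O (Set.range y)) (y l)).toSubring →+* K), (∀ a, π a ∈ R) ∧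
      ∃ γ : (cN O y N i ⊔ cN O y N l : Subring F) →+* K,
        (∀ (b : F) (hb : b ∈ cN O y N i) (h : b ∈ cN O y N i ⊔ cN O y N l), γ ⟨b, h⟩ = φ ⟨b, hb⟩) ∧
        ∀ (b : F) (hb : b ∈ (chart O (Submodule.span O (Set.range y)) (y l)).toSubring)
          (h : b ∈ cN O y N i ⊔ cN O y N l), γ ⟨b, h⟩ = π ⟨b, hb⟩ := by
  classical
  set M₀ : Submodule O F := Submodule.span O (Set.range y) with hM₀
  have hyM : ∀ j, y j ∈ M₀ := fun j => Submodule.subset_span ⟨j, rfl⟩
  have hyy : ∀ j, y j / y i ∈ cN O y N i := fun j => ch_le_cN N i (Algebra.subset_adjoin ⟨y j, hyM j, rfl⟩)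
  have hOc : ∀ o : O, algebraMap O F o ∈ cN O y N i := fun o => ch_le_cN N i (Subalgebra.algebraMap_mem _ o)
  let v : Fin n → K := fun j => φ ⟨y j / y i, hyy j⟩
  have : Nonempty (Fin n) := ⟨i⟩
  obtain ⟨l, hl⟩ := Finite.exists_max fun j => R.valuation (v j)
  have hvi : v i = 1 := by
    have : (⟨y i / y i, hyy i⟩ : cN O y N i) = 1 := Subtype.ext (div_self (hy i))
    change φ _ = 1
    rw [this, map_one]
  have hvl : v l ≠ 0 := by
    intro h0
    have h1 := hl i
    change R.valuation (v i) ≤ R.valuation (v l) at h1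
    rw [hvi, h0, map_one, map_zero] at h1
    exact absurd h1 (not_le.2 zero_lt_one)
  have hyl0 : y l / y i ≠ 0 := div_ne_zero (hy l) (hy i)
  set D : Subring F := Subring.closure ((cN O y N i : Set F) ∪ {(y l / y i)⁻¹}) with hD
  obtain ⟨γ', hγ'⟩ := lift_adj (hyy l) hyl0 φ hvl
  change D →+* K at γ'
  have hcD : cN O y N i ≤ D := fun z hz => Subring.subset_closure (Or.inl hz)
  have hinvD : (y l / y i)⁻¹ ∈ D := Subring.subset_closure (Or.inr rfl)
  have hyl : ∀ j, y j / y l = y j / y i * (y l / y i)⁻¹ := by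
    intro j
    rw [inv_div, div_mul_div_comm, mul_comm (y i) (y l), mul_div_mul_right _ _ (hy i)]
  have hylD : ∀ j, y j / y l ∈ D := fun j => by
    rw [hyl]
    exact D.mul_mem (hcD (hyy j)) hinvD
  have hchD : (chart O M₀ (y l)).toSubring ≤ D := by
    let S : Subalgebra O F := { D with algebraMap_mem' := fun o => hcD (hOc o) }
    have h1 : chart O M₀ (y l) ≤ S := Algebra.adjoin_le (by
      rintro _ ⟨x, hx, rfl⟩
      change x / y l ∈ S
      induction hx using Submodule.span_induction with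
      | mem x hx => obtain ⟨j, rfl⟩ := hx; exact hylD j
      | zero => rw [zero_div]; exact S.zero_mem
      | add x z _ _ hx hz => rw [add_div]; exact S.add_mem hx hz
      | smul c x _ hx =>
        rw [Algebra.smul_def, mul_div_assoc]
        exact S.mul_mem (hcD (hOc c)) hx)
    exact h1
  have hcl : cN O y N l ≤ D := by
    refine Subring.closure_le.2 ?_
    rintro z (hz | hz)
    · exact hchD hz
    · rw [Set.mem_singleton_iff] at hz
      rw [hz]
      exact hcD (Subring.subset_closure (Or.inr rfl))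
  have hle : cN O y N i ⊔ cN O y N l ≤ D := sup_le hcD hcl
  have hγl : ∀ (j : Fin n) (hj : y j / y l ∈ D), γ' ⟨_, hj⟩ ∈ R := by
    intro j hj
    have h1 : γ' ⟨y j / y l, hj⟩ * v l = v j := by
      have e1 : v l = γ' ⟨y l / y i, hcD (hyy l)⟩ := (hγ' _ (hyy l) _).symm
      have e2 : v j = γ' ⟨y j / y i, hcD (hyy j)⟩ := (hγ' _ (hyy j) _).symm
      rw [e1, e2, ← map_mul]
      congr 1
      apply Subtype.ext
      change y j / y l * (y l / y i) = y j / y i
      rw [div_mul_div_cancel₀ (hy l)]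
    have h2 : γ' ⟨y j / y l, hj⟩ = v j / v l := by
      rw [eq_div_iff hvl, h1]
    rw [h2]
    exact div_of_val_le hvl (hl j)
  refine ⟨l, γ'.comp (Subring.inclusion hchD), ?_, γ'.comp (Subring.inclusion hle), ?_, ?_⟩
  · exact ch_values R l hchD γ' (fun o ho => by
      rw [hγ' _ (hOc o)]
      exact hφ o _) hγl
  · intro b hb h
    exact hγ' b hb (hle h)
  · intro b hb h
    rfl

/-- The extension of `β` to the part where `N` is invertible. -/
theorem ext_beta (N : ℕ) (hN0 : (N : F) ≠ 0) {K : Type} [Field K] (hNK : (N : K) ≠ 0) (l : Fin n) {B : Subring F}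
    (hB : (chart O (Submodule.span O (Set.range y)) (y l)).toSubring ≤ B) (β : B →+* K) (κ : cN O y N l →+* K)
    (h : ∀ (b : F) (hb : b ∈ (chart O (Submodule.span O (Set.range y)) (y l)).toSubring),
      κ ⟨b, ch_le_cN N l hb⟩ = β ⟨b, hB hb⟩) :
    ∃ γ : (B ⊔ cN O y N l : Subring F) →+* K, (∀ (b : F) (hb : b ∈ B) (h : b ∈ B ⊔ cN O y N l), γ ⟨b, h⟩ = β ⟨b, hb⟩) ∧
      ∀ (b : F) (hb : b ∈ cN O y N l) (h : b ∈ B ⊔ cN O y N l), γ ⟨b, h⟩ = κ ⟨b, hb⟩ := by
  have hNB : (N : F) ∈ B := hB (N_mem_ch N l)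
  have hβN : β ⟨(N : F), hNB⟩ ≠ 0 := by
    have : (⟨(N : F), hNB⟩ : B) = (N : B) := Subtype.ext (by rw [Subring.coe_natCast])
    rw [this, map_natCast]
    exact hNK
  obtain ⟨γ', hγ'⟩ := lift_adj hNB hN0 β hβN
  have hle : B ⊔ cN O y N l ≤ Subring.closure ((B : Set F) ∪ {(N : F)⁻¹}) := by
    refine sup_le (fun z hz => Subring.subset_closure (Or.inl hz)) ?_
    exact Subring.closure_mono (Set.union_subset_union_left _ hB)
  refine ⟨γ'.comp (Subring.inclusion hle), fun b hb h => hγ' b hb (hle h), ?_⟩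
  intro b hb hbs
  obtain ⟨k, hk⟩ := adj_den (N_mem_ch (O := O) (y := y) N l) hN0 b hb
  have e1 : γ' ⟨(N : F) ^ k * b, hle (le_sup_left (a := B) (b := cN O y N l) (hB hk))⟩ =
      κ ⟨(N : F) ^ k * b, ch_le_cN N l hk⟩ := by
    rw [hγ' _ (hB hk), h _ hk]
  have hNs : (N : F) ∈ B ⊔ cN O y N l := le_sup_left (a := B) (b := cN O y N l) hNB
  have e2 : γ' ⟨(N : F) ^ k * b, hle (le_sup_left (a := B) (b := cN O y N l) (hB hk))⟩ =
      γ' ⟨(N : F), hle hNs⟩ ^ k * γ' ⟨b, hle hbs⟩ := by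
    rw [← map_pow, ← map_mul]
    rfl
  have e3 : κ ⟨(N : F) ^ k * b, ch_le_cN N l hk⟩ = κ ⟨(N : F), ch_le_cN N l (N_mem_ch N l)⟩ ^ k * κ ⟨b, hb⟩ := by
    rw [← map_pow, ← map_mul]
    rfl
  have e4 : γ' ⟨(N : F), hle hNs⟩ = κ ⟨(N : F), ch_le_cN N l (N_mem_ch N l)⟩ := by
    rw [hγ' _ hNB, h _ (N_mem_ch N l)]
  rw [e2, e3, e4] at e1
  have hκN : κ ⟨(N : F), ch_le_cN N l (N_mem_ch N l)⟩ ≠ 0 := by
    rw [← e4, hγ' _ hNB]
    exact hβN
  exact mul_left_cancel₀ (pow_ne_zero k hκN) e1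

end

end Pool.Agent.Run7.h275.RB
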