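import Pool.Agent.Run7.h275.RB2

/-!
# Resolution of classes of bounded order
-/

set_option autoImplicit false
set_option linter.unusedVariables false

namespace Pool.Agent.Run7.h275.RB

open IsLocalRing Pool.Agent.W418.LU2 Pool.Agent.H918R2.Quad Pool.Agent.Run7.h275.RL

section basic

variable {O F : Type} [CommRing O] [Field F] [Algebra O F] {M : Submodule O F} {V : ValuationSubring F}

lemma FGO.noeth [IsNoetherianRing O] {B : Subring F} (h : FGO O B) : IsNoetherianRing B := by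
  obtain ⟨s, rfl⟩ := h
  have : Algebra.FiniteType O (Algebra.adjoin O (s : Set F)) :=
    (Subalgebra.fg_iff_finiteType _).1 ⟨s, rfl⟩
  exact Algebra.FiniteType.isNoetherianRing O (Algebra.adjoin O (s : Set F))

lemma Irr.both {E : Set (ValuationSubring F)} (h : Irr M E) {j k : ℕ} {a b : F} (ha : a ∈ M ^ j) (hb : b ∈ M ^ k)
    (h1 : ∃ T ∈ E, ¬ Vn M j T a) (h2 : ∃ T ∈ E, ¬ Vn M k T b) : ∃ T ∈ E, ¬ Vn M j T a ∧ ¬ Vn M k T b := by
  by_contra hcon
  push Not at hcon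
  rcases h.2 j a ha k b hb (fun T hT => by
    by_cases h3 : Vn M j T a
    · exact Or.inl h3
    · exact Or.inr (hcon T hT h3)) with h3 | h3
  · obtain ⟨T, hT, hTa⟩ := h1
    exact hTa (h3 T hT)
  · obtain ⟨T, hT, hTa⟩ := h2
    exact hTa (h3 T hT)

lemma prodA (hM : Md M) {E : Set (ValuationSubring F)} (hE : ∀ V ∈ E, Cn O V) (hirr : Irr M E) :
    ∀ (m : ℕ) (j : Fin m → ℕ) (a : Fin m → F), (∀ l, a l ∈ M ^ (j l)) → (∀ l, ∃ T ∈ E, ¬ Vn M (j l) T (a l)) →
    ∃ J, ∃ A ∈ M ^ J, (∃ T ∈ E, ¬ Vn M J T A) ∧ ∀ T ∈ E, ¬ Vn M J T A → ∀ l, ¬ Vn M (j l) T (a l) := by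
  intro m
  induction m with
  | zero =>
    intro j a _ _
    obtain ⟨T, hT⟩ := hirr.1
    refine ⟨0, 1, by rw [pow_zero]; exact Submodule.one_le.1 le_rfl, ⟨T, hT, ?_⟩, fun T _ _ l => l.elim0⟩
    rintro ⟨w, -, hw⟩
    rw [map_one, pow_zero] at hw
    exact lt_irrefl _ hw
  | succ m ih =>
    intro j a ha hne
    obtain ⟨J, A, hA, hAne, hAl⟩ := ih (fun l => j l.castSucc) (fun l => a l.castSucc) (fun l => ha _)
      fun l => hne _
    obtain ⟨T, hT, h1, h2⟩ := hirr.both hA (ha (Fin.last m)) hAne (hne (Fin.last m))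
    refine ⟨J + j (Fin.last m), A * a (Fin.last m), mul_mem_pow_add hA (ha _), ⟨T, hT, ?_⟩, ?_⟩
    · exact (not_vn_mul hM (hE T hT) hA (ha _)).2 ⟨h1, h2⟩
    · intro T hT hTA l
      obtain ⟨h3, h4⟩ := (not_vn_mul hM (hE T hT) hA (ha _)).1 hTA
      refine Fin.lastCases h4 (fun l => ?_) l
      exact hAl T hT h3 l

lemma Dn.open' (hM : Md M) {K E : Set (ValuationSubring F)} (hE : ∀ V ∈ E, Cn O V) (h : Dn M K E) {J : ℕ}
    {A : F} (hA : A ∈ M ^ J) : Dn M {T ∈ K | ¬ Vn M J T A} {T ∈ E | ¬ Vn M J T A} := by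
  refine ⟨fun T hT => ⟨h.1 hT.1, hT.2⟩, ?_⟩
  rintro k c hc hv T ⟨hT, hTA⟩
  have h1 := h.2 (k + J) (c * A) (mul_mem_pow_add hc hA) (fun T' hT' => by
    by_cases h2 : Vn M J T' A
    · exact vn_mul_right hM (hE T' (h.1 hT')) hc hA h2
    · exact vn_mul_left hM (hE T' (h.1 hT')) hc hA (hv T' ⟨hT', h2⟩)) T hT
  by_contra hcon
  exact (not_vn_mul hM (hE T hT) hc hA).2 ⟨hcon, hTA⟩ h1

/-- The generic choice for one presentation. -/
lemma claim_l {S : Type} [CommRing S] [IsDomain S] [Algebra O (FractionRing S)] [IsNoetherianRing O]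
    (hOPN : S_OPN) (hPRI : S_PRI) (hLQ : S_LQ) (hGR : S_GR) (hDEP : S_DEP) (hSTEP : S_STEP) (hMON : S_MON)
    (hJ : J0 O) (hM : Md M) {Eh K : Set (ValuationSubring F)} (hE : ∀ V ∈ Eh, Cn O V) (hirr : Irr M Eh)
    (hKE : K ⊆ Eh) {n : ℕ} {p : Pres S F} {B : Subring F} (hOk : p.Ok O n B)
    (hK : ∀ V ∈ K, ¬ Rg M V ∧ p.At n B V ∧ LR V M (lo V.toSubring B)) :
    ∃ j, ∃ a ∈ M ^ j, (∃ T ∈ Eh, ¬ Vn M j T a) ∧ ((∀ V ∈ K, Vn M j V a) ∨ (Dn M K Eh ∧
      ∃ (m' : ℕ) (p' : Fin m' → Pres S F) (B' : Fin m' → Subring F),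
        (∀ l, (p' l).Ok O (n + 1) (B' l) ∧ (p' l).dl = p.dl) ∧
        ∀ V ∈ K, ¬ Vn M j V a → ∀ x : B, x ∈ IB B K → x ≠ 0 → (∀ b : B, b ∈ IB B K → (b : F) / x ∈ V) →
          ∃ l, (p' l).At (n + 1) (B' l) V ∧ lo V.toSubring (B' l) = bl V.toSubring B (IB B K) x)) := by
  by_cases hd : Dn M K Eh
  swap
  · have h1 : ∃ k, ∃ c ∈ M ^ k, (∀ T ∈ K, Vn M k T c) ∧ ∃ T ∈ Eh, ¬ Vn M k T c := by
      by_contra hcon
      push Not at hcon
      exact hd ⟨hKE, fun k c hc h T hT => hcon k c hc h T hT⟩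
    obtain ⟨k, c, hc, h2, h3⟩ := h1
    exact ⟨k, c, hc, h3, Or.inl h2⟩
  · have hOn : ∀ V ∈ K, On M B V := fun V hV => ⟨(hK V hV).2.1.BV, (hK V hV).2.2⟩
    obtain ⟨hprime, hsame, hopen⟩ := hPRI hOPN O F M hM K Eh hE hirr hd B hOn
    have hmem : ∀ V ∈ K, ∀ b : B, b ∈ IB B K → V.valuation (b : F) < 1 := fun V hV b hb => hb V hV (hOn V hV).1
    have hnot : ∀ t : B, t ∉ IB B K → ∃ V ∈ K, ¬ V.valuation (t : F) < 1 := by
      intro t ht
      by_contra hcon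
      push Not at hcon
      exact ht fun V hV _ => hcon V hV
    have hnoe := hOk.fgB.noeth
    obtain ⟨t₁, ht₁, hRQ⟩ := hLQ O F hJ B hOk.fgB (IB B K) hprime
    have hone : (1 : B) ∉ IB B K := fun h => hprime.ne_top ((Ideal.eq_top_iff_one _).2 h)
    obtain ⟨V₀, hV₀, -⟩ := hnot 1 hone
    have hval : ∀ (V : ValuationSubring F), B ≤ V.toSubring → ∀ s t : B, ¬ V.valuation ((s * t : B) : F) < 1 →
        ¬ V.valuation (s : F) < 1 ∧ ¬ V.valuation (t : F) < 1 := by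
      intro V hBV s t hst
      constructor
      · intro hs
        apply hst
        change V.valuation ((s : F) * (t : F)) < 1
        rw [map_mul]
        exact mul_lt_one_aux' hs ((V.valuation_le_one_iff _).2 (hBV t.2))
      · intro ht
        apply hst
        change V.valuation ((s : F) * (t : F)) < 1
        rw [map_mul]
        exact mul_lt_one_aux ((V.valuation_le_one_iff _).2 (hBV s.2)) ht
    have hnreg : ¬ IsRegularLocalRing (Localization.AtPrime (IB B K)) := by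
      intro hreg
      obtain ⟨t, ht, hG⟩ := hGR F B (IB B K) hreg
      have htt : t * t₁ ∉ IB B K := fun h => (hprime.mem_or_mem h).elim ht ht₁
      obtain ⟨V, hV, hVt⟩ := hnot _ htt
      obtain ⟨h1, h2⟩ := hval V (hOn V hV).1 t t₁ hVt
      refine (hK V hV).1 (((hOn V hV).rg (hE V (hKE hV))).2 ?_)
      exact hG V (hOn V hV).1 (hmem V hV) h1 (hRQ V (hOn V hV).1 (hmem V hV) h2)
    obtain ⟨a, i₀, wa, haP, hwa, hwap, hN⟩ := hDEP O S F p n B hOk (IB B K) V₀ (hK V₀ hV₀).2.1 (hmem V₀ hV₀) hnreg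
    obtain ⟨m', p', B', hp', hV'⟩ := hSTEP hMON O S F p n B hOk (IB B K) a i₀ wa haP hwa hwap hN
    have htt : wa * t₁ ∉ IB B K := fun h => (hprime.mem_or_mem h).elim hwap ht₁
    obtain ⟨j, c, hc, hcne, hct⟩ := hopen _ htt
    refine ⟨j, c, hc, hcne, Or.inr ⟨hd, m', p', B', hp', ?_⟩⟩
    intro V hV hVc x hx hx0 hxV
    obtain ⟨h1, h2⟩ := hval V (hOn V hV).1 wa t₁ (hct V hV hVc)
    exact hV' V (hK V hV).2.1 (hmem V hV) h1 (hRQ V (hOn V hV).1 (hmem V hV) h2) x hx hx0 hxV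

end basic

theorem RES (hWF : S_WF) (hPEEL : S_PEEL) (hOPN : S_OPN) (hCEN : S_CEN) (hBUA : S_BUA) (hBUB : S_BUB)
    (hMON : S_MON) (hLQ : S_LQ) (hGR : S_GR) (hDEP : S_DEP) (hSTEP : S_STEP) (hBND : S_BND)
    (hPER : S_PER) (hTRN : S_TRN) (hPRI : S_PRI) (hSEP : S_SEP0) : S_RES := by
  intro O S F _ _ _ _ _ _ _ hJ e q
  have key : ∀ d n, e + 1 ≤ n + d → ∀ (M : Submodule O F), Md M → ∀ E 𝒯 : Set (ValuationSubring F),
      (∀ V ∈ E, Cn O V) → (∀ T ∈ 𝒯, Cn O T ∧ Sep M T E) → (∀ V ∈ E, Bd M V (E ∪ 𝒯) q) → St O S M n e E →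
      Res M E 𝒯 := by
    intro d
    induction d with
    | zero =>
      intro n hn M hM E 𝒯 hE h𝒯 hBd hSt
      refine hSEP O F hJ q M hM E 𝒯 hE h𝒯 fun V hV => ⟨?_, (hBd V hV).mono Set.subset_union_right⟩
      obtain ⟨m, p, B, hOk, h1⟩ := hSt
      rcases h1 V hV with h2 | ⟨l, h2, h3, h4⟩
      · exact h2
      · exfalso
        have := hBND O S F (p l) n (B l) (hOk l) V h2 e h4
        omega
    | succ d ihd =>
      intro n hn M hM E
      induction E using (hWF O F M hM).induction with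
      | _ E ihE =>
      intro 𝒯 hE h𝒯 hBd hSt
      by_cases hne : E.Nonempty
      swap
      · rw [Set.not_nonempty_iff_eq_empty.1 hne]
        exact Res.empty
      -- peeling
      obtain ⟨k, h, hh, hirr, w, hwM, hw0, hw⟩ := hPEEL O F M hM E hE hne
      set Eh : Set (ValuationSubring F) := {V ∈ E | ¬ Vn M k V h} with hEh
      have hEhC : ∀ V ∈ Eh, Cn O V := fun V hV => hE V hV.1
      obtain ⟨m, p, B, hOk, hcl⟩ := hSt
      -- the classes
      let K : Fin m → Set (ValuationSubring F) := fun l => {V ∈ Eh | ¬ Rg M V ∧ (p l).At n (B l) V ∧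
        LR V M (lo V.toSubring (B l)) ∧ OrdLe V (p l).dl e}
      let Kr : Set (ValuationSubring F) := {V ∈ Eh | Rg M V}
      have hKE : ∀ l, K l ⊆ Eh := fun l V hV => hV.1
      choose j a ha hane hcase using fun l => claim_l hOPN hPRI hLQ hGR hDEP hSTEP hMON hJ hM (K := K l) hEhC hirr
        (hKE l) (hOk l) (fun V hV => ⟨hV.2.1, hV.2.2.1, hV.2.2.2.1⟩)
      -- the regular elements
      set Bi : Subring F := (chart O M w).toSubring with hBi
      have hOni : ∀ V ∈ Eh, On M Bi V := fun V hV => on_chart (hE V hV.1) hwM hw0 (hw V hV.1 hV.2)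
      have hinf : ∃ j, ∃ a ∈ M ^ j, (∃ T ∈ Eh, ¬ Vn M j T a) ∧ ((∀ V ∈ Kr, Vn M j V a) ∨ (Dn M Kr Eh ∧
          ∀ V ∈ Kr, ¬ Vn M j V a → RQ V.toSubring Bi (IB Bi Kr))) := by
        by_cases hd : Dn M Kr Eh
        swap
        · have h1 : ∃ k, ∃ c ∈ M ^ k, (∀ T ∈ Kr, Vn M k T c) ∧ ∃ T ∈ Eh, ¬ Vn M k T c := by
            by_contra hcon
            push Not at hcon
            exact hd ⟨fun V hV => hV.1, fun k c hc h T hT => hcon k c hc h T hT⟩
          obtain ⟨k, c, hc, h2, h3⟩ := h1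
          exact ⟨k, c, hc, h3, Or.inl h2⟩
        · obtain ⟨hprime, hsame, hopen⟩ := hPRI hOPN O F M hM Kr Eh hEhC hirr hd Bi fun V hV => hOni V hV.1
          obtain ⟨t, ht, hRQ⟩ := hLQ O F hJ Bi (fgo_chart hM.1 w) (IB Bi Kr) hprime
          obtain ⟨j, c, hc, hcne, hct⟩ := hopen t ht
          refine ⟨j, c, hc, hcne, Or.inr ⟨hd, fun V hV hVc => ?_⟩⟩
          exact hRQ V (hOni V hV.1).1 (fun b hb => hb V hV (hOni V hV.1).1) (hct V hV hVc)
      obtain ⟨ji, ai, hai, haine, hcasei⟩ := hinf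
      obtain ⟨J₀, A₀, hA₀, hA₀ne, hA₀l⟩ := prodA hM hEhC hirr m j a ha hane
      obtain ⟨T₀, hT₀, hT1, hT2⟩ := hirr.both hA₀ hai hA₀ne haine
      set J := J₀ + ji with hJdef
      set A := A₀ * ai with hAdef
      have hA : A ∈ M ^ J := mul_mem_pow_add hA₀ hai
      have hAne : ∃ T ∈ Eh, ¬ Vn M J T A := ⟨T₀, hT₀, (not_vn_mul hM (hEhC _ hT₀) hA₀ hai).2 ⟨hT1, hT2⟩⟩
      have hAl : ∀ T ∈ Eh, ¬ Vn M J T A → (∀ l, ¬ Vn M (j l) T (a l)) ∧ ¬ Vn M ji T ai := by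
        intro T hT hTA
        obtain ⟨h3, h4⟩ := (not_vn_mul hM (hEhC _ hT) hA₀ hai).1 hTA
        exact ⟨hA₀l T hT h3, h4⟩
      -- the open subclass
      set U : Set (ValuationSubring F) := {V ∈ E | ¬ Vn M (k + J) V (h * A)} with hU
      have hmem : ∀ V ∈ E, ¬ Vn M (k + J) V (h * A) ↔ ¬ Vn M k V h ∧ ¬ Vn M J V A := fun V hV =>
        not_vn_mul hM (hE V hV) hh hA
      have hUh : U = {T ∈ Eh | ¬ Vn M J T A} := by
        ext V
        constructor
        · rintro ⟨hV, h1⟩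
          obtain ⟨h2, h3⟩ := (hmem V hV).1 h1
          exact ⟨⟨hV, h2⟩, h3⟩
        · rintro ⟨⟨hV, h2⟩, h3⟩
          exact ⟨hV, (hmem V hV).2 ⟨h2, h3⟩⟩
      have hUne : U.Nonempty := by
        obtain ⟨T, hT, hTa⟩ := hAne
        rw [hUh]
        exact ⟨T, hT, hTa⟩
      set E' : Set (ValuationSubring F) := {V ∈ E | Vn M (k + J) V (h * A)} with hE'
      have hE'E : E' ⊆ E := fun V hV => hV.1
      have hUE : U ⊆ E := fun V hV => hV.1
      have hEU : E' ∪ U = E := by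
        ext V
        constructor
        · rintro (hV | hV)
          · exact hV.1
          · exact hV.1
        · intro hV
          by_cases h1 : Vn M (k + J) V (h * A)
          · exact Or.inl ⟨hV, h1⟩
          · exact Or.inr ⟨hV, h1⟩
      have hhA : h * A ∈ M ^ (k + J) := mul_mem_pow_add hh hA
      have hTE' : ∀ T ∈ 𝒯 ∪ U, Cn O T ∧ Sep M T E' := by
        rintro T (hT | hT)
        · exact ⟨(h𝒯 T hT).1, (h𝒯 T hT).2.mono hE'E⟩
        · exact ⟨hE T hT.1, k + J, h * A, hhA, hT.2, fun T' hT' => hT'.2⟩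
      obtain ⟨C₁, hC₁, iso₁, good₁⟩ := ihE E' ⟨hE'E, hE, k + J, h * A, hhA, fun T hT => hT.2, by
          obtain ⟨T, hT⟩ := hUne
          exact ⟨T, hT.1, hT.2⟩⟩ (𝒯 ∪ U) (fun V hV => hE V hV.1) hTE' (fun V hV => (hBd V hV.1).mono (by
            rintro T (hT | hT | hT)
            · exact Or.inl hT.1
            · exact Or.inr hT
            · exact Or.inl hT.1)) ⟨m, p, B, hOk, fun V hV => hcl V hV.1⟩
      obtain ⟨hM1, per1⟩ := hPER O F M C₁ hM hC₁
      have hUC : ∀ V ∈ U, Cn O V := fun V hV => hE V hV.1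
      have isoU : ∀ V ∈ U, ∀ Q : Subring F, LR V M Q → LR V (M * C₁) Q := fun V hV =>
        iso₁ V (hUC V hV) (hTE' V (Or.inr hV)).2
      have hBdU : ∀ V ∈ U, Bd (M * C₁) V (U ∪ 𝒯) q := fun V hV =>
        (per1 V (hUC V hV) _).2 _ ((hBd V hV.1).mono (Set.union_subset_union_left _ hUE))
      obtain ⟨k₂, C₂, hC₂⟩ := hCEN O F (M * C₁) hM1 U hUC (by
        obtain ⟨T, hT⟩ := hUne
        exact ((hBdU T hT).mono Set.subset_union_left).ne_zero hM1)
      obtain ⟨hM2, per2⟩ := hPER O F (M * C₁) C₂ hM1 hC₂.1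
      have hUEh : ∀ V ∈ U, V ∈ Eh ∧ ¬ Vn M J V A := fun V hV => by rw [hUh] at hV; exact hV
      -- the blowing-up at the elements of a dense class
      have blow : ∀ (K' : Set (ValuationSubring F)) (B' : Subring F), Dn M K' Eh → FGO O B' →
          (∀ V ∈ K', On M B' V) → ∀ V ∈ K', ¬ Vn M J V A →
          (∃ x : B', x ∈ IB B' K' ∧ x ≠ 0 ∧ ∀ b : B', b ∈ IB B' K' → (b : F) / x ∈ V) ∧
          ∀ x : B', x ∈ IB B' K' → x ≠ 0 → (∀ b : B', b ∈ IB B' K' → (b : F) / x ∈ V) →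
            LR V (M * C₁ * C₂) (bl V.toSubring B' (IB B' K') x) := by
        intro K' B' hd hfg hOn V hV hVA
        have hd' : Dn M {T ∈ K' | ¬ Vn M J T A} U := by
          rw [hUh]
          exact hd.open' hM hEhC hA
        have hd'' := hTRN hOPN O F M (M * C₁) hM hM1 _ U hUC isoU hd'
        obtain ⟨hprime, hsame, hopen⟩ := hPRI hOPN O F M hM K' Eh hEhC hirr hd B' hOn
        have hIB := hsame J A hA hAne
        have := hBUB O F (M * C₁) hM1 U hUC k₂ C₂ hC₂ {T ∈ K' | ¬ Vn M J T A} B' hd'' hfg (fun T hT =>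
          ⟨(hOn T hT.1).1, isoU T (hd''.1 hT) _ (hOn T hT.1).2⟩) V ⟨hV, hVA⟩
        rw [hIB] at this
        exact this
      have hR3 : Res (M * C₁ * C₂) U 𝒯 := by
        refine ihd (n + 1) (by omega) (M * C₁ * C₂) hM2 U 𝒯 hUC (fun T hT => ⟨(h𝒯 T hT).1, ?_⟩)
          (fun V hV => (per2 V (hUC V hV) _).2 _ (hBdU V hV)) ?_
        · exact (per2 T (h𝒯 T hT).1 U).1 ((per1 T (h𝒯 T hT).1 U).1 ((h𝒯 T hT).2.mono hUE))
        · -- the new presentations
          classical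
          choose m' p' B' hp' hV' using fun l : {l : Fin m // Dn M (K l) Eh ∧
            ¬ ∀ V ∈ K l, Vn M (j l) V (a l)} => ((hcase l.1).resolve_left l.2.2).2
          let ι := Σ l : {l : Fin m // Dn M (K l) Eh ∧ ¬ ∀ V ∈ K l, Vn M (j l) V (a l)}, Fin (m' l)
          let ε := Fintype.equivFin ι
          refine ⟨Fintype.card ι, fun i => p' (ε.symm i).1 (ε.symm i).2, fun i => B' (ε.symm i).1 (ε.symm i).2,
            fun i => (hp' (ε.symm i).1 (ε.symm i).2).1, ?_⟩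
          intro V hV
          obtain ⟨hVh, hVA⟩ := hUEh V hV
          obtain ⟨hVl, hVi⟩ := hAl V hVh hVA
          by_cases hreg : Rg M V
          · left
            have hVK : V ∈ Kr := ⟨hVh, hreg⟩
            rcases hcasei with h1 | ⟨hd, hRQ⟩
            · exact absurd (h1 V hVK) hVi
            · obtain ⟨⟨x, hx, hx0, hxV⟩, hbl⟩ := blow Kr Bi hd (fgo_chart hM.1 w) (fun T hT => hOni T hT.1) V hVK hVA
              refine ⟨_, hbl x hx hx0 hxV, ?_⟩
              exact hMON F V.toSubring Bi (loc_V V) (hOni V hVh).1 (((hOni V hVh).rg (hUC V hV)).1 hreg) _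
                (hRQ V hVK hVi) x hx hx0 hxV
          · right
            rcases hcl V hV.1 with h1 | ⟨l, h1, h2, h3⟩
            · exact absurd h1 hreg
            · have hVK : V ∈ K l := ⟨hVh, hreg, h1, h2, h3⟩
              have hn1 : ¬ ∀ V ∈ K l, Vn M (j l) V (a l) := fun h4 => hVl l (h4 V hVK)
              have hd : Dn M (K l) Eh := ((hcase l).resolve_left hn1).1
              obtain ⟨⟨x, hx, hx0, hxV⟩, hbl⟩ := blow (K l) (B l) hd (hOk l).fgB (fun T hT =>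
                ⟨hT.2.2.1.BV, hT.2.2.2.1⟩) V hVK hVA
              obtain ⟨l', h5, h6⟩ := hV' ⟨l, hd, hn1⟩ V hVK (hVl l) x hx hx0 hxV
              refine ⟨ε ⟨⟨l, hd, hn1⟩, l'⟩, ?_⟩
              beta_reduce
              rw [Equiv.symm_apply_apply]
              refine ⟨h5, ?_, ?_⟩
              · rw [h6]
                exact hbl x hx hx0 hxV
              · rw [(hp' ⟨l, hd, hn1⟩ l').2]
                exact h3
      exact glue hPER hBUA hM hE hE'E hUE (fun V hV => by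
        by_cases h1 : Vn M (k + J) V (h * A)
        · exact Or.inl ⟨hV, h1⟩
        · exact Or.inr ⟨hV, h1⟩) hC₁ iso₁ good₁ hC₂ hR3
  intro n M hM E 𝒯 hE h𝒯 hBd hSt
  exact key (e + 1) n (by omega) M hM E 𝒯 hE h𝒯 hBd hSt

end Pool.Agent.Run7.h275.RB
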