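import Pool.Agent.Run7.h275.RB3
import Pool.Agent.Run7.h806.RB.INIT

/-!
# The theorem on models which are regular at all valuations of bounded Jacobian order
-/

set_option autoImplicit false
set_option linter.unusedVariables false

namespace Pool.Agent.Run7.h275.RB

open IsLocalRing Pool.Agent.W418.LU2 Pool.Agent.H918R2.Quad Pool.Agent.Run7.h275.RL

section

variable (O : Type) {F : Type} [CommRing O] [Field F] [Algebra O F]

/-- `δ` is a minor of the Jacobian matrix of equations at the generic point of the chart `i`. -/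
def Mn {n : ℕ} (y : Fin n → F) (i : Fin n) (δ : F) : Prop :=
  ∃ (r : ℕ) (f : Fin r → MvPolynomial (Fin n) O)
    (D : Fin r → Derivation ℤ (MvPolynomial (Fin n) O) (MvPolynomial (Fin n) O)),
    (∀ k, MvPolynomial.aeval (fun j => y j / y i) (f k) = 0) ∧
    (∀ s : MvPolynomial (Fin n) O, MvPolynomial.aeval (fun j => y j / y i) s = 0 →
      ∃ t, MvPolynomial.aeval (fun j => y j / y i) t ≠ 0 ∧ t * s ∈ Ideal.span (Set.range f)) ∧
    δ = (Matrix.of fun k l => MvPolynomial.aeval (fun j => y j / y i) (D l (f k))).det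

/-- The coordinate map of the chart `i`. -/
noncomputable def ph {n : ℕ} (y : Fin n → F) (i : Fin n) : MvPolynomial (Fin n) O →+* F :=
  (MvPolynomial.aeval (fun j => y j / y i) : MvPolynomial (Fin n) O →ₐ[O] F).toRingHom

end

section

variable {O F : Type} [CommRing O] [Field F] [Algebra O F] {n : ℕ} {y : Fin n → F} {i : Fin n}

lemma ph_range : (ph O y i).range = (chart O (Submodule.span O (Set.range y)) (y i)).toSubring := by
  have h1 : chart O (Submodule.span O (Set.range y)) (y i) = Algebra.adjoin O (Set.range fun j => y j / y i) := by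
    apply le_antisymm
    · refine Algebra.adjoin_le ?_
      rintro _ ⟨m, hm, rfl⟩
      change m / y i ∈ Algebra.adjoin O (Set.range fun j => y j / y i)
      induction hm using Submodule.span_induction with
      | mem m hm =>
        obtain ⟨j, rfl⟩ := hm
        exact Algebra.subset_adjoin ⟨j, rfl⟩
      | zero => rw [zero_div]; exact Subalgebra.zero_mem _
      | add a b _ _ ha hb => rw [add_div]; exact Subalgebra.add_mem _ ha hb
      | smul c a _ ha => rw [smul_div_assoc]; exact Subalgebra.smul_mem _ ha c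
    · refine Algebra.adjoin_le ?_
      rintro _ ⟨j, rfl⟩
      exact Algebra.subset_adjoin ⟨y j, Submodule.subset_span ⟨j, rfl⟩, rfl⟩
  rw [h1, Algebra.adjoin_range_eq_range_aeval]
  rfl

lemma ph_der (D : Derivation ℤ (MvPolynomial (Fin n) O) (MvPolynomial (Fin n) O)) :
    Der (ph O y i) (fun s => ph O y i (D s)) :=
  { add := fun a b => by rw [map_add, map_add]
    mul := fun a b => by
      rw [Derivation.leibniz, smul_eq_mul, smul_eq_mul, map_add, map_mul, map_mul] }

lemma Mn.mem {δ : F} (h : Mn O y i δ) : δ ∈ (ph O y i).range := by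
  obtain ⟨r, f, D, -, -, rfl⟩ := h
  refine ⟨(Matrix.of fun k l => D l (f k)).det, ?_⟩
  rw [RingHom.map_det]
  rfl

lemma val_span {B : Subring F} {V : ValuationSubring F} (hB : B ≤ V.toSubring) {t : Set B} {x : B}
    (hx : x ∈ Ideal.span t) (hx0 : (x : F) ≠ 0) : ∃ d ∈ t, V.valuation (x : F) ≤ V.valuation (d : F) := by
  by_contra hcon
  push Not at hcon
  let I : Ideal B :=
    { carrier := {z | V.valuation (z : F) < V.valuation (x : F)}
      zero_mem' := by
        change V.valuation (0 : F) < V.valuation (x : F)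
        rw [map_zero]
        exact (Valuation.pos_iff _).2 hx0
      add_mem' := fun {a b} ha hb => by
        change V.valuation ((a : F) + (b : F)) < V.valuation (x : F)
        exact Valuation.map_add_lt _ ha hb
      smul_mem' := fun c z hz => by
        change V.valuation ((c : F) * (z : F)) < V.valuation (x : F)
        rw [map_mul]
        exact (mul_le_of_le_one_left' ((V.valuation_le_one_iff _).2 (hB c.2))).trans_lt hz }
  have h1 : Ideal.span t ≤ I := Ideal.span_le.2 hcon
  have h2 : V.valuation (x : F) < V.valuation (x : F) := h1 hx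
  exact lt_irrefl _ h2

lemma OrdLe.le {V : ValuationSubring F} {a b : F} {q : ℕ} (h : OrdLe V a q)
    (hab : V.valuation a ≤ V.valuation b) : OrdLe V b q := fun z hz => (h z hz).trans_le hab

end

/-- **The main theorem.** -/
theorem BDD (hINIT : S_INIT') (hREG0 : S_REG0) (hRES : S_RES) {O F : Type} [CommRing O] [IsDomain O]
    [IsRegularRing O] [Field F] [Algebra O F] (hJ : J0 O) {n : ℕ} (y : Fin n → F) (hy : ∀ i, y i ≠ 0)
    (hn : 0 < n) (e : ℕ) :
    ∃ C : Submodule O F, Md C ∧
      (∀ V : ValuationSubring F, Cn O V → ∀ i, (∀ j, y j / y i ∈ V) → ∀ δ, Mn O y i δ → ¬ V.valuation δ < 1 →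
        ∀ Q : Subring F, LR V (Submodule.span O (Set.range y)) Q →
          LR V (Submodule.span O (Set.range y) * C) Q ∧ IsRegularLocalRing Q) ∧
      ∀ V : ValuationSubring F, Cn O V → ∀ i, (∀ j, y j / y i ∈ V) → ∀ δ, Mn O y i δ → OrdLe V δ e →
        Rg (Submodule.span O (Set.range y) * C) V := by
  classical
  set M₀ : Submodule O F := Submodule.span O (Set.range y) with hM₀
  have hM : Md M₀ := ⟨Submodule.fg_span (Set.finite_range y), y ⟨0, hn⟩, Submodule.subset_span ⟨_, rfl⟩, hy _⟩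
  have hyM : ∀ i, y i ∈ M₀ := fun i => Submodule.subset_span ⟨i, rfl⟩
  have hmax : ∀ (V : ValuationSubring F), Cn O V → ∀ i, (∀ j, y j / y i ∈ V) → ∀ m ∈ M₀, m / y i ∈ V := by
    intro V hV i hi m hm
    induction hm using Submodule.span_induction with
    | mem m hm => obtain ⟨j, rfl⟩ := hm; exact hi j
    | zero => rw [zero_div]; exact V.zero_mem
    | add a b _ _ ha hb => rw [add_div]; exact V.add_mem _ _ ha hb
    | smul c a _ ha =>
      rw [Algebra.smul_def, mul_div_assoc]
      exact V.mul_mem _ _ (hV c) ha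
  have hrV : ∀ (V : ValuationSubring F), Cn O V → ∀ i, (∀ j, y j / y i ∈ V) → (ph O y i).range ≤ V.toSubring := by
    intro V hV i hi
    rw [ph_range]
    exact chart_le_V hV (hmax V hV i hi)
  have hLR : ∀ (V : ValuationSubring F), Cn O V → ∀ i, (∀ j, y j / y i ∈ V) →
      LR V M₀ (lo V.toSubring (ph O y i).range) := by
    intro V hV i hi
    rw [ph_range]
    exact ⟨y i, hyM i, hy i, hmax V hV i hi, rfl⟩
  -- the class
  let Bdd : ValuationSubring F → Prop := fun V => Cn O V ∧ ∃ i, (∀ j, y j / y i ∈ V) ∧ ∃ δ, Mn O y i δ ∧ OrdLe V δ e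
  let E : Set (ValuationSubring F) := {V | Bdd V ∧ ∀ i, (∀ j, y j / y i ∈ V) → ∀ δ, Mn O y i δ → V.valuation δ < 1}
  have hEC : ∀ V ∈ E, Cn O V := fun V hV => hV.1.1
  -- the section attached to a minor
  have hsec : ∀ i δ, Mn O y i δ → ∃ k, ∃ c ∈ M₀ ^ k, (∀ T ∈ E, Vn M₀ k T c) ∧
      ∀ V : ValuationSubring F, Cn O V → (∀ j, y j / y i ∈ V) → ∀ w ∈ M₀, w ≠ 0 →
        V.valuation δ ≤ V.valuation (c / w ^ k) := by
    intro i δ hδ
    have h1 : δ ∈ chart O M₀ (y i) := by
      have := hδ.mem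
      rw [ph_range] at this
      exact this
    obtain ⟨k, hk⟩ := chart_pow_mem (hyM i) (hy i) h1
    have hm := hk k le_rfl
    refine ⟨k + 1, δ * y i ^ k * y i, ?_, ?_, ?_⟩
    · exact mul_mem_pow_add hm (by rw [pow_one]; exact hyM i)
    · intro T hT
      have hTC := hEC T hT
      obtain ⟨w, hwM, hw0, hw⟩ := exists_wmax hM hTC
      rw [vn_iff hTC hwM hw0 hw, map_mul, pow_succ]
      have hwp : 0 < T.valuation w := (Valuation.pos_iff _).2 hw0
      have h2 := pow_le_max hTC hw0 hw k hm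
      have h3 : T.valuation (y i) ≤ T.valuation w := val_le_of_div hw0 (hw _ (hyM i))
      rcases h3.lt_or_eq with h4 | h4
      · exact (mul_le_mul' h2 le_rfl).trans_lt (mul_lt_mul_of_pos_left h4 (pow_pos hwp k))
      · have h5 : ∀ j, y j / y i ∈ T := fun j => div_of_val_le (hy i) (by
          rw [h4]
          exact val_le_of_div hw0 (hw _ (hyM j)))
        have h6 := hT.2 i h5 δ hδ
        rw [h4, map_mul, map_pow, h4]
        refine mul_lt_mul_of_pos_right ?_ hwp
        calc T.valuation δ * T.valuation w ^ k < 1 * T.valuation w ^ k :=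
              mul_lt_mul_of_pos_right h6 (pow_pos hwp k)
          _ = T.valuation w ^ k := one_mul _
    · intro V hV hi w hw hw0
      have h2 : V.valuation w ≤ V.valuation (y i) := val_le_of_div (hy i) (hmax V hV i hi w hw)
      have hwp : 0 < V.valuation w := (Valuation.pos_iff _).2 hw0
      rw [map_div₀, map_mul, map_mul, map_pow, map_pow, mul_assoc, ← pow_succ, mul_div_assoc]
      refine le_mul_of_one_le_right' ?_
      rw [one_le_div₀ (pow_pos hwp _)]
      exact pow_le_pow_left₀ zero_le h2 _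
  -- finitely many minors
  have hnoe : ∀ i, IsNoetherianRing (ph O y i).range := fun i =>
    isNoetherianRing_of_surjective _ _ (ph O y i).rangeRestrict (ph O y i).rangeRestrict_surjective
  have hfin : ∀ i, ∃ t : Finset (ph O y i).range, (t : Set (ph O y i).range) ⊆ {b | Mn O y i (b : F)} ∧
      Ideal.span {b : (ph O y i).range | Mn O y i (b : F)} = Ideal.span (t : Set (ph O y i).range) := by
    intro i
    have := hnoe i
    exact Submodule.fg_span_iff_fg_span_finset_subset _ |>.1 (IsNoetherian.noetherian _)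
  choose t ht hts using hfin
  have hpres : ∀ i, ∀ b : (ph O y i).range, Mn O y i (b : F) → ∃ p : Pres (MvPolynomial (Fin n) O) F,
      p.Ok O 0 (ph O y i).range ∧ p.dl = b ∧
        ∀ V : ValuationSubring F, (ph O y i).range ≤ V.toSubring → p.At 0 (ph O y i).range V := by
    rintro i b ⟨r, f, D, hf, hgen, hb⟩
    obtain ⟨p, h1, h2, h3⟩ := hINIT O (MvPolynomial (Fin n) O) F (fun o => rfl) (ph O y i) (fun o => by
      change MvPolynomial.aeval (fun j => y j / y i) (algebraMap O _ o) = _
      rw [AlgHom.commutes]) r (fun l s => ph O y i (D l s)) (fun l => ph_der (D l)) f hf hgen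
      (fun l s => ⟨_, rfl⟩)
    refine ⟨p, h1, ?_, h3⟩
    rw [h2, hb]
    rfl
  have hSt : St O (MvPolynomial (Fin n) O) M₀ 0 e E := by
    choose p hp1 hp2 hp3 using hpres
    let ι := Σ i : Fin n, {b // b ∈ t i}
    let ε := Fintype.equivFin ι
    refine ⟨Fintype.card ι, fun l => p (ε.symm l).1 (ε.symm l).2.1 (ht _ (ε.symm l).2.2),
      fun l => (ph O y (ε.symm l).1).range, fun l => hp1 _ _ _, ?_⟩
    rintro V ⟨⟨hV, i, hi, δ, hδ, hord⟩, -⟩
    right
    have hδ0 : δ ≠ 0 := hord.ne
    have h1 : (⟨δ, hδ.mem⟩ : (ph O y i).range) ∈ Ideal.span (t i : Set (ph O y i).range) := by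
      rw [← hts i]
      exact Ideal.subset_span hδ
    obtain ⟨d, hd, hle⟩ := val_span (hrV V hV i hi) h1 hδ0
    refine ⟨ε ⟨i, ⟨d, hd⟩⟩, ?_⟩
    beta_reduce
    rw [Equiv.symm_apply_apply]
    refine ⟨hp3 _ _ _ V (hrV V hV i hi), hLR V hV i hi, ?_⟩
    rw [hp2]
    exact hord.le hle
  have hBd : ∀ V ∈ E, Bd M₀ V (E ∪ ∅) e := by
    intro V hV
    obtain ⟨⟨hVC, i, hi, δ, hδ, hord⟩, -⟩ := hV
    obtain ⟨k, c, hc, h1, h2⟩ := hsec i δ hδ
    refine ⟨k, c, hc, ?_, fun w hw hw0 => hord.le (h2 V hVC hi w hw hw0)⟩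
    rintro T (hT | hT)
    · exact h1 T hT
    · exact absurd hT (Set.notMem_empty T)
  obtain ⟨C, hC, iso, good⟩ := hRES O (MvPolynomial (Fin n) O) F hJ e e 0 M₀ hM E ∅ hEC
    (fun T hT => absurd hT (Set.notMem_empty T)) hBd hSt
  have part1 : ∀ V : ValuationSubring F, Cn O V → ∀ i, (∀ j, y j / y i ∈ V) → ∀ δ, Mn O y i δ →
      ¬ V.valuation δ < 1 → ∀ Q : Subring F, LR V M₀ Q → LR V (M₀ * C) Q ∧ IsRegularLocalRing Q := by
    intro V hV i hi δ hδ hu Q hQ
    constructor
    · refine iso V hV ?_ Q hQ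
      obtain ⟨k, c, hc, h1, h2⟩ := hsec i δ hδ
      refine ⟨k, c, hc, ?_, h1⟩
      rw [not_vn_iff hV (hyM i) (hy i) (hmax V hV i hi)]
      have h3 := h2 V hV hi (y i) (hyM i) (hy i)
      rw [not_lt] at hu
      have h4 := hu.trans h3
      rw [map_div₀, map_pow] at h4
      exact (one_le_div₀ (pow_pos ((Valuation.pos_iff _).2 (hy i)) k)).1 h4
    · rw [LR.unique hV hQ (hLR V hV i hi)]
      obtain ⟨r, f, D, hf, hgen, rfl⟩ := hδ
      exact hREG0 (MvPolynomial (Fin n) O) F (ph O y i) r (fun l s => ph O y i (D l s)) (fun l => ph_der (D l)) f hf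
        hgen (fun l s => ⟨_, rfl⟩) V (hrV V hV i hi) hu
  refine ⟨C, hC, part1, ?_⟩
  intro V hV i hi δ hδ hord
  by_cases hVE : V ∈ E
  · exact (good V hVE).1
  · have h1 : ∃ i, (∀ j, y j / y i ∈ V) ∧ ∃ δ, Mn O y i δ ∧ ¬ V.valuation δ < 1 := by
      by_contra hcon
      push Not at hcon
      refine hVE ⟨⟨hV, i, hi, δ, hδ, hord⟩, fun i' hi' δ' hδ' => ?_⟩
      exact hcon i' hi' δ' hδ'
    obtain ⟨i', hi', δ', hδ', hu⟩ := h1
    obtain ⟨h2, h3⟩ := part1 V hV i' hi' δ' hδ' hu _ (hLR V hV i' hi')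
    exact ⟨_, h2, h3⟩

end Pool.Agent.Run7.h275.RB
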