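import Pool.Agent.Run7.h275.RB4

/-!
# Interface, second part: points with values in valuation rings, nonzero minors, number fields
-/

set_option autoImplicit false
set_option linter.unusedVariables false

namespace Pool.Agent.Run7.h275.RB

open IsLocalRing Pool.Agent.W418.LU2 Pool.Agent.H918R2.Quad Pool.Agent.Run7.h275.RL

/-- **CMP1** A regular local ring `A` with the fraction field `F` is dominated by a valuation ring `W` of `F` with the same
residue field.  Proof: induction on `dim A`. If `A` is a field, `W = F`.  Otherwise let `x` be a regular parameter;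
`W₁ = A_(x)` is a discrete valuation ring with the residue field `Frac (A / x)`, `A / x` is regular; let `W'` be the
valuation ring for `A / x`, and `W` the preimage of `W'` in `W₁` (composite valuation ring). -/
def S_CMP1 : Prop := ∀ (F : Type) [Field F] (A : Subring F) [IsRegularLocalRing A],
  (∀ z : F, ∃ a ∈ A, ∃ b ∈ A, b ≠ 0 ∧ z = a / b) →
  ∃ W : ValuationSubring F, A ≤ W.toSubring ∧ (∀ a : A, W.valuation (a : F) < 1 ↔ a ∈ maximalIdeal A) ∧
    ∀ w ∈ W, ∃ a ∈ A, W.valuation (w - a) < 1

/-- **CMP2** The composite of `W` with a valuation ring of a field containing the residue field of `A`.  Proof: every `w ∈ W`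
has a value `ρ(w) = π(a) ∈ L` (`W.valuation (w - a) < 1`); `ρ : W → L` is a ring homomorphism with the kernel `𝔪_W`.  Let
`V = {w ∈ W : ρ(w) ∈ R}`. If `V(z_i) < 1` for `i ≤ q`, `OrdLe R (π a) q` (so `π a ≠ 0`, `a` is a unit of `W`): if all
`ρ(z_i) ≠ 0` then `ρ(∏ z_i / a) = ∏ ρ(z_i) / π a ∈ 𝔪_R`; otherwise `∏ z_i / a ∈ 𝔪_W ⊆ 𝔪_V`. -/
def S_CMP2 : Prop := ∀ (F L : Type) [Field F] [Field L] (A : Subring F) (W : ValuationSubring F) (π : A →+* L)
  (R : ValuationSubring L), A ≤ W.toSubring → (∀ a : A, W.valuation (a : F) < 1 ↔ π a = 0) →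
  (∀ w ∈ W, ∃ a ∈ A, W.valuation (w - a) < 1) →
  ∃ V : ValuationSubring F, V.toSubring ≤ W.toSubring ∧ (∀ a : A, (a : F) ∈ V ↔ π a ∈ R) ∧
    (∀ a : A, V.valuation (a : F) < 1 ↔ R.valuation (π a) < 1) ∧
    ∀ (a : A) (q : ℕ), OrdLe R (π a) q → OrdLe V (a : F) q

/-- **NZF** Nonzero minors over a perfect field (`exists_jac` in RLJ with `k₀ = k`, `S = MvPolynomial (Fin n) k` and `K` the
fraction field of the chart `(ph k y i).range` inside `F`, restrict the scalars of the derivations to `ℤ`).  See
`Pool.Agent.Run7.h704.RB.J0`. -/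
def S_NZF : Prop := ∀ (k F : Type) [Field k] [PerfectField k] [Field F] [Algebra k F] (n : ℕ) (y : Fin n → F)
  (i : Fin n), ∃ δ, δ ≠ 0 ∧ Mn k y i δ

/-- **NZZ** Nonzero minors for flat models in characteristic zero (`exists_jac` with `k₀ = O`; `K` = the fraction field of
the chart is formally smooth over `Frac O`, of characteristic zero). -/
def S_NZZ : Prop := ∀ (O F : Type) [CommRing O] [IsDomain O] [IsRegularRing O] [CharZero O] [Field F] [Algebra O F],
  Function.Injective (algebraMap O F) → ∀ (n : ℕ) (y : Fin n → F) (i : Fin n), ∃ δ, δ ≠ 0 ∧ Mn O y i δ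

/-- **NUM** A uniform integer which is a combination of minors.  Proof: exactly `uniform_chart` and `uniform_int` in
`Pool/Agent/TH188/ARC/A19.lean`, with the property `Star B δ` replaced by `Mn (𝓞 E) y i δ` (in `trait_star` the `δ` which is
constructed is a minor; take there `x j = y j / y i`, `Fin n`, instead of `m i / y i₀`). -/
def S_NUM : Prop := ∀ (E F : Type) [Field E] [NumberField E] [Field F] [Algebra E F]
  [Algebra (NumberField.RingOfIntegers E) F] [IsScalarTower (NumberField.RingOfIntegers E) E F] (n : ℕ)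
  (y : Fin n → F) (_ : ∀ i, y i ≠ 0)
  (_ : ∀ (i : Fin n) (P : Ideal (Algebra.adjoin E (Set.range fun j => y j / y i)).toSubring) [P.IsPrime],
    IsRegularLocalRing (Localization.AtPrime P)),
  ∃ N : ℕ, N ≠ 0 ∧ ∀ (i : Fin n) (V : ValuationSubring F), Cn (NumberField.RingOfIntegers E) V →
    (∀ j, y j / y i ∈ V) → ∃ δ, Mn (NumberField.RingOfIntegers E) y i δ ∧ V.valuation (N : F) ≤ V.valuation δ

/-- **J0T** `J0` for rings of finite type over `ℤ`. (A finitely generated `O`-algebra is finitely generated over `ℤ`.) -/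
def S_J0T : Prop := J0 ℤ → ∀ (O : Type) [CommRing O] [Algebra.FiniteType ℤ O], J0 O

end Pool.Agent.Run7.h275.RB
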