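import Pool.Agent.Run7.h275.RB4

/-!
# Interface, third part: normal crossings

A chart `p.B` of a model `Proj O[M]` with a boundary `p.x` and a monomial `p.m` in it.  A closed subscheme `D` of
`Proj O[M₀]` is given by `N₀ ≤ M₀ ^ c`; its ideal in the chart is `(n / w ^ c : n ∈ N₀)` with `w ∈ M₀`, `M₀ / w ⊆ B`.
-/

set_option autoImplicit false
set_option linter.unusedVariables false

namespace Pool.Agent.Run7.h275.RB

open IsLocalRing Pool.Agent.W418.LU2 Pool.Agent.H918R2.Quad Pool.Agent.Run7.h275.RL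

section

variable {O F : Type} [CommRing O] [Field F] [Algebra O F]

/-- The ideal of the subscheme in the local ring `Q`. -/
def DI (M₀ N : Submodule O F) (c : ℕ) (Q : Subring F) : Ideal Q :=
  Ideal.span {b : Q | ∃ w ∈ M₀, w ≠ 0 ∧ (∀ m ∈ M₀, m / w ∈ Q) ∧ ∃ n ∈ N, (b : F) = n / w ^ c}

/-- Normal crossings: the ideal of the subscheme is generated by a monomial in a regular system of parameters. -/
def NCr (M₀ N : Submodule O F) (c : ℕ) (Q : Subring F) : Prop :=
  ∃ (_ : IsRegularLocalRing Q) (r : ℕ) (x : Fin r → Q) (α : Fin r → ℕ),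
    Ideal.span (Set.range x) = maximalIdeal Q ∧ ringKrullDim Q = r ∧
      DI M₀ N c Q = Ideal.span {∏ i, x i ^ α i}

/-- A chart with a boundary `x`, a monomial `m` and a homogeneous coordinate `w`. -/
structure NP (F : Type) [Field F] where
  B : Subring F
  s : ℕ
  x : Fin s → F
  m : F
  w : F

structure NP.Ok (p : NP F) (M₀ N₀ : Submodule O F) (c : ℕ) : Prop where
  fg : FGO O p.B
  xB : ∀ i, p.x i ∈ p.B
  x0 : ∀ i, p.x i ≠ 0
  mon : ∃ α : Fin p.s → ℕ, p.m = ∏ i, p.x i ^ α i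
  wM : p.w ∈ M₀
  w0 : p.w ≠ 0
  wB : ∀ m ∈ M₀, m / p.w ∈ p.B
  res : ∀ n ∈ N₀, n / (p.w ^ c * p.m) ∈ p.B

/-- The chart is regular and the boundary has normal crossings at `V`. -/
structure NP.At (p : NP F) (V : ValuationSubring F) : Prop where
  BV : p.B ≤ V.toSubring
  reg : RegP V.toSubring (lo V.toSubring p.B) p.x

/-- The residual ideal has order at most `b` at `V`. -/
def NP.Lv (p : NP F) (N₀ : Submodule O F) (c : ℕ) (V : ValuationSubring F) (b : ℕ) : Prop :=
  ∃ n ∈ N₀, OrdLe V (n / (p.w ^ c * p.m)) b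

end

/-- **MONX** The blowing-up of a regular local ring in a regular centre which is contained in or disjoint from every
component of the boundary.  Proof: let `Q = lo A P`.  `I Q` is the kernel of the surjection of regular local rings
`Q → Q / I Q`, it is generated by a part of a regular system of parameters which contains the `x i`, `i ∈ J` (they are
independent modulo `𝔪 ^ 2` and in `I Q`; `𝔪 I Q = 𝔪 ^ 2 ∩ I Q`; see `exists_ind` in `Pool.Agent.Run7.h56.RB.MON`).
With `y` this system and `y_j`, `j` in the part, `x₀ / y_j` a unit of `A`, apply `regP_qt`; multiply by units. -/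
def S_MONX : Prop := ∀ (F : Type) [Field F] (A P : Subring F), Loc A → P ≤ A →
  ∀ (s : ℕ) (x : Fin s → F), (∀ i, x i ∈ P) → RegP A (lo A P) x → ∀ (I : Ideal P), RQ A P I →
  ∀ J : Finset (Fin s), (∀ i ∈ J, ∃ b : P, b ∈ I ∧ (b : F) = x i) → (∀ i, i ∉ J → (x i)⁻¹ ∈ A) →
  ∀ x₀ : P, x₀ ∈ I → x₀ ≠ 0 → (∀ b : P, b ∈ I → (b : F) / x₀ ∈ A) →
    RegP A (bl A P I x₀) (Fin.snoc (α := fun _ => F) (fun i => if i ∈ J then x i / x₀ else x i) (x₀ : F))

/-- **STEPN** The charts of the blowing-up in the closure of a class.  Proof: let `x_1, …, x_k` generate `𝔭` (`p.B` is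
noetherian), `J = {i : p.x i ∈ 𝔭}`, `t = ∏_(i ∉ J) p.x i`, times an element `n₀ / (w ^ c m) ∉ 𝔭` if there is one.
`B'_l = B[x_j / x_l : j]` (`x_l ≠ 0`), the boundary is `p.x i / x_l` (`i ∈ J`), `p.x i` (`i ∉ J`), `x_l`;
`m' = m x_l` if all `n / (w ^ c m) ∈ 𝔭`, otherwise `m' = m`; `w' = w`.  Every valuation ring `V` as below takes
`l` such that `x_l` has the largest value; `S_MONX`; `lo V B'_l = bl V B 𝔭 x`. -/
def S_STEPN : Prop := S_MONX → ∀ (O F : Type) [CommRing O] [Field F] [Algebra O F] [IsNoetherianRing O]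
  (M₀ N₀ : Submodule O F) (c : ℕ) (p : NP F), p.Ok M₀ N₀ c → ∀ 𝔭 : Ideal p.B, 𝔭.IsPrime →
  ∃ t : p.B, t ∉ 𝔭 ∧ ∃ (k : ℕ) (p' : Fin k → NP F), (∀ l, (p' l).Ok M₀ N₀ c) ∧
    ∀ V : ValuationSubring F, p.At V → (∀ b : p.B, b ∈ 𝔭 → V.valuation (b : F) < 1) → ¬ V.valuation (t : F) < 1 →
      RQ V.toSubring p.B 𝔭 → ∀ x : p.B, x ∈ 𝔭 → x ≠ 0 → (∀ b : p.B, b ∈ 𝔭 → (b : F) / x ∈ V) →
        ∃ l, (p' l).At V ∧ lo V.toSubring (p' l).B = bl V.toSubring p.B 𝔭 x ∧
          ∀ b, p.Lv N₀ c V b → (p' l).Lv N₀ c V (b - 1)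

/-- **NCF** At level zero there are normal crossings.  Proof: as `ncr_of` in `Pool/Agent/Run7/h275/AP4.lean` (copy it: the
nonunits among the `x i` are extended to a regular system of parameters; the residual ideal is the unit ideal). -/
def S_NCF : Prop := ∀ (O F : Type) [CommRing O] [Field F] [Algebra O F] (M₀ N₀ : Submodule O F) (c : ℕ) (p : NP F),
  p.Ok M₀ N₀ c → ∀ V : ValuationSubring F, p.At V → p.Lv N₀ c V 0 → NCr M₀ N₀ c (lo V.toSubring p.B)

end Pool.Agent.Run7.h275.RB
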