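import Pool.Agent.Run7.h275.RB6

/-!
# The general induction
-/

set_option autoImplicit false
set_option linter.unusedVariables false

namespace Pool.Agent.Run7.h275.RB

open IsLocalRing Pool.Agent.W418.LU2 Pool.Agent.H918R2.Quad Pool.Agent.Run7.h275.RL

section gen

variable {O F : Type} [CommRing O] [Field F] [Algebra O F]

/-- The class `E` can be transformed into a class with the property `P` by a blowing-up which is an isomorphism
outside of its closure, and can be separated from `𝒯`. -/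
def ResP (P : Submodule O F → ValuationSubring F → Prop) (M : Submodule O F) (E 𝒯 : Set (ValuationSubring F)) :
    Prop :=
  ∃ C : Submodule O F, Md C ∧
    (∀ V : ValuationSubring F, Cn O V → Sep M V E → ∀ Q : Subring F, LR V M Q → LR V (M * C) Q) ∧
    ∀ V ∈ E, P (M * C) V ∧ Sep (M * C) V 𝒯

/-- The property is local. -/
def IsoInv (P : Submodule O F → ValuationSubring F → Prop) : Prop :=
  ∀ (M M' : Submodule O F) (V : ValuationSubring F), (∀ Q : Subring F, LR V M Q → LR V M' Q) → P M V → P M' V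

lemma ResP.empty {P : Submodule O F → ValuationSubring F → Prop} {M : Submodule O F}
    {𝒯 : Set (ValuationSubring F)} : ResP P M ∅ 𝒯 := by
  refine ⟨1, ⟨?_, 1, Submodule.one_le.1 le_rfl, one_ne_zero⟩, ?_, ?_⟩
  · rw [Submodule.one_eq_span]
    exact Submodule.fg_span_singleton _
  · intro V _ _ Q hQ
    rwa [mul_one]
  · intro V hV
    exact absurd hV (Set.notMem_empty V)

lemma ResP.of_bad (hPER : S_PER) {P : Submodule O F → ValuationSubring F → Prop} (hP : IsoInv P)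
    {M : Submodule O F} (hM : Md M) {E 𝒯 : Set (ValuationSubring F)} (hE : ∀ V ∈ E, Cn O V)
    (hreg : ∀ V ∈ E, P M V) (h : ResP P M {V ∈ E | ¬ Sep M V 𝒯} 𝒯) : ResP P M E 𝒯 := by
  obtain ⟨C, hC, iso, good⟩ := h
  refine ⟨C, hC, fun V hV hs => iso V hV (hs.mono fun T hT => hT.1), fun V hV => ?_⟩
  by_cases hs : Sep M V 𝒯
  · refine ⟨hP _ _ V (iso V (hE V hV) ?_) (hreg V hV), (((hPER O F M C hM hC).2 V (hE V hV) 𝒯).1 hs)⟩
    obtain ⟨k, c, hc, h1, h2⟩ := hs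
    refine ⟨k, c, hc, h1, ?_⟩
    rintro T ⟨hT, hTs⟩
    by_contra hcon
    exact hTs ⟨k, c, hc, hcon, h2⟩
  · exact good V ⟨hV, hs⟩

lemma glueP (hPER : S_PER) (hBUA : S_BUA) {P : Submodule O F → ValuationSubring F → Prop} (hP : IsoInv P)
    {M : Submodule O F} (hM : Md M) {E E' U 𝒯 : Set (ValuationSubring F)} (hE : ∀ V ∈ E, Cn O V)
    (hE' : E' ⊆ E) (hU : U ⊆ E) (hEE : ∀ V ∈ E, V ∈ E' ∨ V ∈ U) {C₁ : Submodule O F} (hC₁ : Md C₁)
    (iso : ∀ V : ValuationSubring F, Cn O V → Sep M V E' → ∀ Q : Subring F, LR V M Q → LR V (M * C₁) Q)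
    (good : ∀ V ∈ E', P (M * C₁) V ∧ Sep (M * C₁) V (𝒯 ∪ U))
    {k : ℕ} {C₂ : Submodule O F} (hC : Cent (M * C₁) U k C₂) (hR : ResP P (M * C₁ * C₂) U 𝒯) : ResP P M E 𝒯 := by
  obtain ⟨C₃, hC₃, iso₃, good₃⟩ := hR
  obtain ⟨p1, p2⟩ := hPER O F M C₁ hM hC₁
  obtain ⟨p3, p4⟩ := hPER O F (M * C₁) C₂ p1 hC.1
  obtain ⟨p5, p6⟩ := hPER O F (M * C₁ * C₂) C₃ p3 hC₃
  have e1 : M * (C₁ * (C₂ * C₃)) = M * C₁ * C₂ * C₃ := by
    rw [mul_assoc, mul_assoc]
  have hUC : ∀ V ∈ U, Cn O V := fun V hV => hE V (hU hV)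
  have iso' : ∀ V : ValuationSubring F, Cn O V → Sep (M * C₁) V U → ∀ Q : Subring F, LR V (M * C₁) Q →
      LR V (M * C₁ * C₂ * C₃) Q := by
    intro V hV hs Q hQ
    refine iso₃ V hV (((p4 V hV U).1) hs) Q ?_
    exact hBUA O F (M * C₁) p1 U hUC k C₂ hC V hV hs Q hQ
  refine ⟨C₁ * (C₂ * C₃), ?_, ?_, ?_⟩
  · obtain ⟨q1, -⟩ := hPER O F C₂ C₃ hC.1 hC₃
    exact (hPER O F C₁ (C₂ * C₃) hC₁ q1).1
  · intro V hV hs Q hQ
    rw [e1]
    exact iso' V hV ((p2 V hV U).1 (hs.mono hU)) Q (iso V hV (hs.mono hE') Q hQ)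
  · intro V hV
    rw [e1]
    rcases hEE V hV with h | h
    · obtain ⟨g1, g2⟩ := good V h
      refine ⟨hP _ _ V (iso' V (hE V hV) (g2.mono Set.subset_union_right)) g1, ?_⟩
      exact (p6 V (hE V hV) 𝒯).1 ((p4 V (hE V hV) 𝒯).1 (g2.mono Set.subset_union_left))
    · exact good₃ V h

/-- A step of the procedure: a relatively open subclass improves in the blowing-up of its closure. -/
def StepG (G : ℕ → Submodule O F → Set (ValuationSubring F) → Prop) : Prop :=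
  ∀ (b : ℕ) (M : Submodule O F), Md M → ∀ E : Set (ValuationSubring F), (∀ V ∈ E, Cn O V) → E.Nonempty →
    G b M E → ∃ k, ∃ h ∈ M ^ k, {V ∈ E | ¬ Vn M k V h}.Nonempty ∧
      ∀ M' : Submodule O F, Md M' → (∀ V ∈ {V ∈ E | ¬ Vn M k V h}, ∀ Q : Subring F, LR V M Q → LR V M' Q) →
        ∀ k₂ C₂, Cent M' {V ∈ E | ¬ Vn M k V h} k₂ C₂ → G (b - 1) (M' * C₂) {V ∈ E | ¬ Vn M k V h}

/-- **The general theorem.** -/
theorem GEN [IsNoetherianRing O] (hWF : S_WF) (hCEN : S_CEN) (hBUA : S_BUA) (hBUC : S_BUC) (hPER : S_PER)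
    {P : Submodule O F → ValuationSubring F → Prop} (hP : IsoInv P)
    {G : ℕ → Submodule O F → Set (ValuationSubring F) → Prop}
    (hmono : ∀ b M E E', E' ⊆ E → G b M E → G b M E') (hG0 : ∀ M E, G 0 M E → ∀ V ∈ E, P M V)
    (hstep : StepG G) (b : ℕ) : ∀ (q : ℕ) (M : Submodule O F), Md M → ∀ E 𝒯 : Set (ValuationSubring F),
      (∀ V ∈ E, Cn O V) → (∀ T ∈ 𝒯, Cn O T ∧ Sep M T E) → (∀ V ∈ E, Bd M V (E ∪ 𝒯) q) → G b M E →
      ResP P M E 𝒯 := by
  -- level zero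
  have h0 : ∀ (q : ℕ) (M : Submodule O F), Md M → ∀ E 𝒯 : Set (ValuationSubring F), (∀ V ∈ E, Cn O V) →
      (∀ T ∈ 𝒯, Cn O T ∧ Sep M T E) → (∀ V ∈ E, Bd M V 𝒯 q) → G 0 M E → ResP P M E 𝒯 := by
    intro q
    induction q with
    | zero =>
      intro M hM E 𝒯 hE h𝒯 hR hG
      refine ResP.of_bad hPER hP hM hE (hG0 M E hG) ?_
      have h0 : {V ∈ E | ¬ Sep M V 𝒯} = ∅ := by
        ext V
        simp only [Set.mem_ofPred_eq, Set.mem_empty_iff_false, iff_false, not_and, not_not]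
        exact fun hV => (hR V hV).sep hM (hE V hV)
      rw [h0]
      exact ResP.empty
    | succ q ihq =>
      intro M hM
      have key : ∀ E 𝒯 : Set (ValuationSubring F), (∀ V ∈ E, Cn O V) → (∀ T ∈ 𝒯, Cn O T ∧ Sep M T E) →
          (∀ V ∈ E, Bd M V 𝒯 (q + 1)) → (∀ V ∈ E, ¬ Sep M V 𝒯) → G 0 M E → ResP P M E 𝒯 := by
        intro E
        induction E using (hWF O F M hM).induction with
        | _ E ihE =>
        intro 𝒯 hE h𝒯 hR hns hG
        by_cases hne : E.Nonempty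
        swap
        · rw [Set.not_nonempty_iff_eq_empty.1 hne]
          exact ResP.empty
        obtain ⟨k, h, hh, hUne, hnext⟩ := hstep 0 M hM E hE hne hG
        set U : Set (ValuationSubring F) := {V ∈ E | ¬ Vn M k V h} with hU
        set E' : Set (ValuationSubring F) := {V ∈ E | Vn M k V h} with hE'
        have hE'E : E' ⊆ E := fun V hV => hV.1
        have hUE : U ⊆ E := fun V hV => hV.1
        have hTE' : ∀ T ∈ 𝒯 ∪ U, Cn O T ∧ Sep M T E' := by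
          rintro T (hT | hT)
          · exact ⟨(h𝒯 T hT).1, (h𝒯 T hT).2.mono hE'E⟩
          · exact ⟨hE T hT.1, k, h, hh, hT.2, fun T' hT' => hT'.2⟩
        obtain ⟨C₁, hC₁, iso₁, good₁⟩ := ihE E' ⟨hE'E, hE, k, h, hh, fun T hT => hT.2, by
            obtain ⟨T, hT⟩ := hUne
            exact ⟨T, hT.1, hT.2⟩⟩ (𝒯 ∪ U) (fun V hV => hE V hV.1) hTE' (fun V hV =>
              (hR V hV.1).union fun T hT => hns T hT.1)
              (fun V hV hs => hns V hV.1 (hs.mono Set.subset_union_left)) (hmono 0 M E E' hE'E hG)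
        obtain ⟨hM1, per1⟩ := hPER O F M C₁ hM hC₁
        have hUC : ∀ V ∈ U, Cn O V := fun V hV => hE V hV.1
        have isoU : ∀ V ∈ U, ∀ Q : Subring F, LR V M Q → LR V (M * C₁) Q := fun V hV =>
          iso₁ V (hUC V hV) (hTE' V (Or.inr hV)).2
        have hBdU : ∀ V ∈ U, Bd (M * C₁) V (𝒯 ∪ U) (q + 1) := fun V hV =>
          (per1 V (hUC V hV) _).2 _ ((hR V hV.1).union fun T hT => hns T hT.1)
        obtain ⟨k₂, C₂, hC₂⟩ := hCEN O F (M * C₁) hM1 U hUC (by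
          obtain ⟨T, hT⟩ := hUne
          exact ((hBdU T hT).mono Set.subset_union_right).ne_zero hM1)
        obtain ⟨hM2, per2⟩ := hPER O F (M * C₁) C₂ hM1 hC₂.1
        have hR3 : ResP P (M * C₁ * C₂) U 𝒯 := by
          refine ihq (M * C₁ * C₂) hM2 U 𝒯 hUC (fun T hT => ⟨(h𝒯 T hT).1, ?_⟩) (fun V hV => ?_)
            (hnext (M * C₁) hM1 isoU k₂ C₂ hC₂)
          · exact (per2 T (h𝒯 T hT).1 U).1 ((per1 T (h𝒯 T hT).1 U).1 ((h𝒯 T hT).2.mono hUE))
          · exact hBUC O F (M * C₁) hM1 U hUC k₂ C₂ hC₂ 𝒯 (fun T hT => ⟨(h𝒯 T hT).1,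
              (per1 T (h𝒯 T hT).1 U).1 ((h𝒯 T hT).2.mono hUE)⟩) V hV q (hBdU V hV)
        exact glueP hPER hBUA hP hM hE hE'E hUE (fun V hV => by
          by_cases h1 : Vn M k V h
          · exact Or.inl ⟨hV, h1⟩
          · exact Or.inr ⟨hV, h1⟩) hC₁ iso₁ good₁ hC₂ hR3
      intro E 𝒯 hE h𝒯 hR hG
      refine ResP.of_bad hPER hP hM hE (hG0 M E hG) ?_
      exact key _ 𝒯 (fun V hV => hE V hV.1) (fun T hT => ⟨(h𝒯 T hT).1, (h𝒯 T hT).2.mono fun V hV => hV.1⟩)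
        (fun V hV => hR V hV.1) (fun V hV => hV.2) (hmono 0 M E _ (fun V hV => hV.1) hG)
  induction b with
  | zero =>
    intro q M hM E 𝒯 hE h𝒯 hBd hG
    exact h0 q M hM E 𝒯 hE h𝒯 (fun V hV => (hBd V hV).mono Set.subset_union_right) hG
  | succ b ihb =>
    intro q M hM E
    induction E using (hWF O F M hM).induction with
    | _ E ihE =>
    intro 𝒯 hE h𝒯 hBd hG
    by_cases hne : E.Nonempty
    swap
    · rw [Set.not_nonempty_iff_eq_empty.1 hne]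
      exact ResP.empty
    obtain ⟨k, h, hh, hUne, hnext⟩ := hstep (b + 1) M hM E hE hne hG
    set U : Set (ValuationSubring F) := {V ∈ E | ¬ Vn M k V h} with hU
    set E' : Set (ValuationSubring F) := {V ∈ E | Vn M k V h} with hE'
    have hE'E : E' ⊆ E := fun V hV => hV.1
    have hUE : U ⊆ E := fun V hV => hV.1
    have hTE' : ∀ T ∈ 𝒯 ∪ U, Cn O T ∧ Sep M T E' := by
      rintro T (hT | hT)
      · exact ⟨(h𝒯 T hT).1, (h𝒯 T hT).2.mono hE'E⟩
      · exact ⟨hE T hT.1, k, h, hh, hT.2, fun T' hT' => hT'.2⟩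
    obtain ⟨C₁, hC₁, iso₁, good₁⟩ := ihE E' ⟨hE'E, hE, k, h, hh, fun T hT => hT.2, by
        obtain ⟨T, hT⟩ := hUne
        exact ⟨T, hT.1, hT.2⟩⟩ (𝒯 ∪ U) (fun V hV => hE V hV.1) hTE' (fun V hV => (hBd V hV.1).mono (by
          rintro T (hT | hT | hT)
          · exact Or.inl hT.1
          · exact Or.inr hT
          · exact Or.inl hT.1)) (hmono _ M E E' hE'E hG)
    obtain ⟨hM1, per1⟩ := hPER O F M C₁ hM hC₁
    have hUC : ∀ V ∈ U, Cn O V := fun V hV => hE V hV.1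
    have isoU : ∀ V ∈ U, ∀ Q : Subring F, LR V M Q → LR V (M * C₁) Q := fun V hV =>
      iso₁ V (hUC V hV) (hTE' V (Or.inr hV)).2
    have hBdU : ∀ V ∈ U, Bd (M * C₁) V (U ∪ 𝒯) q := fun V hV =>
      (per1 V (hUC V hV) _).2 _ ((hBd V hV.1).mono (Set.union_subset_union_left _ hUE))
    obtain ⟨k₂, C₂, hC₂⟩ := hCEN O F (M * C₁) hM1 U hUC (by
      obtain ⟨T, hT⟩ := hUne
      exact ((hBdU T hT).mono Set.subset_union_left).ne_zero hM1)
    obtain ⟨hM2, per2⟩ := hPER O F (M * C₁) C₂ hM1 hC₂.1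
    have hR3 : ResP P (M * C₁ * C₂) U 𝒯 := by
      refine ihb q (M * C₁ * C₂) hM2 U 𝒯 hUC (fun T hT => ⟨(h𝒯 T hT).1, ?_⟩)
        (fun V hV => (per2 V (hUC V hV) _).2 _ (hBdU V hV)) ?_
      · exact (per2 T (h𝒯 T hT).1 U).1 ((per1 T (h𝒯 T hT).1 U).1 ((h𝒯 T hT).2.mono hUE))
      · have := hnext (M * C₁) hM1 isoU k₂ C₂ hC₂
        rwa [Nat.add_sub_cancel] at this
    exact glueP hPER hBUA hP hM hE hE'E hUE (fun V hV => by
      by_cases h1 : Vn M k V h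
      · exact Or.inl ⟨hV, h1⟩
      · exact Or.inr ⟨hV, h1⟩) hC₁ iso₁ good₁ hC₂ hR3

end gen

end Pool.Agent.Run7.h275.RB
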