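import Pool.Agent.Run7.h275.RB7

/-!
# The step of the procedure for normal crossings
-/

set_option autoImplicit false
set_option linter.unusedVariables false

namespace Pool.Agent.Run7.h275.RB

open IsLocalRing Pool.Agent.W418.LU2 Pool.Agent.H918R2.Quad Pool.Agent.Run7.h275.RL

section log

variable {O F : Type} [CommRing O] [Field F] [Algebra O F]

/-- Every element of `E` has a chart with a boundary from a finite list, the order of the residual ideal is at most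
`b`. -/
def StN (M₀ N₀ : Submodule O F) (c b : ℕ) (M : Submodule O F) (E : Set (ValuationSubring F)) : Prop :=
  ∃ (m : ℕ) (p : Fin m → NP F), (∀ l, (p l).Ok M₀ N₀ c) ∧
    ∀ V ∈ E, ∃ l, (p l).At V ∧ LR V M (lo V.toSubring (p l).B) ∧ (p l).Lv N₀ c V b

/-- The final property. -/
def PN (M₀ N₀ : Submodule O F) (c : ℕ) (M : Submodule O F) (V : ValuationSubring F) : Prop :=
  ∃ p : NP F, p.Ok M₀ N₀ c ∧ p.At V ∧ LR V M (lo V.toSubring p.B) ∧ p.Lv N₀ c V 0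

lemma PN.iso (M₀ N₀ : Submodule O F) (c : ℕ) : IsoInv (PN M₀ N₀ c) := by
  rintro M M' V h ⟨p, h1, h2, h3, h4⟩
  exact ⟨p, h1, h2, h _ h3, h4⟩

lemma StN.mono (M₀ N₀ : Submodule O F) (c : ℕ) : ∀ b (M : Submodule O F) (E E' : Set (ValuationSubring F)), E' ⊆ E →
    StN M₀ N₀ c b M E → StN M₀ N₀ c b M E' := by
  rintro b M E E' hE ⟨m, p, h1, h2⟩
  exact ⟨m, p, h1, fun V hV => h2 V (hE hV)⟩

lemma StN.zero (M₀ N₀ : Submodule O F) (c : ℕ) : ∀ (M : Submodule O F) (E : Set (ValuationSubring F)),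
    StN M₀ N₀ c 0 M E → ∀ V ∈ E, PN M₀ N₀ c M V := by
  rintro M E ⟨m, p, h1, h2⟩ V hV
  obtain ⟨l, h3, h4, h5⟩ := h2 V hV
  exact ⟨p l, h1 l, h3, h4, h5⟩

/-- The generic choice for one chart. -/
lemma claim_n [IsNoetherianRing O] (hOPN : S_OPN) (hPRI : S_PRI) (hLQ : S_LQ) (hMONX : S_MONX) (hSTEPN : S_STEPN)
    (hJ : J0 O) {M M₀ N₀ : Submodule O F} {c : ℕ} (hM : Md M) {Eh K : Set (ValuationSubring F)}
    (hE : ∀ V ∈ Eh, Cn O V) (hirr : Irr M Eh)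
    (hKE : K ⊆ Eh) {p : NP F} (hOk : p.Ok M₀ N₀ c)
    (hK : ∀ V ∈ K, p.At V ∧ LR V M (lo V.toSubring p.B)) :
    ∃ j, ∃ a ∈ M ^ j, (∃ T ∈ Eh, ¬ Vn M j T a) ∧ ((∀ V ∈ K, Vn M j V a) ∨ (Dn M K Eh ∧
      ∃ (m' : ℕ) (p' : Fin m' → NP F), (∀ l, (p' l).Ok M₀ N₀ c) ∧
        ∀ V ∈ K, ¬ Vn M j V a → ∀ x : p.B, x ∈ IB p.B K → x ≠ 0 → (∀ b : p.B, b ∈ IB p.B K → (b : F) / x ∈ V) →
          ∃ l, (p' l).At V ∧ lo V.toSubring (p' l).B = bl V.toSubring p.B (IB p.B K) x ∧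
            ∀ b, p.Lv N₀ c V b → (p' l).Lv N₀ c V (b - 1))) := by
  by_cases hd : Dn M K Eh
  swap
  · have h1 : ∃ k, ∃ c ∈ M ^ k, (∀ T ∈ K, Vn M k T c) ∧ ∃ T ∈ Eh, ¬ Vn M k T c := by
      by_contra hcon
      push Not at hcon
      exact hd ⟨hKE, fun k c hc h T hT => hcon k c hc h T hT⟩
    obtain ⟨k, c, hc, h2, h3⟩ := h1
    exact ⟨k, c, hc, h3, Or.inl h2⟩
  · have hOn : ∀ V ∈ K, On M p.B V := fun V hV => ⟨(hK V hV).1.BV, (hK V hV).2⟩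
    obtain ⟨hprime, hsame, hopen⟩ := hPRI hOPN O F M hM K Eh hE hirr hd p.B hOn
    have hmem : ∀ V ∈ K, ∀ b : p.B, b ∈ IB p.B K → V.valuation (b : F) < 1 :=
      fun V hV b hb => hb V hV (hOn V hV).1
    obtain ⟨t₂, ht₂, hRQ⟩ := hLQ O F hJ p.B hOk.fg (IB p.B K) hprime
    obtain ⟨t₁, ht₁, m', p', hp', hV'⟩ := hSTEPN hMONX O F M₀ N₀ c p hOk (IB p.B K) hprime
    have htt : t₁ * t₂ ∉ IB p.B K := fun h => (hprime.mem_or_mem h).elim ht₁ ht₂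
    obtain ⟨j, a, ha, hane, hat⟩ := hopen _ htt
    refine ⟨j, a, ha, hane, Or.inr ⟨hd, m', p', hp', ?_⟩⟩
    intro V hV hVa x hx hx0 hxV
    have hst := hat V hV hVa
    have h1 : ¬ V.valuation (t₁ : F) < 1 := by
      intro hs
      apply hst
      change V.valuation ((t₁ : F) * (t₂ : F)) < 1
      rw [map_mul]
      exact mul_lt_one_aux' hs ((V.valuation_le_one_iff _).2 ((hOn V hV).1 t₂.2))
    have h2 : ¬ V.valuation (t₂ : F) < 1 := by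
      intro ht
      apply hst
      change V.valuation ((t₁ : F) * (t₂ : F)) < 1
      rw [map_mul]
      exact mul_lt_one_aux ((V.valuation_le_one_iff _).2 ((hOn V hV).1 t₁.2)) ht
    exact hV' V (hK V hV).1 (hmem V hV) h1 (hRQ V (hOn V hV).1 (hmem V hV) h2) x hx hx0 hxV

theorem STN [IsNoetherianRing O] (hPEEL : S_PEEL) (hOPN : S_OPN) (hBUB : S_BUB) (hLQ : S_LQ)
    (hTRN : S_TRN) (hPRI : S_PRI) (hMONX : S_MONX) (hSTEPN : S_STEPN) (hJ : J0 O) (M₀ N₀ : Submodule O F) (c : ℕ) :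
    StepG (StN M₀ N₀ c) := by
  intro b M hM E hE hne hSt
  -- peeling
  obtain ⟨k, h, hh, hirr, w, hwM, hw0, hw⟩ := hPEEL O F M hM E hE hne
  set Eh : Set (ValuationSubring F) := {V ∈ E | ¬ Vn M k V h} with hEh
  have hEhC : ∀ V ∈ Eh, Cn O V := fun V hV => hE V hV.1
  obtain ⟨m, p, hOk, hcl⟩ := hSt
  -- the classes
  let K : Fin m → Set (ValuationSubring F) := fun l => {V ∈ Eh | (p l).At V ∧
    LR V M (lo V.toSubring (p l).B) ∧ (p l).Lv N₀ c V b}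
  have hKE : ∀ l, K l ⊆ Eh := fun l V hV => hV.1
  choose j a ha hane hcase using fun l => claim_n hOPN hPRI hLQ hMONX hSTEPN hJ hM (K := K l) hEhC hirr
    (hKE l) (hOk l) (fun V hV => ⟨hV.2.1, hV.2.2.1⟩)
  obtain ⟨J, A, hA, hAne, hAl⟩ := prodA hM hEhC hirr m j a ha hane
  -- the open subclass
  have hmem : ∀ V ∈ E, ¬ Vn M (k + J) V (h * A) ↔ ¬ Vn M k V h ∧ ¬ Vn M J V A := fun V hV =>
    not_vn_mul hM (hE V hV) hh hA
  have hhA : h * A ∈ M ^ (k + J) := mul_mem_pow_add hh hA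
  refine ⟨k + J, h * A, hhA, ?_, ?_⟩
  · obtain ⟨T, hT, hTa⟩ := hAne
    exact ⟨T, hT.1, (hmem T hT.1).2 ⟨hT.2, hTa⟩⟩
  set U : Set (ValuationSubring F) := {V ∈ E | ¬ Vn M (k + J) V (h * A)} with hU
  have hUh : U = {T ∈ Eh | ¬ Vn M J T A} := by
    ext V
    constructor
    · rintro ⟨hV, h1⟩
      obtain ⟨h2, h3⟩ := (hmem V hV).1 h1
      exact ⟨⟨hV, h2⟩, h3⟩
    · rintro ⟨⟨hV, h2⟩, h3⟩
      exact ⟨hV, (hmem V hV).2 ⟨h2, h3⟩⟩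
  intro M' hM' isoU k₂ C₂ hC₂
  have hUC : ∀ V ∈ U, Cn O V := fun V hV => hE V hV.1
  have hUEh : ∀ V ∈ U, V ∈ Eh ∧ ¬ Vn M J V A := fun V hV => by rw [hUh] at hV; exact hV
  -- the blowing-up at the elements of a dense class
  have blow : ∀ (K' : Set (ValuationSubring F)) (B' : Subring F), Dn M K' Eh → FGO O B' →
      (∀ V ∈ K', On M B' V) → ∀ V ∈ K', ¬ Vn M J V A →
      (∃ x : B', x ∈ IB B' K' ∧ x ≠ 0 ∧ ∀ b : B', b ∈ IB B' K' → (b : F) / x ∈ V) ∧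
      ∀ x : B', x ∈ IB B' K' → x ≠ 0 → (∀ b : B', b ∈ IB B' K' → (b : F) / x ∈ V) →
        LR V (M' * C₂) (bl V.toSubring B' (IB B' K') x) := by
    intro K' B' hd hfg hOn V hV hVA
    have hd' : Dn M {T ∈ K' | ¬ Vn M J T A} U := by
      rw [hUh]
      exact hd.open' hM hEhC hA
    have hd'' := hTRN hOPN O F M M' hM hM' _ U hUC isoU hd'
    obtain ⟨hprime, hsame, hopen⟩ := hPRI hOPN O F M hM K' Eh hEhC hirr hd B' hOn
    have hIB := hsame J A hA hAne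
    have := hBUB O F M' hM' U hUC k₂ C₂ hC₂ {T ∈ K' | ¬ Vn M J T A} B' hd'' hfg (fun T hT =>
      ⟨(hOn T hT.1).1, isoU T (hd''.1 hT) _ (hOn T hT.1).2⟩) V ⟨hV, hVA⟩
    rw [hIB] at this
    exact this
  classical
  choose m' p' hp' hV' using fun l : {l : Fin m // Dn M (K l) Eh ∧
    ¬ ∀ V ∈ K l, Vn M (j l) V (a l)} => ((hcase l.1).resolve_left l.2.2).2
  let ι := Σ l : {l : Fin m // Dn M (K l) Eh ∧ ¬ ∀ V ∈ K l, Vn M (j l) V (a l)}, Fin (m' l)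
  let ε := Fintype.equivFin ι
  refine ⟨Fintype.card ι, fun i => p' (ε.symm i).1 (ε.symm i).2, fun i => hp' (ε.symm i).1 (ε.symm i).2, ?_⟩
  intro V hV
  obtain ⟨hVh, hVA⟩ := hUEh V hV
  have hVl := hAl V hVh hVA
  obtain ⟨l, h1, h2, h3⟩ := hcl V hV.1
  have hVK : V ∈ K l := ⟨hVh, h1, h2, h3⟩
  have hn1 : ¬ ∀ V ∈ K l, Vn M (j l) V (a l) := fun h4 => hVl l (h4 V hVK)
  have hd : Dn M (K l) Eh := ((hcase l).resolve_left hn1).1
  obtain ⟨⟨x, hx, hx0, hxV⟩, hbl⟩ := blow (K l) (p l).B hd (hOk l).fg (fun T hT =>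
    ⟨hT.2.1.BV, hT.2.2.1⟩) V hVK hVA
  obtain ⟨l', h5, h6, h7⟩ := hV' ⟨l, hd, hn1⟩ V hVK (hVl l) x hx hx0 hxV
  refine ⟨ε ⟨⟨l, hd, hn1⟩, l'⟩, ?_⟩
  beta_reduce
  rw [Equiv.symm_apply_apply]
  refine ⟨h5, ?_, h7 b h3⟩
  rw [h6]
  exact hbl x hx hx0 hxV

end log

end Pool.Agent.Run7.h275.RB
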