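import Pool.Agent.W418.LU2.Reg
import Pool.Agent.H918R2.Quad.Defs

/-!
# A light copy of parts of the libraries `W418.LU2`, `TH188.QS` and `TH188.ARC`

Places (`Pr`, `AA`, `prA`), derivations along a place (`Der`, `dd`, `im`), blowing-ups of regular local rings
(`regP_qt`, `RegP.full`), Jacobian criteria (`exists_jac`), local rings of models (`LR`).
-/

set_option autoImplicit false
set_option linter.unusedVariables false
set_option linter.unusedSectionVars false
set_option linter.unusedTactic false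

universe u v

namespace Pool.Agent.Run7.h275.RL

open IsLocalRing Pool.Agent.W418.LU2

section place

variable {R F K : Type u} [CommRing R] [IsDomain R] [Field F] [Algebra R F] [IsFractionRing R F]
  [Field K] (φ : R →+* K)

/-- The value of a fraction at the place. -/
def Pr (z : F) (w : K) : Prop :=
  ∃ a b : R, φ b ≠ 0 ∧ z * algebraMap R F b = algebraMap R F a ∧ w * φ b = φ a

variable {φ}

lemma Pr.unique {z : F} {w w' : K} (h : Pr φ z w) (h' : Pr φ z w') : w = w' := by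
  obtain ⟨a, b, hb, h1, h2⟩ := h
  obtain ⟨a', b', hb', h3, h4⟩ := h'
  have h5 : a * b' = a' * b := by
    apply IsFractionRing.injective R F
    rw [map_mul, map_mul, ← h1, ← h3]
    ring
  have h6 : w * φ b * φ b' = w' * φ b' * φ b := by
    rw [h2, h4, ← map_mul, ← map_mul, h5]
  apply mul_right_cancel₀ (mul_ne_zero hb hb')
  linear_combination h6

lemma Pr.alg (a : R) : Pr φ (algebraMap R F a) (φ a) :=
  ⟨a, 1, by rw [map_one]; exact one_ne_zero, by rw [map_one, mul_one], by rw [map_one, mul_one]⟩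

lemma Pr.zero : Pr φ (0 : F) 0 := by
  have := Pr.alg (F := F) (φ := φ) 0
  rwa [map_zero, map_zero] at this

lemma Pr.one : Pr φ (1 : F) 1 := by
  have := Pr.alg (F := F) (φ := φ) 1
  rwa [map_one, map_one] at this

lemma Pr.add {z z' : F} {w w' : K} (h : Pr φ z w) (h' : Pr φ z' w') : Pr φ (z + z') (w + w') := by
  obtain ⟨a, b, hb, h1, h2⟩ := h
  obtain ⟨a', b', hb', h3, h4⟩ := h'
  refine ⟨a * b' + a' * b, b * b', by rw [map_mul]; exact mul_ne_zero hb hb', ?_, ?_⟩
  · rw [map_add, map_mul, map_mul, map_mul, ← h1, ← h3]; ring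
  · rw [map_add, map_mul, map_mul, map_mul, ← h2, ← h4]; ring

lemma Pr.neg {z : F} {w : K} (h : Pr φ z w) : Pr φ (-z) (-w) := by
  obtain ⟨a, b, hb, h1, h2⟩ := h
  exact ⟨-a, b, hb, by rw [map_neg, ← h1]; ring, by rw [map_neg, ← h2]; ring⟩

lemma Pr.mul {z z' : F} {w w' : K} (h : Pr φ z w) (h' : Pr φ z' w') : Pr φ (z * z') (w * w') := by
  obtain ⟨a, b, hb, h1, h2⟩ := h
  obtain ⟨a', b', hb', h3, h4⟩ := h'
  refine ⟨a * a', b * b', by rw [map_mul]; exact mul_ne_zero hb hb', ?_, ?_⟩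
  · rw [map_mul, map_mul, ← h1, ← h3]; ring
  · rw [map_mul, map_mul, ← h2, ← h4]; ring

lemma Pr.inv {z : F} {w : K} (h : Pr φ z w) (hw : w ≠ 0) : Pr φ z⁻¹ w⁻¹ := by
  obtain ⟨a, b, hb, h1, h2⟩ := h
  have ha : φ a ≠ 0 := by
    rw [← h2]
    exact mul_ne_zero hw hb
  have hz : z ≠ 0 := by
    rintro rfl
    rw [zero_mul] at h1
    have h3 : a = 0 := IsFractionRing.injective R F (by rw [← h1, map_zero])
    rw [h3, map_zero] at ha
    exact ha rfl
  refine ⟨b, a, ha, ?_, ?_⟩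
  · rw [← h1, inv_mul_cancel_left₀ hz]
  · rw [← h2, inv_mul_cancel_left₀ hw]

lemma Pr.ne_zero {z : F} {w : K} (h : Pr φ z w) (hw : w ≠ 0) : z ≠ 0 := by
  rintro rfl
  exact hw (h.unique Pr.zero)

lemma Pr.pow {z : F} {w : K} (h : Pr φ z w) (n : ℕ) : Pr φ (z ^ n) (w ^ n) := by
  induction n with
  | zero => rw [pow_zero, pow_zero]; exact Pr.one
  | succ n ih => rw [pow_succ, pow_succ]; exact ih.mul h

lemma Pr.zpow {z : F} {w : K} (h : Pr φ z w) (hw : w ≠ 0) (n : ℤ) : Pr φ (z ^ n) (w ^ n) := by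
  rcases n with n | n
  · rw [Int.ofNat_eq_natCast, zpow_natCast, zpow_natCast]
    exact h.pow n
  · rw [zpow_negSucc, zpow_negSucc]
    exact (h.pow _).inv (pow_ne_zero _ hw)

lemma Pr.prod {ι : Type} (s : Finset ι) {z : ι → F} {w : ι → K} (h : ∀ i ∈ s, Pr φ (z i) (w i)) :
    Pr φ (∏ i ∈ s, z i) (∏ i ∈ s, w i) := by
  classical
  induction s using Finset.induction_on with
  | empty => simpa using Pr.one
  | insert a s ha ih =>
    rw [Finset.prod_insert ha, Finset.prod_insert ha]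
    exact (h a (Finset.mem_insert_self _ _)).mul (ih fun i hi => h i (Finset.mem_insert_of_mem hi))

lemma Pr.sum {ι : Type} (s : Finset ι) {z : ι → F} {w : ι → K} (h : ∀ i ∈ s, Pr φ (z i) (w i)) :
    Pr φ (∑ i ∈ s, z i) (∑ i ∈ s, w i) := by
  classical
  induction s using Finset.induction_on with
  | empty => simpa using Pr.zero
  | insert a s ha ih =>
    rw [Finset.sum_insert ha, Finset.sum_insert ha]
    exact (h a (Finset.mem_insert_self _ _)).add (ih fun i hi => h i (Finset.mem_insert_of_mem hi))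

variable (F φ) (V : ValuationSubring K)

/-- The fractions whose values are in the valuation ring. -/
def AA : Subring F where
  carrier := {z | ∃ w ∈ V, Pr φ z w}
  mul_mem' := by
    rintro z z' ⟨w, hw, h⟩ ⟨w', hw', h'⟩
    exact ⟨_, V.mul_mem _ _ hw hw', h.mul h'⟩
  one_mem' := ⟨1, V.one_mem, Pr.one⟩
  add_mem' := by
    rintro z z' ⟨w, hw, h⟩ ⟨w', hw', h'⟩
    exact ⟨_, V.add_mem _ _ hw hw', h.add h'⟩
  zero_mem' := ⟨0, V.zero_mem, Pr.zero⟩
  neg_mem' := by
    rintro z ⟨w, hw, h⟩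
    exact ⟨_, V.neg_mem _ hw, h.neg⟩

variable {F φ V}

lemma mem_AA {z : F} : z ∈ AA F φ V ↔ ∃ w ∈ V, Pr φ z w := Iff.rfl

lemma Pr.mem_AA {z : F} {w : K} (h : Pr φ z w) : z ∈ AA F φ V ↔ w ∈ V := by
  constructor
  · rintro ⟨w', hw', h'⟩
    rwa [h.unique h']
  · intro hw
    exact ⟨w, hw, h⟩

lemma loc_AA : Loc (AA F φ V) := by
  rintro z ⟨w, hw, h⟩
  have key : ∀ (z : F) (w : K), w ∈ V → Pr φ z w → w ≠ 0 → w⁻¹ ∈ V →
      z ≠ 0 ∧ z⁻¹ ∈ AA F φ V := fun z w hw h h0 hi => ⟨h.ne_zero h0, _, hi, h.inv h0⟩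
  by_cases h0 : w = 0
  · right
    refine key _ (1 - w) (V.sub_mem V.one_mem hw) ?_ ?_ ?_
    · rw [sub_eq_add_neg, sub_eq_add_neg]
      exact Pr.one.add h.neg
    · rw [h0, sub_zero]; exact one_ne_zero
    · rw [h0, sub_zero, inv_one]; exact V.one_mem
  · rcases V.mem_or_inv_mem w⁻¹ with h1 | h1
    · exact Or.inl (key z w hw h h0 h1)
    · by_cases h2 : w⁻¹ ∈ V
      · exact Or.inl (key z w hw h h0 h2)
      · right
        have h3 : V.valuation w < 1 := by
          rw [inv_inv] at h1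
          refine lt_of_le_of_ne ((V.valuation_le_one_iff _).2 hw) fun h4 => h2 ?_
          rw [← V.valuation_le_one_iff, map_inv₀, h4, inv_one]
        have h4 : V.valuation (1 - w) = 1 := by
          rw [sub_eq_add_neg]
          have : V.valuation (-w) < V.valuation 1 := by rwa [Valuation.map_neg, map_one]
          rw [Valuation.map_add_eq_of_lt_left _ this, map_one]
        refine key _ (1 - w) (V.sub_mem V.one_mem hw) ?_ ?_ ?_
        · rw [sub_eq_add_neg, sub_eq_add_neg]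
          exact Pr.one.add h.neg
        · intro h5
          rw [h5, map_zero] at h4
          exact zero_ne_one h4
        · rw [← V.valuation_le_one_iff, map_inv₀, h4, inv_one]

/-- The reduction. -/
noncomputable def prA : AA F φ V →+* K where
  toFun z := z.2.choose
  map_one' := (Subtype.prop (1 : AA F φ V)).choose_spec.2.unique Pr.one
  map_mul' a b := (Subtype.prop (a * b)).choose_spec.2.unique
    (a.2.choose_spec.2.mul b.2.choose_spec.2)
  map_zero' := (Subtype.prop (0 : AA F φ V)).choose_spec.2.unique Pr.zero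
  map_add' a b := (Subtype.prop (a + b)).choose_spec.2.unique
    (a.2.choose_spec.2.add b.2.choose_spec.2)

lemma prA_spec (z : AA F φ V) : Pr φ (z : F) (prA z) := z.2.choose_spec.2

lemma prA_mem (z : AA F φ V) : prA z ∈ V := z.2.choose_spec.1

lemma prA_eq (z : AA F φ V) {w : K} (h : Pr φ (z : F) w) : prA z = w := (prA_spec z).unique h

end place
section cic

variable {F : Type u} [Field F]

lemma closure_insert_closure (t : F) (U : Set F) :
    Subring.closure (insert t (Subring.closure U : Set F)) = Subring.closure (insert t U) := by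
  apply le_antisymm
  · rw [Subring.closure_le]
    rintro y (rfl | hy)
    · exact Subring.subset_closure (Set.mem_insert _ _)
    · exact Subring.closure_mono (Set.subset_insert _ _) hy
  · rw [Subring.closure_le]
    rintro y (rfl | hy)
    · exact Subring.subset_closure (Set.mem_insert _ _)
    · exact Subring.subset_closure (Set.mem_insert_of_mem _ (Subring.subset_closure hy))


end cic

section loeq

variable {F : Type u} [Field F]

lemma lo_eq {A B B' : Subring F} (hA : B ≤ A) (h1 : B ≤ B') (h2 : B' ≤ lo A B) :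
    lo A B' = lo A B := by
  apply le_antisymm
  · rintro z ⟨a, ha, b, hb, hb0, hbA, rfl⟩
    exact (lo A B).mul_mem (h2 ha) (inv_mem_lo hA (h2 hb) hb0 hbA)
  · exact lo_mono h1


end loeq

lemma loc_V {K : Type u} [Field K] (V : ValuationSubring K) : Loc V.toSubring := by
  intro w hw
  have hw : w ∈ V := hw
  have key : ∀ w : K, V.valuation w = 1 → w ≠ 0 ∧ w⁻¹ ∈ V.toSubring := by
    intro w h
    refine ⟨fun h0 => ?_, ?_⟩
    · rw [h0, map_zero] at h
      exact zero_ne_one h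
    · change w⁻¹ ∈ V
      rw [← V.valuation_le_one_iff, map_inv₀, h, inv_one]
  by_cases h : V.valuation w = 1
  · exact Or.inl (key w h)
  · have h3 : V.valuation w < 1 := lt_of_le_of_ne ((V.valuation_le_one_iff _).2 hw) h
    right
    apply key
    rw [sub_eq_add_neg]
    have : V.valuation (-w) < V.valuation 1 := by rwa [Valuation.map_neg, map_one]
    rw [Valuation.map_add_eq_of_lt_left _ this, map_one]

section qt

variable {F : Type u} [Field F]

/-- Zero and the elements whose inverses are not in `A`. -/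
def NU (A : Subring F) (y : F) : Prop := ¬ (y ≠ 0 ∧ y⁻¹ ∈ A)

lemma lo_le_lo {A B B' : Subring F} (hB' : B' ≤ A) (h : B ≤ lo A B') : lo A B ≤ lo A B' := by
  rintro z ⟨a, ha, b, hb, hb0, hbA, rfl⟩
  exact (lo A B').mul_mem (h ha) (inv_mem_lo hB' (h hb) hb0 hbA)

/-- `B` is closed under inverses of elements which are units in `A`. -/
def IC (A B : Subring F) : Prop := ∀ y ∈ B, y ≠ 0 → y⁻¹ ∈ A → y⁻¹ ∈ B

lemma IC.lo_eq {A B : Subring F} (h : IC A B) : lo A B = B := by
  apply le_antisymm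
  · rintro z ⟨a, ha, b, hb, hb0, hbA, rfl⟩
    exact B.mul_mem ha (h b hb hb0 hbA)
  · exact le_lo A B

lemma ic_lo {A B : Subring F} (hB : B ≤ A) : IC A (lo A B) := fun y hy h0 h1 =>
  inv_mem_lo hB hy h0 h1

/-- The quadratic transform with respect to `z`. -/
def QP (A B : Subring F) (z : F) : Subring F :=
  lo A (Subring.closure ((B : Set F) ∪ {t | ∃ y ∈ B, NU A y ∧ t = y * z⁻¹}))

/-- `z` is a nonzero nonunit which divides all nonunits of `B` in `A`. -/
structure Mi (A B : Subring F) (z : F) : Prop where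
  mem : z ∈ B
  ne : z ≠ 0
  nu : z⁻¹ ∉ A
  min : ∀ y ∈ B, NU A y → y * z⁻¹ ∈ A

/-- The quadratic transform. -/
def qt (A B : Subring F) : Subring F :=
  lo A (Subring.closure ((B : Set F) ∪ {t | ∃ y ∈ B, ∃ z, NU A y ∧ Mi A B z ∧ t = y * z⁻¹}))

lemma Mi.NU {A B : Subring F} {z : F} (h : Mi A B z) : NU A z := fun h' => h.nu h'.2

lemma qcl_le {A B : Subring F} (hB : B ≤ A) {z : F} (hz : Mi A B z) :
    Subring.closure ((B : Set F) ∪ {t | ∃ y ∈ B, NU A y ∧ t = y * z⁻¹}) ≤ A := by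
  rw [Subring.closure_le]
  rintro t (ht | ⟨y, hy, hyn, rfl⟩)
  · exact hB ht
  · exact hz.min y hy hyn

lemma qcl_le' {A B : Subring F} (hB : B ≤ A) :
    Subring.closure ((B : Set F) ∪ {t | ∃ y ∈ B, ∃ z, NU A y ∧ Mi A B z ∧ t = y * z⁻¹}) ≤ A := by
  rw [Subring.closure_le]
  rintro t (ht | ⟨y, hy, z, hyn, hz, rfl⟩)
  · exact hB ht
  · exact hz.min y hy hyn

lemma qt_le {A B : Subring F} (hB : B ≤ A) : qt A B ≤ A := lo_le (qcl_le' hB)

lemma ic_qt {A B : Subring F} (hB : B ≤ A) : IC A (qt A B) := ic_lo (qcl_le' hB)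

lemma le_qt (A B : Subring F) : B ≤ qt A B := fun b hb =>
  le_lo _ _ (Subring.subset_closure (Or.inl hb))

lemma div_mem_qt {A B : Subring F} {z : F} (hz : Mi A B z) {y : F} (hy : y ∈ B)
    (hn : Pool.Agent.Run7.h275.RL.NU A y) : y * z⁻¹ ∈ qt A B :=
  le_lo _ _ (Subring.subset_closure (Or.inr ⟨y, hy, z, hn, hz, rfl⟩))

lemma qt_eq {A B : Subring F} (hB : B ≤ A) {z : F} (hz : Mi A B z) : qt A B = QP A B z := by
  apply le_antisymm
  · refine lo_le_lo (qcl_le hB hz) ?_
    rw [Subring.closure_le]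
    rintro t (ht | ⟨y, hy, z', hyn, hz', rfl⟩)
    · exact le_lo _ _ (Subring.subset_closure (Or.inl ht))
    · have h1 : y * z'⁻¹ = (y * z⁻¹) * (z' * z⁻¹)⁻¹ := by
        have := hz.ne
        have := hz'.ne
        field_simp
      rw [h1]
      refine ⟨y * z⁻¹, Subring.subset_closure (Or.inr ⟨y, hy, hyn, rfl⟩), z' * z⁻¹,
        Subring.subset_closure (Or.inr ⟨z', hz'.mem, hz'.NU, rfl⟩),
        mul_ne_zero hz'.ne (inv_ne_zero hz.ne), ?_, rfl⟩
      rw [mul_inv, inv_inv, mul_comm]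
      exact hz'.min z hz.mem hz.NU
  · refine lo_mono (Subring.closure_mono ?_)
    rintro t (ht | ⟨y, hy, hyn, rfl⟩)
    · exact Or.inl ht
    · exact Or.inr ⟨y, hy, z, hyn, hz, rfl⟩

section regp

variable {A P : Subring F} {ι : Type} [Fintype ι] {x : ι → F}

/-- The nonunits are combinations of the nonunits among the `x i`. -/
def Full (A P : Subring F) (x : ι → F) : Prop :=
  ∀ y ∈ P, NU A y → ∃ c : ι → F, (∀ i, c i ∈ P) ∧ (∀ i, c i ≠ 0 → (x i)⁻¹ ∉ A) ∧
    y = ∑ i, c i * x i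

/-- Blowing up the point. -/
theorem regP_qt [DecidableEq ι] (hA : Loc A) (h : RegP A P x) (j : ι) (hj : (x j)⁻¹ ∉ A)
    (s : Finset ι) (hs : ∀ i ∈ s, i ≠ j ∧ (x i)⁻¹ ∉ A ∧ x i * (x j)⁻¹ ∈ A) :
    RegP A (lo A (Subring.closure ((P : Set F) ∪ {t | ∃ i ∈ s, t = x i * (x j)⁻¹})))
      (fun i => if i ∈ s then x i * (x j)⁻¹ else x i) := by
  induction s using Finset.induction_on with
  | empty =>
    have h1 : (P : Set F) ∪ {t | ∃ i ∈ (∅ : Finset ι), t = x i * (x j)⁻¹} = (P : Set F) := by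
      ext t
      simp
    rw [h1, Subring.closure_eq]
    have h2 : lo A P = P := IC.lo_eq h.inv
    rw [h2]
    simpa using h
  | insert a s ha ih =>
    have h0 := ih fun i hi => hs i (Finset.mem_insert_of_mem hi)
    obtain ⟨haj, hai, hat⟩ := hs a (Finset.mem_insert_self a s)
    have hjs : j ∉ s := fun hjs => (hs j (Finset.mem_insert_of_mem hjs)).1 rfl
    have hS : Subring.closure ((P : Set F) ∪ {t | ∃ i ∈ s, t = x i * (x j)⁻¹}) ≤ A := by
      rw [Subring.closure_le]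
      rintro t (ht | ⟨i, hi, rfl⟩)
      · exact h.PA ht
      · exact (hs i (Finset.mem_insert_of_mem hi)).2.2
    have h1 := RegP.blow hA hS h0 haj (by
      change (if a ∈ s then x a * (x j)⁻¹ else x a)⁻¹ ∉ A
      rwa [if_neg ha]) (by
      change (if j ∈ s then x j * (x j)⁻¹ else x j)⁻¹ ∉ A
      rwa [if_neg hjs]) (by
      change (if a ∈ s then x a * (x j)⁻¹ else x a) * (if j ∈ s then x j * (x j)⁻¹ else x j)⁻¹ ∈ A
      rwa [if_neg ha, if_neg hjs])
    have h2 : (if a ∈ s then x a * (x j)⁻¹ else x a) *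
        (if j ∈ s then x j * (x j)⁻¹ else x j)⁻¹ = x a * (x j)⁻¹ := by
      rw [if_neg ha, if_neg hjs]
    simp only [h2] at h1
    rw [closure_insert_closure] at h1
    have h3 : insert (x a * (x j)⁻¹) ((P : Set F) ∪ {t | ∃ i ∈ s, t = x i * (x j)⁻¹}) =
        (P : Set F) ∪ {t | ∃ i ∈ insert a s, t = x i * (x j)⁻¹} := by
      ext t
      constructor
      · rintro (rfl | ht | ⟨i, hi, rfl⟩)
        · exact Or.inr ⟨a, Finset.mem_insert_self _ _, rfl⟩
        · exact Or.inl ht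
        · exact Or.inr ⟨i, Finset.mem_insert_of_mem hi, rfl⟩
      · rintro (ht | ⟨i, hi, rfl⟩)
        · exact Or.inr (Or.inl ht)
        · rcases Finset.mem_insert.1 hi with rfl | hi
          · exact Or.inl rfl
          · exact Or.inr (Or.inr ⟨i, hi, rfl⟩)
    rw [h3] at h1
    have h4 : Function.update (fun i => if i ∈ s then x i * (x j)⁻¹ else x i) a
        (x a * (x j)⁻¹) = fun i => if i ∈ insert a s then x i * (x j)⁻¹ else x i := by
      funext i
      by_cases hia : i = a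
      · subst hia
        rw [Function.update_self, if_pos (Finset.mem_insert_self _ _)]
      · rw [Function.update_of_ne hia]
        simp only [Finset.mem_insert, hia, false_or]
    rw [h4] at h1
    exact h1

/-- Extension to a full system. -/
theorem RegP.full (h : RegP A P x) : ∃ (m : ℕ) (w : Fin m → F),
    RegP A P (Sum.elim x w) ∧ Full A P (Sum.elim x w) := by
  classical
  have hreg := h.reg
  let N := {i : ι // (⟨x i, h.mem i⟩ : P) ∈ maximalIdeal P}
  have h0 : Ind (fun i : N => (⟨x i, h.mem i⟩ : P)) :=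
    h.ind.ind (Subtype.val : N → ι) Subtype.val_injective fun i => i.2
  obtain ⟨m, w, hw, hd⟩ := h0.extend
  have h1 : Ind (Sum.elim (fun i : N => (⟨x i, h.mem i⟩ : P)) w) := by
    refine ind_of_span hw ?_
    rw [hd, Fintype.card_sum, Fintype.card_fin]
  refine ⟨m, fun i => w i, ⟨h.PA, ?_, ?_, hreg, h.inv, ?_⟩, ?_⟩
  · rintro (i | i)
    · exact h.ne i
    · intro h2
      exact h1.ne_zero (Sum.inr i) (Subtype.ext h2)
  · rintro (i | i)
    · exact h.mem i
    · exact (w i).2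
  · refine IndN.of_ind (Sum.map (Subtype.val : N → ι) (id : Fin m → Fin m))
      (Sum.map_injective.2 ⟨Subtype.val_injective, Function.injective_id⟩) ?_ ?_
    · rintro (i | i) hi
      · exact ⟨Sum.inl ⟨i, hi⟩, rfl⟩
      · exact ⟨Sum.inr i, rfl⟩
    · convert h1 using 1
      funext i
      rcases i with i | i <;> rfl
  · intro y hy hn
    have h2 : (⟨y, hy⟩ : P) ∈ maximalIdeal P := by
      rw [h.mem_max]
      exact hn
    rw [← hw, Ideal.mem_span_range_iff_exists_fun] at h2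
    obtain ⟨c, hc⟩ := h2
    let c' : ι ⊕ Fin m → F := Sum.elim
      (fun i => if hi : (⟨x i, h.mem i⟩ : P) ∈ maximalIdeal P then (c (Sum.inl ⟨i, hi⟩) : F) else 0)
      (fun i => (c (Sum.inr i) : F))
    refine ⟨c', ?_, ?_, ?_⟩
    · rintro (i | i)
      · change (if hi : (⟨x i, h.mem i⟩ : P) ∈ maximalIdeal P then (c (Sum.inl ⟨i, hi⟩) : F)
          else 0) ∈ P
        split_ifs
        · exact (c _).2
        · exact P.zero_mem
      · exact (c _).2
    · rintro (i | i)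
      · intro h3
        change (if hi : (⟨x i, h.mem i⟩ : P) ∈ maximalIdeal P then (c (Sum.inl ⟨i, hi⟩) : F)
          else 0) ≠ 0 at h3
        split_ifs at h3 with h4
        · rw [h.mem_max] at h4
          exact fun h5 => h4 ⟨h.ne i, h5⟩
        · exact absurd rfl h3
      · intro _
        have h4 := h1.1 (Sum.inr i)
        change w i ∈ maximalIdeal P at h4
        rw [h.mem_max] at h4
        exact fun h5 => h4 ⟨fun h6 => h1.ne_zero (Sum.inr i) (Subtype.ext h6), h5⟩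
    · have h3 := congrArg (P.subtype) hc
      rw [map_sum] at h3
      rw [Fintype.sum_sum_type]
      rw [Fintype.sum_sum_type] at h3
      have h4 : (y : F) = P.subtype ⟨y, hy⟩ := rfl
      rw [h4, ← h3]
      congr 1
      refine Fintype.sum_of_injective (Subtype.val : N → ι) Subtype.val_injective _ _ ?_ ?_
      · intro i hi
        change (if hi : (⟨x i, h.mem i⟩ : P) ∈ maximalIdeal P then (c (Sum.inl ⟨i, hi⟩) : F)
          else 0) * x i = 0
        rw [dif_neg, zero_mul]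
        intro h5
        exact hi ⟨⟨i, h5⟩, rfl⟩
      · intro i
        change P.subtype (c (Sum.inl i) * _) =
          (if hi : (⟨x i, h.mem i⟩ : P) ∈ maximalIdeal P then (c (Sum.inl ⟨i, hi⟩) : F)
          else 0) * x i
        rw [dif_pos i.2]
        rfl

end regp


end qt

section ofreg

variable {F : Type u} [Field F]

/-- The local ring `P` with the empty system of parameters. -/
lemma RegP.of_reg {A P : Subring F} (hPA : P ≤ A) (hinv : IC A P) (hreg : IsRegularLocalRing P) :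
    RegP A P (Empty.elim : Empty → F) where
  PA := hPA
  ne := fun i => i.elim
  mem := fun i => i.elim
  reg := hreg
  inv := hinv
  ind := by
    intro c _ _ i
    exact i.elim


end ofreg

section nu

variable {F : Type u} [Field F]

section loc

variable {A : Subring F}

lemma NU.mul {a b : F} (ha : a ∈ A) (h : NU A b) : NU A (a * b) := by
  rintro ⟨h0, h1⟩
  refine h ⟨right_ne_zero_of_mul h0, ?_⟩
  have h2 : b⁻¹ = a * (a * b)⁻¹ := by
    have ha0 := left_ne_zero_of_mul h0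
    have hb0 := right_ne_zero_of_mul h0
    field_simp
  rw [h2]
  exact A.mul_mem ha h1

lemma NU.add (hA : Loc A) {a b : F} (ha : a ∈ A) (hb : b ∈ A) (h1 : NU A a) (h2 : NU A b) :
    NU A (a + b) := by
  rintro ⟨h0, h3⟩
  have key : ∀ a : F, NU A a → ¬ (a * (a + b)⁻¹ ≠ 0 ∧ (a * (a + b)⁻¹)⁻¹ ∈ A) → True :=
    fun _ _ _ => trivial
  have e1 : NU A (a * (a + b)⁻¹) := by
    rw [mul_comm]; exact h1.mul h3
  have e2 : NU A (b * (a + b)⁻¹) := by
    rw [mul_comm]; exact h2.mul h3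
  have e3 : 1 - a * (a + b)⁻¹ = b * (a + b)⁻¹ := by
    field_simp
    ring
  rcases hA (a * (a + b)⁻¹) (A.mul_mem ha h3) with h | h
  · exact e1 h
  · rw [e3] at h
    exact e2 h

lemma NU.zero : NU A 0 := fun h => h.1 rfl

lemma NU.sum (hA : Loc A) {ι : Type} (s : Finset ι) {f : ι → F} (hf : ∀ i ∈ s, f i ∈ A)
    (h : ∀ i ∈ s, NU A (f i)) : NU A (∑ i ∈ s, f i) := by
  classical
  induction s using Finset.induction_on with
  | empty => simpa using NU.zero
  | insert a s ha ih =>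
    rw [Finset.sum_insert ha]
    refine NU.add hA (hf a (Finset.mem_insert_self _ _)) (A.sum_mem fun i hi => hf i
      (Finset.mem_insert_of_mem hi)) (h a (Finset.mem_insert_self _ _)) ?_
    exact ih (fun i hi => hf i (Finset.mem_insert_of_mem hi))
      (fun i hi => h i (Finset.mem_insert_of_mem hi))

lemma not_NU_one : ¬ NU A 1 := fun h => h ⟨one_ne_zero, by rw [inv_one]; exact A.one_mem⟩

end loc


end nu

section fulls

variable {F : Type u} [Field F] {A P : Subring F} {ι : Type} [Fintype ι] {x : ι → F}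

/-- A parameter which divides. -/
lemma Full.exists_dvd (hA : Loc A) (hPA : P ≤ A) (hx : ∀ i, x i ∈ P) (hf : Full A P x) {z : F}
    (hz : Mi A P z) : ∃ j, (x j)⁻¹ ∉ A ∧ z * (x j)⁻¹ ∈ A ∧ x j ≠ 0 := by
  obtain ⟨c, hc, hc0, hcz⟩ := hf z hz.mem hz.NU
  have h1 : (1 : F) = ∑ i, c i * (x i * z⁻¹) := by
    rw [← mul_inv_cancel₀ hz.ne]
    nth_rewrite 1 [hcz]
    rw [Finset.sum_mul]
    exact Finset.sum_congr rfl fun i _ => by ring
  have hxA : ∀ i, c i ≠ 0 → x i * z⁻¹ ∈ A := fun i hi =>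
    hz.min (x i) (hx i) fun h => hc0 i hi h.2
  by_contra hcon
  push Not at hcon
  refine not_NU_one (A := A) ?_
  rw [h1]
  refine NU.sum hA _ (fun i _ => ?_) (fun i _ => ?_)
  · by_cases hi : c i = 0
    · rw [hi, zero_mul]; exact A.zero_mem
    · exact A.mul_mem (hPA (hc i)) (hxA i hi)
  · by_cases hi : c i = 0
    · rw [hi, zero_mul]; exact NU.zero
    · refine NU.mul (hPA (hc i)) ?_
      rintro ⟨h3, h4⟩
      rw [mul_inv, inv_inv, mul_comm] at h4
      exact left_ne_zero_of_mul h3 (hcon i (hc0 i hi) h4)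

lemma Mi.of_dvd {z z' : F} (hz : Mi A P z) (hm : z' ∈ P) (h0 : z' ≠ 0) (hn : z'⁻¹ ∉ A)
    (h : z * z'⁻¹ ∈ A) : Mi A P z' where
  mem := hm
  ne := h0
  nu := hn
  min := by
    intro y hy hyn
    have h1 : y * z'⁻¹ = (y * z⁻¹) * (z * z'⁻¹) := by
      have := hz.ne
      field_simp
    rw [h1]
    exact A.mul_mem (hz.min y hy hyn) h


end fulls

/-- `D` is a derivation of `S` into `K`, where `S` acts on `K` by `φ`. -/
structure Der {S K : Type u} [CommRing S] [Field K] (φ : S →+* K) (D : S → K) : Prop where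
  add : ∀ a b, D (a + b) = D a + D b
  mul : ∀ a b, D (a * b) = φ a * D b + φ b * D a

section jet

variable {S F K : Type u} [CommRing S] [IsDomain S] [Field F] [Algebra S F] [IsFractionRing S F]
  [Field K] {φ : S →+* K} {D : S → K}

/-- The first order jets. -/
def JP (φ : S →+* K) (D : S → K) (z : F) (w δ : K) : Prop :=
  ∃ a b : S, φ b ≠ 0 ∧ z * algebraMap S F b = algebraMap S F a ∧ w * φ b = φ a ∧
    δ * φ b = D a - w * D b

lemma JP.pr {z : F} {w δ : K} (h : JP φ D z w δ) : Pr φ z w := by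
  obtain ⟨a, b, h1, h2, h3, -⟩ := h
  exact ⟨a, b, h1, h2, h3⟩

lemma Pr.jp (D : S → K) {z : F} {w : K} (h : Pr φ z w) : ∃ δ, JP φ D z w δ := by
  obtain ⟨a, b, h1, h2, h3⟩ := h
  refine ⟨(D a - w * D b) / φ b, a, b, h1, h2, h3, ?_⟩
  rw [div_mul_cancel₀ _ h1]

lemma JP.unique (hD : Der φ D) {z : F} {w w' δ δ' : K} (h : JP φ D z w δ) (h' : JP φ D z w' δ') :
    δ = δ' := by
  have hw : w = w' := h.pr.unique h'.pr
  subst hw
  obtain ⟨a, b, hb, h1, h2, h3⟩ := h
  obtain ⟨a', b', hb', h4, h5, h6⟩ := h'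
  have h7 : a * b' = a' * b := by
    apply IsFractionRing.injective S F
    rw [map_mul, map_mul, ← h1, ← h4]
    ring
  have h8 := congrArg D h7
  rw [hD.mul, hD.mul] at h8
  apply mul_right_cancel₀ (mul_ne_zero hb hb')
  linear_combination φ b' * h3 - φ b * h6 + h8 + D b' * h2 - D b * h5

open Classical in
/-- The value of the derivation. -/
noncomputable def dd (φ : S →+* K) (D : S → K) (z : F) : K :=
  if h : ∃ w δ, JP φ D z w δ then h.choose_spec.choose else 0

lemma JP.dd (hD : Der φ D) {z : F} {w δ : K} (h : JP φ D z w δ) : dd φ D z = δ := by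
  have h1 : ∃ w δ, JP φ D z w δ := ⟨w, δ, h⟩
  unfold Pool.Agent.Run7.h275.RL.dd
  rw [dif_pos h1]
  exact h1.choose_spec.choose_spec.unique hD h

lemma Pr.jp_dd (hD : Der φ D) {z : F} {w : K} (h : Pr φ z w) : JP φ D z w (dd φ D z) := by
  obtain ⟨δ, hδ⟩ := Pr.jp D h
  rwa [hδ.dd hD]

lemma dd_alg (hD : Der φ D) (a : S) : dd φ D (algebraMap S F a) = D a := by
  refine JP.dd hD (w := φ a) ⟨a, 1, by rw [map_one]; exact one_ne_zero, by rw [map_one, mul_one],
    by rw [map_one, mul_one], ?_⟩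
  have h1 := hD.mul 1 1
  rw [map_one, mul_one, one_mul] at h1
  have h2 : D 1 = 0 := by linear_combination -h1
  rw [map_one, h2, mul_zero, sub_zero, mul_one]

lemma dd_add (hD : Der φ D) {z z' : F} {w w' : K} (h : Pr φ z w) (h' : Pr φ z' w') :
    dd φ D (z + z') = dd φ D z + dd φ D z' := by
  obtain ⟨a, b, hb, h1, h2, h3⟩ := Pr.jp_dd hD h
  obtain ⟨a', b', hb', h4, h5, h6⟩ := Pr.jp_dd hD h'
  refine JP.dd hD (w := w + w') ⟨a * b' + a' * b, b * b', by rw [map_mul]; exact mul_ne_zero hb hb',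
    ?_, ?_, ?_⟩
  · rw [map_add, map_mul, map_mul, map_mul, ← h1, ← h4]; ring
  · rw [map_add, map_mul, map_mul, map_mul, ← h2, ← h5]; ring
  · rw [hD.add, hD.mul, hD.mul, hD.mul, map_mul]
    linear_combination φ b' * h3 + φ b * h6 + D b' * h2 + D b * h5

lemma dd_mul (hD : Der φ D) {z z' : F} {w w' : K} (h : Pr φ z w) (h' : Pr φ z' w') :
    dd φ D (z * z') = w * dd φ D z' + w' * dd φ D z := by
  obtain ⟨a, b, hb, h1, h2, h3⟩ := Pr.jp_dd hD h
  obtain ⟨a', b', hb', h4, h5, h6⟩ := Pr.jp_dd hD h'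
  refine JP.dd hD (w := w * w') ⟨a * a', b * b', by rw [map_mul]; exact mul_ne_zero hb hb',
    ?_, ?_, ?_⟩
  · rw [map_mul, map_mul, ← h1, ← h4]; ring
  · rw [map_mul, map_mul, ← h2, ← h5]; ring
  · rw [hD.mul, hD.mul, map_mul]
    linear_combination w' * φ b' * h3 + w * φ b * h6 + D a * h5 + D a' * h2

lemma dd_zero (hD : Der φ D) : dd φ D (0 : F) = 0 := by
  have h := dd_add hD (F := F) Pr.zero Pr.zero
  rw [add_zero] at h
  linear_combination -h

lemma dd_one (hD : Der φ D) : dd φ D (1 : F) = 0 := by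
  have h := dd_mul hD (F := F) Pr.one Pr.one
  rw [mul_one, one_mul] at h
  linear_combination -h

lemma dd_neg (hD : Der φ D) {z : F} {w : K} (h : Pr φ z w) : dd φ D (-z) = -dd φ D z := by
  have h1 := dd_add hD h h.neg
  rw [add_neg_cancel, dd_zero hD] at h1
  linear_combination -h1

lemma dd_inv (hD : Der φ D) {z : F} {w : K} (h : Pr φ z w) (hw : w ≠ 0) :
    dd φ D z⁻¹ = -(w⁻¹ * w⁻¹ * dd φ D z) := by
  have h1 := dd_mul hD h (h.inv hw)
  rw [mul_inv_cancel₀ (h.ne_zero hw), dd_one hD] at h1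
  have h2 : w * dd φ D z⁻¹ = -(w⁻¹ * dd φ D z) := by linear_combination -h1
  rw [← inv_mul_cancel_left₀ hw (dd φ D z⁻¹), h2]
  ring

lemma dd_sum (hD : Der φ D) {ι : Type} (s : Finset ι) {z : ι → F} {w : ι → K}
    (h : ∀ i ∈ s, Pr φ (z i) (w i)) : dd φ D (∑ i ∈ s, z i) = ∑ i ∈ s, dd φ D (z i) := by
  classical
  induction s using Finset.induction_on with
  | empty => simpa using dd_zero hD
  | insert a s ha ih =>
    rw [Finset.sum_insert ha, Finset.sum_insert ha, dd_add hD (h a (Finset.mem_insert_self _ _))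
      (Pr.sum s fun i hi => h i (Finset.mem_insert_of_mem hi)),
      ih fun i hi => h i (Finset.mem_insert_of_mem hi)]

/-- The subring of elements with bounded derivatives. -/
noncomputable def BB (F : Type u) [Field F] [Algebra S F] [IsFractionRing S F] (V : ValuationSubring K)
    (hD : Der φ D) (C : K) : Subring F where
  carrier := {z | ∃ w ∈ V, Pr φ z w ∧ C * dd φ D z ∈ V}
  mul_mem' := by
    rintro z z' ⟨w, hw, h, h1⟩ ⟨w', hw', h', h1'⟩
    refine ⟨_, V.mul_mem _ _ hw hw', h.mul h', ?_⟩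
    rw [dd_mul hD h h']
    have h2 : C * (w * dd φ D z' + w' * dd φ D z) = w * (C * dd φ D z') + w' * (C * dd φ D z) := by
      ring
    rw [h2]
    exact V.add_mem _ _ (V.mul_mem _ _ hw h1') (V.mul_mem _ _ hw' h1)
  one_mem' := ⟨1, V.one_mem, Pr.one, by rw [dd_one hD, mul_zero]; exact V.zero_mem⟩
  add_mem' := by
    rintro z z' ⟨w, hw, h, h1⟩ ⟨w', hw', h', h1'⟩
    refine ⟨_, V.add_mem _ _ hw hw', h.add h', ?_⟩
    rw [dd_add hD h h', mul_add]
    exact V.add_mem _ _ h1 h1'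
  zero_mem' := ⟨0, V.zero_mem, Pr.zero, by rw [dd_zero hD, mul_zero]; exact V.zero_mem⟩
  neg_mem' := by
    rintro z ⟨w, hw, h, h1⟩
    refine ⟨_, V.neg_mem _ hw, h.neg, ?_⟩
    rw [dd_neg hD h, mul_neg]
    exact V.neg_mem _ h1

variable {V : ValuationSubring K}

lemma mem_BB (hD : Der φ D) {C : K} {z : F} : z ∈ BB F V hD C ↔
    ∃ w ∈ V, Pr φ z w ∧ C * dd φ D z ∈ V := Iff.rfl

lemma lo_le_BB (hD : Der φ D) {C : K} {B : Subring F} (hB : B ≤ BB F V hD C) :
    lo (AA F φ V) B ≤ BB F V hD C := by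
  rintro _ ⟨a, ha, b, hb, hb0, hbA, rfl⟩
  refine (BB F V hD C).mul_mem (hB ha) ?_
  obtain ⟨w, hw, h, h1⟩ := hB hb
  obtain ⟨w', hw', h'⟩ := hbA
  have h2 : w * w' = 1 := by
    have h3 := h.mul h'
    rw [mul_inv_cancel₀ hb0] at h3
    exact h3.unique Pr.one
  have hw0 : w ≠ 0 := left_ne_zero_of_mul_eq_one h2
  have hwi : w⁻¹ = w' := (eq_inv_of_mul_eq_one_right h2).symm
  refine ⟨w', hw', h', ?_⟩
  rw [dd_inv hD h hw0, hwi]
  have h3 : C * -(w' * w' * dd φ D b) = -(w' * w' * (C * dd φ D b)) := by ring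
  rw [h3]
  exact V.neg_mem _ (V.mul_mem _ _ (V.mul_mem _ _ hw' hw') h1)

variable (φ)

/-- The values of the elements of `P`. -/
def im (P : Subring F) : Subring K where
  carrier := {w | ∃ z ∈ P, Pr φ z w}
  mul_mem' := by
    rintro w w' ⟨z, hz, h⟩ ⟨z', hz', h'⟩
    exact ⟨_, P.mul_mem hz hz', h.mul h'⟩
  one_mem' := ⟨1, P.one_mem, Pr.one⟩
  add_mem' := by
    rintro w w' ⟨z, hz, h⟩ ⟨z', hz', h'⟩
    exact ⟨_, P.add_mem hz hz', h.add h'⟩
  zero_mem' := ⟨0, P.zero_mem, Pr.zero⟩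
  neg_mem' := by
    rintro w ⟨z, hz, h⟩
    exact ⟨_, P.neg_mem hz, h.neg⟩

variable {φ}

lemma mem_im {P : Subring F} {w : K} : w ∈ im φ P ↔ ∃ z ∈ P, Pr φ z w := Iff.rfl

lemma im_mono {P P' : Subring F} (h : P ≤ P') : im φ P ≤ im φ P' := by
  rintro w ⟨z, hz, h1⟩
  exact ⟨z, h hz, h1⟩

lemma Pr.inv_AA {z : F} {w : K} (h : Pr φ z w) : z ≠ 0 ∧ z⁻¹ ∈ AA F φ V ↔ w ≠ 0 ∧ w⁻¹ ∈ V := by
  constructor
  · rintro ⟨h0, w', hw', h'⟩
    have h2 : w * w' = 1 := by
      have h3 := h.mul h'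
      rw [mul_inv_cancel₀ h0] at h3
      exact h3.unique Pr.one
    refine ⟨left_ne_zero_of_mul_eq_one h2, ?_⟩
    rwa [← eq_inv_of_mul_eq_one_right h2]
  · rintro ⟨h0, h1⟩
    exact ⟨h.ne_zero h0, w⁻¹, h1, h.inv h0⟩

lemma Pr.nu {z : F} {w : K} (h : Pr φ z w) : NU (AA F φ V) z ↔ NU V.toSubring w := by
  unfold NU
  rw [Pr.inv_AA h]
  rfl

lemma im_lo {B : Subring F} (hB : B ≤ AA F φ V) :
    im φ (lo (AA F φ V) B) = lo V.toSubring (im φ B) := by
  apply le_antisymm
  · rintro w ⟨_, ⟨a, ha, b, hb, hb0, hbA, rfl⟩, hw⟩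
    obtain ⟨wa, hwa, ha'⟩ := hB ha
    obtain ⟨wb, hwb, hb'⟩ := hB hb
    obtain ⟨h1, h2⟩ := (Pr.inv_AA hb').1 ⟨hb0, hbA⟩
    refine ⟨wa, ⟨a, ha, ha'⟩, wb, ⟨b, hb, hb'⟩, h1, h2, ?_⟩
    exact hw.unique (ha'.mul (hb'.inv h1))
  · rintro _ ⟨wa, ⟨a, ha, ha'⟩, wb, ⟨b, hb, hb'⟩, h1, h2, rfl⟩
    obtain ⟨h3, h4⟩ := (Pr.inv_AA (V := V) hb').2 ⟨h1, h2⟩
    exact ⟨a * b⁻¹, ⟨a, ha, b, hb, h3, h4, rfl⟩, ha'.mul (hb'.inv h1)⟩

/-- Lifting of elements of minimal value. -/
lemma Mi.lift {P : Subring F} (hP : P ≤ AA F φ V) {e : K} {z : F} (he : Mi V.toSubring (im φ P) e)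
    (hz : z ∈ P) (h : Pr φ z e) : Mi (AA F φ V) P z where
  mem := hz
  ne := h.ne_zero he.ne
  nu := by
    intro h1
    exact he.nu ((Pr.inv_AA h).1 ⟨h.ne_zero he.ne, h1⟩).2
  min := by
    intro y hy hyn
    obtain ⟨w, hw, hyw⟩ := hP hy
    have h1 := he.min w ⟨y, hy, hyw⟩ ((Pr.nu hyw).1 hyn)
    exact ⟨w * e⁻¹, h1, hyw.mul (h.inv he.ne)⟩

/-- The values of the elements of the quadratic transform. -/
theorem im_qt {P : Subring F} (hP : P ≤ AA F φ V) {e : K} {z : F}
    (he : Mi V.toSubring (im φ P) e) (hz : z ∈ P) (h : Pr φ z e) :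
    im φ (qt (AA F φ V) P) = qt V.toSubring (im φ P) := by
  have hM := he.lift hP hz h
  have hPV : im φ P ≤ V.toSubring := by
    rintro w ⟨y, hy, hw⟩
    exact (hw.mem_AA).1 (hP hy)
  rw [qt_eq hP hM, qt_eq hPV he]
  unfold QP
  rw [im_lo (qcl_le hP hM)]
  congr 1
  apply le_antisymm
  · -- the subring of elements with values in the closure
    let R : Subring F :=
      { carrier := {y | ∃ w ∈ Subring.closure ((im φ P : Set K) ∪
          {t | ∃ y ∈ im φ P, NU V.toSubring y ∧ t = y * e⁻¹}), Pr φ y w}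
        mul_mem' := by
          rintro z z' ⟨w, hw, h⟩ ⟨w', hw', h'⟩
          exact ⟨_, Subring.mul_mem _ hw hw', h.mul h'⟩
        one_mem' := ⟨1, Subring.one_mem _, Pr.one⟩
        add_mem' := by
          rintro z z' ⟨w, hw, h⟩ ⟨w', hw', h'⟩
          exact ⟨_, Subring.add_mem _ hw hw', h.add h'⟩
        zero_mem' := ⟨0, Subring.zero_mem _, Pr.zero⟩
        neg_mem' := by
          rintro z ⟨w, hw, h⟩
          exact ⟨_, Subring.neg_mem _ hw, h.neg⟩ }
    have hR : Subring.closure ((P : Set F) ∪ {t | ∃ y ∈ P, NU (AA F φ V) y ∧ t = y * z⁻¹}) ≤ R := by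
      rw [Subring.closure_le]
      rintro t (ht | ⟨y, hy, hyn, rfl⟩)
      · obtain ⟨w, hw, h1⟩ := hP ht
        exact ⟨w, Subring.subset_closure (Or.inl ⟨t, ht, h1⟩), h1⟩
      · obtain ⟨w, hw, h1⟩ := hP hy
        exact ⟨w * e⁻¹, Subring.subset_closure (Or.inr ⟨w, ⟨y, hy, h1⟩, (Pr.nu h1).1 hyn, rfl⟩),
          h1.mul (h.inv he.ne)⟩
    rintro w ⟨y, hy, hyw⟩
    obtain ⟨w', hw', h1⟩ := hR hy
    rwa [hyw.unique h1]
  · rw [Subring.closure_le]
    rintro t (⟨y, hy, hyt⟩ | ⟨w, ⟨y, hy, hyw⟩, hwn, rfl⟩)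
    · exact ⟨y, Subring.subset_closure (Or.inl hy), hyt⟩
    · exact ⟨y * z⁻¹, Subring.subset_closure (Or.inr ⟨y, hy, (Pr.nu hyw).2 hwn, rfl⟩),
        hyw.mul (h.inv he.ne)⟩

end jet


section init

variable {S F K : Type u} [CommRing S] [IsDomain S] [Field F] [Algebra S F] [IsFractionRing S F]
  [Field K] {φ : S →+* K} {V : ValuationSubring K}

/-- The local ring of the ambient scheme is regular. -/
theorem regular_range [IsRegularRing S] (hφV : ∀ s, φ s ∈ V) :
    IsRegularLocalRing (lo (AA F φ V) (algebraMap S F).range) := by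
  set W := AA F φ V with hW
  set P := lo W (algebraMap S F).range with hP
  have hRW : (algebraMap S F).range ≤ W := by
    rintro _ ⟨s, rfl⟩
    exact ⟨φ s, hφV s, Pr.alg s⟩
  have hRP : ∀ s : S, algebraMap S F s ∈ P := fun s => le_lo _ _ ⟨s, rfl⟩
  let ψ : S →+* P := (algebraMap S F).codRestrict P hRP
  let _ : Algebra S P := ψ.toAlgebra
  have halg : ∀ a : S, ((algebraMap S P a : P) : F) = algebraMap S F a := fun a => rfl
  have hloc : IsLocalRing P := isLocalRing_lo loc_AA hRW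
  let 𝔭 : Ideal S := (maximalIdeal P).comap (algebraMap S P)
  have hu : ∀ a : S, a ∉ 𝔭 ↔ IsUnit (algebraMap S P a) := by
    intro a
    change ¬ (algebraMap S P a ∈ maximalIdeal P) ↔ _
    rw [mem_maximalIdeal, mem_nonunits_iff, not_not]
  have hprime : 𝔭.IsPrime := Ideal.IsPrime.comap _
  have hL : IsLocalization.AtPrime P 𝔭 :=
    { map_units := fun y => (hu y.1).1 y.2
      surj := by
        rintro ⟨z, a, ha, b, hb, hb0, hbW, rfl⟩
        obtain ⟨a', rfl⟩ := ha
        obtain ⟨b', rfl⟩ := hb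
        refine ⟨(a', ⟨b', ?_⟩), ?_⟩
        · change b' ∉ 𝔭
          rw [hu, isUnit_lo_iff hRW]
          exact ⟨hb0, hbW⟩
        · apply Subtype.ext
          change algebraMap S F a' * (algebraMap S F b')⁻¹ * algebraMap S F b' = algebraMap S F a'
          rw [mul_assoc, inv_mul_cancel₀ hb0, mul_one]
      exists_of_eq := by
        intro a b h
        refine ⟨1, ?_⟩
        have h1 : a = b := IsFractionRing.injective S F (congrArg (Subtype.val : P → F) h)
        rw [h1] }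
  have hreg : IsRegularLocalRing (Localization.AtPrime 𝔭) :=
    IsRegularRing.isRegularLocalRing_localization 𝔭
  exact IsRegularLocalRing.of_ringEquiv
    (IsLocalization.algEquiv 𝔭.primeCompl (Localization.AtPrime 𝔭) P).toRingEquiv


end init

section det

variable {K : Type u} [Field K] {V : ValuationSubring K}

lemma det_mem {r : ℕ} (C : K) (M : Matrix (Fin r) (Fin r) K) (h : ∀ i j, C * M i j ∈ V) :
    C ^ r * M.det ∈ V := by
  have h1 : (C • M).det = C ^ r * M.det := by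
    rw [Matrix.det_smul, Fintype.card_fin]
  rw [← h1]
  let N : Matrix (Fin r) (Fin r) V.toSubring := fun i j => ⟨C * M i j, h i j⟩
  have h2 : (V.toSubring.subtype).mapMatrix N = C • M := by
    ext i j
    rfl
  rw [← h2, ← RingHom.map_det]
  exact (N.det).2

end det
section models

open Pool.Agent.H918R2.Quad

variable {O F : Type} [CommRing O] [Field F] [Algebra O F]

lemma mul_lt_one_aux {V : ValuationSubring F} {a b : V.ValueGroup} (ha : a ≤ 1) (hb : b < 1) :
    a * b < 1 := (mul_le_of_le_one_of_le ha le_rfl).trans_lt hb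

lemma mul_lt_one_aux' {V : ValuationSubring F} {a b : V.ValueGroup} (ha : a < 1) (hb : b ≤ 1) :
    a * b < 1 := by
  rw [mul_comm]
  exact mul_lt_one_aux hb ha

lemma chart_pow_mem {M : Submodule O F} {g : F} (hg : g ∈ M) (hg0 : g ≠ 0) {y : F}
    (hy : y ∈ chart O M g) : ∃ k : ℕ, ∀ l, k ≤ l → y * g ^ l ∈ M ^ l := by
  induction hy using Algebra.adjoin_induction with
  | mem y hy =>
    obtain ⟨m, hm, rfl⟩ := hy
    refine ⟨1, fun l hl => ?_⟩
    obtain ⟨l, rfl⟩ := Nat.exists_eq_add_of_le' hl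
    have h1 : m / g * g ^ (l + 1) = m * g ^ l := by
      rw [pow_succ']
      field_simp
    rw [h1, pow_succ' M]
    exact Submodule.mul_mem_mul hm (Submodule.pow_mem_pow _ hg _)
  | algebraMap r =>
    refine ⟨0, fun l _ => ?_⟩
    rw [← Algebra.smul_def]
    exact Submodule.smul_mem _ _ (Submodule.pow_mem_pow _ hg _)
  | add a b _ _ ha hb =>
    obtain ⟨k, hk⟩ := ha
    obtain ⟨k', hk'⟩ := hb
    refine ⟨max k k', fun l hl => ?_⟩
    rw [add_mul]
    exact Submodule.add_mem _ (hk l ((le_max_left _ _).trans hl))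
      (hk' l ((le_max_right _ _).trans hl))
  | mul a b _ _ ha hb =>
    obtain ⟨k, hk⟩ := ha
    obtain ⟨k', hk'⟩ := hb
    refine ⟨k + k', fun l hl => ?_⟩
    obtain ⟨e, rfl⟩ := Nat.exists_eq_add_of_le hl
    have h1 : a * b * g ^ (k + k' + e) = (a * g ^ k) * (b * g ^ (k' + e)) := by
      rw [add_assoc, pow_add]; ring
    rw [h1, add_assoc, pow_add]
    exact Submodule.mul_mem_mul (hk k le_rfl) (hk' _ (Nat.le_add_right _ _))

lemma pow_div_mem {M : Submodule O F} {g : F} (hg0 : g ≠ 0) (k : ℕ) :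
    ∀ m ∈ M ^ k, m / g ^ k ∈ chart O M g := by
  induction k with
  | zero =>
    intro m hm
    rw [pow_zero, Submodule.mem_one] at hm
    obtain ⟨o, rfl⟩ := hm
    rw [pow_zero, div_one]
    exact Subalgebra.algebraMap_mem _ o
  | succ k ih =>
    intro m hm
    rw [pow_succ] at hm
    refine Submodule.mul_induction_on hm (fun a ha b hb => ?_) (fun a b ha hb => ?_)
    · rw [pow_succ, mul_div_mul_comm]
      exact Subalgebra.mul_mem _ (ih a ha) (Algebra.subset_adjoin ⟨b, hb, rfl⟩)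
    · rw [add_div]
      exact Subalgebra.add_mem _ ha hb

lemma chart_noeth [IsNoetherianRing O] {M : Submodule O F} (hM : M.FG) (g : F) :
    IsNoetherianRing (chart O M g) := by
  obtain ⟨s, hs⟩ := hM
  have h1 : chart O M g = Algebra.adjoin O ((fun m => m / g) '' (s : Set F)) := by
    apply le_antisymm
    · refine Algebra.adjoin_le ?_
      rintro _ ⟨m, hm, rfl⟩
      change m / g ∈ Algebra.adjoin O ((fun m => m / g) '' (s : Set F))
      rw [← hs] at hm
      induction hm using Submodule.span_induction with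
      | mem m hm => exact Algebra.subset_adjoin ⟨m, hm, rfl⟩
      | zero => rw [zero_div]; exact Subalgebra.zero_mem _
      | add a b _ _ ha hb => rw [add_div]; exact Subalgebra.add_mem _ ha hb
      | smul c a _ ha => rw [smul_div_assoc]; exact Subalgebra.smul_mem _ ha c
    · refine Algebra.adjoin_mono ?_
      rintro _ ⟨m, hm, rfl⟩
      exact ⟨m, hs ▸ Submodule.subset_span hm, rfl⟩
  rw [h1]
  have : Algebra.FiniteType O (Algebra.adjoin O ((fun m => m / g) '' (s : Set F))) :=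
    (Subalgebra.fg_iff_finiteType _).1 (Subalgebra.fg_def.2 ⟨_, s.finite_toSet.image _, rfl⟩)
  exact Algebra.FiniteType.isNoetherianRing O _


lemma chart_le_V {W : ValuationSubring F} (hOW : ∀ o, algebraMap O F o ∈ W) {M : Submodule O F}
    {g : F} (hMW : ∀ m ∈ M, m / g ∈ W) : (chart O M g).toSubring ≤ W.toSubring := by
  let V' : Subalgebra O F := { W.toSubring with algebraMap_mem' := hOW }
  have : chart O M g ≤ V' := Algebra.adjoin_le (by
    rintro _ ⟨m, hm, rfl⟩
    exact hMW m hm)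
  exact this

lemma chart_le_lo {W : ValuationSubring F} {M : Submodule O F} {g₁ g₂ : F} (h₁ : g₁ ∈ M)
    (h₁0 : g₁ ≠ 0) (h₂ : g₂ ∈ M) (h₂0 : g₂ ≠ 0) (hM₁ : ∀ m ∈ M, m / g₁ ∈ W)
    (hM₂ : (chart O M g₂).toSubring ≤ W.toSubring) :
    (chart O M g₁).toSubring ≤ lo W.toSubring (chart O M g₂).toSubring := by
  let C : Subalgebra O F := { lo W.toSubring (chart O M g₂).toSubring with
    algebraMap_mem' := fun o => le_lo _ _ (Subalgebra.algebraMap_mem (chart O M g₂) o) }
  have : chart O M g₁ ≤ C := Algebra.adjoin_le (by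
    rintro _ ⟨m, hm, rfl⟩
    refine ⟨m / g₂, Algebra.subset_adjoin ⟨m, hm, rfl⟩, g₁ / g₂,
      Algebra.subset_adjoin ⟨g₁, h₁, rfl⟩, div_ne_zero h₁0 h₂0, ?_, ?_⟩
    · rw [inv_div]
      exact hM₁ _ h₂
    · field_simp)
  exact this

lemma lo_chart_eq {W : ValuationSubring F} (hOW : ∀ o, algebraMap O F o ∈ W)
    {M : Submodule O F} {g₁ g₂ : F} (h₁ : g₁ ∈ M)
    (h₁0 : g₁ ≠ 0) (h₂ : g₂ ∈ M) (h₂0 : g₂ ≠ 0) (hM₁ : ∀ m ∈ M, m / g₁ ∈ W)
    (hM₂ : ∀ m ∈ M, m / g₂ ∈ W) :
    lo W.toSubring (chart O M g₁).toSubring = lo W.toSubring (chart O M g₂).toSubring :=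
  le_antisymm (lo_le_lo (chart_le_V hOW hM₂) (chart_le_lo h₁ h₁0 h₂ h₂0 hM₁ (chart_le_V hOW hM₂)))
    (lo_le_lo (chart_le_V hOW hM₁) (chart_le_lo h₂ h₂0 h₁ h₁0 hM₂ (chart_le_V hOW hM₁)))


lemma val_lt_iff {K : Type u} [Field K] {V : ValuationSubring K} {x : K} (hx : x ≠ 0) :
    V.valuation x < 1 ↔ x⁻¹ ∉ V := by
  rw [← ValuationSubring.valuation_le_one_iff, map_inv₀, not_le,
    one_lt_inv₀ ((Valuation.pos_iff _).2 hx)]


/-- `Q` is the local ring of the model attached to `M` at the centre of `W`. -/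
def LR (W : ValuationSubring F) (M : Submodule O F) (Q : Subring F) : Prop :=
  ∃ g ∈ M, g ≠ 0 ∧ (∀ m ∈ M, m / g ∈ W) ∧ lo W.toSubring (chart O M g).toSubring = Q

lemma LR.unique {W : ValuationSubring F} (hOW : ∀ o, algebraMap O F o ∈ W) {M : Submodule O F}
    {Q Q' : Subring F} (h : LR W M Q) (h' : LR W M Q') : Q = Q' := by
  obtain ⟨g, hg, hg0, hgW, rfl⟩ := h
  obtain ⟨g', hg', hg'0, hg'W, rfl⟩ := h'
  exact lo_chart_eq hOW hg hg0 hg' hg'0 hgW hg'W


lemma LR.facts {W : ValuationSubring F} (hOW : ∀ o, algebraMap O F o ∈ W) {M : Submodule O F} {Q : Subring F}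
    (h : LR W M Q) : Q ≤ W.toSubring ∧ IC W.toSubring Q := by
  obtain ⟨g, hg, hg0, hgW, rfl⟩ := h
  exact ⟨lo_le (chart_le_V hOW hgW), ic_lo (chart_le_V hOW hgW)⟩

/-- Local rings of the model which are dominated by `W`. -/
lemma LR.transfer {V W : ValuationSubring F} (hOV : ∀ o, algebraMap O F o ∈ V)
    (hOW : ∀ o, algebraMap O F o ∈ W) {M : Submodule O F} {Q : Subring F} (h : LR V M Q)
    (hQW : Q ≤ W.toSubring) (hIC : IC W.toSubring Q) : LR W M Q := by
  obtain ⟨hQV, hICV⟩ := LR.facts hOV h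
  obtain ⟨g, hg, hg0, hgV, hQ⟩ := h
  have hBQ : (chart O M g).toSubring ≤ Q := by rw [← hQ]; exact le_lo _ _
  have hgW : ∀ m ∈ M, m / g ∈ W := fun m hm => hQW (hBQ (Algebra.subset_adjoin ⟨m, hm, rfl⟩))
  refine ⟨g, hg, hg0, hgW, ?_⟩
  rw [← hQ]
  apply le_antisymm
  · rintro _ ⟨a, ha, b, hb, hb0, hbi, rfl⟩
    exact ⟨a, ha, b, hb, hb0, hQV (hIC b (hBQ hb) hb0 hbi), rfl⟩
  · rintro _ ⟨a, ha, b, hb, hb0, hbi, rfl⟩
    exact ⟨a, ha, b, hb, hb0, hQW (hICV b (hBQ hb) hb0 hbi), rfl⟩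

lemma exists_gen_max {W : ValuationSubring F} (hOW : ∀ o, algebraMap O F o ∈ W)
    {M : Submodule O F} (hM : M.FG) {g : F} (hg : g ∈ M) (hg0 : g ≠ 0) :
    ∃ j ∈ M, j ≠ 0 ∧ ∀ m ∈ M, m / j ∈ W := by
  classical
  obtain ⟨G, hG⟩ := hM
  have hne : (G.filter fun j => j ≠ 0).Nonempty := by
    by_contra h
    rw [Finset.not_nonempty_iff_eq_empty] at h
    apply hg0
    have h1 : g ∈ Submodule.span O (G : Set F) := by rw [hG]; exact hg
    have h2 : Submodule.span O (G : Set F) ≤ ⊥ := by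
      rw [Submodule.span_le]
      intro j hj
      by_contra hj0
      have : j ∈ G.filter fun j => j ≠ 0 := Finset.mem_filter.2 ⟨hj, hj0⟩
      rw [h] at this
      exact absurd this (Finset.notMem_empty _)
    exact (Submodule.mem_bot O).1 (h2 h1)
  obtain ⟨j, hjG, hjmax⟩ := Finset.exists_max_image _ (fun j => W.valuation j) hne
  rw [Finset.mem_filter] at hjG
  refine ⟨j, by rw [← hG]; exact Submodule.subset_span hjG.1, hjG.2, fun m hm => ?_⟩
  rw [← hG] at hm
  induction hm using Submodule.span_induction with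
  | mem m hm =>
    by_cases hm0 : m = 0
    · rw [hm0, zero_div]; exact W.zero_mem
    · rw [← W.valuation_le_one_iff, map_div₀]
      exact div_le_one_of_le₀ (hjmax m (Finset.mem_filter.2 ⟨hm, hm0⟩)) zero_le
  | zero => rw [zero_div]; exact W.zero_mem
  | add a b _ _ ha hb => rw [add_div]; exact W.add_mem _ _ ha hb
  | smul c a _ ha =>
    rw [Algebra.smul_def, mul_div_assoc]
    exact W.mul_mem _ _ (hOW c) ha

lemma exists_LR {V : ValuationSubring F} (hOV : ∀ o, algebraMap O F o ∈ V) {M : Submodule O F}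
    (hM : M.FG) (hne : ∃ g ∈ M, g ≠ 0) : ∃ Q, LR V M Q := by
  obtain ⟨g, hg, hg0⟩ := hne
  obtain ⟨j, hj, hj0, hjV⟩ := exists_gen_max hOV hM hg hg0
  exact ⟨_, j, hj, hj0, hjV, rfl⟩


end models

end Pool.Agent.Run7.h275.RL
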